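import Pool.Agent.Lib.MP_b6945b_al.Bi.ALat

set_option autoImplicit false

/-!
Atoms of the lattice.
-/

namespace Pool.Agent.Lib.MP_b6945b_al.Bi

open Finset Filter Topology Pointwise
open scoped RealInnerProductSpace

namespace HSys

variable {E K X H : Type} [Group E] [Fintype E] [AddCommGroup K] [DistribMulAction E K]
  [NormedAddCommGroup H] [InnerProductSpace ℝ H] {F : K → X → X → ℤ} {S : HSys E H F}

lemma aatom_lim {u : Ultrafilter K} {x w y : H} {c : ℝ} (h : S.WLim u x w)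
    (hc : ∀ᶠ l in u, ⟪S.U l x, y⟫ = c) : ⟪w, y⟫ = c :=
  tendsto_nhds_unique (h y) (tendsto_const_nhds.congr' (hc.mono fun _ e => e.symm))

lemma aatom_sub {x : H} {l t : K} (h : S.U l x = S.U t x) : l - t ∈ S.stab x := by
  rw [mem_stab, sub_eq_neg_add, S.U_add, h, S.U_neg_U]

lemma At.zero (S : HSys E H F) (L : AddSubgroup K) : S.At L 0 := by
  exact ⟨Lat.zero, fun l _ => map_zero _, fun y _ => ⟨∅, fun l h => absurd (by simp) h⟩⟩

lemma At.add {L : AddSubgroup K} {x y : H} (hx : S.At L x) (hy : S.At L y) :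
    S.At L (x + y) := by
  classical
  refine ⟨hx.1.add hy.1, fun l hl => by rw [map_add, hx.2.1 l hl, hy.2.1 l hl], fun z hz => ?_⟩
  obtain ⟨T, hT⟩ := hx.2.2 z hz
  obtain ⟨T', hT'⟩ := hy.2.2 z hz
  refine ⟨T ∪ T', fun l h => ?_⟩
  by_cases h1 : ⟪S.U l x, z⟫ = 0
  · rw [map_add, inner_add_left, h1, zero_add] at h
    obtain ⟨t, ht, h2⟩ := hT' l h
    exact ⟨t, mem_union_right _ ht, h2⟩
  · obtain ⟨t, ht, h2⟩ := hT l h1
    exact ⟨t, mem_union_left _ ht, h2⟩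

lemma At.neg {L : AddSubgroup K} {x : H} (hx : S.At L x) : S.At L (-x) := by
  refine ⟨hx.1.neg, fun l hl => by rw [map_neg, hx.2.1 l hl], fun z hz => ?_⟩
  obtain ⟨T, hT⟩ := hx.2.2 z hz
  exact ⟨T, fun l h => hT l (by rwa [map_neg, inner_neg_left, neg_ne_zero] at h)⟩

lemma At.U {L : AddSubgroup K} {x : H} (hx : S.At L x) (l : K) : S.At L (S.U l x) := by
  refine ⟨hx.1.U l, fun m hm => by rw [S.U_comm, hx.2.1 m hm], fun z hz => ?_⟩
  obtain ⟨T, hT⟩ := hx.2.2 _ (hz.U (-l))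
  exact ⟨T, fun m h => hT m (by rwa [S.U_comm, S.inner_U] at h)⟩

/-- `U l (R g x) = R g (U (g⁻¹ • l) x)`; use `mem_smul_sub`. -/
lemma At.R {L : AddSubgroup K} {x : H} (hx : S.At L x) (g : E) : S.At (g • L) (S.R g x) := by
  classical
  have e : ∀ l, S.U l (S.R g x) = S.R g (S.U (g⁻¹ • l) x) := fun l => by
    rw [S.RU, smul_inv_smul]
  refine ⟨hx.1.R g, fun l hl => by rw [e, hx.2.1 _ (mem_smul_sub.1 hl)], fun z hz => ?_⟩
  obtain ⟨T, hT⟩ := hx.2.2 _ (hz.R g⁻¹)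
  refine ⟨T.image (g • ·), fun l h => ?_⟩
  obtain ⟨t, ht, h2⟩ := hT (g⁻¹ • l) (by rwa [e, S.inner_R] at h)
  exact ⟨g • t, mem_image_of_mem _ ht, mem_smul_sub.2 (by rwa [smul_sub, inv_smul_smul])⟩

variable [Module ℚ K]

/-- If `q ∉ L` then `⟪U (n • q) x, y⟫ = 0` for large `n` (`Pure.eventually_notMem`). -/
lemma At.eventually_zero {L : AddSubgroup K} {x y : H} (hx : S.At L x) (hL : Pure L)
    (hy : S.Lat y) {q : K} (hq : q ∉ L) : ∀ᶠ n : ℕ in atTop, ⟪S.U (n • q) x, y⟫ = 0 := by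
  obtain ⟨T, hT⟩ := hx.2.2 y hy
  refine (hL.eventually_notMem hq T).mono fun n hn => by_contra fun h => ?_
  obtain ⟨t, ht, h2⟩ := hT _ h
  exact hn t ht h2

/-- An atom for `L` is orthogonal to every lattice vector fixed by some `q ∉ L`. -/
lemma At.orth_fixed {L : AddSubgroup K} {x y : H} (hx : S.At L x) (hL : Pure L) (hy : S.Lat y)
    {q : K} (hq : q ∉ L) (hqy : S.U q y = y) : ⟪x, y⟫ = 0 := by
  obtain ⟨n, hn⟩ := (hx.eventually_zero hL hy hq).exists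
  rwa [S.inner_U, S.mem_stab.1 ((S.stab y).neg_mem ((S.stab y).nsmul_mem hqy n))] at hn

lemma At.orth {L L' : AddSubgroup K} {x y : H} (hx : S.At L x) (hy : S.At L' y) (hL : Pure L)
    (hL' : Pure L') (hne : L ≠ L') : ⟪x, y⟫ = 0 := by
  by_cases h : L' ≤ L
  · obtain ⟨q, h1, h2⟩ := SetLike.not_le_iff_exists.1 fun h' => hne (le_antisymm h' h)
    rw [real_inner_comm]
    exact hy.orth_fixed hL' hx.1 h2 (hx.2.1 q h1)
  · obtain ⟨q, h1, h2⟩ := SetLike.not_le_iff_exists.1 h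
    exact hx.orth_fixed hL hy.1 h2 (hy.2.1 q h1)

lemma At.stab_eq {L : AddSubgroup K} {x : H} (hx : S.At L x) (hL : Pure L) (h0 : x ≠ 0) :
    S.stab x = L := by
  exact le_antisymm (fun q hq => by_contra fun h =>
    h0 (inner_self_eq_zero.1 (hx.orth_fixed hL hx.1 h hq))) hx.2.1

variable [CompleteSpace H]

/-- The projection to the `L`-fixed vectors preserves the lattice.  Take `x₁` of least norm in
`W = {w | ∃ u, L ∈ u ∧ WLim u x w}` (nonempty by `wlim_pure`).  For `q ∈ L` let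
`u = (hyperfilter ℕ).map (· • q)`, `w` a weak limit of the orbit of `x₁` along `u`; by
`WLim.trans` `w ∈ W`, so `eventually_eq` gives `n ≠ n'` with `U (n • q) x₁ = U (n' • q) x₁`, so
`(n - n') • q ∈ stab x₁` and purity gives `q ∈ stab x₁`.  For `L`-fixed `y`,
`⟪U l x, y⟫ = ⟪x, y⟫` for `l ∈ L`, pass to the limit. -/
theorem exists_fix (hp : ∀ x, S.Lat x → Pure (S.stab x)) (L : AddSubgroup K) {x : H}
    (hx : S.Lat x) : ∃ x₁, S.Lat x₁ ∧ (∀ l ∈ L, S.U l x₁ = x₁) ∧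
      ∀ y, (∀ l ∈ L, S.U l y = y) → ⟪x₁, y⟫ = ⟪x, y⟫ := by
  obtain ⟨x₁, ⟨u, hu, h1⟩, hm⟩ := exists_min_norm (S := S)
    {w | ∃ u : Ultrafilter K, (L : Set K) ∈ u ∧ S.WLim u x w} (fun w ⟨u, _, h⟩ => hx.lim u h)
    ⟨x, pure 0, L.zero_mem, S.wlim_pure x⟩
  have h2 := hx.lim u h1
  refine ⟨x₁, h2, fun q hq => ?_, fun y hy => aatom_lim h1 (mem_of_superset hu fun l hl => ?_)⟩
  · obtain ⟨w, hw⟩ := S.exists_wlim ((hyperfilter ℕ).map (· • q)) x₁
    obtain ⟨u', h3, h4⟩ := h1.trans hw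
    have h5 : {n : ℕ | S.U (n • q) x₁ = w} ∈ hyperfilter ℕ := hw.eventually_eq h2
      (hm w ⟨u', h4 L hu (univ_mem' (f := hyperfilter ℕ) fun n => L.nsmul_mem hq n), h3⟩)
    obtain ⟨n, hn, n', hn', h6⟩ :=
      Set.Infinite.nontrivial fun hf => Set.Finite.notMem_hyperfilter hf h5
    refine (hp x₁ h2).of_nsmul (n := (n : ℤ) - n') (by omega) ?_
    rw [sub_smul, natCast_zsmul, natCast_zsmul]
    exact aatom_sub (hn.trans hn'.symm)
  · change ⟪S.U l x, y⟫ = _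
    rw [S.inner_U, hy _ (L.neg_mem hl)]

omit [Module ℚ K] in
/-- If `x` is not an atom for its stabiliser there is a nonzero weak limit along an ultrafilter
leaving every coset.  Let `y` be a lattice vector whose coefficient support
`Z = {l | ⟪U l x, y⟫ ≠ 0}` is not covered by finitely many cosets; the sets
`Z ∩ {l | l - t ∉ stab x}` have the finite intersection property
(`Ultrafilter.exists_ultrafilter_of_finite_inter_nonempty`, or `Ultrafilter.of` of the filter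
`𝓟 Z ⊓ ⨅ t, 𝓟 {l | l - t ∉ stab x}`); the limit `w` has `⟪w, y⟫ ≠ 0` by `eventually_inner`, and
`‖x‖ ≤ ‖w‖` would give `U l x = w` eventually, i.e. concentration on one coset. -/
theorem exists_escape {x : H} (hx : S.Lat x) (h : ¬ S.At (S.stab x) x) :
    ∃ (u : Ultrafilter K) (w : H), S.WLim u x w ∧ w ≠ 0 ∧ ‖w‖ < ‖x‖ ∧
      ∀ t, ∀ᶠ l in u, l - t ∉ S.stab x := by
  classical
  obtain ⟨y, hy, h1⟩ : ∃ y, S.Lat y ∧ ∀ T : Finset K, ∃ l, ⟪S.U l x, y⟫ ≠ 0 ∧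
      ∀ t ∈ T, l - t ∉ S.stab x := by
    by_contra h1
    push Not at h1
    exact h ⟨hx, fun _ hl => hl, h1⟩
  choose g h2 h3 using h1
  obtain ⟨w, hw⟩ := S.exists_wlim ((Ultrafilter.of atTop).map g) x
  have h4 : ∀ t, ∀ᶠ l in ((Ultrafilter.of atTop).map g : Ultrafilter K), l - t ∉ S.stab x :=
    fun t => ((eventually_ge_atTop {t}).mono fun T hT =>
      h3 T t (hT (mem_singleton_self t))).filter_mono (Ultrafilter.of_le _)
  refine ⟨_, w, hw, ?_, not_le.1 fun hn => ?_, h4⟩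
  · rintro rfl
    obtain ⟨T, hT⟩ := (eventually_map.1 (hw.eventually_inner hx hy)).exists
    exact h2 T (hT.trans (inner_zero_left _))
  · have h5 := hw.eventually_eq hx hn
    obtain ⟨t, ht⟩ := h5.exists
    obtain ⟨l, h6, h7⟩ := (h5.and (h4 t)).exists
    exact h7 (aatom_sub (h6.trans ht.symm))

omit [Module ℚ K] in
/-- A nonzero weak limit of least norm is an atom (`exists_escape`, `WLim.trans`). -/
theorem exists_atom {x : H} (hx : S.Lat x) (h0 : x ≠ 0) :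
    ∃ (u : Ultrafilter K) (w : H), S.WLim u x w ∧ w ≠ 0 ∧ S.At (S.stab w) w := by
  obtain ⟨w, ⟨h1, u, hu⟩, hm⟩ := exists_min_norm (S := S)
    {w | w ≠ 0 ∧ ∃ u : Ultrafilter K, S.WLim u x w} (fun w ⟨_, u, h⟩ => hx.lim u h)
    ⟨x, h0, pure 0, S.wlim_pure x⟩
  refine ⟨u, w, hu, h1, by_contra fun h => ?_⟩
  obtain ⟨u', w', h2, h3, h4, -⟩ := exists_escape (hx.lim u hu) h
  obtain ⟨u'', h5, -⟩ := hu.trans h2
  exact not_le.2 h4 (hm w' ⟨h3, u'', h5⟩)

/-- A lattice vector which is not an atom splits.  Take `u, w` from `exists_escape`, `u', a` from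
`exists_atom` applied to `w`, `L = stab a ≥ stab x` (`stab_le` twice).  `L ≠ stab x`: otherwise
for every `m`, `⟪w, U m a⟫ = lim_u ⟪U l x, U m a⟫ = 0` because `⟪U (m - l) a, x⟫ ≠ 0` forces
`m - l` into finitely many cosets of `L`; then `⟪a, a⟫ = lim_{u'} ⟪U m w, a⟫ = 0`.  Take `x₁`
from `exists_fix L`; `x₁ ≠ x` as `L ≰ stab x`; `x₁ ≠ 0` since `a` is a weak limit of the orbit of
`x` (`trans`), so some `⟪U l x, a⟫ = ⟪x, U (-l) a⟫ = ⟪x₁, U (-l) a⟫` is nonzero. -/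
theorem exists_split (hp : ∀ x, S.Lat x → Pure (S.stab x)) {x : H} (hx : S.Lat x)
    (h : ¬ S.At (S.stab x) x) :
    ∃ x₁, S.Lat x₁ ∧ x₁ ≠ 0 ∧ x₁ ≠ x ∧ ⟪x - x₁, x₁⟫ = 0 := by
  obtain ⟨u, w, hu, h0, -, h1⟩ := exists_escape hx h
  obtain ⟨u', a, hu', ha0, ha⟩ := exists_atom (hx.lim u hu) h0
  obtain ⟨x₁, h2, h3, h4⟩ := exists_fix hp (S.stab a) hx
  refine ⟨x₁, h2, ?_, ?_, by rw [inner_sub_left, h4 x₁ h3, sub_self]⟩
  · rintro rfl
    obtain ⟨u'', h5, -⟩ := hu.trans hu'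
    refine ha0 (inner_self_eq_zero.1 (aatom_lim h5 (Eventually.of_forall fun l => ?_)))
    rw [S.inner_U, ← h4 _ (ha.U (-l)).2.1, inner_zero_left]
  · rintro rfl
    obtain ⟨T, hT⟩ := ha.2.2 x₁ hx
    refine ha0 (inner_self_eq_zero.1 (aatom_lim hu' (Eventually.of_forall fun m => ?_)))
    rw [S.inner_U]
    refine aatom_lim hu (((eventually_all_finset T).2 fun t _ => h1 (-m - t)).mono
      fun l hl => by_contra fun h5 => ?_)
    rw [real_inner_comm, S.inner_U_U] at h5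
    obtain ⟨t, ht, h6⟩ := hT _ h5
    refine hl t ht ?_
    rw [show l - (-m - t) = -(-m - l - t) by abel]
    exact (S.stab x₁).neg_mem (h3 _ h6)

end HSys

end Pool.Agent.Lib.MP_b6945b_al.Bi
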