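import Pool.Agent.Lib.MP_b6945b_al.Bi.ADefs

set_option autoImplicit false

/-!
Elementary consequences of the definitions.
-/

namespace Pool.Agent.Lib.MP_b6945b_al.Bi

open Finset Filter Topology Pointwise
open scoped RealInnerProductSpace

section
variable {E K X : Type} [Group E] [Fintype E] [AddCommGroup K] [DistribMulAction E K]
  {F : K → X → X → ℤ}

lemma Ker.abs_le (h : Ker E F) (l : K) (χ ψ : X) : |F l χ ψ| ≤ Fintype.card E := by
  have h1 := h.psd 2 ![1, 1] ![l, 0] ![χ, ψ]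
  have h2 := h.psd 2 ![1, -1] ![l, 0] ![χ, ψ]
  simp only [Fin.sum_univ_two, Matrix.cons_val_zero, Matrix.cons_val_one, sub_self, sub_zero,
    zero_sub, h.zero_same, h.symm] at h1 h2
  rw [_root_.abs_le]
  constructor
  · have : -(Fintype.card E : ℝ) ≤ F l χ ψ := by push_cast at h1; linarith
    exact_mod_cast this
  · have : (F l χ ψ : ℝ) ≤ Fintype.card E := by push_cast at h2; linarith
    exact_mod_cast this

omit [Fintype E] in
lemma smul_rat [Module ℚ K] (g : E) (q : ℚ) (x : K) : g • q • x = q • g • x :=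
  map_rat_smul (DistribSMul.toAddMonoidHom K g) q x

omit [Fintype E] in
lemma mem_smul_sub {g : E} {L : AddSubgroup K} {x : K} : x ∈ g • L ↔ g⁻¹ • x ∈ L :=
  AddSubgroup.mem_pointwise_smul_iff_inv_smul_mem

omit [Fintype E] in
lemma smul_mem_smul_sub {g : E} {L : AddSubgroup K} {x : K} : g • x ∈ g • L ↔ x ∈ L := by
  rw [mem_smul_sub, inv_smul_smul]

end

lemma Rep.mono {K : Type} [AddCommGroup K] {Q Q' : AddSubgroup K → Prop} {M M' : ℕ} {f : K → ℤ}
    (h : Rep Q M f) (hQ : ∀ L, Q L → Q' L) (hM : M ≤ M') : Rep Q' M' f := by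
  obtain ⟨m, a, c, L, h1, h2, h3, h4⟩ := h
  exact ⟨m, a, c, L, h1.trans hM, fun i => (h2 i).trans (by exact_mod_cast hM),
    fun i => hQ _ (h3 i), h4⟩

lemma Pure.of_nsmul {K : Type} [AddCommGroup K] [Module ℚ K] {L : AddSubgroup K} (h : Pure L)
    {n : ℤ} (hn : n ≠ 0) {x : K} (hx : n • x ∈ L) : x ∈ L := by
  have := h (n : ℚ)⁻¹ _ hx
  rwa [← Int.cast_smul_eq_zsmul ℚ, smul_smul, inv_mul_cancel₀ (by exact_mod_cast hn),
    one_smul] at this

/-- Multiples of an element outside a pure subgroup meet each coset at most once. -/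
lemma Pure.eventually_notMem {K : Type} [AddCommGroup K] [Module ℚ K] {L : AddSubgroup K}
    (h : Pure L) {q : K} (hq : q ∉ L) (T : Finset K) :
    ∀ᶠ n : ℕ in atTop, ∀ t ∈ T, n • q - t ∉ L := by
  rw [eventually_all_finset]
  intro t _
  by_cases e : ∃ n : ℕ, n • q - t ∈ L
  · obtain ⟨n, hn⟩ := e
    refine (eventually_gt_atTop n).mono fun k hk hk' => hq ?_
    refine h.of_nsmul (n := (k : ℤ) - n) (by omega) ?_
    have := L.sub_mem hk' hn
    rwa [sub_sub_sub_cancel_right, ← natCast_zsmul, ← natCast_zsmul, ← sub_smul] at this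
  · exact Eventually.of_forall fun n hn => e ⟨n, hn⟩

namespace HSys

variable {E K X H : Type} [Group E] [Fintype E] [AddCommGroup K] [DistribMulAction E K]
  [NormedAddCommGroup H] [InnerProductSpace ℝ H] {F : K → X → X → ℤ} (S : HSys E H F)

lemma U_neg_U (l : K) (x : H) : S.U (-l) (S.U l x) = x := by
  rw [← S.U_add, neg_add_cancel, S.U_zero]

lemma U_U_neg (l : K) (x : H) : S.U l (S.U (-l) x) = x := by
  rw [← S.U_add, add_neg_cancel, S.U_zero]

lemma U_comm (l m : K) (x : H) : S.U l (S.U m x) = S.U m (S.U l x) := by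
  rw [← S.U_add, add_comm, S.U_add]

lemma inner_U (l : K) (x y : H) : ⟪S.U l x, y⟫ = ⟪x, S.U (-l) y⟫ := by
  rw [← (S.U (-l)).inner_map_map, S.U_neg_U]

lemma inner_U_U (l m : K) (x y : H) : ⟪S.U l x, S.U m y⟫ = ⟪S.U (l - m) x, y⟫ := by
  rw [← (S.U (-m)).inner_map_map, S.U_neg_U, ← S.U_add, neg_add_eq_sub]

lemma R_inv_R (g : E) (x : H) : S.R g⁻¹ (S.R g x) = x := by
  rw [← S.R_mul, inv_mul_cancel, S.R_one]

lemma R_R_inv (g : E) (x : H) : S.R g (S.R g⁻¹ x) = x := by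
  rw [← S.R_mul, mul_inv_cancel, S.R_one]

lemma inner_R (g : E) (x y : H) : ⟪S.R g x, y⟫ = ⟪x, S.R g⁻¹ y⟫ := by
  rw [← (S.R g⁻¹).inner_map_map, S.R_inv_R]

lemma inner_R_v (g : E) (x : H) (χ : X) : ⟪S.R g x, S.v χ⟫ = ⟪x, S.v χ⟫ := by
  rw [S.inner_R, S.Rv]

lemma inner_vv (hk : Ker E F) (χ : X) : ⟪S.v χ, S.v χ⟫ = (Fintype.card E : ℝ) := by
  have := S.inner_v 0 χ χ
  rwa [S.U_zero, hk.zero_same, Int.cast_natCast] at this

lemma inner_vv_ne (hk : Ker E F) {χ ψ : X} (h : χ ≠ ψ) : ⟪S.v χ, S.v ψ⟫ = 0 := by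
  have := S.inner_v 0 χ ψ
  rwa [S.U_zero, hk.zero_ne _ _ h, Int.cast_zero] at this

variable {S}

lemma Lat.sub {x y : H} (hx : S.Lat x) (hy : S.Lat y) : S.Lat (x - y) := by
  rw [sub_eq_add_neg]; exact hx.add hy.neg

lemma Lat.sum {ι : Type} (s : Finset ι) {f : ι → H} (h : ∀ i ∈ s, S.Lat (f i)) :
    S.Lat (∑ i ∈ s, f i) :=
  Finset.sum_induction f S.Lat (fun _ _ => Lat.add) Lat.zero h

end HSys

/-- An orthogonal family of short vectors having large inner product with a short vector is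
small. -/
lemma bessel_count {H ι : Type} [NormedAddCommGroup H] [InnerProductSpace ℝ H] (s : Finset ι)
    (x : ι → H) (w : H) (a b : ℝ) (ha : 0 ≤ a) (hx : ∀ i ∈ s, ⟪x i, x i⟫ ≤ a) (hw : ⟪w, w⟫ ≤ b)
    (ho : ∀ i ∈ s, ∀ j ∈ s, i ≠ j → ⟪x i, x j⟫ = 0) (h1 : ∀ i ∈ s, 1 ≤ |⟪x i, w⟫|) :
    (s.card : ℝ) ≤ a * b := by
  classical
  have hb : 0 ≤ b := real_inner_self_nonneg.trans hw
  rcases s.eq_empty_or_nonempty with rfl | hs
  · simpa using mul_nonneg ha hb
  let ε : ι → ℝ := fun i => if 0 ≤ ⟪x i, w⟫ then 1 else -1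
  have hε : ∀ i, ε i * ⟪x i, w⟫ = |⟪x i, w⟫| := fun i => by
    simp only [ε]
    split_ifs with e
    · rw [abs_of_nonneg e, one_mul]
    · rw [abs_of_neg (not_le.1 e), neg_one_mul]
  have hε2 : ∀ i, ε i * ε i = 1 := fun i => by
    simp only [ε]
    split_ifs <;> norm_num
  have h2 : (s.card : ℝ) ≤ ⟪∑ i ∈ s, ε i • x i, w⟫ := by
    rw [sum_inner, Finset.card_eq_sum_ones, Nat.cast_sum]
    refine Finset.sum_le_sum fun i hi => ?_
    rw [real_inner_smul_left, hε]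
    exact_mod_cast h1 i hi
  have h3 : ⟪∑ i ∈ s, ε i • x i, ∑ i ∈ s, ε i • x i⟫ ≤ s.card * a := by
    rw [sum_inner, ← nsmul_eq_mul, ← Finset.sum_const]
    refine Finset.sum_le_sum fun i hi => ?_
    rw [inner_sum, Finset.sum_eq_single i, real_inner_smul_left, real_inner_smul_right,
      ← mul_assoc, hε2, one_mul]
    · exact hx i hi
    · intro j hj hji
      rw [real_inner_smul_left, real_inner_smul_right, ho i hi j hj hji.symm, mul_zero, mul_zero]
    · exact fun e => absurd hi e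
  have h4 := real_inner_mul_inner_self_le (∑ i ∈ s, ε i • x i) w
  have h5 : (0 : ℝ) < s.card := by exact_mod_cast hs.card_pos
  have h6 : (s.card : ℝ) * s.card ≤ s.card * a * b :=
    (mul_self_le_mul_self h5.le h2).trans (h4.trans
      (mul_le_mul h3 hw real_inner_self_nonneg (mul_nonneg h5.le ha)))
  rw [mul_assoc] at h6
  exact le_of_mul_le_mul_left h6 h5

end Pool.Agent.Lib.MP_b6945b_al.Bi
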