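import Pool.Agent.Lib.MP_b6945b_al.Bi.AStrat

set_option autoImplicit false

/-!
The closed spans of standard vectors and the projections onto them.
-/

namespace Pool.Agent.Lib.MP_b6945b_al.Bi

open Finset Filter Topology Pointwise
open scoped RealInnerProductSpace

namespace HSys

variable {E K X H : Type} [Group E] [Fintype E] [AddCommGroup K] [DistribMulAction E K]
  [NormedAddCommGroup H] [InnerProductSpace ℝ H] {F : K → X → X → ℤ} {S : HSys E H F} [Module ℚ K]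
  {c : X → AddSubgroup K → H} {T : X → Finset (AddSubgroup K)} {X₀ : Set X} {K₀ : AddSubgroup K}

omit [Module ℚ K] in
/-- Induction principle: a closed subspace containing the generators contains `Vs`
(`Submodule.topologicalClosure_minimal`). -/
lemma Vs_le {L : AddSubgroup K} (W : Submodule ℝ H) (hW : IsClosed (W : Set H))
    (h : ∀ χ ∈ X₀, ∀ l ∈ K₀, S.U l (c χ L) ∈ W) : S.Vs c X₀ K₀ L ≤ W := by
  refine Submodule.topologicalClosure_minimal _ (Submodule.span_le.2 ?_) hW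
  rintro x ⟨χ, hχ, l, hl, rfl⟩
  exact h χ hχ l hl

omit [Module ℚ K] in
lemma Vs_gen {L : AddSubgroup K} {χ : X} (hχ : χ ∈ X₀) {l : K} (hl : l ∈ K₀) :
    S.U l (c χ L) ∈ S.Vs c X₀ K₀ L := by
  exact Submodule.le_topologicalClosure _ (Submodule.subset_span ⟨χ, hχ, l, hl, rfl⟩)

omit [Module ℚ K] in
lemma Vs_orth_of {L : AddSubgroup K} {y : H}
    (h : ∀ χ ∈ X₀, ∀ l ∈ K₀, ⟪S.U l (c χ L), y⟫ = 0) {x : H} (hx : x ∈ S.Vs c X₀ K₀ L) :
    ⟪x, y⟫ = 0 := by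
  have := Vs_le (S := S) (c := c) (X₀ := X₀) (K₀ := K₀) (L := L) (ℝ ∙ y)ᗮ
    (Submodule.isClosed_orthogonal _)
    (fun χ hχ l hl => Submodule.mem_orthogonal_singleton_iff_inner_left.2 (h χ hχ l hl)) hx
  exact Submodule.mem_orthogonal_singleton_iff_inner_left.1 this

omit [Module ℚ K] in
lemma avs_map {L L' : AddSubgroup K} (A : H →ₗᵢ[ℝ] H)
    (h : ∀ χ ∈ X₀, ∀ l ∈ K₀, A (S.U l (c χ L)) ∈ S.Vs c X₀ K₀ L') {x : H}
    (hx : x ∈ S.Vs c X₀ K₀ L) : A x ∈ S.Vs c X₀ K₀ L' := by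
  have hcl : IsClosed (S.Vs c X₀ K₀ L' : Set H) := Submodule.isClosed_topologicalClosure _
  exact Vs_le (S := S) (c := c) (X₀ := X₀) (K₀ := K₀) (L := L)
    ((S.Vs c X₀ K₀ L').comap A.toLinearMap) (hcl.preimage A.continuous) h hx

omit [Module ℚ K] in
lemma avs_tend {L : AddSubgroup K} (z : ℕ → H) {C : ℝ} (hz : ∀ n, ‖z n‖ ≤ C)
    (h : ∀ χ ∈ X₀, ∀ l ∈ K₀, Tendsto (fun n => ⟪S.U l (c χ L), z n⟫) atTop (𝓝 0)) {x : H}
    (hx : x ∈ S.Vs c X₀ K₀ L) : Tendsto (fun n => ⟪x, z n⟫) atTop (𝓝 0) := by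
  let W : Submodule ℝ H :=
    { carrier := {x | Tendsto (fun n => ⟪x, z n⟫) atTop (𝓝 0)}
      zero_mem' := by simp
      add_mem' := fun {a b} ha hb => by
        have := Tendsto.add ha hb
        simpa [inner_add_left] using this
      smul_mem' := fun r a ha => by
        have := Tendsto.const_mul r ha
        simpa [real_inner_smul_left] using this }
  have hC : 0 ≤ C := (norm_nonneg _).trans (hz 0)
  have hW : IsClosed (W : Set H) := by
    refine isClosed_of_closure_subset fun a ha => ?_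
    change Tendsto (fun n => ⟪a, z n⟫) atTop (𝓝 0)
    rw [Metric.tendsto_nhds]
    intro ε hε
    obtain ⟨w, hw, haw⟩ := Metric.mem_closure_iff.1 ha (ε / 2 / (C + 1)) (by positivity)
    have hw' : Tendsto (fun n => ⟪w, z n⟫) atTop (𝓝 0) := hw
    filter_upwards [Metric.tendsto_nhds.1 hw' (ε / 2) (by positivity)] with n hn
    rw [Real.dist_eq, sub_zero] at hn ⊢
    rw [dist_eq_norm, lt_div_iff₀ (by positivity)] at haw
    have h1 : ⟪a, z n⟫ = ⟪w, z n⟫ + ⟪a - w, z n⟫ := by rw [inner_sub_left]; ring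
    have h2 := abs_real_inner_le_norm (a - w) (z n)
    have h3 : ‖a - w‖ * ‖z n‖ ≤ ‖a - w‖ * (C + 1) :=
      mul_le_mul_of_nonneg_left (by linarith [hz n]) (norm_nonneg _)
    have h4 := abs_add_le ⟪w, z n⟫ ⟪a - w, z n⟫
    rw [h1]
    linarith
  exact Vs_le (S := S) (c := c) (X₀ := X₀) (K₀ := K₀) (L := L) W hW h hx

lemma avs_unique {H : Type} [NormedAddCommGroup H] [InnerProductSpace ℝ H] (W : Submodule ℝ H)
    {a b : H} (ha : a ∈ W) (hb : b ∈ W) (h : ∀ x ∈ W, ⟪a, x⟫ = ⟪b, x⟫) : a = b := by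
  have h1 : ⟪a - b, a - b⟫ = 0 := by rw [inner_sub_left, h _ (W.sub_mem ha hb), sub_self]
  exact sub_eq_zero.1 (inner_self_eq_zero.1 h1)

omit [Module ℚ K] in
lemma Vs_U {L : AddSubgroup K} {l : K} (hl : l ∈ K₀) {x : H} (hx : x ∈ S.Vs c X₀ K₀ L) :
    S.U l x ∈ S.Vs c X₀ K₀ L := by
  refine avs_map (S.U l) (fun χ hχ m hm => ?_) hx
  rw [← S.U_add]
  exact Vs_gen hχ (K₀.add_mem hl hm)

lemma Vs_R (h : S.Strat c T) (hc : S.Closed c T X₀ K₀) (g : E) {L : AddSubgroup K} {x : H}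
    (hx : x ∈ S.Vs c X₀ K₀ L) : S.R g x ∈ S.Vs c X₀ K₀ (g • L) := by
  refine avs_map (S.R g) (fun χ hχ m hm => ?_) hx
  rw [S.RU, h.equiv]
  exact Vs_gen hχ (hc.inv g m hm)

omit [Module ℚ K] in
lemma Vs_orth_c (h : S.Strat c T) {L L' : AddSubgroup K} (hne : L ≠ L') {x : H}
    (hx : x ∈ S.Vs c X₀ K₀ L) (l : K) (ψ : X) : ⟪S.U l x, c ψ L'⟫ = 0 := by
  rw [S.inner_U]
  refine Vs_orth_of (fun χ _ m _ => ?_) hx
  rw [S.inner_U_U]
  exact h.orth _ _ _ _ _ hne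

omit [Module ℚ K] in
lemma Vs_orth (h : S.Strat c T) {L L' : AddSubgroup K} (hne : L ≠ L') {x x' : H}
    (hx : x ∈ S.Vs c X₀ K₀ L) (hx' : x' ∈ S.Vs c X₀ K₀ L') (l : K) : ⟪S.U l x, x'⟫ = 0 := by
  rw [real_inner_comm]
  refine Vs_orth_of (fun χ _ m _ => ?_) hx'
  rw [real_inner_comm, S.inner_U_U]
  exact Vs_orth_c h hne hx _ _

/-- By `c2`. -/
lemma Vs_orth_shift (hc : S.Closed c T X₀ K₀) {L : AddSubgroup K} {l : K} (hl : l ∉ K₀ ⊔ L)
    {x x' : H} (hx : x ∈ S.Vs c X₀ K₀ L) (hx' : x' ∈ S.Vs c X₀ K₀ L) : ⟪S.U l x, x'⟫ = 0 := by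
  rw [real_inner_comm]
  refine Vs_orth_of (fun ψ hψ m hm => ?_) hx'
  rw [real_inner_comm, S.inner_U_U, S.inner_U]
  refine Vs_orth_of (fun χ hχ m' hm' => ?_) hx
  rw [S.inner_U_U]
  by_contra h0
  have h1 := hc.c2 χ hχ ψ hψ L _ h0
  apply hl
  have h2 : l = (m' - -(l - m)) + (m - m') := by abel
  rw [h2]
  exact (K₀ ⊔ L).add_mem h1 (AddSubgroup.mem_sup_left (K₀.sub_mem hm hm'))

/-- By `c1`. -/
lemma Vs_orth_v (hc : S.Closed c T X₀ K₀) {L : AddSubgroup K} {x : H}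
    (hx : x ∈ S.Vs c X₀ K₀ L) {ψ : X} (hψ : ψ ∉ X₀) : ⟪x, S.v ψ⟫ = 0 := by
  refine Vs_orth_of (fun χ hχ l hl => ?_) hx
  by_contra h0
  exact hψ (hc.c1 l hl χ hχ L ψ h0)

/-- For fixed `y` the set of `x` with `⟪U (n • q) x, y⟫ → 0` is a closed subspace (ε/2 argument,
`U` is an isometry), and symmetrically in `y`; on generators the sequence is eventually zero
(`At.eventually_zero` with `(h.atom χ L).U l`). -/
lemma Vs_mix (h : S.Strat c T) {L : AddSubgroup K} (hL : Pure L) {q : K} (hq : q ∉ L) {x x' : H}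
    (hx : x ∈ S.Vs c X₀ K₀ L) (hx' : x' ∈ S.Vs c X₀ K₀ L) :
    Tendsto (fun n : ℕ => ⟪S.U (n • q) x, x'⟫) atTop (𝓝 0) := by
  simp_rw [← real_inner_comm (S.U _ x) x']
  refine avs_tend (fun n : ℕ => S.U (n • q) x) (C := ‖x‖) (fun n => ((S.U _).norm_map x).le)
    (fun ψ _ m _ => ?_) hx'
  have h1 : ∀ n : ℕ, ⟪S.U m (c ψ L), S.U (n • q) x⟫ = ⟪x, S.U (-(n • q)) (S.U m (c ψ L))⟫ :=
    fun n => by rw [real_inner_comm, S.inner_U]
  simp_rw [h1]
  refine avs_tend (fun n : ℕ => S.U (-(n • q)) (S.U m (c ψ L))) (C := ‖S.U m (c ψ L)‖)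
    (fun n => ((S.U _).norm_map _).le) (fun χ _ l _ => ?_) hx
  refine tendsto_const_nhds.congr' ?_
  filter_upwards [At.eventually_zero ((h.atom χ L).U l) hL (Lat.U m (h.lat ψ L)) hq] with n hn
  rw [← S.inner_U, hn]

/-- The projections `y L l` of `U (-l) (v ψ)` onto `Vs L` (`Submodule.starProjection`; the closed
subspace is complete).  Equivariance by uniqueness of the projection: `R g (y L l) ∈ Vs (g • L)`
and `R g (U (-l) (v ψ)) = U (-(g • l)) (v ψ)`; elements of `Vs (g • L)` are moved into `Vs L` by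
`R g⁻¹`.  If `¬ Pos L l` then `U (-l) (v ψ) ⊥ Vs L`, so `y L l = 0`, and conversely. -/
theorem exists_yy [CompleteSpace H] (h : S.Strat c T) (hc : S.Closed c T X₀ K₀) (ψ : X) :
    ∃ y : AddSubgroup K → K → H, (∀ L l, y L l ∈ S.Vs c X₀ K₀ L) ∧
      (∀ L l, ∀ x ∈ S.Vs c X₀ K₀ L, ⟪y L l, x⟫ = ⟪S.U (-l) (S.v ψ), x⟫) ∧
      (∀ (g : E) L l, S.R g (y L l) = y (g • L) (g • l)) ∧
      ∀ L l, y L l ≠ 0 ↔ S.Pos c X₀ K₀ ψ L l := by
  have hcl : ∀ L, IsClosed (S.Vs c X₀ K₀ L : Set H) := fun L =>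
    Submodule.isClosed_topologicalClosure _
  have : ∀ L, CompleteSpace (S.Vs c X₀ K₀ L) := fun L => (hcl L).completeSpace_coe
  have h1 : ∀ L l, (S.Vs c X₀ K₀ L).starProjection (S.U (-l) (S.v ψ)) ∈ S.Vs c X₀ K₀ L :=
    fun L l => Submodule.starProjection_apply_mem _ _
  have h2 : ∀ L l, ∀ x ∈ S.Vs c X₀ K₀ L,
      ⟪(S.Vs c X₀ K₀ L).starProjection (S.U (-l) (S.v ψ)), x⟫ = ⟪S.U (-l) (S.v ψ), x⟫ := by
    intro L l x hx
    have h3 := (S.Vs c X₀ K₀ L).starProjection_inner_eq_zero (S.U (-l) (S.v ψ)) x hx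
    rw [inner_sub_left] at h3
    linarith
  refine ⟨fun L l => (S.Vs c X₀ K₀ L).starProjection (S.U (-l) (S.v ψ)), h1, h2, ?_, ?_⟩
  · intro g L l
    refine avs_unique (S.Vs c X₀ K₀ (g • L)) (Vs_R h hc g (h1 L l)) (h1 _ _) fun x hx => ?_
    have h3 := Vs_R h hc g⁻¹ hx
    rw [inv_smul_smul] at h3
    rw [h2 _ _ x hx, S.inner_R, h2 L l _ h3, ← S.inner_R, S.RU, S.Rv, smul_neg]
  · intro L l
    constructor
    · intro h0
      by_contra h3
      apply h0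
      refine avs_unique (S.Vs c X₀ K₀ L) (h1 L l) (Submodule.zero_mem _) fun x hx => ?_
      rw [h2 L l x hx, inner_zero_left, real_inner_comm]
      refine Vs_orth_of (fun χ hχ κ hκ => ?_) hx
      by_contra h4
      exact h3 ⟨χ, hχ, κ, hκ, by rwa [S.U_add, S.inner_U]⟩
    · rintro ⟨χ, hχ, κ, hκ, h3⟩ h0
      apply h3
      have h4 := h2 L l _ (Vs_gen hχ hκ)
      rw [S.U_add, S.inner_U, real_inner_comm, ← h4]
      have h5 : (S.Vs c X₀ K₀ L).starProjection (S.U (-l) (S.v ψ)) = 0 := h0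
      rw [h5, inner_zero_left]

end HSys

end Pool.Agent.Lib.MP_b6945b_al.Bi
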