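import Pool.Agent.Lib.MP_b6945b_al.Bi.AStrat

set_option autoImplicit false

/-!
Countable closed substructures.
-/

namespace Pool.Agent.Lib.MP_b6945b_al.Bi

open Finset Filter Topology Pointwise
open scoped RealInnerProductSpace

/-- Iterate `A ↦ A ∪ ⋃ a b ∈ A, Φ a b` countably often. -/
lemma exists_countable_closed {α : Type} (A₀ : Set α) (h₀ : A₀.Countable) (Φ : α → α → Set α)
    (hΦ : ∀ a b, (Φ a b).Countable) :
    ∃ A : Set α, A.Countable ∧ A₀ ⊆ A ∧ ∀ a ∈ A, ∀ b ∈ A, Φ a b ⊆ A := by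
  let s : ℕ → Set α := fun n => Nat.rec A₀ (fun _ A => A ∪ ⋃ a ∈ A, ⋃ b ∈ A, Φ a b) n
  have h1 : ∀ n, (s n).Countable := fun n => by
    induction n with
    | zero => exact h₀
    | succ n ih => exact ih.union (ih.biUnion fun a _ => ih.biUnion fun b _ => hΦ a b)
  have h2 : Monotone s := monotone_nat_of_le_succ fun _ => Set.subset_union_left
  refine ⟨⋃ n, s n, Set.countable_iUnion h1, Set.subset_iUnion s 0, fun a ha b hb x hx => ?_⟩
  obtain ⟨n, hn⟩ := Set.mem_iUnion.1 ha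
  obtain ⟨m, hm⟩ := Set.mem_iUnion.1 hb
  exact Set.mem_iUnion.2 ⟨max n m + 1, Or.inr (Set.mem_biUnion (h2 (le_max_left n m) hn)
    (Set.mem_biUnion (h2 (le_max_right n m) hm) hx))⟩

namespace HSys

variable {E K X H : Type} [Group E] [Fintype E] [AddCommGroup K] [DistribMulAction E K]
  [NormedAddCommGroup H] [InnerProductSpace ℝ H] {F : K → X → X → ℤ} {S : HSys E H F}

/-- `bessel_count` with `x ψ = v ψ`, `w = x`: every finite subset has at most `e ⟪x,x⟫`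
elements. -/
lemma Lat.finite_supp (hk : Ker E F) {x : H} (hx : S.Lat x) : {ψ | ⟪x, S.v ψ⟫ ≠ 0}.Finite := by
  by_contra h
  obtain ⟨n, hn⟩ := exists_nat_gt ((Fintype.card E : ℝ) * ⟪x, x⟫)
  obtain ⟨s, h1, rfl⟩ := Set.Infinite.exists_subset_card_eq h n
  refine absurd (bessel_count s S.v x _ _ (Nat.cast_nonneg _) (fun i _ => (S.inner_vv hk i).le)
    le_rfl (fun i _ j _ hij => S.inner_vv_ne hk hij) fun i hi => ?_) (not_le.2 hn)
  rw [real_inner_comm]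
  exact hx.one_le_abs (Lat.v i) (h1 hi)

/-- Apply `exists_countable_closed` to `α = X ⊕ K`.  Start with `0` and a family `A` of maximal
cardinality among the finite families that are pairwise orthogonal in the stratum `⊥` (`c4`: for
`ψ ∉ A` the family `insert ψ A` is not orthogonal; use `inner_v`, and `inner_U` with `-l` for the
reversed order).  Operations: `(l, χ) ↦ ⋃ L ∈ T χ, {ψ | ⟪U l (c χ L), v ψ⟫ ≠ 0}`;
`(χ, ψ) ↦` the chosen finite support sets of `(h.atom χ L).2.2 (c ψ L)` for `L ∈ T χ`, together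
with chosen witnesses for `c5` for all `L ∈ T χ`, `A`, `g` (finitely many);
`(l, m) ↦ {l + m} ∪ {q • l | q} ∪ {g • l | g}` (negation is `q = -1`). -/
theorem exists_closed [Module ℚ K] {c : X → AddSubgroup K → H} {T : X → Finset (AddSubgroup K)}
    (hk : Ker E F) (h : S.Strat c T) {r : ℕ}
    (hr : ∀ A : Finset X,
      (∀ χ ∈ A, ∀ ψ ∈ A, χ ≠ ψ → ∀ l, ⟪S.U l (c χ ⊥), c ψ ⊥⟫ = 0) → A.card ≤ r) :
    ∃ X₀ K₀, X₀.Countable ∧ S.Closed c T X₀ K₀ := by
  classical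
  choose Ts hTs using fun χ L ψ => (h.atom χ L).2.2 (c ψ L) (h.lat ψ L)
  have hW : ∀ (L : AddSubgroup K) (p : Subgroup E × E), ∃ w : K,
      (∃ l : K, (∀ g ∈ p.1, g • l = l) ∧ l - p.2 • l ∉ L) →
        (∀ g ∈ p.1, g • w = w) ∧ w - p.2 • w ∉ L := fun L p =>
    ⟨Classical.epsilon _, Classical.epsilon_spec⟩
  choose W hW using hW
  obtain ⟨_, ⟨A, hA, rfl⟩, hmax⟩ := Set.exists_max_image {n | ∃ A : Finset X,
    (∀ χ ∈ A, ∀ ψ ∈ A, χ ≠ ψ → ∀ l, ⟪S.U l (c χ ⊥), c ψ ⊥⟫ = 0) ∧ A.card = n} id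
    ((Set.finite_Iic r).subset fun n ⟨A, hA, e⟩ => e ▸ hr A hA) ⟨0, ∅, by simp, rfl⟩
  let Φ : X ⊕ K → X ⊕ K → Set (X ⊕ K) := fun a b => match a, b with
    | .inl χ, .inl ψ => Sum.inr '' ⋃ L ∈ (T χ : Set (AddSubgroup K)),
        (Ts χ L ψ : Set K) ∪ Set.range (W L)
    | .inl _, .inr _ => ∅
    | .inr l, .inl χ => Sum.inl '' ⋃ L ∈ (T χ : Set (AddSubgroup K)),
        {ψ | ⟪S.U l (c χ L), S.v ψ⟫ ≠ 0}
    | .inr l, .inr m => Sum.inr '' insert (l + m)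
        (Set.range (fun q : ℚ => q • l) ∪ Set.range fun g : E => g • l)
  obtain ⟨B, hB, h0, hΦ⟩ := exists_countable_closed (insert (Sum.inr 0) (Sum.inl '' (A : Set X)))
    ((A.countable_toSet.image _).insert _) Φ (by
      rintro (χ | l) (ψ | m)
      · exact ((T χ).countable_toSet.biUnion fun L _ =>
          (Ts χ L ψ).countable_toSet.union (Set.countable_range _)).image _
      · exact Set.countable_empty
      · exact ((T ψ).countable_toSet.biUnion fun L _ =>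
          (((h.lat ψ L).U l).finite_supp hk).countable).image _
      · exact (((Set.countable_range _).union (Set.countable_range _)).insert _).image _)
  have hq : ∀ (q : ℚ) (l : K), Sum.inr l ∈ B → Sum.inr (q • l) ∈ B := fun q l hl =>
    hΦ _ hl _ hl ⟨_, Or.inr (Or.inl ⟨q, rfl⟩), rfl⟩
  have hT : ∀ {χ L l} {y : H}, ⟪S.U l (c χ L), y⟫ ≠ 0 → L ∈ T χ := fun e =>
    h.mem_of_ne fun e' => e (by rw [e', map_zero, inner_zero_left])
  let K₀ : AddSubgroup K :=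
    { carrier := {l | Sum.inr l ∈ B}
      zero_mem' := h0 (Or.inl rfl)
      add_mem' := fun hl hm => hΦ _ hl _ hm ⟨_, Or.inl rfl, rfl⟩
      neg_mem' := fun {l} hl => by simpa using hq (-1) l hl }
  refine ⟨{χ | Sum.inl χ ∈ B}, K₀, hB.preimage Sum.inl_injective,
    fun l hl χ hχ L ψ e => hΦ _ hl _ hχ ⟨ψ, Set.mem_biUnion (hT e) e, rfl⟩,
    fun χ hχ ψ hψ L l e => ?_, hq,
    fun g l hl => hΦ _ hl _ hl ⟨_, Or.inr (Or.inr ⟨g, rfl⟩), rfl⟩, fun ψ hψ => ?_,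
    fun χ hχ L hL A' g e => ⟨W L (A', g),
      hΦ _ hχ _ hχ ⟨_, Set.mem_biUnion hL (Or.inr ⟨_, rfl⟩), rfl⟩, hW L (A', g) e⟩⟩
  · obtain ⟨t, h1, h2⟩ := hTs χ L ψ l e
    rw [← add_sub_cancel t l]
    exact AddSubgroup.add_mem_sup (hΦ _ hχ _ hψ ⟨t, Set.mem_biUnion (hT e) (Or.inl h1), rfl⟩) h2
  · by_contra e
    have h1 : ∀ χ ∈ A, Sum.inl χ ∈ B := fun χ hχ => h0 (Or.inr ⟨χ, hχ, rfl⟩)
    have h2 : ∀ χ ∈ A, ∀ l, ⟪S.U l (c χ ⊥), c ψ ⊥⟫ = 0 := fun χ hχ l => by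
      rw [← h.inner_v]
      exact not_not.1 fun e' => e ⟨χ, h1 χ hχ, l, e'⟩
    have h3 := hmax _ ⟨insert ψ A, fun χ hχ χ' hχ' hne l => ?_, rfl⟩
    · rw [id, id, card_insert_of_notMem fun e' => hψ (h1 ψ e')] at h3
      omega
    · rcases mem_insert.1 hχ with rfl | k <;> rcases mem_insert.1 hχ' with rfl | k'
      · exact absurd rfl hne
      · rw [S.inner_U, real_inner_comm, h2 χ' k']
      · exact h2 χ k l
      · exact hA χ k χ' k' hne l

end HSys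

end Pool.Agent.Lib.MP_b6945b_al.Bi
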