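import Pool.Agent.Lib.MP_b6945b_al.Bi.AFour2

set_option autoImplicit false

/-!
Counting: the structure theorem bounds the mass at the identity.
-/

namespace Pool.Agent.Lib.MP_b6945b_al.Bi

open Finset Filter Topology Pointwise

open Classical in
lemma acount_coset {K : Type} [AddCommGroup K] [Fintype K] (L : AddSubgroup K) (c : K) :
    (univ.filter fun l => l - c ∈ L).card = Nat.card L := by
  rw [Nat.card_eq_fintype_card, Fintype.card_subtype]
  exact card_equiv (Equiv.subRight c) fun l => by simp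

open Classical in
lemma acount_inter {K : Type} [AddCommGroup K] [Fintype K] (L L' : AddSubgroup K) (c c' : K) :
    (univ.filter fun l => l - c ∈ L ∧ l - c' ∈ L').card ≤ Nat.card (L ⊓ L' : AddSubgroup K) := by
  rcases (univ.filter fun l => l - c ∈ L ∧ l - c' ∈ L').eq_empty_or_nonempty with h | ⟨x, hx⟩
  · rw [h]
    exact Nat.zero_le _
  · rw [← acount_coset _ x]
    refine card_le_card fun l hl => mem_filter.2 ⟨mem_univ _, ?_, ?_⟩
    · simpa using L.sub_mem (mem_filter.1 hl).2.1 (mem_filter.1 hx).2.1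
    · simpa using L'.sub_mem (mem_filter.1 hl).2.2 (mem_filter.1 hx).2.2

open Classical in
lemma acount_ind {K ι : Type} [AddCommGroup K] [Fintype K] {p M : ℕ} (hp : p.Prime)
    (ht : ∀ x : K, ∃ k : ℕ, p ^ k • x = 0) (hM : 2 * M ^ 2 ≤ p) (a : ι → ℤ) (c : ι → K)
    (L : ι → AddSubgroup K) (ha : ∀ i, |a i| ≤ M) (s : Finset ι) : s.card ≤ M →
    (∀ l, ∑ j ∈ s, (if l - c j ∈ L j then a j else 0) = 0) ∨ ∃ i,
      |∑ l, ∑ j ∈ s, if l - c j ∈ L j then a j else 0| ≤ M ^ 2 * Nat.card (L i) ∧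
      (Nat.card (L i) : ℤ) ≤ 2 * |∑ l, if l - c i ∈ L i then
        ∑ j ∈ s, (if l - c j ∈ L j then a j else 0) else 0| := by
  induction s using Finset.strongInduction with
  | H s ih =>
  intro hs
  rcases s.eq_empty_or_nonempty with rfl | hne
  · exact Or.inl fun l => sum_empty
  obtain ⟨i, hi, hmax⟩ := exists_max_image s (fun j => Nat.card (L j)) hne
  obtain ⟨T, hT⟩ : ∃ T : ι → Prop, ∀ j, T j ↔ L j = L i ∧ c j - c i ∈ L i := ⟨_, fun _ => Iff.rfl⟩
  have e : ∀ l, ∑ j ∈ s, (if l - c j ∈ L j then a j else 0) =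
      (if l - c i ∈ L i then ∑ j ∈ s.filter T, a j else 0) +
        ∑ j ∈ s.filter fun j => ¬ T j, if l - c j ∈ L j then a j else 0 := fun l => by
    rw [← sum_filter_add_sum_filter_not s T]
    congr 1
    rw [sum_congr rfl (g := fun j => if l - c i ∈ L i then a j else 0) fun j hj => ?_]
    · split_ifs <;> simp
    · obtain ⟨h1, h2⟩ := (hT j).1 (mem_filter.1 hj).2
      refine if_congr ?_ rfl rfl
      rw [h1]
      exact ⟨fun h => by simpa using (L i).add_mem h h2,
        fun h => by simpa using (L i).sub_mem h h2⟩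
  have hc := (card_filter_le s fun j => ¬ T j).trans hs
  by_cases h0 : ∑ j ∈ s.filter T, a j = 0
  · simp only [e, h0, ite_self, zero_add]
    exact ih _ (filter_ssubset.2 ⟨i, hi, not_not.2 ((hT i).2 ⟨rfl, by simp⟩)⟩) hc
  have hM0 : (0 : ℤ) ≤ M := Nat.cast_nonneg _
  refine Or.inr ⟨i, ?_, ?_⟩
  · rw [sum_comm]
    refine (abs_sum_le_sum_abs _ _).trans ((sum_le_card_nsmul _ _ ((M : ℤ) * Nat.card (L i))
      fun j hj => ?_).trans ?_)
    · rw [← sum_filter, sum_const, acount_coset, nsmul_eq_mul, abs_mul, Nat.abs_cast, mul_comm]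
      exact mul_le_mul (ha j) (by exact_mod_cast hmax j hj) (Nat.cast_nonneg _) hM0
    · rw [nsmul_eq_mul, sq, mul_assoc]
      exact mul_le_mul_of_nonneg_right (by exact_mod_cast hs) (by positivity)
  · have e1 : (∑ l, if l - c i ∈ L i then
        ∑ j ∈ s, (if l - c j ∈ L j then a j else 0) else 0) =
        Nat.card (L i) * ∑ j ∈ s.filter T, a j + ∑ j ∈ s.filter fun j => ¬ T j,
          ((univ.filter fun l => l - c i ∈ L i ∧ l - c j ∈ L j).card : ℤ) * a j := by
      rw [← sum_filter, sum_congr rfl fun l hl => (e l).trans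
        (by rw [if_pos (mem_filter.1 hl).2]), sum_add_distrib, sum_const, acount_coset,
        nsmul_eq_mul, sum_comm]
      congr 1
      refine sum_congr rfl fun j _ => ?_
      rw [← sum_filter, filter_filter, sum_const, nsmul_eq_mul]
    have e2 : ∀ j ∈ s.filter fun j => ¬ T j,
        p * (univ.filter fun l => l - c i ∈ L i ∧ l - c j ∈ L j).card ≤ Nat.card (L i) := by
      intro j hj
      obtain ⟨h1, h2⟩ := mem_filter.1 hj
      by_cases h3 : L j = L i
      · rw [filter_eq_empty_iff.2 fun l _ hl => h2 ((hT j).2 ⟨h3, by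
          rw [← sub_sub_sub_cancel_left (c i) (c j) l]
          exact (L i).sub_mem hl.1 (h3 ▸ hl.2)⟩)]
        simp
      · refine (Nat.mul_le_mul_left p (acount_inter _ _ _ _)).trans
          (card_mul_le_of_lt hp ht (inf_lt_left.2 fun h4 => h3 ?_))
        exact (AddSubgroup.eq_of_le_of_card_ge h4 (hmax j h1)).symm
    have e3 : p * |∑ j ∈ s.filter fun j => ¬ T j,
        ((univ.filter fun l => l - c i ∈ L i ∧ l - c j ∈ L j).card : ℤ) * a j| ≤
        M * (Nat.card (L i) * M) := by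
      refine (mul_le_mul_of_nonneg_left (abs_sum_le_sum_abs _ _) (Nat.cast_nonneg p)).trans ?_
      rw [mul_sum]
      refine (sum_le_card_nsmul _ _ ((Nat.card (L i) : ℤ) * M) fun j hj => ?_).trans ?_
      · rw [abs_mul, Nat.abs_cast, ← mul_assoc]
        exact mul_le_mul (by exact_mod_cast e2 j hj) (ha j) (abs_nonneg _) (Nat.cast_nonneg _)
      · rw [nsmul_eq_mul]
        exact mul_le_mul_of_nonneg_right (by exact_mod_cast hc) (by positivity)
    rw [e1]
    generalize (∑ j ∈ s.filter fun j => ¬ T j,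
      ((univ.filter fun l => l - c i ∈ L i ∧ l - c j ∈ L j).card : ℤ) * a j) = y at e3 ⊢
    have h1 : 1 ≤ |∑ j ∈ s.filter T, a j| := Int.one_le_abs h0
    have h2 := abs_sub (Nat.card (L i) * ∑ j ∈ s.filter T, a j + y) y
    rw [add_sub_cancel_right, abs_mul, Nat.abs_cast] at h2
    have h3 : (0 : ℤ) ≤ Nat.card (L i) := Nat.cast_nonneg _
    have h4 : (2 * M ^ 2 : ℤ) ≤ p := by exact_mod_cast hM
    have h5 : (0 : ℤ) < p := by exact_mod_cast hp.pos
    have h6 : 2 * |y| ≤ Nat.card (L i) := le_of_mul_le_mul_left (a := (p : ℤ))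
      (by nlinarith [mul_le_mul_of_nonneg_right h4 h3]) h5
    nlinarith [mul_le_mul_of_nonneg_left h1 h3]

open Classical in
/-- The largest stratum.  Let `I` be the set of indices `i` such that the total coefficient
`∑ j with L j = L i ∧ c j - c i ∈ L i, a j` of the coset of `i` is nonzero; then
`f l = ∑ i ∈ I, ..` (the other cosets cancel).  If `I = ∅`, `f = 0`.  Otherwise take `i₀ ∈ I`
with `|L i₀|` maximal.  Summing `f` over the coset of `i₀`: indices with the same coset give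
`(total) |L|`, those with the same subgroup and another coset give `0`, the others at most
`M |L| / p` each (two cosets meet in at most `|L ⊓ L i|` points and `L ⊓ L i < L`;
`card_mul_le_of_lt`).  Also `|∑ l, f l| ≤ M² |L|`. -/
lemma rep_stratum {K : Type} [AddCommGroup K] [Fintype K] {p M : ℕ} (hp : p.Prime)
    (ht : ∀ x : K, ∃ k : ℕ, p ^ k • x = 0) (hM : 2 * M ^ 2 ≤ p) {Q : AddSubgroup K → Prop}
    {f : K → ℤ} (h : Rep Q M f) :
    (∀ l, f l = 0) ∨ ∃ L c, Q L ∧ |∑ l, f l| ≤ M ^ 2 * Nat.card L ∧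
      (Nat.card L : ℤ) ≤ 2 * |∑ l, if l - c ∈ L then f l else 0| := by
  obtain ⟨m, a, c, L, h1, h2, h3, h4⟩ := h
  simp only [h4]
  exact (acount_ind hp ht hM a c L h2 univ (by simpa using h1)).imp_right
    fun ⟨i, hi⟩ => ⟨L i, c i, h3 i, hi⟩

open Classical in
/-- One character.  By `sum_mul_neg` at `0`, `|A| w 0 = ∑ l, f l`; by `sum_coset`,
`∑ l ∈ c + L, f l = |L| ∑ d ∈ L^⊥, w d * c d` has absolute value at most `|L| ∑ d ∈ L^⊥, w d`.
So `1 ≤ 2 ∑ d ∈ L^⊥, w d` and `|A| w 0 ≤ M² |L|`. -/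
lemma count_one {A : Type} [AddCommGroup A] [Fintype A] {p M : ℕ} (hp : p.Prime)
    (ht : ∀ x : AddChar A ℂ, ∃ k : ℕ, p ^ k • x = 0) (hM : 2 * M ^ 2 ≤ p)
    (𝓗 : Finset (AddSubgroup (AddChar A ℂ))) (w : A → ℝ) (hw : ∀ d, 0 ≤ w d)
    (f : AddChar A ℂ → ℤ) (hf : ∀ l, (f l : ℂ) = ∑ d, (w d : ℂ) * l d)
    (h : Rep (fun L => L ∈ 𝓗 ∧ L ≠ ⊤) M f) :
    Fintype.card A * w 0 ≤ ∑ L ∈ 𝓗.erase ⊤, 2 * M ^ 2 * (Nat.card L : ℝ) *
      ∑ d ∈ univ.filter (fun d : A => ∀ l ∈ L, l d = 1), w d := by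
  have h0 : ∀ L ∈ 𝓗.erase ⊤, 0 ≤ 2 * M ^ 2 * (Nat.card L : ℝ) *
      ∑ d ∈ univ.filter (fun d : A => ∀ l ∈ L, l d = 1), w d :=
    fun L _ => mul_nonneg (by positivity) (sum_nonneg fun d _ => hw d)
  have e0 : ((∑ l, f l : ℤ) : ℝ) = Fintype.card A * w 0 := by
    have h1 := sum_mul_neg (fun d => (w d : ℂ)) 0
    simp only [neg_zero, AddChar.map_zero_eq_one, mul_one, ← hf] at h1
    apply Complex.ofReal_injective
    push_cast
    exact h1
  rw [← e0]
  rcases rep_stratum hp ht hM h with h1 | ⟨L, c, hL, h1, h2⟩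
  · simp only [h1, sum_const_zero, Int.cast_zero]
    exact sum_nonneg h0
  refine le_trans ?_ (single_le_sum h0 (mem_erase.2 ⟨hL.2, hL.1⟩))
  have e1 : ((∑ l, if l - c ∈ L then f l else 0 : ℤ) : ℂ) =
      ∑ d ∈ univ.filter (fun d : A => ∀ l ∈ L, l d = 1), (w d : ℂ) * (Nat.card L * c d) := by
    rw [sum_filter, sum_congr rfl (g := fun d => ∑ l : AddChar A ℂ,
      if l - c ∈ L then (w d : ℂ) * l d else 0) fun d _ => ?_, sum_comm, Int.cast_sum]
    · refine sum_congr rfl fun l _ => ?_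
      split_ifs <;> simp [hf]
    · have h3 := congrArg ((w d : ℂ) * ·) (sum_coset L c d)
      simpa only [mul_sum, mul_ite, mul_zero] using h3.symm
  have e2 : ((|∑ l, if l - c ∈ L then f l else 0| : ℤ) : ℝ) ≤
      Nat.card L * ∑ d ∈ univ.filter (fun d : A => ∀ l ∈ L, l d = 1), w d := by
    rw [Int.cast_abs, ← Complex.norm_intCast, e1, mul_sum]
    refine norm_sum_le_of_le _ fun d _ => le_of_eq ?_
    rw [norm_mul, norm_mul, AddChar.norm_apply, Complex.norm_natCast, Complex.norm_real,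
      Real.norm_of_nonneg (hw d), mul_one, mul_comm]
  have h3 : ((∑ l, f l : ℤ) : ℝ) ≤ M ^ 2 * Nat.card L := by exact_mod_cast (le_abs_self _).trans h1
  have h4 : (Nat.card L : ℝ) ≤ 2 * ((|∑ l, if l - c ∈ L then f l else 0| : ℤ) : ℝ) := by
    exact_mod_cast h2
  nlinarith [mul_le_mul_of_nonneg_left (h4.trans (mul_le_mul_of_nonneg_left e2 zero_le_two))
    (sq_nonneg (M : ℝ))]

/-- Sum `count_one` over `χ ∉ A₀`: with `W = ∑ χ, w 0 χ`,
`|A| W ≤ |A| e M + ∑ L, 2 M² |L| (W + R |L^⊥|) ≤ |A| (e M + 2 M³ W / p + 2 M³ R)`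
(`card_perp`, `card_mul_le_of_lt` with `⊤`, `AddChar.card_eq`). -/
theorem count {A X : Type} [AddCommGroup A] [Fintype A] [Fintype X] {p M : ℕ} (hp : p.Prime)
    (ht : ∀ x : AddChar A ℂ, ∃ k : ℕ, p ^ k • x = 0) (hM : 2 * M ^ 2 + 4 * M ^ 3 ≤ p)
    (w : A → X → ℝ) (hw : ∀ d χ, 0 ≤ w d χ) (F : AddChar A ℂ → X → X → ℤ)
    (hF : ∀ l χ, (F l χ χ : ℂ) = ∑ d, (w d χ : ℂ) * l d) (e R : ℝ) (hR0 : 0 ≤ R)
    (he0 : 0 ≤ e) (he : ∀ χ, w 0 χ ≤ e) (hR : ∀ d, d ≠ 0 → ∑ χ, w d χ ≤ R) (h : Struct M F) :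
    ∑ χ, w 0 χ ≤ 2 * e * M + 4 * M ^ 3 * R := by
  classical
  obtain ⟨𝓗, A₀, h1, h2, h3⟩ := h
  obtain ⟨W, hW⟩ : ∃ W, W = ∑ χ, w 0 χ := ⟨_, rfl⟩
  have hW0 : 0 ≤ W := hW ▸ sum_nonneg fun χ _ => hw 0 χ
  have hA : (0 : ℝ) < Fintype.card A := by exact_mod_cast Fintype.card_pos
  have hp0 : (0 : ℝ) < p := by exact_mod_cast hp.pos
  have k1 : ∑ χ ∈ A₀, Fintype.card A * w 0 χ ≤ M * (Fintype.card A * e) := by
    refine (sum_le_card_nsmul _ _ _ fun χ _ => mul_le_mul_of_nonneg_left (he χ) hA.le).trans ?_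
    rw [nsmul_eq_mul]
    exact mul_le_mul_of_nonneg_right (by exact_mod_cast h2) (by positivity)
  have k2 : ∑ χ ∈ A₀ᶜ, Fintype.card A * w 0 χ ≤
      M * (2 * M ^ 2 * (Fintype.card A * R + Fintype.card A / p * W)) := by
    refine (sum_le_sum fun χ hχ => count_one hp ht (le_of_add_le_left hM) 𝓗 (fun d => w d χ)
      (fun d => hw d χ) (fun l => F l χ χ) (fun l => hF l χ) (h3 χ (mem_compl.1 hχ))).trans ?_
    rw [sum_comm]
    refine (sum_le_card_nsmul _ _ (2 * M ^ 2 * (Fintype.card A * R + Fintype.card A / p * W))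
      fun L hL => ?_).trans ?_
    · rw [← mul_sum, sum_comm, mul_assoc]
      refine mul_le_mul_of_nonneg_left ?_ (by positivity)
      have k3 : ∑ d ∈ univ.filter (fun d : A => ∀ l ∈ L, l d = 1), ∑ χ ∈ A₀ᶜ, w d χ ≤
          (univ.filter fun d : A => ∀ l ∈ L, l d = 1).card * R + W := by
        refine (sum_le_sum (g := fun d => R + if d = 0 then W else 0) fun d _ =>
          (sum_le_sum_of_subset_of_nonneg (subset_univ _) fun χ _ _ => hw d χ).trans ?_).trans ?_
        · split_ifs with hd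
          · rw [hd, ← hW]
            linarith
          · linarith [hR d hd]
        · rw [sum_add_distrib, sum_const, nsmul_eq_mul, sum_ite_eq']
          split_ifs <;> linarith
      have k4 : ((univ.filter fun d : A => ∀ l ∈ L, l d = 1).card : ℝ) * Nat.card L =
          Fintype.card A := by exact_mod_cast card_perp L
      have k5 : (Nat.card L : ℝ) ≤ Fintype.card A / p := by
        have k6 := card_mul_le_of_lt hp ht (lt_top_iff_ne_top.2 (mem_erase.1 hL).1)
        rw [AddSubgroup.card_top, Nat.card_eq_fintype_card (α := AddChar A ℂ),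
          AddChar.card_eq] at k6
        rw [le_div_iff₀' hp0]
        exact_mod_cast k6
      refine (mul_le_mul_of_nonneg_left k3 (Nat.cast_nonneg _)).trans ?_
      rw [mul_add, ← mul_assoc, mul_comm (Nat.card L : ℝ), k4]
      gcongr
    · rw [nsmul_eq_mul]
      exact mul_le_mul_of_nonneg_right (by exact_mod_cast card_erase_le.trans h1) (by positivity)
  have k3 : Fintype.card A * W ≤ M * (Fintype.card A * e) +
      M * (2 * M ^ 2 * (Fintype.card A * R + Fintype.card A / p * W)) := by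
    rw [hW, mul_sum, ← sum_add_sum_compl A₀, ← hW]
    exact add_le_add k1 k2
  have k4 : (4 * M ^ 3 : ℝ) * (Fintype.card A / p) ≤ Fintype.card A := by
    rw [← mul_div_assoc, div_le_iff₀' hp0]
    exact mul_le_mul_of_nonneg_right (by exact_mod_cast le_of_add_le_right hM) hA.le
  rw [← hW]
  refine le_of_mul_le_mul_left ?_ hA
  nlinarith [mul_le_mul_of_nonneg_right k4 hW0]

end Pool.Agent.Lib.MP_b6945b_al.Bi
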