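import Mathlib

set_option autoImplicit false

/-!
Integer valued positive definite kernels: definitions for the abstract rank bound.
-/

namespace Pool.Agent.Lib.MP_b6945b_al.Bi

open Finset Filter Topology Pointwise
open scoped RealInnerProductSpace Matrix

/-- An integer valued positive definite kernel on `K × X`, invariant under `E`. -/
structure Ker (E : Type) {K X : Type} [Group E] [Fintype E] [AddCommGroup K]
    [DistribMulAction E K] (F : K → X → X → ℤ) : Prop where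
  symm : ∀ l χ ψ, F (-l) ψ χ = F l χ ψ
  psd : ∀ (m : ℕ) (a : Fin m → ℝ) (l : Fin m → K) (χ : Fin m → X),
    0 ≤ ∑ i, ∑ j, a i * a j * (F (l i - l j) (χ i) (χ j) : ℝ)
  zero_same : ∀ χ, F 0 χ χ = Fintype.card E
  zero_ne : ∀ χ ψ, χ ≠ ψ → F 0 χ ψ = 0
  inv : ∀ (g : E) l χ ψ, F (g • l) χ ψ = F l χ ψ
  compl : ∀ l χ, ∃ (m : ℕ) (s : Fin m → X), m ≤ Fintype.card E ^ 2 ∧ Function.Injective s ∧
    ∑ i, F l χ (s i) ^ 2 = ∑ g : E, F (l - g • l) χ χ
  dvd : ∀ (H : Subgroup E) (l : K), (∀ g ∈ H, g • l = l) → ∀ χ ψ, (Nat.card H : ℤ) ∣ F l χ ψ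

open Classical in
/-- `f` is a combination of at most `M` indicator functions of cosets of subgroups satisfying `Q`,
with coefficients bounded by `M`. -/
def Rep {K : Type} [AddCommGroup K] (Q : AddSubgroup K → Prop) (M : ℕ) (f : K → ℤ) : Prop :=
  ∃ (m : ℕ) (a : Fin m → ℤ) (c : Fin m → K) (L : Fin m → AddSubgroup K), m ≤ M ∧
    (∀ i, |a i| ≤ M) ∧ (∀ i, Q (L i)) ∧ ∀ l, f l = ∑ i, if l - c i ∈ L i then a i else 0

/-- Outside a bounded set, the diagonal of the kernel is made of cosets of boundedly many proper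
subgroups. -/
def Struct {K X : Type} [AddCommGroup K] (M : ℕ) (F : K → X → X → ℤ) : Prop :=
  ∃ (𝓗 : Finset (AddSubgroup K)) (A : Finset X), 𝓗.card ≤ M ∧ A.card ≤ M ∧
    ∀ χ, χ ∉ A → Rep (fun L => L ∈ 𝓗 ∧ L ≠ ⊤) M (fun l => F l χ χ)

/-- The conditions on a system at a prime `p`. -/
structure FAx (E : Type) (p r : ℕ) {K X : Type} [Group E] [Fintype E] [AddCommGroup K]
    [DistribMulAction E K] (F : K → X → X → ℤ) : Prop where
  prime : p.Prime
  tors : ∀ x : K, ∃ k : ℕ, p ^ k • x = 0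
  ker : Ker E F
  orth : ∀ (S : Finset X) (M : ℕ), S.card ^ 2 * M + 1 < p →
    (∀ χ ∈ S, ∀ ψ ∈ S, χ ≠ ψ → Rep (fun L => L ≠ ⊥) M (fun l => F l χ ψ)) → S.card ≤ r

/-- The subgroup is a rational subspace. -/
def Pure {K : Type} [AddCommGroup K] [Module ℚ K] (L : AddSubgroup K) : Prop :=
  ∀ (q : ℚ), ∀ x ∈ L, q • x ∈ L

/-- The conditions on a limit system; `Int` is the class of internal subgroups. -/
structure LAx (E : Type) (r : ℕ) {K X : Type} [Group E] [Fintype E] [AddCommGroup K]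
    [Module ℚ K] [DistribMulAction E K] (F : K → X → X → ℤ) (Int : AddSubgroup K → Prop) :
    Prop where
  ker : Ker E F
  thr : ∀ (L : AddSubgroup K) (m : ℕ) (a : Fin m → ℝ) (l : Fin m → K) (χ : Fin m → X) (t : ℝ),
    (∀ x, x ∈ L ↔ t < ∑ i, ∑ j, a i * a j * (F (x + l i - l j) (χ i) (χ j) : ℝ)) → Int L
  pure : ∀ L, Int L → Pure L
  orth : ∀ (S : Finset X) (M : ℕ),
    (∀ χ ∈ S, ∀ ψ ∈ S, χ ≠ ψ → Rep (fun L => Int L ∧ L ≠ ⊥) M (fun l => F l χ ψ)) → S.card ≤ r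

/-- A Hilbert space model of the kernel. -/
structure HSys (E : Type) {K X : Type} (H : Type) [Group E] [Fintype E] [AddCommGroup K]
    [DistribMulAction E K] [NormedAddCommGroup H] [InnerProductSpace ℝ H]
    (F : K → X → X → ℤ) where
  /-- translations -/
  U : K → H →ₗᵢ[ℝ] H
  /-- action of the finite group -/
  R : E → H →ₗᵢ[ℝ] H
  /-- distinguished vectors -/
  v : X → H
  U_zero : ∀ x, U 0 x = x
  U_add : ∀ l m x, U (l + m) x = U l (U m x)
  R_one : ∀ x, R 1 x = x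
  R_mul : ∀ g h x, R (g * h) x = R g (R h x)
  RU : ∀ g l x, R g (U l x) = U (g • l) (R g x)
  Rv : ∀ g χ, R g (v χ) = v χ
  inner_v : ∀ l χ ψ, ⟪U l (v χ), v ψ⟫ = (F l χ ψ : ℝ)
  approx : ∀ x, ∀ ε > (0 : ℝ), ∃ (m : ℕ) (a : Fin m → ℝ) (l : Fin m → K) (χ : Fin m → X),
    ‖x - ∑ i, a i • U (l i) (v (χ i))‖ < ε
  compl : ∀ x, (∀ ψ, ⟪x, v ψ⟫ = 0) → ∑ g, R g x = 0

namespace HSys

variable {E K X H : Type} [Group E] [Fintype E] [AddCommGroup K] [DistribMulAction E K]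
  [NormedAddCommGroup H] [InnerProductSpace ℝ H] {F : K → X → X → ℤ} (S : HSys E H F)

/-- `w` is the weak limit of the orbit of `x` along `u`. -/
def WLim (u : Ultrafilter K) (x w : H) : Prop :=
  ∀ y, Tendsto (fun l => ⟪S.U l x, y⟫) u (𝓝 ⟪w, y⟫)

/-- The lattice generated by the distinguished vectors and weak limits of orbits. -/
inductive Lat : H → Prop
  | v (χ : X) : Lat (S.v χ)
  | zero : Lat 0
  | add {x y : H} : Lat x → Lat y → Lat (x + y)
  | neg {x : H} : Lat x → Lat (-x)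
  | U (l : K) {x : H} : Lat x → Lat (S.U l x)
  | R (g : E) {x : H} : Lat x → Lat (S.R g x)
  | lim (u : Ultrafilter K) {x w : H} : Lat x → S.WLim u x w → Lat w

/-- The stabiliser of a vector. -/
def stab (x : H) : AddSubgroup K where
  carrier := {l | S.U l x = x}
  zero_mem' := S.U_zero x
  add_mem' := by
    intro a b ha hb
    change S.U (a + b) x = x
    rw [S.U_add, hb, ha]
  neg_mem' := by
    intro a ha
    change S.U (-a) x = x
    conv_lhs => rw [← ha]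
    rw [← S.U_add, neg_add_cancel, S.U_zero]

lemma mem_stab {x : H} {l : K} : l ∈ S.stab x ↔ S.U l x = x := Iff.rfl

/-- `x` is a lattice vector fixed by `L` whose matrix coefficients have finite support
modulo `L`. -/
def At (L : AddSubgroup K) (x : H) : Prop :=
  S.Lat x ∧ (∀ l ∈ L, S.U l x = x) ∧
    ∀ y, S.Lat y → ∃ T : Finset K, ∀ l, ⟪S.U l x, y⟫ ≠ 0 → ∃ t ∈ T, l - t ∈ L

/-- Decomposition of the distinguished vectors into strata. -/
structure Strat (c : X → AddSubgroup K → H) (T : X → Finset (AddSubgroup K)) : Prop where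
  atom : ∀ χ L, S.At L (c χ L)
  off : ∀ χ L, L ∉ T χ → c χ L = 0
  ne : ∀ χ, ∀ L ∈ T χ, c χ L ≠ 0
  good : ∀ χ, ∀ L ∈ T χ, S.stab (c χ L) = L
  sum : ∀ χ, S.v χ = ∑ L ∈ T χ, c χ L
  equiv : ∀ (g : E) χ L, S.R g (c χ L) = c χ (g • L)
  orth : ∀ χ ψ L L' l, L ≠ L' → ⟪S.U l (c χ L), c ψ L'⟫ = 0

/-- A closed substructure. -/
structure Closed [Module ℚ K] (c : X → AddSubgroup K → H) (T : X → Finset (AddSubgroup K))
    (X₀ : Set X) (K₀ : AddSubgroup K) : Prop where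
  c1 : ∀ l ∈ K₀, ∀ χ ∈ X₀, ∀ L ψ, ⟪S.U l (c χ L), S.v ψ⟫ ≠ 0 → ψ ∈ X₀
  c2 : ∀ χ ∈ X₀, ∀ ψ ∈ X₀, ∀ L l, ⟪S.U l (c χ L), c ψ L⟫ ≠ 0 → l ∈ K₀ ⊔ L
  pure : Pure K₀
  inv : ∀ g : E, ∀ l ∈ K₀, g • l ∈ K₀
  c4 : ∀ ψ, ψ ∉ X₀ → ∃ χ ∈ X₀, ∃ l, ⟪S.U l (c χ ⊥), S.v ψ⟫ ≠ 0
  c5 : ∀ χ ∈ X₀, ∀ L ∈ T χ, ∀ (A : Subgroup E) (g : E),
    (∃ l : K, (∀ h ∈ A, h • l = l) ∧ l - g • l ∉ L) →
      ∃ l ∈ K₀, (∀ h ∈ A, h • l = l) ∧ l - g • l ∉ L

/-- The closed span of the standard vectors of the stratum `L`. -/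
noncomputable def Vs (c : X → AddSubgroup K → H) (X₀ : Set X) (K₀ : AddSubgroup K)
    (L : AddSubgroup K) : Submodule ℝ H :=
  (Submodule.span ℝ {x | ∃ χ ∈ X₀, ∃ l ∈ K₀, x = S.U l (c χ L)}).topologicalClosure

/-- `(L, l)` is a position of `ψ`. -/
def Pos (c : X → AddSubgroup K → H) (X₀ : Set X) (K₀ : AddSubgroup K) (ψ : X)
    (L : AddSubgroup K) (l : K) : Prop :=
  ∃ χ ∈ X₀, ∃ κ ∈ K₀, ⟪S.U (l + κ) (c χ L), S.v ψ⟫ ≠ 0

end HSys

/-- Interface of an ultraproduct of systems. -/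
structure UP (E : Type) [Group E] {K X : ℕ → Type} [∀ n, AddCommGroup (K n)]
    [∀ n, DistribMulAction E (K n)] (F : ∀ n, K n → X n → X n → ℤ) (u : Ultrafilter ℕ)
    {K' X' : Type} [AddCommGroup K'] [DistribMulAction E K'] (F' : K' → X' → X' → ℤ)
    (πK : (∀ n, K n) →+ K') (πX : (∀ n, X n) → X') : Prop where
  surjK : Function.Surjective πK
  surjX : Function.Surjective πX
  kerK : ∀ l, πK l = 0 ↔ ∀ᶠ n in u, l n = 0
  kerX : ∀ χ ψ, πX χ = πX ψ ↔ ∀ᶠ n in u, χ n = ψ n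
  smul : ∀ (g : E) l, πK (fun n => g • l n) = g • πK l
  val : ∀ l χ ψ, ∀ᶠ n in u, F' (πK l) (πX χ) (πX ψ) = F n (l n) (χ n) (ψ n)

/-- The internal subgroup defined by a sequence of subgroups. -/
def intl {K : ℕ → Type} [∀ n, AddCommGroup (K n)] {K' : Type} [AddCommGroup K']
    (u : Ultrafilter ℕ) (πK : (∀ n, K n) →+ K') (L : ∀ n, AddSubgroup (K n)) : AddSubgroup K' :=
  AddSubgroup.map πK
    { carrier := {l | ∀ᶠ n in u, l n ∈ L n}
      zero_mem' := Eventually.of_forall fun n => (L n).zero_mem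
      add_mem' := fun ha hb => (ha.and hb).mono fun n h => (L n).add_mem h.1 h.2
      neg_mem' := fun ha => ha.mono fun n h => (L n).neg_mem h }

/-- The order of the stabiliser of `d`. -/
noncomputable def stb {E D : Type} [Group E] [Group D] (φ : E →* MulAut D) (d : D) : ℕ :=
  Nat.card {g : E // φ g d = d}

/-- A system of orthogonal projections indexed by an abelian `p`-group. -/
structure MSys (p r : ℕ) {E D X : Type} [Group E] [Fintype E] [Group D] [Fintype D] [Fintype X]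
    [DecidableEq X] (φ : E →* MulAut D) (P : D → Matrix X X ℂ) : Prop where
  comm : ∀ a b : D, a * b = b * a
  pD : IsPGroup p D
  nontriv : Nontrivial D
  herm : ∀ d, (P d)ᴴ = P d
  idem : ∀ d, P d * P d = P d
  orth : ∀ d d', (∀ g, φ g d ≠ d') → P d * P d' = 0
  inv : ∀ g d, P (φ g d) = P d
  sum : ∑ d, (stb φ d : ℂ) • P d = (Fintype.card E : ℂ) • (1 : Matrix X X ℂ)
  int : ∀ (m : ℕ) (lam : Fin m → D →* ℂ), (∀ g d, ∑ i, lam i (φ g d) = ∑ i, lam i d) →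
    ∀ χ ψ, ∃ z : ℤ, ∑ d, (stb φ d : ℂ) * (∑ i, lam i d) * P d χ ψ = Fintype.card E * z
  diag : ∀ d χ, P d χ χ ≠ 0
  rank : ∀ d, d ≠ 1 → (P d).rank ≤ r

end Pool.Agent.Lib.MP_b6945b_al.Bi
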