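import Pool.Agent.Lib.MP_b6945b_al.Bi.AGNS
import Pool.Agent.Lib.MP_b6945b_al.Bi.AClos
import Pool.Agent.Lib.MP_b6945b_al.Bi.AClaim

set_option autoImplicit false

/-!
The structure theorem for limit systems.
-/

namespace Pool.Agent.Lib.MP_b6945b_al.Bi

open Finset Filter Topology Pointwise
open scoped RealInnerProductSpace

/-- `exists_hsys`, `Lat.int_stab` and `pure` give `hp`; `exists_strat`; the bound `hr` comes from
`orth` and `Strat.rep` with `Q L = Int L ∧ L ≠ ⊥` (take the maximum of the finitely many `M`,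
`Rep.mono`); `exists_closed`; `𝓗 = ⋃ χ ∈ X₀, T χ`; `claimA` and `Strat.rep`. -/
theorem LAx.limit {E K X : Type} [Group E] [Fintype E] [AddCommGroup K] [Module ℚ K]
    [DistribMulAction E K] {F : K → X → X → ℤ} {r : ℕ} {Int : AddSubgroup K → Prop}
    (h : LAx E r F Int) :
    ∃ (X₀ : Set X) (𝓗 : Set (AddSubgroup K)), X₀.Countable ∧ 𝓗.Countable ∧ (∀ L ∈ 𝓗, Int L) ∧
      ∀ ψ, ψ ∉ X₀ → ∃ M, Rep (fun L => L ∈ 𝓗 ∧ L ≠ ⊤) M (fun l => F l ψ ψ) := by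
  classical
  obtain ⟨H, _, _, _, ⟨S⟩⟩ := h.ker.exists_hsys
  have hp : ∀ x, S.Lat x → Pure (S.stab x) := fun x hx => h.pure _ (hx.int_stab h)
  obtain ⟨c, T, hs⟩ := HSys.exists_strat hp
  have hint : ∀ χ, ∀ L ∈ T χ, Int L := fun χ L hL =>
    hs.good χ L hL ▸ (hs.lat χ L).int_stab h
  have hr : ∀ A : Finset X,
      (∀ χ ∈ A, ∀ ψ ∈ A, χ ≠ ψ → ∀ l, ⟪S.U l (c χ ⊥), c ψ ⊥⟫ = 0) → A.card ≤ r := by
    intro A hA
    have h1 : ∀ χ ψ, ∃ M, χ ∈ A → ψ ∈ A → χ ≠ ψ →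
        Rep (fun L => Int L ∧ L ≠ ⊥) M (fun l => F l χ ψ) := by
      intro χ ψ
      by_cases e : χ ∈ A ∧ ψ ∈ A ∧ χ ≠ ψ
      · obtain ⟨M, hM⟩ := hs.rep χ ψ (fun L => Int L ∧ L ≠ ⊥) fun L hL ⟨l, hl⟩ =>
          ⟨hint χ L hL, fun e' => hl (by subst e'; exact hA χ e.1 ψ e.2.1 e.2.2 l)⟩
        exact ⟨M, fun _ _ _ => hM⟩
      · exact ⟨0, fun h1 h2 h3 => absurd ⟨h1, h2, h3⟩ e⟩
    choose M hM using h1
    refine h.orth A ((A ×ˢ A).sup fun q => M q.1 q.2) fun χ hχ ψ hψ hne =>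
      (hM χ ψ hχ hψ hne).mono (fun _ hL => hL) ?_
    exact Finset.le_sup (f := fun q : X × X => M q.1 q.2) (b := (χ, ψ))
      (Finset.mem_product.2 ⟨hχ, hψ⟩)
  obtain ⟨X₀, K₀, hX, hc⟩ := HSys.exists_closed h.ker hs hr
  refine ⟨X₀, ⋃ χ ∈ X₀, (T χ : Set (AddSubgroup K)), hX,
    hX.biUnion fun χ _ => (T χ).countable_toSet, ?_, fun ψ hψ => ?_⟩
  · intro L hL
    obtain ⟨χ, _, hχ⟩ := Set.mem_iUnion₂.1 hL
    exact hint χ L hχ
  · refine hs.rep ψ ψ _ fun L hL _ => ?_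
    have h0 := hs.ne ψ L hL
    constructor
    · by_contra hn
      exact h0 (HSys.claimA h.ker hp hs hc hψ
        (Or.inr fun χ hχ hT => hn (Set.mem_iUnion₂.2 ⟨χ, hχ, hT⟩)))
    · exact fun e => h0 (HSys.claimA h.ker hp hs hc hψ (Or.inl e))

end Pool.Agent.Lib.MP_b6945b_al.Bi
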