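import Pool.Agent.Lib.MP_b6945b_al.Bi.AUl2
import Pool.Agent.Lib.MP_b6945b_al.Bi.ALimit

set_option autoImplicit false

/-!
The uniform structure theorem.
-/

namespace Pool.Agent.Lib.MP_b6945b_al.Bi

open Finset Filter Topology Pointwise

section
variable {E : Type} [Group E] [Fintype E] {K X : ℕ → Type} [∀ n, AddCommGroup (K n)]
  [∀ n, DistribMulAction E (K n)] {F : ∀ n, K n → X n → X n → ℤ} {u : Ultrafilter ℕ}
  {K' X' : Type} [AddCommGroup K'] [DistribMulAction E K'] {F' : K' → X' → X' → ℤ}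
  {πK : (∀ n, K n) →+ K'} {πX : (∀ n, X n) → X'}

omit [Fintype E] in
lemma aul3_rep (U : UP E F u F' πK πX) {Q : AddSubgroup K' → Prop}
    {Qn : ∀ n, AddSubgroup (K n) → Prop} {M : ℕ} (χ ψ : ∀ n, X n)
    (hQ : ∀ L, Q L → ∃ Ls, L = intl u πK Ls ∧ ∀ᶠ n in (u : Filter ℕ), Qn n (Ls n))
    (h : Rep Q M fun l => F' l (πX χ) (πX ψ)) :
    ∀ᶠ n in (u : Filter ℕ), Rep (Qn n) M fun l => F n l (χ n) (ψ n) := by
  obtain ⟨m, a, c, L, h1, h2, h3, h4⟩ := h
  choose Ls hL hq using fun i => hQ _ (h3 i)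
  choose c' hc using fun i => U.surjK (c i)
  have k := U.rep_transfer a c' Ls χ ψ fun l => by
    refine (h4 l).trans (sum_congr rfl fun i _ => ?_)
    rw [hc, ← hL]
  exact (k.and (eventually_all.2 hq)).mono fun n hn =>
    ⟨m, a, fun i => c' i n, fun i => Ls i n, h1, h2, hn.2, hn.1⟩

/-- `thr`: `exists_intl` with `A n = {x | t < ∑ i j, a i * a j * F n (x + l i n - l j n) ..}`.
`pure`: for `x = πK l ∈ intl Ls` and `q`, choose by `exists_nsmul_inv` multiples `y n` of `l n`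
with `q.den • y n = l n` for most `n`; then `q • x = q.num • πK y`
(`(q.den : ℚ) • πK y = x`).  `orth`: if `r < S.card`, choose representatives `χ̃` of the elements
of `S` and data for the `Rep`s, `rep_transfer` and `intl_ne_bot`; for most `n` the map
`χ ↦ χ̃ n` is injective on `S`, `S.card ^ 2 * M + 1 < p n`, and `FAx.orth` applies to the image. -/
theorem UP.lax [Module ℚ K'] (U : UP E F u F' πK πX) {p : ℕ → ℕ} {r : ℕ}
    (h : ∀ n, FAx E (p n) r (F n)) (hp : ∀ n, n < p n) (hu : (u : Filter ℕ) ≤ atTop) :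
    LAx E r F' (fun L => ∃ Ls, L = intl u πK Ls) := by
  classical
  have hlt : ∀ N : ℕ, ∀ᶠ n in (u : Filter ℕ), N < p n := fun N =>
    ((eventually_ge_atTop N).filter_mono hu).mono fun n hn => lt_of_le_of_lt hn (hp n)
  refine ⟨U.ker fun n => (h n).ker, fun L m a l χ t hL => ?_, ?_, fun S M hS => ?_⟩
  · choose l' hl using fun i => U.surjK (l i)
    choose χ' hχ using fun i => U.surjX (χ i)
    refine U.exists_intl L (fun n => {x | t < ∑ i, ∑ j, a i * a j *
      (F n (x + l' i n - l' j n) (χ' i n) (χ' j n) : ℝ)}) fun x => ?_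
    have hv : ∀ᶠ n in (u : Filter ℕ), ∀ i j, F' (πK x + l i - l j) (χ i) (χ j) =
        F n (x n + l' i n - l' j n) (χ' i n) (χ' j n) :=
      eventually_all.2 fun i => eventually_all.2 fun j => by
        have := U.val (x + l' i - l' j) (χ' i) (χ' j)
        rwa [map_sub, map_add, hl, hl, hχ, hχ] at this
    rw [hL]
    constructor
    · intro ht
      refine hv.mono fun n hn => ?_
      simpa only [hn, Set.mem_ofPred_eq] using ht
    · intro ht
      obtain ⟨n, h1, h2⟩ := (hv.and ht).exists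
      simpa only [h1, Set.mem_ofPred_eq] using h2
  · rintro _ ⟨Ls, rfl⟩ q x hx
    obtain ⟨l, rfl⟩ := U.surjK x
    have hm : ∀ n, ∃ m : ℕ, q.den < p n → q.den • m • l n = l n := fun n => by
      by_cases hn : q.den < p n
      · exact (exists_nsmul_inv (h n).prime q.den_nz hn ((h n).tors (l n))).imp fun _ e _ => e
      · exact ⟨0, fun e => (hn e).elim⟩
    choose m hm using hm
    have h1 : πK (fun n => m n • l n) ∈ intl u πK Ls :=
      (U.mem_intl _ _).2 (((U.mem_intl _ _).1 hx).mono fun n hn => nsmul_mem hn _)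
    have h2 : q.den • πK (fun n => m n • l n) = πK l := by
      rw [← sub_eq_zero, ← map_nsmul, ← map_sub, U.kerK]
      exact (hlt q.den).mono fun n hn => sub_eq_zero.2 (hm n hn)
    rw [← h2, ← Nat.cast_smul_eq_nsmul ℚ, smul_smul, Rat.mul_den_eq_num, Int.cast_smul_eq_zsmul]
    exact zsmul_mem h1 _
  · choose χ' hχ using U.surjX
    have h1 : ∀ᶠ n in (u : Filter ℕ), ∀ χ ∈ S, ∀ ψ ∈ S, χ ≠ ψ → χ' χ n ≠ χ' ψ n ∧
        Rep (fun L => L ≠ ⊥) M (fun l => F n l (χ' χ n) (χ' ψ n)) := by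
      refine (eventually_all_finset S).2 fun χ hχS => (eventually_all_finset S).2 fun ψ hψS => ?_
      by_cases e : χ = ψ
      · exact Eventually.of_forall fun n h => (h e).elim
      have k1 : ∀ᶠ n in (u : Filter ℕ), χ' χ n ≠ χ' ψ n := Ultrafilter.eventually_not.2 fun k =>
        e (by rw [← hχ χ, ← hχ ψ]; exact (U.kerX _ _).2 k)
      have k2 := aul3_rep U (Q := fun L => (∃ Ls, L = intl u πK Ls) ∧ L ≠ ⊥)
        (Qn := fun n L => L ≠ ⊥) (M := M) (χ' χ) (χ' ψ)
        (by rintro _ ⟨⟨Ls, rfl⟩, hL⟩; exact ⟨Ls, rfl, U.intl_ne_bot hL⟩)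
        (by rw [hχ, hχ]; exact hS χ hχS ψ hψS e)
      exact (k1.and k2).mono fun n hn _ => hn
    obtain ⟨n, h2, h3⟩ := (h1.and (hlt (S.card ^ 2 * M + 1))).exists
    have hc : (S.image fun χ => χ' χ n).card = S.card := card_image_of_injOn fun χ hχS ψ hψS e =>
      by_contra fun k => (h2 χ hχS ψ hψS k).1 e
    rw [← hc]
    refine (h n).orth _ M (by rwa [hc]) fun a ha b hb hab => ?_
    obtain ⟨χ, hχS, rfl⟩ := mem_image.1 ha
    obtain ⟨ψ, hψS, rfl⟩ := mem_image.1 hb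
    exact (h2 χ hχS ψ hψS fun e => hab (by rw [e])).2

end

/-- By contradiction: for each `n` there is a system with `n < p n` and `¬ Struct n (F n)`
(`choose`; `X n` is nonempty).  `u = hyperfilter ℕ` (`Nat.hyperfilter_le_atTop`), `exists_up`,
`UP.lax`, `LAx.limit`.  Enumerate representatives: `x : ℕ → ∀ n, X n` with
`X₀ ⊆ range (πX ∘ x)`, `Ls : ℕ → ∀ n, AddSubgroup (K n)` with `𝓗 ⊆ range (intl ∘ Ls)`
(`Set.Countable.exists_eq_range` after inserting one element, or `Set.countable_iff_exists_subset_range`).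
At level `n` put `A n = (range n).image (x · n)`, `𝓗 n = (range n).image (Ls · n)` and choose
`ψ n ∉ A n` without the `Rep`.  Then `πX ψ ∉ X₀`, and the `Rep` of the limit theorem transfers
(`rep_transfer`, `intl_ne_top`) to most `n`, in particular to some `n` larger than `M` and the
finitely many indices used. -/
theorem uniform_struct (E : Type) [Group E] [Fintype E] (r : ℕ) :
    ∃ M p₀ : ℕ, ∀ (p : ℕ) (K X : Type) [AddCommGroup K] [DistribMulAction E K]
      (F : K → X → X → ℤ), FAx E p r F → p₀ < p → Struct M F := by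
  classical
  by_contra hcon
  have h0 : ∀ n : ℕ, ∃ (p : ℕ) (K X : Type) (_ : AddCommGroup K) (_ : DistribMulAction E K)
      (F : K → X → X → ℤ), FAx E p r F ∧ n < p ∧ ¬Struct n F := fun n => by
    by_contra k
    refine hcon ⟨n, n, fun p K X i1 i2 F h1 h2 => by_contra fun h3 => k ?_⟩
    exact ⟨p, K, X, i1, i2, F, h1, h2, h3⟩
  choose p K X i1 i2 F hF hp hS using h0
  have h1 : ∀ n (𝓗 : Finset (AddSubgroup (K n))) (A : Finset (X n)), 𝓗.card ≤ n → A.card ≤ n →
      ∃ χ, χ ∉ A ∧ ¬Rep (fun L => L ∈ 𝓗 ∧ L ≠ ⊤) n (fun l => F n l χ χ) := fun n 𝓗 A a b => by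
    by_contra k
    exact hS n ⟨𝓗, A, a, b, fun χ hχ => by_contra fun e => k ⟨χ, hχ, e⟩⟩
  have hu : ((hyperfilter ℕ : Ultrafilter ℕ) : Filter ℕ) ≤ atTop := Nat.hyperfilter_le_atTop
  obtain ⟨K', X', j1, j2, j3, F', πK, πX, U⟩ := exists_up hF hp (hyperfilter ℕ) hu
  obtain ⟨X₀, 𝓗, c1, c2, c3, c4⟩ := (U.lax hF hp hu).limit
  have : Nonempty X' := ⟨πX fun n => (h1 n ∅ ∅ (by simp) (by simp)).choose⟩
  obtain ⟨f, hf⟩ := Set.countable_iff_exists_subset_range.1 c1
  obtain ⟨g, hg⟩ := Set.countable_iff_exists_subset_range.1 c2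
  choose x hx using fun i => U.surjX (f i)
  have h2 : ∀ i, ∃ Ls, g i ∈ 𝓗 → g i = intl (hyperfilter ℕ) πK Ls := fun i => by
    by_cases e : g i ∈ 𝓗
    · exact (c3 _ e).imp fun _ h _ => h
    · exact ⟨fun _ => ⊥, fun h => (e h).elim⟩
  choose Ls hLs using h2
  choose ψ k1 k2 using fun n => h1 n ((range n).image fun i => Ls i n)
    ((range n).image fun i => x i n) (card_image_le.trans (card_range n).le)
    (card_image_le.trans (card_range n).le)
  have hgt : ∀ N : ℕ, ∀ᶠ n in ((hyperfilter ℕ : Ultrafilter ℕ) : Filter ℕ), N < n := fun N =>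
    hu (eventually_gt_atTop N)
  obtain ⟨M, hM⟩ := c4 (πX ψ) fun e => by
    obtain ⟨i, hi⟩ := hf e
    obtain ⟨n, a, b⟩ := (((U.kerX _ _).1 ((hx i).trans hi)).and (hgt i)).exists
    exact k1 n (mem_image.2 ⟨i, mem_range.2 b, a⟩)
  have k3 := aul3_rep U
    (Qn := fun n L => L ∈ ((range n).image fun i => Ls i n) ∧ L ≠ ⊤) ψ ψ (fun L hL => by
      obtain ⟨i, rfl⟩ := hg hL.1
      exact ⟨Ls i, hLs i hL.1, ((hgt i).and (U.intl_ne_top (hLs i hL.1 ▸ hL.2))).mono
        fun n hn => ⟨mem_image.2 ⟨i, mem_range.2 hn.1, rfl⟩, hn.2⟩⟩) hM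
  obtain ⟨n, a, b⟩ := (k3.and (hgt M)).exists
  exact k2 n (a.mono (fun _ h => h) b.le)

end Pool.Agent.Lib.MP_b6945b_al.Bi
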