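import Pool.Agent.Lib.MP_b6945b_al.Bi.ACount
import Pool.Agent.Lib.MP_b6945b_al.Bi.AUl3

set_option autoImplicit false

/-!
The abstract rank bound.
-/

namespace Pool.Agent.Lib.MP_b6945b_al.Bi

open Finset Filter Topology Pointwise

/-- The trace of an idempotent matrix is its rank (`LinearMap.IsProj.trace`, or
`IsIdempotentElem` API for `Matrix.toLin'`). -/
lemma trace_eq_rank {X : Type} [Fintype X] [DecidableEq X] (Q : Matrix X X ℂ) (h : Q * Q = Q) :
    Q.trace = Q.rank := by
  have h1 : IsIdempotentElem (Matrix.toLin' Q) := by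
    change Matrix.toLin' Q * Matrix.toLin' Q = _
    rw [Module.End.mul_eq_comp, ← Matrix.toLin'_mul, h]
  rw [← Matrix.trace_toLin'_eq, (LinearMap.IsIdempotentElem.isProj_range _ h1).trace]
  rfl

lemma afinal_diag {X : Type} [Fintype X] [DecidableEq X] (Q : Matrix X X ℂ) (h1 : Q.conjTranspose = Q)
    (h : Q * Q = Q) (x : X) : ((Q x x).re : ℂ) = Q x x ∧ 0 ≤ (Q x x).re ∧ (Q x x).re ≤ 1 := by
  have h2 : Q x x = ((∑ y, ‖Q x y‖ ^ 2 : ℝ) : ℂ) := by
    conv_lhs => rw [← h, Matrix.mul_apply]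
    rw [Complex.ofReal_sum]
    refine sum_congr rfl fun y _ => ?_
    have : Q y x = (starRingEnd ℂ) (Q x y) := by
      conv_lhs => rw [← h1]
      rfl
    rw [this, Complex.mul_conj', Complex.ofReal_pow]
  have h3 : ‖Q x x‖ ^ 2 ≤ ∑ y, ‖Q x y‖ ^ 2 :=
    single_le_sum (f := fun y => ‖Q x y‖ ^ 2) (fun _ _ => sq_nonneg _) (mem_univ x)
  have h4 : 0 ≤ ∑ y, ‖Q x y‖ ^ 2 := sum_nonneg fun _ _ => sq_nonneg _
  generalize ∑ y, ‖Q x y‖ ^ 2 = s at *
  rw [h2, Complex.norm_real, Real.norm_eq_abs, sq_abs] at h3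
  rw [h2, Complex.ofReal_re]
  exact ⟨rfl, h4, by nlinarith⟩

lemma afinal_stb_le {E D : Type} [Group E] [Fintype E] [Group D] (φ : E →* MulAut D) (d : D) :
    stb φ d ≤ Fintype.card E := by
  rw [← Nat.card_eq_fintype_card]
  exact Nat.card_le_card_of_injective _ Subtype.val_injective

lemma afinal_stb_one {E D : Type} [Group E] [Fintype E] [Group D] (φ : E →* MulAut D) :
    stb φ 1 = Fintype.card E := by
  rw [← Nat.card_eq_fintype_card]
  exact Nat.card_congr (Equiv.subtypeUnivEquiv fun g => map_one (φ g))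

lemma afinal_sum {X : Type} [Fintype X] [DecidableEq X] (Q : Matrix X X ℂ) (h : Q * Q = Q) :
    ∑ x, (Q x x).re = Q.rank := by
  have := congrArg Complex.re (trace_eq_rank Q h)
  rwa [Matrix.trace, Complex.re_sum, Complex.natCast_re] at this

lemma afinal_comm (E : Type) [Group E] [Fintype E] (r : ℕ) :
    ∃ C : ℕ, ∀ p : ℕ, p.Prime → C < p → ∀ (D X : Type) [CommGroup D] [Fintype D] [Fintype X]
      [DecidableEq X] (φ : E →* MulAut D) (P : D → Matrix X X ℂ), MSys p r φ P →
      (P 1).rank ≤ C := by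
  obtain ⟨M, p₀, hM⟩ := uniform_struct E r
  refine ⟨p₀ + (2 * M ^ 2 + 4 * M ^ 3) + (2 * M + 4 * M ^ 3 * r), ?_⟩
  intro p hp hC D X _ _ _ _ φ P h
  obtain ⟨F, hF, hk⟩ := h.exists_ker
  let := dualAct φ
  have hx := h.fax hp hF hk
  have hd := fun d χ => afinal_diag (P d) (h.herm d) (h.idem d) χ
  have he : (0 : ℝ) < Fintype.card E := by exact_mod_cast Fintype.card_pos
  have key := count (A := Additive D) hp hx.tors (M := M) (by omega)
    (fun d χ => stb φ d.toMul * (P d.toMul χ χ).re)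
    (fun d χ => mul_nonneg (Nat.cast_nonneg _) (hd _ χ).2.1) F
    (fun l χ => by
      rw [hF]
      refine Fintype.sum_equiv Additive.ofMul _ _ fun d => ?_
      rw [toMul_ofMul, Complex.ofReal_mul, (hd d χ).1, Complex.ofReal_natCast]
      ring)
    (Fintype.card E) (Fintype.card E * r) (by positivity) he.le
    (fun χ => by
      rw [toMul_zero, afinal_stb_one]
      exact mul_le_of_le_one_right he.le (hd 1 χ).2.2)
    (fun d hd0 => by
      rw [← mul_sum, afinal_sum _ (h.idem _)]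
      exact_mod_cast Nat.mul_le_mul (afinal_stb_le φ _) (h.rank _ hd0))
    (hM p _ X F hx (by omega))
  rw [← mul_sum, toMul_zero, afinal_sum _ (h.idem _), afinal_stb_one] at key
  have h2 : ((P 1).rank : ℝ) ≤ 2 * M + 4 * M ^ 3 * r := by
    refine le_of_mul_le_mul_left (key.trans (le_of_eq ?_)) he
    ring
  have h3 : (P 1).rank ≤ 2 * M + 4 * M ^ 3 * r := by exact_mod_cast h2
  omega

/-- One group `E`: `uniform_struct`, `exists_ker`, `MSys.fax`, `count` with
`w d χ = stb φ d * (P d χ χ).re` (`P d χ χ = ∑ x, |P d χ x|²` is real and lies in `[0,1]`),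
`e = |E|`, `R = e r`, `stb φ 1 = e`, `stb ≤ e`.  Make `D` a `CommGroup` by
`{ ‹Group D› with mul_comm := h.comm }` (prove a version for `[CommGroup D]` first). -/
theorem rank_bound_one (E : Type) [Group E] [Fintype E] (r : ℕ) :
    ∃ C : ℕ, ∀ p : ℕ, p.Prime → C < p → ∀ (D X : Type) [Group D] [Fintype D] [Fintype X]
      [DecidableEq X] (φ : E →* MulAut D) (P : D → Matrix X X ℂ), MSys p r φ P →
      (P 1).rank ≤ C := by
  obtain ⟨C, hC⟩ := afinal_comm E r
  refine ⟨C, fun p hp hlt D X iD _ _ _ φ P h => ?_⟩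
  let : CommGroup D := { iD with mul_comm := h.comm }
  exact hC p hp hlt D X φ P h

lemma MSys.comp {p r : ℕ} {E E' D X : Type} [Group E] [Fintype E] [Group E'] [Fintype E']
    [Group D] [Fintype D] [Fintype X] [DecidableEq X] {φ : E →* MulAut D}
    {P : D → Matrix X X ℂ} (h : MSys p r φ P) (e : E' ≃* E) :
    MSys p r (φ.comp e.toMonoidHom) P := by
  have hs : ∀ d, stb (φ.comp e.toMonoidHom) d = stb φ d := fun d =>
    Nat.card_congr (e.toEquiv.subtypeEquiv fun _ => Iff.rfl)
  have hc : Fintype.card E' = Fintype.card E := Fintype.card_congr e.toEquiv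
  refine ⟨h.comm, h.pD, h.nontriv, h.herm, h.idem, fun d d' hd => h.orth d d' fun g => ?_,
    fun g d => h.inv _ d, ?_, fun m lam hl χ ψ => ?_, h.diag, h.rank⟩
  · obtain ⟨g, rfl⟩ := e.surjective g
    exact hd g
  · simp only [hs, hc, h.sum]
  · simp only [hs, hc]
    refine h.int m lam (fun g d => ?_) χ ψ
    obtain ⟨g, rfl⟩ := e.surjective g
    exact hl g d

/-- Cayley: `E` is isomorphic to a subgroup of `Equiv.Perm (Fin e)`, `e = |E| ≤ m`
(`MulAction.toPermHom`, `Equiv.permCongrHom`, `MonoidHom.ofInjective`); take the supremum of the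
constants of `rank_bound_one` over `e ≤ m` and the finitely many subgroups. -/
theorem rank_bound (m r : ℕ) :
    ∃ C : ℕ, ∀ p : ℕ, p.Prime → C < p → ∀ (E D X : Type) [Group E] [Fintype E] [Group D]
      [Fintype D] [Fintype X] [DecidableEq X] (φ : E →* MulAut D) (P : D → Matrix X X ℂ),
      Fintype.card E ≤ m → MSys p r φ P → (P 1).rank ≤ C := by
  classical
  choose C hC using fun (e : ℕ) (H : Subgroup (Equiv.Perm (Fin e))) =>
    @rank_bound_one H _ (Fintype.ofFinite H) r
  refine ⟨(range (m + 1)).sup fun e => univ.sup (C e), ?_⟩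
  intro p hp hlt E D X _ _ _ _ _ _ φ P hm h
  let f : E →* Equiv.Perm (Fin (Fintype.card E)) :=
    (Fintype.equivFin E).permCongrHom.toMonoidHom.comp (MulAction.toPermHom E E)
  have hf : Function.Injective f :=
    (Fintype.equivFin E).permCongrHom.injective.comp MulAction.toPerm_injective
  have hle : C _ f.range ≤ (range (m + 1)).sup fun e => univ.sup (C e) :=
    (le_sup (f := C _) (mem_univ _)).trans
      (le_sup (f := fun e => univ.sup (C e)) (mem_range.2 (Nat.lt_succ_of_le hm)))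
  let := Fintype.ofFinite f.range
  exact (hC _ f.range p hp (hle.trans_lt hlt) D X _ P
    (h.comp (MonoidHom.ofInjective hf).symm)).trans hle

end Pool.Agent.Lib.MP_b6945b_al.Bi
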