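import Pool.Agent.Lib.MP_b6945b_al.Bi.ABasic

set_option autoImplicit false

/-!
The kernel of a system of projections.
-/

namespace Pool.Agent.Lib.MP_b6945b_al.Bi

open Finset Filter Topology Pointwise

open scoped Matrix

/-- The action of `E` on the characters of `D`. -/
@[reducible] def dualAct {E D : Type} [Group E] [CommGroup D] (φ : E →* MulAut D) :
    DistribMulAction E (AddChar (Additive D) ℂ) where
  smul g l := l.compAddMonoidHom (MonoidHom.toAdditive (φ g⁻¹).toMonoidHom)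
  one_smul l := by
    refine AddChar.ext _ _ fun d => ?_
    change l (Additive.ofMul (φ 1⁻¹ d.toMul)) = l d
    rw [inv_one, map_one, MulAut.one_apply, ofMul_toMul]
  mul_smul g h l := by
    refine AddChar.ext _ _ fun d => ?_
    change l (Additive.ofMul (φ (g * h)⁻¹ d.toMul)) = l (Additive.ofMul (φ h⁻¹ (φ g⁻¹ d.toMul)))
    rw [mul_inv_rev, map_mul, MulAut.mul_apply]
  smul_zero g := by
    exact AddChar.ext _ _ fun d => rfl
  smul_add g l m := by
    exact AddChar.ext _ _ fun d => rfl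

lemma dualAct_apply {E D : Type} [Group E] [CommGroup D] (φ : E →* MulAut D) (g : E)
    (l : AddChar (Additive D) ℂ) (d : D) :
    (letI := dualAct φ; g • l) (Additive.ofMul d) = l (Additive.ofMul (φ g⁻¹ d)) := rfl

lemma stb_apply {E D : Type} [Group E] [Group D] (φ : E →* MulAut D) (g : E) (d : D) :
    stb φ (φ g d) = stb φ d := by
  refine Nat.card_congr (Equiv.subtypeEquiv (MulAut.conj g⁻¹).toEquiv fun x => ?_)
  change _ ↔ φ (g⁻¹ * x * g⁻¹⁻¹) d = d
  rw [inv_inv, map_mul, map_mul, MulAut.mul_apply, MulAut.mul_apply, map_inv, MulAut.inv_apply,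
    MulEquiv.symm_apply_eq]

lemma stb_pos {E D : Type} [Group E] [Finite E] [Group D] (φ : E →* MulAut D) (d : D) :
    0 < stb φ d := by
  have : Nonempty {g : E // φ g d = d} := ⟨⟨1, by rw [map_one, MulAut.one_apply]⟩⟩
  exact Nat.card_pos

variable {p r : ℕ} {E D X : Type} [Group E] [Fintype E] [CommGroup D] [Fintype D] [Fintype X]
  [DecidableEq X] {φ : E →* MulAut D} {P : D → Matrix X X ℂ}

lemma afour1_inv (h : MSys p r φ P) (g : E) (l : AddChar (Additive D) ℂ) (χ ψ : X) :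
    ∑ d, (stb φ d : ℂ) * l (Additive.ofMul (φ g⁻¹ d)) * P d χ ψ =
      ∑ d, (stb φ d : ℂ) * l (Additive.ofMul d) * P d χ ψ := by
  rw [← (φ g).toEquiv.sum_comp]
  refine Finset.sum_congr rfl fun d _ => ?_
  change (stb φ (φ g d) : ℂ) * l (Additive.ofMul (φ g⁻¹ (φ g d))) * P (φ g d) χ ψ = _
  rw [stb_apply, h.inv, ← MulAut.mul_apply, ← map_mul, inv_mul_cancel, map_one, MulAut.one_apply]

lemma afour1_conj (h : MSys p r φ P) (d : D) (χ ψ : X) :
    (starRingEnd ℂ) (P d χ ψ) = P d ψ χ := by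
  have := congrFun (congrFun (h.herm d) ψ) χ
  rwa [Matrix.conjTranspose_apply] at this

lemma afour1_sq (h : MSys p r φ P) (d : D) (χ ψ : X) :
    P d χ ψ = ∑ x, P d χ x * (starRingEnd ℂ) (P d ψ x) := by
  conv_lhs => rw [← h.idem d, Matrix.mul_apply]
  exact Finset.sum_congr rfl fun x _ => by rw [afour1_conj h]

lemma afour1_sub (l m : AddChar (Additive D) ℂ) (a : Additive D) :
    (l - m) a = l a * (starRingEnd ℂ) (m a) := by
  rw [sub_eq_add_neg, AddChar.add_apply, AddChar.neg_apply, AddChar.map_neg_eq_conj]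

lemma afour1_fiber (h : MSys p r φ P) (f : D → ℂ) (d : D) :
    ∑ d', ((stb φ d' : ℂ) * f d') • (P d * P d') = (∑ g, f (φ g d)) • P d := by
  classical
  rw [Finset.sum_smul, ← Finset.sum_fiberwise Finset.univ fun g => φ g d]
  refine Finset.sum_congr rfl fun d' _ => ?_
  by_cases e : ∃ g, φ g d = d'
  · obtain ⟨g0, rfl⟩ := e
    rw [Finset.sum_congr rfl fun g hg => by rw [(Finset.mem_filter.1 hg).2], Finset.sum_const,
      h.inv, h.idem, mul_smul, Nat.cast_smul_eq_nsmul]
    congr 1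
    rw [← Fintype.card_subtype, ← Nat.card_eq_fintype_card]
    refine Nat.card_congr (Equiv.subtypeEquiv (Equiv.mulRight g0) fun x => ?_)
    rw [Equiv.coe_mulRight, map_mul, MulAut.mul_apply]
  · rw [h.orth d d' fun g hg => e ⟨g, hg⟩, smul_zero]
    exact (Finset.sum_eq_zero fun g hg => absurd ⟨g, (Finset.mem_filter.1 hg).2⟩ e).symm

/-- Write `Φ l = ∑ d, (stb φ d * l d) • P d`; `Φ (g • l) = Φ l` by reindexing `d ↦ φ g d`.  For a
subgroup `H` fixing `l`, apply `int` to the family `q.out • l`, `q : E ⧸ H` (enumerated by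
`Fin m`, `m = [E:H]`; characters as monoid homs `D →* ℂ`; the sum is `E`-invariant because left
multiplication permutes `E ⧸ H` and `(g • q).out • l = g • q.out • l`): `[E:H] Φ l χ ψ = e z`, so
`Φ l χ ψ = |H| z`. -/
lemma MSys.exists_int (h : MSys p r φ P) (H : Subgroup E) (l : AddChar (Additive D) ℂ)
    (hl : ∀ g ∈ H, (letI := dualAct φ; g • l) = l) (χ ψ : X) :
    ∃ z : ℤ, ∑ d, (stb φ d : ℂ) * l (Additive.ofMul d) * P d χ ψ = Nat.card H * z := by
  classical
  have hl' : ∀ (x : E) (y : H) (d : D),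
      l (Additive.ofMul (φ (x * y)⁻¹ d)) = l (Additive.ofMul (φ x⁻¹ d)) := fun x y d => by
    rw [mul_inv_rev, map_mul, MulAut.mul_apply, ← dualAct_apply, hl y y.2]
  have : Fintype (E ⧸ H) := Fintype.ofFinite _
  let e := (Fintype.equivFin (E ⧸ H)).symm
  let lam : E ⧸ H → D →* ℂ := fun q =>
    { toFun := fun d => l (Additive.ofMul (φ q.out⁻¹ d))
      map_one' := by rw [map_one, ofMul_one, AddChar.map_zero_eq_one]
      map_mul' := fun a b => by rw [map_mul, ofMul_mul, AddChar.map_add_eq_mul] }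
  have hlam : ∀ q d, lam q d = l (Additive.ofMul (φ q.out⁻¹ d)) := fun _ _ => rfl
  obtain ⟨z, hz⟩ := h.int _ (fun i => lam (e i)) (fun g d => by
    rw [e.sum_comp fun q => lam q (φ g d), e.sum_comp fun q => lam q d,
      ← Equiv.sum_comp (MulAction.toPerm g⁻¹) fun q => lam q d]
    refine Finset.sum_congr rfl fun q _ => ?_
    obtain ⟨y, hy⟩ := QuotientGroup.mk_out_eq_mul H (g⁻¹ • q.out)
    rw [MulAction.Quotient.mk_smul_out] at hy
    rw [hlam, hlam, MulAction.toPerm_apply, hy, hl', smul_eq_mul, mul_inv_rev, inv_inv, map_mul,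
      MulAut.mul_apply]) χ ψ
  refine ⟨z, ?_⟩
  have h1 : ∑ d, (stb φ d : ℂ) * (∑ i, lam (e i) d) * P d χ ψ =
      Fintype.card (E ⧸ H) * ∑ d, (stb φ d : ℂ) * l (Additive.ofMul d) * P d χ ψ := by
    simp only [Finset.mul_sum _ _ (stb φ _ : ℂ), Finset.sum_mul, hlam]
    rw [Finset.sum_comm, Finset.sum_congr rfl fun i _ => afour1_inv h (e i).out l χ ψ,
      Finset.sum_const, Finset.card_univ, Fintype.card_fin, nsmul_eq_mul]
  have h2 : (Fintype.card E : ℂ) = Fintype.card (E ⧸ H) * Nat.card H := by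
    rw [← Nat.card_eq_fintype_card, ← Nat.card_eq_fintype_card,
      Subgroup.card_eq_card_quotient_mul_card_subgroup H, Nat.cast_mul]
  rw [h1, h2, mul_assoc] at hz
  exact mul_left_cancel₀ (Nat.cast_ne_zero.2 Fintype.card_ne_zero) hz

/-- Define `F` by `exists_int` with `H = ⊥`.  `symm`: complex conjugation, `herm`,
`AddChar.map_neg_eq_conj`/`neg_apply`.  `psd`: the sum is `∑ d, stb φ d * ‖P d *ᵥ w d‖²`-like:
`∑ i j, a i a j l i d conj (l j d) P d (χ i) (χ j) = ∑ x, |∑ i, a i * l i d * P d (χ i) x|²` by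
`P = P * Pᴴ`.  `zero_*`: `sum`.  `compl`: `Φ l * (Φ l)ᴴ = ∑ d d', stb d * stb d' * l d * conj (l d') • P d * P d'`;
for fixed `d`, `∑ d', stb d' * f d' • (P d * P d') = (∑ g, f (φ g d)) • P d` (terms off the orbit
vanish by `orth`; fibres of `g ↦ φ g d` have `stb` elements: `Finset.sum_fiberwise`, or
`card_eq_of_equiv`), so the diagonal entry is `∑ g, Φ (l - g • l) χ χ` after `g ↦ g⁻¹`; take for
`s` an enumeration of `{ψ | F l χ ψ ≠ 0}`, whose cardinality is at most the sum, which is at most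
`e²` (the bound `|F| ≤ e` follows from `psd` as in `Ker.abs_le`; or directly from
`|Φ l χ χ| ≤ ∑ d, stb d * P d χ χ = e`). -/
theorem MSys.exists_ker (h : MSys p r φ P) :
    ∃ F : AddChar (Additive D) ℂ → X → X → ℤ,
      (∀ l χ ψ, (F l χ ψ : ℂ) = ∑ d, (stb φ d : ℂ) * l (Additive.ofMul d) * P d χ ψ) ∧
      (letI := dualAct φ; Ker E F) := by
  classical
  let _ := dualAct φ
  choose F hF using fun l χ ψ => h.exists_int ⊥ l
    (fun g hg => by rw [Subgroup.mem_bot.1 hg]; exact one_smul E l) χ ψ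
  replace hF : ∀ l χ ψ, (F l χ ψ : ℂ) = ∑ d, (stb φ d : ℂ) * l (Additive.ofMul d) * P d χ ψ :=
    fun l χ ψ => by rw [hF, Subgroup.card_bot, Nat.cast_one, one_mul]
  have hconj : ∀ l χ ψ, (F l χ ψ : ℂ) =
      ∑ d, (stb φ d : ℂ) * (starRingEnd ℂ) (l (Additive.ofMul d)) * P d ψ χ := fun l χ ψ => by
    rw [← map_intCast (starRingEnd ℂ), hF, map_sum]
    refine Finset.sum_congr rfl fun d _ => ?_
    rw [map_mul, map_mul, map_natCast, afour1_conj h]
  have hsymm : ∀ l χ ψ, F (-l) ψ χ = F l χ ψ := fun l χ ψ => by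
    refine Int.cast_injective (α := ℂ) ?_
    rw [hF, hconj]
    refine Finset.sum_congr rfl fun d _ => ?_
    rw [AddChar.neg_apply, AddChar.map_neg_eq_conj]
  have hpsd : ∀ (m : ℕ) (a : Fin m → ℝ) (l : Fin m → AddChar (Additive D) ℂ) (χ : Fin m → X),
      0 ≤ ∑ i, ∑ j, a i * a j * (F (l i - l j) (χ i) (χ j) : ℝ) := fun m a l χ => by
    have key : ((∑ i, ∑ j, a i * a j * (F (l i - l j) (χ i) (χ j) : ℝ) : ℝ) : ℂ) =
        ((∑ d, stb φ d * ∑ x, Complex.normSq
          (∑ i, a i * l i (Additive.ofMul d) * P d (χ i) x) : ℝ) : ℂ) := by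
      push_cast
      simp only [hF, Finset.mul_sum]
      rw [Finset.sum_congr rfl fun i _ => Finset.sum_comm, Finset.sum_comm]
      refine Finset.sum_congr rfl fun d _ => ?_
      simp only [← Complex.mul_conj, map_sum, Finset.sum_mul_sum]
      simp only [Finset.mul_sum]
      rw [Finset.sum_comm (s := Finset.univ (α := X))]
      refine Finset.sum_congr rfl fun i _ => ?_
      rw [Finset.sum_comm (s := Finset.univ (α := X))]
      refine Finset.sum_congr rfl fun j _ => ?_
      rw [afour1_sq h d (χ i) (χ j), afour1_sub, Finset.mul_sum, Finset.mul_sum]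
      refine Finset.sum_congr rfl fun x _ => ?_
      rw [map_mul, map_mul, Complex.conj_ofReal]
      ring
    rw [Complex.ofReal_injective key]
    exact Finset.sum_nonneg fun d _ => mul_nonneg (Nat.cast_nonneg _)
      (Finset.sum_nonneg fun x _ => Complex.normSq_nonneg _)
  have hzero : ∀ χ ψ, (F 0 χ ψ : ℂ) = Fintype.card E * (1 : Matrix X X ℂ) χ ψ := fun χ ψ => by
    have := congrFun (congrFun h.sum χ) ψ
    rw [Matrix.sum_apply, Matrix.smul_apply, smul_eq_mul] at this
    rw [hF, ← this]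
    refine Finset.sum_congr rfl fun d _ => ?_
    rw [AddChar.zero_apply, mul_one, Matrix.smul_apply, smul_eq_mul]
  have hz1 : ∀ χ, F 0 χ χ = Fintype.card E := fun χ => by
    refine Int.cast_injective (α := ℂ) ?_
    rw [hzero, Matrix.one_apply_eq, mul_one, Int.cast_natCast]
  have hle : ∀ l χ, F l χ χ ≤ Fintype.card E := fun l χ => by
    have h2 := hpsd 2 ![1, -1] ![l, 0] ![χ, χ]
    simp only [Fin.sum_univ_two, Matrix.cons_val_zero, Matrix.cons_val_one, sub_self, sub_zero,
      zero_sub, hz1, hsymm] at h2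
    have : (F l χ χ : ℝ) ≤ Fintype.card E := by push_cast at h2; linarith
    exact_mod_cast this
  have hsq : ∀ l χ, ∑ ψ, F l χ ψ ^ 2 = ∑ g : E, F (l - g • l) χ χ := fun l χ => by
    refine Int.cast_injective (α := ℂ) ?_
    push_cast
    have e1 : ∀ ψ, (F l χ ψ : ℂ) ^ 2 = ∑ d, ∑ d', (stb φ d : ℂ) * l (Additive.ofMul d) *
        ((stb φ d' : ℂ) * (starRingEnd ℂ) (l (Additive.ofMul d')) * (P d χ ψ * P d' ψ χ)) :=
      fun ψ => by
        rw [sq]
        nth_rewrite 1 [hF]
        rw [hconj, Finset.sum_mul_sum]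
        exact Finset.sum_congr rfl fun d _ => Finset.sum_congr rfl fun d' _ => by ring
    simp only [e1]
    simp only [hF]
    rw [Finset.sum_comm, Finset.sum_comm (s := Finset.univ (α := E))]
    refine Finset.sum_congr rfl fun d _ => ?_
    have e2 := congrFun (congrFun
      (afour1_fiber h (fun d' => (starRingEnd ℂ) (l (Additive.ofMul d'))) d) χ) χ
    rw [Matrix.sum_apply, Matrix.smul_apply, smul_eq_mul, ← Equiv.sum_comp (Equiv.inv E)] at e2
    rw [Finset.sum_comm]
    simp only [← Finset.mul_sum]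
    simp only [Matrix.smul_apply, smul_eq_mul, Matrix.mul_apply] at e2
    rw [e2, Finset.sum_mul, Finset.mul_sum]
    refine Finset.sum_congr rfl fun g _ => ?_
    rw [afour1_sub, dualAct_apply, Equiv.inv_apply]
    ring
  refine ⟨F, hF, hsymm, hpsd, hz1, fun χ ψ hne => ?_, fun g l χ ψ => ?_, fun l χ => ?_,
    fun H l hl χ ψ => ?_⟩
  · refine Int.cast_injective (α := ℂ) ?_
    rw [hzero, Matrix.one_apply_ne hne, mul_zero, Int.cast_zero]
  · refine Int.cast_injective (α := ℂ) ?_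
    rw [hF, hF]
    exact afour1_inv h g l χ ψ
  · let T : Finset X := Finset.univ.filter fun ψ => F l χ ψ ≠ 0
    have e1 : ∑ ψ ∈ T, F l χ ψ ^ 2 = ∑ g : E, F (l - g • l) χ χ := by
      rw [← hsq]
      refine Finset.sum_filter_of_ne fun ψ _ h1 h2 => h1 ?_
      rw [h2, sq, mul_zero]
    refine ⟨T.card, fun i => (T.equivFin.symm i : X), ?_,
      Subtype.val_injective.comp T.equivFin.symm.injective, ?_⟩
    · have e2 : (T.card : ℤ) ≤ ∑ ψ ∈ T, F l χ ψ ^ 2 := by
        rw [Finset.card_eq_sum_ones, Nat.cast_sum]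
        refine Finset.sum_le_sum fun ψ hψ => ?_
        have := sq_pos_of_ne_zero (Finset.mem_filter.1 hψ).2
        omega
      have e3 : ∑ g : E, F (l - g • l) χ χ ≤ (Fintype.card E : ℤ) ^ 2 := by
        refine (Finset.sum_le_card_nsmul _ _ _ fun g _ => hle _ χ).trans_eq ?_
        rw [Finset.card_univ, nsmul_eq_mul, sq]
      exact_mod_cast e2.trans (e1.trans_le e3)
    · rw [← e1, T.equivFin.symm.sum_comp fun ψ => F l χ ψ ^ 2]
      exact Finset.sum_coe_sort T fun ψ => F l χ ψ ^ 2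
  · obtain ⟨z, hz⟩ := h.exists_int H l hl χ ψ
    refine ⟨z, Int.cast_injective (α := ℂ) ?_⟩
    rw [hF, hz, Int.cast_mul, Int.cast_natCast]

end Pool.Agent.Lib.MP_b6945b_al.Bi
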