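import Pool.Agent.Lib.MP_b6945b_al.Bi.AFour1

set_option autoImplicit false

/-!
Fourier coefficients of coset indicators and the orthogonality property.
-/

namespace Pool.Agent.Lib.MP_b6945b_al.Bi

open Finset Filter Topology Pointwise

section
variable {A : Type} [AddCommGroup A] [Fintype A]

open Classical in
/-- Sum of the characters in a coset at a point. -/
lemma sum_coset (L : AddSubgroup (AddChar A ℂ)) (c : AddChar A ℂ) (d : A) :
    ∑ l : AddChar A ℂ, (if l - c ∈ L then l d else 0) =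
      if ∀ l ∈ L, l d = 1 then (Nat.card L : ℂ) * c d else 0 := by
  have shift : ∀ c' : AddChar A ℂ, ∑ l : AddChar A ℂ, (if l - c' ∈ L then l d else 0) =
      (∑ l : AddChar A ℂ, if l ∈ L then l d else 0) * c' d := fun c' => by
    rw [Finset.sum_mul, ← Equiv.sum_comp (Equiv.addRight c')]
    refine Finset.sum_congr rfl fun l _ => ?_
    rw [Equiv.coe_addRight, add_sub_cancel_right, AddChar.add_apply, ite_mul, zero_mul]
  rw [shift]
  split_ifs with h
  · congr 1
    rw [Finset.sum_congr rfl (g := fun l => if l ∈ L then (1 : ℂ) else 0) fun l _ => by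
      split_ifs with hl
      · exact h l hl
      · rfl, Finset.sum_boole, Nat.card_eq_fintype_card, Fintype.card_subtype]
  · push Not at h
    obtain ⟨l, hl, h1⟩ := h
    have h2 := shift l
    rw [Finset.sum_congr rfl (g := fun m : AddChar A ℂ => if m ∈ L then m d else 0) fun m _ =>
      if_congr ⟨fun h3 => by simpa using L.add_mem h3 hl, fun h3 => L.sub_mem h3 hl⟩ rfl rfl] at h2
    rw [(mul_eq_zero.1 (show (∑ m : AddChar A ℂ, if m ∈ L then m d else 0) * (l d - 1) = 0 by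
      rw [mul_sub, ← h2, mul_one, sub_self])).resolve_right (sub_ne_zero.2 h1), zero_mul]

open Classical in
/-- `|L^⊥| |L| = |A|`: sum `sum_coset` (with `c = 0`) over `d`, use `AddChar.sum_eq_ite`. -/
lemma card_perp (L : AddSubgroup (AddChar A ℂ)) :
    (univ.filter (fun d : A => ∀ l ∈ L, l d = 1)).card * Nat.card L = Fintype.card A := by
  have h1 : ∑ d : A, ∑ l : AddChar A ℂ, (if l - 0 ∈ L then l d else 0) = Fintype.card A := by
    rw [Finset.sum_comm, Finset.sum_eq_single 0]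
    · simp
    · intro l _ hl
      split_ifs
      · exact AddChar.sum_eq_zero_iff_ne_zero.2 hl
      · exact Finset.sum_const_zero
    · exact fun h => absurd (Finset.mem_univ _) h
  simp only [sum_coset, AddChar.zero_apply, mul_one] at h1
  rw [← Finset.sum_filter, Finset.sum_const, nsmul_eq_mul] at h1
  exact_mod_cast h1

lemma afour2_le {K : Type} [AddCommGroup K] [Finite K] {p k : ℕ} (hp : p.Prime) {x : K}
    (hx : x ≠ 0) (h : p ^ k • x = 0) : p ≤ Nat.card K := by
  obtain ⟨j, -, hj⟩ := (Nat.dvd_prime_pow hp).1 (addOrderOf_dvd_of_nsmul_eq_zero h)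
  have h1 : j ≠ 0 := fun e => hx (AddMonoid.addOrderOf_eq_one_iff.1 (by rw [hj, e, pow_zero]))
  exact Nat.le_of_dvd Nat.card_pos ((dvd_pow_self p h1).trans (hj ▸ addOrderOf_dvd_natCard x))

/-- A nontrivial subgroup of a `p`-torsion finite group has at least `p` elements. -/
lemma le_card_of_ne_bot {K : Type} [AddCommGroup K] [Finite K] {p : ℕ} (hp : p.Prime)
    (ht : ∀ x : K, ∃ k : ℕ, p ^ k • x = 0) {L : AddSubgroup K} (hL : L ≠ ⊥) :
    p ≤ Nat.card L := by
  obtain ⟨x, hx⟩ := AddSubgroup.ne_bot_iff_exists_ne_zero.1 hL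
  obtain ⟨k, hk⟩ := ht x
  exact afour2_le hp hx (k := k) (Subtype.ext hk)

/-- A proper subgroup of a `p`-torsion finite group has index at least `p`. -/
lemma card_mul_le_of_lt {K : Type} [AddCommGroup K] [Finite K] {p : ℕ} (hp : p.Prime)
    (ht : ∀ x : K, ∃ k : ℕ, p ^ k • x = 0) {L L' : AddSubgroup K} (h : L < L') :
    p * Nat.card L ≤ Nat.card L' := by
  obtain ⟨x, hx, hx'⟩ := SetLike.exists_of_lt h
  obtain ⟨k, hk⟩ := ht x
  have h1 : p ≤ Nat.card (L' ⧸ L.addSubgroupOf L') :=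
    afour2_le hp (x := ((⟨x, hx⟩ : L') : L' ⧸ L.addSubgroupOf L')) (k := k)
      (fun h2 => hx' ((QuotientAddGroup.eq_zero_iff (⟨x, hx⟩ : L')).1 h2)) (by
        rw [← QuotientAddGroup.mk_nsmul, show p ^ k • (⟨x, hx⟩ : L') = 0 from Subtype.ext hk,
          QuotientAddGroup.mk_zero])
  rw [AddSubgroup.card_eq_card_quotient_mul_card_addSubgroup (L.addSubgroupOf L'),
    Nat.card_congr (AddSubgroup.addSubgroupOfEquivOfLe h.le).toEquiv]
  exact Nat.mul_le_mul_right _ h1

/-- Fewer than `p - 1` nontrivial subgroups: some `d ≠ 0` is outside all annihilators (each has at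
most `|A| / p` elements, and `p ≤ |A|`). -/
lemma exists_generic [Nontrivial A] {p : ℕ} (hp : p.Prime)
    (ht : ∀ x : AddChar A ℂ, ∃ k : ℕ, p ^ k • x = 0) (𝓛 : Finset (AddSubgroup (AddChar A ℂ)))
    (h : ∀ L ∈ 𝓛, L ≠ ⊥) (hc : 𝓛.card + 1 < p) :
    ∃ d : A, d ≠ 0 ∧ ∀ L ∈ 𝓛, ∃ l ∈ L, l d ≠ 1 := by
  classical
  by_contra hcon
  push Not at hcon
  have h1 : p ≤ Fintype.card A := by
    obtain ⟨a, ha⟩ := exists_ne (0 : A)
    obtain ⟨l, hl⟩ := AddChar.exists_apply_ne_zero.2 ha
    obtain ⟨k, hk⟩ := ht l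
    have h2 := afour2_le hp (x := l) (fun h2 => hl (by rw [h2, AddChar.zero_apply])) hk
    rwa [Nat.card_eq_fintype_card, AddChar.card_eq] at h2
  have h2 : (univ : Finset A) ⊆
      insert 0 (𝓛.biUnion fun L => univ.filter fun d : A => ∀ l ∈ L, l d = 1) := fun d _ => by
    by_cases hd : d = 0
    · exact Finset.mem_insert.2 (Or.inl hd)
    · obtain ⟨L, hL, h3⟩ := hcon d hd
      exact Finset.mem_insert_of_mem (Finset.mem_biUnion.2
        ⟨L, hL, Finset.mem_filter.2 ⟨Finset.mem_univ _, h3⟩⟩)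
  have h3 := (Finset.card_le_card h2).trans ((Finset.card_insert_le _ _).trans
    (Nat.add_le_add_right Finset.card_biUnion_le 1))
  have h4 : (∑ L ∈ 𝓛, (univ.filter fun d : A => ∀ l ∈ L, l d = 1).card) * p ≤
      𝓛.card * Fintype.card A := by
    rw [Finset.sum_mul, ← smul_eq_mul, ← Finset.sum_const]
    refine Finset.sum_le_sum fun L hL => ?_
    rw [← card_perp L]
    exact Nat.mul_le_mul_left _ (le_card_of_ne_bot hp ht (h L hL))
  rw [Finset.card_univ] at h3
  have h5 := Nat.mul_le_mul_right p h3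
  have h6 := Nat.mul_lt_mul_of_pos_right hc (Fintype.card_pos (α := A))
  nlinarith

/-- Fourier inversion: `∑ l, f l * l (-d) = |A| w d` (`AddChar.sum_apply_eq_ite`,
`AddChar.card_eq`). -/
lemma sum_mul_neg (w : A → ℂ) (d : A) :
    ∑ l : AddChar A ℂ, (∑ x, w x * l x) * l (-d) = Fintype.card A * w d := by
  classical
  simp only [Finset.sum_mul, mul_assoc, ← AddChar.map_add_eq_mul]
  rw [Finset.sum_comm]
  simp only [← Finset.mul_sum, AddChar.sum_apply_eq_ite, add_neg_eq_zero, mul_ite, mul_zero,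
    Finset.sum_ite_eq', Finset.mem_univ, if_true]
  exact mul_comm _ _

end

/-- A matrix with an invertible diagonal principal submatrix (`Matrix.rank_submatrix_le`, or linear
independence of the rows). -/
lemma card_le_rank {X : Type} [Fintype X] [DecidableEq X] (Q : Matrix X X ℂ) (S : Finset X)
    (h1 : ∀ χ ∈ S, Q χ χ ≠ 0) (h2 : ∀ χ ∈ S, ∀ ψ ∈ S, χ ≠ ψ → Q χ ψ = 0) : S.card ≤ Q.rank := by
  classical
  have h3 : Q.submatrix ((↑) : S → X) ((↑) : S → X) = Matrix.diagonal fun x : S => Q x x := by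
    ext x y
    by_cases hxy : x = y
    · rw [hxy, Matrix.diagonal_apply_eq, Matrix.submatrix_apply]
    · rw [Matrix.diagonal_apply_ne _ hxy]
      exact h2 x x.2 y y.2 fun e => hxy (Subtype.ext e)
  have h4 := Matrix.rank_submatrix_le Q ((↑) : S → X) ((↑) : S → X)
  rwa [h3, Matrix.rank_diagonal, Fintype.card_subtype,
    Finset.filter_true_of_mem fun (x : S) _ => h1 x x.2, Finset.card_univ, Fintype.card_coe] at h4

/-- `tors`: `D` has exponent `p^k`.  `orth`: collect the at most `S.card ^ 2 * M` subgroups used,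
take `d` from `exists_generic`; by `sum_mul_neg` and `sum_coset` (applied at `-d`) the Fourier
coefficient `stb φ d * P d χ ψ` vanishes for `χ ≠ ψ` in `S`; `card_le_rank`. -/
theorem MSys.fax {p r : ℕ} (hp : p.Prime) {E D X : Type} [Group E] [Fintype E] [CommGroup D]
    [Fintype D] [Fintype X] [DecidableEq X] {φ : E →* MulAut D} {P : D → Matrix X X ℂ}
    (h : MSys p r φ P) {F : AddChar (Additive D) ℂ → X → X → ℤ}
    (hF : ∀ l χ ψ, (F l χ ψ : ℂ) = ∑ d, (stb φ d : ℂ) * l (Additive.ofMul d) * P d χ ψ)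
    (hk : letI := dualAct φ; Ker E F) : letI := dualAct φ; FAx E p r F := by
  classical
  let _ := dualAct φ
  have ht : ∀ x : AddChar (Additive D) ℂ, ∃ k : ℕ, p ^ k • x = 0 := fun x => by
    have := Fact.mk hp
    obtain ⟨k, hk'⟩ := IsPGroup.iff_card.1 h.pD
    refine ⟨k, ?_⟩
    rw [← hk', Nat.card_eq_fintype_card, ← Fintype.card_additive, ← AddChar.card_eq]
    exact card_nsmul_eq_zero
  refine ⟨hp, ht, hk, fun S M hM hS => ?_⟩
  have h1 : ∀ x : X × X, ∃ T : Finset (AddSubgroup (AddChar (Additive D) ℂ)), T.card ≤ M ∧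
      (∀ L ∈ T, L ≠ ⊥) ∧ (x.1 ∈ S → x.2 ∈ S → x.1 ≠ x.2 → ∀ d, (∀ L ∈ T, ∃ l ∈ L, l d ≠ 1) →
        ∑ l : AddChar (Additive D) ℂ, (F l x.1 x.2 : ℂ) * l d = 0) := fun x => by
    by_cases hx : x.1 ∈ S ∧ x.2 ∈ S ∧ x.1 ≠ x.2
    · obtain ⟨m, a, c, L, h2, -, h3, h4⟩ := hS _ hx.1 _ hx.2.1 hx.2.2
      refine ⟨univ.image L, Finset.card_image_le.trans (by simpa using h2), fun L' hL' => ?_,
        fun _ _ _ d hd => ?_⟩
      · obtain ⟨i, -, rfl⟩ := Finset.mem_image.1 hL'
        exact h3 i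
      · simp only [h4, Int.cast_sum, Finset.sum_mul]
        rw [Finset.sum_comm]
        refine Finset.sum_eq_zero fun i _ => ?_
        obtain ⟨l, hl, h5⟩ := hd _ (Finset.mem_image_of_mem L (Finset.mem_univ i))
        have h6 := sum_coset (L i) (c i) d
        rw [if_neg fun h7 => h5 (h7 l hl)] at h6
        rw [← mul_zero (a i : ℂ), ← h6, Finset.mul_sum]
        refine Finset.sum_congr rfl fun l' _ => ?_
        split_ifs <;> simp
    · exact ⟨∅, Nat.zero_le _, fun _ hL => absurd hL (Finset.notMem_empty _),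
        fun a b c => absurd ⟨a, b, c⟩ hx⟩
  choose T h2 h3 h4 using h1
  have := h.nontriv
  obtain ⟨d, hd, h5⟩ := exists_generic hp ht ((S ×ˢ S).biUnion T) (fun L hL => by
      obtain ⟨x, -, hx⟩ := Finset.mem_biUnion.1 hL
      exact h3 x L hx) (by
      have h5 := Finset.card_biUnion_le_card_mul (S ×ˢ S) T M fun x _ => h2 x
      rw [Finset.card_product, ← sq] at h5
      omega)
  refine (card_le_rank (P (-d).toMul) S (fun χ _ => h.diag _ χ) fun χ hχ ψ hψ hne => ?_).trans
    (h.rank _ fun e => hd (neg_eq_zero.1 e))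
  have h6 := h4 (χ, ψ) hχ hψ hne d fun L hL =>
    h5 L (Finset.mem_biUnion.2 ⟨(χ, ψ), Finset.mem_product.2 ⟨hχ, hψ⟩, hL⟩)
  have h7 := sum_mul_neg (fun x : Additive D => (stb φ x.toMul : ℂ) * P x.toMul χ ψ) (-d)
  have h8 : ∀ l : AddChar (Additive D) ℂ,
      ∑ x : Additive D, (stb φ x.toMul : ℂ) * P x.toMul χ ψ * l x = F l χ ψ := fun l => by
    rw [hF]
    exact Fintype.sum_equiv Additive.toMul _ _ fun x => mul_right_comm _ _ _
  simp only [neg_neg, h8] at h7
  rw [h6] at h7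
  exact (mul_eq_zero.1 ((mul_eq_zero.1 h7.symm).resolve_left
    (Nat.cast_ne_zero.2 Fintype.card_ne_zero))).resolve_left (Nat.cast_ne_zero.2 (stb_pos φ _).ne')

end Pool.Agent.Lib.MP_b6945b_al.Bi
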