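import Pool.Agent.Lib.MP_b6945b_al.Bi.ABasic

set_option autoImplicit false

/-!
The Hilbert space of a positive definite kernel.
-/

namespace Pool.Agent.Lib.MP_b6945b_al.Bi

open Finset Filter Topology Pointwise
open scoped RealInnerProductSpace

lemma agns_sum_fin {ι M : Type} [AddCommMonoid M] (s : Finset ι) (t : ι → M) :
    ∑ a ∈ s, t a = ∑ i : Fin s.card, t (s.equivFin.symm i) :=
  (Finset.sum_coe_sort s t).symm.trans (Equiv.sum_comp s.equivFin.symm (fun a => t a)).symm

/-- A positive semidefinite kernel is the Gram kernel of a total family in a Hilbert space. -/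
lemma agns_exists {ι : Type} (k : ι → ι → ℝ) (hs : ∀ a b, k a b = k b a)
    (hp : ∀ f : ι →₀ ℝ, 0 ≤ f.sum fun a x => f.sum fun b y => x * y * k a b) :
    ∃ (H : Type) (_ : NormedAddCommGroup H) (_ : InnerProductSpace ℝ H) (_ : CompleteSpace H)
      (e : ι → H), (∀ a b, ⟪e a, e b⟫ = k a b) ∧ DenseRange (Finsupp.linearCombination ℝ e) := by
  let c : PreInnerProductSpace.Core ℝ (ι →₀ ℝ) :=
    { inner := fun f g => f.sum fun a x => g.sum fun b y => x * y * k a b
      conj_inner_symm := fun f g => by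
        rw [Finsupp.sum_comm]
        simp only [conj_trivial]
        refine Finsupp.sum_congr fun a _ => Finsupp.sum_congr fun b _ => ?_
        rw [hs b a]
        ring
      re_inner_nonneg := fun f => hp f
      add_left := fun f g h => by
        rw [Finsupp.sum_add_index']
        · simp
        · simp [← Finsupp.sum_add, add_mul]
      smul_left := fun f g r => by
        rw [Finsupp.sum_smul_index]
        · simp [Finsupp.mul_sum, ← mul_assoc]
        · simp }
  let _ : SeminormedAddCommGroup (ι →₀ ℝ) :=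
    InnerProductSpace.Core.toSeminormedAddCommGroup (𝕜 := ℝ) (c := c)
  let _ : InnerProductSpace ℝ (ι →₀ ℝ) := InnerProductSpace.ofCore c
  have hin : ∀ f g : ι →₀ ℝ, ⟪f, g⟫ = f.sum fun a x => g.sum fun b y => x * y * k a b :=
    fun f g => rfl
  refine ⟨UniformSpace.Completion (ι →₀ ℝ), inferInstance, inferInstance, inferInstance,
    fun a => ((Finsupp.single a 1 : ι →₀ ℝ) : UniformSpace.Completion (ι →₀ ℝ)), ?_, ?_⟩
  · intro a b
    rw [UniformSpace.Completion.inner_coe, hin]
    simp
  · have he : (Finsupp.linearCombination ℝ fun a =>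
        ((Finsupp.single a 1 : ι →₀ ℝ) : UniformSpace.Completion (ι →₀ ℝ))) =
        (UniformSpace.Completion.toComplₗᵢ (𝕜 := ℝ) (E := ι →₀ ℝ)).toLinearMap := by
      refine Finsupp.lhom_ext' fun a => LinearMap.ext_ring ?_
      simp
    rw [he]
    exact UniformSpace.Completion.denseRange_coe

section
variable {ι H : Type} [NormedAddCommGroup H] [InnerProductSpace ℝ H] {e : ι → H}

lemma agns_ext (hd : DenseRange (Finsupp.linearCombination ℝ e)) {G : Type}
    [NormedAddCommGroup G] [NormedSpace ℝ G] (A B : H →L[ℝ] G) (h : ∀ a, A (e a) = B (e a))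
    (x : H) : A x = B x := by
  refine hd.induction_on x (isClosed_eq A.continuous B.continuous) fun f => ?_
  simp only [Finsupp.linearCombination_apply, Finsupp.sum, map_sum, map_smul, h]

lemma agns_ext_iso (hd : DenseRange (Finsupp.linearCombination ℝ e)) (A B : H →ₗᵢ[ℝ] H)
    (h : ∀ a, A (e a) = B (e a)) (x : H) : A x = B x :=
  agns_ext hd A.toContinuousLinearMap B.toContinuousLinearMap h x

lemma agns_iso [CompleteSpace H] (hd : DenseRange (Finsupp.linearCombination ℝ e)) (σ : ι → ι)
    (hσ : ∀ a b, ⟪e (σ a), e (σ b)⟫ = ⟪e a, e b⟫) :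
    ∃ T : H →ₗᵢ[ℝ] H, ∀ a, T (e a) = e (σ a) := by
  have hn : ∀ f : ι →₀ ℝ, ‖Finsupp.linearCombination ℝ (fun a => e (σ a)) f‖ =
      ‖Finsupp.linearCombination ℝ e f‖ := by
    intro f
    rw [norm_eq_sqrt_real_inner, norm_eq_sqrt_real_inner]
    congr 1
    simp only [Finsupp.linearCombination_apply, Finsupp.sum, sum_inner, inner_sum,
      real_inner_smul_left, real_inner_smul_right, hσ]
  let T := (Finsupp.linearCombination ℝ (fun a => e (σ a))).extendOfNorm
    (Finsupp.linearCombination ℝ e)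
  have hT : ∀ f, T (Finsupp.linearCombination ℝ e f) =
      Finsupp.linearCombination ℝ (fun a => e (σ a)) f :=
    LinearMap.extendOfNorm_eq hd ⟨1, fun f => by rw [hn, one_mul]⟩
  refine ⟨⟨T.toLinearMap, fun x => ?_⟩, fun a => ?_⟩
  · refine hd.induction_on x (isClosed_eq T.continuous.norm continuous_norm) fun f => ?_
    change ‖T _‖ = _
    rw [hT, hn]
  · have := hT (Finsupp.single a 1)
    simpa using this

end

/-- The average of a standard vector lies in the span of the distinguished vectors. -/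
lemma agns_avg {E K X H : Type} [Group E] [Fintype E] [AddCommGroup K] [DistribMulAction E K]
    {F : K → X → X → ℤ} (h : Ker E F) [NormedAddCommGroup H] [InnerProductSpace ℝ H]
    {e : K × X → H} (he : ∀ a b, ⟪e a, e b⟫ = (F (a.1 - b.1) a.2 b.2 : ℝ)) (l : K) (χ : X) :
    ∃ (m : ℕ) (s : Fin m → X), ∑ g : E, e (g • l, χ) = ∑ i, (F l χ (s i) : ℝ) • e (0, s i) := by
  obtain ⟨m, s, -, hs, hsum⟩ := h.compl l χ
  refine ⟨m, s, ?_⟩
  have hsum' : ∑ i, (F l χ (s i) : ℝ) ^ 2 = ∑ g : E, (F (l - g • l) χ χ : ℝ) := by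
    exact_mod_cast hsum
  set w := ∑ g : E, e (g • l, χ) with hw
  set y := ∑ i, (F l χ (s i) : ℝ) • e (0, s i) with hy
  have h1 : ⟪w, w⟫ = Fintype.card E * ∑ g : E, (F (l - g • l) χ χ : ℝ) := by
    rw [hw, sum_inner, ← nsmul_eq_mul, ← Finset.card_univ, ← Finset.sum_const]
    refine Finset.sum_congr rfl fun g _ => ?_
    rw [inner_sum, ← Equiv.sum_comp (Equiv.mulLeft g)]
    refine Finset.sum_congr rfl fun k _ => ?_
    rw [he, Equiv.coe_mulLeft, mul_smul, ← smul_sub, h.inv]
  have h2 : ⟪w, y⟫ = Fintype.card E * ∑ i, (F l χ (s i) : ℝ) ^ 2 := by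
    rw [hw, sum_inner, ← nsmul_eq_mul, ← Finset.card_univ, ← Finset.sum_const]
    refine Finset.sum_congr rfl fun g _ => ?_
    rw [hy, inner_sum]
    refine Finset.sum_congr rfl fun i _ => ?_
    rw [real_inner_smul_right, he, sub_zero, h.inv, sq]
  have h3 : ⟪y, y⟫ = Fintype.card E * ∑ i, (F l χ (s i) : ℝ) ^ 2 := by
    rw [hy, sum_inner, Finset.mul_sum]
    refine Finset.sum_congr rfl fun i _ => ?_
    rw [inner_sum, Finset.sum_eq_single i]
    · rw [real_inner_smul_left, real_inner_smul_right, he, sub_zero, h.zero_same]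
      push_cast
      ring
    · intro j _ hji
      rw [real_inner_smul_left, real_inner_smul_right, he, sub_zero,
        h.zero_ne _ _ (fun e' => hji (hs e').symm)]
      simp
    · exact fun e' => absurd (Finset.mem_univ i) e'
  rw [← sub_eq_zero, ← inner_self_eq_zero (𝕜 := ℝ), real_inner_sub_sub_self, h1, h2, h3, hsum']
  ring

/-- GNS construction.  Sketch: `V₀ := (K × X) →₀ ℝ` (use a type synonym / `def` so that no norm
instance clashes) with `B f g = ∑ a, ∑ b, f a * g b * F (a.1 - b.1) a.2 b.2` (symmetric by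
`symm`, nonnegative by `psd` after enumerating the support by `Fin m`); use
`PreInnerProductSpace.Core ℝ V₀`, `InnerProductSpace.Core.toSeminormedAddCommGroup`,
`InnerProductSpace.ofCore`, and `H := UniformSpace.Completion V₀`.  On `V₀`,
`U l = Finsupp.lmapDomain (a ↦ (l + a.1, a.2))`, `R g = lmapDomain (a ↦ (g • a.1, a.2))` preserve
`B` (by `inv`); extend to the completion (`ContinuousLinearMap.completion` or
`UniformSpace.Completion.map`, identities by `Completion.induction_on` and continuity).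
`v χ = single (0, χ) 1`.  `approx`: density of `V₀`.  `compl`: for `x = U l (v χ)` put
`w = ∑ g, R g x = ∑ g, U (g • l) (v χ)` and `y = ∑ i, F l χ (s i) • v (s i)` with `s` from
`Ker.compl`; expanding gives `⟪w,w⟫ = e ∑ g, F (l - g • l) χ χ` (reindex `h = g k`, use `inv`),
`⟪w,y⟫ = ⟪y,y⟫ = e ∑ i, F l χ (s i)^2`, so `w = y`.  Hence if `x ⊥ v ψ` for all `ψ` then
`⟪∑ g, R g x, U l (v χ)⟫ = ⟪x, ∑ g, R g⁻¹ (U l (v χ))⟫ = 0` for all `l χ`, and `approx` gives
`∑ g, R g x = 0`. -/
theorem Ker.exists_hsys {E K X : Type} [Group E] [Fintype E] [AddCommGroup K]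
    [DistribMulAction E K] {F : K → X → X → ℤ} (h : Ker E F) :
    ∃ (H : Type) (_ : NormedAddCommGroup H) (_ : InnerProductSpace ℝ H) (_ : CompleteSpace H),
      Nonempty (HSys E H F) := by
  obtain ⟨H, i1, i2, i3, e, he, hd⟩ := agns_exists
    (fun a b : K × X => (F (a.1 - b.1) a.2 b.2 : ℝ))
    (fun a b => by rw [← h.symm, neg_sub])
    (fun f => by
      have := h.psd f.support.card (fun i => f (f.support.equivFin.symm i))
        (fun i => (f.support.equivFin.symm i).1.1) (fun i => (f.support.equivFin.symm i).1.2)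
      simp only [Finsupp.sum]
      rw [agns_sum_fin]
      refine this.trans_eq (Finset.sum_congr rfl fun i _ => ?_)
      rw [agns_sum_fin f.support])
  have hU : ∀ l : K, ∃ T : H →ₗᵢ[ℝ] H, ∀ a : K × X, T (e a) = e (l + a.1, a.2) := fun l =>
    agns_iso hd (fun a => (l + a.1, a.2)) fun a b => by
      rw [he, he, add_sub_add_left_eq_sub]
  have hR : ∀ g : E, ∃ T : H →ₗᵢ[ℝ] H, ∀ a : K × X, T (e a) = e (g • a.1, a.2) := fun g =>
    agns_iso hd (fun a => (g • a.1, a.2)) fun a b => by
      rw [he, he, ← smul_sub, h.inv]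
  choose U hU using hU
  choose R hR using hR
  have hR1 : ∀ x, R 1 x = x :=
    agns_ext_iso hd (R 1) LinearIsometry.id fun a => by rw [hR, one_smul]; rfl
  have hRm : ∀ g k x, R (g * k) x = R g (R k x) := fun g k =>
    agns_ext_iso hd (R (g * k)) ((R g).comp (R k)) fun a => by
      change _ = R g (R k (e a))
      rw [hR, hR, hR, mul_smul]
  refine ⟨H, i1, i2, i3, ⟨
    { U := U
      R := R
      v := fun χ => e (0, χ)
      U_zero := agns_ext_iso hd (U 0) LinearIsometry.id fun a => by rw [hU, zero_add]; rfl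
      U_add := fun l m => agns_ext_iso hd (U (l + m)) ((U l).comp (U m)) fun a => by
        change _ = U l (U m (e a))
        rw [hU, hU, hU, add_assoc]
      R_one := hR1
      R_mul := hRm
      RU := fun g l => agns_ext_iso hd ((R g).comp (U l)) ((U (g • l)).comp (R g)) fun a => by
        change R g (U l (e a)) = U (g • l) (R g (e a))
        rw [hU, hR, hR, hU, smul_add]
      Rv := fun g χ => by rw [hR, smul_zero]
      inner_v := fun l χ ψ => by rw [hU, he, add_zero, sub_zero]
      approx := fun x ε hε => ?_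
      compl := fun x hx => ?_ }⟩⟩
  · obtain ⟨f, hf⟩ := hd.exists_dist_lt x hε
    refine ⟨f.support.card, fun i => f (f.support.equivFin.symm i),
      fun i => (f.support.equivFin.symm i).1.1, fun i => (f.support.equivFin.symm i).1.2, ?_⟩
    rw [dist_eq_norm, Finsupp.linearCombination_apply, Finsupp.sum, agns_sum_fin] at hf
    simpa only [hU, add_zero] using hf
  · have key : ∀ a : K × X, ⟪∑ g, R g x, e a⟫ = 0 := by
      rintro ⟨l, χ⟩
      obtain ⟨m, s, hs⟩ := agns_avg h he l χ
      have h1 : ∀ g : E, ⟪R g x, e (l, χ)⟫ = ⟪x, e (g⁻¹ • l, χ)⟫ := fun g => by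
        rw [← (R g⁻¹).inner_map_map, ← hRm, inv_mul_cancel, hR1, hR]
      rw [sum_inner]
      simp only [h1]
      have h2 : ∑ g : E, e (g⁻¹ • l, χ) = ∑ g : E, e (g • l, χ) :=
        Equiv.sum_comp (Equiv.inv E) (fun g => e (g • l, χ))
      rw [← inner_sum, h2, hs, inner_sum]
      refine Finset.sum_eq_zero fun i _ => ?_
      rw [real_inner_smul_right, hx, mul_zero]
    have := agns_ext hd (innerSL ℝ (∑ g, R g x)) 0 (fun a => key a) (∑ g, R g x)
    exact (inner_self_eq_zero (𝕜 := ℝ)).1 this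

end Pool.Agent.Lib.MP_b6945b_al.Bi
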