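import Pool.Agent.Lib.MP_b6945b_al.Bi.ABasic

set_option autoImplicit false

/-!
The lattice of a Hilbert space model and weak limits of orbits.
-/

namespace Pool.Agent.Lib.MP_b6945b_al.Bi

open Finset Filter Topology Pointwise
open scoped RealInnerProductSpace

namespace HSys

variable {E K X H : Type} [Group E] [Fintype E] [AddCommGroup K] [DistribMulAction E K]
  [NormedAddCommGroup H] [InnerProductSpace ℝ H] {F : K → X → X → ℤ} {S : HSys E H F}

/-- Riesz: `y ↦ lim_u ⟪U l x, y⟫` (the limit exists in the compact interval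
`[-‖x‖‖y‖, ‖x‖‖y‖]`, `IsCompact.ultrafilter_le_nhds`) is linear and bounded; use
`LinearMap.mkContinuous` and `(InnerProductSpace.toDual ℝ H).symm`. -/
theorem exists_wlim [CompleteSpace H] (S : HSys E H F) (u : Ultrafilter K) (x : H) :
    ∃ w, S.WLim u x w := by
  have hex : ∀ y : H, ∃ t : ℝ, Tendsto (fun l => ⟪S.U l x, y⟫) u (𝓝 t) := by
    intro y
    have hle : ((u.map (fun l => ⟪S.U l x, y⟫) : Ultrafilter ℝ) : Filter ℝ) ≤
        𝓟 (Set.Icc (-(‖x‖ * ‖y‖)) (‖x‖ * ‖y‖)) := by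
      rw [le_principal_iff, Ultrafilter.mem_coe, Ultrafilter.mem_map]
      refine Eventually.of_forall (f := (u : Filter K)) fun l => ?_
      have := abs_real_inner_le_norm (S.U l x) y
      rw [LinearIsometry.norm_map] at this
      exact _root_.abs_le.1 this
    obtain ⟨t, -, ht⟩ := isCompact_Icc.ultrafilter_le_nhds _ hle
    exact ⟨t, ht⟩
  choose f hf using hex
  have hadd : ∀ y z, f (y + z) = f y + f z := fun y z => by
    refine tendsto_nhds_unique (hf (y + z)) ?_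
    simpa only [inner_add_right] using (hf y).add (hf z)
  have hsmul : ∀ (c : ℝ) y, f (c • y) = c * f y := fun c y => by
    refine tendsto_nhds_unique (hf (c • y)) ?_
    simpa only [real_inner_smul_right] using (hf y).const_mul c
  have hb : ∀ y, ‖f y‖ ≤ ‖x‖ * ‖y‖ := fun y => by
    refine le_of_tendsto (hf y).norm (Eventually.of_forall fun l => ?_)
    have := abs_real_inner_le_norm (S.U l x) y
    rwa [LinearIsometry.norm_map] at this
  let φ : H →ₗ[ℝ] ℝ := { toFun := f, map_add' := hadd, map_smul' := hsmul }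
  refine ⟨(InnerProductSpace.toDual ℝ H).symm (φ.mkContinuous ‖x‖ hb), fun y => ?_⟩
  rw [InnerProductSpace.toDual_symm_apply]
  exact hf y

lemma wlim_pure (S : HSys E H F) (x : H) : S.WLim (pure 0) x x := by
  intro y
  have := tendsto_pure_nhds (fun l => ⟪S.U l x, y⟫) (0 : K)
  rw [S.U_zero] at this
  exact this

/-- `⟪w,w⟫ = lim ⟪U l x, w⟫ ≤ ‖x‖ ‖w‖`. -/
lemma WLim.norm_le {u : Ultrafilter K} {x w : H} (h : S.WLim u x w) : ‖w‖ ≤ ‖x‖ := by
  have h1 : ⟪w, w⟫ ≤ ‖x‖ * ‖w‖ := by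
    refine le_of_tendsto (h w) (Eventually.of_forall fun l => ?_)
    have := real_inner_le_norm (S.U l x) w
    rwa [LinearIsometry.norm_map] at this
  rw [real_inner_self_eq_norm_mul_norm] at h1
  rcases (norm_nonneg w).eq_or_lt with e | e
  · rw [← e]; exact norm_nonneg x
  · exact le_of_mul_le_mul_right h1 e

/-- A vector fixing `x` fixes every weak limit of its orbit (test against `U (-l) y`). -/
lemma WLim.stab_le {u : Ultrafilter K} {x w : H} (h : S.WLim u x w) : S.stab x ≤ S.stab w := by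
  intro l hl
  rw [mem_stab] at hl ⊢
  refine ext_inner_right ℝ fun y => ?_
  rw [S.inner_U]
  refine tendsto_nhds_unique (h (S.U (-l) y)) ?_
  refine (h y).congr fun m => ?_
  rw [← S.inner_U, S.U_comm, hl]

/-- Iterated limits: take `u'' = u'.bind (fun m => u.map (m + ·))` (or `Ultrafilter.add`); a set
`A` is in `u''` iff for `u'`-most `m`, for `u`-most `l`, `m + l ∈ A`.  For an open nbhd (or an
`ε`-ball) of `⟪w', y⟫`: for `u'`-most `m`, `⟪U m w, y⟫ = ⟪w, U (-m) y⟫` lies in it, and then for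
`u`-most `l`, `⟪U l x, U (-m) y⟫ = ⟪U (m + l) x, y⟫` lies in it. -/
lemma WLim.trans {u u' : Ultrafilter K} {x w w' : H} (h : S.WLim u x w) (h' : S.WLim u' w w') :
    ∃ u'' : Ultrafilter K, S.WLim u'' x w' ∧
      ∀ L : AddSubgroup K, (L : Set K) ∈ u → (L : Set K) ∈ u' → (L : Set K) ∈ u'' := by
  have key : ∀ A : Set K, A ∈ u'.bind (fun m => u.map (fun l => m + l)) ↔
      ∀ᶠ m in u', ∀ᶠ l in u, m + l ∈ A := fun A => by
    change A ∈ Filter.bind (u' : Filter K) (fun m => (u.map (fun l => m + l) : Filter K)) ↔ _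
    rw [Filter.mem_bind']
    rfl
  refine ⟨u'.bind (fun m => u.map (fun l => m + l)), fun y => ?_, fun L hL hL' => ?_⟩
  · rw [tendsto_nhds]
    intro s hs hws
    rw [Ultrafilter.mem_coe, key]
    filter_upwards [(tendsto_nhds.1 (h' y)) s hs hws] with m hm
    have hm' : ⟪w, S.U (-m) y⟫ ∈ s := by
      rw [← S.inner_U]; exact hm
    filter_upwards [(tendsto_nhds.1 (h (S.U (-m) y))) s hs hm'] with l hl
    change ⟪S.U (m + l) x, y⟫ ∈ s
    rw [S.U_add, S.inner_U]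
    exact hl
  · rw [key]
    filter_upwards [Ultrafilter.mem_coe.2 hL'] with m hm
    filter_upwards [Ultrafilter.mem_coe.2 hL] with l hl
    exact L.add_mem hm hl

/-- First show by induction on `Lat y` that `⟪U l (v χ), y⟫ ∈ ℤ` for all `l χ` (a limit of
integers is an integer: `Int.isClosedEmbedding_coe_real.isClosed_range.mem_of_tendsto`), then
induct on `Lat x` for the statement `∀ y, Lat y → ⟪x, y⟫ ∈ ℤ`. -/
theorem Lat.inner_int {x y : H} (hx : S.Lat x) (hy : S.Lat y) : ∃ z : ℤ, ⟪x, y⟫ = (z : ℝ) := by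
  have lim : ∀ {u : Ultrafilter K} {f : K → ℝ} {t : ℝ}, Tendsto f u (𝓝 t) →
      (∀ l, ∃ z : ℤ, f l = (z : ℝ)) → ∃ z : ℤ, t = (z : ℝ) := by
    intro u f t ht hf
    obtain ⟨z, hz⟩ := Int.isClosedEmbedding_coe_real.isClosed_range.mem_of_tendsto ht
      (Eventually.of_forall fun l => by
        obtain ⟨z, hz⟩ := hf l
        exact ⟨z, hz.symm⟩)
    exact ⟨z, hz.symm⟩
  have A : ∀ y, S.Lat y → ∀ l χ, ∃ z : ℤ, ⟪S.U l (S.v χ), y⟫ = (z : ℝ) := by
    intro y hy
    induction hy with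
    | v ψ => exact fun l χ => ⟨_, S.inner_v l χ ψ⟩
    | zero => exact fun l χ => ⟨0, by rw [inner_zero_right, Int.cast_zero]⟩
    | add _ _ ih1 ih2 =>
      intro l χ
      obtain ⟨a, ha⟩ := ih1 l χ
      obtain ⟨b, hb⟩ := ih2 l χ
      exact ⟨a + b, by rw [inner_add_right, ha, hb, Int.cast_add]⟩
    | neg _ ih =>
      intro l χ
      obtain ⟨a, ha⟩ := ih l χ
      exact ⟨-a, by rw [inner_neg_right, ha, Int.cast_neg]⟩
    | U m _ ih =>
      intro l χ
      rw [S.inner_U_U]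
      exact ih _ χ
    | R g _ ih =>
      intro l χ
      rw [real_inner_comm, S.inner_R, real_inner_comm, S.RU, S.Rv]
      exact ih _ χ
    | lim u _ hw ih =>
      intro l χ
      rw [real_inner_comm]
      refine lim (hw _) fun m => ?_
      rw [real_inner_comm, S.inner_U_U]
      exact ih _ χ
  induction hx generalizing y with
  | v χ =>
    have := A y hy 0 χ
    rwa [S.U_zero] at this
  | zero => exact ⟨0, by rw [inner_zero_left, Int.cast_zero]⟩
  | add _ _ ih1 ih2 =>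
    obtain ⟨a, ha⟩ := ih1 hy
    obtain ⟨b, hb⟩ := ih2 hy
    exact ⟨a + b, by rw [inner_add_left, ha, hb, Int.cast_add]⟩
  | neg _ ih =>
    obtain ⟨a, ha⟩ := ih hy
    exact ⟨-a, by rw [inner_neg_left, ha, Int.cast_neg]⟩
  | U m _ ih =>
    rw [S.inner_U]
    exact ih (hy.U _)
  | R g _ ih =>
    rw [S.inner_R]
    exact ih (hy.R _)
  | lim u _ hw ih =>
    refine lim (hw _) fun m => ?_
    rw [S.inner_U]
    exact ih (hy.U _)

lemma Lat.one_le_abs {x y : H} (hx : S.Lat x) (hy : S.Lat y) (h : ⟪x, y⟫ ≠ 0) :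
    1 ≤ |⟪x, y⟫| := by
  obtain ⟨z, hz⟩ := hx.inner_int hy
  rw [hz] at h ⊢
  have h1 : z ≠ 0 := fun e => h (by rw [e, Int.cast_zero])
  exact_mod_cast Int.one_le_abs h1

lemma Lat.exists_nat {x : H} (hx : S.Lat x) : ∃ n : ℕ, ⟪x, x⟫ = (n : ℝ) := by
  obtain ⟨z, hz⟩ := hx.inner_int hx
  have h0 : (0 : ℝ) ≤ z := hz ▸ real_inner_self_nonneg
  have h1 : 0 ≤ z := by exact_mod_cast h0
  obtain ⟨n, rfl⟩ := Int.eq_ofNat_of_zero_le h1
  exact ⟨n, by rw [hz, Int.cast_natCast]⟩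

/-- A nonempty set of lattice vectors has an element of least norm (norms squared are natural
numbers). -/
lemma exists_min_norm (W : Set H) (hW : ∀ w ∈ W, S.Lat w) (hne : W.Nonempty) :
    ∃ w ∈ W, ∀ w' ∈ W, ‖w‖ ≤ ‖w'‖ := by
  classical
  have hex : ∃ n : ℕ, ∃ w ∈ W, ⟪w, w⟫ = (n : ℝ) := by
    obtain ⟨w, hw⟩ := hne
    obtain ⟨n, hn⟩ := (hW w hw).exists_nat
    exact ⟨n, w, hw, hn⟩
  obtain ⟨w, hw, hn⟩ := Nat.find_spec hex
  refine ⟨w, hw, fun w' hw' => ?_⟩
  obtain ⟨n, hn'⟩ := (hW w' hw').exists_nat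
  have h1 : Nat.find hex ≤ n := Nat.find_min' hex ⟨w', hw', hn'⟩
  have h2 : ⟪w, w⟫ ≤ ⟪w', w'⟫ := by
    rw [hn, hn']; exact_mod_cast h1
  rw [real_inner_self_eq_norm_sq, real_inner_self_eq_norm_sq] at h2
  exact (pow_le_pow_iff_left₀ (norm_nonneg _) (norm_nonneg _) two_ne_zero).1 h2

/-- Integers within distance `< 1` of each other are equal. -/
lemma WLim.eventually_inner {u : Ultrafilter K} {x w y : H} (h : S.WLim u x w) (hx : S.Lat x)
    (hy : S.Lat y) : ∀ᶠ l in u, ⟪S.U l x, y⟫ = ⟪w, y⟫ := by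
  obtain ⟨z, hz⟩ := (Lat.lim u hx h).inner_int hy
  filter_upwards [(Metric.tendsto_nhds.1 (h y)) 1 one_pos] with l hl
  obtain ⟨a, ha⟩ := (hx.U l).inner_int hy
  rw [ha, hz] at hl ⊢
  rw [Real.dist_eq, ← Int.cast_sub, ← Int.cast_abs] at hl
  have h1 : |a - z| < 1 := by exact_mod_cast hl
  have h2 : a = z := by
    have := Int.abs_lt_one_iff.1 h1
    omega
  rw [h2]

/-- Eventually `⟪U l x, w⟫ = ‖w‖² = ‖x‖²`, so `‖U l x - w‖ = 0`. -/
lemma WLim.eventually_eq {u : Ultrafilter K} {x w : H} (h : S.WLim u x w) (hx : S.Lat x)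
    (hn : ‖x‖ ≤ ‖w‖) : ∀ᶠ l in u, S.U l x = w := by
  filter_upwards [h.eventually_inner hx (Lat.lim u hx h)] with l hl
  have h1 : ‖x‖ = ‖w‖ := le_antisymm hn h.norm_le
  have h2 : ‖S.U l x - w‖ ^ 2 = 0 := by
    rw [norm_sub_sq_real, hl, LinearIsometry.norm_map, h1, real_inner_self_eq_norm_sq]
    ring
  exact sub_eq_zero.1 (norm_eq_zero.1 (pow_eq_zero_iff two_ne_zero |>.1 h2))

/-- Stabilisers of lattice vectors are internal.  Let `N = ⟪x,x⟫`.  As `⟪U l x, x⟫` is an integer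
`≤ N`, with equality iff `U l x = x`, and `y = ∑ a i • U (l i) (v (χ i))` from `approx` with
`ε` so small that `ε (2‖x‖ + ε) < 1/2` satisfies `|⟪U l x, x⟫ - ⟪U l y, y⟫| < 1/2`, we get
`l ∈ stab x ↔ N - 1/2 < ⟪U l y, y⟫ = ∑ i j, a i * a j * F (l + l i - l j) (χ i) (χ j)`. -/
theorem Lat.int_stab [Module ℚ K] {r : ℕ} {Int : AddSubgroup K → Prop} (hL : LAx E r F Int)
    {x : H} (hx : S.Lat x) : Int (S.stab x) := by
  obtain ⟨N, hN⟩ := hx.exists_nat
  have hx0 := norm_nonneg x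
  have hpos : (0 : ℝ) < 1 / (4 * ‖x‖ + 4) := by positivity
  obtain ⟨m, a, lv, χ, hy⟩ := S.approx x _ hpos
  set y : H := ∑ i, a i • S.U (lv i) (S.v (χ i)) with hydef
  have hexp : ∀ l, ⟪S.U l y, y⟫ =
      ∑ i, ∑ j, a i * a j * (F (l + lv i - lv j) (χ i) (χ j) : ℝ) := fun l => by
    rw [hydef, map_sum, sum_inner]
    refine Finset.sum_congr rfl fun i _ => ?_
    rw [inner_sum]
    refine Finset.sum_congr rfl fun j _ => ?_
    rw [map_smul, real_inner_smul_left, real_inner_smul_right, ← S.U_add, S.inner_U_U,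
      S.inner_v, mul_assoc]
  have hclose : ∀ l, |⟪S.U l x, x⟫ - ⟪S.U l y, y⟫| < 1 / 2 := fun l => by
    have e1 : ⟪S.U l x, x⟫ - ⟪S.U l y, y⟫ = ⟪S.U l (x - y), x⟫ + ⟪S.U l y, x - y⟫ := by
      rw [map_sub, inner_sub_left, inner_sub_right]
      ring
    have e2 := abs_real_inner_le_norm (S.U l (x - y)) x
    have e3 := abs_real_inner_le_norm (S.U l y) (x - y)
    rw [LinearIsometry.norm_map] at e2 e3
    have e4 : ‖y‖ ≤ ‖x‖ + ‖x - y‖ := by
      have := norm_sub_le x (x - y)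
      rwa [sub_sub_cancel] at this
    have e5 := norm_nonneg (x - y)
    have e6 : ‖x - y‖ * (4 * ‖x‖ + 4) < 1 := by
      rwa [lt_div_iff₀ (by positivity)] at hy
    have e7 : ‖y‖ * ‖x - y‖ ≤ (‖x‖ + ‖x - y‖) * ‖x - y‖ := mul_le_mul_of_nonneg_right e4 e5
    have e8 : ‖x - y‖ ≤ 1 / 4 := by nlinarith [mul_nonneg e5 hx0]
    have e9 : ‖x - y‖ * ‖x - y‖ ≤ 1 / 4 * ‖x - y‖ := mul_le_mul_of_nonneg_right e8 e5
    rw [e1]
    refine (abs_add_le _ _).trans_lt ?_
    nlinarith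
  refine hL.thr (S.stab x) m a lv χ ((N : ℝ) - 1 / 2) fun l => ?_
  rw [← hexp, mem_stab]
  have hc := abs_lt.1 (hclose l)
  constructor
  · intro e
    rw [e, hN] at hc
    linarith [hc.2]
  · intro e
    obtain ⟨z, hz⟩ := (hx.U l).inner_int hx
    have h1 : (N : ℝ) - 1 < z := by rw [hz] at hc; linarith [hc.1]
    have h2 : (N : ℤ) - 1 < z := by exact_mod_cast h1
    have h3 : (N : ℤ) ≤ z := by omega
    have h4 : (N : ℝ) ≤ z := by exact_mod_cast h3
    have h5 : ‖S.U l x - x‖ ^ 2 ≤ 0 := by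
      rw [norm_sub_sq_real, LinearIsometry.norm_map, ← real_inner_self_eq_norm_sq, hN, hz]
      linarith
    have h6 : ‖S.U l x - x‖ ^ 2 = 0 := le_antisymm h5 (sq_nonneg _)
    exact sub_eq_zero.1 (norm_eq_zero.1 (pow_eq_zero_iff two_ne_zero |>.1 h6))

end HSys

end Pool.Agent.Lib.MP_b6945b_al.Bi
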