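import Pool.Agent.Lib.MP_b6945b_al.Bi.ABasic

set_option autoImplicit false

/-!
Points of least norm in a finite invariant family of affine subspaces.
-/

namespace Pool.Agent.Lib.MP_b6945b_al.Bi

open Finset Filter Topology Pointwise
open scoped RealInnerProductSpace

lemma amin_def_form (Q : Type) [AddCommGroup Q] [Module ℚ Q] :
    ∃ D : Q →ₗ[ℚ] Q →ₗ[ℚ] ℚ, (∀ x y, D x y = D y x) ∧ (∀ x, 0 ≤ D x x) ∧
      ∀ x, D x x = 0 → x = 0 := by
  classical
  let b := Module.Basis.ofVectorSpace ℚ Q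
  have key : ∀ x, b.toDual x x = ∑ i ∈ (b.repr x).support, b.repr x i * b.repr x i := by
    intro x
    have e : b.toDual x x = b.toDual x (Finsupp.linearCombination ℚ b (b.repr x)) := by
      rw [b.linearCombination_repr]
    rw [e, Finsupp.linearCombination_apply, Finsupp.sum, map_sum]
    refine Finset.sum_congr rfl fun i _ => ?_
    rw [map_smul, b.toDual_apply_left, smul_eq_mul]
  have hsym : b.toDual = LinearMap.flip b.toDual := by
    refine b.ext fun i => b.ext fun j => ?_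
    rw [LinearMap.flip_apply, b.toDual_apply_left, b.toDual_apply_right]
  refine ⟨b.toDual, fun x y => ?_, fun x => ?_, fun x hx => ?_⟩
  · conv_lhs => rw [hsym]
    rfl
  · rw [key]
    exact Finset.sum_nonneg fun i _ => mul_self_nonneg _
  · rw [key, Finset.sum_eq_zero_iff_of_nonneg fun i _ => mul_self_nonneg _] at hx
    apply b.repr.injective
    rw [map_zero]
    ext i
    by_contra hne
    exact hne (mul_self_eq_zero.mp (hx i (Finsupp.mem_support_iff.mpr hne)))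

/-- A pure subgroup as a rational subspace. -/
def amin_sub {K : Type} [AddCommGroup K] [Module ℚ K] (L : AddSubgroup K) (h : Pure L) :
    Submodule ℚ K where
  toAddSubmonoid := L.toAddSubmonoid
  smul_mem' := fun q x hx => h q x hx

lemma amin_mem {K : Type} [AddCommGroup K] [Module ℚ K] {L : AddSubgroup K} {h : Pure L} {x : K} :
    x ∈ amin_sub L h ↔ x ∈ L := Iff.rfl

lemma amin_sup {K : Type} [AddCommGroup K] [Module ℚ K] {L L' : AddSubgroup K} (h : Pure L)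
    (h' : Pure L') : Pure (L ⊔ L') := by
  intro q x hx
  obtain ⟨y, hy, z, hz, rfl⟩ := AddSubgroup.mem_sup.mp hx
  rw [smul_add]
  exact AddSubgroup.add_mem_sup (h q y hy) (h' q z hz)

lemma amin_cs {K : Type} [AddCommGroup K] [Module ℚ K] (B : K →ₗ[ℚ] K →ₗ[ℚ] ℚ)
    (hs : ∀ x y, B x y = B y x) (h0 : ∀ x, 0 ≤ B x x) {w : K} (hw : B w w = 0) (x : K) :
    B x w = 0 := by
  by_contra hne
  have h := h0 (x + (-(B x x + 1) / (2 * B x w)) • w)
  simp only [map_add, map_smul, LinearMap.add_apply, LinearMap.smul_apply, smul_eq_mul, hw,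
    hs w x] at h
  have e : -(B x x + 1) / (2 * B x w) * B x w = -(B x x + 1) / 2 := by field_simp
  rw [e] at h
  linarith

/-- An invariant positive semidefinite rational form with radical exactly `K₀`: take a basis `b`
of `K ⧸ K₀` (as `ℚ`-module, `K₀` seen as a `Submodule ℚ K`), `π = b.repr ∘ mkQ`,
`B₀ x y = ∑ i, π x i * π y i` (`Finsupp.sum`, or `Finsupp.linearCombination`), and
`B x y = ∑ g, B₀ (g • x) (g • y)`. -/
lemma exists_form {E K : Type} [Group E] [Fintype E] [AddCommGroup K] [Module ℚ K]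
    [DistribMulAction E K] (K₀ : AddSubgroup K) (hp : Pure K₀)
    (hi : ∀ g : E, ∀ l ∈ K₀, g • l ∈ K₀) :
    ∃ B : K →ₗ[ℚ] K →ₗ[ℚ] ℚ, (∀ x y, B x y = B y x) ∧ (∀ x, 0 ≤ B x x) ∧
      (∀ x, B x x = 0 ↔ x ∈ K₀) ∧ (∀ x ∈ K₀, ∀ y, B x y = 0) ∧
      ∀ (g : E) x y, B (g • x) (g • y) = B x y := by
  obtain ⟨D, hD1, hD2, hD3⟩ := amin_def_form (K ⧸ amin_sub K₀ hp)
  let π : E → K →ₗ[ℚ] K ⧸ amin_sub K₀ hp := fun g =>
    (amin_sub K₀ hp).mkQ ∘ₗ (DistribSMul.toAddMonoidHom K g).toRatLinearMap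
  have hπ : ∀ g x, π g x = (amin_sub K₀ hp).mkQ (g • x) := fun g x => rfl
  have hz : ∀ g x, π g x = 0 ↔ g • x ∈ K₀ := fun g x => by
    rw [hπ, Submodule.mkQ_apply, Submodule.Quotient.mk_eq_zero, amin_mem]
  have hB : ∀ x y, (∑ g, D.compl₁₂ (π g) (π g)) x y = ∑ g, D (π g x) (π g y) := fun x y => by
    simp only [LinearMap.sum_apply, LinearMap.compl₁₂_apply]
  have h4 : ∀ x ∈ K₀, ∀ y, (∑ g, D.compl₁₂ (π g) (π g)) x y = 0 := fun x hx y => by
    rw [hB]
    refine Finset.sum_eq_zero fun g _ => ?_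
    rw [(hz g x).mpr (hi g x hx), map_zero, LinearMap.zero_apply]
  refine ⟨∑ g, D.compl₁₂ (π g) (π g), fun x y => ?_, fun x => ?_,
    fun x => ⟨fun hx => ?_, fun hx => h4 x hx x⟩, h4, fun g x y => ?_⟩
  · rw [hB, hB]
    exact Finset.sum_congr rfl fun g _ => hD1 _ _
  · rw [hB]
    exact Finset.sum_nonneg fun g _ => hD2 _
  · rw [hB, Finset.sum_eq_zero_iff_of_nonneg fun g _ => hD2 _] at hx
    have := (hz 1 x).mp (hD3 _ (hx 1 (Finset.mem_univ _)))
    rwa [one_smul] at this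
  · rw [hB, hB]
    refine Fintype.sum_equiv (Equiv.mulRight g) _ _ fun k => ?_
    simp only [hπ, Equiv.coe_mulRight, mul_smul]

/-- Orthogonal projection onto a finitely generated subspace for a positive semidefinite form
(induction on the generating set / Gram–Schmidt: if `W = span (insert w s)`, project `w` and `a`
to `span s`, put `w' = w - proj w`; if `B w' w' = 0` then `B w' · = 0` by Cauchy–Schwarz, else
subtract `(B a' w' / B w' w') • w'`). -/
lemma exists_proj {K : Type} [AddCommGroup K] [Module ℚ K] (B : K →ₗ[ℚ] K →ₗ[ℚ] ℚ)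
    (hs : ∀ x y, B x y = B y x) (h0 : ∀ x, 0 ≤ B x x) (W : Submodule ℚ K) (hW : W.FG) (a : K) :
    ∃ w ∈ W, ∀ w' ∈ W, B (a - w) w' = 0 := by
  classical
  obtain ⟨s, rfl⟩ := hW
  induction s using Finset.induction_on generalizing a with
  | empty =>
    refine ⟨0, Submodule.zero_mem _, fun w' hw' => ?_⟩
    rw [Finset.coe_empty, Submodule.span_empty, Submodule.mem_bot] at hw'
    rw [hw', map_zero]
  | insert w s _ ih =>
    obtain ⟨p, hp, hp'⟩ := ih a
    obtain ⟨q, hq, hq'⟩ := ih w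
    have hle : Submodule.span ℚ (s : Set K) ≤ Submodule.span ℚ ((insert w s : Finset K) : Set K) :=
      Submodule.span_mono (by simp)
    have hw : w ∈ Submodule.span ℚ ((insert w s : Finset K) : Set K) :=
      Submodule.subset_span (by simp)
    obtain ⟨t, ht⟩ : ∃ t : ℚ, B (a - p) (w - q) = t * B (w - q) (w - q) := by
      by_cases e : B (w - q) (w - q) = 0
      · exact ⟨0, by rw [amin_cs B hs h0 e, zero_mul]⟩
      · exact ⟨B (a - p) (w - q) / B (w - q) (w - q), by field_simp⟩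
    refine ⟨p + t • (w - q), Submodule.add_mem _ (hle hp)
      (Submodule.smul_mem _ _ (Submodule.sub_mem _ hw (hle hq))), fun w' hw' => ?_⟩
    rw [Finset.coe_insert, Submodule.mem_span_insert] at hw'
    obtain ⟨c, z, hz, rfl⟩ := hw'
    have e1 : a - (p + t • (w - q)) = (a - p) - t • (w - q) := by abel
    have e2 : c • w + z = c • (w - q) + (c • q + z) := by rw [smul_sub]; abel
    have hm : c • q + z ∈ Submodule.span ℚ (s : Set K) :=
      Submodule.add_mem _ (Submodule.smul_mem _ _ hq) hz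
    have f1 := hp' _ hm
    have f2 := hq' _ hm
    rw [e1, e2]
    generalize a - p = a' at *
    generalize w - q = w' at *
    generalize c • q + z = z' at *
    simp only [map_add, map_sub, map_smul, LinearMap.sub_apply, LinearMap.smul_apply, smul_eq_mul,
      f1, f2, ht]
    ring

lemma amin_affine {K : Type} [AddCommGroup K] [Module ℚ K] (B : K →ₗ[ℚ] K →ₗ[ℚ] ℚ)
    (hs : ∀ x y, B x y = B y x) (h0 : ∀ x, 0 ≤ B x x) (V : Submodule ℚ K) (hV : V.FG)
    (L : AddSubgroup K) (hL : Pure L) {a : K} (ha : a ∈ V) :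
    ∃ m ∈ V, m - a ∈ L ∧ ∀ l ∈ V, l - a ∈ L → B m m ≤ B l l := by
  have hW : (V ⊓ amin_sub L hL).FG := Submodule.FG.of_le hV inf_le_left
  obtain ⟨w, hw, hw'⟩ := exists_proj B hs h0 _ hW a
  refine ⟨a - w, V.sub_mem ha hw.1, ?_, fun l hl hla => ?_⟩
  · rw [sub_sub_cancel_left]
    exact L.neg_mem hw.2
  · have hu : l - a + w ∈ V ⊓ amin_sub L hL :=
      Submodule.add_mem _ ⟨V.sub_mem hl ha, hla⟩ hw
    have e : l = (a - w) + (l - a + w) := by abel
    have f1 := hw' _ hu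
    have f2 := h0 (l - a + w)
    rw [e]
    generalize l - a + w = u at *
    generalize a - w = m at *
    simp only [map_add, LinearMap.add_apply, hs u m, f1]
    linarith

/-- Let `J' = {j ∈ J | Pos j.1 j.2}`-type pairs cover all positions (replace `j.2` by an actual
position in the same class).  Let `V` be the span of the finitely many `g • j.2` (finitely
generated, `E`-stable; submodules of it are finitely generated, `IsNoetherian`).  For each `j` let
`W j = V ⊓ (K₀ ⊔ j.1)` (a `ℚ`-subspace by purity) and `m j = j.2 - proj`, which minimises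
`N x = B x x` on `j.2 + W j`.  Let `l₁ = m j` with `N (m j)` least; it minimises `N` on all
positions lying in `V + K₀` (if `Pos L l`, `l = l' + κ`, `l' ∈ V`, then `l' - j.2 ∈ W j`).
`A = {g | g • l₁ - l₁ ∈ K₀}`, `l₀ = |A|⁻¹ • ∑ h ∈ A, h • l₁ ∈ V`, `l₀ - l₁ ∈ K₀`.  If `g ∉ A`,
`Pos L l₀` and `g • l₀ - l₀ ∈ K₀ ⊔ L`, the midpoint is a position in `V` with
`N = N l₀ - N (g • l₀ - l₀) / 4 < N l₀`. -/
theorem exists_min {E K : Type} [Group E] [Fintype E] [AddCommGroup K] [Module ℚ K]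
    [DistribMulAction E K] (K₀ : AddSubgroup K) (hp : Pure K₀)
    (hi : ∀ g : E, ∀ l ∈ K₀, g • l ∈ K₀) (Pos : AddSubgroup K → K → Prop)
    (hpure : ∀ L l, Pos L l → Pure L)
    (hT : ∀ L l l', Pos L l → l' - l ∈ K₀ ⊔ L → Pos L l')
    (hfin : ∃ J : Finset (AddSubgroup K × K), ∀ L l, Pos L l →
      ∃ j ∈ J, j.1 = L ∧ l - j.2 ∈ K₀ ⊔ L)
    (hne : ∃ L l, Pos L l) :
    ∃ (l₀ : K) (A : Subgroup E), (∀ h ∈ A, h • l₀ = l₀) ∧ (∃ L, Pos L l₀) ∧
      ∀ g, g ∉ A → ∀ L, Pos L l₀ → g • l₀ - l₀ ∉ K₀ ⊔ L := by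
  classical
  obtain ⟨B, hs, h0, hrad, hK, hinv⟩ := exists_form (E := E) K₀ hp hi
  obtain ⟨J, hJ⟩ := hfin
  let V : Submodule ℚ K :=
    Submodule.span ℚ (((Finset.univ ×ˢ J).image fun z : E × AddSubgroup K × K => z.1 • z.2.2 :
      Finset K) : Set K)
  have hV : V.FG := ⟨_, rfl⟩
  have hJV : ∀ j ∈ J, j.2 ∈ V := fun j hj =>
    Submodule.subset_span (Finset.mem_coe.mpr (Finset.mem_image.mpr
      ⟨(1, j), Finset.mem_product.mpr ⟨Finset.mem_univ _, hj⟩, one_smul _ _⟩))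
  have hVg : ∀ (g : E), ∀ x ∈ V, g • x ∈ V := by
    intro g x hx
    induction hx using Submodule.span_induction with
    | mem x hx =>
      obtain ⟨z, hz, rfl⟩ := Finset.mem_image.mp (Finset.mem_coe.mp hx)
      exact Submodule.subset_span (Finset.mem_coe.mpr (Finset.mem_image.mpr
        ⟨(g * z.1, z.2), Finset.mem_product.mpr ⟨Finset.mem_univ _, (Finset.mem_product.mp hz).2⟩,
          mul_smul _ _ _⟩))
    | zero => rw [smul_zero]; exact V.zero_mem
    | add x y _ _ hx hy => rw [smul_add]; exact V.add_mem hx hy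
    | smul q x _ hx => rw [smul_rat]; exact V.smul_mem q hx
  have hcov : ∀ L l, Pos L l → ∃ j ∈ J.filter fun j => Pos j.1 j.2,
      j.1 = L ∧ l - j.2 ∈ K₀ ⊔ L := by
    intro L l hl
    obtain ⟨j, hj, rfl, h⟩ := hJ L l hl
    refine ⟨j, Finset.mem_filter.mpr ⟨hj, hT _ l _ hl ?_⟩, rfl, h⟩
    rw [← neg_sub]
    exact AddSubgroup.neg_mem _ h
  have hm : ∀ j : AddSubgroup K × K, ∃ m : K, j ∈ J.filter (fun j => Pos j.1 j.2) →
      m ∈ V ∧ m - j.2 ∈ K₀ ⊔ j.1 ∧ ∀ l ∈ V, l - j.2 ∈ K₀ ⊔ j.1 → B m m ≤ B l l := by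
    intro j
    by_cases hj : j ∈ J.filter (fun j => Pos j.1 j.2)
    · obtain ⟨h1, h2⟩ := Finset.mem_filter.mp hj
      obtain ⟨m, hm1, hm2⟩ := amin_affine B hs h0 V hV _ (amin_sup hp (hpure _ _ h2)) (hJV j h1)
      exact ⟨m, fun _ => ⟨hm1, hm2⟩⟩
    · exact ⟨0, fun h => absurd h hj⟩
  choose m hm using hm
  obtain ⟨j₀, hj₀, hmin⟩ := (J.filter fun j => Pos j.1 j.2).exists_min_image
    (fun j => B (m j) (m j)) (by
      obtain ⟨L, l, hl⟩ := hne
      obtain ⟨j, hj, -⟩ := hcov L l hl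
      exact ⟨j, hj⟩)
  obtain ⟨h1V, h1L, -⟩ := hm j₀ hj₀
  have h1P : Pos j₀.1 (m j₀) := hT _ _ _ (Finset.mem_filter.mp hj₀).2 h1L
  have h1min : ∀ L l, Pos L l → l ∈ V → B (m j₀) (m j₀) ≤ B l l := by
    intro L l hl hlV
    obtain ⟨j, hj, rfl, h⟩ := hcov L l hl
    exact (hmin j hj).trans ((hm j hj).2.2 l hlV h)
  generalize m j₀ = l₁ at h1V h1P h1min
  let A : Subgroup E :=
    { carrier := {g | g • l₁ - l₁ ∈ K₀}
      one_mem' := by
        change (1 : E) • l₁ - l₁ ∈ K₀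
        rw [one_smul, sub_self]
        exact K₀.zero_mem
      mul_mem' := by
        intro a b ha hb
        change (a * b) • l₁ - l₁ ∈ K₀
        have e : (a * b) • l₁ - l₁ = a • (b • l₁ - l₁) + (a • l₁ - l₁) := by
          rw [mul_smul, smul_sub]; abel
        rw [e]
        exact K₀.add_mem (hi a _ hb) ha
      inv_mem' := by
        intro a ha
        change a⁻¹ • l₁ - l₁ ∈ K₀
        have e : a⁻¹ • l₁ - l₁ = -(a⁻¹ • (a • l₁ - l₁)) := by
          rw [smul_sub, inv_smul_smul]; abel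
        rw [e]
        exact K₀.neg_mem (hi _ _ ha) }
  have hA : ∀ g, g ∈ A ↔ g • l₁ - l₁ ∈ K₀ := fun g => Iff.rfl
  have hc : (Fintype.card A : ℚ) ≠ 0 := by exact_mod_cast Fintype.card_ne_zero
  obtain ⟨l₀, h0V, h0K, h0A⟩ : ∃ l₀ ∈ V, l₀ - l₁ ∈ K₀ ∧ ∀ h ∈ A, h • l₀ = l₀ := by
    refine ⟨(Fintype.card A : ℚ)⁻¹ • ∑ h : A, (h : E) • l₁,
      V.smul_mem _ (V.sum_mem fun h _ => hVg _ _ h1V), ?_, fun g hg => ?_⟩
    · have e : (Fintype.card A : ℚ)⁻¹ • ∑ h : A, (h : E) • l₁ - l₁ =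
          (Fintype.card A : ℚ)⁻¹ • ∑ h : A, ((h : E) • l₁ - l₁) := by
        rw [Finset.sum_sub_distrib, smul_sub, Finset.sum_const, Finset.card_univ,
          ← Nat.cast_smul_eq_nsmul ℚ, smul_smul, inv_mul_cancel₀ hc, one_smul]
      rw [e]
      exact hp _ _ (K₀.sum_mem fun h _ => (hA _).mp h.2)
    · rw [smul_rat, Finset.smul_sum]
      congr 1
      refine Fintype.sum_equiv (Equiv.mulLeft (⟨g, hg⟩ : A)) _ _ fun k => ?_
      simp only [Equiv.coe_mulLeft, Subgroup.coe_mul, mul_smul]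
  have hN : B l₀ l₀ = B l₁ l₁ := by
    have e : l₀ = l₁ + (l₀ - l₁) := by abel
    have f := hK _ h0K
    rw [e]
    generalize l₀ - l₁ = k at f
    simp only [map_add, LinearMap.add_apply, f, hs l₁ k, add_zero]
  refine ⟨l₀, A, h0A, ⟨j₀.1, hT _ _ _ h1P (AddSubgroup.mem_sup_left h0K)⟩,
    fun g hg L hL hd => hg ?_⟩
  have hdV : g • l₀ - l₀ ∈ V := V.sub_mem (hVg g _ h0V) h0V
  have hmid := h1min L (l₀ + (1 / 2 : ℚ) • (g • l₀ - l₀))
    (hT L l₀ _ hL (by
      rw [add_sub_cancel_left]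
      exact amin_sup hp (hpure _ _ hL) _ _ hd))
    (V.add_mem h0V (V.smul_mem _ hdV))
  have hg0 : B (l₀ + (g • l₀ - l₀)) (l₀ + (g • l₀ - l₀)) = B l₀ l₀ := by
    rw [add_sub_cancel, hinv]
  have hdK : g • l₀ - l₀ ∈ K₀ := by
    rw [← hrad]
    have f := h0 (g • l₀ - l₀)
    rw [← hN] at hmid
    generalize g • l₀ - l₀ = d at *
    simp only [map_add, map_smul, LinearMap.add_apply, LinearMap.smul_apply, smul_eq_mul,
      hs d l₀] at hmid hg0
    linarith
  rw [hA]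
  have e : g • l₁ - l₁ = -(g • (l₀ - l₁)) + (g • l₀ - l₀) + (l₀ - l₁) := by
    rw [smul_sub]; abel
  rw [e]
  exact K₀.add_mem (K₀.add_mem (K₀.neg_mem (hi g _ h0K)) hdK) h0K

end Pool.Agent.Lib.MP_b6945b_al.Bi
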