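import Pool.Agent.Lib.MP_b6945b_al.Bi.AAtom

set_option autoImplicit false

/-!
The stratification.
-/

namespace Pool.Agent.Lib.MP_b6945b_al.Bi

open Finset Filter Topology Pointwise
open scoped RealInnerProductSpace

section

variable {K : Type} [AddCommGroup K] {Q : AddSubgroup K → Prop}

lemma astrat_zero {f : K → ℤ} (h : ∀ l, f l = 0) : Rep Q 0 f :=
  ⟨0, Fin.elim0, Fin.elim0, Fin.elim0, le_rfl, fun i => i.elim0, fun i => i.elim0,
    fun l => by simp [h]⟩

lemma astrat_add {M M' : ℕ} {f f' : K → ℤ} (h : Rep Q M f) (h' : Rep Q M' f') :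
    Rep Q (M + M') fun l => f l + f' l := by
  obtain ⟨m, a, c, L, h1, h2, h3, h4⟩ := h
  obtain ⟨m', a', c', L', h1', h2', h3', h4'⟩ := h'
  refine ⟨m + m', Fin.append a a', Fin.append c c', Fin.append L L', add_le_add h1 h1',
    fun i => ?_, fun i => ?_, fun l => ?_⟩
  · refine Fin.addCases (fun i => ?_) (fun i => ?_) i
    · rw [Fin.append_left]
      exact (h2 i).trans (by push_cast; omega)
    · rw [Fin.append_right]
      exact (h2' i).trans (by push_cast; omega)
  · refine Fin.addCases (fun i => ?_) (fun i => ?_) i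
    · rw [Fin.append_left]
      exact h3 i
    · rw [Fin.append_right]
      exact h3' i
  · show f l + f' l = _
    rw [Fin.sum_univ_add, h4, h4']
    congr 1
    · refine sum_congr rfl fun i _ => ?_
      rw [Fin.append_left, Fin.append_left, Fin.append_left]
    · refine sum_congr rfl fun i _ => ?_
      rw [Fin.append_right, Fin.append_right, Fin.append_right]

lemma astrat_sum {ι : Type} (s : Finset ι) (f : ι → K → ℤ) (h : ∀ i ∈ s, ∃ M, Rep Q M (f i)) :
    ∃ M, Rep Q M fun l => ∑ i ∈ s, f i l := by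
  classical
  induction s using Finset.induction_on with
  | empty => exact ⟨0, astrat_zero fun l => sum_empty⟩
  | insert i s hi ih =>
    obtain ⟨M, hM⟩ := h i (mem_insert_self i s)
    obtain ⟨M', hM'⟩ := ih fun j hj => h j (mem_insert_of_mem hj)
    refine ⟨M + M', ?_⟩
    simp only [sum_insert hi]
    exact astrat_add hM hM'

lemma astrat_per {L : AddSubgroup K} (hQ : Q L) (T : Finset K) : ∀ f : K → ℤ,
    (∀ l, ∀ m ∈ L, f (l + m) = f l) → (∀ l, f l ≠ 0 → ∃ t ∈ T, l - t ∈ L) → ∃ M, Rep Q M f := by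
  classical
  induction T using Finset.induction_on with
  | empty =>
    intro f _ h
    exact ⟨0, astrat_zero fun l => by_contra fun e => by simpa using h l e⟩
  | insert t T _ ih =>
    intro f h1 h2
    obtain ⟨M, hM⟩ := ih (fun l => if l - t ∈ L then 0 else f l) (fun l m hm => by
      have e : l + m - t ∈ L ↔ l - t ∈ L := by
        rw [add_sub_right_comm]
        exact L.add_mem_cancel_right hm
      simp only [e, h1 l m hm]) fun l hl => by
        have e : l - t ∉ L := fun e => hl (if_pos e)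
        obtain ⟨t', a1, a2⟩ := h2 l fun e' => hl ((if_neg e).trans e')
        exact ⟨t', (mem_insert.1 a1).resolve_left fun e' => e (e' ▸ a2), a2⟩
    have h3 : Rep Q ((f t).natAbs + 1) fun l => if l - t ∈ L then f t else 0 :=
      ⟨1, fun _ => f t, fun _ => t, fun _ => L, by omega, fun _ => by push_cast; omega,
        fun _ => hQ, fun l => by simp⟩
    have h4 := astrat_add h3 hM
    have h5 : (fun l => (if l - t ∈ L then f t else 0) + if l - t ∈ L then 0 else f l) = f := by
      funext l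
      split_ifs with e
      · rw [add_zero, ← h1 t _ e, add_sub_cancel]
      · rw [zero_add]
    exact ⟨_, h5 ▸ h4⟩

end

namespace HSys

variable {E K X H : Type} [Group E] [Fintype E] [AddCommGroup K] [DistribMulAction E K]
  [NormedAddCommGroup H] [InnerProductSpace ℝ H] {F : K → X → X → ℤ} {S : HSys E H F}

lemma astrat_weak [Module ℚ K] [CompleteSpace H] (hp : ∀ x, S.Lat x → Pure (S.stab x)) (n : ℕ) :
    ∀ x, S.Lat x → ⟪x, x⟫ = (n : ℝ) →
      ∃ (c : AddSubgroup K → H) (T : Finset (AddSubgroup K)), (∀ L, S.At L (c L)) ∧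
        (∀ L, L ∉ T → c L = 0) ∧ (∀ L ∈ T, Pure L) ∧ x = ∑ L ∈ T, c L := by
  classical
  induction n using Nat.strong_induction_on with
  | _ n ih =>
    intro x hx hn
    by_cases h : S.At (S.stab x) x
    · refine ⟨fun L => if L = S.stab x then x else 0, {S.stab x}, fun L => ?_,
        fun L hL => if_neg fun e => hL (mem_singleton.2 e), fun L hL => ?_, by simp⟩
      · show S.At L (if L = S.stab x then x else 0)
        split_ifs with e
        · exact e ▸ h
        · exact At.zero S L
      · rw [mem_singleton.1 hL]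
        exact hp x hx
    obtain ⟨y, h1, h2, h3, h4⟩ := exists_split hp hx h
    obtain ⟨a, ha⟩ := h1.exists_nat
    obtain ⟨b, hb⟩ := (hx.sub h1).exists_nat
    have e : (n : ℝ) = a + b := by
      have e1 : x = y + (x - y) := (add_sub_cancel y x).symm
      rw [← hn, ← ha, ← hb]
      conv_lhs => rw [e1]
      rw [real_inner_add_add_self, real_inner_comm (x - y) y, h4]
      ring
    have e' : n = a + b := by exact_mod_cast e
    have a0 : a ≠ 0 := fun e => h2 (inner_self_eq_zero.1 (by rw [ha, e, Nat.cast_zero]))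
    have b0 : b ≠ 0 := fun e =>
      h3 (sub_eq_zero.1 (inner_self_eq_zero.1 (by rw [hb, e, Nat.cast_zero]))).symm
    obtain ⟨c, T, a1, a2, a3, a4⟩ := ih a (by omega) y h1 ha
    obtain ⟨c', T', b1, b2, b3, b4⟩ := ih b (by omega) _ (hx.sub h1) hb
    refine ⟨fun L => c L + c' L, T ∪ T', fun L => (a1 L).add (b1 L), fun L hL => ?_,
      fun L hL => (mem_union.1 hL).elim (a3 L) (b3 L), ?_⟩
    · show c L + c' L = 0
      rw [a2 L fun e => hL (mem_union_left _ e), b2 L fun e => hL (mem_union_right _ e), add_zero]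
    · rw [sum_add_distrib, ← sum_subset subset_union_left fun L _ e => a2 L e,
        ← sum_subset subset_union_right fun L _ e => b2 L e, ← a4, ← b4, add_sub_cancel]

lemma astrat_uniq [Module ℚ K] {d : AddSubgroup K → H} {T : Finset (AddSubgroup K)}
    (h1 : ∀ L, S.At L (d L)) (h2 : ∀ L, L ∉ T → d L = 0) (h3 : ∀ L ∈ T, Pure L)
    (h4 : ∑ L ∈ T, d L = 0) (L : AddSubgroup K) : d L = 0 := by
  by_cases e : L ∈ T
  · have h5 : ⟪∑ L' ∈ T, d L', d L⟫ = ⟪d L, d L⟫ := by
      rw [sum_inner]
      exact sum_eq_single L (fun L' hL' hne => (h1 L').orth (h1 L) (h3 L' hL') (h3 L e) hne)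
        fun e' => absurd e e'
    rw [h4, inner_zero_left] at h5
    exact inner_self_eq_zero.1 h5.symm
  · exact h2 L e

/-- Strong induction on the natural number `⟪x, x⟫`, using `exists_split` (both parts have smaller
norm) and `At.add`; finally remove the `L` with `c L = 0` from `T`. -/
theorem exists_decomp [Module ℚ K] [CompleteSpace H] (hp : ∀ x, S.Lat x → Pure (S.stab x))
    {x : H} (hx : S.Lat x) :
    ∃ (c : AddSubgroup K → H) (T : Finset (AddSubgroup K)), (∀ L, S.At L (c L)) ∧
      (∀ L, L ∉ T → c L = 0) ∧ (∀ L ∈ T, c L ≠ 0) ∧ (∀ L ∈ T, Pure L) ∧ x = ∑ L ∈ T, c L := by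
  classical
  obtain ⟨n, hn⟩ := hx.exists_nat
  obtain ⟨c, T, h1, h2, h3, h4⟩ := astrat_weak hp n x hx hn
  refine ⟨c, T.filter fun L => c L ≠ 0, h1, fun L hL => ?_, fun L hL => (mem_filter.1 hL).2,
    fun L hL => h3 L (mem_filter.1 hL).1, h4.trans (sum_filter_ne_zero T).symm⟩
  by_contra h0
  exact hL (mem_filter.2 ⟨by_contra fun e => h0 (h2 L e), h0⟩)

/-- Choose decompositions of all `v χ`.  `equiv`: `L ↦ R g (c χ (g⁻¹ • L))` is a second
decomposition of `v χ = R g (v χ)`, and decompositions are unique (the difference `d L` is an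
atom vanishing off a finite set of pure subgroups with `∑ d L = 0`; pair with `d L` and use
`At.orth`; `g • L` is pure when `L` is, by `smul_rat`). -/
theorem exists_strat [Module ℚ K] [CompleteSpace H] (hp : ∀ x, S.Lat x → Pure (S.stab x)) :
    ∃ c T, S.Strat c T := by
  classical
  choose c T h1 h2 h3 h4 h5 using fun χ => exists_decomp hp (Lat.v (S := S) χ)
  refine ⟨c, T, h1, h2, h3, fun χ L hL => (h1 χ L).stab_eq (h4 χ L hL) (h3 χ L hL), h5, ?_, ?_⟩
  · intro g χ L
    have a1 : ∀ L', S.At L' (S.R g (c χ (g⁻¹ • L'))) := fun L' => by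
      have := (h1 χ (g⁻¹ • L')).R g
      rwa [smul_inv_smul] at this
    have a2 : ∀ L', L' ∉ (T χ).image (g • ·) → S.R g (c χ (g⁻¹ • L')) = 0 := fun L' hL => by
      rw [h2 χ _ fun e => hL (mem_image.2 ⟨_, e, smul_inv_smul g L'⟩), map_zero]
    have a3 : ∑ L' ∈ (T χ).image (g • ·), S.R g (c χ (g⁻¹ • L')) = S.v χ := by
      rw [sum_image fun a _ b _ e => MulAction.injective g e, ← S.Rv g χ, h5 χ, map_sum]
      exact sum_congr rfl fun L' _ => by rw [inv_smul_smul]
    have a4 := astrat_uniq (S := S) (d := fun L' => S.R g (c χ (g⁻¹ • L')) + -c χ L')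
      (T := (T χ).image (g • ·) ∪ T χ) (fun L' => (a1 L').add (h1 χ L').neg)
      (fun L' hL => by
        rw [a2 L' fun e => hL (mem_union_left _ e), h2 χ L' fun e => hL (mem_union_right _ e),
          neg_zero, add_zero])
      (fun L' hL => by
        rcases mem_union.1 hL with e | e
        · obtain ⟨L'', e1, rfl⟩ := mem_image.1 e
          intro q x hx
          rw [mem_smul_sub] at hx ⊢
          rw [smul_rat]
          exact h4 χ L'' e1 q _ hx
        · exact h4 χ L' e)
      (by
        rw [sum_add_distrib, sum_neg_distrib,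
          ← sum_subset subset_union_left fun L' _ e => a2 L' e,
          ← sum_subset subset_union_right fun L' _ e => h2 χ L' e, a3, ← h5 χ, add_neg_cancel])
      (g • L)
    rwa [inv_smul_smul, add_neg_eq_zero] at a4
  · intro χ ψ L L' l hne
    by_cases e : L ∈ T χ
    · by_cases e' : L' ∈ T ψ
      · exact ((h1 χ L).U l).orth (h1 ψ L') (h4 χ L e) (h4 ψ L' e') hne
      · rw [h2 ψ L' e', inner_zero_right]
    · rw [h2 χ L e, map_zero, inner_zero_left]

variable {c : X → AddSubgroup K → H} {T : X → Finset (AddSubgroup K)}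

lemma Strat.lat (h : S.Strat c T) (χ : X) (L : AddSubgroup K) : S.Lat (c χ L) := (h.atom χ L).1

lemma Strat.fix (h : S.Strat c T) (χ : X) {L : AddSubgroup K} {l : K} (hl : l ∈ L) :
    S.U l (c χ L) = c χ L := (h.atom χ L).2.1 l hl

lemma Strat.mem_of_ne (h : S.Strat c T) {χ : X} {L : AddSubgroup K} (h0 : c χ L ≠ 0) :
    L ∈ T χ := by
  by_contra e
  exact h0 (h.off χ L e)

lemma Strat.smul_mem (h : S.Strat c T) (g : E) {χ : X} {L : AddSubgroup K} :
    g • L ∈ T χ ↔ L ∈ T χ := by
  constructor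
  · intro e
    refine h.mem_of_ne fun h0 => h.ne χ _ e ?_
    rw [← h.equiv, h0, map_zero]
  · intro e
    refine h.mem_of_ne fun h0 => h.ne χ _ e ((S.R g).injective ?_)
    rw [h.equiv, h0, map_zero]

lemma Strat.pure [Module ℚ K] (h : S.Strat c T) (hp : ∀ x, S.Lat x → Pure (S.stab x)) {χ : X}
    {L : AddSubgroup K} (hL : L ∈ T χ) : Pure L := by
  rw [← h.good χ L hL]
  exact hp _ (h.lat χ L)

lemma Strat.inner_v (h : S.Strat c T) (χ ψ : X) (L : AddSubgroup K) (l : K) :
    ⟪S.U l (c χ L), S.v ψ⟫ = ⟪S.U l (c χ L), c ψ L⟫ := by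
  rw [h.sum ψ, inner_sum]
  refine sum_eq_single L (fun L' _ hne => h.orth χ ψ L L' l hne.symm) fun e => ?_
  rw [h.off ψ L e, inner_zero_right]

lemma Strat.inner_cv (h : S.Strat c T) (χ : X) (L : AddSubgroup K) :
    ⟪c χ L, S.v χ⟫ = ⟪c χ L, c χ L⟫ := by
  have := h.inner_v χ χ L 0
  rwa [S.U_zero] at this

lemma Strat.norm_le (h : S.Strat c T) (hk : Ker E F) (χ : X) (L : AddSubgroup K) :
    ⟪c χ L, c χ L⟫ ≤ (Fintype.card E : ℝ) := by
  have h1 := real_inner_mul_inner_self_le (c χ L) (S.v χ)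
  rw [h.inner_cv, S.inner_vv hk] at h1
  have h2 : 0 ≤ ⟪c χ L, c χ L⟫ := real_inner_self_nonneg
  rcases h2.eq_or_lt with e | e
  · rw [← e]
    exact Nat.cast_nonneg _
  · exact le_of_mul_le_mul_left h1 e

/-- `F l χ ψ = ∑ L ∈ T χ, ⟪U l (c χ L), c ψ L⟫`; each summand is an integer valued `L`-periodic
function supported on finitely many cosets, i.e. `∑ t ∈ T', if l - t ∈ L then a t else 0` for a
finite set `T'` of pairwise incongruent representatives; drop the `L` whose summand vanishes
identically, enumerate the pairs `(L, t)` by `Fin m`, and let `M` bound `m` and all `|a|`.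
(A lemma `Rep.add : Rep Q M f → Rep Q M' f' → Rep Q (M + M') (f + f')` via `Fin.append` or
`finSumFinEquiv`, and induction over finsets, is the easy way.) -/
theorem Strat.rep (h : S.Strat c T) (χ ψ : X) (Q : AddSubgroup K → Prop)
    (hQ : ∀ L ∈ T χ, (∃ l, ⟪S.U l (c χ L), c ψ L⟫ ≠ 0) → Q L) :
    ∃ M, Rep Q M (fun l => F l χ ψ) := by
  choose z hz using fun L l => ((h.lat χ L).U l).inner_int (h.lat ψ L)
  have h1 : (fun l => F l χ ψ) = fun l => ∑ L ∈ T χ, z L l := by
    funext l
    refine Int.cast_injective (α := ℝ) ?_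
    rw [← S.inner_v, h.sum χ, map_sum, sum_inner, Int.cast_sum]
    exact sum_congr rfl fun L _ => by rw [h.inner_v, hz]
  rw [h1]
  refine astrat_sum _ _ fun L hL => ?_
  by_cases e : ∃ l, ⟪S.U l (c χ L), c ψ L⟫ ≠ 0
  · obtain ⟨T', hT'⟩ := (h.atom χ L).2.2 _ (h.lat ψ L)
    refine astrat_per (hQ L hL e) T' _ (fun l m hm => ?_) fun l hl => hT' l ?_
    · refine Int.cast_injective (α := ℝ) ?_
      rw [← hz, ← hz, S.U_add, h.fix χ hm]
    · rw [hz]
      exact_mod_cast hl
  · refine ⟨0, astrat_zero fun l => ?_⟩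
    have h2 := not_not.1 (not_exists.1 e l)
    rw [hz] at h2
    exact_mod_cast h2

end HSys

end Pool.Agent.Lib.MP_b6945b_al.Bi
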