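import Pool.Agent.Lib.MP_b6945b_al.Bi.ABasic

set_option autoImplicit false

/-!
Construction of the ultraproduct.
-/

namespace Pool.Agent.Lib.MP_b6945b_al.Bi

open Finset Filter Topology Pointwise

/-- A bounded integer sequence is eventually constant along an ultrafilter
(`Ultrafilter.eq_pure_of_finite_mem` / `Ultrafilter.finite_biUnion_mem_iff`). -/
lemma exists_ulim (u : Ultrafilter ℕ) (f : ℕ → ℤ) (B : ℕ) (hf : ∀ n, |f n| ≤ B) :
    ∃ z, ∀ᶠ n in u, f n = z := by
  have h1 : ∀ᶠ n in u, ∃ z ∈ Set.Icc (-(B : ℤ)) B, f n = z :=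
    Eventually.of_forall fun n => ⟨f n, _root_.abs_le.1 (hf n), rfl⟩
  obtain ⟨z, -, hz⟩ := (Ultrafilter.eventually_exists_mem_iff (Set.finite_Icc _ _)).1 h1
  exact ⟨z, hz⟩

/-- A torsion free divisible group is a rational vector space: define
`q • x` as the unique `y` with `q.den • y = q.num • x`, or use `IsLocalizedModule.module`
(`LinearMap.id` is a localisation at `nonZeroDivisors ℤ`, with `IsLocalization _ ℚ`). -/
lemma nonempty_module_rat (A : Type) [AddCommGroup A]
    (h : ∀ n : ℕ, n ≠ 0 → Function.Bijective (fun x : A => n • x)) : Nonempty (Module ℚ A) := by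
  have : IsLocalizedModule (nonZeroDivisors ℤ) (LinearMap.id : A →ₗ[ℤ] A) := by
    refine ⟨fun s => ?_, fun m => ⟨(m, 1), one_smul _ _⟩, fun e => ⟨1, congr_arg _ e⟩⟩
    rw [Module.End.isUnit_iff]
    have hs : (s : ℤ) ≠ 0 := nonZeroDivisors.coe_ne_zero s
    have h1 := h (s : ℤ).natAbs (Int.natAbs_ne_zero.2 hs)
    rcases Int.natAbs_eq (s : ℤ) with e | e
    · convert h1 using 2 with x
      rw [Module.algebraMap_end_apply, ← natCast_zsmul, ← e]
    · convert neg_involutive.bijective.comp h1 using 1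
      funext x
      rw [Module.algebraMap_end_apply, Function.comp_apply, ← natCast_zsmul, ← neg_zsmul, ← e]
  exact ⟨IsLocalizedModule.module (nonZeroDivisors ℤ) (LinearMap.id : A →ₗ[ℤ] A)⟩

/-- On a `p`-torsion group multiplication by `n` prime to `p` has an inverse which is again a
multiplication on each element: if `p^k • x = 0` and `n m ≡ 1 mod p^k` then `n • m • x = x`. -/
lemma exists_nsmul_inv {A : Type} [AddCommGroup A] {p n : ℕ} (hp : p.Prime) (hn : n ≠ 0)
    (hlt : n < p) {x : A} (hx : ∃ k : ℕ, p ^ k • x = 0) : ∃ m : ℕ, n • m • x = x := by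
  obtain ⟨k, hk⟩ := hx
  have h1 : n.Coprime (p ^ k) :=
    (Nat.Coprime.pow_left k ((Nat.coprime_of_lt_prime hn hlt hp))).symm
  obtain ⟨m, hm⟩ := exists_nsmul_eq_self_of_coprime
    (h1.coprime_dvd_right (addOrderOf_dvd_of_nsmul_eq_zero hk))
  exact ⟨m, by rwa [smul_comm]⟩

/-- `K' = (∀ n, K n) ⧸ N`, `N = {l | ∀ᶠ n in u, l n = 0}`, with the induced action
(`QuotientAddGroup.map`); `X'` the quotient by the setoid `∀ᶠ n in u, χ n = ψ n`;
`F' a b c` is the `exists_ulim` limit of `F n (a.out n) (b.out n) (c.out n)` (`Ker.abs_le`).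
Multiplication by `m ≠ 0` is bijective on `K'` because `m < p n` eventually. -/
theorem exists_up {E : Type} [Group E] [Fintype E] {K X : ℕ → Type} [∀ n, AddCommGroup (K n)]
    [∀ n, DistribMulAction E (K n)] {F : ∀ n, K n → X n → X n → ℤ} {p : ℕ → ℕ} {r : ℕ}
    (h : ∀ n, FAx E (p n) r (F n)) (hp : ∀ n, n < p n) (u : Ultrafilter ℕ)
    (hu : (u : Filter ℕ) ≤ atTop) :
    ∃ (K' X' : Type) (_ : AddCommGroup K') (_ : Module ℚ K') (_ : DistribMulAction E K')
      (F' : K' → X' → X' → ℤ) (πK : (∀ n, K n) →+ K') (πX : (∀ n, X n) → X'),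
      UP E F u F' πK πX := by
  let N : AddSubgroup (∀ n, K n) :=
    { carrier := {l | ∀ᶠ n in u, l n = 0}
      zero_mem' := Eventually.of_forall fun _ => rfl
      add_mem' := fun {a b} ha hb => (ha.and hb).mono fun n e => by
        rw [Pi.add_apply, e.1, e.2, add_zero]
      neg_mem' := fun {a} ha => ha.mono fun n e => by rw [Pi.neg_apply, e, neg_zero] }
  have hN : ∀ l : ∀ n, K n, QuotientAddGroup.mk' N l = 0 ↔ ∀ᶠ n in u, l n = 0 := fun l =>
    QuotientAddGroup.eq_zero_iff l
  have hE : ∀ l l' : ∀ n, K n, QuotientAddGroup.mk' N l = QuotientAddGroup.mk' N l' ↔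
      ∀ᶠ n in u, l n = l' n := fun l l' => by
    rw [← sub_eq_zero, ← map_sub, hN]
    simp only [Pi.sub_apply, sub_eq_zero]
  have hS := QuotientAddGroup.mk'_surjective N
  let T : E → ((∀ n, K n) ⧸ N) →+ ((∀ n, K n) ⧸ N) := fun g =>
    QuotientAddGroup.map N N (DistribSMul.toAddMonoidHom _ g) fun l hl =>
      Eventually.mono hl fun n e => by
        change g • l n = 0
        rw [e, smul_zero]
  have hT : ∀ g l, T g (QuotientAddGroup.mk' N l) = QuotientAddGroup.mk' N (g • l) :=
    fun _ _ => rfl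
  let act : DistribMulAction E ((∀ n, K n) ⧸ N) :=
    { smul := fun g x => T g x
      one_smul := fun x => by
        obtain ⟨l, rfl⟩ := hS x
        exact (hT 1 l).trans (by rw [one_smul])
      mul_smul := fun g g' x => by
        obtain ⟨l, rfl⟩ := hS x
        exact (hT _ l).trans (by rw [mul_smul]; rfl)
      smul_zero := fun g => (T g).map_zero
      smul_add := fun g => (T g).map_add }
  have hev : ∀ m : ℕ, ∀ᶠ n in u, m < p n := fun m =>
    Eventually.filter_mono hu ((eventually_ge_atTop m).mono fun n e => e.trans_lt (hp n))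
  obtain ⟨mod⟩ := nonempty_module_rat ((∀ n, K n) ⧸ N) fun m hm => by
    constructor
    · refine (injective_iff_map_eq_zero (nsmulAddMonoidHom (α := (∀ n, K n) ⧸ N) m)).2 fun x hx => ?_
      obtain ⟨l, rfl⟩ := hS x
      rw [nsmulAddMonoidHom_apply, ← map_nsmul, hN] at hx
      refine (hN l).2 ((hx.and (hev m)).mono fun n e => ?_)
      obtain ⟨k, hk⟩ := exists_nsmul_inv (h n).prime hm e.2 ((h n).tors (l n))
      rw [← hk, smul_comm, show m • l n = 0 from e.1, smul_zero]
    · intro x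
      obtain ⟨l, rfl⟩ := hS x
      have h1 : ∀ n, ∃ y : K n, m < p n → m • y = l n := fun n => by
        by_cases e : m < p n
        · obtain ⟨k, hk⟩ := exists_nsmul_inv (h n).prime hm e ((h n).tors (l n))
          exact ⟨_, fun _ => hk⟩
        · exact ⟨0, fun e' => absurd e' e⟩
      choose y hy using h1
      refine ⟨QuotientAddGroup.mk' N y, ?_⟩
      change m • QuotientAddGroup.mk' N y = _
      rw [← map_nsmul, hE]
      exact (hev m).mono fun n e => hy n e
  let s : Setoid (∀ n, X n) :=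
    ⟨fun χ ψ => ∀ᶠ n in u, χ n = ψ n, fun _ => Eventually.of_forall fun _ => rfl,
      fun e => e.mono fun _ e' => e'.symm,
      fun e e' => (e.and e').mono fun _ e'' => e''.1.trans e''.2⟩
  have hlim : ∀ (l : ∀ n, K n) (χ ψ : ∀ n, X n),
      ∃ z, ∀ᶠ n in u, F n (l n) (χ n) (ψ n) = z := fun l χ ψ =>
    exists_ulim u _ (Fintype.card E) fun n => (h n).ker.abs_le _ _ _
  choose Z hZ using hlim
  choose sec hsec using QuotientAddGroup.mk'_surjective N
  refine ⟨(∀ n, K n) ⧸ N, Quotient s, inferInstance, mod, act,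
    fun a b c => Z (sec a) b.out c.out, QuotientAddGroup.mk' N, Quotient.mk s,
    fun a => ⟨_, hsec a⟩, Quotient.mk_surjective, hN, fun χ ψ => Quotient.eq,
    fun g l => (hT g l).symm, fun l χ ψ => ?_⟩
  have e1 := (hE _ _).1 (hsec (QuotientAddGroup.mk' N l))
  have e2 : ∀ᶠ n in u, (Quotient.mk s χ).out n = χ n := Quotient.mk_out (s := s) χ
  have e3 : ∀ᶠ n in u, (Quotient.mk s ψ).out n = ψ n := Quotient.mk_out (s := s) ψ
  filter_upwards [e1, e2, e3, hZ (sec (QuotientAddGroup.mk' N l)) (Quotient.mk s χ).out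
    (Quotient.mk s ψ).out] with n a1 a2 a3 a4
  rw [← a4, a1, a2, a3]

end Pool.Agent.Lib.MP_b6945b_al.Bi
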