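import Pool.Agent.Lib.MP_b6945b_al.Bi.AUl1

set_option autoImplicit false

/-!
Transfer of the kernel conditions to the ultraproduct.
-/

namespace Pool.Agent.Lib.MP_b6945b_al.Bi

open Finset Filter Topology Pointwise

variable {E : Type} [Group E] [Fintype E] {K X : ℕ → Type} [∀ n, AddCommGroup (K n)]
  [∀ n, DistribMulAction E (K n)] {F : ∀ n, K n → X n → X n → ℤ} {u : Ultrafilter ℕ}
  {K' X' : Type} [AddCommGroup K'] [DistribMulAction E K'] {F' : K' → X' → X' → ℤ}
  {πK : (∀ n, K n) →+ K'} {πX : (∀ n, X n) → X'}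

omit [Fintype E] in
/-- Two integers given by eventually equal sequences are equal. -/
lemma UP.eq_of_eventually (u : Ultrafilter ℕ) {α : Type} {a b : α}
    (h : ∀ᶠ _n in (u : Filter ℕ), a = b) :
    a = b := by
  exact h.exists.elim fun _ e => e

/-- The theorem of Los for one universal quantifier. -/
lemma aul2_los (u : Ultrafilter ℕ) {α : ℕ → Type} (d : ∀ n, α n) {P : ∀ n, α n → Prop}
    (h : ∀ f : ∀ n, α n, ∀ᶠ n in (u : Filter ℕ), P n (f n)) :
    ∀ᶠ n in (u : Filter ℕ), ∀ x, P n x := by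
  have e : ∀ n, ∃ y, P n y → ∀ x, P n x := fun n => by
    by_cases k : ∀ x, P n x
    · exact ⟨d n, fun _ => k⟩
    · obtain ⟨y, hy⟩ := not_forall.1 k
      exact ⟨y, fun k' => absurd k' hy⟩
  choose f hf using e
  exact (h f).mono hf

/-- Each field: choose representatives (`surjK`, `surjX`, `choose` for families), intersect the
finitely many `val` statements (`Filter.eventually_all`), and use the field at one good `n`.
`compl`: choose `m n, s n`; `m n ≤ e²` is eventually equal to some `m` (`exists_ulim`); define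
`s' i n = if h : m n = m then s n (Fin.cast h.symm i) else χ n` and `s i = πX (s' i)`.
`dvd`: `g • l n = l n` eventually for all `g ∈ H` (`kerK`, `smul`). -/
theorem UP.ker (U : UP E F u F' πK πX) (h : ∀ n, Ker E (F n)) : Ker E F' := by
  refine ⟨fun l χ ψ => ?_, fun m a l χ => ?_, fun χ => ?_, fun χ ψ hne => ?_, fun g l χ ψ => ?_,
    fun l χ => ?_, fun H l hl χ ψ => ?_⟩
  · obtain ⟨l, rfl⟩ := U.surjK l
    obtain ⟨χ, rfl⟩ := U.surjX χ
    obtain ⟨ψ, rfl⟩ := U.surjX ψ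
    obtain ⟨n, h1, h2⟩ := ((U.val (-l) ψ χ).and (U.val l χ ψ)).exists
    rw [← map_neg, h1, h2, Pi.neg_apply, (h n).symm]
  · choose l' hl using fun i => U.surjK (l i)
    choose χ' hχ using fun i => U.surjX (χ i)
    obtain ⟨n, hn⟩ := (eventually_all.2 fun i => eventually_all.2 fun j =>
      U.val (l' i - l' j) (χ' i) (χ' j)).exists
    simp only [map_sub, hl, hχ, Pi.sub_apply] at hn
    simp only [hn]
    exact (h n).psd m a _ _
  · obtain ⟨χ, rfl⟩ := U.surjX χ
    obtain ⟨n, h1⟩ := (U.val 0 χ χ).exists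
    rw [← map_zero πK, h1, Pi.zero_apply, (h n).zero_same]
  · obtain ⟨χ, rfl⟩ := U.surjX χ
    obtain ⟨ψ, rfl⟩ := U.surjX ψ
    obtain ⟨n, h1, h2⟩ := ((U.val 0 χ ψ).and
      (Ultrafilter.eventually_not.2 fun e => hne ((U.kerX _ _).2 e))).exists
    rw [← map_zero πK, h1, Pi.zero_apply, (h n).zero_ne _ _ h2]
  · obtain ⟨l, rfl⟩ := U.surjK l
    obtain ⟨χ, rfl⟩ := U.surjX χ
    obtain ⟨ψ, rfl⟩ := U.surjX ψ
    obtain ⟨n, h1, h2⟩ := ((U.val (fun n => g • l n) χ ψ).and (U.val l χ ψ)).exists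
    rw [← U.smul, h1, h2, (h n).inv]
  · obtain ⟨l, rfl⟩ := U.surjK l
    obtain ⟨χ, rfl⟩ := U.surjX χ
    choose m s h1 h2 h3 using fun n => (h n).compl (l n) (χ n)
    obtain ⟨z, hz⟩ := exists_ulim u (fun n => (m n : ℤ)) (Fintype.card E ^ 2) fun n => by
      rw [Nat.abs_cast]
      exact_mod_cast h1 n
    obtain ⟨n0, hn0⟩ := hz.exists
    have hm : ∀ᶠ n in (u : Filter ℕ), m n0 = m n :=
      hz.mono fun n hn => by exact_mod_cast hn0.trans hn.symm
    let s' : Fin (m n0) → ∀ n, X n := fun i n =>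
      if e : m n0 = m n then s n (Fin.cast e i) else χ n
    refine ⟨m n0, fun i => πX (s' i), h1 n0, fun i j hij => ?_, ?_⟩
    · obtain ⟨n, e1, e2⟩ := (hm.and ((U.kerX _ _).1 hij)).exists
      simp only [s', dif_pos e1] at e2
      exact Fin.cast_injective e1 (h2 n e2)
    · obtain ⟨n, e1, e2, e3⟩ := (hm.and ((eventually_all.2 fun i => U.val l χ (s' i)).and
        (eventually_all.2 fun g : E => U.val (l - fun n => g • l n) χ χ))).exists
      simp only [map_sub, U.smul, Pi.sub_apply] at e3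
      simp only [e2, e3, ← h3 n, s', dif_pos e1]
      exact Fintype.sum_equiv (finCongr e1) _ _ fun i => rfl
  · obtain ⟨l, rfl⟩ := U.surjK l
    obtain ⟨χ, rfl⟩ := U.surjX χ
    obtain ⟨ψ, rfl⟩ := U.surjX ψ
    have h1 : ∀ g : H, ∀ᶠ n in (u : Filter ℕ), (g : E) • l n = l n := fun g =>
      ((U.kerK ((fun n => (g : E) • l n) - l)).1 (by
        rw [map_sub, U.smul, hl g g.2, sub_self])).mono fun n hn => sub_eq_zero.1 hn
    obtain ⟨n, e1, e2⟩ := ((eventually_all.2 h1).and (U.val l χ ψ)).exists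
    rw [e2]
    exact (h n).dvd H _ (fun g hg => e1 ⟨g, hg⟩) _ _

omit [Fintype E] in
lemma UP.mem_intl (U : UP E F u F' πK πX) (L : ∀ n, AddSubgroup (K n)) (l : ∀ n, K n) :
    πK l ∈ intl u πK L ↔ ∀ᶠ n in u, l n ∈ L n := by
  refine ⟨fun ⟨l', h1, h2⟩ => ?_, fun h => ⟨l, h, rfl⟩⟩
  have h3 := (U.kerK (l' - l)).1 (by rw [map_sub, h2, sub_self])
  have h4 : ∀ᶠ n in (u : Filter ℕ), l' n ∈ L n := h1
  filter_upwards [h3, h4] with n e1 e2
  rwa [← sub_eq_zero.1 e1]

omit [Fintype E] in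
lemma UP.intl_ne_bot (U : UP E F u F' πK πX) {L : ∀ n, AddSubgroup (K n)}
    (h : intl u πK L ≠ ⊥) : ∀ᶠ n in u, L n ≠ ⊥ := by
  refine Ultrafilter.eventually_not.2 fun e => h ((AddSubgroup.eq_bot_iff_forall _).2 fun x hx => ?_)
  obtain ⟨l, rfl⟩ := U.surjK x
  refine (U.kerK l).2 ?_
  filter_upwards [e, (U.mem_intl L l).1 hx] with n e1 e2
  rwa [e1, AddSubgroup.mem_bot] at e2

omit [Fintype E] in
lemma UP.intl_ne_top (U : UP E F u F' πK πX) {L : ∀ n, AddSubgroup (K n)}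
    (h : intl u πK L ≠ ⊤) : ∀ᶠ n in u, L n ≠ ⊤ := by
  refine Ultrafilter.eventually_not.2 fun e => h ((AddSubgroup.eq_top_iff' _).2 fun x => ?_)
  obtain ⟨l, rfl⟩ := U.surjK x
  exact (U.mem_intl L l).2 (e.mono fun n e1 => e1 ▸ AddSubgroup.mem_top _)

omit [Fintype E] in
open Classical in
/-- Łoś: if the conclusion fails, `Ultrafilter.eventually_not` gives bad `l n` for most `n`
(take `0` elsewhere); evaluate the hypothesis at `πK l`; each membership `l n - c i n ∈ L i n`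
is eventually equivalent to the membership in `intl` (`mem_intl`, `eventually_not`). -/
lemma UP.rep_transfer (U : UP E F u F' πK πX) {m : ℕ} (a : Fin m → ℤ) (c : Fin m → ∀ n, K n)
    (L : Fin m → ∀ n, AddSubgroup (K n)) (χ ψ : ∀ n, X n)
    (h : ∀ l, F' l (πX χ) (πX ψ) = ∑ i, if l - πK (c i) ∈ intl u πK (L i) then a i else 0) :
    ∀ᶠ n in u, ∀ l, F n l (χ n) (ψ n) = ∑ i, if l - c i n ∈ L i n then a i else 0 := by
  refine aul2_los u 0 fun l => ?_
  have h1 : ∀ i, ∀ᶠ n in (u : Filter ℕ),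
      (l n - c i n ∈ L i n ↔ πK l - πK (c i) ∈ intl u πK (L i)) := fun i => by
    rw [← map_sub, U.mem_intl]
    by_cases e : ∀ᶠ n in (u : Filter ℕ), (l - c i) n ∈ L i n
    · exact e.mono fun n e1 => iff_of_true e1 e
    · exact (Ultrafilter.eventually_not.2 e).mono fun n e1 => iff_of_false e1 e
  filter_upwards [eventually_all.2 h1, U.val l χ ψ] with n e1 e2
  rw [← e2, h]
  exact Finset.sum_congr rfl fun i _ => if_congr (e1 i).symm rfl rfl

omit [Fintype E] in
/-- A subgroup which is an internal set is an internal subgroup.  For most `n` the set `A n` is a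
subgroup (contains `0`, closed under `+` and `-`; each by the Łoś argument); let `Ls n` be that
subgroup when it is one and `⊥` otherwise. -/
lemma UP.exists_intl (U : UP E F u F' πK πX) (L : AddSubgroup K') (A : ∀ n, Set (K n))
    (h : ∀ l, πK l ∈ L ↔ ∀ᶠ n in u, l n ∈ A n) : ∃ Ls, L = intl u πK Ls := by
  have h0 : ∀ᶠ n in (u : Filter ℕ), (0 : K n) ∈ A n := (h 0).1 (by rw [map_zero]; exact L.zero_mem)
  have h1 : ∀ᶠ n in (u : Filter ℕ), ∀ x : K n × K n, x.1 ∈ A n → x.2 ∈ A n → x.1 - x.2 ∈ A n := by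
    refine aul2_los u 0 fun f => ?_
    by_cases e1 : ∀ᶠ n in (u : Filter ℕ), (f n).1 ∈ A n
    · by_cases e2 : ∀ᶠ n in (u : Filter ℕ), (f n).2 ∈ A n
      · have e3 := L.sub_mem ((h _).2 e1) ((h _).2 e2)
        rw [← map_sub] at e3
        exact ((h _).1 e3).mono fun n e _ _ => e
      · exact (Ultrafilter.eventually_not.2 e2).mono fun n e _ e' => absurd e' e
    · exact (Ultrafilter.eventually_not.2 e1).mono fun n e e' => absurd e' e
  have h2 : ∀ n, ∃ S : AddSubgroup (K n), (0 : K n) ∈ A n →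
      (∀ x : K n × K n, x.1 ∈ A n → x.2 ∈ A n → x.1 - x.2 ∈ A n) → ∀ y, y ∈ S ↔ y ∈ A n := by
    intro n
    by_cases e : (0 : K n) ∈ A n ∧ ∀ x : K n × K n, x.1 ∈ A n → x.2 ∈ A n → x.1 - x.2 ∈ A n
    · have e1 : ∀ y ∈ A n, -y ∈ A n := fun y hy => by simpa using e.2 (0, y) e.1 hy
      exact ⟨{ carrier := A n
               zero_mem' := e.1
               add_mem' := fun {a b} ha hb => by simpa using e.2 (a, -b) ha (e1 b hb)
               neg_mem' := fun {a} ha => e1 a ha }, fun _ _ _ => Iff.rfl⟩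
    · exact ⟨⊥, fun e1 e2 => absurd ⟨e1, e2⟩ e⟩
  choose Ls hL using h2
  refine ⟨Ls, AddSubgroup.ext fun x => ?_⟩
  obtain ⟨l, rfl⟩ := U.surjK x
  rw [h, U.mem_intl]
  refine eventually_congr ?_
  filter_upwards [h0, h1] with n e1 e2
  exact (hL n e1 e2 _).symm

end Pool.Agent.Lib.MP_b6945b_al.Bi
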