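import Pool.Agent.Lib.MP_b6945b_al.Bi.BVan

set_option autoImplicit false

/-!
Block orthogonality.
-/

namespace Pool.Agent.Lib.MP_b6945b_al.Bi

open St IsLocalRing Finset
open MonoidAlgebra (single)

variable {G : Type} [Group G] [Fintype G] {V : ValuationSubring ℂ} {p : ℕ} [Fact p.Prime]

/-- Fourier inversion. -/
lemma borth_fourier {C : Type} [CommGroup C] [Fintype C] (τ : C → ℂ)
    (hψ : ∀ ψ : AddChar (Additive C) ℂ, ∑ c : C, ψ (Additive.ofMul c) * τ c = 0) (v : C) :
    τ v = 0 := by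
  classical
  have h1 : ∑ ψ : AddChar (Additive C) ℂ, ψ (Additive.ofMul v⁻¹) *
      ∑ c : C, ψ (Additive.ofMul c) * τ c = 0 := by simp [hψ]
  simp only [Finset.mul_sum] at h1
  rw [Finset.sum_comm] at h1
  have h2 : ∀ c : C, ∑ ψ : AddChar (Additive C) ℂ, ψ (Additive.ofMul v⁻¹) *
      (ψ (Additive.ofMul c) * τ c) =
      if c = v then (Fintype.card (Additive C) : ℂ) * τ v else 0 := by
    intro c
    simp only [← mul_assoc, ← AddChar.map_add_eq_mul]
    rw [← Finset.sum_mul, AddChar.sum_apply_eq_ite, ← ofMul_mul]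
    by_cases e : c = v
    · simp [e]
    · have : ¬ (v⁻¹ * c = 1) := fun h => e (inv_mul_eq_one.1 h).symm
      rw [if_neg e, if_neg (fun h => this (ofMul_eq_zero.1 h)), zero_mul]
  simp only [h2, Finset.sum_ite_eq', Finset.mem_univ, if_true] at h1
  exact (mul_eq_zero.1 h1).resolve_left (by exact_mod_cast Fintype.card_ne_zero)

open scoped IsMulCommutative in
/-- As `proj_vanish`: twist a character of `C = zpowers w` by a character `l` of order `p` with
`l w ≠ 1`; the traces of the two idempotent matrices agree. -/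
theorem proj_vanish_sing (hp : (p : ℂ) ∈ V.nonunits) (f : G → V)
    (hf : ∀ x, ∑ y, f y * f (y⁻¹ * x) = f x) {w : G} (hw : p ∣ orderOf w) :
    ∑ x, f (x * w * x⁻¹) = 0 := by
  classical
  let C := Subgroup.zpowers w
  let _ : Fintype (G ⧸ C) := Fintype.ofFinite _
  obtain ⟨m, hm⟩ := hw
  have hn : 0 < orderOf w := orderOf_pos w
  have hC : ∀ c : C, c ^ orderOf w = 1 := by
    intro c
    rw [← Nat.card_zpowers]
    exact pow_card_eq_one'
  let E : (C →* V) → Matrix (G ⧸ C) (G ⧸ C) V := fun l => Matrix.of fun i j =>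
    ∑ c : C, l c * f (i.out * c * j.out⁻¹)
  have hE : ∀ l, E l * E l = E l := by
    intro l
    ext1 i j
    simp only [Matrix.mul_apply, E, Matrix.of_apply]
    have h1 : ∀ c : C, f (i.out * c * j.out⁻¹) =
        ∑ m : G ⧸ C, ∑ d : C, f (i.out * d * m.out⁻¹) * f (m.out * (d⁻¹ * c : C) * j.out⁻¹) := by
      intro c
      rw [← hf, ← Fintype.sum_prod_type', ← Equiv.sum_comp
        ((((Equiv.refl (G ⧸ C)).prodCongr (Equiv.inv C)).trans (cosetEquiv C)).trans
          ((Equiv.inv G).trans (Equiv.mulLeft i.out)))]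
      refine Finset.sum_congr rfl (fun z _ => ?_)
      simp only [Equiv.trans_apply, cosetEquiv_apply, Equiv.prodCongr_apply, Prod.map,
        Equiv.inv_apply, Equiv.coe_refl, id, Equiv.coe_mulLeft, Subgroup.coe_mul, Subgroup.coe_inv]
      congr 2 <;> group
    simp only [h1, Finset.mul_sum, Finset.sum_mul]
    rw [Finset.sum_comm (s := (univ : Finset C))]
    refine Finset.sum_congr rfl (fun m _ => ?_)
    rw [Finset.sum_comm]
    conv_rhs => rw [Finset.sum_comm]
    refine Finset.sum_congr rfl (fun d _ => ?_)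
    rw [← Equiv.sum_comp (Equiv.mulLeft d⁻¹)]
    refine Finset.sum_congr rfl (fun c _ => ?_)
    have : l c = l d * l (d⁻¹ * c) := by rw [← map_mul, mul_inv_cancel_left]
    simp only [Equiv.coe_mulLeft]
    rw [this]; ring
  let τ : C → V := fun c => ∑ i : G ⧸ C, f (i.out * c * i.out⁻¹)
  have htr : ∀ l, (E l).trace = ∑ c : C, l c * τ c := by
    intro l
    simp only [Matrix.trace, Matrix.diag, E, τ, Finset.mul_sum, Matrix.of_apply]
    exact Finset.sum_comm
  have hconst : ∀ l l' : C →* V, (∀ c, l' c ^ (p ^ 1) = 1) →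
      ∑ c : C, l c * l' c * τ c = ∑ c : C, l c * τ c := by
    intro l l' hl
    have := trace_eq_of_idem (E (l * l')) (E l) (hE _) (hE l) (by
      ext i j
      simp only [RingHom.mapMatrix_apply, Matrix.map_apply, E, map_sum, map_mul, Matrix.of_apply,
        MonoidHom.mul_apply]
      refine Finset.sum_congr rfl (fun c _ => ?_)
      rw [residue_eq_one V hp (z := l' c) (k := 1) (hl c), mul_one])
    rw [htr, htr] at this
    simpa only [MonoidHom.mul_apply] using this
  have hmem : ∀ (ψ : AddChar (Additive C) ℂ) (c : C), ψ (Additive.ofMul c) ∈ V := by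
    intro ψ c
    refine mem_of_isIntegral V (isIntegral_of_pow_eq_one hn ?_)
    rw [← AddChar.map_nsmul_eq_pow, ← ofMul_pow, hC, ofMul_one, AddChar.map_zero_eq_one]
  let L : AddChar (Additive C) ℂ → (C →* V) := fun ψ =>
    { toFun := fun c => ⟨ψ (Additive.ofMul c), hmem ψ c⟩
      map_one' := Subtype.ext (by simp)
      map_mul' := fun c d => Subtype.ext (by simp [AddChar.map_add_eq_mul]) }
  have hL : ∀ ψ c, ((L ψ c : V) : ℂ) = ψ (Additive.ofMul c) := fun _ _ => rfl
  let w' : C := ⟨w, Subgroup.mem_zpowers w⟩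
  have hw' : w' ^ m ≠ 1 := by
    intro e
    have e1 : w ^ m = 1 := congrArg Subtype.val e
    have h1 := Nat.le_of_dvd (Nat.pos_of_mul_pos_left (hm ▸ hn)) (orderOf_dvd_of_pow_eq_one e1)
    have h2 := (Fact.out : p.Prime).two_le
    have h3 : 0 < m := Nat.pos_of_mul_pos_left (hm ▸ hn)
    rw [hm] at h1
    nlinarith
  obtain ⟨φ, hφ⟩ := (AddChar.exists_apply_ne_zero (a := Additive.ofMul (w' ^ m))).2
    (fun e => hw' (ofMul_eq_zero.1 e))
  let l' : C →* V := (L φ).comp (powMonoidHom m)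
  have hl' : ∀ c, l' c = L φ (c ^ m) := fun _ => rfl
  have hψ : ∀ ψ : AddChar (Additive C) ℂ,
      ∑ c : C, ψ (Additive.ofMul c) * ((φ (Additive.ofMul (c ^ m)) - 1) * (τ c : ℂ)) = 0 := by
    intro ψ
    have h1 := congrArg (fun z : V => (z : ℂ)) (hconst (L ψ) l' (fun c => by
      rw [hl', ← map_pow, ← pow_mul, pow_one, mul_comm, ← hm, hC, map_one]))
    simp only [AddSubmonoidClass.coe_finsetSum, MulMemClass.coe_mul, hl', hL] at h1
    rw [← sub_eq_zero, ← Finset.sum_sub_distrib] at h1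
    rw [← h1]
    exact Finset.sum_congr rfl fun c _ => by ring
  have hτ : τ w' = 0 := by
    have h3 := borth_fourier (fun c : C => (φ (Additive.ofMul (c ^ m)) - 1) * (τ c : ℂ)) hψ w'
    exact Subtype.ext ((mul_eq_zero.1 h3).resolve_left (sub_ne_zero.2 hφ))
  rw [← Equiv.sum_comp (cosetEquiv C), Fintype.sum_prod_type, Finset.sum_comm]
  refine Finset.sum_eq_zero (fun c _ => ?_)
  rw [← hτ]
  refine Finset.sum_congr rfl (fun i _ => ?_)
  have : (c : G) * w = w * c := congrArg Subtype.val (mul_comm c w')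
  rw [cosetEquiv_apply]
  congr 1
  change i.out * c * w * (i.out * c)⁻¹ = i.out * w * i.out⁻¹
  rw [mul_assoc i.out, this]; group

open scoped IsMulCommutative in
/-- Copy of the proof of `block_orth` (`Block.lean`) with `proj_vanish_sing`. -/
theorem block_orth_sing (hp : (p : ℂ) ∈ V.nonunits) {ε : G → ℂ} (hε : IsCF ε)
    (hV : ∀ g, ε g ∈ V) (hid : ∀ g, conv ε ε g = ε g) {v w : G} (hv : ¬ p ∣ orderOf v)
    (hw : p ∣ orderOf w) : ∑ x, ε (v * (x * w * x⁻¹)) = 0 := by
  classical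
  let C := Subgroup.zpowers v
  have hr : (Fintype.card C : ℂ)⁻¹ ∈ V := by
    refine inv_nat_mem hp ?_
    rwa [← Nat.card_eq_fintype_card, Nat.card_zpowers]
  have hr0 : (Fintype.card C : ℂ) ≠ 0 := by exact_mod_cast Fintype.card_ne_zero
  let τ : C → ℂ := fun c => ∑ x, ε (c * (x * w * x⁻¹))
  have hψ : ∀ ψ : AddChar (Additive C) ℂ, ∑ c : C, ψ (Additive.ofMul c) * τ c = 0 := by
    intro ψ
    have hmem : ∀ c : C, ψ (Additive.ofMul c) ∈ V := by
      intro c
      refine mem_of_isIntegral V (isIntegral_of_pow_eq_one (orderOf_pos c) ?_)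
      rw [← AddChar.map_nsmul_eq_pow, ← ofMul_pow, pow_orderOf_eq_one, ofMul_one,
        AddChar.map_zero_eq_one]
    let f : G → ℂ := fun g => (Fintype.card C : ℂ)⁻¹ * ∑ c : C, ψ (Additive.ofMul c) * ε (c * g)
    have hf : ∀ g, f g ∈ V := fun g =>
      V.mul_mem _ _ hr (sum_mem (fun c _ => V.mul_mem _ _ (hmem c) (hV _)))
    have hff : ∀ g, ∑ y, f y * f (y⁻¹ * g) = f g := by
      intro g
      have h1 : ∀ c c' : C, ∑ y, ε (c * y) * ε (c' * (y⁻¹ * g)) = ε ((c' * c : C) * g) := by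
        intro c c'
        rw [Subgroup.coe_mul, mul_assoc, hε.comm, ← hid, conv,
          ← Equiv.sum_comp (Equiv.mulLeft (c : G)⁻¹)]
        refine Finset.sum_congr rfl (fun y _ => ?_)
        simp only [Equiv.coe_mulLeft, mul_inv_cancel_left]
        rw [hε.comm (c' : G)]
        congr 2; group
      have h2 : ∑ y, f y * f (y⁻¹ * g) = (Fintype.card C : ℂ)⁻¹ * ((Fintype.card C : ℂ)⁻¹ *
          ∑ c : C, ∑ c' : C, ψ (Additive.ofMul (c' * c)) * ε ((c' * c : C) * g)) := by
        simp only [f, ← h1, Finset.mul_sum, Finset.sum_mul]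
        rw [Finset.sum_comm]
        conv_rhs => rw [Finset.sum_comm]
        refine Finset.sum_congr rfl (fun c' _ => ?_)
        rw [Finset.sum_comm]
        refine Finset.sum_congr rfl (fun c _ => Finset.sum_congr rfl (fun y _ => ?_))
        rw [ofMul_mul, AddChar.map_add_eq_mul]
        ring
      have h3 : ∀ c : C, ∑ c' : C, ψ (Additive.ofMul (c' * c)) * ε ((c' * c : C) * g) =
          ∑ c' : C, ψ (Additive.ofMul c') * ε (c' * g) := fun c =>
        Equiv.sum_comp (Equiv.mulRight c) (fun c' : C => ψ (Additive.ofMul c') * ε (c' * g))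
      rw [h2]
      simp only [h3, Finset.sum_const, Finset.card_univ, nsmul_eq_mul, inv_mul_cancel_left₀ hr0, f]
    have h4 := proj_vanish_sing hp (fun g => ⟨f g, hf g⟩)
      (fun g => Subtype.ext (by simpa using hff g)) hw
    have h5 : ∑ x, f (x * w * x⁻¹) = 0 := by
      simpa using congrArg (fun z : V => (z : ℂ)) h4
    simp only [f] at h5
    rw [← Finset.mul_sum, Finset.sum_comm] at h5
    simp only [← Finset.mul_sum] at h5
    exact (mul_eq_zero.1 h5).resolve_left (inv_ne_zero hr0)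
  exact borth_fourier τ hψ ⟨v, Subgroup.mem_zpowers v⟩

variable {H : Subgroup G} {ε : MonoidAlgebra V G} {z : G → ℂ}

omit [Fintype G] in
lemma borth_cf_conj (hf : Fix H ε) {h : G} (hh : h ∈ H) (g : G) :
    cf ε (h * g * h⁻¹) = cf ε g := by
  have h1 := coeff_cjRep h⁻¹ g ε
  rw [hf _ (H.inv_mem hh), inv_inv] at h1
  rw [cf, cf, h1]

omit [Fintype G] in
lemma borth_cf_zero (hs : Supp H ε) {g : G} (hg : g ∉ H) : cf ε g = 0 := by
  have h1 : ε.coeff g = 0 := by
    by_contra e
    exact hg (hs g e)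
  rw [cf, h1]
  rfl

open Classical in
lemma borth_avg {F : G → ℂ} {c : ℂ} (h : ∀ x ∈ H, F x = c)
    (h0 : ∑ x, (if x ∈ H then F x else 0) = 0) : c = 0 := by
  have h1 : ∀ x, (if x ∈ H then F x else 0) = if x ∈ H then c else 0 := fun x => by
    split_ifs with e
    · exact h x e
    · rfl
  simp only [h1] at h0
  rw [← Finset.sum_filter, Finset.sum_const, nsmul_eq_mul] at h0
  refine (mul_eq_zero.1 h0).resolve_left ?_
  exact Nat.cast_ne_zero.2 (Finset.card_ne_zero.2
    ⟨1, Finset.mem_filter.2 ⟨Finset.mem_univ _, H.one_mem⟩⟩)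

open Classical in
lemma borth_key (hs : Supp H ε) (hz : ∀ h ∈ H, ∀ g ∈ H, z (h * g * h⁻¹) = z g) {s : G}
    (hsH : s ∈ H) (h0 : ∀ y ∈ H, z y ≠ 0 →
      ∑ x, (if x ∈ H then cf ε (s⁻¹ * (x * y * x⁻¹)) else 0) = 0) :
    ev z (single s 1 * ε) = 0 := by
  have hn : ∀ x ∈ H, ∀ y, y ∉ H → cf ε (s⁻¹ * (x * y * x⁻¹)) = 0 := fun x hx y hy =>
    borth_cf_zero hs (by
      rwa [H.mul_mem_cancel_left (H.inv_mem hsH), H.mul_mem_cancel_right (H.inv_mem hx),
        H.mul_mem_cancel_left hx])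
  refine borth_avg (H := H) (F := fun x => ∑ y, cf ε (s⁻¹ * (x * y * x⁻¹)) * z y)
    (fun x hx => ?_) ?_
  · rw [ev_single_mul', ← Equiv.sum_comp (MulAut.conj x).toEquiv
      (fun y => cf ε (s⁻¹ * y) * z y)]
    refine Finset.sum_congr rfl fun y _ => ?_
    change _ = cf ε (s⁻¹ * (x * y * x⁻¹)) * z (x * y * x⁻¹)
    by_cases hy : y ∈ H
    · rw [hz x hx y hy]
    · rw [hn x hx y hy, zero_mul, zero_mul]
  · have h1 : ∀ x, (if x ∈ H then ∑ y, cf ε (s⁻¹ * (x * y * x⁻¹)) * z y else 0) =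
        ∑ y, (if x ∈ H then cf ε (s⁻¹ * (x * y * x⁻¹)) else 0) * z y := fun x => by
      split_ifs <;> simp
    simp only [h1]
    rw [Finset.sum_comm]
    refine Finset.sum_eq_zero fun y _ => ?_
    rw [← Finset.sum_mul]
    by_cases hy : y ∈ H
    · by_cases e : z y = 0
      · rw [e, mul_zero]
      · rw [h0 y hy e, zero_mul]
    · rw [Finset.sum_eq_zero fun x _ => ?_, zero_mul]
      split_ifs with hx
      · exact hn x hx y hy
      · rfl

omit [Fintype G] [Fact p.Prime] in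
lemma borth_ord (h g : G) : orderOf (h * g * h⁻¹) = orderOf g :=
  (MulAut.conj h).orderOf_eq g

omit [Fintype G] [Fact p.Prime] in
lemma borth_reg_conj {h g : G} (e : z (h * g * h⁻¹) = z g) :
    Reg p z (h * g * h⁻¹) = Reg p z g := by
  by_cases hg : p ∣ orderOf g
  · rw [Reg_apply_sing _ hg, Reg_apply_sing _ (by rwa [borth_ord])]
  · rw [Reg_apply_reg _ hg, Reg_apply_reg _ (by rwa [borth_ord]), e]

open Classical in
/-- `block_orth_sing` in the group `↥H` for `cf (pull H.subtype ε)`. -/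
lemma orth_rel (hp : (p : ℂ) ∈ V.nonunits) (hε : ε * ε = ε) (hs : Supp H ε) (hf : Fix H ε)
    {v w : G} (hvH : v ∈ H) (hwH : w ∈ H) (hv : ¬ p ∣ orderOf v) (hw : p ∣ orderOf w) :
    ∑ x, (if x ∈ H then cf ε (v * (x * w * x⁻¹)) else 0) = 0 := by
  have h1 := block_orth_sing (G := H) hp (ε := fun h : H => cf ε h)
    (fun h g => borth_cf_conj hf h.2 g) (fun g => cf_mem _ _) (fun g => by
      have h2 := congrFun (cf_mul ε ε) g
      rw [hε, conv, trunc_sum (φ := H.subtype) H.subtype_injective] at h2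
      · exact h2.symm
      · intro y hy
        rw [borth_cf_zero hs (by rwa [Subgroup.range_subtype] at hy), zero_mul])
    (v := ⟨v, hvH⟩) (w := ⟨w, hwH⟩) (by rwa [Subgroup.orderOf_mk]) (by rwa [Subgroup.orderOf_mk])
  rw [trunc_sum (φ := H.subtype) H.subtype_injective, ← h1]
  · exact Finset.sum_congr rfl fun x _ => if_pos x.2
  · intro y hy
    exact if_neg (by rwa [Subgroup.range_subtype] at hy)

/-- Central idempotents are supported on `p`-regular elements (`orth_rel` with `v = 1`). -/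
lemma coeff_sing (hp : (p : ℂ) ∈ V.nonunits) (hε : ε * ε = ε) (hs : Supp H ε) (hf : Fix H ε)
    {w : G} (hw : p ∣ orderOf w) : ε.coeff w = 0 := by
  refine Subtype.ext (?_ : cf ε w = 0)
  by_cases hwH : w ∈ H
  · refine borth_avg (H := H) (fun x hx => ?_) (orth_rel hp hε hs hf H.one_mem hwH
      (by rw [orderOf_one, Nat.dvd_one]; exact (Fact.out : p.Prime).ne_one) hw)
    rw [one_mul, borth_cf_conj hf hx]
  · exact borth_cf_zero hs hwH

/-- `ev z' (s ε) = ∑ y ∈ H, ε (s⁻¹ y) z' y` for `z' = z - Reg z`; average over conjugation of `y`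
by `H`. -/
theorem orth_reg (hp : (p : ℂ) ∈ V.nonunits) (hε : ε * ε = ε) (hs : Supp H ε) (hf : Fix H ε)
    (hz : ∀ h ∈ H, ∀ g ∈ H, z (h * g * h⁻¹) = z g) {s : G} (hsH : s ∈ H)
    (hr : ¬ p ∣ orderOf s) : ev (Reg p z) (single s 1 * ε) = ev z (single s 1 * ε) := by
  have h1 : ev (z - Reg p z) (single s 1 * ε) = 0 := by
    refine borth_key hs (fun h hh g hg => ?_) hsH (fun y hy e => ?_)
    · rw [Pi.sub_apply, Pi.sub_apply, borth_reg_conj (hz h hh g hg), hz h hh g hg]
    · refine orth_rel hp hε hs hf (H.inv_mem hsH) hy (by rwa [orderOf_inv]) ?_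
      by_contra e'
      exact e (by rw [Pi.sub_apply, Reg_apply_reg _ e', sub_self])
  have h2 := ev_add_left (z - Reg p z) (Reg p z) (single s 1 * ε)
  rw [sub_add_cancel, h1, zero_add] at h2
  exact h2.symm

/-- As `orth_reg`, moving the conjugation to `w` with the class function `cf ε`. -/
theorem orth_sing (hp : (p : ℂ) ∈ V.nonunits) (hε : ε * ε = ε) (hs : Supp H ε) (hf : Fix H ε)
    (hz : ∀ h ∈ H, ∀ g ∈ H, z (h * g * h⁻¹) = z g) {w : G} (hwH : w ∈ H)
    (hw : p ∣ orderOf w) : ev (Reg p z) (single w 1 * ε) = 0 := by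
  classical
  refine borth_key hs (fun h hh g hg => borth_reg_conj (hz h hh g hg)) hwH (fun y hy e => ?_)
  have h1 := orth_rel hp hε hs hf hy (H.inv_mem hwH) (fun e' => e (Reg_apply_sing _ e'))
    (by rwa [orderOf_inv])
  refine Eq.trans ?_ h1
  rw [← Equiv.sum_comp (Equiv.inv G)]
  refine Finset.sum_congr rfl fun x _ => ?_
  rw [Equiv.inv_apply]
  by_cases hx : x ∈ H
  · rw [if_pos hx, if_pos (H.inv_mem hx), ← borth_cf_conj hf (H.mul_mem hy hx)]
    congr 1
    group
  · rw [if_neg hx, if_neg (fun e' => hx (H.inv_mem_iff.1 e'))]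

lemma reg_mem_CFs (hp : (p : ℂ) ∈ V.nonunits) (hε : ε * ε = ε) (hs : Supp H ε) (hf : Fix H ε)
    (hz : z ∈ CFs H ε) : Reg p z ∈ CFs H ε := by
  obtain ⟨h1, h2, h3⟩ := mem_CFs.1 hz
  refine mem_CFs.2 ⟨fun g hg => ?_, fun h hh g => borth_reg_conj (h2 h hh g), fun g hg => ?_⟩
  · by_cases e : p ∣ orderOf g
    · exact Reg_apply_sing _ e
    · rw [Reg_apply_reg _ e, h1 g hg]
  · by_cases e : p ∣ orderOf g
    · rw [Reg_apply_sing _ e, orth_sing hp hε hs hf (fun h hh g _ => h2 h hh g) hg e]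
    · rw [Reg_apply_reg _ e, orth_reg hp hε hs hf (fun h hh g _ => h2 h hh g) hg e, h3 g hg]

open Classical in
/-- The projection of a class function of `H` to a central idempotent. -/
lemma proj_mem_CFs (hε : ε * ε = ε) (hs : Supp H ε) (hf : Fix H ε)
    (hz : ∀ h ∈ H, ∀ g ∈ H, z (h * g * h⁻¹) = z g) :
    (fun g => if g ∈ H then ev z (single g 1 * ε) else 0) ∈ CFs H ε := by
  refine mem_CFs.2 ⟨fun g hg => if_neg hg, fun h hh g => ?_, fun g hg => ?_⟩
  · by_cases hg : g ∈ H
    · rw [if_pos hg, if_pos (H.mul_mem (H.mul_mem hh hg) (H.inv_mem hh)), ev_single_mul',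
        ev_single_mul', ← Equiv.sum_comp (MulAut.conj h).toEquiv]
      refine Finset.sum_congr rfl fun y _ => ?_
      change cf ε ((h * g * h⁻¹)⁻¹ * (h * y * h⁻¹)) * z (h * y * h⁻¹) = _
      rw [show (h * g * h⁻¹)⁻¹ * (h * y * h⁻¹) = h * (g⁻¹ * y) * h⁻¹ by group,
        borth_cf_conj hf hh]
      by_cases hy : y ∈ H
      · rw [hz h hh y hy]
      · rw [borth_cf_zero hs (by rwa [H.mul_mem_cancel_left (H.inv_mem hg)]), zero_mul, zero_mul]
    · rw [if_neg hg, if_neg (by
        rwa [H.mul_mem_cancel_right (H.inv_mem hh), H.mul_mem_cancel_left hh])]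
  · rw [ev_congr ((supp_single hg 1).mul hs) (y := fun g => ev z (single g 1 * ε))
      (fun g hg => if_pos hg), ev_ev, mul_assoc, hε, if_pos hg]

end Pool.Agent.Lib.MP_b6945b_al.Bi
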