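import Pool.Agent.Lib.MP_b6945b_al.Bi.BBlk
import Pool.Agent.Lib.MP_b6945b_al.Bi.BOrth

set_option autoImplicit false

/-!
Additivity of the number of Brauer characters.
-/

namespace Pool.Agent.Lib.MP_b6945b_al.Bi

open St IsLocalRing Finset
open MonoidAlgebra (single)

variable {G : Type} [Group G] [Fintype G] {V : ValuationSubring ℂ} {p : ℕ} [Fact p.Prime]

variable {H : Subgroup G} {a b ε : MonoidAlgebra V G}

lemma mem_map_reg (hp : (p : ℂ) ∈ V.nonunits) (hε : ε * ε = ε) (hs : Supp H ε) (hf : Fix H ε)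
    {x : G → ℂ} : x ∈ (CFs H ε).map (Reg p) ↔ x ∈ CFs H ε ∧ Reg p x = x := by
  refine ⟨?_, fun h => ⟨x, h.1, h.2⟩⟩
  rintro ⟨z, hz, rfl⟩
  refine ⟨reg_mem_CFs hp hε hs hf hz, funext fun g => ?_⟩
  by_cases e : p ∣ orderOf g
  · rw [Reg_apply_sing _ e, Reg_apply_sing _ e]
  · rw [Reg_apply_reg _ e]

omit [Fact p.Prime] in
lemma lL_zero (H : Subgroup G) : lL p H (0 : MonoidAlgebra V G) = 0 := by
  have h1 : CFs H (0 : MonoidAlgebra V G) = ⊥ := by
    refine eq_bot_iff.2 fun x hx => (Submodule.mem_bot ℂ).2 (funext fun g => ?_)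
    obtain ⟨h1, -, h3⟩ := mem_CFs.1 hx
    by_cases hg : g ∈ H
    · rw [← h3 g hg, mul_zero, ev_zero]
      rfl
    · exact h1 g hg
  rw [lL, h1, Submodule.map_bot, finrank_bot]

omit [Fact p.Prime] in
lemma badd_ev {x : G → ℂ} (hx : x ∈ CFs H a) (hb : Supp H b) : ev x b = ev x (b * a) := by
  rw [← ev_ev]
  exact ev_congr hb fun g hg => (hx.2.2 g hg).symm

omit [Fact p.Prime] in
lemma badd_le (hb : Supp H b) (hba : b * a = 0) : CFs H a ≤ CFs H (a + b) := by
  intro x hx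
  refine mem_CFs.2 ⟨hx.1, hx.2.1, fun g hg => ?_⟩
  rw [mul_add, ev_add, hx.2.2 g hg, badd_ev hx ((supp_single hg 1).mul hb), mul_assoc, hba,
    mul_zero, ev_zero, add_zero]

/-- With `W ε = (CFs H ε).map (Reg p)`: `W (a + b) = W a ⊔ W b` (`proj_mem_CFs`, `orth_sing`) and
`W a ⊓ W b = ⊥` (`ev_ev`, `ev_congr`); `Submodule.finrank_sup_add_finrank_inf_eq`. -/
lemma lL_add (hp : (p : ℂ) ∈ V.nonunits) (ha : a * a = a) (hsa : Supp H a) (hfa : Fix H a)
    (hb : b * b = b) (hsb : Supp H b) (hfb : Fix H b) (hab : a * b = 0) :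
    lL p H (a + b) = lL p H a + lL p H b := by
  have hba : b * a = 0 := by rw [← hfa.comm hsb, hab]
  have h1 : CFs H (a + b) = CFs H a ⊔ CFs H b := by
    classical
    refine le_antisymm (fun x hx => ?_) (sup_le (badd_le hsb hba) ?_)
    · obtain ⟨h1, h2, h3⟩ := mem_CFs.1 hx
      refine Submodule.mem_sup.2 ⟨_, proj_mem_CFs ha hsa hfa fun h hh g _ => h2 h hh g, _,
        proj_mem_CFs hb hsb hfb fun h hh g _ => h2 h hh g, funext fun g => ?_⟩
      rw [Pi.add_apply]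
      by_cases hg : g ∈ H
      · rw [if_pos hg, if_pos hg, ← ev_add, ← mul_add, h3 g hg]
      · rw [if_neg hg, if_neg hg, add_zero, h1 g hg]
    · rw [add_comm]
      exact badd_le hsa hab
  have h2 : (CFs H a).map (Reg p) ⊓ (CFs H b).map (Reg p) = ⊥ := by
    refine eq_bot_iff.2 fun x hx => (Submodule.mem_bot ℂ).2 (funext fun g => ?_)
    have h3 := ((mem_map_reg hp ha hsa hfa).1 hx.1).1
    have h4 := ((mem_map_reg hp hb hsb hfb).1 hx.2).1
    by_cases hg : g ∈ H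
    · rw [← h3.2.2 g hg, badd_ev h4 ((supp_single hg 1).mul hsa), mul_assoc, hab, mul_zero,
        ev_zero]
      rfl
    · exact h3.1 g hg
  rw [lL, lL, lL, h1, Submodule.map_sup, ← Submodule.finrank_sup_add_finrank_inf_eq, h2,
    finrank_bot, add_zero]

lemma lL_sum (hp : (p : ℂ) ∈ V.nonunits) {s : Finset (MonoidAlgebra V G)}
    (hs : ∀ β ∈ s, HB H β) : lL p H (∑ β ∈ s, β) = ∑ β ∈ s, lL p H β := by
  induction s using Finset.cons_induction with
  | empty => rw [Finset.sum_empty, Finset.sum_empty, lL_zero]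
  | cons β s hβ ih =>
    have h1 := hs β (Finset.mem_cons_self _ _)
    have h2 : ∀ γ ∈ s, HB H γ := fun γ hγ => hs γ (Finset.mem_cons_of_mem hγ)
    obtain ⟨h3, h4, h5⟩ := sum_blk_idem h2
    rw [Finset.sum_cons, Finset.sum_cons, lL_add hp h1.idem h1.supp h1.fix h3 h4 h5, ih h2]
    rw [Finset.mul_sum]
    exact Finset.sum_eq_zero fun γ hγ => h1.orth (h2 γ hγ) fun e => hβ (e ▸ hγ)

open Classical in
lemma lL_eq_sum (hp : (p : ℂ) ∈ V.nonunits) (hε : ε * ε = ε) (hs : Supp H ε) (hf : Fix H ε) :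
    lL p H ε = ∑ β ∈ (blk V H).filter (fun β => β * ε = β), lL p H β := by
  rw [← lL_sum hp fun β hβ => mem_blk.1 (Finset.mem_filter.1 hβ).1, ← idem_eq_sum hε hs hf]

omit [Fact p.Prime] in
lemma cf_expand (I : IrrData G) {x : G → ℂ} (hx : IsCF x) :
    x = ∑ j, ((Fintype.card G : ℂ)⁻¹ * ∑ g, x g * I.χ j g⁻¹) • I.χ j := by
  funext g
  have h1 : IsCF fun y : G => x y⁻¹ := fun h y => by
    change x _ = x _
    rw [show (h * y * h⁻¹)⁻¹ = h * y⁻¹ * h⁻¹ by group, hx]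
  have h2 := congrFun (I.zf_om h1) g⁻¹
  rw [inv_inv] at h2
  rw [← h2, IrrData.zf, Finset.sum_apply]
  refine Finset.sum_congr rfl fun j _ => ?_
  rw [inv_inv, IrrData.om, ← Equiv.sum_comp (Equiv.inv G)]
  simp only [Equiv.inv_apply, inv_inv, Pi.smul_apply, smul_eq_mul]
  have := I.d_ne j
  field_simp

omit [Fact p.Prime] in
/-- `ev_chi_central`, `IrrData.om_zf`. -/
lemma ev_chi_block {I : IrrData G} {i₀ : Fin I.n} {e : MonoidAlgebra V G}
    (he : IsBlockIdem I i₀ e) (j : Fin I.n) (a : MonoidAlgebra V G) :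
    ev (I.χ j) (a * e) = ind (I.Bl V i₀) j * ev (I.χ j) a := by
  rw [ev_chi_central I j a (fixedBy_top_iff.2 he.isBlock.cent), he, I.om_zf]

omit [Fact p.Prime] in
lemma chi_mem_CFs {I : IrrData G} {i₀ : Fin I.n} {e : MonoidAlgebra V G}
    (he : IsBlockIdem I i₀ e) {j : Fin I.n} (hj : I.Bl V i₀ j) : I.χ j ∈ CFs ⊤ e := by
  refine mem_CFs.2 ⟨fun g hg => absurd (Subgroup.mem_top g) hg, fun h _ g => I.χ_conj j h g,
    fun g _ => ?_⟩
  rw [ev_chi_block he, ind_pos hj, one_mul, ev_single]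

omit [Fact p.Prime] in
open Classical in
lemma cfs_expand {I : IrrData G} {i₀ : Fin I.n} {e : MonoidAlgebra V G}
    (he : IsBlockIdem I i₀ e) {x : G → ℂ} (hx : x ∈ CFs ⊤ e) :
    x = ∑ j : {j // I.Bl V i₀ j},
      ((Fintype.card G : ℂ)⁻¹ * ∑ g, x g * I.χ j g⁻¹) • I.χ j := by
  obtain ⟨-, h2, h3⟩ := mem_CFs.1 hx
  have h4 := cf_expand I (x := x) fun h g => h2 h trivial g
  obtain ⟨c, hc⟩ : ∃ c : Fin I.n → ℂ,
      c = fun j => (Fintype.card G : ℂ)⁻¹ * ∑ g, x g * I.χ j g⁻¹ := ⟨_, rfl⟩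
  have h5 : x = ∑ j, c j • I.χ j := hc ▸ h4
  have h6 : x = ∑ j : {j // I.Bl V i₀ j}, c j • I.χ j := by
    funext g
    rw [← Finset.sum_subtype (univ.filter (I.Bl V i₀)) (by simp) fun j => c j • I.χ j,
      Finset.sum_filter, ← h3 g trivial, Finset.sum_apply]
    conv_lhs => rw [h5]
    rw [ev_sum_left]
    refine Finset.sum_congr rfl fun j _ => ?_
    rw [ev_smul_left, ev_chi_block he, ev_single]
    by_cases hj : I.Bl V i₀ j
    · rw [ind_pos hj, if_pos hj, one_mul]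
      rfl
    · rw [ind_neg hj, if_neg hj, zero_mul, mul_zero]
      rfl
  rw [hc] at h6
  exact h6

omit [Fact p.Prime] in
/-- `IrrData.orth`. -/
lemma chi_indep (I : IrrData G) : LinearIndependent ℂ I.χ := by
  refine Fintype.linearIndependent_iff.2 fun c hc i => ?_
  have h1 : ∑ g, I.χ i g⁻¹ * (∑ j, c j • I.χ j) g = 0 := by
    rw [hc]
    simp
  simp only [Finset.sum_apply, Pi.smul_apply, smul_eq_mul, Finset.mul_sum] at h1
  rw [Finset.sum_comm] at h1
  simp only [mul_left_comm _ (c _), ← Finset.mul_sum, I.orth, mul_ite, mul_zero,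
    Finset.sum_ite_eq', Finset.mem_univ, if_true] at h1
  exact (mul_eq_zero.1 h1).resolve_right IrrData.card_ne

omit [Fact p.Prime] in
open Classical in
lemma kL_top {I : IrrData G} {i₀ : Fin I.n} {e : MonoidAlgebra V G} (he : IsBlockIdem I i₀ e) :
    kL ⊤ e = (univ.filter (I.Bl V i₀)).card := by
  have h1 : CFs ⊤ e = Submodule.span ℂ (Set.range fun j : {j // I.Bl V i₀ j} => I.χ j) := by
    refine le_antisymm (fun x hx => ?_) (Submodule.span_le.2 ?_)
    · rw [cfs_expand he hx]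
      exact Submodule.sum_mem _ fun j _ =>
        Submodule.smul_mem _ _ (Submodule.subset_span ⟨j, rfl⟩)
    · rintro _ ⟨j, rfl⟩
      exact chi_mem_CFs he j.2
  rw [kL, h1, ← Fintype.card_subtype]
  exact finrank_span_eq_card ((chi_indep I).comp _ Subtype.val_injective)

/-- A block of defect zero has one character.  `blkF_trace` and `blkF_exact` with `D = ⊥` give
`β = rtr ⊥ ⊤ a`; for `i` in the block `d i = ev χ β = |G| ev χ a` (`ev_rtr`, `ev_chi_eq_om`,
`blkF_om_self`), so `d i / |G| ∈ V` (`ev_chi_mem`) and `ind (· = i) ∈ I.Lam V`; hence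
`Bl i j` forces `j = i`. -/
lemma kL_le_one (hp : (p : ℂ) ∈ V.nonunits) {β : MonoidAlgebra V G} (h : HB ⊤ β)
    (hm : MaxR p ⊤ ⊥ β) : kL ⊤ β ≤ 1 := by
  classical
  obtain ⟨I⟩ := exists_irrData G
  obtain ⟨i₀, he⟩ := h.exists_blockIdem I
  have hc := he.isBlock.cent
  have hs : ∀ a : MonoidAlgebra V G, SuppCent ((⊥ : Subgroup G) : Set G) a := fun a =>
    supp_Cz_iff.1 (Cz_bot (G := G) ▸ supp_top a)
  obtain ⟨a, ha1, ha2⟩ := blkF_trace hp (D := ⊥) IsPGroup.of_bot hc (hs β) fun y hy S hS _ hy' => by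
    have h1 := hm y hy S le_top hS hy'
    rw [Subgroup.card_bot] at h1
    exact Subgroup.eq_bot_of_card_le S h1
  obtain ⟨a', -, h1⟩ := blkF_exact h.idem hc (hs β) ha1 ha2
  have h2 : ind (· = i₀) ∈ I.Lam V := by
    intro g
    have h3 := ev_chi_eq_om I i₀ β
    rw [blkF_om_self he, mul_one, h1, ev_rtr (isCF_chi I i₀) le_top, Subgroup.relIndex_top_right,
      Subgroup.index_bot, Nat.card_eq_fintype_card] at h3
    rw [IrrData.zf, Finset.sum_eq_single i₀ (fun j _ hj => by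
      rw [ind_neg (S := (· = i₀)) hj, zero_mul]) (by simp), ind_pos (S := (· = i₀)) rfl, one_mul,
      ← h3, mul_assoc, mul_div_cancel_left₀ _ IrrData.card_ne]
    exact V.mul_mem _ _ (ev_chi_mem I i₀ a') (mem_of_isIntegral V (I.χ_isIntegral i₀ _))
  rw [kL_top he]
  refine Finset.card_le_one.2 fun i hi j hj => ?_
  have h4 : ∀ k ∈ univ.filter (I.Bl V i₀), k = i₀ := fun k hk => by
    by_contra e
    have h5 := (Finset.mem_filter.1 hk).2 _ h2
    rw [ind_neg (S := (· = i₀)) e, ind_pos (S := (· = i₀)) rfl, zero_sub] at h5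
    exact one_not_mem_nonunits V (by simpa using neg_mem h5)
  rw [h4 i hi, h4 j hj]

end Pool.Agent.Lib.MP_b6945b_al.Bi
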