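import Pool.Agent.Lib.MP_b6945b_al.Bi.BAlg0

set_option autoImplicit false

/-!
Evaluation of functions on the group ring and the Brauer homomorphism.
-/

namespace Pool.Agent.Lib.MP_b6945b_al.Bi

open St IsLocalRing Finset
open MonoidAlgebra (single)

variable {G : Type} [Group G] [Fintype G] {V : ValuationSubring ℂ} {p : ℕ}
  {H P Q : Subgroup G} {a b : MonoidAlgebra V G} {x y : G → ℂ}

lemma ev_zero (x : G → ℂ) : ev x (0 : MonoidAlgebra V G) = 0 := by
  simp [ev, cf]

lemma ev_add (x : G → ℂ) (a b : MonoidAlgebra V G) : ev x (a + b) = ev x a + ev x b := by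
  simp [ev, cf, add_mul, Finset.sum_add_distrib]

lemma ev_sub (x : G → ℂ) (a b : MonoidAlgebra V G) : ev x (a - b) = ev x a - ev x b := by
  simp [ev, cf, sub_mul, Finset.sum_sub_distrib]

lemma ev_smul (x : G → ℂ) (v : V) (a : MonoidAlgebra V G) : ev x (v • a) = v * ev x a := by
  simp [ev, cf, Finset.mul_sum, mul_assoc]

lemma ev_sum (x : G → ℂ) {ι : Type} (s : Finset ι) (f : ι → MonoidAlgebra V G) :
    ev x (∑ i ∈ s, f i) = ∑ i ∈ s, ev x (f i) := by
  classical
  induction s using Finset.induction_on with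
  | empty => rw [Finset.sum_empty, Finset.sum_empty, ev_zero]
  | insert i s hi ih => rw [Finset.sum_insert hi, Finset.sum_insert hi, ev_add, ih]

lemma ev_single (x : G → ℂ) (g : G) : ev x (single g 1 : MonoidAlgebra V G) = x g := by
  classical
  rw [ev, Finset.sum_eq_single g]
  · simp [cf]
  · intro y _ hy
    simp [cf, hy]
  · exact fun h => absurd (Finset.mem_univ g) h

lemma ev_add_left (x y : G → ℂ) (a : MonoidAlgebra V G) : ev (x + y) a = ev x a + ev y a := by
  simp [ev, mul_add, Finset.sum_add_distrib]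

lemma ev_smul_left (c : ℂ) (x : G → ℂ) (a : MonoidAlgebra V G) : ev (c • x) a = c * ev x a := by
  simp [ev, Finset.mul_sum, mul_left_comm]

lemma ev_sum_left {ι : Type} (s : Finset ι) (f : ι → G → ℂ) (a : MonoidAlgebra V G) :
    ev (∑ i ∈ s, f i) a = ∑ i ∈ s, ev (f i) a := by
  simp only [ev, Finset.sum_apply, Finset.mul_sum]
  exact Finset.sum_comm

lemma ev_congr (h : Supp H a) (hxy : ∀ g ∈ H, x g = y g) : ev x a = ev y a := by
  refine Finset.sum_congr rfl fun g _ => ?_
  by_cases e : a.coeff g = 0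
  · simp [cf, e]
  · rw [hxy g (h g e)]

lemma ev_single_mul (x : G → ℂ) (g : G) (a : MonoidAlgebra V G) :
    ev x (single g 1 * a) = ev (fun y => x (g * y)) a := by
  refine (Fintype.sum_equiv (Equiv.mulLeft g) _ _ fun y => ?_).symm
  simp [cf]

lemma ev_single_mul' (x : G → ℂ) (g : G) (a : MonoidAlgebra V G) :
    ev x (single g 1 * a) = ∑ y, cf a (g⁻¹ * y) * x y := by
  refine Finset.sum_congr rfl fun y _ => ?_
  simp [cf]

lemma ev_ev (x : G → ℂ) (a b : MonoidAlgebra V G) :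
    ev (fun g => ev x (single g 1 * b)) a = ev x (a * b) := by
  simp only [ev_single_mul']
  simp only [ev, cf_mul, conv, Finset.mul_sum, Finset.sum_mul, mul_assoc]
  exact Finset.sum_comm

lemma ev_cj (x : G → ℂ) (g : G) (a : MonoidAlgebra V G) :
    ev x (cjRep V G g a) = ev (fun y => x (g * y * g⁻¹)) a := by
  refine (Fintype.sum_equiv (MulAut.conj g).toEquiv _ _ fun y => ?_).symm
  simp [cf, coeff_cjRep, mul_assoc]

lemma ev_cj_cf (hx : IsCF x) (g : G) (a : MonoidAlgebra V G) :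
    ev x (cjRep V G g a) = ev x a := by
  rw [ev_cj]
  exact congrArg (ev · a) (funext fun y => hx g y)

lemma ev_comm (hx : IsCF x) (a b : MonoidAlgebra V G) : ev x (a * b) = ev x (b * a) := by
  rw [← ev_ev, ← ev_ev]
  simp only [ev_single_mul]
  simp only [ev, Finset.mul_sum]
  rw [Finset.sum_comm]
  refine Finset.sum_congr rfl fun g _ => Finset.sum_congr rfl fun h _ => ?_
  rw [hx.comm, mul_left_comm]

lemma ev_rtr (hx : IsCF x) {S T : Subgroup G} (hST : S ≤ T) (a : MonoidAlgebra V G) :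
    ev x (rtr (cjRep V G) S T a) = S.relIndex T * ev x a := by
  have h1 := rtr_of_fixed (ρ := Representation.trivial ℂ G ℂ) hST (m := ev x a) fun _ _ => rfl
  rw [tr_apply, nsmul_eq_mul] at h1
  rw [tr_apply, ev_sum, ← h1]
  refine Finset.sum_congr rfl fun q _ => ?_
  split_ifs
  · exact ev_cj_cf hx _ a
  · exact ev_zero x

lemma isCF_chi (I : IrrData G) (i : Fin I.n) : IsCF (I.χ i) := by
  exact I.χ_conj i

/-- The representation extended to the group ring. -/
lemma exists_rep (I : IrrData G) (i : Fin I.n) :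
    ∃ Φ : MonoidAlgebra V G →+* Matrix (Fin (I.d i)) (Fin (I.d i)) ℂ,
      (∀ a, Φ a = ∑ g, cf a g • I.ρ i g) ∧ (∀ g, Φ (single g 1) = I.ρ i g) ∧
      ∀ a, ev (I.χ i) a = (Φ a).trace := by
  classical
  have h1 : ∀ g : G, ∑ y, cf (single g 1 : MonoidAlgebra V G) y • I.ρ i y = I.ρ i g := by
    intro g
    rw [Finset.sum_eq_single g]
    · simp [cf]
    · intro y _ hy
      simp [cf, hy]
    · exact fun h => absurd (Finset.mem_univ g) h
  refine ⟨{ toFun := fun a => ∑ g, cf a g • I.ρ i g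
            map_one' := by rw [MonoidAlgebra.one_def, h1, map_one]
            map_mul' := fun a b => by rw [cf_mul, I.fourier_conv']
            map_zero' := by simp [cf]
            map_add' := fun a b => by simp [cf, add_smul, Finset.sum_add_distrib] },
    fun _ => rfl, h1, fun a => ?_⟩
  simp [ev, IrrData.χ, Matrix.trace_sum]

lemma ev_chi_eq_om (I : IrrData G) (i : Fin I.n) (a : MonoidAlgebra V G) :
    ev (I.χ i) a = I.d i * I.om i (cf a) := by
  rw [IrrData.om, mul_div_cancel₀ _ (I.d_ne i), ev]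

lemma ev_chi_central (I : IrrData G) (i : Fin I.n) (a : MonoidAlgebra V G)
    {z : MonoidAlgebra V G} (hz : Fix ⊤ z) :
    ev (I.χ i) (a * z) = I.om i (cf z) * ev (I.χ i) a := by
  obtain ⟨Φ, h1, -, h3⟩ := exists_rep (V := V) I i
  rw [h3, h3, map_mul, h1 z, I.fourier_cf (isCF_cf_iff.2 (fixedBy_top_iff.1 hz)), Matrix.mul_smul,
    mul_one, Matrix.trace_smul, smul_eq_mul]

lemma ev_chi_mem (I : IrrData G) (i : Fin I.n) (a : MonoidAlgebra V G) : ev (I.χ i) a ∈ V := by
  exact sum_mem fun g _ => V.mul_mem _ _ (cf_mem a g) (mem_of_isIntegral V (I.χ_isIntegral i g))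

open ComplexOrder in
lemma balg_trace_conj {n : ℕ} (ρ : G →* Matrix (Fin n) (Fin n) ℂ) (g : G) :
    (starRingEnd ℂ) (ρ g).trace = (ρ g⁻¹).trace := by
  classical
  have h1 : (∑ h, (ρ h).conjTranspose * ρ h).PosDef := by
    rw [← Finset.add_sum_erase _ _ (Finset.mem_univ 1), map_one, Matrix.conjTranspose_one, one_mul]
    exact Matrix.PosDef.one.add_posSemidef
      (Matrix.posSemidef_sum _ fun h _ => Matrix.posSemidef_conjTranspose_mul_self _)
  have h2 : (ρ g).conjTranspose * ∑ h, (ρ h).conjTranspose * ρ h =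
      (∑ h, (ρ h).conjTranspose * ρ h) * ρ g⁻¹ := by
    rw [Finset.mul_sum, Finset.sum_mul]
    refine Fintype.sum_equiv (Equiv.mulRight g) _ _ fun h => ?_
    rw [Equiv.coe_mulRight, mul_assoc, ← map_mul, mul_inv_cancel_right, map_mul,
      Matrix.conjTranspose_mul, mul_assoc]
  obtain ⟨u, hu⟩ := h1.isUnit
  rw [← hu] at h2
  have h3 : (ρ g).conjTranspose = u * ρ g⁻¹ * u⁻¹.val := by
    rw [← h2, mul_assoc, Units.mul_inv, mul_one]
  rw [starRingEnd_apply, ← Matrix.trace_conjTranspose, h3, Matrix.trace_units_conj]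

/-- The eigenvalues are roots of unity (or: average a Hermitian form; or
`Matrix.trace` of a diagonalisable matrix of finite order via the eigenprojections
`E_ζ = n⁻¹ ∑ ζ^-j ρ(g)^j`, whose traces are real as they are ranks). -/
lemma chi_conj (I : IrrData G) (i : Fin I.n) (g : G) :
    (starRingEnd ℂ) (I.χ i g) = I.χ i g⁻¹ := by
  exact balg_trace_conj (I.ρ i) g

lemma bb_eq_trc (a : MonoidAlgebra V G) :
    bb P a = trc (ResidueField V) (Cz P) (toRes V G a) := by
  exact brT_eq_trc _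

lemma supp_bb (P : Subgroup G) (a : MonoidAlgebra V G) : Supp (Cz P) (bb P a) := by
  rw [bb_eq_trc]
  exact supp_trc _ _

lemma Supp.bb (h : Supp H a) : Supp (H ⊓ Cz P) (bb P a) := by
  refine Supp.inf (fun g hg => h.toRes g fun e => hg ?_) (supp_bb P a)
  rw [bb_eq_trc, coeff_trc, e, ite_self]

lemma Fix.bb (h : Fix H a) (hH : H ≤ Nz P) : Fix H (bb P a) := by
  rw [bb_eq_trc]
  exact h.toRes.trc (hH.trans (Nz_le_Nz_Cz P))

lemma bb_zero (P : Subgroup G) : bb P (0 : MonoidAlgebra V G) = 0 := by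
  rw [bb, map_zero, map_zero]

lemma bb_one (P : Subgroup G) : bb P (1 : MonoidAlgebra V G) = 1 := by
  rw [bb_eq_trc, map_one, trc_of_supp (supp_one _)]

lemma bb_add (P : Subgroup G) (a b : MonoidAlgebra V G) : bb P (a + b) = bb P a + bb P b := by
  simp only [bb, map_add]

lemma bb_sub (P : Subgroup G) (a b : MonoidAlgebra V G) : bb P (a - b) = bb P a - bb P b := by
  simp only [bb, map_sub]

lemma bb_smul (P : Subgroup G) (v : V) (a : MonoidAlgebra V G) :
    bb P (v • a) = residue V v • bb P a := by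
  rw [bb, bb, (red_toRes G).smul, map_smul]

lemma bb_sum (P : Subgroup G) {ι : Type} (s : Finset ι) (f : ι → MonoidAlgebra V G) :
    bb P (∑ i ∈ s, f i) = ∑ i ∈ s, bb P (f i) := by
  simp only [bb, map_sum]

lemma bb_of_supp (h : Supp (Cz P) a) : bb P a = toRes V G a := by
  rw [bb_eq_trc, trc_of_supp h.toRes]

lemma bb_bot (a : MonoidAlgebra V G) : bb ⊥ a = toRes V G a := by
  exact bb_of_supp (Cz_bot (G := G) ▸ supp_top a)

lemma bb_cj (g : G) (P : Subgroup G) (a : MonoidAlgebra V G) :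
    bb (cg g P) (cjRep V G g a) = cjRep (ResidueField V) G g (bb P a) := by
  rw [bb_eq_trc, bb_eq_trc, toRes_cjB, Cz_cg, trc_cj]

lemma brT_bb (h : P ≤ Q) (a : MonoidAlgebra V G) :
    brT (ResidueField V) (Q : Set G) (bb P a) = bb Q a := by
  exact brT_brT (SetLike.coe_subset_coe.2 h) _

lemma bb_mul_left (h : Supp (Cz P) a) (b : MonoidAlgebra V G) :
    bb P (a * b) = toRes V G a * bb P b := by
  rw [bb_eq_trc, bb_eq_trc, map_mul, trc_mul_left h.toRes]

lemma bb_mul_right (h : Supp (Cz P) a) (b : MonoidAlgebra V G) :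
    bb P (b * a) = bb P b * toRes V G a := by
  rw [bb_eq_trc, bb_eq_trc, map_mul, trc_mul_right h.toRes]

lemma bb_ne_zero_iff : bb P a ≠ 0 ↔ ∃ y ∈ Cz P, a.coeff y ∉ maximalIdeal V := by
  refine ⟨fun h => ?_, fun ⟨y, hy, hy'⟩ => bil_ne (mem_Cz.1 hy) hy'⟩
  obtain ⟨y, hy, hy'⟩ := bil_ex h
  exact ⟨y, mem_Cz.2 hy, hy'⟩

lemma bb_eq_zero_iff : bb P a = 0 ↔ InMax V (brT V (P : Set G) a) := by
  rw [bb, ← toRes_brT, toRes_eq_zero_iff]

lemma Le.cj {β c : MonoidAlgebra V G} (h : Le P β c) (g : G) :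
    Le (cg g P) (cjRep V G g β) (cjRep V G g c) := by
  unfold Le at h ⊢
  rw [bb_cj, toRes_cjB, ← cjRep_mul, h]

/-- Translation to the form used in `BLib`. -/
lemma le_iff_inMax {β c : MonoidAlgebra V G} (hc : Supp (Cz P) c) :
    Le P β c ↔ InMax V (brT V (P : Set G) (β * c - c)) := by
  rw [← bb_eq_zero_iff, bb_sub, bb_of_supp hc, sub_eq_zero, Le, bb_mul_right hc]

variable [Fact p.Prime]

lemma bb_mul (hp : (p : ℂ) ∈ V.nonunits) (hP : IsPGroup p P) (ha : Fix P a) (hb : Fix P b) :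
    bb P (a * b) = bb P a * bb P b := by
  rw [bb, map_mul]
  exact frpg_brT_mul Fact.out (bil_pk hp) hP ha.toRes hb.toRes

lemma balg_bb_pow (hp : (p : ℂ) ∈ V.nonunits) (hP : IsPGroup p P) (ha : Fix P a) (n : ℕ) :
    bb P (a ^ n) = bb P a ^ n := by
  induction n with
  | zero => rw [pow_zero, pow_zero, bb_one]
  | succ n ih =>
    rw [pow_succ, pow_succ, bb_mul hp hP (fun g hg => by rw [frpg_cj_pow, ha g hg]) ha, ih]

lemma bb_nil (hp : (p : ℂ) ∈ V.nonunits) (hP : IsPGroup p P) (ha : Fix P a) (h : NilR V a) :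
    IsNilpotent (bb P a) := by
  obtain ⟨n, hn⟩ := h
  refine ⟨n, ?_⟩
  rw [← balg_bb_pow hp hP ha, bb, toRes_eq_zero_iff.2 hn, map_zero]

lemma bb_rtr (hp : (p : ℂ) ∈ V.nonunits) (hP : IsPGroup p P) (h : Q < P) (ha : Fix Q a) :
    bb P (rtr (cjRep V G) Q P a) = 0 := by
  exact bb_eq_zero_iff.2 (brT_rtr Fact.out (blkF_pmem hp) hP h ha)

end Pool.Agent.Lib.MP_b6945b_al.Bi
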