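import Pool.Agent.Lib.MP_b6945b_al.Bi.BPP

set_option autoImplicit false

/-!
Elementary algebra of supports and fixed points.
-/

namespace Pool.Agent.Lib.MP_b6945b_al.Bi

open St IsLocalRing Finset
open MonoidAlgebra (single)

section ring
variable {R G : Type} [CommRing R] [Group G] {H K P S : Subgroup G} {a b : MonoidAlgebra R G}

lemma supp_Cz_iff : Supp (Cz P) a ↔ SuppCent (P : Set G) a := by
  exact forall_congr' fun _ => imp_congr_right fun _ => frpg_cent.symm

lemma Supp.mono (h : Supp H a) (hHK : H ≤ K) : Supp K a := by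
  exact fun x hx => hHK (h x hx)

lemma supp_top (a : MonoidAlgebra R G) : Supp ⊤ a := by
  exact fun _ _ => Subgroup.mem_top _

lemma Supp.inf (h : Supp H a) (h' : Supp K a) : Supp (H ⊓ K) a := by
  exact fun x hx => ⟨h x hx, h' x hx⟩

lemma supp_zero (H : Subgroup G) : Supp H (0 : MonoidAlgebra R G) := by
  exact fun x hx => absurd (by simp) hx

lemma supp_single {g : G} (hg : g ∈ H) (r : R) : Supp H (single g r) := by
  intro x hx
  by_cases e : x = g
  · rwa [e]
  · exact absurd (by simp [Finsupp.single_eq_of_ne e]) hx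

lemma supp_one (H : Subgroup G) : Supp H (1 : MonoidAlgebra R G) := by
  exact supp_single H.one_mem 1

lemma Supp.add (h : Supp H a) (h' : Supp H b) : Supp H (a + b) := by
  intro x hx
  by_cases e : a.coeff x = 0
  · exact h' x (by simpa [e] using hx)
  · exact h x e

lemma Supp.sub (h : Supp H a) (h' : Supp H b) : Supp H (a - b) := by
  intro x hx
  by_cases e : a.coeff x = 0
  · exact h' x (by simpa [e] using hx)
  · exact h x e

lemma Supp.smul (h : Supp H a) (r : R) : Supp H (r • a) := by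
  exact fun x hx => h x fun e => hx (by simp [e])

lemma Supp.sum {ι : Type} (s : Finset ι) {f : ι → MonoidAlgebra R G} (h : ∀ i ∈ s, Supp H (f i)) :
    Supp H (∑ i ∈ s, f i) := by
  induction s using Finset.cons_induction with
  | empty => exact supp_zero H
  | cons i s hi ih =>
    rw [Finset.sum_cons]
    exact (h i (Finset.mem_cons_self _ _)).add (ih fun j hj => h j (Finset.mem_cons_of_mem hj))

lemma Supp.cj (h : Supp H a) (g : G) : Supp (cg g H) (cjRep R G g a) := by
  exact fun x hx => mem_cg.2 (h _ (by rwa [coeff_cjRep] at hx))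

lemma Fix.mono (h : Fix H a) (hKH : K ≤ H) : Fix K a := by
  exact fun g hg => h g (hKH hg)

lemma Fix.mul (h : Fix H a) (h' : Fix H b) : Fix H (a * b) := by
  exact fun g hg => by rw [cjRep_mul, h g hg, h' g hg]

lemma Fix.add (h : Fix H a) (h' : Fix H b) : Fix H (a + b) := by
  exact fun g hg => by rw [map_add, h g hg, h' g hg]

lemma Fix.sub (h : Fix H a) (h' : Fix H b) : Fix H (a - b) := by
  exact fun g hg => by rw [map_sub, h g hg, h' g hg]

lemma Fix.smul (h : Fix H a) (r : R) : Fix H (r • a) := by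
  exact fun g hg => by rw [map_smul, h g hg]

lemma fix_one (H : Subgroup G) : Fix H (1 : MonoidAlgebra R G) := by
  exact fun g _ => frpg_cj_one g

lemma Fix.sum {ι : Type} (s : Finset ι) {f : ι → MonoidAlgebra R G} (h : ∀ i ∈ s, Fix H (f i)) :
    Fix H (∑ i ∈ s, f i) := by
  intro g hg
  rw [map_sum]
  exact Finset.sum_congr rfl fun i hi => h i hi g hg

lemma Fix.cj (h : Fix H a) (g : G) : Fix (cg g H) (cjRep R G g a) := by
  exact frpg_fix_cj h fun _ ht => mem_cg.1 ht

lemma balg0_stab : Fix H a ↔ H ≤ stabT ⊤ ⊤ a :=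
  ⟨fun h g hg => ⟨trivial, Subgroup.le_normalizer trivial, h g hg⟩, fun h _ hg => (h hg).2.2⟩

lemma balg0_mul (g : G) (a : MonoidAlgebra R G) :
    single g 1 * a = cjRep R G g a * single g 1 := by
  rw [cjRep_apply, mul_assoc, mul_assoc, MonoidAlgebra.single_mul_single, inv_mul_cancel, mul_one,
    ← MonoidAlgebra.one_def, mul_one]

lemma Fix.sup (h : Fix H a) (h' : Fix K a) : Fix (H ⊔ K) a := by
  exact balg0_stab.2 (sup_le (balg0_stab.1 h) (balg0_stab.1 h'))

lemma fix_iff_comm : Fix H a ↔ ∀ h ∈ H, single h 1 * a = a * single h 1 := by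
  refine forall₂_congr fun g _ => ⟨fun e => by rw [balg0_mul, e], fun e => ?_⟩
  rw [cjRep_apply, ← mul_assoc, e, mul_assoc, MonoidAlgebra.single_mul_single, mul_inv_cancel,
    mul_one, ← MonoidAlgebra.one_def, mul_one]

lemma fix_zpowers_iff {u : G} : Fix (Subgroup.zpowers u) a ↔ cjRep R G u a = a := by
  exact ⟨fun h => h u (Subgroup.mem_zpowers u), fun h => balg0_stab.2
    (Subgroup.zpowers_le.2 ⟨trivial, Subgroup.le_normalizer trivial, h⟩)⟩

lemma fix_of_supp_Cz (h : Supp (Cz P) a) : Fix P a := by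
  exact tr_fixed_of_suppCent (supp_Cz_iff.1 h)

lemma fix_single {g : G} (h : g ∈ Cz P) (r : R) : Fix P (single g r) := by
  exact fix_of_supp_Cz (supp_single h r)

lemma single_mul_cj (g : G) (a : MonoidAlgebra R G) :
    single g 1 * a = cjRep R G g a * single g 1 := by
  exact balg0_mul g a

lemma cj_injective (g : G) : Function.Injective (cjRep R G g) := by
  exact Function.LeftInverse.injective (frpg_inv_cj g)

lemma supp_trc (H : Subgroup G) (a : MonoidAlgebra R G) : Supp H (trc R H a) := by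
  intro x hx
  rw [coeff_trc] at hx
  by_contra h
  exact hx (if_neg h)

lemma trc_of_supp (h : Supp H a) : trc R H a = a := by
  ext x
  rw [coeff_trc]
  split_ifs with e
  · rfl
  · by_contra h0
    exact e (h x (Ne.symm h0))

lemma trc_cj (g : G) (a : MonoidAlgebra R G) :
    trc R (cg g H) (cjRep R G g a) = cjRep R G g (trc R H a) := by
  ext x
  rw [coeff_trc, coeff_cjRep, coeff_cjRep, coeff_trc]
  by_cases e : g⁻¹ * x * g ∈ H
  · rw [if_pos e, if_pos (mem_cg.2 e)]
  · rw [if_neg e, if_neg (mt mem_cg.1 e)]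

variable [Fintype G]

lemma Supp.mul (h : Supp H a) (h' : Supp H b) : Supp H (a * b) := by
  intro x hx
  rw [coeff_mul_fin] at hx
  obtain ⟨y, -, hy⟩ := Finset.exists_ne_zero_of_sum_ne_zero hx
  simpa using H.mul_mem (h y (left_ne_zero_of_mul hy)) (h' _ (right_ne_zero_of_mul hy))

lemma Fix.comm (h : Fix H a) (h' : Supp H b) : a * b = b * a := by
  rw [eq_sum_single b, Finset.mul_sum, Finset.sum_mul]
  refine Finset.sum_congr rfl fun y _ => ?_
  by_cases hy : b.coeff y = 0
  · simp [hy]
  · rw [mul_smul_comm, smul_mul_assoc, fix_iff_comm.1 h y (h' y hy)]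

lemma trc_mul_left (h : Supp H a) (b : MonoidAlgebra R G) :
    trc R H (a * b) = a * trc R H b := by
  ext x
  rw [coeff_trc, coeff_mul_fin, coeff_mul_fin]
  have key : ∀ y, a.coeff y ≠ 0 → (y⁻¹ * x ∈ H ↔ x ∈ H) := fun y hy =>
    H.mul_mem_cancel_left (H.inv_mem (h y hy))
  split_ifs with e
  · refine Finset.sum_congr rfl fun y _ => ?_
    by_cases hy : a.coeff y = 0
    · rw [hy, zero_mul, zero_mul]
    · rw [coeff_trc, if_pos ((key y hy).2 e)]
  · refine (Finset.sum_eq_zero fun y _ => ?_).symm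
    by_cases hy : a.coeff y = 0
    · rw [hy, zero_mul]
    · rw [coeff_trc, if_neg fun e' => e ((key y hy).1 e'), mul_zero]

lemma trc_mul_right (h : Supp H a) (b : MonoidAlgebra R G) :
    trc R H (b * a) = trc R H b * a := by
  ext x
  rw [coeff_trc, coeff_mul_fin, coeff_mul_fin]
  have key : ∀ y, a.coeff (y⁻¹ * x) ≠ 0 → (y ∈ H ↔ x ∈ H) := fun y hy => by
    rw [← H.mul_mem_cancel_right (h _ hy), mul_inv_cancel_left]
  split_ifs with e
  · refine Finset.sum_congr rfl fun y _ => ?_
    by_cases hy : a.coeff (y⁻¹ * x) = 0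
    · rw [hy, mul_zero, mul_zero]
    · rw [coeff_trc, if_pos ((key y hy).2 e)]
  · refine (Finset.sum_eq_zero fun y _ => ?_).symm
    by_cases hy : a.coeff (y⁻¹ * x) = 0
    · rw [hy, mul_zero]
    · rw [coeff_trc, if_neg fun e' => e ((key y hy).1 e'), zero_mul]

lemma brT_eq_trc (a : MonoidAlgebra R G) : brT R (P : Set G) a = trc R (Cz P) a := by
  ext x
  rw [coeff_brT, coeff_trc]
  by_cases e : x ∈ Cz P
  · rw [if_pos e, if_pos (frpg_cent.2 e)]
  · rw [if_neg e, if_neg (mt frpg_cent.1 e)]

lemma trc_trc (a : MonoidAlgebra R G) : trc R H (trc R K a) = trc R (H ⊓ K) a := by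
  ext x
  rw [coeff_trc, coeff_trc, coeff_trc]
  by_cases e : x ∈ H <;> by_cases e' : x ∈ K <;> simp [e, e']

lemma Fix.trc (h : Fix K a) (hK : K ≤ Nz H) : Fix K (trc R H a) := by
  intro g hg
  rw [← trc_cj, cg_eq_iff.2 (hK hg), h g hg]

/-- The centre of the group ring of `H`, as a subalgebra. -/
lemma exists_zAlg (H : Subgroup G) :
    ∃ Λ : Subalgebra R (MonoidAlgebra R G), ∀ a, a ∈ Λ ↔ Supp H a ∧ Fix H a := by
  exact ⟨{ carrier := {a | Supp H a ∧ Fix H a}
           mul_mem' := fun ha hb => ⟨ha.1.mul hb.1, Fix.mul ha.2 hb.2⟩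
           add_mem' := fun ha hb => ⟨ha.1.add hb.1, Fix.add ha.2 hb.2⟩
           algebraMap_mem' := fun r => by
             rw [Algebra.algebraMap_eq_smul_one]
             exact ⟨(supp_one H).smul r, Fix.smul (fix_one H) r⟩ }, fun _ => Iff.rfl⟩

variable [IsLocalRing R]

omit [Fintype G] in
lemma Supp.toRes (h : Supp H a) : Supp H (toRes R G a) := by
  exact fun x hx => h x fun e => hx (by rw [coeff_toRes, e, map_zero])

omit [Fintype G] in
lemma Fix.toRes (h : Fix H a) : Fix H (toRes R G a) := by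
  exact fun g hg => by rw [← toRes_cjB, h g hg]

omit [Fintype G] in
lemma toRes_single (g : G) : toRes R G (single g 1) = single g 1 := by
  simp [toRes]

omit [Fintype G] in
lemma toRes_trc (a : MonoidAlgebra R G) :
    toRes R G (trc R H a) = trc (ResidueField R) H (toRes R G a) := by
  ext x
  rw [coeff_toRes, coeff_trc, coeff_trc, coeff_toRes]
  split_ifs
  · rfl
  · exact map_zero _

omit [Fintype G] in
/-- As `exists_lift_fixed`. -/
lemma exists_lift_supp (z : MonoidAlgebra (ResidueField R) G) :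
    ∃ w : MonoidAlgebra R G, toRes R G w = z ∧ (∀ H, Supp H z → Supp H w) ∧
      ∀ H, Fix H z → Fix H w := by
  classical
  obtain ⟨σ, hσ, h0⟩ : ∃ σ : ResidueField R → R, (∀ c, residue R (σ c) = c) ∧ σ 0 = 0 := by
    choose τ hτ using residue_surjective (R := R)
    refine ⟨fun c => if c = 0 then 0 else τ c, fun c => ?_, if_pos rfl⟩
    by_cases e : c = 0
    · simp only [if_pos e]
      rw [map_zero, e]
    · simp only [if_neg e]
      exact hτ c
  have hw : ∀ x, (MonoidAlgebra.ofCoeff (z.coeff.mapRange σ h0) : MonoidAlgebra R G).coeff x =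
      σ (z.coeff x) := fun x => Finsupp.mapRange_apply (hf := h0)
  refine ⟨MonoidAlgebra.ofCoeff (z.coeff.mapRange σ h0), ?_, fun S hS x hx => ?_,
    fun P hP g hg => ?_⟩
  · ext x
    rw [coeff_toRes, hw, hσ]
  · refine hS x fun e => hx ?_
    rw [hw, e, h0]
  · ext x
    rw [coeff_cjRep, hw, hw, ← coeff_cjRep, hP g hg]

omit [Fintype G] in
lemma nilR_iff_res : NilR R a ↔ IsNilpotent (toRes R G a) := by
  exact (red_toRes G).nilR_iff

end ring

/-- Two commuting idempotents `f`, `b` with `f b - v b` nilpotent: `f b = 0` or `f b = b`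
(if `v = 0` the idempotent `f b` is nilpotent; otherwise multiply by `1 - f`). -/
lemma idem_dich_field {k A : Type} [Field k] [Ring A] [Algebra k A] {f b : A} (hf : f * f = f)
    (hb : b * b = b) (hc : f * b = b * f) {v : k} (h : IsNilpotent (f * b - v • b)) :
    f * b = 0 ∨ f * b = b := by
  have hc' : Commute f b := hc
  by_cases hv : v = 0
  · rw [hv, zero_smul, sub_zero] at h
    exact Or.inl ((IsIdempotentElem.mul_of_commute hc' hf hb).eq_zero_of_isNilpotent h)
  · have h1 : Commute (1 - f) b := (Commute.one_left b).sub_left hc'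
    have h2 : Commute (1 - f) (f * b - v • b) :=
      (((Commute.one_left f).sub_left (Commute.refl f)).mul_right h1).sub_right (h1.smul_right v)
    have h3 := (h2.isNilpotent_mul_left h).smul (-v⁻¹)
    have h4 : (-v⁻¹) • ((1 - f) * (f * b - v • b)) = (1 - f) * b := by
      rw [mul_sub, ← mul_assoc, sub_mul 1 f f, one_mul, hf, sub_self, zero_mul, zero_sub,
        mul_smul_comm, smul_neg, neg_smul, neg_neg, smul_smul, inv_mul_cancel₀ hv, one_smul]
    rw [h4] at h3
    have h5 := (IsIdempotentElem.mul_of_commute h1 (IsIdempotentElem.one_sub hf)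
      hb).eq_zero_of_isNilpotent h3
    rw [sub_mul, one_mul, sub_eq_zero] at h5
    exact Or.inr h5.symm

open Classical in
/-- Mackey formula for the Brauer homomorphism over a field of characteristic `p`: only the cosets
fixed by `D` contribute (`tr_sum_mem_of_pgroup` for the action of `D` on `G ⧸ S` with
`J = ⊥`; `brT D (cj d x) = cj d (brT D x) = brT D x` for `d ∈ D`). -/
lemma brT_rtr_fixed {k G : Type} [Field k] [Group G] [Fintype G] {p : ℕ} [Fact p.Prime]
    (hpk : (p : k) = 0) {S T D : Subgroup G} (hST : S ≤ T) (hD : IsPGroup p D) (hDT : D ≤ T)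
    {a : MonoidAlgebra k G} (ha : Fix S a) :
    brT k (D : Set G) (rtr (cjRep k G) S T a) =
      ∑ q : G ⧸ S, if q.out ∈ T ∧ ∀ d ∈ D, q.out⁻¹ * d * q.out ∈ S then
        brT k (D : Set G) (cjRep k G q.out a) else 0 := by
  have hc : ∀ q : G ⧸ S, (∀ d ∈ D, q.out⁻¹ * d * q.out ∈ S) ↔ ∀ u : D, u • q = q := fun q => by
    rw [Subtype.forall]
    refine forall₂_congr fun d hd => ?_
    rw [mul_assoc, ← QuotientGroup.eq, eq_comm]
    conv_rhs => rw [← q.out_eq']
    rfl
  have key : ∀ g : G, brT k (D : Set G) (if (QuotientGroup.mk g : G ⧸ S).out ∈ T then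
      cjRep k G (QuotientGroup.mk g : G ⧸ S).out a else 0) =
      if g ∈ T then brT k (D : Set G) (cjRep k G g a) else 0 := fun g => by
    by_cases hg : g ∈ T
    · rw [if_pos ((tr_out_mem hST g).2 hg), if_pos hg, tr_out_apply ha]
    · rw [if_neg (fun e => hg ((tr_out_mem hST g).1 e)), if_neg hg, map_zero]
  have h0 := tr_sum_mem_of_pgroup (Γ := D) hD (fun q : G ⧸ S => if ∀ u : D, u • q = q then 0 else
    brT k (D : Set G) (if q.out ∈ T then cjRep k G q.out a else 0)) (fun u q => ?_) ⊥
    (fun q => by rw [← Nat.cast_smul_eq_nsmul k, hpk, zero_smul]; exact zero_mem _)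
    fun q hq => by rw [if_pos hq]; exact zero_mem _
  · rw [tr_apply, map_sum]
    refine Eq.trans ?_ ((congrArg _ (AddSubgroup.mem_bot.1 h0)).trans (add_zero _))
    rw [← Finset.sum_add_distrib]
    refine Finset.sum_congr rfl fun q _ => ?_
    by_cases e' : ∀ d ∈ D, q.out⁻¹ * d * q.out ∈ S
    · rw [if_pos ((hc q).1 e'), add_zero]
      by_cases e : q.out ∈ T
      · rw [if_pos e, if_pos ⟨e, e'⟩]
      · rw [if_neg e, if_neg fun h => e h.1, map_zero]
    · rw [if_neg (mt (hc q).2 e'), if_neg (mt And.right e'), zero_add]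
  · refine if_congr ⟨fun h w => ?_, fun h w => by rw [h u, h w]⟩ rfl ?_
    · have h1 := h (u * w * u⁻¹)
      rwa [smul_smul, inv_mul_cancel_right, mul_smul, smul_left_cancel_iff] at h1
    · obtain ⟨g, rfl⟩ := QuotientGroup.mk_surjective q
      have h1 : u • (QuotientGroup.mk g : G ⧸ S) = QuotientGroup.mk ((u : G) * g) := rfl
      rw [h1, key, key]
      refine if_congr (T.mul_mem_cancel_left (hDT u.2)) ?_ rfl
      rw [← frpg_cj_cj, frpg_brT_cj (S := D) (u : G)
        (fun s hs => D.mul_mem (D.mul_mem u.2 hs) (D.inv_mem u.2))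
        fun s hs => D.mul_mem (D.mul_mem (D.inv_mem u.2) hs) u.2]
      exact tr_fixed_of_suppCent (suppCent_brT _ _) _ u.2

end Pool.Agent.Lib.MP_b6945b_al.Bi
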