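import Pool.Agent.Lib.MP_b6945b_al.Bi.BSC

set_option autoImplicit false

/-!
Characterisation of characters by restriction to products of a `p`-group and a `p'`-group.
-/

namespace Pool.Agent.Lib.MP_b6945b_al.Bi

open St IsLocalRing Finset
open MonoidAlgebra (single)

variable {G : Type} [Group G] [Fintype G]

open Classical in
lemma bbc_sum_sub {M : Type} [AddCommMonoid M] (F : Subgroup G) [Fintype F] (ψ : G → M) :
    ∑ f : F, ψ f = ∑ r, (if r ∈ F then ψ r else 0) := by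
  rw [← Finset.sum_filter]
  exact (Finset.sum_subtype (univ.filter (· ∈ F)) (by simp) ψ).symm

/-- The multiples of `N` in the ring of algebraic integers. -/
def bbc_J (N : ℂ) : AddSubgroup ℂ where
  carrier := {x | ∃ α : ℂ, IsIntegral ℤ α ∧ x = N * α}
  zero_mem' := ⟨0, isIntegral_zero, by simp⟩
  add_mem' := by
    rintro _ _ ⟨α, h1, rfl⟩ ⟨β, h2, rfl⟩
    exact ⟨α + β, h1.add h2, by ring⟩
  neg_mem' := by
    rintro _ ⟨α, h1, rfl⟩
    exact ⟨-α, h1.neg, by ring⟩

open Pointwise in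
omit [Fintype G] in
lemma bbc_KK {Q : Subgroup G} {k : G} (hk : k ∈ Q) (u : G) (K : Set G) :
    KK Q (k * u * k⁻¹) = MulAut.conj k • K ↔ KK Q u = K := by
  rw [KK_conj hk, smul_left_cancel_iff]

open Pointwise MulAction in
lemma bbc_stab (P : Subgroup G) (u : G) :
    Nat.card (stabilizer P (Cs.mk (KK P u))) ∣ Nat.card (FF P u) := by
  let N : Subgroup G := P ⊓ Subgroup.normalizer (KK P u)
  have huK : u ∈ Subgroup.normalizer (KK P u) := by
    rw [Subgroup.mem_set_normalizer_iff]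
    intro x
    simp only [KK, Set.mem_ofPred_eq]
    rw [Subgroup.mem_normalizer_iff.1 (mem_normalizer_FF P u) (u⁻¹ * x)]
    congr! 1
    group
  have hN : N ≤ FF P u := by
    refine le_FF inf_le_left ?_
    rw [← Subgroup.inv_mem_iff]
    refine Subgroup.mem_normalizer_fintype ?_
    intro h hh
    refine ⟨?_, Subgroup.mul_mem _ (Subgroup.mul_mem _ (Subgroup.inv_mem _ huK) hh.2)
      (Subgroup.inv_mem _ (Subgroup.inv_mem _ huK))⟩
    have h1 : h * u * h⁻¹ ∈ KK P u :=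
      (Subgroup.mem_set_normalizer_iff.1 hh.2 u).1 (by simp [KK])
    have h2 := P.mul_mem (FF_le P u h1) hh.1
    simpa [mul_assoc] using h2
  refine dvd_trans (dvd_of_eq ?_) (Subgroup.card_dvd_of_le hN)
  refine Nat.card_congr (Equiv.ofBijective (fun z => ⟨z.1.1, z.1.2, ?_⟩) ⟨?_, ?_⟩)
  · exact Subgroup.mem_normalizer_iff_conj_image_eq.2 (congrArg Cs.s z.2)
  · intro z z' e
    have e' := congrArg Subtype.val e
    exact Subtype.ext (Subtype.ext e')
  · rintro ⟨h, h1, h2⟩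
    exact ⟨⟨⟨h, h1⟩, Cs.ext (Subgroup.mem_normalizer_iff_conj_image_eq.1 h2)⟩, rfl⟩

open Classical in
/-- Copy of the proof of `frobenius_sum` (`Frob.lean`: the cosets `KK`, the subgroups `FF`,
`sum_mem_of_orbit`) with the trace replaced by `φ`. -/
lemma frob_gen {q : ℕ} (φ : G → ℂ) (hφ : IsCF φ) (Q : Subgroup G) (hQ : IsPGroup q Q)
    (h : ∀ (y : G) (R : Subgroup G), IsPElt q y → R ≤ Q → y ∈ Nz R →
      ∃ α : ℂ, IsIntegral ℤ α ∧ ∑ r, (if r ∈ R then φ (y * r) else 0) = Nat.card R * α) :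
    ∃ α : ℂ, IsIntegral ℤ α ∧ ∑ u, (if IsPElt q u then φ u else 0) = Nat.card Q * α := by
  change _ ∈ bbc_J (Nat.card Q)
  let _ : Fintype (Cs G) := Fintype.ofFinite _
  rw [← Finset.sum_fiberwise (s := univ) (g := fun u => Cs.mk (KK Q u))]
  refine sum_mem_of_orbit (Γ := Q) _ ?_ _ ?_
  · rintro k ⟨K⟩
    simp only [Finset.sum_filter, Subgroup.smul_def, Cs.smul_mk, Cs.mk.injEq]
    rw [← Equiv.sum_comp (MulAut.conj (k : G)).toEquiv]
    refine Finset.sum_congr rfl (fun u _ => ?_)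
    change (if KK Q (k * u * (k : G)⁻¹) = _ then (if IsPElt q (k * u * (k : G)⁻¹) then
      φ (k * u * (k : G)⁻¹) else 0) else 0) = _
    simp only [bbc_KK k.2, isPElt_conj, hφ k u]
  · rintro ⟨K⟩
    simp only [Cs.mk.injEq]
    by_cases hK : ∃ u, IsPElt q u ∧ KK Q u = K
    swap
    · rw [Finset.sum_eq_zero, smul_zero]
      · exact AddSubgroup.zero_mem _
      · intro u hu
        exact if_neg (fun h => hK ⟨u, h, (Finset.mem_filter.1 hu).2⟩)
    obtain ⟨u, hu, rfl⟩ := hK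
    have hFu : IsPGroup q (FF Q u ⊔ Subgroup.zpowers u : Subgroup G) :=
      IsPGroup.to_sup_of_normal_left' (hQ.to_le (FF_le _ _)) hu.isPGroup
        (Subgroup.zpowers_le.2 (mem_normalizer_FF _ _))
    have hsum : ∑ w ∈ univ.filter (fun w => KK Q w = KK Q u),
        (if IsPElt q w then φ w else 0) = ∑ f : FF Q u, φ (u * f) := by
      symm
      refine Finset.sum_bij (fun f _ => u * f) ?_ ?_ ?_ ?_
      · intro f _
        simp only [Finset.mem_filter, Finset.mem_univ, true_and, KK_eq_iff, inv_mul_cancel_left]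
        exact f.2
      · intro f _ g _ e
        exact Subtype.ext (mul_left_cancel e)
      · intro w hw
        exact ⟨⟨u⁻¹ * w, KK_eq_iff.1 (Finset.mem_filter.1 hw).2⟩, Finset.mem_univ _, by simp⟩
      · intro f _
        rw [if_pos]
        exact isPElt_of_mem hFu (Subgroup.mul_mem _
          ((le_sup_right : Subgroup.zpowers u ≤ _) (Subgroup.mem_zpowers u))
          ((le_sup_left : FF Q u ≤ _) f.2))
    rw [hsum, bbc_sum_sub (FF Q u) (fun r => φ (u * r))]
    obtain ⟨α, hint, htr⟩ := h u (FF Q u) hu (FF_le _ _) (mem_normalizer_FF _ _)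
    obtain ⟨c, hc⟩ := bbc_stab Q u
    refine ⟨c * α, (isIntegral_natCast c).mul hint, ?_⟩
    rw [htr, ← card_orbit_mul_card_stabilizer (Γ := Q) (Cs.mk (KK Q u)), hc, nsmul_eq_mul]
    push_cast
    ring

open Classical in
lemma bbc_fiber (f : G → ℂ) (J : AddSubgroup ℂ) (P : G → Prop)
    (hP : ∀ x y, Subgroup.zpowers x = Subgroup.zpowers y → P x → P y)
    (hz : ∀ x, P x → ∑ g, (if Subgroup.zpowers g = Subgroup.zpowers x then f g else 0) ∈ J) :
    ∑ x, (if P x then f x else 0) ∈ J := by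
  let _ : Fintype (Subgroup G) := Fintype.ofFinite _
  rw [← Finset.sum_fiberwise (s := univ) (g := fun x => Subgroup.zpowers x)]
  refine J.sum_mem (fun C _ => ?_)
  by_cases hC : ∃ x, P x ∧ Subgroup.zpowers x = C
  · obtain ⟨x, hx, rfl⟩ := hC
    rw [Finset.sum_filter]
    convert hz x hx using 1
    refine Finset.sum_congr rfl (fun g _ => ?_)
    by_cases e : Subgroup.zpowers g = Subgroup.zpowers x
    · rw [if_pos e, if_pos e, if_pos (hP x g e.symm hx)]
    · rw [if_neg e, if_neg e]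
  · rw [Finset.sum_eq_zero]
    · exact J.zero_mem
    · intro x hx
      exact if_neg (fun h => hC ⟨x, h, (Finset.mem_filter.1 hx).2⟩)

open Classical in
/-- Let `a C = ∑ g with zpowers g = C, f g`.  For every `g`, the sum of `f` over `zpowers g` is
`∑ C ≤ zpowers g, a C`; strong induction on `orderOf g` gives `a (zpowers g) ∈ ℤ`. -/
lemma sum_int_of_cyclic (f : G → ℂ)
    (h : ∀ g : G, ∃ z : ℤ, ∑ x, (if x ∈ Subgroup.zpowers g then f x else 0) = z) :
    ∃ z : ℤ, ∑ g, f g = z := by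
  let J : AddSubgroup ℂ := (Int.castAddHom ℂ).range
  have key : ∀ n : ℕ, ∀ x : G, orderOf x = n →
      ∑ g, (if Subgroup.zpowers g = Subgroup.zpowers x then f g else 0) ∈ J := by
    intro n
    induction n using Nat.strong_induction_on with
    | _ n ih =>
      intro x hx
      have h1 : ∑ g, (if g ∈ Subgroup.zpowers x then f g else 0) ∈ J := by
        obtain ⟨z, hz⟩ := h x
        exact ⟨z, hz.symm⟩
      have h2 := bbc_fiber f J
        (fun g => g ∈ Subgroup.zpowers x ∧ Subgroup.zpowers g ≠ Subgroup.zpowers x) ?_ ?_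
      · convert J.sub_mem h1 h2 using 1
        rw [← Finset.sum_sub_distrib]
        refine Finset.sum_congr rfl (fun g _ => ?_)
        by_cases e : Subgroup.zpowers g = Subgroup.zpowers x
        · rw [if_pos e, if_pos (e ▸ Subgroup.mem_zpowers g), if_neg (fun a => a.2 e), sub_zero]
        · by_cases e' : g ∈ Subgroup.zpowers x
          · rw [if_neg e, if_pos e', if_pos ⟨e', e⟩, sub_self]
          · rw [if_neg e, if_neg e', if_neg (fun a => e' a.1), sub_self]
      · intro a b hab ha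
        refine ⟨?_, hab ▸ ha.2⟩
        exact Subgroup.zpowers_le.2 ha.1 (hab ▸ Subgroup.mem_zpowers b)
      · intro g hg
        refine ih (orderOf g) ?_ g rfl
        rw [← hx]
        by_contra hlt
        refine hg.2 (Subgroup.eq_of_le_of_card_ge (Subgroup.zpowers_le.2 hg.1) ?_)
        rw [Nat.card_zpowers, Nat.card_zpowers]
        exact not_lt.1 hlt
  obtain ⟨z, hz⟩ := bbc_fiber f J (fun _ => True) (fun _ _ _ a => a) (fun x _ => key _ x rfl)
  refine ⟨z, ?_⟩
  simpa using hz.symm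

omit [Fintype G] in
lemma bbc_pelt_coe {q : ℕ} {C : Subgroup G} (u : C) : IsPElt q (u : G) ↔ IsPElt q u := by
  refine exists_congr (fun k => ?_)
  rw [← Subgroup.coe_pow, OneMemClass.coe_eq_one]

open Classical in
lemma bbc_local {q : ℕ} [Fact q.Prime] (f : G → ℂ) (hf : IsCF f) (x : G)
    (h : ∀ (y : G) (R : Subgroup G), IsPElt q y → y ∈ Cu x → IsPGroup q R →
      R ≤ Cu x → y ∈ Nz R → SC (Subgroup.zpowers x ⊔ (Subgroup.zpowers y ⊔ R)) f) :
    ∃ α : ℂ, IsIntegral ℤ α ∧ ∑ y, (if IsPElt q y ∧ x ∈ Cu y then f (y * x) else 0) =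
      (q ^ (Nat.card (Cu x)).factorization q : ℕ) * α := by
  let Q : Sylow q (Cu x) := default
  have hφ : IsCF (fun y : Cu x => f (x * y)) := by
    intro c y
    change f (x * (c * y * (c : G)⁻¹)) = f (x * y)
    rw [← hf c (x * y)]
    congr 1
    rw [← mul_assoc, ← mul_assoc, mem_Cu.1 c.2, mul_assoc (c : G) x]
  obtain ⟨α, hα, e⟩ := frob_gen (q := q) (fun y : Cu x => f (x * y)) hφ Q Q.isPGroup' (by
    intro y R hy hR hn
    have hinj : Function.Injective (Cu x).subtype := Subgroup.subtype_injective _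
    have hle : R.map (Cu x).subtype ≤ Cu x := Subgroup.map_subtype_le _
    have hyn : (y : G) ∈ Nz (R.map (Cu x).subtype) :=
      Subgroup.le_normalizer_map _ (Subgroup.mem_map_of_mem (Cu x).subtype hn)
    have hxn : x ∈ Nz (R.map (Cu x).subtype) :=
      Cz_le_Nz _ (mem_Cz.2 (fun d hd => mem_Cu.1 (hle hd)))
    have hsc := h y (R.map (Cu x).subtype) ((bbc_pelt_coe y).2 hy) y.2
      ((Q.isPGroup'.to_le hR).map _) hle hyn
    obtain ⟨α, hα, e⟩ := hsc.coset (R := R.map (Cu x).subtype) (le_sup_right.trans le_sup_right)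
      (g := x * y) (Subgroup.mul_mem _ (Subgroup.mem_sup_left (Subgroup.mem_zpowers x))
        (Subgroup.mem_sup_right (Subgroup.mem_sup_left (Subgroup.mem_zpowers _))))
      (Subgroup.mul_mem _ hxn hyn)
    refine ⟨α, hα, ?_⟩
    rw [Subgroup.card_map_of_injective hinj] at e
    rw [← e]
    have e2 := bbc_sum_sub (Cu x)
      (fun r => if r ∈ R.map (Cu x).subtype then f (x * y * r) else 0)
    refine Eq.trans ?_ (e2.trans ?_)
    · refine Finset.sum_congr rfl (fun r _ => ?_)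
      have : (r : G) ∈ R.map (Cu x).subtype ↔ r ∈ R := Subgroup.mem_map_iff_mem hinj
      simp only [this, Subgroup.coe_mul, mul_assoc]
    · refine Finset.sum_congr rfl (fun r _ => ?_)
      by_cases hr : r ∈ R.map (Cu x).subtype
      · rw [if_pos (hle hr)]
      · rw [if_neg hr, ite_self])
  refine ⟨α, hα, ?_⟩
  rw [Q.card_eq_multiplicity] at e
  rw [← e]
  have e2 := bbc_sum_sub (Cu x) (fun r => if IsPElt q r then f (x * r) else 0)
  refine Eq.trans ?_ (e2.symm.trans ?_)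
  · refine Finset.sum_congr rfl (fun r _ => ?_)
    have h1 : x ∈ Cu r ↔ r ∈ Cu x := by rw [mem_Cu, mem_Cu, eq_comm]
    rw [h1, hf.comm r x]
    by_cases a : IsPElt q r <;> by_cases b : r ∈ Cu x <;> simp [a, b]
  · refine Finset.sum_congr rfl (fun r _ => ?_)
    simp only [bbc_pelt_coe]

open Classical in
/-- One prime `q`.  `∑ g, f g = ∑ x q-regular, T x`, `T x = ∑ y ∈ Cu x, q-element, f (y x)`
(`sum_pp` and `sum_comm`); `T` is a class function; `frob_gen` in the group `Cu x` with a Sylow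
`q`-subgroup gives `T x ∈ |C(x)|_q O`; `sum_mem_of_orbit` for the conjugation action (`Cj G`,
`orbit_Cj`): `|orbit| |C(x)|_q` is divisible by `|G|_q`. -/
lemma sum_dvd_prime {q : ℕ} [Fact q.Prime] (f : G → ℂ) (hf : IsCF f)
    (h : ∀ (x y : G) (R : Subgroup G), ¬ q ∣ orderOf x → IsPElt q y → y ∈ Cu x → IsPGroup q R →
      R ≤ Cu x → y ∈ Nz R → SC (Subgroup.zpowers x ⊔ (Subgroup.zpowers y ⊔ R)) f) :
    ∃ α : ℂ, IsIntegral ℤ α ∧
      ∑ g, f g = (q ^ (Nat.card G).factorization q : ℕ) * α := by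
  change _ ∈ bbc_J _
  rw [sum_pp (p := q) f, Finset.sum_comm]
  let _ : Fintype (Cj G) := Fintype.ofEquiv _ Cj.equiv.symm
  rw [← Equiv.sum_comp Cj.equiv]
  refine sum_mem_of_orbit (Γ := G) _ ?_ _ ?_
  · rintro k ⟨x⟩
    change ∑ y, (if IsPElt q y ∧ k * x * k⁻¹ ∈ Cu y ∧ ¬ q ∣ orderOf (k * x * k⁻¹) then
      f (y * (k * x * k⁻¹)) else 0) =
      ∑ y, (if IsPElt q y ∧ x ∈ Cu y ∧ ¬ q ∣ orderOf x then f (y * x) else 0)
    rw [← Equiv.sum_comp (MulAut.conj k).toEquiv]
    refine Finset.sum_congr rfl (fun y _ => ?_)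
    change (if IsPElt q (k * y * k⁻¹) ∧ k * x * k⁻¹ ∈ Cu (k * y * k⁻¹) ∧
      ¬ q ∣ orderOf (k * x * k⁻¹) then f (k * y * k⁻¹ * (k * x * k⁻¹)) else 0) = _
    have h1 : orderOf (k * x * k⁻¹) = orderOf x := (MulAut.conj k).orderOf_eq x
    have h2 : k * x * k⁻¹ ∈ Cu (k * y * k⁻¹) ↔ x ∈ Cu y := by
      rw [Cu_conj, mem_cg]
      congr! 1
      group
    have h3 : f (k * y * k⁻¹ * (k * x * k⁻¹)) = f (y * x) := by
      rw [← hf k (y * x)]
      congr 1
      group
    simp only [isPElt_conj, h1, h2, h3]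
  · rintro ⟨x⟩
    change _ • ∑ y, (if IsPElt q y ∧ x ∈ Cu y ∧ ¬ q ∣ orderOf x then f (y * x) else 0) ∈ _
    by_cases hx : q ∣ orderOf x
    · rw [Finset.sum_eq_zero, smul_zero]
      · exact AddSubgroup.zero_mem _
      · intro y _
        exact if_neg (fun a => a.2.2 hx)
    obtain ⟨α, hα, e⟩ := bbc_local (q := q) f hf x (fun y R => h x y R hx)
    simp only [hx, not_false_eq_true, and_true]
    rw [e]
    have h1 := orbit_Cj (⟨x⟩ : Cj G)
    have h2 : Subgroup.centralizer {x} = Cu x := by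
      ext g
      rw [mem_Cu, Subgroup.mem_centralizer_singleton_iff, eq_comm]
    change _ * Nat.card (Subgroup.centralizer {x}) = _ at h1
    rw [h2] at h1
    have h3 : Nat.card (MulAction.orbit G (⟨x⟩ : Cj G)) ≠ 0 := by
      intro a
      rw [a, zero_mul] at h1
      exact Nat.card_pos.ne h1
    obtain ⟨c, hc⟩ := Nat.ordProj_dvd (Nat.card (MulAction.orbit G (⟨x⟩ : Cj G))) q
    refine ⟨c * α, (isIntegral_natCast c).mul hα, ?_⟩
    rw [← h1, Nat.factorization_mul h3 Nat.card_pos.ne', Finsupp.add_apply, pow_add, nsmul_eq_mul]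
    conv_lhs => rw [hc]
    push_cast
    ring

lemma bbc_int_dvd {N : ℕ} (hN : N ≠ 0) {z : ℤ} {α : ℂ} (hα : IsIntegral ℤ α)
    (e : (z : ℂ) = N * α) : (N : ℤ) ∣ z := by
  have hN' : (N : ℂ) ≠ 0 := by exact_mod_cast hN
  have h1 : α = algebraMap ℚ ℂ ((z : ℚ) / N) := by
    rw [map_div₀]
    simp only [map_intCast, map_natCast]
    rw [e, mul_div_cancel_left₀ _ hN']
  rw [h1, isIntegral_algebraMap_iff (algebraMap ℚ ℂ).injective,
    IsIntegrallyClosed.isIntegral_iff] at hα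
  obtain ⟨y, hy⟩ := hα
  refine ⟨y, ?_⟩
  have hN2 : (N : ℚ) ≠ 0 := by exact_mod_cast hN
  have h2 : (z : ℚ) = N * y := by
    rw [eq_intCast] at hy
    rw [hy, mul_div_cancel₀ _ hN2]
  exact_mod_cast h2

omit [Fintype G] in
lemma bbc_reg_of_pelt {p q : ℕ} (hp : p.Prime) (hq : q.Prime) (hne : q ≠ p) {u : G}
    (hu : IsPElt q u) : ¬ p ∣ orderOf u := by
  obtain ⟨k, hk⟩ := hu
  intro a
  exact hne ((Nat.prime_dvd_prime_iff_eq hp hq).1
    (hp.dvd_of_dvd_pow (a.trans (orderOf_dvd_of_pow_eq_one hk)))).symm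

/-- `sum_int_of_cyclic` (`zpowers g = zpowers (pp g) ⊔ zpowers (pq g)`, `SC.sum_nat`) gives
`∑ f = z ∈ ℤ`; for each prime `q`, `sum_dvd_prime` and `IsIntegrallyClosed ℤ` give
`q ^ factorization ∣ z`.  For `q = p` take `P = zpowers y ⊔ R`, `S = zpowers x`; for `q ≠ p` take
`P = zpowers (pp p x)`, `S = zpowers (pq p x) ⊔ (zpowers y ⊔ R)`
(`IsPGroup.to_sup_of_normal_left'`; the order of a join of two commuting subgroups divides the
product of the orders, or argue with Cauchy and `pp_mul_eq`). -/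
theorem sum_dvd_of_sc {p : ℕ} [Fact p.Prime] (f : G → ℂ) (hf : IsCF f)
    (h : ∀ S P : Subgroup G, ¬ p ∣ Nat.card S → PCom p S P → SC (P ⊔ S) f) :
    ∃ z : ℤ, ∑ g, f g = Fintype.card G * z := by
  classical
  have hx : ∀ (x : G) (U : Subgroup G), U ≤ Cu x →
      ¬ p ∣ Nat.card (U ⊔ Subgroup.zpowers (pq p x) : Subgroup G) →
      SC (Subgroup.zpowers x ⊔ U) f := by
    intro x U hU hS
    refine (h (U ⊔ Subgroup.zpowers (pq p x)) (Subgroup.zpowers (pp p x)) hS
      ⟨(pp_spec x).1.isPGroup, fun u hu s hs => ?_⟩).mono ?_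
    · have h1 : U ⊔ Subgroup.zpowers (pq p x) ≤ Cu x :=
        sup_le hU ((Subgroup.zpowers_le.2 (pq_mem x)).trans (zpowers_le_Cu x))
      exact (mem_Cz.1 (h1 hs) u (Subgroup.zpowers_le.2 (pp_spec x).2.1 hu)).symm
    · refine sup_le (Subgroup.zpowers_le.2 ?_) (le_sup_left.trans le_sup_right)
      conv_rhs => rw [← pp_mul_pq (p := p) x]
      exact Subgroup.mul_mem _ (Subgroup.mem_sup_left (Subgroup.mem_zpowers _))
        (Subgroup.mem_sup_right (Subgroup.mem_sup_right (Subgroup.mem_zpowers _)))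
  obtain ⟨z, hz⟩ := sum_int_of_cyclic f (fun g => by
    have h1 := hx g ⊥ bot_le (by
      rw [bot_sup_eq, Nat.card_zpowers]
      exact (pp_spec g).2.2)
    rw [sup_bot_eq] at h1
    obtain ⟨n, hn⟩ := h1.sum_nat
    exact ⟨Nat.card (Subgroup.zpowers g) * n, by rw [hn]; push_cast; rfl⟩)
  have hq : ∀ q : ℕ, q.Prime → ((q ^ (Nat.card G).factorization q : ℕ) : ℤ) ∣ z := by
    intro q hq
    have : Fact q.Prime := ⟨hq⟩
    obtain ⟨α, hα, e⟩ := sum_dvd_prime (q := q) f hf (by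
      intro x y R hxq hy hyx hR hRx hyR
      have hU : IsPGroup q (Subgroup.zpowers y ⊔ R : Subgroup G) :=
        IsPGroup.to_sup_of_normal_right' hy.isPGroup hR (Subgroup.zpowers_le.2 hyR)
      have hUx : Subgroup.zpowers y ⊔ R ≤ Cu x := sup_le (Subgroup.zpowers_le.2 hyx) hRx
      by_cases hqp : q = p
      · subst hqp
        rw [sup_comm]
        refine h (Subgroup.zpowers x) _ (by rwa [Nat.card_zpowers]) ⟨hU, fun u hu s hs => ?_⟩
        exact mem_Cz.1 (hUx hu) s hs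
      · refine hx x _ hUx (fun hd => ?_)
        obtain ⟨s, hs⟩ := exists_prime_orderOf_dvd_card' p hd
        have hc : PCom q (Subgroup.zpowers (pq p x)) (Subgroup.zpowers y ⊔ R) :=
          ⟨hU, fun u hu t ht => mem_Cz.1 (hUx hu) t (Subgroup.zpowers_le.2 (pq_mem x) ht)⟩
        obtain ⟨u, hu, t, ht, e⟩ := hc.exists_mul s.2
        have h1 : ¬ p ∣ orderOf (u * t) :=
          reg_mul (bbc_reg_of_pelt Fact.out hq hqp (isPElt_of_mem hU hu))
            (reg_of_mem (by rw [Nat.card_zpowers]; exact (pp_spec x).2.2) ht) (hc.2 u hu t ht)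
        rw [← e, Subgroup.orderOf_coe, hs] at h1
        exact h1 dvd_rfl)
    exact bbc_int_dvd (pow_ne_zero _ hq.ne_zero) hα (hz.symm.trans e)
  have hd : (Nat.card G : ℤ) ∣ z := by
    rw [Int.natCast_dvd, Nat.dvd_iff_prime_pow_dvd_dvd]
    intro q k hq' hk
    refine (pow_dvd_pow q ((hq'.pow_dvd_iff_le_factorization Nat.card_pos.ne').1 hk)).trans ?_
    exact Int.natCast_dvd.1 (hq q hq')
  obtain ⟨w, hw⟩ := hd
  refine ⟨w, ?_⟩
  rw [hz, hw, Nat.card_eq_fintype_card]
  push_cast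
  rfl

end Pool.Agent.Lib.MP_b6945b_al.Bi
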