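import Pool.Agent.Lib.MP_b6945b_al.Bi.BTr1

set_option autoImplicit false

/-!
The blocks of a subgroup.
-/

namespace Pool.Agent.Lib.MP_b6945b_al.Bi

open St IsLocalRing Finset
open MonoidAlgebra (single)

variable {G : Type} [Group G] [Fintype G] {V : ValuationSubring ℂ} {H K : Subgroup G}
  {β β' ε : MonoidAlgebra V G}

lemma res_ne_of_idem (hε : ε * ε = ε) (h0 : ε ≠ 0) : toRes V G ε ≠ 0 := by
  exact fun h => h0 ((toRes_eq_zero_iff.1 h).nilR.eq_zero hε)

lemma HB.res_ne (h : HB H β) : toRes V G β ≠ 0 := by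
  exact res_ne_of_idem h.idem h.ne

/-- `idem_dichotomy` in the subalgebra from `exists_zAlg`. -/
lemma HB.dich (h : HB H β) (hε : ε * ε = ε) (hs : Supp H ε) (hf : Fix H ε) :
    β * ε = 0 ∨ β * ε = β := by
  obtain ⟨Λ, hΛ⟩ := exists_zAlg (R := V) H
  have hc : β * ε = ε * β := h.fix.comm hs
  refine idem_dichotomy (monicSplit_valuationSubring V) Λ h.idem ((hΛ _).2 ⟨h.supp, h.fix⟩)
    (fun z hz => ?_) ((hΛ _).2 ⟨h.supp.mul hs, h.fix.mul hf⟩) ?_ ?_
  · obtain ⟨v, hv⟩ := h.loc z ((hΛ z).1 hz).1 ((hΛ z).1 hz).2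
    refine ⟨v, ?_⟩
    rwa [h.fix.comm ((hΛ z).1 hz).1, mul_assoc, h.idem]
  · rw [mul_assoc, ← mul_assoc ε, ← hc, mul_assoc, hε, ← mul_assoc, h.idem]
  · rw [← mul_assoc, h.idem, mul_assoc, ← hc, ← mul_assoc, h.idem]

/-- `exists_lift_supp`, `nilR_iff_res`, `idem_dich_field`. -/
lemma HB.res_dich (h : HB H β) {f : MonoidAlgebra (ResidueField V) G} (hf : f * f = f)
    (hs : Supp H f) (hx : Fix H f) : f * toRes V G β = 0 ∨ f * toRes V G β = toRes V G β := by
  obtain ⟨w, hw, h1, h2⟩ := exists_lift_supp (R := V) f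
  obtain ⟨v, hv⟩ := h.loc w (h1 H hs) (h2 H hx)
  rw [nilR_iff_res, map_sub, map_mul, hw, ← bb_bot (v • β), bb_smul, bb_bot] at hv
  exact idem_dich_field hf (by rw [← map_mul, h.idem]) (hx.comm h.supp.toRes) hv

lemma HB.eq_of_mul_ne (h : HB H β) (h' : HB H β') (h0 : β * β' ≠ 0) : β = β' := by
  have h1 := (h.dich h'.idem h'.supp h'.fix).resolve_left h0
  have hc := h.fix.comm h'.supp
  have h2 := (h'.dich h.idem h.supp h.fix).resolve_left (hc ▸ h0)
  rw [← h1, hc, h2]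

lemma HB.orth (h : HB H β) (h' : HB H β') (hne : β ≠ β') : β * β' = 0 := by
  by_contra h0
  exact hne (h.eq_of_mul_ne h' h0)

lemma HB.eq_of_res_mul_ne (h : HB H β) (h' : HB H β') (h0 : toRes V G β * toRes V G β' ≠ 0) :
    β = β' := by
  exact h.eq_of_mul_ne h' fun e => h0 (by rw [← map_mul, e, map_zero])

omit [Fintype G] in
lemma bblk_nil_cj {a : MonoidAlgebra V G} (h : NilR V a) (g : G) : NilR V (cjRep V G g a) := by
  obtain ⟨n, hn⟩ := h
  refine ⟨n, ?_⟩
  rw [← frpg_cj_pow]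
  exact idem_inMax_map (cjRep V G g) hn

lemma HB.conj (h : HB H β) (g : G) : HB (cg g H) (cjRep V G g β) := by
  refine ⟨by rw [← cjRep_mul, h.idem], h.supp.cj g, h.fix.cj g,
    fun e => h.ne (cj_injective g (by rw [e, map_zero])), fun z hs hf => ?_⟩
  have h1 := hs.cj g⁻¹
  have h2 := hf.cj g⁻¹
  rw [cg_cg, inv_mul_cancel, cg_one] at h1 h2
  obtain ⟨v, hv⟩ := h.loc _ h1 h2
  refine ⟨v, ?_⟩
  have h3 := bblk_nil_cj hv g
  rwa [map_sub, map_smul, cjRep_mul, frpg_cj_inv] at h3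

lemma HB.conj_norm (h : HB H β) {g : G} (hg : g ∈ Nz H) : HB H (cjRep V G g β) := by
  have h1 := h.conj g
  rwa [cg_eq_iff.2 hg] at h1

lemma hb_top_iff : HB ⊤ β ↔ IsBlock β := by
  exact ⟨fun h => ⟨h.idem, fixedBy_top_iff.1 h.fix, h.ne,
    fun z hz => h.loc z (supp_top z) (fixedBy_top_iff.2 hz)⟩,
    fun h => ⟨h.idem, supp_top _, fixedBy_top_iff.2 h.cent, h.ne,
      fun z _ hz => h.loc z (fixedBy_top_iff.1 hz)⟩⟩

/-- `exists_scalar_of_primitive` in the subalgebra from `exists_zAlg` (compare `loc_of_prim`,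
or use `exists_fitting` directly). -/
lemma hb_of_prim (hε : ε * ε = ε) (hs : Supp H ε) (hf : Fix H ε) (h0 : ε ≠ 0)
    (h : ∀ a, a * a = a → Supp H a → Fix H a → a * ε = 0 ∨ a * ε = ε) : HB H ε := by
  refine ⟨hε, hs, hf, h0, fun z hzs hzf => ?_⟩
  have hR := monicSplit_valuationSubring V
  obtain ⟨Λ, hΛ⟩ := exists_zAlg (R := V) H
  have hy : z * ε ∈ Λ := (hΛ _).2 ⟨hzs.mul hs, hzf.mul hf⟩
  have h2 : z * ε * ε = z * ε := by rw [mul_assoc, hε]
  generalize z * ε = y at hy h2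
  have h1 : ε * y = y := by rw [hf.comm ((hΛ y).1 hy).1, h2]
  by_contra hcon
  have hle : Algebra.adjoin V {y} ≤ Λ := Algebra.adjoin_le (Set.singleton_subset_iff.2 hy)
  have hinv : ∀ c : V, ∃ w, (y - algebraMap V (MonoidAlgebra V G) c) * ε * w = ε := by
    intro c
    obtain ⟨η, hη, w, -, hηη, hn, hw⟩ := exists_fitting hR y c
    obtain ⟨hη1, hη2⟩ := (hΛ η).1 (hle hη)
    have hc : ε * η = η * ε := hf.comm hη1
    have hc' : (y - algebraMap V (MonoidAlgebra V G) c) * ε =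
        ε * (y - algebraMap V (MonoidAlgebra V G) c) := by
      rw [sub_mul, mul_sub, h1, h2, Algebra.commutes]
    rcases h η hηη hη1 hη2 with h3 | h3
    · exact ⟨w, by rw [hc', mul_assoc, hw, mul_sub, mul_one, hc, h3, sub_zero]⟩
    · refine absurd ⟨c, ?_⟩ hcon
      have h4 := hn.mul_right (y := ε)
        (by rw [mul_assoc, ← hc, ← mul_assoc, hc', mul_assoc])
      rwa [mul_assoc, h3, sub_mul, h2, ← Algebra.smul_def] at h4
  have hprod : ∀ s : Multiset V, ∃ w,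
      Polynomial.aeval y (s.map fun a => Polynomial.X - Polynomial.C a).prod * w = ε := by
    intro s
    induction s using Multiset.induction_on with
    | empty => exact ⟨ε, by simp⟩
    | cons a s ih =>
      obtain ⟨w, hw⟩ := ih
      obtain ⟨w', hw'⟩ := hinv a
      refine ⟨w * w', ?_⟩
      rw [Multiset.map_cons, Multiset.prod_cons, map_mul, mul_assoc, ← mul_assoc _ w w', hw,
        ← mul_assoc, map_sub, Polynomial.aeval_X, Polynomial.aeval_C, hw']
  obtain ⟨f, hf', hfy⟩ := IsIntegral.of_finite V y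
  rw [← Polynomial.aeval_def] at hfy
  obtain ⟨s, hs'⟩ := hR f hf'
  obtain ⟨w, hw⟩ := hprod s
  rw [← hs', hfy, zero_mul] at hw
  exact h0 hw.symm

/-- `exists_om_of_idemB` gives `l`; let `e` be the block idempotent of `l`; if `β e = 0` then
`om l (cf e) = 1` (`blkF_om_self`) is a nonunit. -/
lemma HB.exists_blockIdem (h : HB ⊤ β) (I : IrrData G) : ∃ i, IsBlockIdem I i β := by
  obtain ⟨l, hl⟩ := exists_om_of_idemB I h.idem h.ne
  obtain ⟨e, he⟩ := St.exists_blockIdem (V := V) I l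
  have h1 : e = β := by
    refine (hb_top_iff.2 he.isBlock).eq_of_mul_ne h fun e0 => ?_
    have h2 := hl e he.isBlock.cent (by
      rw [e0]
      exact InMax.nilR (Submodule.zero_mem _))
    rw [blkF_om_self he] at h2
    exact one_not_mem_nonunits V h2
  exact ⟨l, h1 ▸ he⟩

lemma hb_of_blockIdem {I : IrrData G} {i : Fin I.n} (h : IsBlockIdem I i β) : HB ⊤ β := by
  exact hb_top_iff.2 h.isBlock

lemma HB.pull (h : HB H β) [Fintype H] : HB ⊤ (pull V H.subtype β) := by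
  refine (hb_inc_iff H.subtype_injective).1 ?_
  rwa [inc_pull_supp h.supp, ← MonoidHom.range_eq_map, Subgroup.range_subtype]

lemma hb_inc_top [Fintype H] {b : MonoidAlgebra V H} (h : HB ⊤ b) : HB H (inc V H.subtype b) := by
  have h1 := (hb_inc_iff H.subtype_injective).2 h
  rwa [← MonoidHom.range_eq_map, Subgroup.range_subtype] at h1

/-- Every block of `H` is `inc` of a block idempotent of `↥H`, which is determined by an index. -/
lemma finite_hb (H : Subgroup G) : {β : MonoidAlgebra V G | HB H β}.Finite := by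
  have := Fintype.ofFinite H
  obtain ⟨I⟩ := exists_irrData H
  choose e he using St.exists_blockIdem (V := V) I
  refine (Set.finite_range fun i => inc V H.subtype (e i)).subset fun β hβ => ?_
  obtain ⟨i, hi⟩ := (HB.pull hβ).exists_blockIdem I
  have h1 : e i = pull V H.subtype β := cf_injective ((he i).trans hi.symm)
  exact ⟨i, by rw [← inc_pull_supp hβ.supp, ← h1]⟩

lemma mem_blk : β ∈ blk V H ↔ HB H β := by
  rw [blk, dif_pos (finite_hb H), Set.Finite.mem_toFinset]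
  rfl

lemma bblk_mul_sum {s : Finset (MonoidAlgebra V G)} (hs : ∀ β ∈ s, HB H β) (hβ : β ∈ s) :
    β * ∑ γ ∈ s, γ = β := by
  rw [Finset.mul_sum, Finset.sum_eq_single_of_mem β hβ
    fun γ hγ hne => (hs β hβ).orth (hs γ hγ) hne.symm, (hs β hβ).idem]

lemma bblk_sum_idem {s : Finset (MonoidAlgebra V G)} (hs : ∀ β ∈ s, HB H β) :
    (∑ β ∈ s, β) * (∑ β ∈ s, β) = ∑ β ∈ s, β ∧ Supp H (∑ β ∈ s, β) ∧ Fix H (∑ β ∈ s, β) := by
  refine ⟨?_, Supp.sum s fun β hβ => (hs β hβ).supp, Fix.sum s fun β hβ => (hs β hβ).fix⟩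
  rw [Finset.sum_mul]
  exact Finset.sum_congr rfl fun β hβ => bblk_mul_sum hs hβ

/-- If `1 - ∑ β` were nonzero, `exists_minimal_idem` (nonzero central idempotents of `H` below it)
and `hb_of_prim` would give a block below it. -/
lemma sum_blk (H : Subgroup G) : ∑ β ∈ blk V H, β = 1 := by
  have hs : ∀ β ∈ blk V H, HB H β := fun β hβ => mem_blk.1 hβ
  obtain ⟨e1, e2, e3⟩ := bblk_sum_idem hs
  by_contra hne
  obtain ⟨ε, hε, ⟨h1, h2, h3, h4⟩, hmin⟩ := exists_minimal_idem (R := V)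
    (fun x => Supp H x ∧ Fix H x ∧ x ≠ 0 ∧ x * ∑ β ∈ blk V H, β = 0)
    (J := 1 - ∑ β ∈ blk V H, β)
    (by rw [mul_sub, mul_one, sub_mul, one_mul, e1, sub_self, sub_zero])
    ⟨(supp_one H).sub e2, (fix_one H).sub e3, fun e => hne (sub_eq_zero.1 e).symm,
      by rw [sub_mul, one_mul, e1, sub_self]⟩
  have hb : HB H ε := by
    refine hb_of_prim hε h1 h2 h3 fun a ha hs' hf' => ?_
    have hc : ε * a = a * ε := h2.comm hs'
    refine or_iff_not_imp_left.2 fun h0 => hmin _ ?_ ⟨hs'.mul h1, hf'.mul h2, h0, ?_⟩ ?_ ?_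
    · rw [mul_assoc, ← mul_assoc ε, hc, mul_assoc, hε, ← mul_assoc, ha]
    · rw [mul_assoc, h4, mul_zero]
    · rw [← mul_assoc, hc, mul_assoc, hε]
    · rw [mul_assoc, hε]
  exact h3 ((bblk_mul_sum hs (mem_blk.2 hb)).symm.trans h4)

lemma exists_blk_mul_ne (H : Subgroup G) {x : MonoidAlgebra V G} (hx : x ≠ 0) :
    ∃ β, HB H β ∧ x * β ≠ 0 := by
  by_contra hno
  refine hx ?_
  rw [← mul_one x, ← sum_blk H, Finset.mul_sum]
  refine Finset.sum_eq_zero fun β hβ => ?_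
  by_contra h0
  exact hno ⟨β, mem_blk.1 hβ, h0⟩

lemma exists_blk_res_ne (H : Subgroup G) {x : MonoidAlgebra (ResidueField V) G} (hx : x ≠ 0) :
    ∃ β : MonoidAlgebra V G, HB H β ∧ x * toRes V G β ≠ 0 := by
  by_contra hno
  refine hx ?_
  rw [← mul_one x, ← map_one (toRes V G), ← sum_blk H, map_sum, Finset.mul_sum]
  refine Finset.sum_eq_zero fun β hβ => ?_
  by_contra h0
  exact hno ⟨β, mem_blk.1 hβ, h0⟩

open Classical in
lemma idem_eq_sum (hε : ε * ε = ε) (hs : Supp H ε) (hf : Fix H ε) :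
    ε = ∑ β ∈ (blk V H).filter (fun β => β * ε = β), β := by
  rw [Finset.sum_filter]
  conv_lhs => rw [← one_mul ε, ← sum_blk H, Finset.sum_mul]
  refine Finset.sum_congr rfl fun β hβ => ?_
  split_ifs with e
  · exact e
  · exact ((mem_blk.1 hβ).dich hε hs hf).resolve_right e

open Classical in
lemma res_idem_eq_sum {f : MonoidAlgebra (ResidueField V) G} (hf : f * f = f) (hs : Supp H f)
    (hx : Fix H f) :
    f = ∑ β ∈ (blk V H).filter (fun β => f * toRes V G β = toRes V G β), toRes V G β := by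
  rw [Finset.sum_filter]
  conv_lhs => rw [← mul_one f, ← map_one (toRes V G), ← sum_blk H, map_sum, Finset.mul_sum]
  refine Finset.sum_congr rfl fun β hβ => ?_
  split_ifs with e
  · exact e
  · exact ((mem_blk.1 hβ).res_dich hf hs hx).resolve_right e

/-- A sum of blocks is a central idempotent. -/
lemma sum_blk_idem {s : Finset (MonoidAlgebra V G)} (hs : ∀ β ∈ s, HB H β) :
    (∑ β ∈ s, β) * (∑ β ∈ s, β) = ∑ β ∈ s, β ∧ Supp H (∑ β ∈ s, β) ∧ Fix H (∑ β ∈ s, β) := by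
  exact bblk_sum_idem hs

lemma sum_blk_cj {M : Type} [AddCommMonoid M] (g : G) (H : Subgroup G)
    (F : MonoidAlgebra V G → M) :
    ∑ c ∈ blk V (cg g H), F c = ∑ c ∈ blk V H, F (cjRep V G g c) := by
  refine (Finset.sum_nbij' (cjRep V G g) (cjRep V G g⁻¹) (fun c hc => ?_) (fun c hc => ?_)
    (fun c _ => frpg_inv_cj g c) (fun c _ => frpg_cj_inv g c) fun c _ => rfl).symm
  · exact mem_blk.2 ((mem_blk.1 hc).conj g)
  · have h1 := (mem_blk.1 hc).conj g⁻¹
    rw [cg_cg, inv_mul_cancel, cg_one] at h1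
    exact mem_blk.2 h1

/-- In `↥H` the block is `zf (ind _)`; `chi_conj`. -/
lemma HB.star (h : HB H β) (y : G) : (starRingEnd ℂ) (cf β y) = cf β y⁻¹ := by
  by_cases hy : y ∈ H
  · have := Fintype.ofFinite H
    obtain ⟨I⟩ := exists_irrData H
    obtain ⟨i, hi⟩ := h.pull.exists_blockIdem I
    have h1 : ∀ a : H, cf β a = I.zf (ind (I.Bl V i)) a := fun a => by
      rw [← hi, cf, cf, coeff_pull]
      rfl
    have h2 := h1 ⟨y, hy⟩
    have h3 := h1 (⟨y, hy⟩ : H)⁻¹
    rw [show cf β y = _ from h2, show cf β y⁻¹ = _ from h3, IrrData.zf, IrrData.zf, map_sum]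
    refine Finset.sum_congr rfl fun j _ => ?_
    rw [map_mul, map_div₀, map_mul, chi_conj, map_natCast, map_natCast, ind]
    split_ifs
    · rw [map_one]
    · rw [map_zero]
  · have h1 : β.coeff y = 0 := by
      by_contra e
      exact hy (h.supp y e)
    have h2 : β.coeff y⁻¹ = 0 := by
      by_contra e
      exact hy (H.inv_mem_iff.1 (h.supp _ e))
    rw [cf, cf, h1, h2]
    simp

/-- The blocks of a normal subgroup covered by a block are conjugate: the sum `F` of the distinct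
`H`-conjugates of `f` is a central idempotent of `H` with `β F f = β f ≠ 0`, so `β F = β`
and `F f' ≠ 0`. -/
lemma HB.cover_conj (h : HB H β) (hKH : K ≤ H) (hn : H ≤ Nz K) {f f' : MonoidAlgebra V G}
    (hf : HB K f) (hf' : HB K f') (h0 : β * f ≠ 0) (h0' : β * f' ≠ 0) :
    ∃ g ∈ H, f' = cjRep V G g f := by
  classical
  obtain ⟨s, hs⟩ : ∃ s : Finset (MonoidAlgebra V G), ∀ c, c ∈ s ↔ ∃ g ∈ H, c = cjRep V G g f :=
    ⟨(univ.filter fun g => g ∈ H).image fun g => cjRep V G g f, fun c => by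
      simp only [Finset.mem_image, Finset.mem_filter, Finset.mem_univ, true_and, eq_comm]⟩
  have hb : ∀ c ∈ s, HB K c := fun c hc => by
    obtain ⟨g, hg, rfl⟩ := (hs c).1 hc
    exact hf.conj_norm (hn hg)
  have hm : ∀ g ∈ H, ∀ c ∈ s, cjRep V G g c ∈ s := fun g hg c hc => by
    obtain ⟨g', hg', rfl⟩ := (hs c).1 hc
    exact (hs _).2 ⟨g * g', H.mul_mem hg hg', frpg_cj_cj g g' f⟩
  obtain ⟨e1, e2, e3⟩ := bblk_sum_idem hb
  have e4 : Fix H (∑ c ∈ s, c) := fun g hg => by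
    rw [map_sum]
    exact Finset.sum_nbij' (cjRep V G g) (cjRep V G g⁻¹) (hm g hg) (hm g⁻¹ (H.inv_mem hg))
      (fun c _ => frpg_inv_cj g c) (fun c _ => frpg_cj_inv g c) fun c _ => rfl
  have e5 : (∑ c ∈ s, c) * f = f := by
    rw [e3.comm hf.supp]
    exact bblk_mul_sum hb ((hs f).2 ⟨1, H.one_mem, by rw [map_one]; rfl⟩)
  have e6 := (h.dich e1 (e2.mono hKH) e4).resolve_left fun e =>
    h0 (by rw [← e5, ← mul_assoc, e, zero_mul])
  have e7 : ∑ c ∈ s, c * f' ≠ 0 := fun e =>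
    h0' (by rw [← e6, mul_assoc, Finset.sum_mul, e, mul_zero])
  obtain ⟨c, hc, hc0⟩ := Finset.exists_ne_zero_of_sum_ne_zero e7
  rw [← (hb c hc).eq_of_mul_ne hf' hc0]
  exact (hs c).1 hc

variable {p : ℕ} [Fact p.Prime]

/-- In `↥H`: `e = pull ε`, `z = brT P e` are central, `IrrData.om_nil` and `nilR_of_om` show that
`e - z` is nil; `toRes e`, `toRes z` are commuting idempotents (`bb_mul`), `blkF_idem_eq`. -/
theorem bb_of_normal (hp : (p : ℂ) ∈ V.nonunits) {P : Subgroup G} (hP : IsPGroup p P)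
    (hPH : P ≤ H) (hn : H ≤ Nz P) (hε : ε * ε = ε) (hs : Supp H ε) (hf : Fix H ε) :
    bb P ε = toRes V G ε := by
  have := Fintype.ofFinite H
  obtain ⟨I⟩ := exists_irrData H
  have hN : (P.subgroupOf H).Normal :=
    (Subgroup.normal_subgroupOf_iff_le_normalizer hPH).2 hn
  have he : Fix ⊤ (pull V H.subtype ε) := fun a _ => by
    rw [← pull_cjRep, hf (H.subtype a) a.2]
  have hz : Fix ⊤ (brT V (P.subgroupOf H : Set H) (pull V H.subtype ε)) := by
    rw [brT_eq_trc]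
    refine he.trc (le_trans ?_ (Nz_le_Nz_Cz _))
    exact (Subgroup.normalizer_eq_top (P.subgroupOf H)).ge
  have hc := fixedBy_top_iff.1 (he.sub hz)
  have h1 := nilR_of_om I hc fun j => I.om_nil hp j (P.subgroupOf H) hP.comap_subtype
    (isCF_cf_iff.2 hc) (cf_mem _) fun x hx => by
      rw [bic_cf_sub, Pi.sub_apply, cf, cf, coeff_brT, if_pos, sub_self]
      exact fun s hs => (hx s hs).symm
  have h2 := h1.map (inc V H.subtype)
  rw [map_sub, ← bic_brT_inc, inc_pull_supp hs, Subgroup.subgroupOf_map_subtype,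
    inf_eq_left.2 hPH, nilR_iff_res, map_sub, brT_eq_trc, toRes_trc, ← bb_eq_trc] at h2
  refine (blkF_idem_eq (by rw [← map_mul, hε]) ?_ (hf.toRes.comm (hs.bb.mono inf_le_left)) h2).symm
  rw [← bb_mul hp hP (hf.mono hPH) (hf.mono hPH), hε]

end Pool.Agent.Lib.MP_b6945b_al.Bi
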