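import Pool.Agent.Lib.MP_b6945b_al.Bi.BDefs
import Pool.Agent.Lib.MP_b6945b_al.St.FrKR0
import Pool.Agent.Lib.MP_b6945b_al.FinalB

set_option autoImplicit false

/-!
The alternating sum over chains from local equalities.
-/

namespace Pool.Agent.Lib.MP_b6945b_al.Bi

open St IsLocalRing Finset
open MonoidAlgebra (single)

variable {p : ℕ} {G : Type} [Group G] [Finite G] {M : Ideal (integralClosure ℤ ℂ)}
  {V : ValuationSubring ℂ} {χ : G → ℂ} {D : Subgroup G}

/-- The blocks of `L` inducing the block of `χ` have defect groups of the order of `D` and as many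
characters as their Brauer correspondents. -/
def KEq (p : ℕ) (M : Ideal (integralClosure ℤ ℂ)) (χ : G → ℂ) (D L : Subgroup G) : Prop :=
  ∀ θ : L → ℂ, IsIrrChar θ → IndTo M χ L θ → ∀ D' : Subgroup L, IsDefectGroup p M θ D' →
    Nat.card D' = Nat.card D ∧ kInd M θ ⊤ = kInd M θ (Nz D')

open Classical in
/-- Copy of `FreeC.wf_top` and `FreeC.wf_local` (`St/FrKR1.lean`, do not import it) with `wfB`,
`wfB_le`, `CoefB`, and `hk` in place of `FreeC.local`, `FreeC.kInd_eq`. -/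
theorem wfB_local (hM : CoefB p M V) (hχ : IsIrrChar χ) (hD : IsDefectGroup p M χ D)
    [Fintype (Subgroup G)] {P L : Subgroup G} (hP : IsPGroup p P) (hPL : P ≤ L) (hL : L ≤ Nz P)
    (hk : KEq p M χ D L) :
    wfB M χ L = ∑ T ∈ univ.filter (fun T : Subgroup G => P ≤ T ∧ T ≤ L ∧ Nat.card T = Nat.card D),
      wfB M χ (L ⊓ Nz T) := by
  have hp := hM.prime
  have : Fact p.Prime := ⟨hp⟩
  let _ : Fintype (Subgroup L) := Fintype.ofFinite _
  have hQ' : IsPGroup p (P.subgroupOf L) := hP.comap_subtype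
  have hn : (P.subgroupOf L).Normal := (Subgroup.normal_subgroupOf_iff_le_normalizer hPL).2 hL
  obtain ⟨k, hk'⟩ := IsPGroup.iff_card.1 (IsDefectGroup.isPGroup' hD)
  obtain ⟨s, hs, hs'⟩ := exists_fibres hp hM.max hM.mem hχ L
  have key : ∀ L' P' : Subgroup L, IsPGroup p P' → P' ≤ L' →
      L' ≤ Subgroup.normalizer (P' : Set L) → (∀ g, (∀ u ∈ P', u * g = g * u) → g ∈ L') →
      wfB M χ (L'.map L.subtype) = ∑ θ ∈ s, wfB M θ L' := fun L' P' h1 h2 h3 h4 => by
    simp only [wfB]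
    rw [hs' L' P' h1 h2 h3 h4, Subgroup.card_map_of_injective L.subtype_injective, Finset.mul_sum]
  have e1 : wfB M χ L = ∑ θ ∈ s, wfB M θ ⊤ := by
    rw [← key ⊤ _ hQ' le_top Subgroup.le_normalizer_of_normal fun _ _ => trivial,
      ← MonoidHom.range_eq_map, Subgroup.range_subtype]
  have e2 : ∀ θ ∈ s, wfB M θ ⊤ = ∑ T ∈ univ.filter (fun T : Subgroup L =>
      P.subgroupOf L ≤ T ∧ Nat.card T = Nat.card D),
      wfB M θ (Subgroup.normalizer (T : Set L)) := by
    intro θ hθ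
    obtain ⟨D', hD'⟩ := exists_defectGroup (M := M) hp hM.max (hs θ hθ).1
    obtain ⟨h1, h0⟩ := hk θ (hs θ hθ).1 (hs θ hθ).2 D' hD'
    have h2 : wfB M θ ⊤ = ∑ T ∈ univ.filter (fun T : Subgroup L => Nat.card T = Nat.card D'),
        wfB M θ (Subgroup.normalizer (T : Set L)) := by
      simp only [wfB]
      rw [sum_conj hp hM.max hM.mem (hs θ hθ).1 hD', h0, Subgroup.card_top]
    rw [h2]
    refine (Finset.sum_subset (fun T hT => ?_) fun T hT hT' => ?_).symm
    · rw [mem_filter] at hT ⊢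
      exact ⟨hT.1, hT.2.2.trans h1.symm⟩
    · by_contra e
      have h3 := (mem_filter.1 hT).2
      exact hT' (mem_filter.2 ⟨mem_univ _, wfB_le hM (hs θ hθ).1 hD' hQ'
        (IsPGroup.of_card ((h3.trans h1).trans hk')) h3 e, h3.trans h1⟩)
  rw [e1, Finset.sum_congr rfl e2, Finset.sum_comm]
  have hcard : ∀ T : Subgroup G, T ≤ L → Nat.card (T.subgroupOf L) = Nat.card T := fun T hT =>
    Nat.card_congr (Subgroup.subgroupOfEquivOfLe hT).toEquiv
  symm
  refine Finset.sum_nbij' (fun T => T.subgroupOf L) (fun T => T.map L.subtype)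
    (fun T hT => ?_) (fun T hT => ?_) (fun T hT => ?_) (fun T _ => ?_) fun T hT => ?_
  · obtain ⟨-, h1, h2, h3⟩ := mem_filter.1 hT
    exact mem_filter.2 ⟨mem_univ _, Subgroup.comap_mono h1, (hcard T h2).trans h3⟩
  · obtain ⟨-, h1, h2⟩ := mem_filter.1 hT
    exact mem_filter.2 ⟨mem_univ _, fun q hq => ⟨⟨q, hPL hq⟩, h1 hq, rfl⟩,
      Subgroup.map_subtype_le _, (Subgroup.card_map_of_injective L.subtype_injective).trans h2⟩
  · exact Subgroup.map_subgroupOf_eq_of_le (mem_filter.1 hT).2.2.1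
  · exact Subgroup.comap_map_eq_self_of_injective L.subtype_injective T
  · obtain ⟨-, -, h2, h3⟩ := mem_filter.1 hT
    have h1 : IsPGroup p (T.subgroupOf L) := (IsPGroup.of_card (h3.trans hk')).comap_subtype
    rw [← key _ _ h1 Subgroup.le_normalizer le_rfl fun g hg => ?_,
      ← Subgroup.subgroupOf_normalizer_eq h2, Subgroup.subgroupOf_map_subtype, inf_comm]
    refine Subgroup.mem_normalizer_fintype fun u hu => ?_
    rwa [← hg u hu, mul_inv_cancel_right]

open Classical in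
omit [Finite G] in
lemma finsum_eq_chain (M : Ideal (integralClosure ℤ ℂ)) (χ : G → ℂ)
    [Fintype (Finset (Subgroup G))] :
    ∑ᶠ (σ : Finset (Subgroup G))
      (_ : IsChain (· ≤ ·) (σ : Set (Subgroup G)) ∧ ∀ P ∈ σ, IsPGroup p P ∧ P ≠ ⊥),
      (-1 : ℤ) ^ σ.card *
        ((Nat.card (⨅ P ∈ σ, Subgroup.normalizer (P : Set G) : Subgroup G) : ℤ) *
          kInd M χ (⨅ P ∈ σ, Subgroup.normalizer (P : Set G))) =
    ∑ σ : Finset (Subgroup G), if IsPChain p σ then sgn σ * (wfB M χ (stab σ) : ℤ) else 0 := by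
  rw [finsum_eq_sum_of_fintype]
  simp only [finsum_eq_if]
  refine Finset.sum_congr rfl fun σ _ => ?_
  rw [wfB, Nat.cast_mul]
  exact if_congr Iff.rfl rfl rfl

lemma bchain_hd (hp : p.Prime) (hD : IsDefectGroup p M χ D) (h0 : D ≠ ⊥) (T : Subgroup G)
    (hT : Nat.card T = Nat.card D) : IsPGroup p T ∧ T ≠ ⊥ := by
  have : Fact p.Prime := ⟨hp⟩
  obtain ⟨k, hk⟩ := IsPGroup.iff_card.1 (IsDefectGroup.isPGroup' hD)
  refine ⟨IsPGroup.of_card (hT.trans hk), fun e => h0 ?_⟩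
  rw [e, Subgroup.card_bot] at hT
  exact Subgroup.eq_bot_of_card_eq _ hT.symm

/-- As `kr_sum_free` (`St/FrKR1.lean`): `chain_sum_zero`, `wfB_card_dvd`, `wfB_local`. -/
theorem kr_of_local (hM : CoefB p M V) (hχ : IsIrrChar χ) (hD : IsDefectGroup p M χ D)
    (h0 : D ≠ ⊥) (hk : ∀ P L : Subgroup G, IsPGroup p P → P ≤ L → L ≤ Nz P →
      (∀ g, (∀ u ∈ P, u * g = g * u) → g ∈ L) → KEq p M χ D L) :
    ∑ᶠ (σ : Finset (Subgroup G))
      (_ : IsChain (· ≤ ·) (σ : Set (Subgroup G)) ∧ ∀ P ∈ σ, IsPGroup p P ∧ P ≠ ⊥),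
      (-1 : ℤ) ^ σ.card *
        ((Nat.card (⨅ P ∈ σ, Subgroup.normalizer (P : Set G) : Subgroup G) : ℤ) *
          kInd M χ (⨅ P ∈ σ, Subgroup.normalizer (P : Set G))) = 0 := by
  classical
  let _ : Fintype (Subgroup G) := Fintype.ofFinite _
  let _ : Fintype (Finset (Subgroup G)) := Fintype.ofFinite _
  rw [finsum_eq_chain]
  exact chain_sum_zero hM.prime (wfB M χ) (d := Nat.card D) (bchain_hd hM.prime hD h0)
    (fun T L h1 h2 h3 h4 => wfB_card_dvd hM hχ hD h1 h2 h3 h4)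
    fun P L h1 h2 h3 h4 => wfB_local hM hχ hD h1 h2 h3 (hk P L h1 h2 h3 h4)

/-- `chain_sum_zero` for `F L = if L = ⊤ then |G| * kInd M χ (Nz D) else wfB M χ L`.  For `L = ⊤`
the subgroup `P` is normal, so trivial, `Nz T ≠ ⊤` when `|T| = |D|`, and `sum_conj` applies; for
`L ≠ ⊤` use `wfB_local`.  A chain with `stab σ = ⊤` is empty, so the sum of `final_block`
(`finsum_eq_chain`) equals `|G| * (kInd ⊤ - kInd (Nz D))`. -/
theorem cong_of_local (hM : CoefB p M V) (hχ : IsIrrChar χ) (hD : IsDefectGroup p M χ D)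
    (h0 : D ≠ ⊥) (hc : ∀ x ∈ D, ∀ y ∈ D, x * y = y * x)
    (hO : ∀ Q : Subgroup G, Q.Normal → IsPGroup p Q → Q = ⊥)
    (hk : ∀ P L : Subgroup G, IsPGroup p P → P ≤ L → L ≤ Nz P →
      (∀ g, (∀ u ∈ P, u * g = g * u) → g ∈ L) → L ≠ ⊤ → KEq p M χ D L) :
    (p : ℤ) ∣ (kInd M χ ⊤ : ℤ) - kInd M χ (Nz D) := by
  classical
  let _ : Fintype (Subgroup G) := Fintype.ofFinite _
  let _ : Fintype (Finset (Subgroup G)) := Fintype.ofFinite _
  have hN : ∀ Q : Subgroup G, IsPGroup p Q → ⊤ ≤ Nz Q → Q = ⊥ := fun Q h1 h2 =>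
    hO Q (Subgroup.normalizer_eq_top_iff.1 (top_le_iff.1 h2)) h1
  obtain ⟨F, hF⟩ : ∃ F : Subgroup G → ℕ, ∀ L,
      F L = if L = ⊤ then Nat.card G * kInd M χ (Nz D) else wfB M χ L := ⟨_, fun _ => rfl⟩
  have hF1 : ∀ L : Subgroup G, L ≠ ⊤ → F L = wfB M χ L := fun L hL => by rw [hF, if_neg hL]
  have h1 := chain_sum_zero hM.prime F (d := Nat.card D) (bchain_hd hM.prime hD h0)
    (fun T L a1 a2 a3 a4 => by
      by_cases e : L = ⊤
      · rw [hN T a1 (e ▸ a3), Subgroup.card_bot]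
        exact one_dvd _
      · exact wfB_card_dvd hM hχ hD a1 a2 a3 (hF1 L e ▸ a4))
    (fun P L a1 a2 a3 a4 => by
      by_cases e : L = ⊤
      · subst e
        rw [hF, if_pos rfl, ← sum_conj hM.prime hM.max hM.mem hχ hD, hN P a1 a3]
        refine Finset.sum_congr ?_ fun T hT => ?_
        · ext T
          simp
        · obtain ⟨b1, b2⟩ := bchain_hd hM.prime hD h0 T (mem_filter.1 hT).2.2.2
          rw [top_inf_eq, hF1 _ fun e => b2 (hN T b1 e.ge), wfB]
      · rw [hF1 L e, wfB_local hM hχ hD a1 a2 a3 (hk P L a1 a2 a3 a4 e)]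
        exact Finset.sum_congr rfl fun T _ =>
          (hF1 _ fun e' => e (top_le_iff.1 (e'.ge.trans inf_le_left))).symm)
  have h2 := final_block p hM.prime G M hM.max hM.mem χ hχ D hD h0 hc
  have h3 : ∀ σ : Finset (Subgroup G),
      (if IsPChain p σ then sgn σ * (wfB M χ (stab σ) : ℤ) else 0) =
        (if IsPChain p σ then sgn σ * (F (stab σ) : ℤ) else 0) +
          if σ = ∅ then (Nat.card G : ℤ) * ((kInd M χ ⊤ : ℤ) - kInd M χ (Nz D)) else 0 := by
    intro σ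
    by_cases e : σ = ∅
    · have a1 : IsPChain p (∅ : Finset (Subgroup G)) := ⟨by simp, by simp⟩
      rw [if_pos e, e, if_pos a1, if_pos a1, stab_empty, hF, if_pos rfl, wfB, Subgroup.card_top,
        sgn, card_empty]
      push_cast
      ring
    · rw [if_neg e, add_zero]
      by_cases e1 : IsPChain p σ
      · obtain ⟨Q, hQ⟩ := Finset.nonempty_iff_ne_empty.2 e
        rw [if_pos e1, if_pos e1, hF1 _ fun e' => (e1.2 Q hQ).2 (hN Q (e1.2 Q hQ).1 fun g _ =>
          mem_stab.1 (e'.ge (Subgroup.mem_top g)) Q hQ)]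
      · rw [if_neg e1, if_neg e1]
  rw [finsum_eq_chain, Finset.sum_congr rfl fun σ _ => h3 σ, Finset.sum_add_distrib, h1, zero_add,
    Finset.sum_ite_eq' univ, if_pos (mem_univ _), mul_comm] at h2
  exact (mul_dvd_mul_iff_left (by exact_mod_cast Nat.card_pos.ne')).1 h2

/-- Use `g x g⁻¹` and `Sylow.ofCard` for `(cg g D).subgroupOf _` (`kr1b_card_cent_conj`,
`Sylow.card_eq_multiplicity`). -/
lemma isDefectGroup_conj (hp : p.Prime) (hD : IsDefectGroup p M χ D) (g : G) :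
    IsDefectGroup p M χ (cg g D) := by
  have : Fact p.Prime := ⟨hp⟩
  obtain ⟨⟨x, hx, P, hP⟩, hmin⟩ := hD
  have hc : IsConj x (g * x * g⁻¹) := isConj_iff.2 ⟨g, rfl⟩
  have hle : cg g D ≤ Subgroup.centralizer {g * x * g⁻¹} := by
    intro t ht
    have h1 : g⁻¹ * t * g ∈ D := (kr1_mem D g t).1 ht
    rw [hP] at h1
    have h2 := Subgroup.mem_centralizer_singleton_iff.1 (Subgroup.map_subtype_le _ h1)
    rw [Subgroup.mem_centralizer_singleton_iff]
    calc t * (g * x * g⁻¹) = g * (g⁻¹ * t * g * x) * g⁻¹ := by group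
      _ = g * x * g⁻¹ * t := by rw [h2]; group
  have hcard : Nat.card (cg g D) = Nat.card D :=
    Subgroup.card_map_of_injective (MulAut.conj g).injective
  refine ⟨⟨g * x * g⁻¹, ?_, Sylow.ofCard ((cg g D).subgroupOf _) ?_, ?_⟩, fun y hy => ?_⟩
  · have e : {h | IsConj (g * x * g⁻¹) h} = {h | IsConj x h} :=
      Set.ext fun h => ⟨fun e => hc.trans e, fun e => hc.symm.trans e⟩
    rwa [e]
  · rw [Nat.card_congr (Subgroup.subgroupOfEquivOfLe hle).toEquiv, hcard, kr1b_card_cent_conj hc,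
      hP, Subgroup.card_map_of_injective (Subgroup.subtype_injective _), P.card_eq_multiplicity]
  · rw [Sylow.coe_ofCard, Subgroup.map_subgroupOf_eq_of_le hle]
  · rw [hcard]
    exact hmin y hy

end Pool.Agent.Lib.MP_b6945b_al.Bi
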