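import Pool.Agent.Lib.MP_b6945b_al.Bi.BTr2

set_option autoImplicit false

/-!
Every Brauer pair is conjugate into a maximal pair.
-/

namespace Pool.Agent.Lib.MP_b6945b_al.Bi

open St IsLocalRing Finset
open MonoidAlgebra (single)

/-- Copy of the proof of `exists_max_pairB` (`BLib`), taking `i₀` from `exists_locPt` for `c`
(so `brT D i₀ * c = brT D i₀`; `bil_fix` gives `e * i₀ = i₀`).  At the end, with `j = cj g i₀`,
`D' = cg g D`, `i₁ = brT P j`: `f * i₁ = i₁`, so `brT D' f * brT D' j = brT D' j ≠ 0`, and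
`brT D' j * cj g c = brT D' j`, where `cj g c` commutes with `brT D' j`. -/
theorem exists_max_pair_root {k G : Type} [Field k] [IsAlgClosed k] [Group G] [Fintype G] {p : ℕ}
    (hp : p.Prime) (hpk : (p : k) = 0) {e : MonoidAlgebra k G}
    (hee : e * e = e) (he : ∀ b, e * b = b * e)
    (hloc : ∀ z, (∀ b, z * b = b * z) → ∃ v : k, IsNilpotent (z * e - v • e))
    {D : Subgroup G} (hD : IsPGroup p D) (hc : ∀ x ∈ D, ∀ y ∈ D, x * y = y * x)
    {c : MonoidAlgebra k G} (hcc : c * c = c) (hc0 : c ≠ 0) (hcs : SuppCent (D : Set G) c)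
    (hcf : ∀ b, SuppCent (D : Set G) b → c * b = b * c) (hec : brT k (D : Set G) e * c = c)
    (hb : ∀ y, e.coeff y ≠ 0 → ∀ T : Subgroup G, IsPGroup p T → (∀ t ∈ T, t * y = y * t) →
      Nat.card T ≤ Nat.card D)
    {P : Subgroup G} (hP : IsPGroup p P) {f : MonoidAlgebra k G} (hf : f * f = f) (hf0 : f ≠ 0)
    (hs : SuppCent (P : Set G) f) (hfc : ∀ b, SuppCent (P : Set G) b → f * b = b * f)
    (hef : brT k (P : Set G) e * f = f) :
    ∃ g : G, P ≤ cg g D ∧ brT k ((cg g D : Subgroup G) : Set G) f * cjRep k G g c ≠ 0 := by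
  classical
  have hE : ∀ b : MonoidAlgebra k G, SuppCent ∅ b := fun _ _ _ _ h => h.elim
  obtain ⟨i, hi, hif⟩ := exists_locPt hp hpk hP hf hs hf0
  obtain ⟨i₀, hi₀, hif₀⟩ := exists_locPt hp hpk hD hcc hcs hc0
  have hei : e * i = i := bil_fix hp hpk hee he hP hi hif hef
  have hei₀ : e * i₀ = i₀ := bil_fix hp hpk hee he hD hi₀ hif₀ hec
  obtain ⟨a, a', ha, ha', hfa, hfa', hn⟩ := hi₀.exists_trace hp hpk (hE e) (fun b _ => he b) hei₀ hb
  have hm : FixedBy (cjRep k G) D (a * i₀ * a') := fun g hg => by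
    rw [cjRep_mul, cjRep_mul, hfa g hg, hi₀.fix g hg, hfa' g hg]
  have hz : ∀ b, rtr (cjRep k G) D (Subgroup.centralizer ∅) (a * i₀ * a') * b =
      b * rtr (cjRep k G) D (Subgroup.centralizer ∅) (a * i₀ * a') := fun b =>
    frpg_comm (rtr_fixed hi₀.frpg_le hm) (hE b)
  have hbb : ∃ b, i * b * i₀ ≠ 0 := by
    by_contra hno
    have hno' : ∀ b, i * b * i₀ = 0 := fun b => by
      by_contra h1
      exact hno ⟨b, h1⟩
    have h1 : i * rtr (cjRep k G) D (Subgroup.centralizer ∅) (a * i₀ * a') = 0 := by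
      rw [tr_apply, Finset.mul_sum]
      refine Finset.sum_eq_zero fun q _ => ?_
      split_ifs
      · have h2 := congrArg (· * (a' * single q.out⁻¹ 1)) (hno' (single q.out 1 * a))
        simp only [zero_mul, mul_assoc] at h2
        rw [cjRep_apply]
        simpa only [mul_assoc] using h2
      · exact mul_zero _
    obtain ⟨v, hv⟩ := hloc _ hz
    generalize rtr (cjRep k G) D (Subgroup.centralizer ∅) (a * i₀ * a') = z at hn hz h1 hv
    have key : ∀ x, e * x = x → IsNilpotent (z * x - v • x) := by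
      intro x hx
      have h2 : Commute (z * e - v • e) x :=
        Commute.sub_left (Commute.mul_left (hz x) (he x)) (Commute.smul_left (he x) v)
      have h3 := h2.isNilpotent_mul_right hv
      rwa [sub_mul, mul_assoc, smul_mul_assoc, hx] at h3
    have hv0 : v ≠ 0 := by
      rintro rfl
      have h2 := key i₀ hei₀
      rw [zero_smul, sub_zero] at h2
      exact hn h2
    have h2 := key i hei
    rw [hz, h1, zero_sub] at h2
    have h3 := h2.neg.smul v⁻¹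
    rw [neg_neg, smul_smul, inv_mul_cancel₀ hv0, one_smul] at h3
    exact hi.frpg_not_nil h3
  obtain ⟨b, hb0⟩ := hbb
  obtain ⟨g, -, hle, d, d', hc1, hc2, hdd⟩ := hi.exists_conj hi₀ (hE b) hb0 ha ha' hfa hfa' hn
  refine ⟨g, hle, fun h => ?_⟩
  have hD' : IsPGroup p (D.map (MulAut.conj g).toMonoidHom) := hD.map _
  have hcm : ∀ u ∈ D.map (MulAut.conj g).toMonoidHom, ∀ t ∈ P, u * t = t * u :=
    fun u hu t ht => bil_pgroup_comm hc g u hu t (hle ht)
  have hj := hi₀.conj g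
  have hj1 := hj.brauer hp hpk hD' hle hcm
  rw [Set.image_empty, Set.empty_union] at hj1
  have hjP : FixedBy (cjRep k G) P (cjRep k G g i₀) := fun u hu => hj.fix u (hle hu)
  rcases hj1.central_idem hf hs hfc with h1 | h1
  · apply hi.brT_ne
    have hic : FixedBy (cjRep k G) P (i * d) := fun u hu => by
      rw [cjRep_mul, hi.fix u hu, hc1 u hu]
    have hicj : FixedBy (cjRep k G) P (i * d * cjRep k G g i₀) := fun u hu => by
      rw [cjRep_mul, hic u hu, hjP u hu]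
    have h2 := congrArg (brT k (P : Set G)) hdd
    rw [frpg_brT_mul hp hpk hP hicj hc2, frpg_brT_mul hp hpk hP hic hjP] at h2
    rw [← hif, ← hfc _ (suppCent_brT _ _), ← h2, ← mul_assoc, ← mul_assoc,
      hfc _ (suppCent_brT _ (i * d)), mul_assoc _ f, h1, mul_zero, zero_mul]
  · apply hj1.brT_ne
    have hfD : FixedBy (cjRep k G) (D.map (MulAut.conj g).toMonoidHom) f := fun u hu =>
      frpg_fix_of_comm hfc u (frpg_cent.1 (hcm u hu))
    have h2 : cjRep k G g c * brT k ((cg g D : Subgroup G) : Set G)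
        (brT k (P : Set G) (cjRep k G g i₀)) = brT k ((cg g D : Subgroup G) : Set G)
        (brT k (P : Set G) (cjRep k G g i₀)) := by
      rw [brT_brT (SetLike.coe_subset_coe.2 hle), frpg_brT_cj (S := (D : Set G))
        (S' := (cg g D : Subgroup G)) g
        (fun s hs => ⟨s, hs, rfl⟩) (fun s hs => frpg_mem_conj.1 hs), ← cjRep_mul,
        hcf _ (suppCent_brT _ _), hif₀]
    rw [← h1, frpg_brT_mul hp hpk hD' hfD hj1.fix, ← h2, ← mul_assoc, h, zero_mul]

variable {G : Type} [Group G] [Fintype G] {V : ValuationSubring ℂ} {p : ℕ} [Fact p.Prime]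
  {m : ℕ} {H H' K D D' P : Subgroup G} {β c c' f : MonoidAlgebra V G}

/-- `exists_max_pair_root` over the residue field (`IsBlock.loc_resB`,
`MonicSplit.isAlgClosed`), then `le_dich` with `H := Cz P`, `K := Cz (cg g D)`. -/
theorem Rt.max_pair_top (hp : (p : ℂ) ∈ V.nonunits) (h : Rt p m ⊤ D c) (hP : IsPGroup p P)
    (hf : HB (Cz P) f) (hl : Le P (bk D c ⊤) f) :
    ∃ g, P ≤ cg g D ∧ Le (cg g D) f (cjRep V G g c) := by
  obtain ⟨hβ, hlc⟩ := h.spec hp (K := ⊤) le_top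
  have hB := hb_top_iff.1 hβ
  have := (monicSplit_valuationSubring V).isAlgClosed
  obtain ⟨g, hle, hne⟩ := exists_max_pair_root (k := ResidueField V) Fact.out (bil_pk hp)
    (e := toRes V G (bk D c ⊤)) (by rw [← map_mul, hB.idem]) (bil_cent hB.cent) hB.loc_resB
    h.pD h.comm (c := toRes V G c) (by rw [← map_mul, h.root.idem]) h.root.res_ne
    (supp_Cz_iff.1 h.root.supp.toRes) (fun b hb => h.root.fix.toRes.comm (supp_Cz_iff.2 hb)) hlc
    (fun y hy T hT hTy => h.max y (by rwa [coeff_toRes, Ne, residue_eq_zero_iff] at hy) T le_top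
      hT hTy)
    hP (f := toRes V G f) (by rw [← map_mul, hf.idem]) hf.res_ne (supp_Cz_iff.1 hf.supp.toRes)
    (fun b hb => hf.fix.toRes.comm (supp_Cz_iff.2 hb)) hl
  have h' := h.conj hp g
  rw [← toRes_cjB] at hne
  exact ⟨g, hle, (le_dich hp h'.pD (h'.le_Cz.trans (Cz_anti hle)) hf.idem hf.supp hf.fix h'.root
    inf_le_right (Cz_anti hle) (Cz_le_Nz _)).resolve_left hne⟩

lemma bmax_map_cg {A B : Type} [Group A] [Group B] (φ : A →* B) (g : A) (T : Subgroup A) :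
    (cg g T).map φ = cg (φ g) (T.map φ) := by
  simp only [Subgroup.map_map]
  congr 1
  ext x
  simp

omit [Fintype G] in
lemma bmax_cg_self {g : G} (hg : g ∈ H) : cg g H = H := cg_eq_iff.2 (Subgroup.le_normalizer hg)

/-- `Rt.pull`, `Rt.max_pair_top` in `↥H`, `Rt.bk_map`, `le_inc_iff`, `hb_inc_iff`, `Cz_map`,
`bic_inc_cj`. -/
theorem Rt.max_pair (hp : (p : ℂ) ∈ V.nonunits) (h : Rt p m H D c) (hP : IsPGroup p P)
    (hPH : P ≤ H) (hf : HB (H ⊓ Cz P) f) (hl : Le P (bk D c H) f) :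
    ∃ g ∈ H, P ≤ cg g D ∧ Le (cg g D) f (cjRep V G g c) := by
  let _ : Fintype H := Fintype.ofFinite _
  have hinj := H.subtype_injective
  have hPm : (P.subgroupOf H).map H.subtype = P := Subgroup.map_subgroupOf_eq_of_le hPH
  have hf1 := inc_pull_supp (hf.supp.mono inf_le_left)
  have hbk := h.bk_map hp (K := ⊤) le_top
  rw [map_top_sub] at hbk
  obtain ⟨g, h1, h2⟩ := (h.pull hp).max_pair_top hp (P := P.subgroupOf H)
    (f := St.pull V H.subtype f) hP.comap_subtype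
    ((hb_inc_iff hinj).1 (by rwa [Cz_map hinj, Subgroup.range_subtype, hPm, hf1]))
    ((le_inc_iff hinj).1 (by rwa [hPm, hf1, ← hbk]))
  have h3 := Subgroup.map_mono (f := H.subtype) h1
  have h4 := (le_inc_iff hinj).2 h2
  rw [hPm, bmax_map_cg, h.map_sub] at h3
  rw [bmax_map_cg, h.map_sub, hf1, bic_inc_cj, h.inc_pull] at h4
  exact ⟨g, g.2, h3, h4⟩

/-- Maximal pairs are conjugate (`eq_of_le`; `Cz (cg g D) ≤ H`). -/
theorem Rt.root_conj (hp : (p : ℂ) ∈ V.nonunits) (h : Rt p m H D c) (hD' : IsPGroup p D')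
    (hle : D' ≤ H) (hcard : Nat.card D ≤ Nat.card D') (hc' : HB (H ⊓ Cz D') c')
    (hl : Le D' (bk D c H) c') : ∃ g ∈ H, D' = cg g D ∧ c' = cjRep V G g c := by
  obtain ⟨g, hg, h1, h2⟩ := h.max_pair hp hD' hle hc' hl
  have h3 : D' = cg g D := Subgroup.eq_of_le_of_card_ge h1 (by rwa [card_cg])
  subst h3
  have h' := h.conj hp g
  rw [bmax_cg_self hg] at h'
  rw [inf_eq_right.2 h'.le] at hc'
  exact ⟨g, hg, rfl, eq_of_le hc' h'.root le_rfl h2⟩

lemma Rt.root_conj' (hp : (p : ℂ) ∈ V.nonunits) (h : Rt p m H D c) (hc' : HB (Cz D) c')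
    (hl : Le D (bk D c H) c') : ∃ g ∈ H, g ∈ Nz D ∧ c' = cjRep V G g c := by
  obtain ⟨g, hg, h1, h2⟩ := h.root_conj hp h.pD h.le_H le_rfl
    (by rwa [inf_eq_right.2 h.le]) hl
  exact ⟨g, hg, cg_eq_iff.1 h1.symm, h2⟩

lemma Rt.bk_root_conj (hp : (p : ℂ) ∈ V.nonunits) (h : Rt p m H D c) (hK : Cz D ≤ K) {g : G}
    (hg : g ∈ K) (hn : g ∈ Nz D) : bk D (cjRep V G g c) K = bk D c K := by
  have h1 := h.bk_conj hp hK g
  rwa [cg_eq_iff.2 hn, bmax_cg_self hg, (h.spec hp hK).1.fix g hg] at h1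

/-- `Rt.root_conj` in `H'` for the pair `(cg n D, cj n c)`. -/
lemma Rt.frattini (hp : (p : ℂ) ∈ V.nonunits) (h' : Rt p m H' D c) (hH : H' ≤ H) {n : G}
    (hn : n ∈ stabT H H' (bk D c H')) : ∃ k ∈ H', ∃ t ∈ stabT H D c, n = k * t := by
  obtain ⟨hn1, hn2, hn3⟩ := mem_stabT.1 hn
  have h1 := h'.conj hp n
  rw [cg_eq_iff.2 hn2] at h1
  have h2 := (h'.spec hp h'.le).2.cj n
  rw [hn3] at h2
  obtain ⟨k, hk, h3, h4⟩ := h'.root_conj hp h1.pD h1.le_H (card_cg n D).ge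
    (by rw [inf_eq_right.2 h1.le]; exact h1.root) h2
  refine ⟨k, hk, k⁻¹ * n, mem_stabT.2 ⟨H.mul_mem (H.inv_mem (hH hk)) hn1, cg_eq_iff.1 ?_, ?_⟩,
    (mul_inv_cancel_left k n).symm⟩
  · rw [← cg_cg, h3, cg_cg, inv_mul_cancel, cg_one]
  · rw [← frpg_cj_cj, h4, frpg_inv_cj]

omit [Fact p.Prime] in
/-- The map `A × B → G`, `(a, b) ↦ a b` has fibres with at least `|Z|` elements over its image:
`(s, z) ↦ (a s * z, z⁻¹ * b s)` is an injection `S × Z → A × B`. -/
lemma card_le_of_prod {S A B Z : Subgroup G} (hA : Z ≤ A) (hB : Z ≤ B)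
    (hm : Nat.card B ≤ m * Nat.card Z) (h : ∀ s ∈ S, ∃ a ∈ A, ∃ b ∈ B, s = a * b) :
    Nat.card S ≤ m * Nat.card A := by
  choose a ha b hb hab using h
  let F : S × Z → A × B := fun x =>
    (⟨a x.1 x.1.2 * x.2, A.mul_mem (ha _ _) (hA x.2.2)⟩,
      ⟨(x.2 : G)⁻¹ * b x.1 x.1.2, B.mul_mem (B.inv_mem (hB x.2.2)) (hb _ _)⟩)
  have hF : Function.Injective F := by
    rintro ⟨s, z⟩ ⟨s', z'⟩ e
    have e1 : a s s.2 * z = a s' s'.2 * z' := congrArg (fun y : A × B => (y.1 : G)) e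
    have e2 : (z : G)⁻¹ * b s s.2 = (z' : G)⁻¹ * b s' s'.2 :=
      congrArg (fun y : A × B => (y.2 : G)) e
    have e3 : s = s' := Subtype.ext (by
      calc (s : G) = a s s.2 * z * ((z : G)⁻¹ * b s s.2) := by
            rw [mul_assoc, mul_inv_cancel_left]; exact hab s s.2
        _ = s' := by rw [e1, e2, mul_assoc, mul_inv_cancel_left]; exact (hab s' s'.2).symm)
    subst e3
    exact Prod.ext rfl (Subtype.ext (mul_left_cancel e1))
  have h1 := Nat.card_le_card_of_injective F hF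
  rw [Nat.card_prod, Nat.card_prod] at h1
  refine Nat.le_of_mul_le_mul_right (h1.trans ?_) (Nat.card_pos (α := Z))
  rw [mul_comm m, mul_assoc]
  exact Nat.mul_le_mul_left _ hm

lemma Rt.card_stab_le (hp : (p : ℂ) ∈ V.nonunits) (h : Rt p m H D c) (h' : Rt p m H' D c)
    (hH : H' ≤ H) : Nat.card (stabT H H' (bk D c H')) ≤ m * Nat.card H' := by
  exact card_le_of_prod h'.le h.Cz_le_stab h.inert fun s hs => h'.frattini hp hH hs

/-- First main theorem, uniqueness.  `bb D β = toRes β ≠ 0` (`bb_of_normal`), `exists_root` gives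
a root `c'` of `β`; `Le D (bk D c H) c'`; `Rt.root_conj'`; conjugate back. -/
lemma Rt.bk_unique (hp : (p : ℂ) ∈ V.nonunits) (h : Rt p m H D c) (hβ : HB (H ⊓ Nz D) β)
    (hl : Le D (bk D c H) β) : β = bk D c (H ⊓ Nz D) := by
  have hD : D ≤ H ⊓ Nz D := le_inf h.le_H Subgroup.le_normalizer
  have hK : Cz D ≤ H ⊓ Nz D := le_inf h.le (Cz_le_Nz D)
  obtain ⟨c', h1, h2⟩ := exists_root hp h.pD hD hβ.idem hβ.supp hβ.fix (by
    rw [bb_of_normal hp h.pD hD inf_le_right hβ.idem hβ.supp hβ.fix]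
    exact hβ.res_ne)
  rw [inf_eq_right.2 hK] at h1
  obtain ⟨g, hg, hn, rfl⟩ := h.root_conj' hp h1 (hl.trans hp h2 h.pD le_rfl
    Subgroup.le_normalizer ((h.spec hp h.le).1.fix.mono h.le_H) (hβ.fix.mono hD))
  have h3 := h2.cj g⁻¹
  rw [frpg_inv_cj, cg_eq_iff.2 (Subgroup.inv_mem _ hn),
    hβ.fix g⁻¹ (Subgroup.inv_mem _ ⟨hg, hn⟩)] at h3
  exact (h.bk_eq hp hK hβ h3).symm

/-- `res_idem_eq_sum` for `bb D (bk D c H)` in `H ⊓ Nz D`, `Rt.bk_unique`, `Rt.below`. -/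
lemma Rt.bb_bk (hp : (p : ℂ) ∈ V.nonunits) (h : Rt p m H D c) :
    bb D (bk D c H) = toRes V G (bk D c (H ⊓ Nz D)) := by
  classical
  have hK : Cz D ≤ H ⊓ Nz D := le_inf h.le (Cz_le_Nz D)
  have hB := (h.spec hp h.le).1
  refine (res_idem_eq_sum (H := H ⊓ Nz D) (bb_idem hp h.pD hB.idem (hB.fix.mono h.le_H))
    ((supp_bb D _).mono hK) ((hB.fix.mono inf_le_left).bb inf_le_right)).trans
    (Finset.sum_eq_single_of_mem _ ?_ fun β hβ hne => ?_)
  · rw [Finset.mem_filter]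
    exact ⟨mem_blk.2 (h.spec hp hK).1,
      h.below hp le_rfl h.le (inf_le_right.trans hK) inf_le_left inf_le_right⟩
  · rw [Finset.mem_filter] at hβ
    exact absurd (h.bk_unique hp (mem_blk.1 hβ.1) hβ.2) hne

/-- All roots have the same inertial index (`Rt.root_conj'`, `stabT_conj`). -/
lemma Rt.inB (hp : (p : ℂ) ∈ V.nonunits) (h : Rt p m ⊤ D c) : InB m (bk D c ⊤) D := by
  intro c' hc' hl
  obtain ⟨g, -, hn, rfl⟩ := h.root_conj' hp hc' hl
  have h1 := stabT_conj g ⊤ D c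
  rw [cg_top, cg_eq_iff.2 hn] at h1
  rw [h1, card_cg]
  exact h.inert

end Pool.Agent.Lib.MP_b6945b_al.Bi
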