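import Pool.Agent.Lib.MP_b6945b_al.Bi.BChain
import Pool.Agent.Lib.MP_b6945b_al.Bi.BMax
import Pool.Agent.Lib.MP_b6945b_al.Bi.BAdd
import Pool.Agent.Lib.MP_b6945b_al.InertDefs

set_option autoImplicit false

/-!
From characters to block idempotents.
-/

namespace Pool.Agent.Lib.MP_b6945b_al.Bi

open St IsLocalRing Finset
open MonoidAlgebra (single)

variable {G : Type} [Group G] [Fintype G] {V : ValuationSubring ℂ} {p : ℕ} [Fact p.Prime]

variable {m : ℕ} {M : Ideal (integralClosure ℤ ℂ)} {χ : G → ℂ} {D : Subgroup G}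
  {c e : MonoidAlgebra V G}

/-- A block with a nontrivial abelian defect group and inertial index at most `m`. -/
structure Cl (p m : ℕ) (M : Ideal (integralClosure ℤ ℂ)) (V : ValuationSubring ℂ) (χ : G → ℂ)
    (D : Subgroup G) : Prop where
  irr : IsIrrChar χ
  defect : IsDefectGroup p M χ D
  ne : D ≠ ⊥
  comm : ∀ x ∈ D, ∀ y ∈ D, x * y = y * x
  inert : ∀ (I : IrrData G) (i : Fin I.n) (e : MonoidAlgebra V G), χ = I.χ i →
    IsBlockIdem I i e → InB m e D

omit [Fact p.Prime] in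
lemma InB.conj (h : InB m e D) (he : Fix ⊤ e) (g : G) : InB m e (cg g D) := by
  intro c hc hl
  have h1 := hc.conj g⁻¹
  have h2 := hl.cj g⁻¹
  rw [← Cz_cg, cg_cg, inv_mul_cancel, cg_one] at h1
  rw [cg_cg, inv_mul_cancel, cg_one, he g⁻¹ trivial] at h2
  have h3 := stabT_conj g ⊤ D (cjRep V G g⁻¹ c)
  rw [cg_top, frpg_cj_inv] at h3
  rw [h3, card_cg, Cz_cg, card_cg]
  exact h _ h1 h2

omit [Fact p.Prime] in
/-- `hb_inc_iff`, `le_inc_iff`, `Cz_map`, `stabT_inc`, `stabT_mono`. -/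
lemma InB.local {L : Subgroup G} [Fintype L] {D' : Subgroup L} {e' : MonoidAlgebra V L}
    (h : InB m e (D'.map L.subtype)) (hC : Cz (D'.map L.subtype) ≤ L)
    (hb : bb (D'.map L.subtype) e * bb (D'.map L.subtype) (inc V L.subtype e') =
      bb (D'.map L.subtype) (inc V L.subtype e')) : InB m e' D' := by
  intro c' hc' hl'
  have hinj := L.subtype_injective
  have h0 : (Cz D').map L.subtype = Cz (D'.map L.subtype) := by
    rw [Cz_map hinj, Subgroup.range_subtype, inf_eq_right.2 hC]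
  have h1 := (hb_inc_iff hinj).2 hc'
  have h2 := (le_inc_iff hinj).2 hl'
  rw [h0] at h1
  have h3 : Le (D'.map L.subtype) e (inc V L.subtype c') := by
    unfold Le at h2 ⊢
    rw [← h2, ← mul_assoc, hb]
  have h4 := (Subgroup.card_le_of_le (stabT_mono (H' := (⊤ : Subgroup L).map L.subtype) le_top
    (D'.map L.subtype) (inc V L.subtype c'))).trans (h _ h1 h3)
  rwa [stabT_inc hinj, ← h0, Subgroup.card_map_of_injective hinj,
    Subgroup.card_map_of_injective hinj] at h4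

/-- As `FreeC.local` (`St/FrKR1.lean`) and `FreeB.of_indV` (`St/FrLB.lean`), with `local_conjB`,
`IndV.belowB`, `bil_below`, `InB.conj`, `InB.local`. -/
theorem Cl.local (hM : CoefB p M V) (h : Cl p m M V χ D) {P L : Subgroup G} [Fintype L]
    (hP : IsPGroup p P) (hPL : P ≤ L) (hL : L ≤ Nz P)
    (hC : ∀ g, (∀ u ∈ P, u * g = g * u) → g ∈ L) {θ : L → ℂ} (hθ : IsIrrChar θ)
    (hi : IndTo M χ L θ) {D' : Subgroup L} (hD' : IsDefectGroup p M θ D') :
    Cl p m M V θ D' ∧ Nat.card D' = Nat.card D := by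
  classical
  obtain ⟨I⟩ := exists_irrData G
  have hV := hM.iff
  have hpV := hM.nonunit
  obtain ⟨i, rfl⟩ := (isIrrChar_iff I).1 h.irr
  have hDV := defV_of_isDefectGroup hV I i h.defect
  obtain ⟨hPD, g, hg⟩ : P ≤ D'.map L.subtype ∧
      ∃ g : G, D'.map L.subtype = D.map (MulAut.conj g).toMonoidHom := by
    obtain ⟨I'⟩ := exists_irrData L
    obtain ⟨j, rfl⟩ := (isIrrChar_iff I').1 hθ
    exact local_conjB hpV hDV h.comm hP hPL hL hC ((kr1b_indTo_iff hV I i I' j).1 hi)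
      (defV_of_isDefectGroup hV I' j hD')
  have hcard : Nat.card D' = Nat.card D := by
    rw [← Subgroup.card_map_of_injective (K := D') L.subtype_injective, hg,
      Subgroup.card_map_of_injective (MulAut.conj g).injective]
  refine ⟨⟨hθ, hD', fun e => h.ne ?_, fun x hx y hy => ?_, fun I' j e' hj he' => ?_⟩, hcard⟩
  · rw [e, Subgroup.card_bot] at hcard
    exact Subgroup.eq_bot_of_card_eq _ hcard.symm
  · exact Subtype.ext (bil_pgroup_comm h.comm g x (hg ▸ ⟨x, hx, rfl⟩) y (hg ▸ ⟨y, hy, rfl⟩))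
  · subst hj
    obtain ⟨e, he⟩ := St.exists_blockIdem (V := V) I i
    have hb := IndV.belowB hpV he hP hPL hL hC ((kr1b_indTo_iff hV I i I' j).1 hi) he'
    refine InB.local (e := e) ?_ (fun u hu => hC u fun t ht => hu t (hPD ht))
      (bil_below hpV he.isBlock.cent he'.isBlock.cent
        ((IsDefectGroup.isPGroup' hD').map _) (Subgroup.map_subtype_le D') hPD hb)
    rw [hg]
    exact (h.inert I i e rfl he).conj (fixedBy_top_iff.2 he.isBlock.cent) g

/-- `kInd_top_eq_card`, `kL_top`; `kInd_eq_card`, `exists_correspondent`; for the block idempotent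
`f` of `i'` in `Nz D`: `IndV.belowB`, `le_iff_inMax`-style computation with `bb_mul`,
`bb_of_normal` give `Le D e (inc f)`, so `inc f = bk D c (Nz D)` (`Rt.bk_unique`); `kL_inc`. -/
theorem kInd_eq_kL (hM : CoefB p M V) (h : Rt p m ⊤ D c) {I : IrrData G} {i : Fin I.n}
    (he : IsBlockIdem I i (bk D c ⊤)) (hD : IsDefectGroup p M (I.χ i) D) :
    kInd M (I.χ i) ⊤ = kL ⊤ (bk D c ⊤) ∧ kInd M (I.χ i) (Nz D) = kL (Nz D) (bk D c (Nz D)) := by
  classical
  have hV := hM.iff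
  have hpV := hM.nonunit
  refine ⟨by rw [kInd_top_eq_card hV, kL_top he], ?_⟩
  let _ : Fintype (Nz D) := Fintype.ofFinite _
  obtain ⟨I'⟩ := exists_irrData (Nz D)
  have hDV := defV_of_isDefectGroup hV I i hD
  obtain ⟨i', hi'⟩ := exists_correspondent hpV hDV rfl I'
  obtain ⟨f, hf⟩ := St.exists_blockIdem (V := V) I' i'
  have hDN : D ≤ Nz D := Subgroup.le_normalizer
  have hb := IndV.belowB hpV he h.pD hDN le_rfl
    (fun g hg => Cz_le_Nz D (mem_Cz.2 fun d hd => (hg d hd).symm))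
    ((hi' i').1 fun a _ => by rw [sub_self]; exact zero_mem _) hf
  have h1 := hb_inc_top (hb_of_blockIdem hf)
  have h2 : bb D (bk D c ⊤) * bb D (inc V (Nz D).subtype f) = bb D (inc V (Nz D).subtype f) :=
    bil_below hpV he.isBlock.cent hf.isBlock.cent h.pD hDN le_rfl hb
  rw [bb_of_normal hpV h.pD hDN le_rfl h1.idem h1.supp h1.fix] at h2
  have h3 := h.bk_unique hpV (by rwa [top_inf_eq]) h2
  have h4 := kL_inc (Nz D).subtype_injective (supp_top f)
  rw [top_inf_eq] at h3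
  rw [map_top_sub, h3] at h4
  rw [kInd_eq_card hV I i _ I', h4, kL_top hf]
  exact congrArg Finset.card (Finset.filter_congr fun j _ => (hi' j).symm)

/-- `DefV.exists_coeff`, `exists_root`, `bk_eq`, `DefV.conj_of_coeff`, `blkF_card_le`. -/
theorem Cl.exists_rt (hM : CoefB p M V) (h : Cl p m M V χ D) :
    ∃ c : MonoidAlgebra V G, Rt p m ⊤ D c ∧ kInd M χ ⊤ = kL ⊤ (bk D c ⊤) ∧
      kInd M χ (Nz D) = kL (Nz D) (bk D c (Nz D)) := by
  obtain ⟨I⟩ := exists_irrData G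
  have hpV := hM.nonunit
  obtain ⟨i, rfl⟩ := (isIrrChar_iff I).1 h.irr
  have hDV := defV_of_isDefectGroup hM.iff I i h.defect
  obtain ⟨e, he⟩ := St.exists_blockIdem (V := V) I i
  have hb := hb_of_blockIdem he
  obtain ⟨y, hy, hy'⟩ := hDV.exists_coeff hpV he
  obtain ⟨c, hc, hl⟩ := exists_root hpV hDV.pD le_top hb.idem hb.supp hb.fix (bil_ne hy hy')
  rw [top_inf_eq] at hc
  have h1 : bk D c ⊤ = e := bk_eq hpV hDV.pD le_top hb hc.res_ne hl
  have h2 : Rt p m ⊤ D c := by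
    refine ⟨hDV.pD, h.comm, le_top, hc, ?_, h.inert I i e rfl he c hc hl⟩
    rw [h1]
    intro z hz S _ hS hSz
    obtain ⟨g, hg⟩ := hDV.conj_of_coeff hpV he hz hS hSz
    exact blkF_card_le hg
  exact ⟨c, h2, kInd_eq_kL hM h2 (h1 ▸ he) h.defect⟩

/-- `HB.exists_blockIdem`, `exists_defectGroup` gives `D₀`; `DefV.conj_of_coeff` conjugates `D`
into `D₀`, `DefV.exists_coeff` and `MaxR` give `|D₀| ≤ |D|`; `isDefectGroup_conj`.  For `inert`:
the block idempotent of `χ` does not depend on `I`: if `χ = I.χ i = I'.χ i'` then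
`om i' (cf e) = om i (cf e) = 1` (`ev_chi_eq_om`), so `e e' ≠ 0` (`bic_om_mul`),
`HB.eq_of_mul_ne`; `Rt.inB`. -/
theorem Rt.exists_cl (hM : CoefB p M V) (h : Rt p m ⊤ D c) (h0 : D ≠ ⊥) :
    ∃ χ : G → ℂ, Cl p m M V χ D ∧ kInd M χ ⊤ = kL ⊤ (bk D c ⊤) ∧
      kInd M χ (Nz D) = kL (Nz D) (bk D c (Nz D)) := by
  obtain ⟨I⟩ := exists_irrData G
  have hpV := hM.nonunit
  obtain ⟨hb, hl⟩ := h.spec hpV (K := ⊤) le_top
  obtain ⟨i, he⟩ := hb.exists_blockIdem I
  have hχ : IsIrrChar (I.χ i) := (isIrrChar_iff I).2 ⟨i, rfl⟩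
  obtain ⟨D₀, hD₀⟩ := exists_defectGroup (M := M) hM.prime hM.max hχ
  have hDV := defV_of_isDefectGroup hM.iff I i hD₀
  obtain ⟨y, hy, hy'⟩ := bb_ne_zero_iff.1 (hl.bb_ne h.root.res_ne)
  obtain ⟨g, hg⟩ := hDV.conj_of_coeff hpV he hy' h.pD fun s hs => (mem_Cz.1 hy s hs).symm
  obtain ⟨y₀, hy₀, hy₀'⟩ := hDV.exists_coeff hpV he
  have h1 : D = cg g D₀ := Subgroup.eq_of_le_of_card_ge (fun s hs => mem_cg.2 (hg s hs)) (by
    rw [card_cg]
    exact h.max y₀ hy₀' D₀ le_top hDV.pD fun s hs => (hy₀ s hs).symm)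
  have hD : IsDefectGroup p M (I.χ i) D := h1 ▸ isDefectGroup_conj hM.prime hD₀ g
  refine ⟨I.χ i, ⟨hχ, hD, h0, h.comm, fun I' i' e' hi he' => ?_⟩, kInd_eq_kL hM h he hD⟩
  have h2 : e' = bk D c ⊤ := by
    refine (hb_of_blockIdem he').eq_of_mul_ne hb fun e0 => I'.d_ne i' ?_
    have h3 := ev_chi_central I i e' hb.fix
    rw [e0, ev_zero, blkF_om_self he, one_mul, hi, ev_chi_eq_om, blkF_om_self he', mul_one] at h3
    exact h3.symm
  rw [h2]
  exact h.inB hpV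

omit [Fact p.Prime] in
lemma bcls_nil (hc : HB (Cz D) c) {n : G} (hn : n ∈ Nz D) (hnc : cjRep V G n c = c)
    {z : MonoidAlgebra V G} (hs : Supp (Cz D) z) (hf : Fix (Cz D) z) :
    NilR V ((z - cjRep V G n z) * c) := by
  obtain ⟨v, hv⟩ := hc.loc z hs hf
  have h1 := bblk_nil_cj hv n
  have h2 := ((hs.mul hc.supp).sub (hc.supp.smul v)).cj n
  rw [cg_eq_iff.2 (Nz_le_Nz_Cz D hn)] at h2
  have h3 := hv.add (h1.smul (-1))
    (((hf.mul hc.fix).sub (hc.fix.smul v)).comm (h2.smul (-1)))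
  rwa [neg_one_smul, map_sub, map_smul, cjRep_mul, hnc, ← sub_eq_add_neg, sub_sub_sub_cancel_right,
    ← sub_mul] at h3

omit [Fact p.Prime] in
lemma bcls_stab (hV : ∀ a : ℂ, IsIntegral ℤ a → (InIdeal M a ↔ a ∈ V.nonunits))
    (hc : HB (Cz D) c) [Fintype (Cz D)] {I' : IrrData (Cz D)} {l : Fin I'.n}
    (hl : ∀ z : MonoidAlgebra V (Cz D), (∀ b, z * b = b * z) →
      NilR V (z * pull V (Cz D).subtype c) → I'.om l (cf z) ∈ V.nonunits)
    {n : G} (hn : n ∈ Nz D) (hnc : cjRep V G n c = c) (x : Cz D) :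
    InIdeal M (omega (I'.χ l) {y | IsConj x y} -
      omega (I'.χ l) {y | ∃ z, IsConj x z ∧ (y : G) = n * z * n⁻¹}) := by
  have hinj := (Cz D).subtype_injective
  have hσ : ∀ y : Cz D, n⁻¹ * y * n ∈ Cz D := fun y => by
    simpa using bpp_Nz_Cz (Subgroup.inv_mem _ hn) y.2
  have hS : ∀ y : Cz D,
      (∃ z : Cz D, IsConj x z ∧ (y : G) = n * z * n⁻¹) ↔ IsConj x ⟨_, hσ y⟩ := by
    intro y
    constructor
    · rintro ⟨z, hz1, hz2⟩
      have h1 : (⟨_, hσ y⟩ : Cz D) = z :=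
        Subtype.ext (show n⁻¹ * y * n = z by rw [hz2]; group)
      rwa [h1]
    · intro h1
      exact ⟨_, h1, show (y : G) = n * (n⁻¹ * y * n) * n⁻¹ by group⟩
  have hS' : ∀ c y : Cz D,
      (∃ z : Cz D, IsConj x z ∧ ((c * y * c⁻¹ : Cz D) : G) = n * z * n⁻¹) ↔
      ∃ z : Cz D, IsConj x z ∧ (y : G) = n * z * n⁻¹ := by
    intro c y
    rw [hS, hS, ← isConj_conj_iff x ⟨_, hσ c⟩ ⟨_, hσ y⟩]
    refine iff_of_eq (congrArg _ (Subtype.ext ?_))
    change n⁻¹ * (c * y * (c : G)⁻¹) * n = n⁻¹ * c * n * (n⁻¹ * y * n) * (n⁻¹ * c * n)⁻¹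
    group
  rw [omega_eq, omega_eq, hV _ ((I'.om_ind_int l _ (isConj_conj_iff x)).sub
    (I'.om_ind_int l _ hS')), ← I'.om_sub]
  obtain ⟨z, hz0⟩ := exists_cf (V := V) (ind_mem V (IsConj x))
  have hzc : ∀ b, z * b = b * z := isCF_cf_iff.1 (hz0 ▸ isCF_ind (isConj_conj_iff x))
  have hz1 : Supp (Cz D) (inc V (Cz D).subtype z) :=
    supp_Cz_iff.2 (bic_supp_inc fun y _ s hs1 => (y.2 s hs1).symm)
  have h1 := bcls_nil hc hn hnc hz1 (bic_fix_inc hzc le_rfl)
  have hz2 := hz1.cj n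
  rw [cg_eq_iff.2 (Nz_le_Nz_Cz D hn)] at hz2
  rw [← inc_pull_supp (hz1.sub hz2), ← inc_pull_supp hc.supp, ← map_mul] at h1
  have h2 : cf (pull V (Cz D).subtype
      (inc V (Cz D).subtype z - cjRep V G n (inc V (Cz D).subtype z))) = ind (IsConj x) -
      ind fun y : Cz D => ∃ z : Cz D, IsConj x z ∧ (y : G) = n * z * n⁻¹ := by
    rw [map_sub, pull_inc hinj, bic_cf_sub, hz0]
    refine congrArg _ (funext fun y => ?_)
    have h3 : cf (pull V (Cz D).subtype (cjRep V G n (inc V (Cz D).subtype z))) y =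
        cf z ⟨_, hσ y⟩ := by
      rw [cf, cf, coeff_pull, coeff_cjRep, ← coeff_inc hinj z ⟨_, hσ y⟩]
      rfl
    rw [h3, hz0]
    by_cases h4 : IsConj x ⟨_, hσ y⟩
    · rw [ind_pos h4, ind_pos]
      exact (hS y).2 h4
    · rw [ind_neg h4, ind_neg]
      exact fun h5 => h4 ((hS y).1 h5)
  rw [← h2]
  refine hl _ (isCF_cf_iff.1 ?_) (bic_nil_of_inc h1)
  rw [h2]
  exact blkF_isCF_sub (isCF_ind (isConj_conj_iff x)) (isCF_ind hS')

/-- As `freeB_of_freeInertia` (`St/FrChar.lean`, do not import it; use the copies in `BLib`).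
For `n ∈ stabT ⊤ D c` and `z` central in `V (Cz D)`: `z c - v c` is nil (`HB.loc`), so is its
conjugate `cj n z * c - v c`, hence `(z - cj n z) c` is nil.  So `stabT ⊤ D c` injects into the
set counted in `InertiaLE`. -/
theorem inB_of_inertiaLE (hM : CoefB p M V) {I : IrrData G} {i : Fin I.n}
    (he : IsBlockIdem I i e) (hD : IsPGroup p D) (h : InertiaLE M (I.χ i) D m) : InB m e D := by
  intro j hj hle
  have hp := hM.nonunit
  have hV := hM.iff
  have hs := supp_Cz_iff.1 hj.supp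
  let _ : Fintype (Cz D) := Fintype.ofFinite _
  obtain ⟨I'⟩ := exists_irrData (Cz D)
  have hinj := (Cz D).subtype_injective
  have hsup := bic_supp_range le_rfl hs
  have hj0 := inc_pull hinj hsup
  obtain ⟨l, hl⟩ := exists_om_of_idemB I' (j := pull V (Cz D).subtype j) hj.pull.idem hj.pull.ne
  have hind := indV_of_belowB hp he hD rfl hs ((le_iff_inMax hj.supp).1 hle) hl
  refine le_trans ?_
    (h (I'.χ l) ((isIrrChar_iff I').2 ⟨l, rfl⟩) ((kr1b_indTo_iff hV I i I' l).2 hind))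
  exact Nat.card_le_card_of_injective
    (fun n => ⟨n.1, n.2.2.1, bcls_stab hV hj hl n.2.2.1 n.2.2.2⟩)
    fun a b hab => Subtype.ext (congrArg (fun x => x.1) hab)

end Pool.Agent.Lib.MP_b6945b_al.Bi
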