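import Pool.Agent.Lib.MP_b6945b_al.Bi.BLib

set_option autoImplicit false

/-!
Blocks of subgroups inside the group ring of the ambient group, Brauer pairs, generalised
decomposition maps.
-/

namespace Pool.Agent.Lib.MP_b6945b_al.Bi

open St IsLocalRing Finset
open MonoidAlgebra (single)

section group
variable {G : Type} [Group G]

/-- Centraliser of a subgroup. -/
abbrev Cz (D : Subgroup G) : Subgroup G := Subgroup.centralizer (D : Set G)

/-- Normaliser of a subgroup. -/
abbrev Nz (D : Subgroup G) : Subgroup G := Subgroup.normalizer (D : Set G)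

/-- Centraliser of an element. -/
abbrev Cu (u : G) : Subgroup G := Cz (Subgroup.zpowers u)

/-- Conjugate of a subgroup. -/
abbrev cg (g : G) (D : Subgroup G) : Subgroup G := D.map (MulAut.conj g).toMonoidHom

open Classical in
/-- The `p`-part of an element. -/
noncomputable def pp (p : ℕ) (g : G) : G :=
  if h : ∃ u, IsPElt p u ∧ u ∈ Subgroup.zpowers g ∧ ¬ p ∣ orderOf (u⁻¹ * g) then h.choose else 1

/-- The `p'`-part of an element. -/
noncomputable def pq (p : ℕ) (g : G) : G := (pp p g)⁻¹ * g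

open Classical in
/-- Restriction of a function to the `p`-regular elements. -/
noncomputable def Reg (p : ℕ) : (G → ℂ) →ₗ[ℂ] (G → ℂ) where
  toFun x g := if p ∣ orderOf g then 0 else x g
  map_add' x y := by
    ext g
    by_cases h : p ∣ orderOf g <;> simp [h]
  map_smul' a x := by
    ext g
    by_cases h : p ∣ orderOf g <;> simp [h]

/-- On `H` the function `f` is the trace of a multiplicative family of matrices. -/
def SC (H : Subgroup G) (f : G → ℂ) : Prop :=
  ∃ (ι : Type) (_ : Fintype ι) (_ : DecidableEq ι) (ρ : G → Matrix ι ι ℂ),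
    (∀ a ∈ H, ∀ b ∈ H, ρ (a * b) = ρ a * ρ b) ∧ ∀ g ∈ H, f g = (ρ g).trace

/-- `P` is a `p`-group commuting with `S`. -/
def PCom (p : ℕ) (S P : Subgroup G) : Prop := IsPGroup p P ∧ ∀ u ∈ P, ∀ s ∈ S, u * s = s * u

/-- The function is invariant under `T` on `D`. -/
def InvT (T D : Subgroup G) (Λ : G → ℂ) : Prop := ∀ n ∈ T, ∀ d ∈ D, Λ (n * d * n⁻¹) = Λ d

/-- Indicator function of the orbit of `d` under `T`. -/
noncomputable def orb (T : Subgroup G) (d : G) : G → ℂ := ind fun x => ∃ n ∈ T, x = n * d * n⁻¹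

end group

section ring
variable {R G : Type} [CommRing R] [Group G]

/-- The element is supported on `H`. -/
def Supp (H : Subgroup G) (a : MonoidAlgebra R G) : Prop := ∀ x, a.coeff x ≠ 0 → x ∈ H

/-- The element is fixed by conjugation with `H`. -/
abbrev Fix (H : Subgroup G) (a : MonoidAlgebra R G) : Prop := FixedBy (cjRep R G) H a

open Classical in
variable (R) in
/-- Truncation to a subgroup. -/
noncomputable def trc (H : Subgroup G) : MonoidAlgebra R G →ₗ[R] MonoidAlgebra R G where
  toFun b := MonoidAlgebra.ofCoeff (b.coeff.filter fun x => x ∈ H)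
  map_add' b b' := by
    ext x
    simp [Finsupp.filter_add]
  map_smul' r b := by
    ext x
    simp [Finsupp.filter_smul]

open Classical in
lemma coeff_trc (H : Subgroup G) (b : MonoidAlgebra R G) (x : G) :
    (trc R H b).coeff x = if x ∈ H then b.coeff x else 0 :=
  Finsupp.filter_apply _ _ _

variable (R) in
/-- The elements fixed by two subgroups. -/
def fxAlg (S P : Subgroup G) : Subalgebra R (MonoidAlgebra R G) where
  carrier := {a | Fix P a ∧ Fix S a}
  mul_mem' := fun ha hb => ⟨fun g hg => by rw [cjRep_mul, ha.1 g hg, hb.1 g hg],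
    fun g hg => by rw [cjRep_mul, ha.2 g hg, hb.2 g hg]⟩
  add_mem' := fun ha hb => ⟨fun g hg => by rw [map_add, ha.1 g hg, hb.1 g hg],
    fun g hg => by rw [map_add, ha.2 g hg, hb.2 g hg]⟩
  algebraMap_mem' := fun r => ⟨fun g _ => by
    rw [Algebra.algebraMap_eq_smul_one, map_smul, frpg_cj_one], fun g _ => by
    rw [Algebra.algebraMap_eq_smul_one, map_smul, frpg_cj_one]⟩

lemma mem_fxAlg {S P : Subgroup G} {a : MonoidAlgebra R G} :
    a ∈ fxAlg R S P ↔ Fix P a ∧ Fix S a := Iff.rfl

/-- The stabiliser in `H` of the pair `(D, c)`. -/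
def stabT (H D : Subgroup G) (c : MonoidAlgebra R G) : Subgroup G where
  carrier := {n | n ∈ H ∧ n ∈ Nz D ∧ cjRep R G n c = c}
  one_mem' := ⟨H.one_mem, Subgroup.one_mem _, by rw [map_one]; rfl⟩
  mul_mem' := fun ha hb => ⟨H.mul_mem ha.1 hb.1, Subgroup.mul_mem _ ha.2.1 hb.2.1, by
    rw [← frpg_cj_cj, hb.2.2, ha.2.2]⟩
  inv_mem' := fun ha => ⟨H.inv_mem ha.1, Subgroup.inv_mem _ ha.2.1, by
    conv_lhs => rw [← ha.2.2]
    rw [frpg_inv_cj]⟩

lemma mem_stabT {H D : Subgroup G} {c : MonoidAlgebra R G} {n : G} :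
    n ∈ stabT H D c ↔ n ∈ H ∧ n ∈ Nz D ∧ cjRep R G n c = c := Iff.rfl

end ring

variable {G : Type} [Group G] {V : ValuationSubring ℂ}

/-- `β` is a block idempotent of the subgroup `H`. -/
structure HB (H : Subgroup G) (β : MonoidAlgebra V G) : Prop where
  idem : β * β = β
  supp : Supp H β
  fix : Fix H β
  ne : β ≠ 0
  loc : ∀ z, Supp H z → Fix H z → ∃ v : V, NilR V (z * β - v • β)

open Classical in
variable (V) in
/-- The blocks of `H`. -/
noncomputable def blk (H : Subgroup G) : Finset (MonoidAlgebra V G) :=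
  if h : {β : MonoidAlgebra V G | HB H β}.Finite then h.toFinset else ∅

variable [Fintype G]

/-- The Brauer homomorphism. -/
noncomputable def bb (P : Subgroup G) (a : MonoidAlgebra V G) :
    MonoidAlgebra (ResidueField V) G := brT (ResidueField V) (P : Set G) (toRes V G a)

/-- `(P, c)` is a Brauer pair belonging to `β`. -/
def Le (P : Subgroup G) (β c : MonoidAlgebra V G) : Prop := bb P β * toRes V G c = toRes V G c

open Classical in
/-- The block of `H` to which the pair `(D, c)` belongs. -/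
noncomputable def bk (D : Subgroup G) (c : MonoidAlgebra V G) (H : Subgroup G) :
    MonoidAlgebra V G := if h : ∃ β, HB H β ∧ Le D β c then h.choose else 0

/-- The defect groups of `β` in `H` have order at most that of `D`. -/
def MaxR (p : ℕ) (H D : Subgroup G) (β : MonoidAlgebra V G) : Prop :=
  ∀ y, β.coeff y ∉ maximalIdeal V → ∀ S : Subgroup G, S ≤ H → IsPGroup p S →
    (∀ s ∈ S, s * y = y * s) → Nat.card S ≤ Nat.card D

/-- `(D, c)` is a maximal Brauer pair in `H`, `D` is abelian, and the inertial index is at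
most `m`. -/
structure Rt (p m : ℕ) (H D : Subgroup G) (c : MonoidAlgebra V G) : Prop where
  pD : IsPGroup p D
  comm : ∀ x ∈ D, ∀ y ∈ D, x * y = y * x
  le : Cz D ≤ H
  root : HB (Cz D) c
  max : MaxR p H D (bk D c H)
  inert : Nat.card (stabT H D c) ≤ m * Nat.card (Cz D)

/-- The inertial index of the block `e` with defect group `D` is at most `m`. -/
def InB (m : ℕ) (e : MonoidAlgebra V G) (D : Subgroup G) : Prop :=
  ∀ c, HB (Cz D) c → Le D e c → Nat.card (stabT ⊤ D c) ≤ m * Nat.card (Cz D)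

/-- The pair `(u, c)` is conjugate to the standard pair of `d ∈ D`. -/
def Lab (D : Subgroup G) (c₀ : MonoidAlgebra V G) (u : G) (c : MonoidAlgebra V G) (d : G) : Prop :=
  d ∈ D ∧ ∃ g, u = g * d * g⁻¹ ∧ c = cjRep V G g (bk D c₀ (Cu d))

open Classical in
/-- The function on pairs defined by a function on `D`. -/
noncomputable def eta (D : Subgroup G) (c₀ : MonoidAlgebra V G) (Λ : G → ℂ) (u : G)
    (c : MonoidAlgebra V G) : ℂ := if h : ∃ d, Lab D c₀ u c d then Λ h.choose else 0

omit [Fintype G] in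
/-- The function on pairs is invariant under conjugation. -/
def EtaInv (η : G → MonoidAlgebra V G → ℂ) : Prop :=
  ∀ g u c, η (g * u * g⁻¹) (cjRep V G g c) = η u c

omit [Fintype G] in
/-- `i` is a primitive idempotent of the fixed points of `P` and `S`. -/
def Loc (S P : Subgroup G) (i : MonoidAlgebra V G) : Prop :=
  ∀ z ∈ fxAlg V S P, ∃ c : V, NilR V (i * z * i - c • i)

/-- The value of the linear extension of `x`. -/
noncomputable def ev (x : G → ℂ) (a : MonoidAlgebra V G) : ℂ := ∑ y, cf a y * x y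

/-- Class functions of `H` belonging to the central idempotent `β`. -/
def CFs (H : Subgroup G) (β : MonoidAlgebra V G) : Submodule ℂ (G → ℂ) where
  carrier := {x | (∀ g, g ∉ H → x g = 0) ∧ (∀ h ∈ H, ∀ g, x (h * g * h⁻¹) = x g) ∧
    ∀ g ∈ H, ev x (single g 1 * β) = x g}
  add_mem' := fun {x y} hx hy => ⟨fun g hg => by simp [hx.1 g hg, hy.1 g hg],
    fun h hh g => by simp [hx.2.1 h hh g, hy.2.1 h hh g], fun g hg => by
      rw [Pi.add_apply, ← hx.2.2 g hg, ← hy.2.2 g hg]
      simp [ev, mul_add, Finset.sum_add_distrib]⟩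
  zero_mem' := ⟨fun _ _ => rfl, fun _ _ _ => rfl, fun g _ => by simp [ev]⟩
  smul_mem' := fun a {x} hx => ⟨fun g hg => by simp [hx.1 g hg],
    fun h hh g => by simp [hx.2.1 h hh g], fun g hg => by
      rw [Pi.smul_apply, ← hx.2.2 g hg]
      simp [ev, Finset.mul_sum, mul_left_comm]⟩

lemma mem_CFs {H : Subgroup G} {β : MonoidAlgebra V G} {x : G → ℂ} :
    x ∈ CFs H β ↔ (∀ g, g ∉ H → x g = 0) ∧ (∀ h ∈ H, ∀ g, x (h * g * h⁻¹) = x g) ∧
      ∀ g ∈ H, ev x (single g 1 * β) = x g := Iff.rfl

/-- The number of ordinary characters. -/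
noncomputable def kL (H : Subgroup G) (β : MonoidAlgebra V G) : ℕ := Module.finrank ℂ (CFs H β)

/-- The number of Brauer characters. -/
noncomputable def lL (p : ℕ) (H : Subgroup G) (β : MonoidAlgebra V G) : ℕ :=
  Module.finrank ℂ ((CFs H β).map (Reg p))

/-- The star construction with the function `η` on pairs. -/
noncomputable def Star (p : ℕ) (η : G → MonoidAlgebra V G → ℂ) : (G → ℂ) →ₗ[ℂ] (G → ℂ) where
  toFun x g := ∑ c ∈ blk V (Cu (pp p g)), η (pp p g) c * ev x (single g 1 * c)
  map_add' x y := by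
    ext g
    simp [ev, mul_add, Finset.sum_add_distrib]
  map_smul' a x := by
    ext g
    simp [ev, Finset.mul_sum, mul_left_comm]

lemma Star_apply (p : ℕ) (η : G → MonoidAlgebra V G → ℂ) (x : G → ℂ) (g : G) :
    Star p η x g = ∑ c ∈ blk V (Cu (pp p g)), η (pp p g) c * ev x (single g 1 * c) := rfl

/-- The matrix of the star construction on the characters of a block. -/
noncomputable def mat (p : ℕ) (I : IrrData G) (i₀ : Fin I.n) (η : G → MonoidAlgebra V G → ℂ) :
    Matrix {i // I.Bl V i₀ i} {i // I.Bl V i₀ i} ℂ :=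
  Matrix.of fun i j => (Fintype.card G : ℂ)⁻¹ * ∑ g, Star p η (I.χ i) g * I.χ j g⁻¹

/-- The part of the star construction cut out by the idempotent `i` is a character
of `P ⊔ S`. -/
def GW (η : G → MonoidAlgebra V G → ℂ) (x : G → ℂ) (S P : Subgroup G) (i : MonoidAlgebra V G) :
    Prop :=
  ∃ Ψ : G → ℂ, SC (P ⊔ S) Ψ ∧ ∀ u ∈ P, ∃ J : MonoidAlgebra V G → MonoidAlgebra V G,
    (∀ c, HB (Cu u) c → J c * J c = J c ∧ i * J c * i = J c ∧
      J c ∈ fxAlg V S (Subgroup.zpowers u) ∧
      bb (Subgroup.zpowers u) (J c) = bb (Subgroup.zpowers u) i * toRes V G c) ∧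
    ∀ s ∈ S, Ψ (u * s) = ∑ c ∈ blk V (Cu u), η u c * ev x (single (u * s) 1 * J c)

end Pool.Agent.Lib.MP_b6945b_al.Bi
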