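import Pool.Agent.Lib.MP_b6945b_al.Bi.BBlk

set_option autoImplicit false

/-!
Brauer pairs and the blocks they determine.
-/

namespace Pool.Agent.Lib.MP_b6945b_al.Bi

open St IsLocalRing Finset
open MonoidAlgebra (single)

variable {G : Type} [Group G] [Fintype G] {V : ValuationSubring ℂ} {p : ℕ} [Fact p.Prime]

variable {m : ℕ} {H H' K D P T : Subgroup G} {β β' c f : MonoidAlgebra V G}

lemma bb_idem (hp : (p : ℂ) ∈ V.nonunits) (hP : IsPGroup p P) (hβ : β * β = β) (hf : Fix P β) :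
    bb P β * bb P β = bb P β := by
  rw [← bb_mul hp hP hf hf, hβ]

/-- `HB.res_dich` for `bb P β`, which is supported on `H ⊓ Cz P` and fixed by `K`. -/
lemma le_dich (hp : (p : ℂ) ∈ V.nonunits) (hP : IsPGroup p P) (hPH : P ≤ H) (hβ : β * β = β)
    (hs : Supp H β) (hf : Fix H β) (hc : HB K c) (h1 : H ⊓ Cz P ≤ K) (h2 : K ≤ H)
    (h3 : K ≤ Nz P) : bb P β * toRes V G c = 0 ∨ Le P β c := by
  exact hc.res_dich (bb_idem hp hP hβ (hf.mono hPH)) (hs.bb.mono h1) ((hf.mono h2).bb h3)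

/-- `sum_blk`, `bb_sum`, `bb_one`, `le_dich`. -/
lemma bk_spec (hp : (p : ℂ) ∈ V.nonunits) (hP : IsPGroup p P) (hPH : P ≤ H) (hc : HB K c)
    (h1 : H ⊓ Cz P ≤ K) (h2 : K ≤ H) (h3 : K ≤ Nz P) :
    HB H (bk P c H) ∧ Le P (bk P c H) c := by
  have ex : ∃ β, HB H β ∧ Le P β c := by
    by_contra hno
    refine hc.res_ne ?_
    rw [← one_mul (toRes V G c), ← bb_one (V := V) P, ← sum_blk H, bb_sum, Finset.sum_mul]
    refine Finset.sum_eq_zero fun β hβ => ?_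
    have hb := mem_blk.1 hβ
    exact (le_dich hp hP hPH hb.idem hb.supp hb.fix hc h1 h2 h3).resolve_right
      fun h => hno ⟨β, hb, h⟩
  unfold bk
  rw [dif_pos ex]
  exact ex.choose_spec

lemma le_unique (hp : (p : ℂ) ∈ V.nonunits) (hP : IsPGroup p P) (hPH : P ≤ H) (h : HB H β)
    (h' : HB H β') (hc : toRes V G c ≠ 0) (hl : Le P β c) (hl' : Le P β' c) : β = β' := by
  by_contra hne
  refine hc ?_
  unfold Le at hl hl'
  rw [← hl, ← hl', ← mul_assoc, ← bb_mul hp hP (h.fix.mono hPH) (h'.fix.mono hPH),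
    h.orth h' hne, bb_zero, zero_mul]

lemma bk_eq (hp : (p : ℂ) ∈ V.nonunits) (hP : IsPGroup p P) (hPH : P ≤ H) (h : HB H β)
    (hc : toRes V G c ≠ 0) (hl : Le P β c) : bk P c H = β := by
  have ex : ∃ β, HB H β ∧ Le P β c := ⟨β, h, hl⟩
  unfold bk
  rw [dif_pos ex]
  exact le_unique hp hP hPH ex.choose_spec.1 h hc ex.choose_spec.2 hl

omit [Fact p.Prime] in
lemma Le.bb_ne (h : Le P β c) (hc : toRes V G c ≠ 0) : bb P β ≠ 0 := by
  intro h0
  unfold Le at h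
  exact hc (by rw [← h, h0, zero_mul])

omit [Fact p.Prime] in
lemma le_self (hc : c * c = c) (hs : Supp (Cz P) c) : Le P c c := by
  unfold Le
  rw [bb_of_supp hs, ← map_mul, hc]

omit [Fact p.Prime] in
lemma eq_of_le (h : HB K β) (h' : HB K c) (hK : K ≤ Cz P) (hl : Le P β c) : β = c := by
  refine h.eq_of_res_mul_ne h' ?_
  unfold Le at hl
  rw [← bb_of_supp (h.supp.mono hK), hl]
  exact h'.res_ne

lemma bpair_brT (hp : (p : ℂ) ∈ V.nonunits) (hT : IsPGroup p T) (hPT : P ≤ T)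
    (hn : T ≤ Nz P) (hβ : Fix T β) (hβ' : Fix T β') :
    brT (ResidueField V) (T : Set G) (bb P β * toRes V G β') = bb T β * bb T β' := by
  rw [frpg_brT_mul Fact.out (bil_pk hp) hT (hβ.bb hn) hβ'.toRes, brT_bb hPT]
  rfl

omit [Fact p.Prime] in
lemma bpair_sup (h : bb P β = toRes V G β) (h0 : bb T β ≠ 0) : bb (T ⊔ P) β ≠ 0 := by
  obtain ⟨y, hy, hy'⟩ := bb_ne_zero_iff.1 h0
  have hyP : y ∈ Cz P := supp_bb P β y (by
    rw [h, coeff_toRes]
    exact fun e => hy' ((residue_eq_zero_iff _).1 e))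
  have hle : T ⊔ P ≤ Subgroup.centralizer {y} :=
    sup_le (fun t ht => Subgroup.mem_centralizer_singleton_iff.2 (mem_Cz.1 hy t ht).symm)
      fun t ht => Subgroup.mem_centralizer_singleton_iff.2 (mem_Cz.1 hyP t ht).symm
  exact bb_ne_zero_iff.2 ⟨y, mem_Cz.2 fun d hd =>
    (Subgroup.mem_centralizer_singleton_iff.1 (hle hd)).symm, hy'⟩

/-- Apply `brT T` (`frpg_brT_mul`, `brT_bb`, `bil_pk`). -/
lemma Le.brT (hp : (p : ℂ) ∈ V.nonunits) (h : Le P β β') (hT : IsPGroup p T) (hPT : P ≤ T)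
    (hn : T ≤ Nz P) (hβ : Fix T β) (hβ' : Fix T β') : bb T β * bb T β' = bb T β' := by
  unfold Le at h
  rw [← bpair_brT hp hT hPT hn hβ hβ', h]
  rfl

lemma Le.trans (hp : (p : ℂ) ∈ V.nonunits) (h : Le P β β') (h' : Le T β' c) (hT : IsPGroup p T)
    (hPT : P ≤ T) (hn : T ≤ Nz P) (hβ : Fix T β) (hβ' : Fix T β') : Le T β c := by
  have e := h.brT hp hT hPT hn hβ hβ'
  unfold Le at h' ⊢
  rw [← h', ← mul_assoc, e]

lemma brT_bb_mul (hp : (p : ℂ) ∈ V.nonunits) (hT : IsPGroup p T) (hPT : P ≤ T)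
    (hn : T ≤ Nz P) (hβ : Fix T β) (hβ' : Fix T β') :
    brT (ResidueField V) (T : Set G) (bb P β * toRes V G β') = bb T β * bb T β' := by
  exact bpair_brT hp hT hPT hn hβ hβ'

/-- `exists_blk_res_ne`, `le_dich`. -/
lemma exists_root (hp : (p : ℂ) ∈ V.nonunits) (hP : IsPGroup p P) (hPH : P ≤ H) (hβ : β * β = β)
    (hs : Supp H β) (hf : Fix H β) (h0 : bb P β ≠ 0) : ∃ c, HB (H ⊓ Cz P) c ∧ Le P β c := by
  obtain ⟨c, hc, h1⟩ := exists_blk_res_ne (V := V) (H ⊓ Cz P) h0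
  exact ⟨c, hc, (le_dich hp hP hPH hβ hs hf hc le_rfl inf_le_left
    (inf_le_right.trans (Cz_le_Nz P))).resolve_left h1⟩

omit [Fact p.Prime] in
lemma MaxR.card_le (h : MaxR p H D β) (hT : IsPGroup p T) (hTH : T ≤ H) (h0 : bb T β ≠ 0) :
    Nat.card T ≤ Nat.card D := by
  obtain ⟨y, hy, hy'⟩ := bb_ne_zero_iff.1 h0
  exact h y hy' T hTH hT fun s hs => (mem_Cz.1 hy s hs).symm

omit [Fact p.Prime] in
lemma maxR_of_bb (h : ∀ T : Subgroup G, IsPGroup p T → T ≤ H → bb T β ≠ 0 →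
    Nat.card T ≤ Nat.card D) : MaxR p H D β := by
  exact fun y hy S hSH hS hc =>
    h S hS hSH (bb_ne_zero_iff.2 ⟨y, mem_Cz.2 fun d hd => (hc d hd).symm, hy⟩)

omit [Fact p.Prime] in
lemma MaxR.conj (h : MaxR p H D β) (g : G) : MaxR p (cg g H) (cg g D) (cjRep V G g β) := by
  refine maxR_of_bb fun T hT hTH h0 => ?_
  have e : cg g (cg g⁻¹ T) = T := by rw [cg_cg, mul_inv_cancel, cg_one]
  rw [card_cg, ← card_cg g⁻¹ T]
  refine h.card_le (hT.map _) ?_ fun h1 => h0 ?_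
  · have h2 : cg g⁻¹ T ≤ cg g⁻¹ (cg g H) := Subgroup.map_mono hTH
    rwa [cg_cg, inv_mul_cancel, cg_one] at h2
  · rw [← e, bb_cj, h1, map_zero]

omit [Fact p.Prime] [Fintype G] in
lemma stabT_conj (g : G) (H D : Subgroup G) (c : MonoidAlgebra V G) :
    stabT (cg g H) (cg g D) (cjRep V G g c) = cg g (stabT H D c) := by
  ext n
  rw [mem_cg, mem_stabT, mem_stabT, Nz_cg, mem_cg, mem_cg,
    ← (cj_injective g).eq_iff (a := cjRep V G (g⁻¹ * n * g) c), frpg_cj_cj, frpg_cj_cj,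
    ← mul_assoc, mul_inv_cancel_left]

omit [Fact p.Prime] [Fintype G] in
lemma stabT_mono (h : H' ≤ H) (D : Subgroup G) (c : MonoidAlgebra V G) :
    stabT H' D c ≤ stabT H D c := by
  exact fun n hn => ⟨h hn.1, hn.2⟩

omit [Fact p.Prime] [Fintype G] in
lemma stabT_inf (H D : Subgroup G) (c : MonoidAlgebra V G) :
    stabT (H ⊓ Nz D) D c = stabT H D c := by
  exact le_antisymm (stabT_mono inf_le_left D c) fun n hn => ⟨⟨hn.1, hn.2.1⟩, hn.2⟩

omit [Fact p.Prime] in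
lemma Rt.le_Cz (h : Rt p m H D c) : D ≤ Cz D := by
  exact fun x hx => mem_Cz.2 fun d hd => h.comm x hx d hd

omit [Fact p.Prime] in
lemma Rt.le_H (h : Rt p m H D c) : D ≤ H := by
  exact h.le_Cz.trans h.le

omit [Fact p.Prime] in
lemma Rt.Cz_le_stab (h : Rt p m H D c) : Cz D ≤ stabT H D c := by
  exact fun n hn => ⟨h.le hn, Cz_le_Nz D hn, h.root.fix n hn⟩

lemma Rt.spec (hp : (p : ℂ) ∈ V.nonunits) (h : Rt p m H D c) (hK : Cz D ≤ K) :
    HB K (bk D c K) ∧ Le D (bk D c K) c := by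
  exact bk_spec hp h.pD (h.le_Cz.trans hK) h.root inf_le_right hK (Cz_le_Nz D)

lemma Rt.bk_eq (hp : (p : ℂ) ∈ V.nonunits) (h : Rt p m H D c) (hK : Cz D ≤ K) (hβ : HB K β)
    (hl : Le D β c) : bk D c K = β := by
  exact Bi.bk_eq hp h.pD (h.le_Cz.trans hK) hβ h.root.res_ne hl

lemma Rt.bk_self (hp : (p : ℂ) ∈ V.nonunits) (h : Rt p m H D c) : bk D c (Cz D) = c := by
  exact h.bk_eq hp le_rfl h.root (le_self h.root.idem h.root.supp)

lemma Rt.bk_conj (hp : (p : ℂ) ∈ V.nonunits) (h : Rt p m H D c) (hK : Cz D ≤ K) (g : G) :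
    bk (cg g D) (cjRep V G g c) (cg g K) = cjRep V G g (bk D c K) := by
  exact Bi.bk_eq hp (h.pD.map _) (Subgroup.map_mono (h.le_Cz.trans hK))
    ((h.spec hp hK).1.conj g) (h.root.conj g).res_ne ((h.spec hp hK).2.cj g)

lemma Rt.conj (hp : (p : ℂ) ∈ V.nonunits) (h : Rt p m H D c) (g : G) :
    Rt p m (cg g H) (cg g D) (cjRep V G g c) := by
  refine ⟨h.pD.map _, bil_pgroup_comm h.comm g, ?_, ?_, ?_, ?_⟩
  · rw [Cz_cg]
    exact Subgroup.map_mono h.le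
  · rw [Cz_cg]
    exact h.root.conj g
  · rw [h.bk_conj hp h.le g]
    exact h.max.conj g
  · rw [stabT_conj, card_cg, Cz_cg, card_cg]
    exact h.inert

/-- `le_dich`; if `bb P β * β' = 0` apply `brT_bb_mul` with `T = D` and multiply by `c`. -/
lemma Rt.below (hp : (p : ℂ) ∈ V.nonunits) (h : Rt p m H D c) (hPD : P ≤ D) (hK : Cz D ≤ K)
    (h1 : K ⊓ Cz P ≤ H') (h2 : H' ≤ K) (h3 : H' ≤ Nz P) :
    Le P (bk D c K) (bk D c H') := by
  have hH' : Cz D ≤ H' := (le_inf hK (Cz_anti hPD)).trans h1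
  obtain ⟨s1, s2⟩ := h.spec hp hK
  obtain ⟨t1, t2⟩ := h.spec hp hH'
  have hDK := h.le_Cz.trans hK
  have hDH := h.le_Cz.trans hH'
  refine (le_dich hp (h.pD.to_le hPD) (hPD.trans hDK) s1.idem s1.supp s1.fix t1 h1 h2
    h3).resolve_left fun h0 => h.root.res_ne ?_
  have e := brT_bb_mul hp h.pD hPD (hDH.trans h3) (s1.fix.mono hDK) (t1.fix.mono hDH)
  rw [h0, map_zero] at e
  unfold Le at s2 t2
  rw [← s2, ← t2, ← mul_assoc, ← e, zero_mul]

/-- For `MaxR`: the residue of `β' = bk D c H'` is supported on `Cz P` (`bb_of_normal`), so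
`bb T β' ≠ 0` gives `bb (T ⊔ P) β' ≠ 0`; `T ⊔ P` is a `p`-group as `T` normalises `P`
(`IsPGroup.to_sup_of_normal_right'`); `Le.brT`, `MaxR.card_le`. -/
theorem Rt.local (hp : (p : ℂ) ∈ V.nonunits) (h : Rt p m H D c) (hPD : P ≤ D)
    (h1 : H ⊓ Cz P ≤ H') (h2 : H' ≤ H) (h3 : H' ≤ Nz P) : Rt p m H' D c := by
  have hH' : Cz D ≤ H' := (le_inf h.le (Cz_anti hPD)).trans h1
  refine ⟨h.pD, h.comm, hH', h.root, maxR_of_bb fun T hT hTH h0 => ?_,
    (Subgroup.card_le_of_le (stabT_mono h2 D c)).trans h.inert⟩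
  have s1 := (h.spec hp h.le).1
  have t1 := (h.spec hp hH').1
  have hP := h.pD.to_le hPD
  have hPH : P ≤ H' := hPD.trans (h.le_Cz.trans hH')
  have hTP : T ⊔ P ≤ H' := sup_le hTH hPH
  have hp' := hT.to_sup_of_normal_right' hP (hTH.trans h3)
  have n1 := bpair_sup (bb_of_normal hp hP hPH h3 t1.idem t1.supp t1.fix) h0
  have e := (h.below hp hPD h.le h1 h2 h3).brT hp hp' le_sup_right (hTP.trans h3)
    (s1.fix.mono (hTP.trans h2)) (t1.fix.mono hTP)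
  refine (Subgroup.card_le_of_le le_sup_left).trans
    (h.max.card_le hp' (hTP.trans h2) fun h4 => n1 ?_)
  rw [← e, h4, zero_mul]

lemma Rt.cu (hp : (p : ℂ) ∈ V.nonunits) (h : Rt p m H D c) {d : G} (hd : d ∈ D) :
    Rt p m (H ⊓ Cu d) D c := by
  exact h.local hp (Subgroup.zpowers_le_of_mem hd) le_rfl inf_le_left
    (inf_le_right.trans (Cz_le_Nz _))

lemma Rt.nz (hp : (p : ℂ) ∈ V.nonunits) (h : Rt p m H D c) : Rt p m (H ⊓ Nz D) D c := by
  exact h.local hp le_rfl (inf_le_inf_left _ (Cz_le_Nz D)) inf_le_left inf_le_right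

/-- As in `Rt.local`, `bb (D ⊔ P) β ≠ 0`, so `D ⊔ P = D`. -/
lemma Rt.le_of_normal (hp : (p : ℂ) ∈ V.nonunits) (h : Rt p m H D c) (hP : IsPGroup p P)
    (hPH : P ≤ H) (hn : H ≤ Nz P) : P ≤ D := by
  obtain ⟨s1, s2⟩ := h.spec hp h.le
  have n1 := bpair_sup (bb_of_normal hp hP hPH hn s1.idem s1.supp s1.fix)
    (s2.bb_ne h.root.res_ne)
  have h1 := h.max.card_le (h.pD.to_sup_of_normal_right' hP (h.le_H.trans hn))
    (sup_le h.le_H hPH) n1
  exact le_sup_right.trans (Subgroup.eq_of_le_of_card_ge le_sup_left h1).ge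

end Pool.Agent.Lib.MP_b6945b_al.Bi
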