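import Pool.Agent.Lib.MP_b6945b_al.Bi.BGU1
import Pool.Agent.Lib.MP_b6945b_al.Bi.BPair

set_option autoImplicit false

/-!
Blocks covering a block of small inertial index.
-/

namespace Pool.Agent.Lib.MP_b6945b_al.Bi

open St IsLocalRing Finset
open MonoidAlgebra (single)

variable {G : Type} [Group G] [Fintype G] {V : ValuationSubring ℂ} {p : ℕ} [Fact p.Prime]

variable {m : ℕ} {H K T : Subgroup G} {f ε : MonoidAlgebra V G}

omit [Fact p.Prime] in
/-- The trace of left multiplication by a nonzero idempotent is its rank (`trace_eq_rank` for the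
matrix `(x, y) ↦ cf a (x * y⁻¹)`). -/
lemma cf_one_ne {a : MonoidAlgebra V G} (ha : a * a = a) (h0 : a ≠ 0) : cf a 1 ≠ 0 := by
  classical
  intro h1
  let Q : Matrix G G ℂ := Matrix.of fun x y => cf a (x * y⁻¹)
  have hQ : Q * Q = Q := by
    ext x z
    have h2 : cf a (x * z⁻¹) = conv (cf a) (cf a) (x * z⁻¹) := by rw [← cf_mul, ha]
    simp only [Q, Matrix.mul_apply, Matrix.of_apply]
    rw [h2, conv]
    exact Fintype.sum_equiv ((Equiv.inv G).trans (Equiv.mulLeft x)) _ _ fun y => by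
      simp [mul_assoc]
  have h3 : Q.trace = 0 := by simp [Q, Matrix.trace, h1]
  rw [trace_eq_rank Q hQ, Nat.cast_eq_zero, Matrix.rank, Submodule.finrank_eq_zero,
    LinearMap.range_eq_bot] at h3
  refine h0 (cf_injective (funext fun x => ?_))
  have h4 := congrFun (LinearMap.congr_fun h3 (Pi.single 1 1)) x
  simpa [Q, cf] using h4

omit [Fact p.Prime] [Fintype G] in
lemma bgu2_cent [Fintype K] {a : MonoidAlgebra V G} (h : Fix K a) (b : MonoidAlgebra V K) :
    pull V K.subtype a * b = b * pull V K.subtype a :=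
  fixedBy_top_iff.1 (fun k _ => by
    rw [← pull_cjRep K.subtype k a]
    exact congrArg _ (h k k.2)) b

omit [Fact p.Prime] in
lemma bgu2_mul [Fintype K] (a : MonoidAlgebra V G) (hf : Supp K f) :
    pull V K.subtype (a * f) = pull V K.subtype a * pull V K.subtype f :=
  pull_mul_right K.subtype_injective a fun g hg => ⟨⟨g, hf g hg⟩, rfl⟩

omit [Fact p.Prime] [Fintype G] in
lemma bgu2_trc [Fintype K] (a : MonoidAlgebra V G) :
    pull V K.subtype (trc V K a) = pull V K.subtype a := by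
  ext k
  rw [coeff_pull, coeff_pull, coeff_trc, if_pos (show K.subtype k ∈ K from k.2)]

omit [Fact p.Prime] [Fintype G] in
lemma bgu2_nil [Fintype K] {a : MonoidAlgebra V G} (hs : Supp K a) (h : NilR V a) :
    NilR V (pull V K.subtype a) := by
  rwa [← nilR_inc_iff K.subtype_injective, inc_pull_supp hs]

omit [Fact p.Prime] [Fintype G] in
lemma bgu2_om_one [Fintype K] (I : IrrData K) (θ : Fin I.n) :
    I.om θ (cf (pull V K.subtype (1 : MonoidAlgebra V G))) = 1 := by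
  rw [← map_one (inc V K.subtype), pull_inc K.subtype_injective, blkE_cf_one, I.om_one]

lemma bgu2_nat (hp : (p : ℂ) ∈ V.nonunits) {r : ℕ} (h0 : r ≠ 0) (hr : r < p) :
    (r : ℂ) ∉ V.nonunits := fun h => by
  have h1 := mul_mem_nonunits h
    (inv_nat_mem hp (Nat.not_dvd_of_pos_of_lt (Nat.pos_of_ne_zero h0) hr))
  rw [mul_inv_cancel₀ (Nat.cast_ne_zero.2 h0)] at h1
  exact one_not_mem_nonunits V h1

/-- `cf (ε f) 1 ≠ 0`, and `pull (ε f) = pull ε * pull f` is central in `V K` with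
`cf = zf om` (`zf_om`); so some `θ` has `om θ (pull ε) * om θ (pull f) ≠ 0`, where
`om θ (pull f) ∈ {0, 1}`.  `exists_rank` for `ε` and `1 - ε` gives `r = ω R`, `0 < r ≤ R ≤ m < p`,
so `ω` is not a nonunit (`blkF_pmem`; a natural number prime to `p` is a unit); `om_of_nilR`. -/
theorem trc_not_nil (hp : (p : ℂ) ∈ V.nonunits) (hmp : m < p) (hKH : K ≤ H) (hn : H ≤ Nz K)
    (hf : HB K f) (hm : Nat.card (stabT H K f) ≤ m * Nat.card K) (hε : ε * ε = ε)
    (hs : Supp H ε) (hx : Fix H ε) (h0 : ε * f ≠ 0) : ¬ NilR V (trc V K ε * f) := by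
  intro h
  have := Fintype.ofFinite K
  obtain ⟨I⟩ := exists_irrData K
  have hc : ε * f = f * ε := hx.comm (hf.supp.mono hKH)
  have hi : ε * f * (ε * f) = ε * f := by
    rw [mul_assoc, ← mul_assoc f, ← hc, mul_assoc, hf.idem, ← mul_assoc, hε]
  have c1 := bgu2_cent (hx.mono hKH)
  have c2 := bgu2_cent hf.fix
  have c3 := bgu2_cent ((hx.mono hKH).mul hf.fix)
  have h1 := bgu2_nil ((supp_trc K ε).mul hf.supp) h
  rw [bgu2_mul _ hf.supp, bgu2_trc, ← bgu2_mul _ hf.supp] at h1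
  obtain ⟨θ, hθ⟩ : ∃ θ, I.om θ (cf (pull V K.subtype (ε * f))) ≠ 0 := by
    by_contra! e
    have h2 := congrFun (I.zf_om (isCF_cf_iff.2 c3)) 1
    simp only [IrrData.zf, e, zero_mul, Finset.sum_const_zero] at h2
    rw [cf, coeff_pull] at h2
    exact cf_one_ne hi h0 h2.symm
  have h2 := om_of_nilR I c3 h1 θ
  rw [bgu2_mul _ hf.supp, bic_om_mul I θ c1 c2] at hθ h2
  have h3 : I.om θ (cf (pull V K.subtype f)) = 1 := by
    have h4 := bic_om_mul I θ c2 c2
    rw [← bgu2_mul _ hf.supp, hf.idem] at h4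
    exact mul_left_cancel₀ (right_ne_zero_of_mul hθ) (by rw [← h4, mul_one])
  rw [h3, mul_one] at hθ h2
  obtain ⟨R, hR0, hRm, hR⟩ := exists_rank hKH hn hf hm I θ h3
  obtain ⟨r, hr⟩ := hR ε hε hs hx
  obtain ⟨r', hr'⟩ := hR (1 - ε) (by rw [sub_mul, mul_sub, mul_sub, hε]; simp)
    ((supp_one H).sub hs) ((fix_one H).sub hx)
  rw [map_sub, bic_cf_sub, I.om_sub, bgu2_om_one] at hr'
  have h5 : r + r' = R := by
    have : ((r + r' : ℕ) : ℂ) = R := by rw [Nat.cast_add, hr, hr']; ring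
    exact_mod_cast this
  have h6 : r ≠ 0 := fun e => by
    rw [e, Nat.cast_zero] at hr
    exact mul_ne_zero hθ (Nat.cast_ne_zero.2 hR0.ne') hr.symm
  exact bgu2_nat hp h6 (by omega) (hr ▸ mul_mem_nonunits h2 (natCast_mem V R))

lemma exists_unit_of_cover (hp : (p : ℂ) ∈ V.nonunits) (hmp : m < p) (hKH : K ≤ H)
    (hn : H ≤ Nz K) (hf : HB K f) (hm : Nat.card (stabT H K f) ≤ m * Nat.card K)
    (hε : ε * ε = ε) (hs : Supp H ε) (hx : Fix H ε) (h0 : ε * f ≠ 0) :
    ∃ v : V, v ∉ maximalIdeal V ∧ NilR V (trc V K ε * f - v • f) := by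
  obtain ⟨v, hv⟩ := hf.loc (trc V K ε) (supp_trc K ε) ((hx.mono hKH).trc (hKH.trans hn))
  refine ⟨v, fun e => trc_not_nil hp hmp hKH hn hf hm hε hs hx h0 ?_, hv⟩
  have h1 := hv.add_inMax (inMax_smul e f)
  rwa [sub_add_cancel] at h1

open Classical in
/-- Fix `θ` in the block (`HB.pull`, `HB.exists_blockIdem`, `blkF_om_self`).  For each covering
block `β`, `om θ (pull β) ≠ 0` (`exists_unit_of_cover`, `om_of_nilR`), so `r β ≥ 1`, while
`∑ β, r β = R ≤ m` by `sum_blk`. -/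
theorem card_cover_le (hp : (p : ℂ) ∈ V.nonunits) (hmp : m < p) (hKH : K ≤ H) (hn : H ≤ Nz K)
    (hf : HB K f) (hm : Nat.card (stabT H K f) ≤ m * Nat.card K) :
    ((blk V H).filter fun β => β * f ≠ 0).card ≤ m := by
  have := Fintype.ofFinite K
  obtain ⟨I⟩ := exists_irrData K
  obtain ⟨θ, hθ⟩ := hf.pull.exists_blockIdem I
  have h3 := blkF_om_self hθ
  obtain ⟨R, hR0, hRm, hR⟩ := exists_rank hKH hn hf hm I θ h3
  have c2 := bgu2_cent hf.fix
  choose! r hr using fun β (hβ : HB H β) => hR β hβ.idem hβ.supp hβ.fix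
  have h1 : ∀ s : Finset (MonoidAlgebra V G), I.om θ (cf (pull V K.subtype (∑ β ∈ s, β))) =
      ∑ β ∈ s, I.om θ (cf (pull V K.subtype β)) := fun s => by
    simp only [IrrData.om, cf, map_sum, MonoidAlgebra.coeff_sum, Finset.sum_apply',
      AddSubmonoidClass.coe_finsetSum, Finset.sum_mul, Finset.sum_div]
    exact Finset.sum_comm
  have h2 : ∑ β ∈ blk V H, r β = R := by
    have : ((∑ β ∈ blk V H, r β : ℕ) : ℂ) = R := by
      rw [Nat.cast_sum, Finset.sum_congr rfl fun β hβ => hr β (mem_blk.1 hβ), ← Finset.sum_mul,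
        ← h1, sum_blk, bgu2_om_one, one_mul]
    exact_mod_cast this
  refine le_trans ?_ (h2.le.trans hRm)
  rw [Finset.card_eq_sum_ones]
  refine le_trans (Finset.sum_le_sum fun β hβ => ?_)
    (Finset.sum_le_sum_of_subset (Finset.filter_subset _ _))
  obtain ⟨hb, h0⟩ := Finset.mem_filter.1 hβ
  rw [mem_blk] at hb
  obtain ⟨v, hv, h⟩ := exists_unit_of_cover hp hmp hKH hn hf hm hb.idem hb.supp hb.fix h0
  have c1 := bgu2_cent (hb.fix.mono hKH)
  have h4 := bgu2_nil (((supp_trc K β).mul hf.supp).sub (hf.supp.smul v)) h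
  have c3 := bgu2_cent ((((hb.fix.mono hKH).trc (hKH.trans hn)).mul hf.fix).sub (hf.fix.smul v))
  have h5 := om_of_nilR I c3 h4 θ
  rw [map_sub, map_smul, bgu2_mul _ hf.supp, bgu2_trc, bic_cf_sub, bic_cf_smul, I.om_sub,
    I.om_smul, bic_om_mul I θ c1 c2, h3, mul_one, mul_one] at h5
  refine Nat.pos_of_ne_zero fun e => hv ?_
  have h6 := hr β hb
  rw [e, Nat.cast_zero, eq_comm, mul_eq_zero, Nat.cast_eq_zero] at h6
  rw [h6.resolve_right hR0.ne', zero_sub, neg_mem_iff] at h5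
  exact ValuationSubring.coe_mem_nonunits_iff.1 h5

/-- If `bb T ε = 0` then `bb T (trc K ε) = 0` (`bb_eq_trc`, `toRes_trc`, `trc_trc`), so by
`exists_unit_of_cover`, `bb_nil`, `bb_mul` the idempotent `bb T f` is nilpotent. -/
theorem bb_ne_of_cover (hp : (p : ℂ) ∈ V.nonunits) (hmp : m < p) (hKH : K ≤ H) (hn : H ≤ Nz K)
    (hf : HB K f) (hm : Nat.card (stabT H K f) ≤ m * Nat.card K) (hε : ε * ε = ε)
    (hs : Supp H ε) (hx : Fix H ε) (h0 : ε * f ≠ 0) (hT : IsPGroup p T) (hTK : T ≤ K)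
    (hb : bb T f ≠ 0) : bb T ε ≠ 0 := by
  intro e
  obtain ⟨v, hv, h⟩ := exists_unit_of_cover hp hmp hKH hn hf hm hε hs hx h0
  have f1 : Fix T (trc V K ε) := ((hx.mono hKH).trc (hKH.trans hn)).mono hTK
  have f2 : Fix T f := hf.fix.mono hTK
  have h1 : bb T (trc V K ε) = 0 := by
    rw [bb_eq_trc] at e
    rw [bb_eq_trc, toRes_trc, trc_trc, inf_comm, ← trc_trc, e, map_zero]
  have h2 := bb_nil hp hT ((f1.mul f2).sub (f2.smul v)) h
  rw [bb_sub, bb_mul hp hT f1 f2, h1, zero_mul, zero_sub, bb_smul] at h2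
  have h3 := h2.neg.smul (residue V v)⁻¹
  rw [neg_neg, inv_smul_smul₀ (fun e0 => hv ((residue_eq_zero_iff v).1 e0))] at h3
  exact hb (IsIdempotentElem.eq_zero_of_isNilpotent (bb_idem hp hT hf.idem f2) h3)

end Pool.Agent.Lib.MP_b6945b_al.Bi
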