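import Pool.Agent.Lib.MP_b6945b_al.Bi.BQ1
import Pool.Agent.Lib.MP_b6945b_al.Bi.BBlk

set_option autoImplicit false

/-!
Blocks of a quotient by a central `p`-subgroup.
-/

namespace Pool.Agent.Lib.MP_b6945b_al.Bi

open St IsLocalRing Finset
open MonoidAlgebra (single)

/-- Compare coefficients at `y` (`coeff_inc_sum`, `coeff_brT`).  If `y` centralises `S.map π` then
`S` acts on the fibre of `y` by conjugation; `sum_mem_of_conj` with `J = ⊥` for the function which
is `a.coeff g` on the fibre outside the centraliser of `S`. -/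
lemma brT_quot {k A G : Type} [Field k] [Group A] [Fintype A] [Group G] [Fintype G] {p : ℕ}
    [Fact p.Prime] (hpk : (p : k) = 0) (π : A →* G) {S : Subgroup A} (hS : IsPGroup p S)
    {a : MonoidAlgebra k A} (ha : Fix S a) :
    brT k ((S.map π : Subgroup G) : Set G) (inc k π a) = inc k π (brT k (S : Set A) a) := by
  classical
  ext y
  rw [brT_eq_trc, brT_eq_trc, coeff_trc, coeff_inc_sum, coeff_inc_sum]
  simp only [coeff_trc]
  split_ifs with hy
  · have h0 := sum_mem_of_conj S hS (fun g => if π g = y ∧ g ∉ Cz S then a.coeff g else 0)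
      (fun s hs g => ?_) ⊥
      (fun g => by rw [← Nat.cast_smul_eq_nsmul k, hpk, zero_smul]; exact zero_mem _)
      fun g hg => by
        rw [if_neg fun e => e.2 (mem_Cz.2 fun d hd => (hg d hd).symm)]
        exact zero_mem _
    · refine Eq.trans ?_ ((congrArg _ (AddSubgroup.mem_bot.1 h0)).trans (add_zero _))
      rw [← Finset.sum_add_distrib]
      refine Finset.sum_congr rfl fun g _ => ?_
      by_cases e : π g = y <;> by_cases e' : g ∈ Cz S <;> simp [e, e']
    · have h1 := mem_Cz.1 hy _ (Subgroup.mem_map_of_mem π hs)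
      have h2 := (Subgroup.mem_normalizer_iff.1 (Nz_le_Nz_Cz S (Subgroup.le_normalizer hs)) g).symm
      refine if_congr (and_congr ?_ (not_congr h2)) ?_ rfl
      · rw [map_mul, map_mul, map_inv, mul_inv_eq_iff_eq_mul, h1, mul_right_inj]
      · conv_lhs => rw [← ha s hs, coeff_cjRep]
        congr 1
        group
  · refine (Finset.sum_eq_zero fun g _ => ?_).symm
    split_ifs with e e'
    · refine absurd (mem_Cz.2 ?_) hy
      rintro _ ⟨s, hs, rfl⟩
      rw [← e, ← map_mul, ← map_mul, mem_Cz.1 e' s hs]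
    · rfl
    · rfl

variable {G : Type} [Group G] [Fintype G] {V : ValuationSubring ℂ} {p : ℕ} [Fact p.Prime]
  {P H K S : Subgroup G} [P.Normal] [Fintype (G ⧸ P)] {a f f' : MonoidAlgebra V G}

lemma bb_quot (hp : (p : ℂ) ∈ V.nonunits) (hS : IsPGroup p S) (ha : Fix S a) :
    bb (S.map (qm P)) (inc V (qm P) a) = inc (ResidueField V) (qm P) (bb S a) := by
  rw [bb, bb, toRes_inc]
  exact brT_quot (bil_pk hp) _ hS ha.toRes

omit [Fintype (G ⧸ P)] in
/-- `conj_of_reg`. -/
lemma reg_inj (hP : IsPGroup p P) (hPK : P ≤ K) (hK : K ≤ Cz P) {s s' : G} (hs : s ∈ K)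
    (hr : ¬ p ∣ orderOf s) (hr' : ¬ p ∣ orderOf s') (h : qm P s = qm P s') : s = s' := by
  obtain ⟨t, ht, e⟩ := conj_of_reg hP (fun x hx y hy => mem_Cz.1 (hK (hPK hx)) y hy) hr hr' h
  rw [e, ← mem_Cz.1 (hK hs) t ht, mul_inv_cancel_right]

omit [Fintype (G ⧸ P)] in
/-- `coeff_inc_sum`, `reg_inj`. -/
lemma coeff_quot (hP : IsPGroup p P) (hPK : P ≤ K) (hK : K ≤ Cz P)
    (ha : ∀ y, p ∣ orderOf y → a.coeff y = 0) {s : G} (hs : s ∈ K) (hr : ¬ p ∣ orderOf s) :
    (inc V (qm P) a).coeff (qm P s) = a.coeff s := by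
  rw [coeff_inc_sum, Finset.sum_eq_single s, if_pos rfl]
  · intro y _ hy
    split_ifs with e
    · by_contra h0
      exact hy (reg_inj hP hPK hK hs hr (fun h1 => h0 (ha y h1)) e.symm).symm
    · rfl
  · exact fun h0 => absurd (Finset.mem_univ s) h0

/-- A central idempotent `b` of `K.map π` is supported on `p`-regular elements (`coeff_sing`);
let `a` have the coefficient `b.coeff (π s)` at `p`-regular `s ∈ K` and `0` elsewhere
(`mk_pq'`, `reg_mk`, `coeff_quot`). -/
lemma exists_lift_central (hp : (p : ℂ) ∈ V.nonunits) (hP : IsPGroup p P) (hPK : P ≤ K)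
    {b : MonoidAlgebra V (G ⧸ P)} (hK : K ≤ Cz P) (hb : b * b = b) (hs : Supp (K.map (qm P)) b)
    (hf : Fix (K.map (qm P)) b) : ∃ a, Supp K a ∧ Fix K a ∧ inc V (qm P) a = b := by
  classical
  obtain ⟨a, ha⟩ : ∃ a : MonoidAlgebra V G, ∀ s, a.coeff s =
      if s ∈ K ∧ ¬ p ∣ orderOf s then b.coeff (qm P s) else 0 :=
    ⟨MonoidAlgebra.ofCoeff (Finsupp.equivFunOnFinite.symm _), fun _ => rfl⟩
  refine ⟨a, fun x hx => ?_, fun g hg => ?_, ?_⟩
  · by_contra h0
    exact hx (by rw [ha, if_neg fun e => h0 e.1])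
  · ext x
    rw [coeff_cjRep, ha, ha]
    have h1 : orderOf (g⁻¹ * x * g) = orderOf x := by
      rw [← MulAut.conj_symm_apply, MulEquiv.orderOf_eq]
    have h2 : b.coeff (qm P (g⁻¹ * x * g)) = b.coeff (qm P x) := by
      rw [map_mul (qm P), map_mul (qm P), map_inv, ← coeff_cjRep,
        hf _ (Subgroup.mem_map_of_mem _ hg)]
    have h3 : g⁻¹ * x * g ∈ K ↔ x ∈ K := by
      rw [K.mul_mem_cancel_right hg, K.mul_mem_cancel_left (K.inv_mem hg)]
    rw [h1, h2]
    simp only [h3]
  · ext y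
    congr 1
    by_cases h0 : b.coeff y = 0
    · rw [h0, coeff_inc_sum]
      refine Finset.sum_eq_zero fun x _ => ?_
      split_ifs with e
      · rw [ha, e, h0, ite_self]
      · rfl
    · obtain ⟨g, hg, rfl⟩ := hs y h0
      have h1 : qm P (pq p g) = qm P g := mk_pq' hP fun e => h0 (coeff_sing hp hb hs hf e)
      have h2 : pq p g ∈ K := Subgroup.zpowers_le.2 hg (pq_mem g)
      have h3 := (pp_spec (p := p) g).2.2
      rw [← h1, coeff_quot hP hPK hK (fun y hy => by rw [ha, if_neg fun e => e.2 hy]) h2 h3, ha,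
        if_pos ⟨h2, h3⟩]

/-- `hb_of_prim`; nonzero by `coeff_sing`, `coeff_quot`.  For a central idempotent `b = inc a`
(`exists_lift_central`) the element `a f - v f` is nil, so is its image (`NilR.map`); if `v` is a
nonunit then the idempotent `b f'` is nil, otherwise `(1 - b) f'` is nil (`NilR.eq_zero`). -/
theorem HB.quot (hp : (p : ℂ) ∈ V.nonunits) (hP : IsPGroup p P) (hPK : P ≤ K) (hK : K ≤ Cz P)
    (h : HB K f) : HB (K.map (qm P)) (inc V (qm P) f) := by
  have hi : inc V (qm P) f * inc V (qm P) f = inc V (qm P) f := by rw [← map_mul, h.idem]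
  refine hb_of_prim hi (h.supp.inc _) (h.fix.inc _) (fun h0 => h.ne ?_) fun b hb hs hf => ?_
  · ext s
    congr 1
    by_contra h1
    have h2 := coeff_quot hP hPK hK (fun y hy => coeff_sing hp h.idem h.supp h.fix hy)
      (h.supp s h1) fun e => h1 (coeff_sing hp h.idem h.supp h.fix e)
    rw [h0] at h2
    exact h1 h2.symm
  · obtain ⟨a, ha1, ha2, rfl⟩ := exists_lift_central hp hP hPK hK hb hs hf
    obtain ⟨v, hv⟩ := h.loc a ha1 ha2
    have h1 := hv.map (inc V (qm P))
    have hc : Commute (inc V (qm P) a) (inc V (qm P) f) := hf.comm (h.supp.inc _)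
    rw [map_sub, map_mul, map_smul] at h1
    generalize inc V (qm P) a = b at hb hc h1
    generalize inc V (qm P) f = e at hi hc h1
    rw [nilR_iff_res, map_sub, map_mul, (red_toRes _).smul] at h1
    refine (idem_dich_field (by rw [← map_mul, hb]) (by rw [← map_mul, hi])
      (by rw [← map_mul, ← map_mul, hc]) h1).imp (fun h2 => ?_) fun h2 => ?_
    · by_contra h3
      exact res_ne_of_idem (IsIdempotentElem.mul_of_commute hc hb hi) h3 (by rw [map_mul, h2])
    · by_contra h3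
      refine res_ne_of_idem (IsIdempotentElem.mul_of_commute ((Commute.one_left e).sub_left hc)
        (IsIdempotentElem.one_sub hb) hi) (fun h4 => h3 ?_) ?_
      · rw [sub_mul, one_mul, sub_eq_zero] at h4
        exact h4.symm
      · rw [sub_mul, one_mul, map_sub, map_mul, h2, sub_self]

lemma HB.quot_inj (hp : (p : ℂ) ∈ V.nonunits) (hP : IsPGroup p P) (hPK : P ≤ K) (hK : K ≤ Cz P)
    (h : HB K f) (h' : HB K f') (he : inc V (qm P) f = inc V (qm P) f') : f = f' := by
  refine h.eq_of_mul_ne h' fun h0 => (h.quot hp hP hPK hK).ne ?_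
  rw [← (h.quot hp hP hPK hK).idem]
  nth_rewrite 2 [he]
  rw [← map_mul, h0, map_zero]

/-- `Nz_map_qm`, `mem_map_qm`, `bic_inc_cj`, `HB.conj_norm`, `HB.quot_inj`. -/
lemma stabT_quot (hp : (p : ℂ) ∈ V.nonunits) (hP : IsPGroup p P) (hPK : P ≤ K) (hK : K ≤ Cz P)
    (h : HB K f) {D : Subgroup G} (hPD : P ≤ D) (hD : Nz D ≤ Nz K) (H : Subgroup G) :
    stabT (H.map (qm P)) (D.map (qm P)) (inc V (qm P) f) = (stabT H D f).map (qm P) := by
  ext y
  constructor
  · rintro ⟨⟨n, hn, rfl⟩, h1, h2⟩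
    rw [Nz_map_qm hPD, mem_map_qm (hPD.trans Subgroup.le_normalizer)] at h1
    rw [← bic_inc_cj] at h2
    exact ⟨n, ⟨hn, h1, (h.conj_norm (hD h1)).quot_inj hp hP hPK hK h h2⟩, rfl⟩
  · rintro ⟨n, ⟨h1, h2, h3⟩, rfl⟩
    refine ⟨Subgroup.mem_map_of_mem _ h1, ?_, by rw [← bic_inc_cj, h3]⟩
    rw [Nz_map_qm hPD]
    exact Subgroup.mem_map_of_mem _ h2

end Pool.Agent.Lib.MP_b6945b_al.Bi
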