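import Pool.Agent.Lib.MP_b6945b_al.Bi.BMax
import Pool.Agent.Lib.MP_b6945b_al.Bi.BQ2
import Pool.Agent.Lib.MP_b6945b_al.Bi.BGU2
import Pool.Agent.Lib.MP_b6945b_al.Bi.BAdd

set_option autoImplicit false

/-!
Dominated blocks: defect groups and number.
-/

namespace Pool.Agent.Lib.MP_b6945b_al.Bi

open St IsLocalRing Finset
open MonoidAlgebra (single)

variable {G : Type} [Group G] [Fintype G] {V : ValuationSubring ℂ} {p : ℕ} [Fact p.Prime]

variable {m : ℕ} {H D P : Subgroup G} [P.Normal] [Fintype (G ⧸ P)] {c : MonoidAlgebra V G}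
  {β : MonoidAlgebra V (G ⧸ P)}

lemma bdom1_card {α : Type} {s : Finset α} {A B : α → Prop} {dA : DecidablePred A}
    {dB : DecidablePred B} {n : ℕ} (h : (@Finset.filter α B dB s).card ≤ n)
    (hAB : ∀ a ∈ s, A a → B a) : (@Finset.filter α A dA s).card ≤ n := by
  refine le_trans (Finset.card_le_card fun a ha => ?_) h
  rw [Finset.mem_filter] at ha ⊢
  exact ⟨ha.1, hAB a ha.1 ha.2⟩

lemma bdom1_filter {α : Type} {s : Finset α} {A : α → Prop} (dA dB : DecidablePred A) :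
    @Finset.filter α A dA s = @Finset.filter α A dB s := by
  rw [Subsingleton.elim dA dB]

omit [Fintype G] in
lemma bdom1_nz (P : Subgroup G) [P.Normal] : ⊤ ≤ Nz P := (Subgroup.normalizer_eq_top P).ge

/-- `maxR_of_bb`; for `T` let `S = T.comap π`; `bb T β * bb T (π b) = bb T β`, `bb_quot`,
`map_comap_qm`, `MaxR.card_le`, `card_map_qm`. -/
theorem Rt.dom_max (hp : (p : ℂ) ∈ V.nonunits) (h : Rt p m H D c) (hPD : P ≤ D)
    (hβ : HB (H.map (qm P)) β) (hle : β * inc V (qm P) (bk D c H) = β) :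
    MaxR p (H.map (qm P)) (D.map (qm P)) β := by
  have hP := h.pD.to_le hPD
  have hPH : P ≤ H := hPD.trans h.le_H
  have hb := (h.spec hp h.le).1
  refine maxR_of_bb fun T hT hTH h0 => ?_
  have hS := pgroup_comap_qm hP hT
  have hSH : T.comap (qm P) ≤ H := fun s hs => (mem_map_qm hPH).1 (hTH hs)
  have h1 : bb (T.comap (qm P)) (bk D c H) ≠ 0 := by
    intro h2
    have h3 := bb_quot (P := P) hp hS (hb.fix.mono hSH)
    rw [map_comap_qm, h2, map_zero] at h3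
    apply h0
    rw [← hle, bb_mul hp hT (hβ.fix.mono hTH) ((hb.fix.inc (qm P)).mono hTH), h3, mul_zero]
  have h4 := h.max.card_le hS hSH h1
  rw [← card_map_qm (le_comap_qm T), map_comap_qm, ← card_map_qm hPD] at h4
  exact Nat.le_of_mul_le_mul_right h4 (Nat.card_pos (α := P))

omit [Fintype (G ⧸ P)] [Fintype G] in
lemma le_Nz_inf_Cz (H P : Subgroup G) [P.Normal] : H ≤ Nz (H ⊓ Cz P) := by
  intro g hg
  have h1 : cg g P = P := cg_eq_iff.2 (bdom1_nz P (Subgroup.mem_top g))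
  have h2 : cg g H = H := cg_eq_iff.2 (Subgroup.le_normalizer hg)
  rw [← cg_eq_iff, cg_inf, ← Cz_cg, h1, h2]

omit [Fintype (G ⧸ P)] [Fintype G] in
lemma bdom1_norm (hPK : P ≤ H ⊓ Cz P) :
    H.map (qm P) ≤ Nz ((H ⊓ Cz P).map (qm P)) := by
  rw [Nz_map_qm hPK]
  exact Subgroup.map_mono (le_Nz_inf_Cz H P)

/-- `toRes b = bb P b` (`bb_of_normal`) is the sum of the residues of the blocks `f` of
`K = H ⊓ Cz P` with `Le P b f` (`res_idem_eq_sum`), so `β * π f ≠ 0` for one of them;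
`Rt.max_pair` gives `g ∈ H` with `cj g⁻¹ f = bk D c K` (`HB.conj_norm`, `Le.cj`, `Rt.bk_eq`). -/
theorem Rt.dom_cover (hp : (p : ℂ) ∈ V.nonunits) (h : Rt p m H D c) (hPD : P ≤ D)
    (hβ : HB (H.map (qm P)) β) (hle : β * inc V (qm P) (bk D c H) = β) :
    β * inc V (qm P) (bk D c (H ⊓ Cz P)) ≠ 0 := by
  classical
  have hP := h.pD.to_le hPD
  have hPH : P ≤ H := hPD.trans h.le_H
  have hb := (h.spec hp h.le).1
  have hK : Cz D ≤ H ⊓ Cz P := le_inf h.le (Cz_anti hPD)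
  have hn : H ≤ Nz P := le_top.trans (bdom1_nz P)
  have h1 := res_idem_eq_sum (V := V) (H := H ⊓ Cz P)
    (bb_idem hp hP hb.idem (hb.fix.mono hPH)) hb.supp.bb
    ((hb.fix.mono inf_le_left).bb (inf_le_left.trans hn))
  have h2 : ∃ f, HB (H ⊓ Cz P) f ∧ Le P (bk D c H) f ∧ β * inc V (qm P) f ≠ 0 := by
    by_contra hno
    refine hβ.res_ne ?_
    rw [← hle, map_mul, toRes_inc, ← bb_of_normal hp hP hPH hn hb.idem hb.supp hb.fix, h1,
      map_sum, Finset.mul_sum]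
    refine Finset.sum_eq_zero fun f hf => ?_
    rw [Finset.mem_filter] at hf
    rw [← toRes_inc, ← map_mul]
    by_contra h3
    exact hno ⟨f, mem_blk.1 hf.1, hf.2, fun h4 => h3 (by rw [h4, map_zero])⟩
  obtain ⟨f, hf, hl, h3⟩ := h2
  obtain ⟨g, hg, -, h4⟩ := h.max_pair hp hP hPH hf hl
  have h5 := h4.cj g⁻¹
  rw [cg_cg, inv_mul_cancel, cg_one, frpg_inv_cj] at h5
  rw [h.bk_eq hp hK (hf.conj_norm (le_Nz_inf_Cz H P (H.inv_mem hg))) h5, bic_inc_cj,
    ← hβ.fix (qm P g⁻¹) (Subgroup.mem_map_of_mem _ (H.inv_mem hg)), ← cjRep_mul]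
  exact fun h6 => h3 (cj_injective _ (h6.trans (map_zero _).symm))

/-- `stabT_quot`, `card_map_qm`, `Rt.card_stab_le`, `Rt.local`. -/
lemma Rt.card_stab_quot (hp : (p : ℂ) ∈ V.nonunits) (h : Rt p m H D c) (hPD : P ≤ D) :
    Nat.card (stabT (H.map (qm P)) ((H ⊓ Cz P).map (qm P)) (inc V (qm P) (bk D c (H ⊓ Cz P)))) ≤
      m * Nat.card ((H ⊓ Cz P).map (qm P)) := by
  have hP := h.pD.to_le hPD
  have h' := h.local hp hPD le_rfl inf_le_left (inf_le_right.trans (Cz_le_Nz P))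
  have hPK : P ≤ H ⊓ Cz P := hPD.trans h'.le_H
  have hf := (h'.spec hp h'.le).1
  have h1 : P ≤ stabT H (H ⊓ Cz P) (bk D c (H ⊓ Cz P)) := fun n hn =>
    ⟨(hPK hn).1, Subgroup.le_normalizer (hPK hn), hf.fix n (hPK hn)⟩
  have h2 := h.card_stab_le hp h' inf_le_left
  rw [← card_map_qm h1, ← card_map_qm hPK, ← mul_assoc] at h2
  rw [stabT_quot hp hP hPK inf_le_right hf hPK le_rfl H]
  exact Nat.le_of_mul_le_mul_right h2 (Nat.card_pos (α := P))

/-- `bb_ne_of_cover`, `HB.quot` (for `H ⊓ Cz P` and for `Cz D`), `bb_quot`, `toRes_inc`. -/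
theorem Rt.dom_ne (hp : (p : ℂ) ∈ V.nonunits) (hm : m < p) (h : Rt p m H D c) (hPD : P ≤ D)
    (hβ : HB (H.map (qm P)) β) (hle : β * inc V (qm P) (bk D c H) = β) :
    bb (D.map (qm P)) β ≠ 0 := by
  have hP := h.pD.to_le hPD
  have hK : Cz D ≤ H ⊓ Cz P := le_inf h.le (Cz_anti hPD)
  have hDK := h.le_Cz.trans hK
  obtain ⟨hf, hl⟩ := h.spec hp hK
  refine bb_ne_of_cover hp hm (Subgroup.map_mono inf_le_left) (bdom1_norm (hPD.trans hDK))
    (hf.quot hp hP (hPD.trans hDK) inf_le_right) (h.card_stab_quot hp hPD) hβ.idem hβ.supp hβ.fix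
    (h.dom_cover hp hPD hβ hle) (h.pD.map _) (Subgroup.map_mono hDK) fun h0 => ?_
  refine (h.root.quot hp hP (hPD.trans h.le_Cz) (Cz_anti hPD)).res_ne ?_
  rw [bb_quot hp h.pD (hf.fix.mono hDK)] at h0
  unfold Le at hl
  rw [toRes_inc, ← hl, map_mul, h0, zero_mul]

open Classical in
theorem Rt.dom_card (hp : (p : ℂ) ∈ V.nonunits) (hm : m < p) (h : Rt p m H D c) (hPD : P ≤ D) :
    ((blk V (H.map (qm P))).filter fun β => β * inc V (qm P) (bk D c H) = β).card ≤ m := by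
  have hP := h.pD.to_le hPD
  have hK : Cz D ≤ H ⊓ Cz P := le_inf h.le (Cz_anti hPD)
  have hPK := hPD.trans (h.le_Cz.trans hK)
  have h1 := card_cover_le hp hm (Subgroup.map_mono inf_le_left) (bdom1_norm hPK)
    ((h.spec hp hK).1.quot hp hP hPK inf_le_right) (h.card_stab_quot hp hPD)
  exact bdom1_card h1 fun β hβ h2 => h.dom_cover hp hPD (mem_blk.1 hβ) h2

lemma Rt.bb_quot_bk (hp : (p : ℂ) ∈ V.nonunits) (h : Rt p m H D c) :
    bb (D.map (qm P)) (inc V (qm P) (bk D c H)) =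
      toRes V (G ⧸ P) (inc V (qm P) (bk D c (H ⊓ Nz D))) := by
  rw [bb_quot hp h.pD ((h.spec hp h.le).1.fix.mono h.le_H), h.bb_bk hp, toRes_inc]

open Classical in
/-- `lL_quot`, `lL_eq_sum`. -/
lemma Rt.lL_dom (hp : (p : ℂ) ∈ V.nonunits) (h : Rt p m H D c) (hPD : P ≤ D) :
    lL p H (bk D c H) = ∑ β ∈ (blk V (H.map (qm P))).filter
      (fun β => β * inc V (qm P) (bk D c H) = β), lL p (H.map (qm P)) β := by
  have hb := (h.spec hp h.le).1
  rw [← lL_quot hp (h.pD.to_le hPD) (fun x hx y hy => h.comm x (hPD hx) y (hPD hy))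
    (hPD.trans h.le_H) hb.idem hb.supp hb.fix]
  have h1 : inc V (qm P) (bk D c H) * inc V (qm P) (bk D c H) = inc V (qm P) (bk D c H) := by
    rw [← map_mul, hb.idem]
  exact (lL_eq_sum hp h1 (hb.supp.inc (qm P)) (hb.fix.inc (qm P))).trans
    (Finset.sum_congr (bdom1_filter _ _) fun _ _ => rfl)

omit [P.Normal] [Fintype (G ⧸ P)] in
/-- `Rt.lL_dom` with `P = D`; each term is at most `1` (`lL_le_kL`, `kL_le_one`, `Rt.dom_max`,
`map_top_qm`, `map_self_qm`); `Rt.dom_card`. -/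
theorem lL_normal_le (hp : (p : ℂ) ∈ V.nonunits) (hm : m < p) [D.Normal] (h : Rt p m ⊤ D c) :
    lL p ⊤ (bk D c ⊤) ≤ m := by
  classical
  let _ : Fintype (G ⧸ D) := Fintype.ofFinite _
  rw [h.lL_dom hp (P := D) le_rfl]
  refine le_trans (Finset.sum_le_card_nsmul _ _ 1 fun β hβ => ?_) ?_
  · rw [Finset.mem_filter] at hβ
    have h1 := mem_blk.1 hβ.1
    have h2 := h.dom_max hp le_rfl h1 hβ.2
    rw [map_top_qm] at h1 h2 ⊢
    rw [map_self_qm] at h2
    exact (lL_le_kL p _ _).trans (kL_le_one hp h1 h2)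
  · rw [smul_eq_mul, mul_one]
    exact h.dom_card hp hm le_rfl

omit [P.Normal] [Fintype (G ⧸ P)] in
/-- `Rt.nz`, `Rt.pull`, `Rt.lL_map` with `K = ⊤`, `lL_normal_le`. -/
theorem Rt.lL_nz_le (hp : (p : ℂ) ∈ V.nonunits) (hm : m < p) (h : Rt p m H D c) :
    lL p (H ⊓ Nz D) (bk D c (H ⊓ Nz D)) ≤ m := by
  let _ : Fintype (H ⊓ Nz D : Subgroup G) := Fintype.ofFinite _
  have h' := h.nz hp
  have h1 := h'.lL_map hp (K := ⊤) le_top
  rw [map_top_sub] at h1
  have : (D.subgroupOf (H ⊓ Nz D)).Normal :=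
    (Subgroup.normal_subgroupOf_iff_le_normalizer h'.le_H).2 inf_le_right
  rw [h1]
  exact lL_normal_le hp hm (h'.pull hp)

end Pool.Agent.Lib.MP_b6945b_al.Bi
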