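import Pool.Agent.Lib.MP_b6945b_al.Bi.BDom1

set_option autoImplicit false

/-!
Dominated blocks: Brauer correspondence.
-/

namespace Pool.Agent.Lib.MP_b6945b_al.Bi

open St IsLocalRing Finset
open MonoidAlgebra (single)

lemma sum_eq_of_fibres {R A B : Type} (s : R → Prop) (a : R → A) (b : R → B) (SA : Finset A)
    (SB : Finset B) (F : A → ℕ) (F' : B → ℕ) (h1 : ∀ r, s r → a r ∈ SA) (h2 : ∀ r, s r → b r ∈ SB)
    (h3 : ∀ x ∈ SA, ∃ r, s r ∧ a r = x) (h4 : ∀ y ∈ SB, ∃ r, s r ∧ b r = y)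
    (h5 : ∀ r r', s r → s r' → (a r = a r' ↔ b r = b r')) (h6 : ∀ r, s r → F (a r) = F' (b r)) :
    ∑ x ∈ SA, F x = ∑ y ∈ SB, F' y := by
  choose r hr hr' using h3
  refine Finset.sum_bij (fun x hx => b (r x hx)) (fun x hx => h2 _ (hr x hx)) ?_ ?_ ?_
  · intro x hx x' hx' h
    rw [← hr' x hx, ← hr' x' hx']
    exact (h5 _ _ (hr x hx) (hr x' hx')).2 h
  · intro y hy
    obtain ⟨r₀, h7, rfl⟩ := h4 y hy
    exact ⟨a r₀, h1 r₀ h7, (h5 _ _ (hr _ _) h7).1 (hr' _ _)⟩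
  · intro x hx
    rw [← h6 _ (hr x hx), hr']

variable {G : Type} [Group G] [Fintype G] {V : ValuationSubring ℂ} {p : ℕ} [Fact p.Prime]
  {m : ℕ} {H D P : Subgroup G} [P.Normal] [Fintype (G ⧸ P)] {c : MonoidAlgebra V G}
  {β γ : MonoidAlgebra V (G ⧸ P)}

omit [Fintype G] [Fintype (G ⧸ P)] in
lemma bdom2_Cz_le (hN : Nz D ≤ H) (hPD : P ≤ D) : Cz (D.map (qm P)) ≤ H.map (qm P) := by
  refine (Cz_le_Nz _).trans ?_
  rw [Nz_map_qm hPD]
  exact Subgroup.map_mono hN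

/-- `bb D e` is the sum of the residues of the roots `c'` (`res_idem_eq_sum` in `Cz D`), so by
`bb_quot` there is a root `c'` with `γ * π c' ≠ 0`; `Rt.inB` bounds `stabT ⊤ D c'`.  Let
`K = (Cz D).map π`, `f = π c'` (`HB.quot`); `K ≤ Cz D' ≤ Nz D' ≤ Nz K` (`Nz_map_qm`,
`Nz_le_Nz_Cz`, `Subgroup.le_normalizer_map`).  For `s` in the stabiliser of `γ`,
`HB.cover_conj` gives `a ∈ Cz D'` with `cj s f = cj a f`, so `a⁻¹ s ∈ stabT ⊤ D' f`, which is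
`(stabT ⊤ D c').map π` (`stabT_quot`); `card_le_of_prod` with `Z = K`, `card_map_qm`. -/
theorem Rt.dom_inert (hp : (p : ℂ) ∈ V.nonunits) (h : Rt p m ⊤ D c) (hPD : P ≤ D)
    (hγ : HB (Cz (D.map (qm P))) γ) (hl : Le (D.map (qm P)) (inc V (qm P) (bk D c ⊤)) γ) :
    Nat.card (stabT ⊤ (D.map (qm P)) γ) ≤ m * Nat.card (Cz (D.map (qm P))) := by
  classical
  have he := (h.spec hp le_top).1
  have hP : IsPGroup p P := h.pD.to_le hPD
  have hPK : P ≤ Cz D := hPD.trans h.le_Cz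
  have hfD : Fix D (bk D c ⊤) := he.fix.mono le_top
  have h1 := res_idem_eq_sum (bb_idem hp h.pD he.idem hfD) (supp_bb D _)
    ((he.fix.mono le_top).bb (Cz_le_Nz D))
  have h2 := hγ.res_ne
  unfold Le at hl
  rw [← hl, bb_quot hp h.pD hfD, h1, map_sum, Finset.sum_mul] at h2
  obtain ⟨c', hc', h3⟩ := Finset.exists_ne_zero_of_sum_ne_zero h2
  obtain ⟨h4, h5⟩ := Finset.mem_filter.1 hc'
  have hc'' : HB (Cz D) c' := mem_blk.1 h4
  have hin := h.inB hp c' hc'' h5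
  have hf := hc''.quot hp hP hPK (Cz_anti hPD)
  have hK := map_Cz_le P D
  have hNK : Nz (D.map (qm P)) ≤ Nz ((Cz D).map (qm P)) := by
    rw [Nz_map_qm hPD]
    exact (Subgroup.map_mono (Nz_le_Nz_Cz D)).trans (Subgroup.le_normalizer_map _)
  have h0 : γ * inc V (qm P) c' ≠ 0 := by
    intro e
    apply h3
    rw [← toRes_inc, ← map_mul, ← hγ.fix.comm (hf.supp.mono hK), e, map_zero]
  have hst := stabT_quot hp hP hPK (Cz_anti hPD) hc'' hPD (Nz_le_Nz_Cz D) ⊤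
  rw [map_top_qm] at hst
  have hCs : Cz D ≤ stabT ⊤ D c' := fun n hn => ⟨trivial, Cz_le_Nz D hn, hc''.fix n hn⟩
  refine card_le_of_prod (B := stabT ⊤ (D.map (qm P)) (inc V (qm P) c')) hK ?_ ?_ ?_
  · rw [hst]
    exact Subgroup.map_mono hCs
  · rw [hst]
    refine Nat.le_of_mul_le_mul_right ?_ (Nat.card_pos (α := P))
    rwa [card_map_qm (hPK.trans hCs), mul_assoc, card_map_qm hPK]
  · rintro s ⟨-, hs, hs'⟩
    obtain ⟨a, ha, h6⟩ := hγ.cover_conj hK ((Cz_le_Nz _).trans hNK) hf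
      (hf.conj_norm (hNK hs)) h0 fun e => h0 (cj_injective s (by
        rw [cjRep_mul, hs', e, map_zero]))
    refine ⟨a, ha, a⁻¹ * s, ⟨trivial, Subgroup.mul_mem _ (Subgroup.inv_mem _ (Cz_le_Nz _ ha)) hs,
      ?_⟩, (mul_inv_cancel_left a s).symm⟩
    rw [← frpg_cj_cj, h6, frpg_inv_cj]

/-- `Rt.bb_quot_bk`. -/
lemma Rt.dom_le_iff (hp : (p : ℂ) ∈ V.nonunits) (h : Rt p m ⊤ D c) (h' : Rt p m H D c)
    (hN : Nz D ≤ H) : Le (D.map (qm P)) (inc V (qm P) (bk D c H)) γ ↔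
      Le (D.map (qm P)) (inc V (qm P) (bk D c ⊤)) γ := by
  unfold Le
  rw [h'.bb_quot_bk hp, h.bb_quot_bk hp, inf_eq_right.2 hN, top_inf_eq]

/-- `bk_spec`, `HB.dich`, `bb_mul`, `Rt.dom_max`, `Rt.dom_inert`, `stabT_mono`. -/
theorem Rt.dom_rt (hp : (p : ℂ) ∈ V.nonunits) (h : Rt p m ⊤ D c) (h' : Rt p m H D c)
    (hN : Nz D ≤ H) (hPD : P ≤ D) (hγ : HB (Cz (D.map (qm P))) γ)
    (hl : Le (D.map (qm P)) (inc V (qm P) (bk D c ⊤)) γ) :
    Rt p m (H.map (qm P)) (D.map (qm P)) γ ∧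
      bk (D.map (qm P)) γ (H.map (qm P)) * inc V (qm P) (bk D c H) =
        bk (D.map (qm P)) γ (H.map (qm P)) := by
  have hD : IsPGroup p (D.map (qm P)) := h.pD.map _
  have hDH : D.map (qm P) ≤ H.map (qm P) := Subgroup.map_mono h'.le_H
  have hC := bdom2_Cz_le hN hPD
  obtain ⟨hβ, hb⟩ := bk_spec hp hD hDH hγ inf_le_right hC (Cz_le_Nz _)
  have he := (h'.spec hp h'.le).1
  have hl' := (h.dom_le_iff hp h' hN).2 hl
  have hle : bk (D.map (qm P)) γ (H.map (qm P)) * inc V (qm P) (bk D c H) =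
      bk (D.map (qm P)) γ (H.map (qm P)) := by
    refine (hβ.dich (by rw [← map_mul, he.idem]) (he.supp.inc _) (he.fix.inc _)).resolve_left
      fun e => hγ.res_ne ?_
    unfold Le at hb hl'
    rw [← hb, ← hl', ← mul_assoc, ← bb_mul hp hD (hβ.fix.mono hDH) ((he.fix.inc _).mono hDH), e,
      bb_zero, zero_mul]
  refine ⟨⟨hD, ?_, hC, hγ, h'.dom_max hp hPD hβ hle,
    (Subgroup.card_le_of_le (stabT_mono le_top _ _)).trans (h.dom_inert hp hPD hγ hl)⟩, hle⟩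
  rintro _ ⟨x, hx, rfl⟩ _ ⟨y, hy, rfl⟩
  rw [← map_mul, ← map_mul, h.comm x hx y hy]

/-- `Rt.dom_ne`, `exists_root`, `bk_eq`. -/
theorem Rt.dom_surj (hp : (p : ℂ) ∈ V.nonunits) (hm : m < p) (h : Rt p m ⊤ D c)
    (h' : Rt p m H D c) (hN : Nz D ≤ H) (hPD : P ≤ D) (hβ : HB (H.map (qm P)) β)
    (hle : β * inc V (qm P) (bk D c H) = β) :
    ∃ γ, (HB (Cz (D.map (qm P))) γ ∧ Le (D.map (qm P)) (inc V (qm P) (bk D c ⊤)) γ) ∧
      bk (D.map (qm P)) γ (H.map (qm P)) = β := by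
  have hD : IsPGroup p (D.map (qm P)) := h.pD.map _
  have hDH : D.map (qm P) ≤ H.map (qm P) := Subgroup.map_mono h'.le_H
  obtain ⟨γ, hγ, hl⟩ := exists_root hp hD hDH hβ.idem hβ.supp hβ.fix (h'.dom_ne hp hm hPD hβ hle)
  rw [inf_eq_right.2 (bdom2_Cz_le hN hPD)] at hγ
  have he := (h'.spec hp h'.le).1
  refine ⟨γ, ⟨hγ, (h.dom_le_iff hp h' hN).1 ?_⟩, Bi.bk_eq hp hD hDH hβ hγ.res_ne hl⟩
  unfold Le at hl ⊢
  conv_lhs => rw [← hl]
  rw [← mul_assoc, ← bb_mul hp hD ((he.fix.inc _).mono hDH) (hβ.fix.mono hDH),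
    ← hβ.fix.comm (he.supp.inc _), hle, hl]

omit [P.Normal] [Fintype (G ⧸ P)] in
/-- `Rt.root_conj'`, `Rt.bk_root_conj`. -/
lemma Rt.bk_eq_of_eq (hp : (p : ℂ) ∈ V.nonunits) {H' : Subgroup G} {c' : MonoidAlgebra V G}
    (h : Rt p m H D c) (h' : Rt p m H D c') (hN : Nz D ≤ H') (he : bk D c H = bk D c' H) :
    bk D c H' = bk D c' H' := by
  have hl := (h'.spec hp h'.le).2
  rw [← he] at hl
  obtain ⟨g, -, hg, rfl⟩ := h.root_conj' hp h'.root hl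
  exact (h.bk_root_conj hp ((Cz_le_Nz D).trans hN) (hN hg) hg).symm

/-- `Rt.lL_dom` for `⊤` and `Nz D` (`Rt.nz`), `sum_eq_of_fibres`, `map_top_qm`, `Nz_map_qm`. -/
theorem Rt.dom_eq (hp : (p : ℂ) ∈ V.nonunits) (hm : m < p) (h : Rt p m ⊤ D c) (hPD : P ≤ D)
    (ih : ∀ γ : MonoidAlgebra V (G ⧸ P), Rt p m ⊤ (D.map (qm P)) γ →
      lL p ⊤ (bk (D.map (qm P)) γ ⊤) =
        lL p (Nz (D.map (qm P))) (bk (D.map (qm P)) γ (Nz (D.map (qm P))))) :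
    lL p ⊤ (bk D c ⊤) = lL p (Nz D) (bk D c (Nz D)) := by
  classical
  have h' : Rt p m (Nz D) D c := by
    have h1 := h.nz hp
    rwa [top_inf_eq] at h1
  rw [h.lL_dom hp hPD, h'.lL_dom hp hPD]
  refine sum_eq_of_fibres
    (fun γ => HB (Cz (D.map (qm P))) γ ∧ Le (D.map (qm P)) (inc V (qm P) (bk D c ⊤)) γ)
    (fun γ => bk (D.map (qm P)) γ ((⊤ : Subgroup G).map (qm P)))
    (fun γ => bk (D.map (qm P)) γ ((Nz D).map (qm P))) _ _ _ _ ?_ ?_ ?_ ?_ ?_ ?_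
  · intro γ hγ
    obtain ⟨h1, h2⟩ := h.dom_rt hp h le_top hPD hγ.1 hγ.2
    exact (Finset.mem_filter (p := fun β => β * inc V (qm P) (bk D c ⊤) = β)).2
      ⟨mem_blk.2 (h1.spec hp h1.le).1, h2⟩
  · intro γ hγ
    obtain ⟨h1, h2⟩ := h.dom_rt hp h' le_rfl hPD hγ.1 hγ.2
    exact (Finset.mem_filter (p := fun β => β * inc V (qm P) (bk D c (Nz D)) = β)).2
      ⟨mem_blk.2 (h1.spec hp h1.le).1, h2⟩
  · intro β hβ
    rw [Finset.mem_filter] at hβ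
    exact h.dom_surj hp hm h le_top hPD (mem_blk.1 hβ.1) hβ.2
  · intro β hβ
    rw [Finset.mem_filter] at hβ
    exact h.dom_surj hp hm h' le_rfl hPD (mem_blk.1 hβ.1) hβ.2
  · intro γ γ' hγ hγ'
    constructor
    · exact (h.dom_rt hp h le_top hPD hγ.1 hγ.2).1.bk_eq_of_eq hp
        (h.dom_rt hp h le_top hPD hγ'.1 hγ'.2).1 (Nz_map_qm hPD).le
    · exact (h.dom_rt hp h' le_rfl hPD hγ.1 hγ.2).1.bk_eq_of_eq hp
        (h.dom_rt hp h' le_rfl hPD hγ'.1 hγ'.2).1 (le_top.trans (map_top_qm P).ge)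
  · intro γ hγ
    have h1 := (h.dom_rt hp h le_top hPD hγ.1 hγ.2).1
    rw [map_top_qm] at h1
    simp only [map_top_qm, ← Nz_map_qm hPD]
    exact ih γ h1

end Pool.Agent.Lib.MP_b6945b_al.Bi
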