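import Pool.Agent.Lib.MP_b6945b_al.Bi.BVan

set_option autoImplicit false

/-!
The Green step: a primitive idempotent which is a relative trace is induced.
-/

namespace Pool.Agent.Lib.MP_b6945b_al.Bi

open St IsLocalRing Finset
open MonoidAlgebra (single)

variable {G : Type} [Group G] [Fintype G] {V : ValuationSubring ℂ} {p : ℕ} [Fact p.Prime]

section alg

variable {R A : Type} [CommRing R] [IsLocalRing R] [Ring A] [Algebra R A]

/-- An idempotent below `i` on which `y` has the eigenvalue `c` modulo the maximal ideal. -/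
def bg1Eig (y i : A) (c : R) (e : A) : Prop :=
  e ∈ Algebra.adjoin R {y, i} ∧ e * e = e ∧ i * e = e ∧ NilR R (y * e - c • e)

omit [IsLocalRing R] in
lemma bg1_comm {y i : A} (h : y * i = i * y) {a b : A} (ha : a ∈ Algebra.adjoin R {y, i})
    (hb : b ∈ Algebra.adjoin R {y, i}) : a * b = b * a := by
  have h1 : ∀ x ∈ ({y, i} : Set A), ∀ z ∈ ({y, i} : Set A), Commute x z := by
    rintro x (rfl | rfl) z (rfl | rfl)
    · exact Commute.refl _
    · exact h
    · exact h.symm
    · exact Commute.refl _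
  exact Algebra.commute_of_mem_adjoin_of_forall_mem_commute hb fun z hz =>
    (Algebra.commute_of_mem_adjoin_of_forall_mem_commute ha fun x hx => h1 z hz x hx).symm

omit [IsLocalRing R] in
lemma bg1_y (y i : A) : y ∈ Algebra.adjoin R {y, i} := Algebra.subset_adjoin (Or.inl rfl)

omit [IsLocalRing R] in
lemma bg1_i (y i : A) : i ∈ Algebra.adjoin R {y, i} := Algebra.subset_adjoin (Or.inr rfl)

lemma bg1_step {y i : A} (σ : A →ₐ[R] A) {u : R} (hu : 1 - u ∈ maximalIdeal R) (hσi : σ i = i)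
    (hσy : σ y = u • (y - i)) {c : R} {e : A} (he : bg1Eig y i c e) :
    bg1Eig y i (c + 1) (σ e) := by
  obtain ⟨h1, h2, h3, h4⟩ := he
  have h5 : i * σ e = σ e := by
    conv_lhs => rw [← hσi]
    rw [← map_mul, h3]
  refine ⟨?_, by rw [← map_mul, h2], h5, ?_⟩
  · have h6 : Algebra.adjoin R {y, i} ≤ (Algebra.adjoin R {y, i}).comap σ := by
      refine Algebra.adjoin_le ?_
      rintro x (rfl | rfl)
      · change σ x ∈ Algebra.adjoin R {x, i}
        rw [hσy]
        exact Subalgebra.smul_mem _ (sub_mem (bg1_y _ _) (bg1_i _ _)) _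
      · change σ x ∈ Algebra.adjoin R {y, x}
        rw [hσi]
        exact bg1_i _ _
    exact h6 h1
  · have h6 := (h4.map σ).add_inMax (inMax_smul hu (y * σ e - σ e))
    rw [map_sub, map_mul, map_smul, hσy, smul_mul_assoc, sub_mul, h5] at h6
    have h7 : y * σ e - (c + 1) • σ e =
        u • (y * σ e - σ e) - c • σ e + (1 - u) • (y * σ e - σ e) := by
      module
    rwa [h7]

variable [Module.Finite R A]

lemma bg1_orth {y i : A} (h : y * i = i * y) {c c' : R} {e e' : A} (he : bg1Eig y i c e)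
    (he' : bg1Eig y i c' e') (hc : IsUnit (c' - c)) : e * e' = 0 := by
  obtain ⟨h1, h2, -, h4⟩ := he
  obtain ⟨h1', h2', -, h4'⟩ := he'
  have hy := bg1_y (R := R) y i
  have m1 : y * e - c • e ∈ Algebra.adjoin R {y, i} :=
    sub_mem (mul_mem hy h1) (Subalgebra.smul_mem _ h1 _)
  have m2 : y * e' - c' • e' ∈ Algebra.adjoin R {y, i} :=
    sub_mem (mul_mem hy h1') (Subalgebra.smul_mem _ h1' _)
  have hee : e' * e = e * e' := bg1_comm h h1' h1
  have n1 := h4.mul_right (bg1_comm h m1 h1')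
  have n2 := (h4'.mul_right (bg1_comm h m2 h1)).neg
  have n3 := n1.add n2 (bg1_comm h (mul_mem m1 h1') (neg_mem (mul_mem m2 h1)))
  obtain ⟨v, hv⟩ := hc.exists_left_inv
  have n4 := n3.smul v
  have h5 : (y * e - c • e) * e' + -((y * e' - c' • e') * e) = (c' - c) • (e * e') := by
    rw [sub_mul, sub_mul, smul_mul_assoc, smul_mul_assoc, mul_assoc, mul_assoc, hee]
    module
  rw [h5, smul_smul, hv, one_smul] at n4
  refine n4.eq_zero ?_
  rw [mul_assoc, ← mul_assoc e', hee, mul_assoc, h2', ← mul_assoc, h2]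

lemma bg1_exists (hR : MonicSplit R) {y i : A} (h : y * i = i * y) (hi : i * i = i) (h0 : i ≠ 0) :
    ∃ (c : R) (e : A), bg1Eig y i c e ∧ e ≠ 0 := by
  by_contra hno
  have hle : Algebra.adjoin R {y} ≤ Algebra.adjoin R {y, i} :=
    Algebra.adjoin_mono (Set.singleton_subset_iff.2 (Or.inl rfl))
  have hci : ∀ c : R, (y - algebraMap R A c) * i = i * (y - algebraMap R A c) := fun c => by
    rw [sub_mul, mul_sub, h, Algebra.commutes]
  have key : ∀ c : R, ∃ w, (y - algebraMap R A c) * w = i := by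
    intro c
    obtain ⟨ε, hε, w, -, h1, h2, h3⟩ := exists_fitting hR y c
    have hεi : ε * i = i * ε := bg1_comm h (hle hε) (bg1_i _ _)
    have h4 : ε * i = 0 := by
      by_contra h5
      refine hno ⟨c, ε * i, ⟨mul_mem (hle hε) (bg1_i _ _), ?_, ?_, ?_⟩, h5⟩
      · rw [mul_assoc, ← mul_assoc i, ← hεi, mul_assoc, hi, ← mul_assoc, h1.eq]
      · rw [← mul_assoc, ← hεi, mul_assoc, hi]
      · have h6 := h2.mul_right (y := i) (by
          rw [mul_assoc, hεi, ← mul_assoc, hci, mul_assoc])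
        rwa [mul_assoc, sub_mul, ← Algebra.smul_def] at h6
    exact ⟨w * i, by rw [← mul_assoc, h3, sub_mul, one_mul, h4, sub_zero]⟩
  have key2 : ∀ s : Multiset R, ∃ w,
      Polynomial.aeval y (s.map fun a => Polynomial.X - Polynomial.C a).prod * w = i := by
    intro s
    induction s using Multiset.induction_on with
    | empty => exact ⟨i, by simp⟩
    | cons a s ih =>
      obtain ⟨w, hw⟩ := ih
      obtain ⟨w', hw'⟩ := key a
      refine ⟨w * w', ?_⟩
      rw [Multiset.map_cons, Multiset.prod_cons, map_mul, map_sub, Polynomial.aeval_X,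
        Polynomial.aeval_C, mul_assoc, ← mul_assoc _ w, hw, ← mul_assoc, hci, mul_assoc, hw', hi]
  obtain ⟨f, hf, hfy⟩ := IsIntegral.of_finite R y
  rw [← Polynomial.aeval_def] at hfy
  obtain ⟨s, hs⟩ := hR f hf
  obtain ⟨w, hw⟩ := key2 s
  rw [← hs, hfy, zero_mul] at hw
  exact h0 hw.symm

end alg

omit [Fintype G] [Fact p.Prime] in
lemma bg1_fix {S P Q : Subgroup G} (hP : PCom p S P) (hn : P ≤ Nz Q) {g : G} (hg : g ∈ P)
    {a : MonoidAlgebra V G} (ha : a ∈ fxAlg V S Q) : cjRep V G g a ∈ fxAlg V S Q := by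
  refine ⟨fun q hq => ?_, fun s hs => ?_⟩
  · have h1 : g⁻¹ * q * g ∈ Q := (Subgroup.mem_normalizer_iff''.1 (hn hg) q).1 hq
    rw [frpg_cj_cj, show q * g = g * (g⁻¹ * q * g) by group, ← frpg_cj_cj, ha.1 _ h1]
  · rw [frpg_cj_cj, ← hP.2 g hg s hs, ← frpg_cj_cj, ha.2 _ hs]

lemma bg1_unit (hp : (p : ℂ) ∈ V.nonunits) (c : V) {m n : ℕ} (hm : m < p) (hn : n < p)
    (h : m ≠ n) : IsUnit (c + n - (c + m)) := by
  have := charP_of_mem (R := V) Fact.out (blkF_pmem hp)
  by_contra h1
  have h2 : residue V (c + n - (c + m)) = 0 := (residue_eq_zero_iff _).2 h1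
  rw [add_sub_add_left_eq_sub, map_sub, map_natCast, map_natCast, sub_eq_zero,
    CharP.natCast_eq_natCast _ p] at h2
  exact h (h2.eq_of_lt_of_lt hn hm).symm

/-- Let `j_c` be Fitting idempotents.  `θ = ∑ m < p, ζ^m cj(t^m) a`, `cj t θ = ζ⁻¹ θ`,
`y = ∑ m < p, (∑ l < m, ζ^l) • cj(t^m) a`, so `(ζ - 1) y = θ - i` and
`cj t y = ζ⁻¹ (y - i)` (cancel `ζ - 1` in the torsion free module).  `y ∈ fxAlg S Q`, `i y i = y`.
For `c : V` let `ε c ∈ adjoin {y}` be from `exists_fitting` and `j c = i ε c`.  Uniqueness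
lemma: an idempotent `ε'` commuting with `y`, `ε c`, with `(y - c) ε' i` nil and
`(1 - ε') i ∈ (y - c) · (commutant)` modulo nil, has `ε' i = ε c i` (two commuting idempotents,
each of the products `ε'(1-ε) i` is nil, `NilR.eq_zero`).  Everything commutes inside the
commutative subalgebra `adjoin {y, i}`, which is stable under `cj t`.  Hence `cj t (j c) = j (c+1)`,
`j c` depends only on the residue of `c`, `j c * j c' = 0` if `c - c'` is a unit.  Choose `c₀` with
`j c₀ ≠ 0` (`exists_scalar_of_primitive`/`exists_minimal_idem` inside `adjoin {y,i}`, or: if all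
`j c = 0` then all `y - c` are invertible in the corner, contradicting a monic split annihilating
polynomial).  `∑ m < p, j (c₀ + m)` is a nonzero idempotent of `fxAlg S P` below `i`, so it is `i`
by `idem_dichotomy`. -/
theorem green_step (hp : (p : ℂ) ∈ V.nonunits) {S P Q : Subgroup G} (hP : PCom p S P)
    (hQ : Q < P) (hn : P ≤ Nz Q) {t : G} (ht : t ∈ P) (htp : t ^ p ∈ Q)
    (hu : ∀ g ∈ P, ∃! m : Fin p, (t ^ (m : ℕ))⁻¹ * g ∈ Q) {i a : MonoidAlgebra V G}
    (hi : i * i = i) (hif : i ∈ fxAlg V S P) (hl : Loc S P i) (ha : a ∈ fxAlg V S Q)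
    (hia : i * a * i = a) (htr : i = rtr (cjRep V G) Q P a) :
    ∃ j ∈ fxAlg V S Q, j * j = j ∧ i * j * i = j ∧
      (∀ g ∈ P, g ∉ Q → j * cjRep V G g j = 0) ∧ i = rtr (cjRep V G) Q P j := by
  classical
  by_cases h0 : i = 0
  · exact ⟨0, zero_mem _, mul_zero _, by rw [mul_zero, zero_mul], fun _ _ _ => zero_mul _,
      by rw [map_zero, h0]⟩
  have hR := monicSplit_valuationSubring V
  have hsum : ∀ b ∈ fxAlg V S Q,
      rtr (cjRep V G) Q P b = ∑ m ∈ range p, cjRep V G (t ^ m) b := fun b hb => by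
    rw [rtr_eq_sum hQ.le hb.1 (fun m : Fin p => t ^ (m : ℕ)) (fun m => P.pow_mem ht _) hu]
    exact Fin.sum_univ_eq_sum_range (fun m => cjRep V G (t ^ m) b) p
  have hsucc : ∀ (m : ℕ) (b : MonoidAlgebra V G),
      cjRep V G t (cjRep V G (t ^ m) b) = cjRep V G (t ^ (m + 1)) b := fun m b => by
    rw [frpg_cj_cj, pow_succ']
  have hzero : ∀ b : MonoidAlgebra V G, cjRep V G (t ^ 0) b = b := fun b => by
    rw [pow_zero, map_one, Module.End.one_apply]
  have hii : ∀ {b : MonoidAlgebra V G}, i * b * i = b → ∀ g ∈ P,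
      i * cjRep V G g b * i = cjRep V G g b := fun {b} hb g hg => by
    conv_rhs => rw [← hb, cjRep_mul, cjRep_mul, hif.1 g hg]
  obtain ⟨ζ, hζp, hζ1, hζm⟩ := exists_zeta hp
  have hp1 : p - 1 + 1 = p := Nat.sub_add_cancel (Fact.out : p.Prime).one_lt.le
  have hgs : ∑ l ∈ range p, ζ ^ l = 0 := by
    have h1 := mul_geom_sum ζ p
    rw [hζp, sub_self] at h1
    exact (mul_eq_zero.1 h1).resolve_left (sub_ne_zero.2 hζ1)
  have huζ : ζ ^ (p - 1) * ζ = 1 := by rw [← pow_succ, hp1, hζp]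
  have hum : 1 - ζ ^ (p - 1) ∈ maximalIdeal V := by
    have h1 : 1 - ζ ^ (p - 1) = ζ ^ (p - 1) * (ζ - 1) := by rw [mul_sub, huζ, mul_one]
    rw [h1]
    exact Ideal.mul_mem_left _ _ hζm
  obtain ⟨y, hy⟩ : ∃ y : MonoidAlgebra V G,
      y = ∑ m ∈ range p, (∑ l ∈ range m, ζ ^ l) • cjRep V G (t ^ m) a := ⟨_, rfl⟩
  have hyf : y ∈ fxAlg V S Q := by
    rw [hy]
    exact sum_mem fun m _ => Subalgebra.smul_mem _ (bg1_fix hP hn (P.pow_mem ht m) ha) _
  have hyi : i * y * i = y := by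
    rw [hy, mul_sum, sum_mul]
    refine sum_congr rfl fun m _ => ?_
    rw [mul_smul_comm, smul_mul_assoc, hii hia _ (P.pow_mem ht m)]
  have hcm : y * i = i * y := by
    have h1 : y * i = y := by
      conv_lhs => rw [← hyi, mul_assoc, hi, hyi]
    have h2 : i * y = y := by
      conv_lhs => rw [← hyi, ← mul_assoc, ← mul_assoc, hi, hyi]
    rw [h1, h2]
  have hap : cjRep V G (t ^ p) a = a := ha.1 _ htp
  have hσy : cjRep V G t y = ζ ^ (p - 1) • (y - i) := by
    have h1 : ∑ m ∈ range p, (∑ l ∈ range (m + 1), ζ ^ l) • cjRep V G (t ^ (m + 1)) a = y := by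
      have h2 := sum_range_succ' (fun m => (∑ l ∈ range m, ζ ^ l) • cjRep V G (t ^ m) a) p
      rw [sum_range_succ, hgs, zero_smul, add_zero, sum_range_zero, zero_smul, add_zero] at h2
      rw [hy, h2]
    have h2 : ∑ m ∈ range p, cjRep V G (t ^ (m + 1)) a = i := by
      have h3 := sum_range_succ' (fun m => cjRep V G (t ^ m) a) p
      rw [sum_range_succ, hap, hzero] at h3
      rw [htr, hsum a ha, add_right_cancel h3]
    have h3 : ζ • cjRep V G t y = y - i := by
      conv_rhs => rw [← h1, ← h2, ← sum_sub_distrib]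
      rw [hy, map_sum, smul_sum]
      refine sum_congr rfl fun m _ => ?_
      rw [map_smul, hsucc, smul_smul, geom_sum_succ, add_smul, one_smul, add_sub_cancel_right]
    rw [← h3, smul_smul, huζ, one_smul]
  obtain ⟨c, j, hj, hj0⟩ := bg1_exists hR hcm hi h0
  have hiQ : i ∈ fxAlg V S Q := ⟨fun g hg => hif.1 g (hQ.le hg), hif.2⟩
  have hjf : j ∈ fxAlg V S Q := by
    have h1 : Algebra.adjoin V {y, i} ≤ fxAlg V S Q := by
      refine Algebra.adjoin_le ?_
      rintro x (rfl | rfl)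
      · exact hyf
      · exact hiQ
    exact h1 hj.1
  have hE : ∀ m : ℕ, bg1Eig y i (c + m) (cjRep V G (t ^ m) j) := by
    intro m
    induction m with
    | zero => rwa [hzero, Nat.cast_zero, add_zero]
    | succ m ih =>
      have h1 := bg1_step (AlgHom.ofLinearMap (cjRep V G t) (frpg_cj_one t) (cjRep_mul t)) hum
        (hif.1 t ht) hσy ih
      rw [Nat.cast_succ, ← add_assoc, ← hsucc]
      exact h1
  have horth : ∀ m < p, ∀ n < p, m ≠ n →
      cjRep V G (t ^ m) j * cjRep V G (t ^ n) j = 0 := fun m hm n hn hmn =>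
    bg1_orth hcm (hE m) (hE n) (bg1_unit hp c hm hn hmn)
  have hiji : i * j * i = j := by
    rw [mul_assoc, bg1_comm hcm hj.1 (bg1_i _ _), hj.2.2.1, hj.2.2.1]
  have hpos : 0 < p := (Fact.out : p.Prime).pos
  refine ⟨j, hjf, hj.2.1, hiji, fun g hg hgQ => ?_, ?_⟩
  · obtain ⟨m, hm, -⟩ := hu g hg
    have hm0 : 0 ≠ (m : ℕ) := fun h => hgQ (by simpa [← h] using hm)
    have h1 := horth 0 hpos m m.2 hm0
    rw [hzero] at h1
    rw [show g = t ^ (m : ℕ) * ((t ^ (m : ℕ))⁻¹ * g) by group, ← frpg_cj_cj, hjf.1 _ hm, h1]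
  · have hmul : ∀ n < p, rtr (cjRep V G) Q P j * cjRep V G (t ^ n) j = cjRep V G (t ^ n) j := by
      intro n hn
      rw [hsum j hjf, sum_mul, sum_eq_single n, (hE n).2.1]
      · exact fun m hm hmn => horth m (mem_range.1 hm) n hn hmn
      · exact fun h => absurd (mem_range.2 hn) h
    have hJf : rtr (cjRep V G) Q P j ∈ fxAlg V S P := by
      refine ⟨rtr_fixed hQ.le hjf.1, ?_⟩
      rw [hsum j hjf]
      exact (sum_mem fun m _ => bg1_fix hP hn (P.pow_mem ht m) hjf :
        ∑ m ∈ range p, cjRep V G (t ^ m) j ∈ fxAlg V S Q).2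
    have hJJ : rtr (cjRep V G) Q P j * rtr (cjRep V G) Q P j = rtr (cjRep V G) Q P j := by
      calc rtr (cjRep V G) Q P j * rtr (cjRep V G) Q P j
          = rtr (cjRep V G) Q P j * ∑ m ∈ range p, cjRep V G (t ^ m) j := by rw [← hsum j hjf]
        _ = ∑ m ∈ range p, cjRep V G (t ^ m) j := by
          rw [mul_sum]
          exact sum_congr rfl fun m hm => hmul m (mem_range.1 hm)
        _ = _ := (hsum j hjf).symm
    have hiJ : i * rtr (cjRep V G) Q P j * i = rtr (cjRep V G) Q P j := by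
      rw [hsum j hjf, mul_sum, sum_mul]
      exact sum_congr rfl fun m _ => hii hiji _ (P.pow_mem ht m)
    rcases idem_dichotomy hR (fxAlg V S P) hi hif hl hJf hJJ hiJ with h1 | h1
    · have h2 := hmul 0 hpos
      rw [h1, zero_mul, hzero] at h2
      exact absurd h2.symm hj0
    · exact h1.symm

end Pool.Agent.Lib.MP_b6945b_al.Bi
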