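import Pool.Agent.Lib.MP_b6945b_al.Bi.BG1

set_option autoImplicit false

/-!
Induction over idempotents fixed by a `p`-group and a commuting `p'`-group.
-/

namespace Pool.Agent.Lib.MP_b6945b_al.Bi

open St IsLocalRing Finset
open MonoidAlgebra (single)

variable {G : Type} [Group G] [Fintype G] {V : ValuationSubring ℂ} {p : ℕ} [Fact p.Prime]

omit [Fintype G] in
lemma bg2_mono {S P Q : Subgroup G} (h : Q ≤ P) {a : MonoidAlgebra V G} (ha : a ∈ fxAlg V S P) :
    a ∈ fxAlg V S Q := ⟨fun g hg => ha.1 g (h hg), ha.2⟩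

lemma bg2_rtr_mem {S P Q : Subgroup G} (hc : ∀ u ∈ P, ∀ s ∈ S, u * s = s * u) (h : Q ≤ P)
    {a : MonoidAlgebra V G} (ha : a ∈ fxAlg V S Q) : rtr (cjRep V G) Q P a ∈ fxAlg V S P := by
  refine ⟨rtr_fixed h ha.1, fun s hs => ?_⟩
  have h1 : EquivOn (cjRep V G) (cjRep V G) P (cjRep V G s) := fun u hu b => by
    rw [frpg_cj_cj, frpg_cj_cj, hc u hu s hs]
  rw [rtr_map h1, ha.2 s hs]

/-- `W₀ = {x ∈ fxAlg S P | i x i nil}` is a submodule (`exists_nil_submodule`).  If all
`rtr Q P a` (`a ∈ fxAlg S Q`, `Q` as in `exists_normal_max`) were in `W₀`, then `sub_brT_mem` with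
`W = W₀.comap σ` (`σ` from `exists_avg`, which commutes with `rtr P' P`; `rtr_trans`) gives
`i - brT P i ∈ W₀`, and `brT P i ∈ 𝔪 A` lies in `W₀`; so `i` is nil, `i = 0`.  Otherwise
`exists_inv_of_not_nil` and `mul_rtr_cj`. -/
lemma exists_rtr_of_bb (hp : (p : ℂ) ∈ V.nonunits) {S P : Subgroup G} (hS : ¬ p ∣ Nat.card S)
    (hP : PCom p S P) {i : MonoidAlgebra V G} (hi : i * i = i) (hi0 : i ≠ 0)
    (hif : i ∈ fxAlg V S P) (hl : Loc S P i) (h0 : bb P i = 0) :
    ∃ (Q : Subgroup G) (t : G) (a : MonoidAlgebra V G), Q < P ∧ P ≤ Nz Q ∧ t ∈ P ∧ t ^ p ∈ Q ∧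
      (∀ g ∈ P, ∃! m : Fin p, (t ^ (m : ℕ))⁻¹ * g ∈ Q) ∧ a ∈ fxAlg V S Q ∧ i * a * i = a ∧
      i = rtr (cjRep V G) Q P a := by
  have hR := monicSplit_valuationSubring V
  by_cases hex : ∃ (Q : Subgroup G) (t : G) (a : MonoidAlgebra V G), Q < P ∧ P ≤ Nz Q ∧ t ∈ P ∧
      t ^ p ∈ Q ∧ (∀ g ∈ P, ∃! m : Fin p, (t ^ (m : ℕ))⁻¹ * g ∈ Q) ∧ a ∈ fxAlg V S Q ∧
      ¬ NilR V (i * rtr (cjRep V G) Q P a * i)
  · obtain ⟨Q, t, a, hQ, hn, ht, htp, hu, ha, hnil⟩ := hex
    obtain ⟨w, hw, h1, h2, -⟩ := exists_inv_of_not_nil hR (fxAlg V S P) hi hif hl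
      (bg2_rtr_mem hP.2 hQ.le ha) hnil
    have h3 : i * w = w := by rw [← h1, ← mul_assoc, ← mul_assoc, hi]
    have hwi : w * i ∈ fxAlg V S P := (fxAlg V S P).mul_mem hw hif
    refine ⟨Q, t, w * i * a * i, hQ, hn, ht, htp, hu, (fxAlg V S Q).mul_mem
      ((fxAlg V S Q).mul_mem (bg2_mono hQ.le hwi) ha) (bg2_mono hQ.le hif), ?_, ?_⟩
    · rw [← mul_assoc, ← mul_assoc, ← mul_assoc, h3, mul_assoc _ i i, hi]
    · rw [← (mul_rtr_cj hif.1 _).2, ← (mul_rtr_cj hwi.1 _).1]
      simpa only [mul_assoc] using h2.symm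
  · exfalso
    obtain ⟨W, hW⟩ := exists_nil_submodule hR (fxAlg V S P) hi hif hl
    obtain ⟨σ, hσ1, hσ2, hσ3⟩ := exists_avg (G := G) hp S hS
    have hσ : ∀ T ≤ P, EquivOn (cjRep V G) (cjRep V G) T σ :=
      fun T hT g hg b => hσ3 g (hP.2 g (hT hg)) b
    have h1 : i - brT V P i ∈ W.comap σ := by
      refine sub_brT_mem hif.1 _ fun y _ hy => ?_
      have hlt : P ⊓ Subgroup.centralizer {y} < P := by
        refine lt_of_le_of_ne inf_le_left fun h => hy fun u hu => ?_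
        rw [← h] at hu
        exact (Subgroup.mem_centralizer_singleton_iff.1 hu.2).symm
      obtain ⟨Q, t, hQ', hQ, hn, ht, htp, hu⟩ := exists_normal_max hP.1 hlt
      have hx : σ (single y 1) ∈ fxAlg V S (P ⊓ Subgroup.centralizer {y}) := by
        refine ⟨fun g hg => ?_, hσ1 _⟩
        rw [← hσ3 g (hP.2 g hg.1), frpg_cj_single,
          Subgroup.mem_centralizer_singleton_iff.1 hg.2, mul_inv_cancel_right]
      have ha := bg2_rtr_mem (fun u hu => hP.2 u (hQ.le hu)) hQ' hx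
      rw [Submodule.mem_comap, rtr_map (hσ P le_rfl), ← rtr_trans hQ' hQ.le hx.1, hW]
      refine ⟨bg2_rtr_mem hP.2 hQ.le ha, ?_⟩
      by_contra hnil
      exact hex ⟨Q, t, _, hQ, hn, ht, htp, hu, ha, hnil⟩
    rw [Submodule.mem_comap, map_sub, hσ2 i hif.2, hW] at h1
    have h2 := h1.2.add_inMax (idem_inMax_mul_right i (idem_inMax_mul_left i
      (idem_inMax_map σ (bb_eq_zero_iff.1 h0))))
    rw [← add_mul, ← mul_add, sub_add_cancel, hi, hi] at h2
    exact hi0 (h2.eq_zero hi)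

omit [Fact p.Prime] in
/-- An idempotent without proper subidempotents in `fxAlg S P` is local
(`exists_scalar_of_primitive` in the subalgebra, or `exists_fitting`: the Fitting idempotents of
`i z i` lie in `adjoin ≤ fxAlg`). -/
lemma loc_of_prim {S P : Subgroup G} {i : MonoidAlgebra V G} (hi : i * i = i)
    (hif : i ∈ fxAlg V S P)
    (h : ∀ j ∈ fxAlg V S P, j * j = j → i * j = j → j * i = j → j = 0 ∨ j = i) : Loc S P i := by
  intro z hz
  have hR := monicSplit_valuationSubring V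
  have hy : i * z * i ∈ fxAlg V S P := (fxAlg V S P).mul_mem ((fxAlg V S P).mul_mem hif hz) hif
  have h1 : i * (i * z * i) = i * z * i := by rw [← mul_assoc, ← mul_assoc, hi]
  have h2 : i * z * i * i = i * z * i := by rw [mul_assoc, hi]
  generalize i * z * i = y at hy h1 h2
  by_contra hcon
  have hle : Algebra.adjoin V {y} ≤ fxAlg V S P :=
    Algebra.adjoin_le (Set.singleton_subset_iff.2 hy)
  have hinv : ∀ c : V, ∃ w, (y - algebraMap V (MonoidAlgebra V G) c) * i * w = i := by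
    intro c
    obtain ⟨ε, hε, w, -, hεε, hn, hw⟩ := exists_fitting hR y c
    have hc : Commute i ε :=
      Algebra.commute_of_mem_adjoin_singleton_of_commute hε (h1.trans h2.symm)
    have hc' : (y - algebraMap V (MonoidAlgebra V G) c) * i =
        i * (y - algebraMap V (MonoidAlgebra V G) c) := by
      rw [sub_mul, mul_sub, h1, h2, Algebra.commutes]
    rcases h (i * ε) ((fxAlg V S P).mul_mem hif (hle hε))
      (by rw [mul_assoc, ← mul_assoc ε, ← hc.eq, mul_assoc, hεε.eq, ← mul_assoc, hi])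
      (by rw [← mul_assoc, hi]) (by rw [mul_assoc, ← hc.eq, ← mul_assoc, hi]) with h3 | h3
    · exact ⟨w, by rw [hc', mul_assoc, hw, mul_sub, mul_one, h3, sub_zero]⟩
    · refine absurd ⟨c, ?_⟩ hcon
      have h4 := hn.mul_right (y := i)
        (by rw [mul_assoc, ← hc.eq, ← mul_assoc, hc', mul_assoc])
      rwa [mul_assoc, ← hc.eq, h3, sub_mul, h2, ← Algebra.smul_def] at h4
  have hprod : ∀ s : Multiset V, ∃ w,
      Polynomial.aeval y (s.map fun a => Polynomial.X - Polynomial.C a).prod * w = i := by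
    intro s
    induction s using Multiset.induction_on with
    | empty => exact ⟨i, by simp⟩
    | cons a s ih =>
      obtain ⟨w, hw⟩ := ih
      obtain ⟨w', hw'⟩ := hinv a
      refine ⟨w * w', ?_⟩
      rw [Multiset.map_cons, Multiset.prod_cons, map_mul, mul_assoc, ← mul_assoc _ w w', hw,
        ← mul_assoc, map_sub, Polynomial.aeval_X, Polynomial.aeval_C, hw']
  obtain ⟨f, hf, hfy⟩ := IsIntegral.of_finite V y
  rw [← Polynomial.aeval_def] at hfy
  obtain ⟨s, hs⟩ := hR f hf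
  obtain ⟨w, hw⟩ := hprod s
  rw [← hs, hfy, zero_mul] at hw
  refine hcon ⟨0, ?_⟩
  rw [zero_smul, sub_zero, ← h1, ← hw, zero_mul]
  exact InMax.nilR (Submodule.zero_mem _)

/-- Outer strong induction on `Nat.card P`, inner strong induction on `frminRank V i`
(`frmin_eq_of_rank`).  If `i` has a proper subidempotent `j` in `fxAlg S P` use `hadd` with
`j`, `i - j`.  Otherwise `i = 0`, or `Loc`; then `hloc`, or `exists_rtr_of_bb`, `green_step`,
`hind`. -/
theorem green_induction (hp : (p : ℂ) ∈ V.nonunits) {S : Subgroup G} (hS : ¬ p ∣ Nat.card S)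
    (e : MonoidAlgebra V G) (W : Subgroup G → MonoidAlgebra V G → Prop)
    (h0 : ∀ P, W P 0)
    (hadd : ∀ P i j, PCom p S P → i ∈ fxAlg V S P → j ∈ fxAlg V S P → i * i = i → j * j = j →
      i * j = 0 → j * i = 0 → W P i → W P j → W P (i + j))
    (hind : ∀ P Q j, PCom p S P → Q < P → P ≤ Nz Q → j ∈ fxAlg V S Q → j * j = j →
      (∀ g ∈ P, g ∉ Q → j * cjRep V G g j = 0) → W Q j → W P (rtr (cjRep V G) Q P j))
    (hloc : ∀ P i, PCom p S P → i ∈ fxAlg V S P → i * i = i → e * i = i → Loc S P i →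
      bb P i ≠ 0 → W P i)
    (P : Subgroup G) (i : MonoidAlgebra V G) (hP : PCom p S P) (hif : i ∈ fxAlg V S P)
    (hi : i * i = i) (he : e * i = i) : W P i := by
  induction hn : Nat.card P using Nat.strong_induction_on generalizing P i with
  | _ n ihn =>
  induction hm : frminRank V i using Nat.strong_induction_on generalizing i with
  | _ m ihm =>
  have sub : ∀ j ∈ fxAlg V S P, j * j = j → i * j = j → j * i = j → j ≠ i → W P j := by
    intro j hj hjj h1 h2 hne
    refine ihm (frminRank V j) ?_ j hj hjj (by rw [← h1, ← mul_assoc, he]) rfl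
    rw [← hm]
    exact lt_of_not_ge fun hle => hne (frmin_eq_of_rank hi hjj h1 h2 hle)
  by_cases hpr : ∀ j ∈ fxAlg V S P, j * j = j → i * j = j → j * i = j → j = 0 ∨ j = i
  · have hl := loc_of_prim hi hif hpr
    by_cases hi0 : i = 0
    · rw [hi0]
      exact h0 P
    by_cases hb : bb P i = 0
    · obtain ⟨Q, t, a, hQ, hN, ht, htp, hu, ha, hia, htr⟩ :=
        exists_rtr_of_bb hp hS hP hi hi0 hif hl hb
      obtain ⟨j, hj, hjj, hij, hor, hjr⟩ := green_step hp hP hQ hN ht htp hu hi hif hl ha hia htr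
      rw [hjr]
      refine hind P Q j hP hQ hN hj hjj hor (ihn (Nat.card Q) ?_ Q j
        ⟨hP.1.to_le hQ.le, fun u hu => hP.2 u (hQ.le hu)⟩ hj hjj ?_ rfl)
      · rw [← hn]
        exact lt_of_not_ge fun hle => hQ.ne (Subgroup.eq_of_le_of_card_ge hQ.le hle)
      · rw [← hij, ← mul_assoc, ← mul_assoc, he]
    · exact hloc P i hP hif hi he hl hb
  · push Not at hpr
    obtain ⟨j, hj, hjj, h1, h2, hj0, hji⟩ := hpr
    have hk : i - j ∈ fxAlg V S P := (fxAlg V S P).sub_mem hif hj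
    have hkk : (i - j) * (i - j) = i - j := by
      rw [mul_sub, sub_mul, sub_mul, hi, h1, h2, hjj, sub_self, sub_zero]
    have h3 := hadd P j (i - j) hP hj hk hjj hkk (by rw [mul_sub, h2, hjj, sub_self])
      (by rw [sub_mul, h1, hjj, sub_self]) (sub j hj hjj h1 h2 hji)
      (sub _ hk hkk (by rw [mul_sub, hi, h1]) (by rw [sub_mul, hi, h2])
        fun h => hj0 (sub_eq_self.1 h))
    rwa [add_sub_cancel] at h3

end Pool.Agent.Lib.MP_b6945b_al.Bi
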