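import Pool.Agent.Lib.MP_b6945b_al.Bi.BAlg

set_option autoImplicit false

/-!
Functions that are traces of multiplicative families of matrices.
-/

namespace Pool.Agent.Lib.MP_b6945b_al.Bi

open St IsLocalRing Finset
open MonoidAlgebra (single)

variable {G : Type} [Group G] {H K : Subgroup G} {f f' : G → ℂ}

lemma SC.zero (H : Subgroup G) : SC H (fun _ => 0) := by
  refine ⟨Unit, inferInstance, inferInstance, fun _ => 0, fun a _ b _ => by simp, fun g _ => by simp⟩

lemma SC.congr (h : SC H f) (hf : ∀ g ∈ H, f' g = f g) : SC H f' := by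
  obtain ⟨ι, i1, i2, ρ, h1, h2⟩ := h
  exact ⟨ι, i1, i2, ρ, h1, fun g hg => by rw [hf g hg, h2 g hg]⟩

lemma SC.mono (h : SC H f) (hK : K ≤ H) : SC K f := by
  obtain ⟨ι, i1, i2, ρ, h1, h2⟩ := h
  exact ⟨ι, i1, i2, ρ, fun a ha b hb => h1 a (hK ha) b (hK hb), fun g hg => h2 g (hK hg)⟩

/-- `Matrix.fromBlocks`. -/
lemma SC.add (h : SC H f) (h' : SC H f') : SC H (fun g => f g + f' g) := by
  obtain ⟨ι, i1, i2, ρ, h1, h2⟩ := h
  obtain ⟨κ, k1, k2, σ, g1, g2⟩ := h'
  refine ⟨ι ⊕ κ, inferInstance, inferInstance, fun g => Matrix.fromBlocks (ρ g) 0 0 (σ g),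
    fun a ha b hb => ?_, fun g hg => ?_⟩
  · simp [Matrix.fromBlocks_multiply, h1 a ha b hb, g1 a ha b hb]
  · simp [Matrix.trace, Fintype.sum_sum_type, h2 g hg, g2 g hg]

lemma SC.sum {ι : Type} (s : Finset ι) {F : ι → G → ℂ} (h : ∀ i ∈ s, SC H (F i)) :
    SC H (fun g => ∑ i ∈ s, F i g) := by
  classical
  induction s using Finset.induction_on with
  | empty => simpa using SC.zero H
  | insert a s ha ih =>
    have h1 := (h a (Finset.mem_insert_self _ _)).add
      (ih fun i hi => h i (Finset.mem_insert_of_mem hi))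
    exact h1.congr fun g _ => by rw [Finset.sum_insert ha]

/-- Kronecker product. -/
lemma SC.mul (h : SC H f) (h' : SC H f') : SC H (fun g => f g * f' g) := by
  obtain ⟨ι, i1, i2, ρ, h1, h2⟩ := h
  obtain ⟨κ, k1, k2, σ, g1, g2⟩ := h'
  refine ⟨ι × κ, inferInstance, inferInstance, fun g => Matrix.kroneckerMap (· * ·) (ρ g) (σ g),
    fun a ha b hb => ?_, fun g hg => ?_⟩
  · simp only [h1 a ha b hb, g1 a ha b hb]
    exact Matrix.mul_kronecker_mul _ _ _ _
  · simp only [h2 g hg, g2 g hg]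
    exact (Matrix.trace_kronecker _ _).symm

lemma SC.of_mul (h : ∀ a ∈ H, ∀ b ∈ H, f (a * b) = f a * f b) : SC H f := by
  refine ⟨Unit, inferInstance, inferInstance, fun g => Matrix.of fun _ _ => f g,
    fun a ha b hb => ?_, fun g _ => by simp [Matrix.trace]⟩
  ext i j
  simp [Matrix.mul_apply, h a ha b hb]

/-- Transpose inverse. -/
lemma SC.inv (h : SC H f) : SC H (fun g => f g⁻¹) := by
  obtain ⟨ι, i1, i2, ρ, h1, h2⟩ := h
  refine ⟨ι, i1, i2, fun g => (ρ g⁻¹).transpose, fun a ha b hb => ?_, fun g hg => ?_⟩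
  · simp only [mul_inv_rev]
    rw [h1 _ (H.inv_mem hb) _ (H.inv_mem ha), Matrix.transpose_mul]
  · simp only [Matrix.trace_transpose]
    exact h2 _ (H.inv_mem hg)

open Classical in
/-- Induction: on the index set `ι × κ` let the block `(i, j)` of `ρ' g` be `ρ ((t i)⁻¹ g (t j))`
if this element lies in `K` and `0` otherwise. -/
lemma SC.ind (h : SC K f) (hKH : K ≤ H) {ι : Type} [Fintype ι] (t : ι → G) (ht : ∀ i, t i ∈ H)
    (hu : ∀ g ∈ H, ∃! i, (t i)⁻¹ * g ∈ K) :
    SC H (fun g => ∑ i, if (t i)⁻¹ * g * t i ∈ K then f ((t i)⁻¹ * g * t i) else 0) := by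
  obtain ⟨κ, i1, i2, ρ, h1, h2⟩ := h
  refine ⟨ι × κ, inferInstance, inferInstance, fun g => Matrix.of fun x y =>
    if (t x.1)⁻¹ * g * t y.1 ∈ K then ρ ((t x.1)⁻¹ * g * t y.1) x.2 y.2 else 0,
    fun a ha b hb => ?_, fun g hg => ?_⟩
  · ext ⟨i, x⟩ ⟨k, y⟩
    obtain ⟨j, hj, hj'⟩ := hu (b * t k) (H.mul_mem hb (ht k))
    rw [← mul_assoc] at hj
    simp only [Matrix.mul_apply, Matrix.of_apply, Fintype.sum_prod_type]
    rw [Finset.sum_eq_single j]
    · have e : (t i)⁻¹ * (a * b) * t k = ((t i)⁻¹ * a * t j) * ((t j)⁻¹ * b * t k) := by group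
      simp only [if_pos hj]
      by_cases hc : (t i)⁻¹ * a * t j ∈ K
      · simp only [if_pos hc]
        rw [e, if_pos (K.mul_mem hc hj), h1 _ hc _ hj, Matrix.mul_apply]
      · simp only [if_neg hc, zero_mul, Finset.sum_const_zero]
        rw [e, if_neg]
        intro hh
        exact hc ((K.mul_mem_cancel_right hj).1 hh)
    · intro j' _ hne
      have hn : ¬ (t j')⁻¹ * b * t k ∈ K := fun hh => hne (hj' j' (by
        rw [mul_assoc] at hh
        exact hh))
      simp [if_neg hn]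
    · intro hh
      exact absurd (Finset.mem_univ _) hh
  · simp only [Matrix.trace, Matrix.diag, Matrix.of_apply, Fintype.sum_prod_type]
    refine Finset.sum_congr rfl fun i _ => ?_
    by_cases hc : (t i)⁻¹ * g * t i ∈ K
    · simp only [if_pos hc]
      rw [h2 _ hc]
      rfl
    · simp [if_neg hc]

lemma bsc_trace_nat {ι : Type} [Fintype ι] [DecidableEq ι] {E : Matrix ι ι ℂ} (hE : E * E = E) :
    ∃ n : ℕ, E.trace = n := by
  have h1 : IsIdempotentElem (Matrix.toLin' E) := by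
    change Matrix.toLin' E * Matrix.toLin' E = Matrix.toLin' E
    rw [Module.End.mul_eq_comp, ← Matrix.toLin'_mul, hE]
  have h2 := (LinearMap.IsIdempotentElem.isProj_range _ h1).trace
  rw [Matrix.trace_toLin'_eq] at h2
  exact ⟨_, h2⟩

lemma bsc_trace_int {ι : Type} [Fintype ι] [DecidableEq ι] (A : Matrix ι ι ℂ) {N : ℕ}
    (hN : 0 < N) (h : A ^ (N + 1) = A) : IsIntegral ℤ A.trace := by
  let e := Fintype.equivFin ι
  have h1 := trace_isIntegral (Matrix.reindexAlgEquiv ℂ ℂ e A) hN (by rw [← map_pow, h])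
  have h2 : (Matrix.reindexAlgEquiv ℂ ℂ e A).trace = A.trace := by
    simp only [Matrix.trace, Matrix.diag]
    rw [← Equiv.sum_comp e]
    simp
  rwa [h2] at h1

variable [Fintype G]

lemma sc_chi (I : IrrData G) (i : Fin I.n) (H : Subgroup G) : SC H (I.χ i) := by
  exact ⟨Fin (I.d i), inferInstance, inferInstance, I.ρ i, fun a _ b _ => map_mul _ _ _,
    fun g _ => rfl⟩

/-- `ρ' g = Φ (single g 1 * j)` with `Φ` from `exists_rep`. -/
lemma sc_ev {V : ValuationSubring ℂ} (I : IrrData G) (i : Fin I.n) {j : MonoidAlgebra V G}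
    (hj : j * j = j) (hH : Fix H j) : SC H (fun g => ev (I.χ i) (single g 1 * j)) := by
  obtain ⟨Φ, -, -, h3⟩ := exists_rep (V := V) I i
  have key : ∀ a : G, ∀ b ∈ H, (single (a * b) 1 : MonoidAlgebra V G) * j =
      single a 1 * j * (single b 1 * j) := by
    intro a b hb
    have hc := fix_iff_comm.1 hH b hb
    have h1 : (single (a * b) 1 : MonoidAlgebra V G) = single a 1 * single b 1 := by
      rw [MonoidAlgebra.single_mul_single, one_mul]
    rw [h1, mul_assoc (single a 1) j, ← mul_assoc j, ← hc, mul_assoc (single b 1) j j, hj,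
      mul_assoc]
  refine ⟨Fin (I.d i), inferInstance, inferInstance, fun g => Φ (single g 1 * j),
    fun a _ b hb => ?_, fun g _ => ?_⟩
  · exact (congrArg Φ (key a b hb)).trans (map_mul Φ _ _)
  · exact h3 (single g 1 * j)

open Classical in
lemma bsc_avg {ι : Type} [Fintype ι] [DecidableEq ι] {ρ : G → Matrix ι ι ℂ} {R : Subgroup G}
    (h1 : ∀ a ∈ R, ∀ b ∈ R, ρ (a * b) = ρ a * ρ b) {E : Matrix ι ι ℂ}
    (hE : E = (Nat.card R : ℂ)⁻¹ • ∑ r, if r ∈ R then ρ r else 0) : E * E = E := by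
  have hne : (Nat.card R : ℂ) ≠ 0 := by exact_mod_cast (Nat.card_pos (α := R)).ne'
  have hl : ∀ a ∈ R, ρ a * E = E := by
    intro a ha
    rw [hE, mul_smul_comm, Finset.mul_sum]
    congr 1
    rw [← Equiv.sum_comp (Equiv.mulLeft a) (fun r => if r ∈ R then ρ r else 0)]
    refine Finset.sum_congr rfl fun r _ => ?_
    simp only [Equiv.coe_mulLeft, R.mul_mem_cancel_left ha]
    by_cases hr : r ∈ R
    · simp [hr, h1 a ha r hr]
    · simp [hr]
  have hc : (∑ r : G, if r ∈ R then (1 : ℂ) else 0) = Nat.card R := by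
    rw [Finset.sum_boole, Nat.card_eq_fintype_card, Fintype.card_subtype]
  have h2 : (∑ r : G, if r ∈ R then ρ r else 0) * E = (Nat.card R : ℂ) • E := by
    rw [Finset.sum_mul, ← hc, Finset.sum_smul]
    refine Finset.sum_congr rfl fun r _ => ?_
    by_cases hr : r ∈ R
    · simp [hr, hl r hr]
    · simp [hr]
  conv_lhs => lhs; rw [hE]
  rw [smul_mul_assoc, h2, smul_smul, inv_mul_cancel₀ hne, one_smul]

open Classical in
/-- `|H|⁻¹ ∑ h ∈ H, ρ h` is idempotent, its trace is its rank. -/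
lemma SC.sum_nat (h : SC H f) :
    ∃ n : ℕ, ∑ g, (if g ∈ H then f g else 0) = Nat.card H * n := by
  obtain ⟨ι, i1, i2, ρ, h1, h2⟩ := h
  have hne : (Nat.card H : ℂ) ≠ 0 := by exact_mod_cast (Nat.card_pos (α := H)).ne'
  obtain ⟨n, hn⟩ := bsc_trace_nat (bsc_avg h1 rfl)
  refine ⟨n, ?_⟩
  rw [← hn, Matrix.trace_smul, smul_eq_mul, mul_inv_cancel_left₀ hne, Matrix.trace_sum]
  refine Finset.sum_congr rfl fun g _ => ?_
  by_cases hg : g ∈ H
  · simp [hg, h2 g hg]
  · simp [hg]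

open Classical in
/-- `A = ρ g * e` with `e = |R|⁻¹ ∑ r ∈ R, ρ r` idempotent commuting with `ρ g`, so
`A ^ (N + 1) = A` for `N = orderOf g`; `trace_isIntegral` after `Matrix.reindex` to `Fin n`
(compare the proof of `frobenius_sum` in `Frob.lean`). -/
lemma SC.coset (h : SC H f) {R : Subgroup G} (hR : R ≤ H) {g : G} (hg : g ∈ H)
    (hn : g ∈ Nz R) :
    ∃ α : ℂ, IsIntegral ℤ α ∧ ∑ r, (if r ∈ R then f (g * r) else 0) = Nat.card R * α := by
  obtain ⟨ι, i1, i2, ρ, h1, h2⟩ := h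
  have hne : (Nat.card R : ℂ) ≠ 0 := by exact_mod_cast (Nat.card_pos (α := R)).ne'
  obtain ⟨E, hE⟩ : ∃ E : Matrix ι ι ℂ,
      E = (Nat.card R : ℂ)⁻¹ • ∑ r, if r ∈ R then ρ r else 0 := ⟨_, rfl⟩
  have hEE : E * E = E := bsc_avg (fun a ha b hb => h1 a (hR ha) b (hR hb)) hE
  have hc : ρ g * E = E * ρ g := by
    rw [hE, mul_smul_comm, smul_mul_assoc, Finset.mul_sum, Finset.sum_mul]
    congr 1
    rw [← Equiv.sum_comp (MulAut.conj g).toEquiv (fun r => (if r ∈ R then ρ r else 0) * ρ g)]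
    refine Finset.sum_congr rfl fun r _ => ?_
    change _ = (if g * r * g⁻¹ ∈ R then ρ (g * r * g⁻¹) else 0) * ρ g
    have hiff : r ∈ R ↔ g * r * g⁻¹ ∈ R := Subgroup.mem_normalizer_iff.1 hn r
    by_cases hr : r ∈ R
    · rw [if_pos hr, if_pos (hiff.1 hr), ← h1 _ hg _ (hR hr), ← h1 _ (hR (hiff.1 hr)) _ hg]
      congr 1
      group
    · rw [if_neg hr, if_neg (fun hh => hr (hiff.2 hh)), mul_zero, zero_mul]
  have hpow : ∀ k : ℕ, (ρ g * E) ^ (k + 1) = ρ (g ^ (k + 1)) * E := by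
    intro k
    induction k with
    | zero => simp
    | succ k ih =>
      rw [pow_succ, ih, pow_succ g (k + 1), h1 _ (H.pow_mem hg _) _ hg, mul_assoc,
        ← mul_assoc E, ← hc, mul_assoc (ρ g), hEE, mul_assoc]
  refine ⟨(ρ g * E).trace, bsc_trace_int _ (orderOf_pos g) ?_, ?_⟩
  · rw [hpow, pow_succ, pow_orderOf_eq_one, one_mul]
  · rw [hE, mul_smul_comm, Matrix.trace_smul, smul_eq_mul, mul_inv_cancel_left₀ hne,
      Finset.mul_sum, Matrix.trace_sum]
    refine Finset.sum_congr rfl fun r _ => ?_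
    by_cases hr : r ∈ R
    · rw [if_pos hr, if_pos hr, ← h1 _ hg _ (hR hr), h2 _ (H.mul_mem hg (hR hr))]
    · simp [hr]

end Pool.Agent.Lib.MP_b6945b_al.Bi
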