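import Pool.Agent.Lib.MP_b6945b_al.Bi.BAlg

set_option autoImplicit false

/-!
Vanishing of traces on idempotents in the kernel of the Brauer homomorphism.
-/

namespace Pool.Agent.Lib.MP_b6945b_al.Bi

open St IsLocalRing Finset
open MonoidAlgebra (single)

lemma bvan_charP {V : ValuationSubring ℂ} {p : ℕ} [Fact p.Prime] (hp : (p : ℂ) ∈ V.nonunits) :
    CharP (ResidueField V) p := (CharP.charP_iff_prime_eq_zero Fact.out).2 (bil_pk hp)

/-- A primitive `p`-th root of unity congruent to one. -/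
lemma exists_zeta {V : ValuationSubring ℂ} {p : ℕ} [Fact p.Prime] (hp : (p : ℂ) ∈ V.nonunits) :
    ∃ ζ : V, ζ ^ p = 1 ∧ ζ ≠ 1 ∧ ζ - 1 ∈ maximalIdeal V := by
  have hp0 : p.Prime := Fact.out
  obtain ⟨z, hz⟩ : ∃ z : ℂ, IsPrimitiveRoot z p := ⟨_, Complex.isPrimitiveRoot_exp p hp0.ne_zero⟩
  have hzV : z ∈ V := by
    rw [← V.valuation_le_one_iff]
    have h1 : V.valuation z ^ p = 1 := by rw [← map_pow, hz.pow_eq_one, map_one]
    by_contra hlt
    exact absurd h1 (one_lt_pow₀ (not_le.1 hlt) hp0.ne_zero).ne'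
  have hpow : (⟨z, hzV⟩ : V) ^ p = 1 := Subtype.ext hz.pow_eq_one
  refine ⟨⟨z, hzV⟩, hpow, fun h => hz.ne_one hp0.one_lt (congrArg Subtype.val h), ?_⟩
  have := bvan_charP hp
  rw [← residue_eq_zero_iff, map_sub, map_one]
  refine pow_eq_zero_iff hp0.ne_zero |>.1 ?_
  rw [sub_pow_char, ← map_pow, hpow, map_one, one_pow, sub_self]

/-- `θ = ∑ m < p, ζ^m u^m a u'^m` satisfies `u θ = ζ⁻¹ θ u`, `π θ π = θ`, `θ - π ∈ 𝔪 A`; by
`exists_inv_corner` in the centraliser subalgebra of `s` there is `w` commuting with `s`,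
`w θ = π = θ w`.  Then `τ (u s θ w) = ζ⁻¹ τ (θ u s w) = ζ⁻¹ τ (u s w θ)`. -/
theorem vanish_abs {V : ValuationSubring ℂ} {p : ℕ} [Fact p.Prime] (hp : (p : ℂ) ∈ V.nonunits)
    {A : Type} [Ring A] [Algebra V A] [Module.Finite V A] (τ : A → ℂ)
    (hτ : ∀ (v : V) a, τ (v • a) = v * τ a) (hc : ∀ a b, τ (a * b) = τ (b * a))
    {u u' s a π : A} (h1 : u * u' = 1) (h2 : u' * u = 1) (hπ : π * π = π) (ha : π * a * π = a)
    (hua : u ^ p * a = a * u ^ p) (hus : u * s = s * u) (hsa : s * a = a * s)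
    (htr : π = ∑ m ∈ range p, u ^ m * a * u' ^ m) : τ (u * s * π) = 0 := by
  obtain ⟨ζ, hζp, hζ1, hζm⟩ := exists_zeta hp
  have hshift : ∀ ξ : V, ξ ^ p = 1 → ξ • (u * (∑ m ∈ range p, ξ ^ m • (u ^ m * a * u' ^ m))) =
      (∑ m ∈ range p, ξ ^ m • (u ^ m * a * u' ^ m)) * u := by
    intro ξ hξ
    have hp' : u ^ p * u' ^ p = 1 := by
      rw [← (show Commute u u' from h1.trans h2.symm).mul_pow, h1, one_pow]
    have e1 : ∑ m ∈ range p, ξ ^ (m + 1) • (u ^ (m + 1) * a * u' ^ (m + 1)) =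
        ∑ m ∈ range p, ξ ^ m • (u ^ m * a * u' ^ m) := by
      have e2 := Finset.sum_range_succ' (fun m => ξ ^ m • (u ^ m * a * u' ^ m)) p
      rw [Finset.sum_range_succ, hξ, hua, mul_assoc a, hp', pow_zero, pow_zero, pow_zero,
        one_mul] at e2
      exact (add_right_cancel e2).symm
    conv_rhs => rw [← e1]
    rw [Finset.mul_sum, Finset.smul_sum, Finset.sum_mul]
    refine Finset.sum_congr rfl fun m _ => ?_
    rw [mul_smul_comm, smul_smul, smul_mul_assoc, pow_succ' ξ, pow_succ' u, pow_succ u']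
    simp only [mul_assoc, h2, mul_one]
  have huπ : Commute u π := by
    have := hshift 1 (one_pow p)
    simp only [one_pow, one_smul] at this
    rwa [← htr] at this
  have huπ' : Commute u' π := by
    change u' * π = π * u'
    calc u' * π = u' * (π * u) * u' := by rw [mul_assoc, mul_assoc, h1, mul_one]
      _ = π * u' := by rw [← huπ.eq, ← mul_assoc, h2, one_mul]
  have hsu' : Commute s u' := by
    change s * u' = u' * s
    calc s * u' = u' * (u * s) * u' := by rw [← mul_assoc, h2, one_mul]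
      _ = u' * s := by rw [hus, mul_assoc, mul_assoc, h1, mul_one]
  have hsc : ∀ m, Commute s (u ^ m * a * u' ^ m) := fun m =>
    (((show Commute s u from hus.symm).pow_right m).mul_right hsa).mul_right (hsu'.pow_right m)
  set θ := ∑ m ∈ range p, ζ ^ m • (u ^ m * a * u' ^ m) with hθ
  have hsθ : Commute s θ := Commute.sum_right _ _ _ fun m _ => (hsc m).smul_right _
  have hsπ : Commute s π := by
    rw [htr]
    exact Commute.sum_right _ _ _ fun m _ => hsc m
  have hπθ : π * θ * π = θ := by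
    rw [hθ, Finset.mul_sum, Finset.sum_mul]
    refine Finset.sum_congr rfl fun m _ => ?_
    rw [mul_smul_comm, smul_mul_assoc]
    congr 1
    calc π * (u ^ m * a * u' ^ m) * π = (π * u ^ m) * a * (u' ^ m * π) := by
          simp only [mul_assoc]
      _ = u ^ m * (π * a * π) * u' ^ m := by
          rw [← (huπ.pow_left m).eq, (huπ'.pow_left m).eq]
          simp only [mul_assoc]
      _ = _ := by rw [ha]
  have hnil : NilR V (θ - (1 : V) • π) := by
    refine InMax.nilR ?_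
    rw [one_smul]
    conv => enter [2, 2]; rw [htr]
    rw [hθ, ← Finset.sum_sub_distrib]
    refine Submodule.sum_mem _ fun m _ => ?_
    have e : ζ ^ m • (u ^ m * a * u' ^ m) - u ^ m * a * u' ^ m =
        (ζ ^ m - 1) • (u ^ m * a * u' ^ m) := by rw [sub_smul, one_smul]
    rw [e]
    refine inMax_smul ?_ _
    rw [← mul_geom_sum]
    exact Ideal.mul_mem_right _ _ hζm
  have hmem : ∀ b, Commute s b → b ∈ Subalgebra.centralizer V ({s} : Set A) := fun b hb =>
    (Subalgebra.mem_centralizer_iff V).2 fun g hg => by rw [Set.mem_singleton_iff.1 hg, hb.eq]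
  obtain ⟨w, -, -, hw1, hw2⟩ := exists_inv_corner (monicSplit_valuationSubring V)
    (Subalgebra.centralizer V ({s} : Set A)) hπ (hmem _ hsπ) (hmem _ hsθ) hπθ isUnit_one hnil
  have key : (ζ : ℂ) * τ (u * s * π) = τ (u * s * π) := by
    calc (ζ : ℂ) * τ (u * s * π) = τ (s * (ζ • (u * θ)) * w) := by
          rw [← hτ, ← hw2, hus, mul_smul_comm, smul_mul_assoc]
          simp only [mul_assoc]
      _ = τ (θ * (s * u * w)) := by
          rw [hshift ζ hζp, ← mul_assoc, hsθ.eq]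
          simp only [mul_assoc]
      _ = τ (u * s * π) := by rw [hc, mul_assoc, hw1, hus]
  have hne : (ζ : ℂ) - 1 ≠ 0 := fun h => hζ1 (Subtype.ext (sub_eq_zero.1 h))
  refine (mul_eq_zero.1 ?_).resolve_left hne
  rw [sub_mul, key, one_mul, sub_self]

variable {G : Type} [Group G] [Fintype G] {V : ValuationSubring ℂ} {p : ℕ} [Fact p.Prime]

/-- Averaging over a `p'`-subgroup. -/
lemma exists_avg (hp : (p : ℂ) ∈ V.nonunits) (S : Subgroup G) (hS : ¬ p ∣ Nat.card S) :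
    ∃ σ : MonoidAlgebra V G →ₗ[V] MonoidAlgebra V G, (∀ a, Fix S (σ a)) ∧
      (∀ a, Fix S a → σ a = a) ∧
      ∀ g, (∀ s ∈ S, g * s = s * g) → ∀ a, σ (cjRep V G g a) = cjRep V G g (σ a) := by
  have := bvan_charP hp
  have hu : IsUnit ((Nat.card S : ℕ) : V) := by
    by_contra h
    have h1 : residue V ((Nat.card S : ℕ) : V) = 0 := (residue_eq_zero_iff _).2 h
    rw [map_natCast] at h1
    exact hS ((CharP.cast_eq_zero_iff _ p _).1 h1)
  obtain ⟨v, hv⟩ := hu.exists_left_inv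
  refine ⟨v • rtr (cjRep V G) ⊥ S, fun a => ?_, fun a ha => ?_, fun g hg a => ?_⟩
  · exact Fix.smul (rtr_fixed bot_le (tr_fixedBy_bot _ a)) v
  · rw [LinearMap.smul_apply, rtr_of_fixed bot_le ha, Subgroup.relIndex_bot_left,
      ← Nat.cast_smul_eq_nsmul V, smul_smul, hv, one_smul]
  · rw [LinearMap.smul_apply, LinearMap.smul_apply, map_smul]
    congr 1
    refine (rtr_map (φ := cjRep V G g) (fun s hs m => ?_) a).symm
    rw [frpg_cj_cj, frpg_cj_cj, hg s hs]

/-- If `u = 1` then `π ∈ 𝔪 A` is zero.  Otherwise let `U = zpowers u`, `U' = zpowers (u^p)`.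
`sub_brT_mem` with `W = {rtr U' U a | a fixed by U'}` (`le_zpowers_pow`, `rtr_trans`) gives
`π = rtr U' U a₀ + μ`, `μ = brT U π ∈ 𝔪 A` fixed by `U` and `S`.  Average over `S`, cut by `π`
(`mul_rtr_cj`) and invert `π - π μ π` in the corner of `fxAlg S U` (`exists_inv_corner`):
`π = rtr U' U a` with `a = π a π` fixed by `U'`, `S`; `rtr_eq_sum` with `zpowers_transversal`;
`vanish_abs` with `τ = ev x`. -/
theorem vanish_grp (hp : (p : ℂ) ∈ V.nonunits) {x : G → ℂ} (hx : IsCF x) {u s : G}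
    (hu : IsPElt p u) {S : Subgroup G} (hS : ¬ p ∣ Nat.card S) (hs : s ∈ S) (hSu : S ≤ Cu u)
    {π : MonoidAlgebra V G} (hπ : π * π = π) (hf : π ∈ fxAlg V S (Subgroup.zpowers u))
    (h0 : bb (Subgroup.zpowers u) π = 0) : ev x (single (u * s) 1 * π) = 0 := by
  by_cases h1 : u = 1
  · rw [h1, Subgroup.zpowers_one_eq_bot, bb_bot, toRes_eq_zero_iff] at h0
    rw [h0.nilR.eq_zero hπ, mul_zero, ev_zero]
  set U := Subgroup.zpowers u with hU
  set U' := Subgroup.zpowers (u ^ p) with hU'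
  have hle : U' ≤ U := Subgroup.zpowers_le_of_mem (Subgroup.npow_mem_zpowers u p)
  obtain ⟨a₀, ha₀, e₀⟩ := sub_brT_mem hf.1 (Submodule.map (rtr (cjRep V G) U' U)
      (Subalgebra.toSubmodule (fxAlg V U' U'))) fun y _ hy => by
    have hlt : U ⊓ Subgroup.centralizer {y} < U := by
      refine lt_of_le_of_ne inf_le_left fun h => hy fun v hv => ?_
      rw [← h] at hv
      exact hv.2 y rfl
    have hT := le_zpowers_pow hu hlt
    have hfx := rtr_fixed hT (frpg_fix_single (R := V) U y)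
    exact ⟨_, ⟨hfx, hfx⟩, rtr_trans hT hle (frpg_fix_single U y)⟩
  have hμ := bb_eq_zero_iff.1 h0
  obtain ⟨σ, hσ1, hσ2, hσ3⟩ := exists_avg hp S hS
  have hcm : ∀ g ∈ U, ∀ t ∈ S, g * t = t * g := fun g hg t ht =>
    (mem_Cz.1 (hSu ht) g hg).symm
  have ha₁ : Fix U' (σ a₀) := fun g hg => by rw [← hσ3 g (hcm g (hle hg)), ha₀.1 g hg]
  have e₁ : rtr (cjRep V G) U' U (σ a₀) = π - σ (brT V (U : Set G) π) := by
    rw [← rtr_map (φ := σ) (fun g hg m => hσ3 g (hcm g hg) m), e₀, map_sub, hσ2 π hf.2]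
  have hr : rtr (cjRep V G) U' U (σ a₀) ∈ fxAlg V S U :=
    ⟨rtr_fixed hle ha₁, by rw [e₁]; exact Fix.sub hf.2 (hσ1 _)⟩
  have hnil : NilR V (π * rtr (cjRep V G) U' U (σ a₀) * π - (1 : V) • π) := by
    refine InMax.nilR ?_
    rw [e₁, mul_sub, sub_mul, hπ, hπ, one_smul, sub_sub_cancel_left]
    exact Submodule.neg_mem _ (idem_inMax_mul_right _ (idem_inMax_mul_left _
      (idem_inMax_map σ hμ)))
  obtain ⟨w, hw, hw0, hw1, -⟩ := exists_inv_corner (monicSplit_valuationSubring V)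
    (fxAlg V S U) hπ hf (mul_mem (mul_mem hf hr) hf)
    (by rw [← mul_assoc, ← mul_assoc, hπ, mul_assoc _ π, hπ]) isUnit_one hnil
  have hπw : π * w = w := by rw [← hw0, ← mul_assoc, ← mul_assoc, hπ]
  set a := w * π * σ a₀ * π with ha
  have haU : Fix U' a :=
    (((Fix.mono hw.1 hle).mul (Fix.mono hf.1 hle)).mul ha₁).mul (Fix.mono hf.1 hle)
  have haS : Fix S a := ((Fix.mul hw.2 hf.2).mul (hσ1 _)).mul hf.2
  have e₂ : π = rtr (cjRep V G) U' U a := by
    rw [ha, ← (mul_rtr_cj hf.1 _).2, ← (mul_rtr_cj (Fix.mul hw.1 hf.1) _).1, mul_assoc w,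
      mul_assoc w, hw1]
  rw [rtr_eq_sum hle haU (fun m : Fin p => u ^ (m : ℕ))
    (fun m => Subgroup.npow_mem_zpowers u _) (zpowers_transversal hu h1),
    Fin.sum_univ_eq_sum_range (fun m => cjRep V G (u ^ m) a) p] at e₂
  have hsm : ∀ g g' : G, (single g 1 : MonoidAlgebra V G) * single g' 1 = single (g * g') 1 :=
    fun g g' => by rw [MonoidAlgebra.single_mul_single, mul_one]
  have hpw : ∀ (g : G) (m : ℕ), (single g 1 : MonoidAlgebra V G) ^ m = single (g ^ m) 1 :=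
    fun g m => by rw [MonoidAlgebra.single_pow, one_pow]
  rw [← hsm]
  refine vanish_abs hp (ev x) (ev_smul x) (ev_comm hx) (u' := single u⁻¹ 1) (a := a) ?_ ?_ hπ
    ?_ ?_ ?_ ?_ ?_
  · rw [hsm, mul_inv_cancel, MonoidAlgebra.one_def]
  · rw [hsm, inv_mul_cancel, MonoidAlgebra.one_def]
  · rw [ha, ← mul_assoc, ← mul_assoc, ← mul_assoc, hπw, mul_assoc _ π π, hπ]
  · rw [hpw]
    exact fix_iff_comm.1 haU _ (Subgroup.mem_zpowers _)
  · rw [hsm, hsm, mem_Cu.1 (hSu hs)]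
  · exact fix_iff_comm.1 haS s hs
  · rw [e₂]
    refine Finset.sum_congr rfl fun m _ => ?_
    rw [hpw, hpw, cjRep_apply, inv_pow, mul_assoc _ a]

/-- `y = J J' J`; `exists_fitting` at `0` gives `ε, w ∈ adjoin {y} ≤ fxAlg` with `y ε` nil and
`y w = 1 - ε =: π₁`; `J π₁ = π₁ = π₁ J`.  `bb y = bb J`, so the idempotent `bb (J - π₁)` equals
the nilpotent `bb (y ε)` and vanishes.  `α = π₁ J'`, `β = J' J w π₁`, `α β = π₁`, `π₂ = β α` is an
idempotent below `J'` with `bb π₂ = bb J'`.  `vanish_grp` for `J - π₁` and `J' - π₂`, and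
`ev x (us α β) = ev x (us β α)`. -/
theorem ev_congr_bb (hp : (p : ℂ) ∈ V.nonunits) {x : G → ℂ} (hx : IsCF x) {u s : G}
    (hu : IsPElt p u) {S : Subgroup G} (hS : ¬ p ∣ Nat.card S) (hs : s ∈ S) (hSu : S ≤ Cu u)
    {J J' : MonoidAlgebra V G} (hJ : J * J = J) (hJ' : J' * J' = J')
    (hf : J ∈ fxAlg V S (Subgroup.zpowers u)) (hf' : J' ∈ fxAlg V S (Subgroup.zpowers u))
    (h : bb (Subgroup.zpowers u) J = bb (Subgroup.zpowers u) J') :
    ev x (single (u * s) 1 * J) = ev x (single (u * s) 1 * J') := by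
  set U := Subgroup.zpowers u with hU
  have hP : IsPGroup p U := hu.isPGroup
  have hm : ∀ a ∈ fxAlg V S U, ∀ b ∈ fxAlg V S U, bb U (a * b) = bb U a * bb U b :=
    fun a ha b hb => bb_mul hp hP ha.1 hb.1
  have hy : J * J' * J ∈ fxAlg V S U := mul_mem (mul_mem hf hf') hf
  obtain ⟨ε, hε, w, hw, hi, hn, hyw⟩ :=
    exists_fitting (monicSplit_valuationSubring V) (J * J' * J) 0
  rw [map_zero, sub_zero] at hn hyw
  have hcw : Commute (J * J' * J) w := Algebra.commute_of_mem_adjoin_self hw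
  have hle : Algebra.adjoin V {J * J' * J} ≤ fxAlg V S U :=
    Algebra.adjoin_le (Set.singleton_subset_iff.2 hy)
  have hεf := hle hε
  have hwf := hle hw
  obtain ⟨π₁, hπ₁⟩ : ∃ π₁, π₁ = 1 - ε := ⟨_, rfl⟩
  have hπf : π₁ ∈ fxAlg V S U := hπ₁ ▸ sub_mem (one_mem _) hεf
  have h11 : π₁ * π₁ = π₁ := hπ₁ ▸ hi.one_sub.eq
  rw [← hπ₁] at hyw
  have hJ1 : J * π₁ = π₁ := by
    rw [← hyw, ← mul_assoc, ← mul_assoc, ← mul_assoc, hJ]
  have h1J : π₁ * J = π₁ := by
    rw [← hyw, hcw.eq, mul_assoc, mul_assoc _ J J, hJ]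
  have hee : bb U J * bb U J = bb U J := by rw [← hm J hf J hf, hJ]
  have hby : bb U (J * J' * J) = bb U J := by
    rw [hm _ (mul_mem hf hf') _ hf, hm _ hf _ hf', ← h, hee, hee]
  have hid : ∀ {K π : MonoidAlgebra V G}, K * K = K → π * π = π → K * π = π → π * K = π →
      (K - π) * (K - π) = K - π := fun e1 e2 e3 e4 => by
    rw [mul_sub, sub_mul, sub_mul, e1, e2, e3, e4, sub_self, sub_zero]
  have hd1 := hid hJ h11 hJ1 h1J
  have hz1 : bb U (J - π₁) = 0 := by
    have e1 : bb U (J - π₁) = bb U (J * J' * J * ε) := by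
      rw [hm _ hy _ hεf, hby, ← hm _ hf _ hεf, ← hJ1, hπ₁, mul_sub, mul_one, sub_sub_cancel]
    have e2 : IsIdempotentElem (bb U (J - π₁)) := by
      rw [IsIdempotentElem, ← hm _ (sub_mem hf hπf) _ (sub_mem hf hπf), hd1]
    refine e2.eq_zero_of_isNilpotent ?_
    rw [e1]
    exact bb_nil hp hP (mul_mem hy hεf).1 hn
  have hb1 : bb U π₁ = bb U J := by
    rw [bb_sub] at hz1
    exact (sub_eq_zero.1 hz1).symm
  have hbw : bb U J * bb U w = bb U J := by
    have e := hm _ hy _ hwf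
    rw [hyw, hby, hb1] at e
    exact e.symm
  have hα : π₁ * J' ∈ fxAlg V S U := mul_mem hπf hf'
  have hβ : J' * J * w * π₁ ∈ fxAlg V S U := mul_mem (mul_mem (mul_mem hf' hf) hwf) hπf
  have hαβ : π₁ * J' * (J' * J * w * π₁) = π₁ := by
    calc π₁ * J' * (J' * J * w * π₁) = π₁ * J * (J' * J') * J * w * π₁ := by
          rw [h1J]
          simp only [mul_assoc]
      _ = π₁ * (J * J' * J * w) * π₁ := by
          rw [hJ']
          simp only [mul_assoc]
      _ = π₁ := by rw [hyw, h11, h11]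
  have h22 : J' * J * w * π₁ * (π₁ * J') * (J' * J * w * π₁ * (π₁ * J')) =
      J' * J * w * π₁ * (π₁ * J') := by
    rw [mul_assoc _ (π₁ * J'), ← mul_assoc (π₁ * J'), hαβ, ← mul_assoc π₁, h11]
  have hd2 := hid hJ' h22 (by simp only [← mul_assoc, hJ']) (by simp only [mul_assoc, hJ'])
  have hz2 : bb U (J' - J' * J * w * π₁ * (π₁ * J')) = 0 := by
    rw [bb_sub, hm _ hβ _ hα, hm _ (mul_mem (mul_mem hf' hf) hwf) _ hπf,
      hm _ (mul_mem hf' hf) _ hwf, hm _ hf' _ hf, hm _ hπf _ hf', hb1, ← h, hee, hbw, hee, hee,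
      sub_self]
  have v1 := vanish_grp hp hx hu hS hs hSu hd1 (sub_mem hf hπf) hz1
  have v2 := vanish_grp hp hx hu hS hs hSu hd2 (sub_mem hf' (mul_mem hβ hα)) hz2
  rw [mul_sub, ev_sub, sub_eq_zero] at v1 v2
  have hcβ : single (u * s) 1 * (J' * J * w * π₁) = J' * J * w * π₁ * single (u * s) 1 := by
    rw [← mul_one (1 : V), ← MonoidAlgebra.single_mul_single, mul_assoc,
      fix_iff_comm.1 hβ.2 s hs, ← mul_assoc,
      fix_iff_comm.1 hβ.1 u (Subgroup.mem_zpowers u), mul_assoc]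
  rw [v1, v2, ← mul_assoc, hcβ, mul_assoc, ev_comm hx (J' * J * w * π₁), mul_assoc, hαβ]

end Pool.Agent.Lib.MP_b6945b_al.Bi
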