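import Pool.Agent.Lib.MP_b6945b_al.Bi.BBlk
import Pool.Agent.Lib.MP_b6945b_al.Bi.BSC
import Pool.Agent.Lib.MP_b6945b_al.Bi.BVan

set_option autoImplicit false

/-!
Sums and induction for the cut star construction.
-/

namespace Pool.Agent.Lib.MP_b6945b_al.Bi

open St IsLocalRing Finset
open MonoidAlgebra (single)

lemma bg3_left {A : Type} [Ring A] {e b : A} (he : e * e = e) (h : e * b * e = b) :
    e * b = b ∧ b * e = b := by
  constructor
  · conv_lhs => rw [← h, ← mul_assoc, ← mul_assoc, he]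
    exact h
  · conv_lhs => rw [← h, mul_assoc, he]
    exact h

lemma bg3_sum {A ι : Type} [Ring A] [Fintype ι] (e b : ι → A) (he : ∀ k, e k * e k = e k)
    (ho : ∀ k l, k ≠ l → e k * e l = 0) (h : ∀ k, e k * b k * e k = b k)
    (hb : ∀ k, b k * b k = b k) :
    (∑ k, b k) * (∑ k, b k) = ∑ k, b k ∧ (∑ k, e k) * (∑ k, b k) * (∑ k, e k) = ∑ k, b k := by
  have h1 : ∀ k, (∑ l, e l) * b k = b k := fun k => by
    rw [Finset.sum_mul, Finset.sum_eq_single k (fun l _ hl => ?_) (by simp)]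
    · exact (bg3_left (he k) (h k)).1
    · rw [← (bg3_left (he k) (h k)).1, ← mul_assoc, ho l k hl, zero_mul]
  have h2 : ∀ k, b k * (∑ l, e l) = b k := fun k => by
    rw [Finset.mul_sum, Finset.sum_eq_single k (fun l _ hl => ?_) (by simp)]
    · exact (bg3_left (he k) (h k)).2
    · rw [← (bg3_left (he k) (h k)).2, mul_assoc, ho k l hl.symm, mul_zero]
  constructor
  · rw [Finset.sum_mul]
    refine Finset.sum_congr rfl fun k _ => ?_
    rw [Finset.mul_sum, Finset.sum_eq_single k (fun l _ hl => ?_) (by simp)]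
    · exact hb k
    · rw [← (bg3_left (he k) (h k)).2, ← (bg3_left (he l) (h l)).1, mul_assoc, ← mul_assoc (e k),
        ho k l hl.symm, zero_mul, mul_zero]
  · rw [Finset.mul_sum univ b, Finset.sum_congr rfl fun k _ => h1 k, Finset.sum_mul]
    exact Finset.sum_congr rfl fun k _ => h2 k

variable {G : Type} [Group G] [Fintype G] {V : ValuationSubring ℂ} {p : ℕ} [Fact p.Prime]

variable {η : G → MonoidAlgebra V G → ℂ} {x : G → ℂ} {S P Q : Subgroup G}
  {i j : MonoidAlgebra V G}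

omit [Fact p.Prime] in
lemma GW.zero (η : G → MonoidAlgebra V G → ℂ) (x : G → ℂ) (S P : Subgroup G) :
    GW η x S P 0 := by
  refine ⟨fun _ => 0, SC.zero _, fun u _ => ⟨fun _ => 0, fun c _ => ⟨mul_zero _, mul_zero _,
    zero_mem _, by rw [bb_zero, zero_mul]⟩, fun s _ => ?_⟩⟩
  simp [ev_zero]

omit [Fact p.Prime] in
lemma GW.add (hi : i * i = i) (hj : j * j = j) (hij : i * j = 0) (hji : j * i = 0)
    (h : GW η x S P i) (h' : GW η x S P j) : GW η x S P (i + j) := by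
  obtain ⟨Ψ, h1, h2⟩ := h
  obtain ⟨Ψ', h1', h2'⟩ := h'
  refine ⟨fun g => Ψ g + Ψ' g, h1.add h1', fun u hu => ?_⟩
  obtain ⟨J, a1, a2⟩ := h2 u hu
  obtain ⟨J', b1, b2⟩ := h2' u hu
  refine ⟨fun c => J c + J' c, fun c hc => ?_, fun s hs => ?_⟩
  · obtain ⟨c1, c2, c3, c4⟩ := a1 c hc
    obtain ⟨d1, d2, d3, d4⟩ := b1 c hc
    obtain ⟨e1, e2⟩ := bg3_left hi c2
    obtain ⟨f1, f2⟩ := bg3_left hj d2
    have g1 : j * J c = 0 := by rw [← e1, ← mul_assoc, hji, zero_mul]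
    have g2 : J c * j = 0 := by rw [← e2, mul_assoc, hij, mul_zero]
    have g3 : i * J' c = 0 := by rw [← f1, ← mul_assoc, hij, zero_mul]
    have g4 : J' c * i = 0 := by rw [← f2, mul_assoc, hji, mul_zero]
    have g5 : J c * J' c = 0 := by rw [← f1, ← mul_assoc, g2, zero_mul]
    have g6 : J' c * J c = 0 := by rw [← e1, ← mul_assoc, g4, zero_mul]
    refine ⟨?_, ?_, add_mem c3 d3, ?_⟩
    · simp only [add_mul, mul_add, c1, d1, g5, g6, add_zero, zero_add]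
    · simp only [add_mul, mul_add, e1, e2, f1, f2, g1, g2, g3, g4, add_zero, zero_add]
    · simp only [bb_add, c4, d4, add_mul]
  · simp only [a2 s hs, b2 s hs, mul_add, ev_add, Finset.sum_add_distrib]

/-- Take a transversal `t k ∈ P` of `Q` in `P` (`exists_transversal`); it is a transversal of
`Q ⊔ S` in `P ⊔ S` (`PCom.exists_mul`, `PCom.mul_mem_iff`), `Ψ` is given by `SC.ind`.
If `u ∉ Q` then `Ψ (u s) = 0`, take `J = 0`; `bb (zpowers u) (rtr Q P j) = 0` by `brT_rtr_fixed`.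
If `u ∈ Q` put `u k = (t k)⁻¹ u (t k) ∈ Q` and `J c = ∑ k, cj (t k) (J k (cj (t k)⁻¹ c))`;
`rtr_eq_sum`, `bb_cj`, `zpowers_conj`, `Cu_conj`, `HB.conj`, `sum_blk_cj`, `ev_cj_cf`. -/
theorem GW.ind (hp : (p : ℂ) ∈ V.nonunits) (hη : EtaInv η) (hx : IsCF x)
    (hS : ¬ p ∣ Nat.card S) (hP : PCom p S P) (hQ : Q < P) (hn : P ≤ Nz Q)
    (hjf : j ∈ fxAlg V S Q) (hj : j * j = j) (ho : ∀ g ∈ P, g ∉ Q → j * cjRep V G g j = 0)
    (h : GW η x S Q j) : GW η x S P (rtr (cjRep V G) Q P j) := by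
  classical
  obtain ⟨Ψ, h1, h2⟩ := h
  obtain ⟨n, t, -, ht, hu⟩ := exists_transversal hQ.le
  have hnorm : ∀ g ∈ P, ∀ u, g⁻¹ * u * g ∈ Q ↔ u ∈ Q := fun g hg u =>
    (Subgroup.mem_normalizer_iff''.1 (hn hg) u).symm
  have hcs : ∀ k, ∀ u, ∀ s ∈ S, (t k)⁻¹ * (u * s) * t k = (t k)⁻¹ * u * t k * s := by
    intro k u s hs
    simp only [mul_assoc, hP.2 _ (ht k) s hs]
  have hP' : ∀ k, ∀ u ∈ P, (t k)⁻¹ * u * t k ∈ P := fun k u hu =>
    P.mul_mem (P.mul_mem (P.inv_mem (ht k)) hu) (ht k)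
  have hE : rtr (cjRep V G) Q P j = ∑ k, cjRep V G (t k) j := rtr_eq_sum hQ.le hjf.1 t ht hu
  refine ⟨_, h1.ind (sup_le_sup_right hQ.le S) t (fun k => Subgroup.mem_sup_left (ht k))
    fun g hg => ?_, fun u huP => ?_⟩
  · obtain ⟨u, huP, s, hs, rfl⟩ := hP.exists_mul hg
    refine (existsUnique_congr fun k => ?_).1 (hu u huP)
    rw [← mul_assoc, hP.mul_mem_iff hS hQ.le (P.mul_mem (P.inv_mem (ht k)) huP) hs]
  by_cases huQ : u ∈ Q
  · have huk : ∀ k, (t k)⁻¹ * u * t k ∈ Q := fun k => (hnorm _ (ht k) u).2 huQ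
    choose J a1 a2 using fun k => h2 _ (huk k)
    have hC : ∀ k, Cu ((t k)⁻¹ * u * t k) = cg (t k)⁻¹ (Cu u) := fun k => by
      rw [← Cu_conj, inv_inv]
    have hZ : ∀ k, Subgroup.zpowers u = cg (t k) (Subgroup.zpowers ((t k)⁻¹ * u * t k)) :=
      fun k => by
        rw [← zpowers_conj]
        congr 1
        group
    refine ⟨fun c => ∑ k, cjRep V G (t k) (J k (cjRep V G (t k)⁻¹ c)), fun c hc => ?_,
      fun s hs => ?_⟩
    · have a3 := fun k => a1 k (cjRep V G (t k)⁻¹ c) (by rw [hC]; exact hc.conj _)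
      obtain ⟨b1, b2⟩ := bg3_sum (fun k => cjRep V G (t k) j)
        (fun k => cjRep V G (t k) (J k (cjRep V G (t k)⁻¹ c)))
        (fun k => by rw [← cjRep_mul, hj])
        (fun k l hkl => by
          have h3 : (t k)⁻¹ * t l ∉ Q := fun e =>
            hkl ((hu _ (ht l)).unique e (by rw [inv_mul_cancel]; exact Q.one_mem))
          have h4 := ho _ (P.mul_mem (P.inv_mem (ht k)) (ht l)) h3
          have h5 := congrArg (cjRep V G (t k)) h4
          rwa [cjRep_mul, frpg_cj_cj, mul_inv_cancel_left, map_zero] at h5)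
        (fun k => by rw [← cjRep_mul, ← cjRep_mul, (a3 k).2.1])
        (fun k => by rw [← cjRep_mul, (a3 k).1])
      refine ⟨b1, hE ▸ b2, sum_mem fun k _ => ⟨?_, fun s hs => ?_⟩, ?_⟩
      · rw [hZ k]
        exact Fix.cj (a3 k).2.2.1.1 _
      · rw [frpg_cj_cj, ← hP.2 _ (ht k) s hs, ← frpg_cj_cj, (a3 k).2.2.1.2 s hs]
      · rw [hE, bb_sum, bb_sum, Finset.sum_mul]
        refine Finset.sum_congr rfl fun k _ => ?_
        rw [hZ k, bb_cj, bb_cj, (a3 k).2.2.2, cjRep_mul, ← toRes_cjB, frpg_cj_inv]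
    · simp only [Finset.mul_sum, ev_sum]
      rw [Finset.sum_comm]
      refine Finset.sum_congr rfl fun k _ => ?_
      rw [hcs k u s hs, if_pos (Subgroup.mul_mem_sup (huk k) hs), a2 k s hs, hC, sum_blk_cj]
      refine Finset.sum_congr rfl fun c _ => ?_
      have h3 := hη (t k)⁻¹ u c
      rw [inv_inv] at h3
      rw [h3, ← ev_cj_cf hx (t k), cjRep_mul, frpg_cj_single, ← hcs k u s hs]
      congr 4
      group
  · have hb : bb (Subgroup.zpowers u) (rtr (cjRep V G) Q P j) = 0 := by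
      have hz : Subgroup.zpowers u ≤ P := (Subgroup.zpowers_le (H := P)).2 huP
      rw [bb, toRes_rtr, brT_rtr_fixed (bil_pk hp) hQ.le (hP.1.to_le hz) hz (Fix.toRes hjf.1)]
      refine Finset.sum_eq_zero fun q _ => if_neg fun e => huQ ?_
      exact (hnorm _ e.1 u).1 (e.2 u (Subgroup.mem_zpowers u))
    refine ⟨fun _ => 0, fun c _ => ⟨mul_zero _, by rw [mul_zero, zero_mul], zero_mem _,
      by rw [bb_zero, hb, zero_mul]⟩, fun s hs => ?_⟩
    simp only [mul_zero, ev_zero, Finset.sum_const_zero]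
    refine Finset.sum_eq_zero fun k _ => if_neg fun e => huQ ?_
    rw [hcs k u s hs, hP.mul_mem_iff hS hQ.le (hP' k u huP) hs] at e
    exact (hnorm _ (ht k) u).1 e

/-- `ev_congr_bb` for `J c` and `c` when `η u c ≠ 0`; `Star_apply`, `pp_mul_eq`. -/
theorem GW.sc (hp : (p : ℂ) ∈ V.nonunits) (hx : IsCF x) (hS : ¬ p ∣ Nat.card S)
    (hP : PCom p S P) {e : MonoidAlgebra V G}
    (hs : ∀ u c, η u c ≠ 0 → Le (Subgroup.zpowers u) e c) (h : GW η x S P e) :
    SC (P ⊔ S) (Star p η x) := by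
  obtain ⟨Ψ, h1, h2⟩ := h
  refine h1.congr fun g hg => ?_
  obtain ⟨u, hu, s, hsS, rfl⟩ := hP.exists_mul hg
  obtain ⟨J, a1, a2⟩ := h2 u hu
  have hup : IsPElt p u := isPElt_of_mem hP.1 hu
  have hSu : S ≤ Cu u := fun y hy => mem_Cu.2 (hP.2 u hu y hy)
  rw [Star_apply, pp_mul_eq hup (reg_of_mem hS hsS) (hP.2 u hu s hsS), a2 s hsS]
  refine Finset.sum_congr rfl fun c hc => ?_
  by_cases e0 : η u c = 0
  · rw [e0, zero_mul, zero_mul]
  have hc' := mem_blk.1 hc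
  obtain ⟨b1, -, b3, b4⟩ := a1 c hc'
  rw [ev_congr_bb hp hx hup hS hsS hSu b1 hc'.idem b3
    ⟨hc'.fix.mono (zpowers_le_Cu u), hc'.fix.mono hSu⟩
    (by rw [b4, bb_of_supp hc'.supp]; exact hs u c e0)]

end Pool.Agent.Lib.MP_b6945b_al.Bi
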