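import Pool.Agent.Lib.MP_b6945b_al.Bi.BLab
import Pool.Agent.Lib.MP_b6945b_al.Bi.BSC

set_option autoImplicit false

/-!
The local case of the cut star construction.
-/

namespace Pool.Agent.Lib.MP_b6945b_al.Bi

open St IsLocalRing Finset
open MonoidAlgebra (single)

variable {G : Type} [Group G] [Fintype G] {V : ValuationSubring ℂ} {p : ℕ} [Fact p.Prime]

variable {m : ℕ} {D S P : Subgroup G} {c₀ i c : MonoidAlgebra V G} {Λ : G → ℂ}

omit [Fintype G] [Fact p.Prime] in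
lemma SC.comp {H K : Subgroup G} {f : G → ℂ} (h : SC K f) (φ : G → G) (hm : ∀ a ∈ H, φ a ∈ K)
    (hφ : ∀ a ∈ H, ∀ b ∈ H, φ (a * b) = φ a * φ b) : SC H (fun g => f (φ g)) := by
  obtain ⟨ι, i1, i2, ρ, h1, h2⟩ := h
  exact ⟨ι, i1, i2, fun g => ρ (φ g), fun a ha b hb => by
    simp only [hφ a ha b hb, h1 _ (hm a ha) _ (hm b hb)], fun g hg => h2 _ (hm g hg)⟩

/-- `c ∈ fxAlg S P`; apply `bb U` to `i c i - v i` (`bb_nil`, `bb_mul`), `idem_dich_field`. -/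
lemma Loc.dich (hp : (p : ℂ) ∈ V.nonunits) (hl : Loc S P i) (hi : i * i = i)
    (hif : i ∈ fxAlg V S P) {U : Subgroup G} (hU : IsPGroup p U) (hUP : U ≤ P) (hP : P ≤ Cz U)
    (hS : S ≤ Cz U) (hc : HB (Cz U) c) :
    bb U i * toRes V G c = 0 ∨ bb U i * toRes V G c = bb U i := by
  obtain ⟨v, hv⟩ := hl c ⟨hc.fix.mono hP, hc.fix.mono hS⟩
  have f1 : Fix U i := Fix.mono hif.1 hUP
  have f2 : Fix U c := fix_of_supp_Cz hc.supp
  have h1 := bb_nil hp hU (((f1.mul f2).mul f1).sub (f1.smul v)) hv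
  have h2 := bb_idem hp hU hi f1
  have h3 : toRes V G c * bb U i = bb U i * toRes V G c := hc.fix.toRes.comm (supp_bb U i)
  rw [bb_sub, bb_mul hp hU (f1.mul f2) f1, bb_mul_right hc.supp, bb_smul, ← h3, mul_assoc,
    h2] at h1
  rw [← h3]
  exact idem_dich_field (by rw [← map_mul, hc.idem]) h2 h3 h1

/-- `exists_blk_res_ne` gives a block `f` of `Cz P` with `bb P i * f ≠ 0`; `Le P e f` by `le_dich`
since `bb P e * bb P i = bb P i`; `Rt.max_pair_top` gives `g`.  For `u ∈ P` let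
`b = bk (cg g D) (cj g c₀) (Cu u)`; `f = bk (cg g D) (cj g c₀) (Cz P)` (`Rt.conj`, `Rt.bk_eq`) and
`Le P b f` (`Rt.below`).  If `bb (zpowers u) i * b = 0`, then `brT_bb_mul` gives
`bb P i * bb P b = 0`, contradiction; `Loc.dich`.  `Rt.bk_conj` identifies `b`. -/
theorem exists_loc_pair (hp : (p : ℂ) ∈ V.nonunits) (h : Rt p m ⊤ D c₀) (hP : PCom p S P)
    (hif : i ∈ fxAlg V S P) (hi : i * i = i) (he : bk D c₀ ⊤ * i = i) (hl : Loc S P i)
    (h0 : bb P i ≠ 0) :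
    ∃ g, P ≤ cg g D ∧ ∀ u ∈ P, ∃ b, Lab D c₀ u b (g⁻¹ * u * g) ∧
      bb (Subgroup.zpowers u) i * toRes V G b = bb (Subgroup.zpowers u) i := by
  have hE := (h.spec hp (K := ⊤) le_top).1
  obtain ⟨f, hf, hf0⟩ := exists_blk_res_ne (Cz P) h0
  have h3 : toRes V G f * bb P i = bb P i * toRes V G f := hf.fix.toRes.comm (supp_bb P i)
  have hle : Le P (bk D c₀ ⊤) f := by
    refine (le_dich hp hP.1 le_top hE.idem hE.supp hE.fix hf inf_le_right le_top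
      (Cz_le_Nz P)).resolve_left fun e => hf0 ?_
    rw [← he, bb_mul hp hP.1 (hE.fix.mono le_top) hif.1, mul_assoc, ← h3, ← mul_assoc, e, zero_mul]
  obtain ⟨g, hPD, hg⟩ := h.max_pair_top hp hP.1 hf hle
  have h' := h.conj hp g
  refine ⟨g, hPD, fun u hu => ⟨bk (cg g D) (cjRep V G g c₀) (Cu u), ?_, ?_⟩⟩
  · have hd := mem_cg.1 (hPD hu)
    have e : u = g * (g⁻¹ * u * g) * g⁻¹ := by group
    refine ⟨hd, g, e, ?_⟩
    rw [← h.bk_conj hp (Cz_le_Cu hd) g, ← Cu_conj, ← e]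
  · have hK : Cz (cg g D) ≤ Cu u := Cz_le_Cu (hPD hu)
    have hb := (h'.spec hp hK).1
    have hUP : Subgroup.zpowers u ≤ P := Subgroup.zpowers_le.2 hu
    have hPC : P ≤ Cu u := fun x hx => mem_Cu.2 (h'.comm u (hPD hu) x (hPD hx))
    have h4 := h'.below hp hPD hK (H' := Cz P) inf_le_right (Cz_le_Cu hu) (Cz_le_Nz P)
    rw [h'.bk_eq hp (Cz_anti hPD) hf hg] at h4
    refine (hl.dich hp hi hif (hP.1.to_le hUP) hUP hPC (fun s hs => mem_Cu.2 (hP.2 u hu s hs))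
      hb).resolve_left fun e => hf0 ?_
    have h5 := brT_bb_mul hp hP.1 hUP (hPC.trans (Cz_le_Nz _)) hif.1 (hb.fix.mono hPC)
    rw [e, map_zero] at h5
    rw [← h4, ← mul_assoc, ← h5, zero_mul]

/-- `Ψ y = Λ (g⁻¹ * pp y * g) * ev χ (single y 1 * i)` (`SC.comp`, `SC.mul`, `sc_ev`; `pp` is
multiplicative on `P ⊔ S` by `PCom.exists_mul`, `pp_mul_eq`), `J c = if c = b then i else 0`
(`HB.orth`, `eta_of_lab`, `Lab.hb`). -/
theorem GW.loc (hp : (p : ℂ) ∈ V.nonunits) (h : Rt p m ⊤ D c₀) (hΛ : SC D Λ)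
    (hT : InvT (stabT ⊤ D c₀) D Λ) (I : IrrData G) (j : Fin I.n) (hS : ¬ p ∣ Nat.card S)
    (hP : PCom p S P) (hif : i ∈ fxAlg V S P) (hi : i * i = i) (he : bk D c₀ ⊤ * i = i)
    (hl : Loc S P i) (h0 : bb P i ≠ 0) : GW (eta D c₀ Λ) (I.χ j) S P i := by
  classical
  obtain ⟨g, hPD, hg⟩ := exists_loc_pair hp h hP hif hi he hl h0
  have hpp : ∀ u ∈ P, ∀ s ∈ S, pp p (u * s) = u := fun u hu s hs =>
    pp_mul_eq ((hP.1 ⟨u, hu⟩).imp fun k hk => congrArg Subtype.val hk) (reg_of_mem hS hs)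
      (hP.2 u hu s hs)
  refine ⟨fun y => Λ (g⁻¹ * pp p y * g) * ev (I.χ j) (single y 1 * i),
    (hΛ.comp (fun y => g⁻¹ * pp p y * g) (fun a ha => ?_) fun a ha b hb => ?_).mul
      (sc_ev I j hi (Fix.sup hif.1 hif.2)), fun u hu => ?_⟩
  · obtain ⟨u, hu, s, hs, rfl⟩ := hP.exists_mul ha
    rw [hpp u hu s hs]
    exact mem_cg.1 (hPD hu)
  · obtain ⟨u, hu, s, hs, rfl⟩ := hP.exists_mul ha
    obtain ⟨u', hu', s', hs', rfl⟩ := hP.exists_mul hb
    have e : u * s * (u' * s') = u * u' * (s * s') := by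
      rw [mul_assoc, ← mul_assoc s, ← hP.2 u' hu' s hs, mul_assoc, mul_assoc]
    rw [e, hpp _ (P.mul_mem hu hu') _ (S.mul_mem hs hs'), hpp u hu s hs, hpp u' hu' s' hs']
    group
  · obtain ⟨b, hb, hbb⟩ := hg u hu
    have hB := (hb.hb hp h).2
    refine ⟨fun c => if c = b then i else 0, fun c hc => ?_, fun s hs => ?_⟩
    · beta_reduce
      split_ifs with e
      · exact ⟨hi, by rw [hi, hi], ⟨Fix.mono hif.1 (Subgroup.zpowers_le.2 hu), hif.2⟩,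
          e ▸ hbb.symm⟩
      · refine ⟨mul_zero _, by rw [mul_zero, zero_mul], zero_mem _, ?_⟩
        rw [bb_zero, ← hbb, mul_assoc, ← map_mul, hB.orth hc (Ne.symm e), map_zero, mul_zero]
    · beta_reduce
      rw [sum_eq_single_of_mem b (mem_blk.2 hB) fun c _ e => by
        rw [if_neg e, mul_zero, ev_zero, mul_zero], if_pos rfl, eta_of_lab hp h hT hb,
        hpp u hu s hs]

end Pool.Agent.Lib.MP_b6945b_al.Bi
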