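import Pool.Agent.Lib.MP_b6945b_al.Bi.BBlk
import Pool.Agent.Lib.MP_b6945b_al.Bi.AFinal

set_option autoImplicit false

/-!
Central characters of truncated idempotents are rational with small denominators.
-/

namespace Pool.Agent.Lib.MP_b6945b_al.Bi

open St IsLocalRing Finset
open MonoidAlgebra (single)

section four
variable {K : Type} [Group K] [Fintype K] (I : IrrData K)

/-- The representation extended to the complex group ring. -/
noncomputable def bgu1_F (i : Fin I.n) :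
    MonoidAlgebra ℂ K →ₐ[ℂ] Matrix (Fin (I.d i)) (Fin (I.d i)) ℂ :=
  MonoidAlgebra.lift ℂ _ K (I.ρ i)

lemma bgu1_F_single (i : Fin I.n) (g : K) : bgu1_F I i (single g 1) = I.ρ i g := by
  simp [bgu1_F]

lemma bgu1_F_apply (i : Fin I.n) (a : MonoidAlgebra ℂ K) :
    bgu1_F I i a = ∑ g, a.coeff g • I.ρ i g := by
  conv_lhs => rw [eq_sum_single a]
  simp only [map_sum, map_smul, bgu1_F_single]

lemma bgu1_F_inj {a b : MonoidAlgebra ℂ K} (h : ∀ i, bgu1_F I i a = bgu1_F I i b) : a = b := by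
  have h1 : (fun g => a.coeff g) = fun g => b.coeff g :=
    I.fourier_inj fun i => by rw [← bgu1_F_apply, ← bgu1_F_apply, h]
  ext g
  exact congrFun h1 g

lemma bgu1_inv (a : MonoidAlgebra ℂ K) :
    ∑ i, (I.d i : ℂ) * (bgu1_F I i a).trace = Fintype.card K * a.coeff 1 := by
  have h := I.inversion (fun g => a.coeff g) 1
  simp only [inv_one, map_one, mul_one] at h
  simp only [bgu1_F_apply]
  exact h

lemma bgu1_trace (i : Fin I.n) (a : MonoidAlgebra ℂ K) :
    (bgu1_F I i a).trace = I.d i * I.om i (fun g => a.coeff g) := by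
  rw [IrrData.om, mul_div_cancel₀ _ (I.d_ne i), bgu1_F_apply]
  simp [Matrix.trace_sum, IrrData.χ]

lemma bgu1_cent (i : Fin I.n) {z : MonoidAlgebra ℂ K} (hz : Fix ⊤ z) :
    bgu1_F I i z = I.om i (fun g => z.coeff g) • 1 := by
  rw [bgu1_F_apply]
  refine I.fourier_cf (z := fun g => z.coeff g) (fun h g => ?_) i
  have h1 := congrArg (fun c => c.coeff (h * g * h⁻¹)) (hz h trivial)
  simp only [coeff_cjRep] at h1
  refine h1.symm.trans ?_
  congr 1
  group

lemma bgu1_exists (θ : Fin I.n) : ∃ j : MonoidAlgebra ℂ K, j * j = j ∧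
    (bgu1_F I θ j).trace = 1 ∧ (Fintype.card K : ℂ) * j.coeff 1 = I.d θ ∧
    ∀ z, Fix ⊤ z → z * j = I.om θ (fun g => z.coeff g) • j := by
  classical
  obtain ⟨c, hc⟩ := I.surj (Pi.single θ (Matrix.single ⟨0, I.pos θ⟩ ⟨0, I.pos θ⟩ 1))
  obtain ⟨j, hj⟩ : ∃ j : MonoidAlgebra ℂ K, ∀ g, j.coeff g = c g :=
    ⟨MonoidAlgebra.ofCoeff (Finsupp.equivFunOnFinite.symm c), fun g => by simp⟩
  have h1 : ∀ i, bgu1_F I i j =
      (Pi.single θ (Matrix.single ⟨0, I.pos θ⟩ ⟨0, I.pos θ⟩ 1) :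
        ∀ i, Matrix (Fin (I.d i)) (Fin (I.d i)) ℂ) i := fun i => by
    rw [bgu1_F_apply, ← hc]
    simp only [hj]
  have h2 : bgu1_F I θ j = Matrix.single ⟨0, I.pos θ⟩ ⟨0, I.pos θ⟩ 1 := by
    rw [h1, Pi.single_eq_same]
  have h3 : ∀ i, i ≠ θ → bgu1_F I i j = 0 := fun i hi => by rw [h1, Pi.single_eq_of_ne hi]
  have h4 : (bgu1_F I θ j).trace = 1 := by rw [h2, Matrix.trace_single_eq_same]
  refine ⟨j, bgu1_F_inj I fun i => ?_, h4, ?_, fun z hz => bgu1_F_inj I fun i => ?_⟩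
  · rw [map_mul]
    by_cases e : i = θ
    · subst e
      rw [h2, Matrix.single_mul_single_same, mul_one]
    · rw [h3 i e, mul_zero]
  · rw [← bgu1_inv I, Finset.sum_eq_single θ, h4, mul_one]
    · intro i _ hi
      rw [h3 i hi, Matrix.trace_zero, mul_zero]
    · exact fun h => absurd (Finset.mem_univ θ) h
  · rw [map_mul, map_smul]
    by_cases e : i = θ
    · subst e
      rw [bgu1_cent I i hz, smul_mul_assoc, one_mul]
    · rw [h3 i e, mul_zero, smul_zero]

lemma bgu1_avg (θ : Fin I.n) {j : MonoidAlgebra ℂ K}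
    (h1 : (Fintype.card K : ℂ) * j.coeff 1 = I.d θ)
    (h2 : ∀ z, Fix ⊤ z → z * j = I.om θ (fun g => z.coeff g) • j) (y : MonoidAlgebra ℂ K) :
    ∑ k, (cjRep ℂ K k⁻¹ y * j).coeff 1 = (bgu1_F I θ y).trace := by
  have hz : Fix ⊤ (∑ k : K, cjRep ℂ K k⁻¹ y) := fun g _ => by
    rw [map_sum]
    refine Fintype.sum_equiv (Equiv.mulRight g⁻¹) _ _ fun k => ?_
    rw [frpg_cj_cj, Equiv.coe_mulRight, mul_inv_rev, inv_inv]
  have h3 := h2 _ hz
  have h4 := bgu1_trace I θ (∑ k : K, cjRep ℂ K k⁻¹ y)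
  have h5 : ∀ k : K, (bgu1_F I θ (cjRep ℂ K k⁻¹ y)).trace = (bgu1_F I θ y).trace := fun k => by
    rw [cjRep_apply, map_mul, Matrix.trace_mul_comm, ← map_mul, mul_assoc,
      MonoidAlgebra.single_mul_single, inv_inv, mul_inv_cancel, mul_one, ← MonoidAlgebra.one_def,
      mul_one]
  rw [map_sum, Matrix.trace_sum, Finset.sum_congr rfl fun k _ => h5 k, Finset.sum_const,
    Finset.card_univ, nsmul_eq_mul] at h4
  have h6 : ∑ k, (cjRep ℂ K k⁻¹ y * j).coeff 1 = ((∑ k : K, cjRep ℂ K k⁻¹ y) * j).coeff 1 := by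
    rw [Finset.sum_mul]
    simp [MonoidAlgebra.coeff_sum]
  rw [h6, h3]
  apply mul_left_cancel₀ (IrrData.card_ne (H := K))
  rw [h4, ← h1]
  simp only [MonoidAlgebra.coeff_smul, Finsupp.smul_apply, smul_eq_mul]
  ring

lemma bgu1_le_one (θ : Fin I.n) {y : MonoidAlgebra ℂ K} (hy : y * y = y)
    (h1 : (Fintype.card K : ℂ) * y.coeff 1 = I.d θ) :
    ∃ n : ℕ, n ≤ 1 ∧ (n : ℂ) = (bgu1_F I θ y).trace := by
  have h2 : ∀ i, (bgu1_F I i y).trace = (bgu1_F I i y).rank := fun i =>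
    trace_eq_rank _ (by rw [← map_mul, hy])
  have h3 := bgu1_inv I y
  rw [h1] at h3
  simp only [h2] at h3
  have h4 : ∑ i, I.d i * (bgu1_F I i y).rank = I.d θ := by exact_mod_cast h3
  refine ⟨_, ?_, (h2 θ).symm⟩
  have h5 : I.d θ * (bgu1_F I θ y).rank ≤ I.d θ * 1 := by
    rw [mul_one]
    refine le_trans ?_ h4.le
    exact Finset.single_le_sum (f := fun i => I.d i * (bgu1_F I i y).rank)
      (fun _ _ => Nat.zero_le _) (Finset.mem_univ θ)
  exact Nat.le_of_mul_le_mul_left h5 (I.pos θ)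

end four

variable {G : Type} [Group G] [Fintype G] {V : ValuationSubring ℂ} {m : ℕ} {H K : Subgroup G}
  {f : MonoidAlgebra V G}

open Classical in
lemma bgu1_nat {j ε : MonoidAlgebra ℂ G} (hj : j * j = j) (hs : Supp H j) (hε : ε * ε = ε)
    (h1 : Supp H ε) (h2 : Fix H ε) :
    ∃ r : ℕ, (r : ℂ) = ∑ h, if h ∈ H then (ε * (cjRep ℂ G h⁻¹ j * j)).coeff 1 else 0 := by
  obtain ⟨P, hP⟩ : ∃ P : MonoidAlgebra ℂ G →ₗ[ℂ] MonoidAlgebra ℂ G,
      ∀ a, P a = ε * j * (trc ℂ H a * j) :=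
    ⟨LinearMap.mulLeft ℂ (ε * j) ∘ₗ LinearMap.mulRight ℂ j ∘ₗ trc ℂ H, fun a => rfl⟩
  have hPP : P ∘ₗ P = P := by
    refine LinearMap.ext fun a => ?_
    rw [LinearMap.comp_apply, hP, hP,
      trc_of_supp ((h1.mul hs).mul ((supp_trc H a).mul hs)), mul_assoc _ _ j, mul_assoc _ j j, hj,
      ← mul_assoc, mul_assoc ε j, ← mul_assoc j, ← h2.comm hs, mul_assoc ε j j, hj, ← mul_assoc ε,
      hε]
  let b := MonoidAlgebra.basis G ℂ
  have h3 := trace_eq_rank (LinearMap.toMatrix b b P) (by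
    rw [← LinearMap.toMatrix_comp, hPP])
  refine ⟨_, h3.symm.trans ?_⟩
  rw [Matrix.trace]
  refine Finset.sum_congr rfl fun h _ => ?_
  have h4 : Matrix.diag (LinearMap.toMatrix b b P) h = (P (single h 1)).coeff h := by
    simp only [Matrix.diag, LinearMap.toMatrix_apply, b, MonoidAlgebra.basis_apply]
    rfl
  rw [h4, hP]
  split_ifs with e
  · rw [trc_of_supp (supp_single e 1), cjRep_apply, inv_inv, mul_assoc (single h⁻¹ 1),
      ← mul_assoc ε (single h⁻¹ 1), h2.comm (supp_single (H.inv_mem e) 1), mul_assoc (single h⁻¹ 1)]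
    simp [mul_assoc]
  · have h5 : trc ℂ H (single h 1) = 0 := by
      ext x
      rw [coeff_trc]
      split_ifs with e'
      · have : x ≠ h := fun e'' => e (e'' ▸ e')
        simp [Finsupp.single_eq_of_ne this]
      · simp
    rw [h5, zero_mul, mul_zero]
    simp

omit [Fintype G] in
lemma bgu1_supp {a : MonoidAlgebra V G} (h : Supp H a) : Supp H (toK V G a) :=
  fun x hx => h x fun e => hx (by rw [coeff_toK, e]; rfl)

omit [Fintype G] in
lemma bgu1_cj (g : G) (a : MonoidAlgebra V G) :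
    toK V G (cjRep V G g a) = cjRep ℂ G g (toK V G a) := by
  ext x
  rw [coeff_toK, coeff_cjRep, coeff_cjRep, coeff_toK]

omit [Fintype G] in
lemma bgu1_fix {a : MonoidAlgebra V G} (h : Fix H a) : Fix H (toK V G a) :=
  fun g hg => by rw [← bgu1_cj, h g hg]

omit [Fintype G] in
lemma bgu1_pull_fix [Fintype K] {a : MonoidAlgebra ℂ G} (h : Fix K a) :
    Fix ⊤ (pull ℂ K.subtype a) := fun k _ => by
  rw [← pull_cjRep, h (K.subtype k) k.2]

omit [Fintype G] in
lemma bgu1_pull_cf [Fintype K] (a : MonoidAlgebra V G) :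
    (fun g => (pull ℂ K.subtype (toK V G a)).coeff g) = cf (pull V K.subtype a) := by
  ext g
  rw [coeff_pull, coeff_toK, cf, coeff_pull]

/-- Work in `A = MonoidAlgebra ℂ G` (`toK`).  Let `j₀ ∈ ℂ K` have Fourier transform the matrix unit
`E₀₀` at `θ` and `0` elsewhere (`IrrData.surj`; `fourier_inj`, `inversion`), `j = inc j₀`:
`j j = j`, `z j = om θ z • j` for `z` central in `ℂ K`, `j.coeff 1 = d / |K|`.
For a central idempotent `ε` of `H` the linear map `Π ε : a ↦ ε j (trc H a) j` is idempotent, so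
its trace is a natural number `r ε` (`trace_eq_rank` for its matrix, or
`LinearMap.IsProj.trace`), and the trace is `∑ h ∈ H, (ε (cj h⁻¹ j) j).coeff 1`.  As
`(cj h⁻¹ j) j` is supported on `K` one may replace `ε` by `trc K ε` (`trc_mul_right`), which is
central in `ℂ K`; so `r ε = om θ (pull ε) * r 1`.  Put `R = r 1`.  Averaging over `h k`, `k ∈ K`:
`|K| R = ∑ h ∈ H, n h` with `n h` the trace of the `θ`-component of the idempotent
`j h = pull (cj h⁻¹ j)` of `ℂ K`; `n h` is a natural number, `n h ≤ 1` because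
`∑ i, d i * trace (component i of j h) = |K| (j h).coeff 1 = d θ`; `n 1 = 1`; and `n h = 0` unless
`h ∈ stabT H K f`, since `j f = j` and `om θ (cj h⁻¹ f) = 0` when `cj h⁻¹ f ≠ f` (`HB.orth`). -/
theorem exists_rank (hKH : K ≤ H) (hn : H ≤ Nz K) (hf : HB K f)
    (hm : Nat.card (stabT H K f) ≤ m * Nat.card K) [Fintype K] (I : IrrData K) (θ : Fin I.n)
    (hθ : I.om θ (cf (pull V K.subtype f)) = 1) :
    ∃ R : ℕ, 0 < R ∧ R ≤ m ∧ ∀ ε : MonoidAlgebra V G, ε * ε = ε → Supp H ε → Fix H ε →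
      ∃ r : ℕ, (r : ℂ) = I.om θ (cf (pull V K.subtype ε)) * R := by
  classical
  obtain ⟨j₀, a1, a2, a3, a4⟩ := bgu1_exists I θ
  have hi : Function.Injective K.subtype := K.subtype_injective
  obtain ⟨j, hj⟩ : ∃ j, j = inc ℂ K.subtype j₀ := ⟨_, rfl⟩
  have b0 : pull ℂ K.subtype j = j₀ := by rw [hj, pull_inc hi]
  have b1 : j * j = j := by rw [hj, ← map_mul, a1]
  have hr : ∀ {a : MonoidAlgebra ℂ G}, Supp K a → ∀ g, a.coeff g ≠ 0 → g ∈ K.subtype.range :=
    fun h g hg => ⟨⟨g, h g hg⟩, rfl⟩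
  have b2 : Supp K j := fun x hx => by
    by_contra e
    refine hx ?_
    rw [hj]
    refine coeff_inc_of_notMem _ _ ?_
    rintro ⟨k, rfl⟩
    exact e k.2
  have b3 : ∀ h ∈ H, Supp K (cjRep ℂ G h⁻¹ j) := fun h hh => by
    have h1 := b2.cj h⁻¹
    rwa [cg_eq_iff.2 (hn (H.inv_mem hh))] at h1
  have c1 : ∀ a : MonoidAlgebra ℂ G, a.coeff 1 = (pull ℂ K.subtype a).coeff 1 := fun a => by
    rw [coeff_pull, K.subtype.map_one]
  obtain ⟨R, hR⟩ := bgu1_nat b1 (b2.mono hKH) (one_mul 1) (supp_one H) (fix_one H)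
  simp only [one_mul] at hR
  have hn1 : ∀ h : G, ∃ n : ℕ, n ≤ (if h ∈ stabT H K f then 1 else 0) ∧ (n : ℂ) =
      if h ∈ H then (bgu1_F I θ (pull ℂ K.subtype (cjRep ℂ G h⁻¹ j))).trace else 0 := by
    intro h
    by_cases e : h ∈ H
    · rw [if_pos e]
      by_cases e' : h ∈ stabT H K f
      · rw [if_pos e']
        refine bgu1_le_one I θ ?_ ?_
        · rw [← pull_mul_left hi (hr (b3 h e)), ← cjRep_mul, b1]
        · rw [← c1, coeff_cjRep, mul_one, inv_inv, mul_inv_cancel, c1, b0, a3]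
      · refine ⟨0, Nat.zero_le _, ?_⟩
        have d1 : f ≠ cjRep V G h⁻¹ f := fun e'' =>
          e' ((stabT H K f).inv_mem_iff.1 ⟨H.inv_mem e, hn (H.inv_mem e), e''.symm⟩)
        have d2 := hf.orth (hf.conj_norm (hn (H.inv_mem e))) d1
        have d3 : toK V G f * j = j := by
          have h1 := a4 _ (bgu1_pull_fix (bgu1_fix hf.fix))
          rw [bgu1_pull_cf, hθ, one_smul] at h1
          rw [← inc_pull_supp (bgu1_supp hf.supp), hj, ← map_mul, h1]
        have d4 : toK V G f * cjRep ℂ G h⁻¹ j = 0 := by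
          rw [← d3, cjRep_mul, ← mul_assoc, ← bgu1_cj, ← map_mul, d2, map_zero, zero_mul]
        have d5 := congrArg (fun a => bgu1_F I θ (pull ℂ K.subtype a)) d4
        simp only [map_zero] at d5
        rw [pull_mul_left hi (hr (bgu1_supp hf.supp)), map_mul,
          bgu1_cent I θ (bgu1_pull_fix (bgu1_fix hf.fix)), bgu1_pull_cf, hθ, one_smul,
          one_mul] at d5
        rw [d5, Matrix.trace_zero, Nat.cast_zero]
    · exact ⟨0, Nat.zero_le _, by rw [if_neg e, Nat.cast_zero]⟩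
  choose n hn2 hn3 using hn1
  have e1 : n 1 = 1 := by
    have h1 := hn3 1
    rw [if_pos H.one_mem, inv_one, map_one, Module.End.one_apply, b0, a2] at h1
    exact_mod_cast h1
  have e2 : (Fintype.card K : ℂ) * R = ∑ h, (n h : ℂ) := by
    have h1 : ∀ k : K, (R : ℂ) = ∑ h, if h ∈ H then
        (cjRep ℂ K k⁻¹ (pull ℂ K.subtype (cjRep ℂ G h⁻¹ j)) * j₀).coeff 1 else 0 := fun k => by
      rw [hR]
      refine (Fintype.sum_equiv (Equiv.mulRight (k : G)) _ _ fun h => ?_).symm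
      rw [Equiv.coe_mulRight]
      by_cases e : h ∈ H
      · rw [if_pos e, if_pos (H.mul_mem e (hKH k.2)), c1, pull_mul_right hi _ (hr b2), b0,
          ← pull_cjRep, frpg_cj_cj, mul_inv_rev, map_inv]
        rfl
      · rw [if_neg e, if_neg fun e' => e ((H.mul_mem_cancel_right (hKH k.2)).1 e')]
    rw [← nsmul_eq_mul, ← Finset.card_univ, ← Finset.sum_const,
      Finset.sum_congr rfl fun k _ => h1 k, Finset.sum_comm]
    refine Finset.sum_congr rfl fun h _ => ?_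
    rw [hn3]
    split_ifs with e
    · exact bgu1_avg I θ a3 a4 _
    · exact Finset.sum_const_zero
  have e3 : Fintype.card K * R = ∑ h, n h := by exact_mod_cast e2
  have e4 : ∑ h, n h ≤ Nat.card (stabT H K f) := by
    refine (Finset.sum_le_sum fun h _ => hn2 h).trans (le_of_eq ?_)
    rw [Finset.sum_boole, Nat.cast_id, Nat.card_eq_fintype_card, Fintype.card_subtype]
  have e5 : n 1 ≤ ∑ h, n h := Finset.single_le_sum (fun _ _ => Nat.zero_le _) (Finset.mem_univ 1)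
  refine ⟨R, ?_, ?_, fun ε g1 g2 g3 => ?_⟩
  · rw [e1, ← e3] at e5
    exact Nat.pos_of_mul_pos_left e5
  · have h1 := e4.trans hm
    rw [← e3, Nat.card_eq_fintype_card, mul_comm m] at h1
    exact Nat.le_of_mul_le_mul_left h1 Fintype.card_pos
  · obtain ⟨r, hr'⟩ := bgu1_nat b1 (b2.mono hKH) (ε := toK V G ε) (by rw [← map_mul, g1])
      (bgu1_supp g2) (bgu1_fix g3)
    refine ⟨r, ?_⟩
    rw [hr', hR, Finset.mul_sum]
    refine Finset.sum_congr rfl fun h _ => ?_
    split_ifs with e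
    · have h1 := bgu1_pull_fix ((bgu1_fix g3).mono hKH)
      rw [c1, c1 (_ * _), pull_mul_right hi _ (hr ((b3 h e).mul b2)), pull_mul_right hi _ (hr b2),
        b0, ← mul_assoc, fixedBy_top_iff.1 h1, mul_assoc, a4 _ h1, bgu1_pull_cf, mul_smul_comm]
      simp
    · rw [mul_zero]

end Pool.Agent.Lib.MP_b6945b_al.Bi
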