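import Pool.Agent.Lib.MP_b6945b_al.Bi.BLab
import Pool.Agent.Lib.MP_b6945b_al.Bi.BAdd

set_option autoImplicit false

/-!
Characters of the block do not vanish on the standard pairs.
-/

namespace Pool.Agent.Lib.MP_b6945b_al.Bi

open St IsLocalRing Finset
open MonoidAlgebra (single)

variable {G : Type} [Group G] [Fintype G] {V : ValuationSubring ℂ} {p : ℕ} [Fact p.Prime]

variable {m : ℕ} {D : Subgroup G} {c₀ : MonoidAlgebra V G} {d : G}

omit [Fintype G] [Fact p.Prime] in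
lemma bnon_mem {n : G} (hn : n ∈ stabT ⊤ D c₀) (hd : d ∈ D) : n * d * n⁻¹ ∈ D :=
  (Subgroup.mem_normalizer_iff.1 hn.2.1 d).1 hd

/-- A conjugate of `d` centralising `D` on whose block `bb D` does not vanish lies in `D`. -/
lemma bnon_in_D (hp : (p : ℂ) ∈ V.nonunits) (h : Rt p m ⊤ D c₀) (hd : d ∈ D) {g : G}
    (hg : g * d * g⁻¹ ∈ Cz D) (h0 : bb D (cjRep V G g (bk D c₀ (Cu d))) ≠ 0) :
    g * d * g⁻¹ ∈ D := by
  obtain ⟨hu, hb⟩ := ((lab_self (c₀ := c₀) hd).conj g).hb hp h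
  have hM := (h.cu_top hp hd).max.conj g
  rw [← Cu_conj] at hM
  have hT : IsPGroup p (D ⊔ Subgroup.zpowers (g * d * g⁻¹) : Subgroup G) :=
    IsPGroup.to_sup_of_normal_left' h.pD (pgroup_zpowers hu)
      ((Subgroup.zpowers_le.2 hg).trans (Cz_le_Nz D))
  have hle : D ⊔ Subgroup.zpowers (g * d * g⁻¹) ≤ Cu (g * d * g⁻¹) :=
    sup_le (fun x hx => mem_Cu.2 (mem_Cz.1 hg x hx)) (zpowers_le_Cu _)
  have h1 : bb (D ⊔ Subgroup.zpowers (g * d * g⁻¹)) (cjRep V G g (bk D c₀ (Cu d))) ≠ 0 := by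
    obtain ⟨y, hy, hy'⟩ := bb_ne_zero_iff.1 h0
    have hy2 : y ∈ Cu (g * d * g⁻¹) := hb.supp y fun e => hy' (by rw [e]; exact zero_mem _)
    refine bb_ne_zero_iff.2 ⟨y, mem_Cz.2 fun t ht => mem_Cu.1 ?_, hy'⟩
    have h3 : D ⊔ Subgroup.zpowers (g * d * g⁻¹) ≤ Cu y :=
      sup_le (fun x hx => mem_Cu.2 (mem_Cz.1 hy x hx))
        (Subgroup.zpowers_le.2 (mem_Cu.2 (mem_Cu.1 hy2).symm))
    exact h3 ht
  have h2 := hM.card_le hT hle h1
  rw [card_cg] at h2
  have h3 : D = D ⊔ Subgroup.zpowers (g * d * g⁻¹) :=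
    Subgroup.eq_of_le_of_card_ge le_sup_left h2
  rw [h3]
  exact Subgroup.mem_sup_right (Subgroup.mem_zpowers _)

open Classical in
/-- Let `u = g d g⁻¹`, `b' = cj g (b d)`, a block of `Cu u` with maximal pair `(cg g D, cj g c₀)`
(`Rt.conj`, `Rt.bk_conj`).  If `bb D b' ≠ 0` then `bb (D ⊔ zpowers u) b' ≠ 0` since `b'` is
supported on `Cu u`, so `u ∈ D` (`MaxR.card_le`).  Then `le_dich` (`H := Cu u`, `K := Cz D`),
and `Le D b' c₀` gives `b' = b u` (`Rt.bk_eq`), so `Lab.fusion` applies to `lab_self` and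
`Lab.conj`.  Conversely use `Rt.bk_T`. -/
lemma bb_cj_mul (hp : (p : ℂ) ∈ V.nonunits) (h : Rt p m ⊤ D c₀) (hd : d ∈ D) {g : G}
    (hg : g * d * g⁻¹ ∈ Cz D) :
    bb D (cjRep V G g (bk D c₀ (Cu d))) * toRes V G c₀ =
      if ∃ n ∈ stabT ⊤ D c₀, g * d * g⁻¹ = n * d * n⁻¹ then toRes V G c₀ else 0 := by
  have hl := (lab_self (c₀ := c₀) hd).conj g
  obtain ⟨hu, hb⟩ := hl.hb hp h
  split_ifs with hex
  · obtain ⟨n, hn, e⟩ := hex
    have hl' := (lab_self (c₀ := c₀) hd).conj n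
    rw [← e] at hl'
    rw [hl.same hp h hl', ← h.bk_T hp hd hn]
    exact (h.spec hp (Cz_le_Cu (bnon_mem hn hd))).2
  · by_contra hne
    have hD : g * d * g⁻¹ ∈ D := bnon_in_D hp h hd hg fun e => hne (by rw [e, zero_mul])
    rcases le_dich hp h.pD (fun x hx => mem_Cu.2 (mem_Cz.1 hg x hx)) hb.idem hb.supp hb.fix
      h.root inf_le_right (Cz_le_Cu hD) (Cz_le_Nz D) with h0 | hle
    · exact hne h0
    · have hl' := lab_self (c₀ := c₀) hD
      rw [h.bk_eq hp (Cz_le_Cu hD) hb hle] at hl'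
      exact hex (hl.fusion hp h hl')

omit [Fact p.Prime] in
lemma bnon_toRes_rtr (S T : Subgroup G) (a : MonoidAlgebra V G) :
    toRes V G (rtr (cjRep V G) S T a) =
      rtr (cjRep (ResidueField V) G) S T (toRes V G a) := by
  rw [tr_apply, tr_apply, map_sum]
  refine Finset.sum_congr rfl fun q _ => ?_
  split_ifs
  · exact toRes_cjB _ _
  · exact map_zero _

lemma bnon_fix (hp : (p : ℂ) ∈ V.nonunits) (h : Rt p m ⊤ D c₀) (hd : d ∈ D) :
    Fix (Cu d) (single d 1 * bk D c₀ (Cu d)) :=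
  (fix_single (mem_Cz.2 fun _ hx => mem_Cu.1 hx) 1).mul (h.hb_cu hp hd).fix

omit [Fintype G] [Fact p.Prime] in
lemma bnon_out (d n : G) :
    (QuotientGroup.mk n : G ⧸ Cu d).out * d * (QuotientGroup.mk n : G ⧸ Cu d).out⁻¹ =
      n * d * n⁻¹ := by
  obtain ⟨s, hs⟩ := QuotientGroup.mk_out_eq_mul (Cu d) n
  have h1 := mem_Cu.1 s.2
  rw [hs, mul_assoc n, ← h1]
  group

omit [Fintype G] [Fact p.Prime] in
lemma bnon_inj (d : G) : Function.Injective fun q : G ⧸ Cu d => q.out * d * q.out⁻¹ := by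
  intro q q' e
  have e' : q.out * d * q.out⁻¹ = q'.out * d * q'.out⁻¹ := e
  rw [← QuotientGroup.out_eq' q, ← QuotientGroup.out_eq' q', QuotientGroup.eq]
  refine mem_Cu.2 ?_
  calc d * (q.out⁻¹ * q'.out) = q.out⁻¹ * (q.out * d * q.out⁻¹) * q'.out := by group
    _ = q.out⁻¹ * q'.out * d := by rw [e']; group

open Classical in
/-- `rtr_map` for `toRes` (or `tr_apply`), `brT_rtr_fixed`, `bb_mul_left`, `bb_cj_mul`; the cosets
`q` of `Cu d` correspond to the conjugates `q d q⁻¹`. -/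
lemma bb_rtr_mul (hp : (p : ℂ) ∈ V.nonunits) (h : Rt p m ⊤ D c₀) (hd : d ∈ D) :
    bb D (rtr (cjRep V G) (Cu d) ⊤ (single d 1 * bk D c₀ (Cu d))) * toRes V G c₀ =
      ∑ u ∈ univ.filter (fun u => ∃ n ∈ stabT ⊤ D c₀, u = n * d * n⁻¹),
        single u 1 * toRes V G c₀ := by
  have h1 : ∀ g : G, (if g ∈ (⊤ : Subgroup G) ∧ ∀ x ∈ D, g⁻¹ * x * g ∈ Cu d then
      brT (ResidueField V) (D : Set G) (cjRep (ResidueField V) G g
        (toRes V G (single d 1 * bk D c₀ (Cu d)))) else 0) * toRes V G c₀ =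
      if ∃ n ∈ stabT ⊤ D c₀, g * d * g⁻¹ = n * d * n⁻¹ then
        single (g * d * g⁻¹) 1 * toRes V G c₀ else 0 := by
    intro g
    have hiff : (g ∈ (⊤ : Subgroup G) ∧ ∀ x ∈ D, g⁻¹ * x * g ∈ Cu d) ↔ g * d * g⁻¹ ∈ Cz D := by
      rw [mem_Cz]
      refine ⟨fun hh x hx => mem_Cu.1 ?_, fun hh => ⟨trivial, fun x hx => ?_⟩⟩
      · rw [Cu_conj, mem_cg]
        exact hh.2 x hx
      · rw [← mem_cg, ← Cu_conj]
        exact mem_Cu.2 (hh x hx)
    by_cases hg : g * d * g⁻¹ ∈ Cz D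
    · rw [if_pos (hiff.2 hg), ← toRes_cjB]
      change bb D _ * _ = _
      rw [cjRep_mul, frpg_cj_single, bb_mul_left (supp_single hg 1), toRes_single, mul_assoc,
        bb_cj_mul hp h hd hg]
      split_ifs
      · rfl
      · exact mul_zero _
    · rw [if_neg (fun hh => hg (hiff.1 hh)), zero_mul, if_neg]
      rintro ⟨n, hn, e⟩
      exact hg (e ▸ h.le_Cz (bnon_mem hn hd))
  rw [bb, bnon_toRes_rtr,
    brT_rtr_fixed (bil_pk hp) le_top h.pD le_top (bnon_fix hp h hd).toRes, Finset.sum_mul,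
    Finset.sum_congr rfl fun q _ => h1 q.out, ← Finset.sum_filter]
  refine Finset.sum_nbij (fun q : G ⧸ Cu d => q.out * d * q.out⁻¹) ?_ (bnon_inj d).injOn ?_
    fun _ _ => rfl
  · intro q hq
    exact Finset.mem_filter.2 ⟨mem_univ _, (Finset.mem_filter.1 hq).2⟩
  · intro u hu
    obtain ⟨n, hn, e⟩ := (Finset.mem_filter.1 (Finset.mem_coe.1 hu)).2
    refine ⟨QuotientGroup.mk n, Finset.mem_coe.2 (Finset.mem_filter.2
      ⟨mem_univ _, n, hn, bnon_out d n⟩), ?_⟩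
    rw [e]
    exact bnon_out d n

omit [Fact p.Prime] in
open Classical in
/-- The orbit is the image of `T ⧸ Cz D`. -/
lemma card_orb_le (h : Rt p m ⊤ D c₀) (hd : d ∈ D) :
    (univ.filter (fun u => ∃ n ∈ stabT ⊤ D c₀, u = n * d * n⁻¹)).card ≤ m := by
  have hZ := h.Cz_le_stab
  have h1 : univ.filter (fun u => ∃ n ∈ stabT ⊤ D c₀, u = n * d * n⁻¹) ⊆
      univ.image fun q : stabT ⊤ D c₀ ⧸ (Cz D).subgroupOf (stabT ⊤ D c₀) =>
        (q.out : G) * d * (q.out : G)⁻¹ := by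
    intro u hu
    obtain ⟨n, hn, rfl⟩ := (Finset.mem_filter.1 hu).2
    refine Finset.mem_image.2 ⟨QuotientGroup.mk ⟨n, hn⟩, mem_univ _, ?_⟩
    obtain ⟨s, hs⟩ := QuotientGroup.mk_out_eq_mul ((Cz D).subgroupOf (stabT ⊤ D c₀)) ⟨n, hn⟩
    have h2 := mem_Cz.1 (Subgroup.mem_subgroupOf.1 s.2) d hd
    rw [hs, Subgroup.coe_mul, mul_assoc n, h2]
    group
  have h2 := (Finset.card_le_card h1).trans Finset.card_image_le
  have h3 := Subgroup.card_eq_card_quotient_mul_card_subgroup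
    ((Cz D).subgroupOf (stabT ⊤ D c₀))
  rw [Nat.card_congr (Subgroup.subgroupOfEquivOfLe hZ).toEquiv] at h3
  have h4 := h.inert
  rw [h3] at h4
  rw [Finset.card_univ, ← Nat.card_eq_fintype_card] at h2
  exact h2.trans (Nat.le_of_mul_le_mul_right h4 Nat.card_pos)

omit [Fintype G] in
/-- `(u - 1) ^ p ^ k = 0` in characteristic `p` (`sub_pow_char_pow_of_commute`). -/
lemma nil_single_sub {k : Type} [Field k] (hpk : (p : k) = 0) {u : G} (hu : IsPElt p u) :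
    IsNilpotent (single u 1 - 1 : MonoidAlgebra k G) := by
  obtain ⟨n, hn⟩ := hu
  have : CharP (MonoidAlgebra k G) p :=
    (CharP.charP_iff_prime_eq_zero Fact.out).2 (by
      rw [← map_natCast (algebraMap k (MonoidAlgebra k G)), hpk, map_zero])
  refine ⟨p ^ n, ?_⟩
  rw [sub_pow_char_pow_of_commute _ _ (Commute.one_right _), MonoidAlgebra.single_pow, hn,
    one_pow, one_pow, ← MonoidAlgebra.one_def, sub_self]

omit [Fintype G] in
/-- A sum of fewer than `p` commuting `p`-elements is a unit in characteristic `p`. -/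
lemma bnon_unit {k : Type} [Field k] (hpk : (p : k) = 0) {s : Finset G} (h0 : 0 < s.card)
    (h1 : s.card < p) (hs : ∀ u ∈ s, IsPElt p u) (hc : ∀ u ∈ s, ∀ v ∈ s, u * v = v * u) :
    IsUnit (∑ u ∈ s, single u 1 : MonoidAlgebra k G) := by
  have : CharP k p := (CharP.charP_iff_prime_eq_zero Fact.out).2 hpk
  have hn : (s.card : k) ≠ 0 := fun e =>
    absurd (Nat.le_of_dvd h0 ((CharP.cast_eq_zero_iff k p _).1 e)) (not_le.2 h1)
  have hW : IsNilpotent (∑ u ∈ s, (single u 1 - 1) : MonoidAlgebra k G) := by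
    refine Commute.isNilpotent_sum (fun u hu => nil_single_sub hpk (hs u hu)) ?_
    intro u v hu hv
    refine Commute.sub_left (Commute.sub_right ?_ (Commute.one_right _)) (Commute.one_left _)
    change _ * _ = _ * _
    rw [MonoidAlgebra.single_mul_single, MonoidAlgebra.single_mul_single, hc u hu v hv]
  have hU : IsUnit (s.card : MonoidAlgebra k G) := by
    rw [← map_natCast (algebraMap k (MonoidAlgebra k G))]
    exact (Ne.isUnit hn).map _
  have h2 := hW.isUnit_add_right_of_commute hU (Nat.commute_cast _ _)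
  rwa [Finset.sum_sub_distrib, Finset.sum_const, nsmul_one, sub_add_cancel] at h2

/-- Let `z = rtr (Cu d) ⊤ (d b)`; if the value vanishes then `om i z = 0` (`ev_rtr`,
`ev_chi_eq_om`), so `z e` is nil (`IsBlockIdem.nil_subB`; `om i₀ z - om i z` is a nonunit by
`Bl`, `om_mem_Lam`).  Apply `bb D` (`bb_nil`, `bb_mul`) and multiply by `c₀`: by `bb_rtr_mul` and
`nil_single_sub` the multiple `|orbit| • toRes c₀` is nilpotent (all terms commute), and
`0 < |orbit| ≤ m < p`. -/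
theorem ev_ne_zero (hp : (p : ℂ) ∈ V.nonunits) (hm : m < p) (h : Rt p m ⊤ D c₀) (hd : d ∈ D)
    {I : IrrData G} {i₀ : Fin I.n} (he : IsBlockIdem I i₀ (bk D c₀ ⊤)) {i : Fin I.n}
    (hi : I.Bl V i₀ i) : ev (I.χ i) (single d 1 * bk D c₀ (Cu d)) ≠ 0 := by
  classical
  intro h0
  have hz : Fix ⊤ (rtr (cjRep V G) (Cu d) ⊤ (single d 1 * bk D c₀ (Cu d))) :=
    rtr_fixed le_top (bnon_fix hp h hd)
  have hS := bb_rtr_mul hp h hd
  have h1 := ev_rtr (isCF_chi I i) (le_top : Cu d ≤ ⊤) (single d 1 * bk D c₀ (Cu d))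
  generalize rtr (cjRep V G) (Cu d) ⊤ (single d 1 * bk D c₀ (Cu d)) = z at hz hS h1
  have hz' := fixedBy_top_iff.1 hz
  rw [h0, mul_zero, ev_chi_eq_om] at h1
  have h2 : I.om i (cf z) = 0 := (mul_eq_zero.1 h1).resolve_left (I.d_ne i)
  have h3 := hi _ (I.om_mem_Lam (isCF_cf_iff.2 hz') (cf_mem z))
  have h4 : I.om i₀ (cf z) - ((0 : V) : ℂ) ∈ V.nonunits := by
    have h5 := neg_mem h3
    simp only [h2] at h5
    simpa using h5
  have h5 := IsBlockIdem.nil_subB he hz' h4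
  rw [zero_smul, sub_zero] at h5
  obtain ⟨hb, hle⟩ := h.spec hp (le_top : Cz D ≤ ⊤)
  have h6 := bb_nil hp h.pD ((hz.mul hb.fix).mono le_top) h5
  have hC : Fix (Cz D) (toRes V G c₀) := h.root.fix.toRes
  have h7 : IsNilpotent (bb D (z * bk D c₀ ⊤) * toRes V G c₀) :=
    Commute.isNilpotent_mul_right (hC.comm (supp_bb D _)).symm h6
  rw [bb_mul hp h.pD (hz.mono le_top) (hb.fix.mono le_top), mul_assoc, hle, hS,
    ← Finset.sum_mul] at h7
  have hmem : ∀ u ∈ univ.filter (fun u => ∃ n ∈ stabT ⊤ D c₀, u = n * d * n⁻¹), u ∈ D := by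
    intro u hu
    obtain ⟨n, hn, rfl⟩ := (Finset.mem_filter.1 hu).2
    exact bnon_mem hn hd
  have hU := bnon_unit (bil_pk hp)
    (s := univ.filter (fun u => ∃ n ∈ stabT ⊤ D c₀, u = n * d * n⁻¹))
    (Finset.card_pos.2 ⟨d, Finset.mem_filter.2 ⟨mem_univ _, 1, one_mem _, by group⟩⟩)
    ((card_orb_le h hd).trans_lt hm) (fun u hu => h.pelt (hmem u hu))
    (fun u hu v hv => h.comm u (hmem u hu) v (hmem v hv))
  have hc : Commute (∑ u ∈ univ.filter (fun u => ∃ n ∈ stabT ⊤ D c₀, u = n * d * n⁻¹),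
      single u 1 : MonoidAlgebra (ResidueField V) G) (toRes V G c₀) :=
    (hC.comm (Supp.sum _ fun u hu => supp_single (h.le_Cz (hmem u hu)) 1)).symm
  obtain ⟨n, hn⟩ := h7
  rw [hc.mul_pow, (hU.pow n).mul_right_eq_zero] at hn
  have hI : IsIdempotentElem (toRes V G c₀) := by
    change _ * _ = _
    rw [← map_mul, h.root.idem]
  exact h.root.res_ne (by rw [← hI.pow_succ_eq n, pow_succ, hn, zero_mul])

end Pool.Agent.Lib.MP_b6945b_al.Bi
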