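import Pool.Agent.Lib.MP_b6945b_al.Bi.BKf
import Pool.Agent.Lib.MP_b6945b_al.Bi.BNon

set_option autoImplicit false

/-!
The bound for the number of Brauer characters.
-/

namespace Pool.Agent.Lib.MP_b6945b_al.Bi

open St IsLocalRing Finset
open MonoidAlgebra (single)

variable {G : Type} [Group G] [Fintype G] {V : ValuationSubring ℂ} {p : ℕ} [Fact p.Prime]

variable {m : ℕ} {D : Subgroup G} {c₀ : MonoidAlgebra V G}

omit [Fact p.Prime] [Fintype G] in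
lemma bms_mem {T : Subgroup G} (hT : T ≤ Nz D) {g : MulAut D} :
    g ∈ ((Subgroup.normalizerMonoidHom D).comp (Subgroup.inclusion hT)).range ↔
      ∃ n ∈ T, ∀ d : D, (g d : G) = n * d * n⁻¹ := by
  constructor
  · rintro ⟨n, rfl⟩
    exact ⟨n, n.2, fun d => rfl⟩
  · rintro ⟨n, hn, h⟩
    refine ⟨⟨n, hn⟩, ?_⟩
    ext d
    exact (h d).symm

omit [Fact p.Prime] [Fintype G] in
lemma bms_card {T : Subgroup G} (hT : T ≤ Nz D) (hC : Cz D ≤ T) :
    Nat.card ((Subgroup.normalizerMonoidHom D).comp (Subgroup.inclusion hT)).range *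
      Nat.card (Cz D) = Nat.card T := by
  have hk : ((Subgroup.normalizerMonoidHom D).comp (Subgroup.inclusion hT)).ker =
      (Cz D).subgroupOf T := by
    rw [← MonoidHom.comap_ker, Subgroup.normalizerMonoidHom_ker]
    rfl
  rw [← Subgroup.index_ker, ← Subgroup.index_mul_card
    ((Subgroup.normalizerMonoidHom D).comp (Subgroup.inclusion hT)).ker, hk,
    Nat.card_congr (Subgroup.subgroupOfEquivOfLe hC).toEquiv]

omit [Fact p.Prime] in
/-- `E` is the range of `(Subgroup.normalizerMonoidHom D).comp (Subgroup.inclusion hT)`, whose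
kernel is `(Cz D).subgroupOf T` (`Subgroup.normalizerMonoidHom_ker`). -/
lemma exists_inertial {T : Subgroup G} (hT : T ≤ Nz D) (hC : Cz D ≤ T) :
    ∃ E : Subgroup (MulAut D), Nat.card E * Nat.card (Cz D) = Nat.card T ∧
      (∀ g : E, ∃ n ∈ T, ∀ d : D, ((g : MulAut D) d : G) = n * d * n⁻¹) ∧
      (∀ n ∈ T, ∃ g : E, ∀ d : D, ((g : MulAut D) d : G) = n * d * n⁻¹) ∧
      ∀ d : D, stb E.subtype d * Nat.card (Cz D) = Nat.card (T ⊓ Cu (d : G) : Subgroup G) := by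
  refine ⟨((Subgroup.normalizerMonoidHom D).comp (Subgroup.inclusion hT)).range, bms_card hT hC,
    fun g => (bms_mem hT).1 g.2, fun n hn => ⟨⟨_, ⟨n, hn⟩, rfl⟩, fun d => rfl⟩, fun d => ?_⟩
  have hS : T ⊓ Cu (d : G) ≤ Nz D := inf_le_left.trans hT
  rw [← bms_card hS (le_inf hC (Cz_le_Cu d.2))]
  congr 1
  refine Nat.card_congr ⟨fun g => ⟨g.1.1, ?_⟩, fun g => ⟨⟨g.1, ?_⟩, ?_⟩, fun _ => rfl, fun _ => rfl⟩
  · obtain ⟨n, hn, h⟩ := (bms_mem hT).1 g.1.2
    refine (bms_mem hS).2 ⟨n, ⟨hn, mem_Cu.2 ?_⟩, h⟩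
    have h1 : ((g.1.1 d : D) : G) = d := congrArg Subtype.val g.2
    rw [h d] at h1
    conv_lhs => rw [← h1]
    group
  · obtain ⟨n, hn, h⟩ := (bms_mem hS).1 g.2
    exact (bms_mem hT).2 ⟨n, hn.1, h⟩
  · obtain ⟨n, hn, h⟩ := (bms_mem hS).1 g.2
    refine Subtype.ext ?_
    change (g.1 d : G) = d
    rw [h d, ← mem_Cu.1 hn.2]
    group

omit [Fact p.Prime] in
open Classical in
lemma bms_sum (I : IrrData G) (i₀ : Fin I.n) [Fintype D] (E : Subgroup (MulAut D)) [Fintype E]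
    (h1 : Nat.card E * Nat.card (Cz D) = Nat.card (stabT ⊤ D c₀))
    (h4 : ∀ d : D, stb E.subtype d * Nat.card (Cz D) =
      Nat.card (stabT ⊤ D c₀ ⊓ Cu (d : G) : Subgroup G)) {Λ : G → ℂ}
    (hT : InvT (stabT ⊤ D c₀) D Λ) :
    ∑ d : D, ((stb E.subtype d : ℂ) * Λ d) • mat p I i₀ (eta D c₀ (orb (stabT ⊤ D c₀) d)) =
      (Fintype.card E : ℂ) • mat p I i₀ (eta D c₀ Λ) := by
  have h := sum_mat_orb (p := p) D c₀ hT I i₀
  rw [Finset.sum_subtype (univ.filter (· ∈ D)) (p := (· ∈ D)) (by simp)] at h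
  have hne : (Nat.card (Cz D) : ℂ) ≠ 0 := by exact_mod_cast (Nat.card_pos (α := Cz D)).ne'
  apply smul_right_injective _ hne
  dsimp only
  rw [smul_smul, Finset.smul_sum, mul_comm, ← Nat.card_eq_fintype_card, ← Nat.cast_mul, h1, ← h]
  refine Finset.sum_congr rfl fun d _ => ?_
  rw [smul_smul, ← h4 d]
  congr 1
  push_cast
  ring

open Classical in
/-- `herm`: `mat_star`, `eta_star`; `idem`, `orth`: `mat_mul`, `eta_mul`, `eta_zero`, `mat_zero`;
`inv`: `orb_conj`; `sum`, `int`: `sum_mat_orb` divided by `|Cz D|`, `mat_eta_one`, `mat_int` for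
`Λ g = if h : g ∈ D then ∑ i, lam i ⟨g, h⟩ else 0` (`SC.sum`, `SC.of_mul`); `diag`:
`Star_eq_zero_of_diag`, `Star_orb_self` with `s = 1`, `ev_ne_zero`; `rank`: `rank_orb`. -/
theorem msys (hp : (p : ℂ) ∈ V.nonunits) (hm : m < p) (h : Rt p m ⊤ D c₀) (h0 : D ≠ ⊥) {r : ℕ}
    (hr : ∀ d ∈ D, d ≠ 1 → lL p (Cu d) (bk D c₀ (Cu d)) ≤ r) {I : IrrData G} {i₀ : Fin I.n}
    (he : IsBlockIdem I i₀ (bk D c₀ ⊤)) [Fintype D] (E : Subgroup (MulAut D)) [Fintype E]
    (h1 : Nat.card E * Nat.card (Cz D) = Nat.card (stabT ⊤ D c₀))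
    (h2 : ∀ g : E, ∃ n ∈ stabT ⊤ D c₀, ∀ d : D, ((g : MulAut D) d : G) = n * d * n⁻¹)
    (h3 : ∀ n ∈ stabT ⊤ D c₀, ∃ g : E, ∀ d : D, ((g : MulAut D) d : G) = n * d * n⁻¹)
    (h4 : ∀ d : D, stb E.subtype d * Nat.card (Cz D) =
      Nat.card (stabT ⊤ D c₀ ⊓ Cu (d : G) : Subgroup G)) :
    MSys p r E.subtype fun d : D => mat p I i₀ (eta D c₀ (orb (stabT ⊤ D c₀) d)) := by
  have hinv : ∀ d : G, EtaInv (eta D c₀ (orb (stabT ⊤ D c₀) d)) :=
    fun d => eta_inv hp h (invT_orb _ _ _)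
  refine ⟨fun a b => Subtype.ext (h.comm _ a.2 _ b.2), h.pD, (Subgroup.nontrivial_iff_ne_bot D).2 h0,
    fun d => ?_, fun d => mat_orb_idem hp h he d, fun d d' hd => ?_, fun g d => ?_, ?_,
    fun k lam hl χ ψ => ?_, fun d χ hχ => ?_, fun d hd => ?_⟩
  · rw [mat_star hp]
    congr 1
    funext u c
    rw [eta_star]
    congr 1
    funext x
    unfold orb ind
    split_ifs <;> simp
  · rw [mat_mul hp he (hinv d) (eta_supp hp h _), ← mat_zero (p := p) (I := I) (i₀ := i₀),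
      ← eta_zero (D := D) (c₀ := c₀)]
    congr 1
    funext u c
    rw [← eta_mul]
    congr 1
    funext x
    unfold orb ind
    split_ifs with a b
    · exfalso
      obtain ⟨n', hn', rfl⟩ := a
      obtain ⟨n, hn, e⟩ := b
      obtain ⟨g, hg⟩ := h3 (n'⁻¹ * n) (Subgroup.mul_mem _ (Subgroup.inv_mem _ hn') hn)
      refine hd g (Subtype.ext ?_)
      change ((g : MulAut D) d : G) = d'
      rw [hg d, mul_inv_rev, inv_inv]
      calc n'⁻¹ * n * d * (n⁻¹ * n') = n'⁻¹ * (n * d * n⁻¹) * n' := by group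
        _ = d' := by rw [← e]; group
    all_goals simp
  · obtain ⟨n, hn, hg⟩ := h2 g
    have e : ((E.subtype g d : D) : G) = n * d * n⁻¹ := hg d
    rw [e, orb_conj hn]
  · have h5 := bms_sum (p := p) I i₀ E h1 h4 (Λ := fun _ => 1) (fun _ _ _ _ => rfl)
    rw [mat_eta_one hp h he] at h5
    simpa only [mul_one] using h5
  · obtain ⟨Λ, hΛ, hS⟩ : ∃ Λ : G → ℂ, (∀ d : D, Λ d = ∑ i, lam i d) ∧ SC D Λ := by
      refine ⟨fun g => ∑ i, if hg : g ∈ D then lam i ⟨g, hg⟩ else 0, fun d => ?_,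
        SC.sum _ fun i _ => SC.of_mul fun a ha b hb => ?_⟩
      · simp only [d.2, dif_pos]
      · rw [dif_pos ha, dif_pos hb, dif_pos (D.mul_mem ha hb), ← map_mul]
        rfl
    have hT : InvT (stabT ⊤ D c₀) D Λ := by
      intro n hn d hd
      obtain ⟨g, hg⟩ := h3 n hn
      rw [← hg ⟨d, hd⟩, hΛ, hΛ ⟨d, hd⟩]
      exact hl g ⟨d, hd⟩
    obtain ⟨z, hz⟩ := mat_int hp h hS hT I i₀ χ ψ
    have h5 := congrFun (congrFun (bms_sum (p := p) I i₀ E h1 h4 hT) χ) ψ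
    rw [Matrix.sum_apply, Matrix.smul_apply, hz, smul_eq_mul] at h5
    refine ⟨z, ?_⟩
    rw [← h5]
    refine Finset.sum_congr rfl fun d _ => ?_
    rw [Matrix.smul_apply, smul_eq_mul, hΛ]
  · have h5 := Star_eq_zero_of_diag hp he (hinv d) (eta_supp hp h _) (fun u c => by
      rw [eta_orb hp h d.2]
      split_ifs <;> simp) hχ
    have h6 := Star_orb_self hp h d.2 (I.χ χ) (s := 1) (Subgroup.one_mem _) (by
      rw [orderOf_one, Nat.dvd_one]
      exact (Fact.out : p.Prime).ne_one)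
    rw [h5, mul_one] at h6
    exact ev_ne_zero hp hm h d.2 he χ.2 h6.symm
  · rw [rank_orb hp h d.2 he]
    exact hr d d.2 fun e => hd (Subtype.ext e)

/-- `rank_bound`, `msys`, `rank_orb` for `d = 1`, `Cu_one`. -/
theorem lL_bound (m r : ℕ) : ∃ C : ℕ, ∀ (p : ℕ) [Fact p.Prime], C < p → m < p →
    ∀ (V : ValuationSubring ℂ), (p : ℂ) ∈ V.nonunits → ∀ (G : Type) [Group G] [Fintype G]
      (D : Subgroup G) (c : MonoidAlgebra V G), Rt p m ⊤ D c → D ≠ ⊥ →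
      (∀ d ∈ D, d ≠ 1 → lL p (Cu d) (bk D c (Cu d)) ≤ r) → lL p ⊤ (bk D c ⊤) ≤ C := by
  classical
  obtain ⟨C, hC⟩ := rank_bound m r
  refine ⟨C, fun p _ hCp hm V hp G _ _ D c h h0 hr => ?_⟩
  obtain ⟨I⟩ := exists_irrData G
  obtain ⟨i₀, he⟩ := (h.spec hp le_top).1.exists_blockIdem I
  obtain ⟨E, h1, h2, h3, h4⟩ := exists_inertial (D := D) (T := stabT ⊤ D c)
    (fun n hn => hn.2.1) h.Cz_le_stab
  let _ : Fintype D := Fintype.ofFinite _
  let _ : Fintype E := Fintype.ofFinite _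
  have hE : Fintype.card E ≤ m := by
    rw [← Nat.card_eq_fintype_card]
    have h5 := h.inert
    rw [← h1] at h5
    exact Nat.le_of_mul_le_mul_right h5 Nat.card_pos
  have h6 := hC p Fact.out hCp E D _ _ _ hE (msys hp hm h h0 hr he E h1 h2 h3 h4)
  have h7 := rank_orb hp h D.one_mem he
  rw [Cu_one] at h7
  rw [← h7]
  exact h6

end Pool.Agent.Lib.MP_b6945b_al.Bi
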