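import Pool.Agent.Lib.MP_b6945b_al.Bi.BCls
import Pool.Agent.Lib.MP_b6945b_al.Bi.BDom2
import Pool.Agent.Lib.MP_b6945b_al.Bi.BMS

set_option autoImplicit false

/-!
The induction on the order of the group.
-/

namespace Pool.Agent.Lib.MP_b6945b_al.Bi

open St IsLocalRing Finset
open MonoidAlgebra (single)

/-- The weight conjecture for the blocks in question, for groups of order less than `n`. -/
def StA (p m : ℕ) (V : ValuationSubring ℂ) (n : ℕ) : Prop :=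
  ∀ (G : Type) [Group G] [Fintype G], Nat.card G < n → ∀ (D : Subgroup G)
    (c : MonoidAlgebra V G), Rt p m ⊤ D c → lL p ⊤ (bk D c ⊤) = lL p (Nz D) (bk D c (Nz D))

variable {G : Type} [Group G] [Fintype G] {V : ValuationSubring ℂ} {p : ℕ} [Fact p.Prime]
  {m n : ℕ} {M : Ideal (integralClosure ℤ ℂ)} {χ : G → ℂ} {H D : Subgroup G}
  {c : MonoidAlgebra V G}

/-- `Rt.pull`, `Rt.lL_map`, `map_top_sub`, `Rt.map_Nz`. -/
lemma StA.rel (hp : (p : ℂ) ∈ V.nonunits) (hs : StA p m V n) (h : Rt p m H D c)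
    (hH : Nat.card H < n) : lL p H (bk D c H) = lL p (H ⊓ Nz D) (bk D c (H ⊓ Nz D)) := by
  letI : Fintype H := Fintype.ofFinite H
  have h1 := hs H hH _ _ (h.pull hp)
  have h2 := h.lL_map hp (K := ⊤) le_top
  have h3 := h.lL_map hp (K := Nz (D.subgroupOf H)) (Cz_le_Nz _)
  rw [map_top_sub] at h2
  rw [h.map_Nz] at h3
  rw [h2, h3, h1]

/-- `kL_add_lL`, `Rt.cu`. -/
lemma StA.kL_eq (hp : (p : ℂ) ∈ V.nonunits) (hs : StA p m V n) (h : Rt p m ⊤ D c)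
    (hG : Nat.card G < n) : kL ⊤ (bk D c ⊤) = kL (Nz D) (bk D c (Nz D)) := by
  have h1 := kL_add_lL hp h fun d hd _ =>
    hs.rel hp (h.cu hp hd) (lt_of_le_of_lt (Subgroup.card_le_card_group _) hG)
  have h2 := hs G hG D c h
  rw [top_inf_eq] at h1
  omega

/-- `Cl.local`, `Cl.exists_rt`, `StA.kL_eq`. -/
lemma StA.keq (hM : CoefB p M V) (hs : StA p m V n) (h : Cl p m M V χ D) {P L : Subgroup G}
    (hP : IsPGroup p P) (hPL : P ≤ L) (hL : L ≤ Nz P)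
    (hC : ∀ g, (∀ u ∈ P, u * g = g * u) → g ∈ L) (hn : Nat.card L < n) : KEq p M χ D L := by
  intro θ hθ hi D' hD'
  letI : Fintype L := Fintype.ofFinite L
  obtain ⟨h1, h2⟩ := h.local hM hP hPL hL hC hθ hi hD'
  obtain ⟨c', hc, e1, e2⟩ := h1.exists_rt hM
  refine ⟨h2, ?_⟩
  rw [e1, e2]
  exact hs.kL_eq hM.nonunit hc hn

omit [Fact p.Prime] in
lemma bind_card_lt {L : Subgroup G} (hL : L ≠ ⊤) : Nat.card L < Nat.card G :=
  lt_of_le_of_ne (Subgroup.card_le_card_group L) fun e => hL (Subgroup.eq_top_of_card_eq L e)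

omit [Fintype G] [Fact p.Prime] in
lemma bind_cu_ne (hO : ∀ Q : Subgroup G, Q.Normal → IsPGroup p Q → Q = ⊥) (hD : IsPGroup p D)
    {d : G} (hd : d ∈ D) (h1 : d ≠ 1) : Cu d ≠ ⊤ := by
  intro e
  have hn : Nz (Subgroup.zpowers d) = ⊤ := top_le_iff.1 (e.ge.trans (Cz_le_Nz _))
  have h2 := hO _ (Subgroup.normalizer_eq_top_iff.1 hn)
    (hD.to_le ((Subgroup.zpowers_le (H := D)).2 hd))
  exact h1 (Subgroup.zpowers_eq_bot.1 h2)

/-- If `D = ⊥` then `Nz D = ⊤`.  If there is a nontrivial normal `p`-subgroup use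
`Rt.le_of_normal`, `Rt.dom_eq`, `card_quot_lt`.  Otherwise `Cu d ≠ ⊤` for `1 ≠ d ∈ D`, so
`StA.rel` and `Rt.lL_nz_le` apply to `Cu d`; `kL_add_lL`, `Rt.exists_cl`, `cong_of_local` with
`StA.keq`; both numbers of Brauer characters are less than `p` and congruent modulo `p`. -/
theorem StA.step (hM : CoefB p M V) (hm : m < p) {C : ℕ} (hC : C < p)
    (hb : ∀ (G : Type) [Group G] [Fintype G] (D : Subgroup G) (c : MonoidAlgebra V G),
      Rt p m ⊤ D c → D ≠ ⊥ → (∀ d ∈ D, d ≠ 1 → lL p (Cu d) (bk D c (Cu d)) ≤ m) →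
      lL p ⊤ (bk D c ⊤) ≤ C) (hs : StA p m V n) : StA p m V (n + 1) := by
  intro G _ _ hG D c h
  have hp := hM.nonunit
  by_cases hD : D = ⊥
  · subst hD
    rw [show Nz (⊥ : Subgroup G) = ⊤ from Subgroup.normalizer_eq_top ⊥]
  by_cases hO : ∀ Q : Subgroup G, Q.Normal → IsPGroup p Q → Q = ⊥
  · have hlt : ∀ L : Subgroup G, L ≠ ⊤ → Nat.card L < n := fun L hL =>
      lt_of_lt_of_le (bind_card_lt hL) (Nat.lt_succ_iff.1 hG)
    have hrel : ∀ d ∈ D, d ≠ 1 → lL p (⊤ ⊓ Cu d) (bk D c (⊤ ⊓ Cu d)) =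
        lL p (⊤ ⊓ Cu d ⊓ Nz D) (bk D c (⊤ ⊓ Cu d ⊓ Nz D)) := fun d hd h1 =>
      hs.rel hp (h.cu hp hd) (hlt _ (by rw [top_inf_eq]; exact bind_cu_ne hO h.pD hd h1))
    have hT : lL p ⊤ (bk D c ⊤) ≤ C := by
      refine hb G D c h hD fun d hd h1 => ?_
      have h2 := (hrel d hd h1).le.trans ((h.cu hp hd).lL_nz_le hp hm)
      rwa [top_inf_eq] at h2
    have hN := h.lL_nz_le hp hm
    have hA := kL_add_lL hp h hrel
    rw [top_inf_eq] at hN hA
    obtain ⟨χ, hcl, e1, e2⟩ := h.exists_cl hM hD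
    have hdv := cong_of_local hM hcl.irr hcl.defect hD h.comm hO
      fun P L hP hPL hL hC' hne => hs.keq hM hcl hP hPL hL hC' (hlt L hne)
    rw [e1, e2] at hdv
    have h0 := Int.eq_zero_of_abs_lt_dvd hdv (abs_lt.2 ⟨by omega, by omega⟩)
    omega
  · obtain ⟨Q, hQ⟩ := not_forall.1 hO
    obtain ⟨hQn, hQ⟩ := Classical.not_imp.1 hQ
    obtain ⟨hQp, hQ0⟩ := Classical.not_imp.1 hQ
    letI : Fintype (G ⧸ Q) := Fintype.ofFinite _
    have hQD : Q ≤ D := h.le_of_normal hp hQp le_top (Subgroup.normalizer_eq_top Q).ge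
    exact h.dom_eq hp hm hQD fun γ hγ =>
      hs (G ⧸ Q) (lt_of_lt_of_le (card_quot_lt hQ0) (Nat.lt_succ_iff.1 hG)) _ γ hγ

/-- `lL_bound m m`, `exists_val_of_maximal`, induction on `n`, `inB_of_inertiaLE`,
`kr_of_local`, `StA.keq`. -/
theorem kr_sum_bounded (m : ℕ) : ∃ p₀ : ℕ, ∀ (p : ℕ), p.Prime → p₀ < p →
    ∀ (G : Type) [Group G] [Finite G]
      (M : Ideal (integralClosure ℤ ℂ)), M.IsMaximal → (p : integralClosure ℤ ℂ) ∈ M →
      ∀ (χ : G → ℂ), IsIrrChar χ →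
      ∀ (D : Subgroup G), IsDefectGroup p M χ D → D ≠ ⊥ → (∀ x ∈ D, ∀ y ∈ D, x * y = y * x) →
      InertiaLE M χ D m →
      ∑ᶠ (σ : Finset (Subgroup G))
        (_ : IsChain (· ≤ ·) (σ : Set (Subgroup G)) ∧ ∀ P ∈ σ, IsPGroup p P ∧ P ≠ ⊥),
        (-1 : ℤ) ^ σ.card *
          ((Nat.card (⨅ P ∈ σ, Subgroup.normalizer (P : Set G) : Subgroup G) : ℤ) *
            kInd M χ (⨅ P ∈ σ, Subgroup.normalizer (P : Set G))) = 0 := by
  obtain ⟨C, hC⟩ := lL_bound m m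
  refine ⟨max C m, fun p hp hlt G _ _ M hM hpM χ hχ D hD h0 hc hI => ?_⟩
  haveI : Fact p.Prime := ⟨hp⟩
  letI : Fintype G := Fintype.ofFinite G
  obtain ⟨V, hV⟩ := exists_val_of_maximal M hM
  have hB : CoefB p M V := ⟨hp, hM, hpM, hV⟩
  have hC' : C < p := lt_of_le_of_lt (le_max_left _ _) hlt
  have hm : m < p := lt_of_le_of_lt (le_max_right _ _) hlt
  have hst : ∀ n, StA p m V n := by
    intro n
    induction n with
    | zero =>
      intro G _ _ h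
      exact absurd h (Nat.not_lt_zero _)
    | succ n ih => exact StA.step hB hm hC' (hC p hC' hm V hB.nonunit) ih
  have hcl : Cl p m M V χ D := ⟨hχ, hD, h0, hc, fun I i e hi he =>
    inB_of_inertiaLE hB he (IsDefectGroup.isPGroup' hD) (hi ▸ hI)⟩
  exact kr_of_local hB hχ hD h0 fun P L hP hPL hL hC =>
    (hst (Nat.card L + 1)).keq hB hcl hP hPL hL hC (Nat.lt_succ_self _)

end Pool.Agent.Lib.MP_b6945b_al.Bi
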