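import Pool.Agent.Lib.MP_b6945b_al.Bi.BRank
import Pool.Agent.Lib.MP_b6945b_al.Bi.BG2
import Pool.Agent.Lib.MP_b6945b_al.Bi.BG3
import Pool.Agent.Lib.MP_b6945b_al.Bi.BG4
import Pool.Agent.Lib.MP_b6945b_al.Bi.BBC
import Pool.Agent.Lib.MP_b6945b_al.Bi.AFinal

set_option autoImplicit false

/-!
Integrality of the star construction and the formula for the number of characters.
-/

namespace Pool.Agent.Lib.MP_b6945b_al.Bi

open St IsLocalRing Finset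
open MonoidAlgebra (single)

variable {G : Type} [Group G] [Fintype G] {V : ValuationSubring ℂ} {p : ℕ} [Fact p.Prime]

variable {m : ℕ} {H D : Subgroup G} {c₀ : MonoidAlgebra V G} {Λ : G → ℂ}

/-- `green_induction` with `W P i = GW η χ S P i`, then `GW.sc`. -/
theorem sc_star (hp : (p : ℂ) ∈ V.nonunits) (h : Rt p m ⊤ D c₀) (hΛ : SC D Λ)
    (hT : InvT (stabT ⊤ D c₀) D Λ) (I : IrrData G) (j : Fin I.n) {S P : Subgroup G}
    (hS : ¬ p ∣ Nat.card S) (hP : PCom p S P) : SC (P ⊔ S) (Star p (eta D c₀ Λ) (I.χ j)) := by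
  have hb := (h.spec hp (K := ⊤) le_top).1
  exact GW.sc hp (isCF_chi I j) hS hP (eta_supp hp h Λ)
    (green_induction hp hS (bk D c₀ ⊤) (fun P i => GW (eta D c₀ Λ) (I.χ j) S P i)
      (fun P => GW.zero _ _ S P)
      (fun _ _ _ _ _ _ hi hj hij hji a b => GW.add hi hj hij hji a b)
      (fun _ _ _ hP hQ hn hjf hj ho w =>
        GW.ind hp (eta_inv hp h hT) (isCF_chi I j) hS hP hQ hn hjf hj ho w)
      (fun _ _ hP hif hi he hl h0 => GW.loc hp h hΛ hT I j hS hP hif hi he hl h0)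
      P (bk D c₀ ⊤) hP ⟨hb.fix.mono le_top, hb.fix.mono le_top⟩ hb.idem hb.idem)

/-- `sum_dvd_of_sc` for `g ↦ Star η χ g * χ' g⁻¹` (`SC.mul`, `SC.inv`, `sc_chi`, `Star_cf`). -/
theorem mat_int (hp : (p : ℂ) ∈ V.nonunits) (h : Rt p m ⊤ D c₀) (hΛ : SC D Λ)
    (hT : InvT (stabT ⊤ D c₀) D Λ) (I : IrrData G) (i₀ : Fin I.n) (i j : {i // I.Bl V i₀ i}) :
    ∃ z : ℤ, mat p I i₀ (eta D c₀ Λ) i j = z := by
  obtain ⟨z, hz⟩ := sum_dvd_of_sc (p := p)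
    (fun g => Star p (eta D c₀ Λ) (I.χ i) g * I.χ j g⁻¹)
    (fun a g => by
      have h1 := Star_cf (p := p) (eta_inv hp h hT) (isCF_chi I i) a g
      have h2 := isCF_chi I j a g⁻¹
      have h3 : (a * g * a⁻¹)⁻¹ = a * g⁻¹ * a⁻¹ := by group
      simp only [h1, h3, h2])
    (fun S P hS hP => (sc_star hp h hΛ hT I i hS hP).mul (sc_chi I j _).inv)
  refine ⟨z, ?_⟩
  have h0 : (Fintype.card G : ℂ) ≠ 0 := Nat.cast_ne_zero.2 Fintype.card_ne_zero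
  rw [mat, Matrix.of_apply, hz, ← mul_assoc, inv_mul_cancel₀ h0, one_mul]

omit [Fact p.Prime] in
open Classical in
/-- `mat_sum`, `eta_sum`, `eta_congr`, `sum_orb`. -/
theorem sum_mat_orb (D : Subgroup G) (c₀ : MonoidAlgebra V G) (hT : InvT (stabT ⊤ D c₀) D Λ)
    (I : IrrData G) (i₀ : Fin I.n) :
    ∑ d ∈ univ.filter (· ∈ D), ((Nat.card (stabT ⊤ D c₀ ⊓ Cu d : Subgroup G) : ℂ) * Λ d) •
        mat p I i₀ (eta D c₀ (orb (stabT ⊤ D c₀) d)) =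
      (Nat.card (stabT ⊤ D c₀) : ℂ) • mat p I i₀ (eta D c₀ Λ) := by
  rw [← mat_sum]
  have h1 : (fun u c => ∑ d ∈ univ.filter (· ∈ D),
      ((Nat.card (stabT ⊤ D c₀ ⊓ Cu d : Subgroup G) : ℂ) * Λ d) *
        eta D c₀ (orb (stabT ⊤ D c₀) d) u c) =
      fun u c => ∑ _i ∈ (univ : Finset Unit),
        (Nat.card (stabT ⊤ D c₀) : ℂ) * eta D c₀ Λ u c := by
    funext u c
    rw [← eta_sum, ← eta_sum (univ : Finset Unit) (fun _ => (Nat.card (stabT ⊤ D c₀) : ℂ))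
      (fun _ => Λ)]
    refine congrFun (congrFun (eta_congr fun x hx => ?_) u) c
    rw [sum_orb (fun n hn => (mem_stabT.1 hn).2.1) hT hx, Fintype.sum_unique]
  rw [h1, mat_sum (univ : Finset Unit) (fun _ => (Nat.card (stabT ⊤ D c₀) : ℂ))
    (fun _ => eta D c₀ Λ), Fintype.sum_unique]

open Classical in
lemma mat_orb_idem (hp : (p : ℂ) ∈ V.nonunits) (h : Rt p m ⊤ D c₀) {I : IrrData G}
    {i₀ : Fin I.n} (he : IsBlockIdem I i₀ (bk D c₀ ⊤)) (d : G) :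
    mat p I i₀ (eta D c₀ (orb (stabT ⊤ D c₀) d)) * mat p I i₀ (eta D c₀ (orb (stabT ⊤ D c₀) d)) =
      mat p I i₀ (eta D c₀ (orb (stabT ⊤ D c₀) d)) := by
  rw [mat_mul hp he (eta_inv hp h (invT_orb _ _ d)) (eta_supp hp h _)]
  congr 1
  funext u c
  rw [← eta_mul]
  refine congrFun (congrFun (eta_congr fun x _ => ?_) u) c
  by_cases hx : ∃ n ∈ stabT ⊤ D c₀, x = n * d * n⁻¹
  · rw [orb, ind_pos (S := fun x => ∃ n ∈ stabT ⊤ D c₀, x = n * d * n⁻¹) hx, one_mul]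
  · rw [orb, ind_neg (S := fun x => ∃ n ∈ stabT ⊤ D c₀, x = n * d * n⁻¹) hx, zero_mul]

open Classical in
lemma mat_eta_one (hp : (p : ℂ) ∈ V.nonunits) (h : Rt p m ⊤ D c₀) {I : IrrData G}
    {i₀ : Fin I.n} (he : IsBlockIdem I i₀ (bk D c₀ ⊤)) :
    mat p I i₀ (eta D c₀ fun _ => 1) = 1 := by
  exact mat_one hp he fun u c hu hc => eta_one hp h hu hc

open Classical in
/-- Trace of `sum_mat_orb` for `Λ = 1`; `trace_eq_rank`, `rank_orb`, `kL_top`. -/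
theorem kform_top (hp : (p : ℂ) ∈ V.nonunits) (h : Rt p m ⊤ D c₀) :
    Nat.card (stabT ⊤ D c₀) * kL ⊤ (bk D c₀ ⊤) = ∑ d ∈ univ.filter (· ∈ D),
      Nat.card (stabT ⊤ D c₀ ⊓ Cu d : Subgroup G) * lL p (Cu d) (bk D c₀ (Cu d)) := by
  obtain ⟨I⟩ := exists_irrData G
  obtain ⟨i₀, he⟩ := (h.spec hp (K := ⊤) le_top).1.exists_blockIdem I
  have h1 := congrArg Matrix.trace
    (sum_mat_orb (p := p) (Λ := fun _ => 1) D c₀ (fun _ _ _ _ => rfl) I i₀)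
  rw [mat_eta_one hp h he, Matrix.trace_smul, Matrix.trace_one, Matrix.trace_sum,
    Fintype.card_subtype, ← kL_top he] at h1
  have h2 : ∑ d ∈ univ.filter (· ∈ D),
      ((Nat.card (stabT ⊤ D c₀ ⊓ Cu d : Subgroup G) * lL p (Cu d) (bk D c₀ (Cu d)) : ℕ) : ℂ) =
      ((Nat.card (stabT ⊤ D c₀) * kL ⊤ (bk D c₀ ⊤) : ℕ) : ℂ) := by
    rw [Nat.cast_mul, ← smul_eq_mul, ← h1]
    refine sum_congr rfl fun d hd => ?_
    rw [Matrix.trace_smul, trace_eq_rank _ (mat_orb_idem hp h he d),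
      rank_orb hp h (mem_filter.1 hd).2 he, Nat.cast_mul, mul_one, smul_eq_mul]
  rw [← Nat.cast_sum] at h2
  exact (Nat.cast_injective h2).symm

open Classical in
/-- `kform_top` in `↥H` (`Rt.pull`, `Rt.kL_map`, `Rt.lL_map`, `Rt.stab_map`, `map_Cu`,
`Subgroup.map_inf`). -/
theorem kform (hp : (p : ℂ) ∈ V.nonunits) (h : Rt p m H D c₀) :
    Nat.card (stabT H D c₀) * kL H (bk D c₀ H) = ∑ d ∈ univ.filter (· ∈ D),
      Nat.card (stabT H D c₀ ⊓ Cu d : Subgroup G) * lL p (H ⊓ Cu d) (bk D c₀ (H ⊓ Cu d)) := by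
  have h1 := kform_top hp (h.pull hp)
  have h2 := h.kL_map hp (K := ⊤) le_top
  rw [map_top_sub] at h2
  rw [h2, ← h.stab_map, Subgroup.card_map_of_injective H.subtype_injective, h1]
  refine sum_nbij (fun d : H => (d : G)) (fun d hd => ?_) (fun a _ b _ e => Subtype.ext e)
    (fun d hd => ?_) (fun d hd => ?_)
  · exact mem_filter.2 ⟨mem_univ _, (mem_filter.1 hd).2⟩
  · have hd' : d ∈ D := (mem_filter.1 (mem_coe.1 hd)).2
    exact ⟨⟨d, h.le_H hd'⟩, mem_coe.2 (mem_filter.2 ⟨mem_univ _, hd'⟩), rfl⟩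
  · have hd' : d ∈ D.subgroupOf H := (mem_filter.1 hd).2
    have h3 := h.lL_map hp (K := Cu d) (Cz_le_Cu hd')
    rw [map_Cu] at h3
    have h4 : (stabT ⊤ (D.subgroupOf H) (pull V H.subtype c₀)).map H.subtype ⊓ Cu (d : G) =
        (stabT ⊤ (D.subgroupOf H) (pull V H.subtype c₀) ⊓ Cu d).map H.subtype := by
      rw [Subgroup.map_inf _ _ _ H.subtype_injective, map_Cu, ← inf_assoc,
        inf_eq_left.2 (Subgroup.map_subtype_le _)]
    rw [h3, h4, Subgroup.card_map_of_injective H.subtype_injective]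

/-- `kform` for `H` and for `H ⊓ Nz D` (`Rt.nz`, `stabT_inf`); split off the term `d = 1`
(`Cu_one`) and cancel `Nat.card (stabT H D c₀)`. -/
theorem kL_add_lL (hp : (p : ℂ) ∈ V.nonunits) (h : Rt p m H D c₀)
    (hl : ∀ d ∈ D, d ≠ 1 → lL p (H ⊓ Cu d) (bk D c₀ (H ⊓ Cu d)) =
      lL p (H ⊓ Cu d ⊓ Nz D) (bk D c₀ (H ⊓ Cu d ⊓ Nz D))) :
    kL H (bk D c₀ H) + lL p (H ⊓ Nz D) (bk D c₀ (H ⊓ Nz D)) =
      kL (H ⊓ Nz D) (bk D c₀ (H ⊓ Nz D)) + lL p H (bk D c₀ H) := by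
  classical
  have h1 := kform hp h
  have h2 := kform hp (h.nz hp)
  have hm : (1 : G) ∈ univ.filter (· ∈ D) := mem_filter.2 ⟨mem_univ _, D.one_mem⟩
  rw [stabT_inf] at h2
  rw [← add_sum_erase _ _ hm, Cu_one, inf_top_eq, inf_top_eq] at h1 h2
  have h3 : ∑ d ∈ (univ.filter (· ∈ D)).erase 1,
      Nat.card (stabT H D c₀ ⊓ Cu d : Subgroup G) * lL p (H ⊓ Cu d) (bk D c₀ (H ⊓ Cu d)) =
      ∑ d ∈ (univ.filter (· ∈ D)).erase 1, Nat.card (stabT H D c₀ ⊓ Cu d : Subgroup G) *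
        lL p (H ⊓ Nz D ⊓ Cu d) (bk D c₀ (H ⊓ Nz D ⊓ Cu d)) := by
    refine sum_congr rfl fun d hd => ?_
    rw [hl d (mem_filter.1 (mem_erase.1 hd).2).2 (mem_erase.1 hd).1, inf_right_comm]
  have h0 : 0 < Nat.card (stabT H D c₀) := Nat.card_pos
  refine Nat.eq_of_mul_eq_mul_left h0 ?_
  rw [mul_add, mul_add, h1, h2, h3]
  ring

end Pool.Agent.Lib.MP_b6945b_al.Bi
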