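import Pool.Agent.Lib.MP_b6945b_al.Bi.BMax

set_option autoImplicit false

/-!
Labelling of Brauer elements by orbits on the defect group.
-/

namespace Pool.Agent.Lib.MP_b6945b_al.Bi

open St IsLocalRing Finset
open MonoidAlgebra (single)

variable {G : Type} [Group G] [Fintype G] {V : ValuationSubring ℂ} {p : ℕ} [Fact p.Prime]

variable {m : ℕ} {D : Subgroup G} {c₀ c : MonoidAlgebra V G} {u d d' : G} {Λ Λ' : G → ℂ}

omit [Fact p.Prime] in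
lemma Rt.pelt {H : Subgroup G} (h : Rt p m H D c₀) (hd : d ∈ D) : IsPElt p d := by
  obtain ⟨k, hk⟩ := h.pD ⟨d, hd⟩
  exact ⟨k, by simpa using congrArg Subtype.val hk⟩

omit [Fact p.Prime] [Fintype G] in
lemma pgroup_zpowers (hu : IsPElt p u) : IsPGroup p (Subgroup.zpowers u) := by
  obtain ⟨k, hk⟩ := hu
  rintro ⟨x, n, rfl⟩
  refine ⟨k, Subtype.ext ?_⟩
  change (u ^ n) ^ (p ^ k) = 1
  rw [← zpow_natCast, ← zpow_mul, mul_comm, zpow_mul, zpow_natCast, hk, one_zpow]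

lemma Rt.cu_top (hp : (p : ℂ) ∈ V.nonunits) (h : Rt p m ⊤ D c₀) (hd : d ∈ D) :
    Rt p m (Cu d) D c₀ := by
  have := h.cu hp hd
  rwa [top_inf_eq] at this

lemma Rt.hb_cu (hp : (p : ℂ) ∈ V.nonunits) (h : Rt p m ⊤ D c₀) (hd : d ∈ D) :
    HB (Cu d) (bk D c₀ (Cu d)) := by
  exact (h.spec hp (Cz_le_Cu hd)).1

omit [Fact p.Prime] in
lemma lab_self (hd : d ∈ D) : Lab D c₀ d (bk D c₀ (Cu d)) d := by
  exact ⟨hd, 1, by simp, by rw [map_one]; rfl⟩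

omit [Fact p.Prime] in
lemma Lab.conj (h : Lab D c₀ u c d) (g : G) : Lab D c₀ (g * u * g⁻¹) (cjRep V G g c) d := by
  obtain ⟨hd, x, hu, hc⟩ := h
  exact ⟨hd, g * x, by rw [hu]; group, by rw [hc, frpg_cj_cj]⟩

/-- `Rt.bk_conj`, `Cu_conj`. -/
lemma Rt.bk_T (hp : (p : ℂ) ∈ V.nonunits) (h : Rt p m ⊤ D c₀) (hd : d ∈ D) {n : G}
    (hn : n ∈ stabT ⊤ D c₀) :
    bk D c₀ (Cu (n * d * n⁻¹)) = cjRep V G n (bk D c₀ (Cu d)) := by
  have := h.bk_conj hp (Cz_le_Cu hd) n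
  rwa [cg_eq_iff.2 hn.2.1, hn.2.2, ← Cu_conj] at this

lemma Lab.T (hp : (p : ℂ) ∈ V.nonunits) (h : Rt p m ⊤ D c₀) (hl : Lab D c₀ u c d) {n : G}
    (hn : n ∈ stabT ⊤ D c₀) : Lab D c₀ u c (n * d * n⁻¹) := by
  obtain ⟨hd, g, hu, hc⟩ := hl
  refine ⟨(hn.2.1 d).1 hd, g * n⁻¹, by rw [hu]; group, ?_⟩
  rw [h.bk_T hp hd hn, frpg_cj_cj, inv_mul_cancel_right, hc]

lemma Lab.hb (hp : (p : ℂ) ∈ V.nonunits) (h : Rt p m ⊤ D c₀) (hl : Lab D c₀ u c d) :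
    IsPElt p u ∧ HB (Cu u) c := by
  obtain ⟨hd, g, hu, hc⟩ := hl
  rw [hu, hc, Cu_conj]
  exact ⟨(h.pelt hd).conj g, (h.hb_cu hp hd).conj g⟩

/-- Write `d' = x d x⁻¹`, `b d' = cj x (b d)`.  `Rt.root_conj` in `Cu d'` for the pair
`(cg x D, cj x c₀)` gives `g₁ ∈ Cu d'` with `n = g₁⁻¹ x ∈ T`. -/
theorem Lab.fusion (hp : (p : ℂ) ∈ V.nonunits) (h : Rt p m ⊤ D c₀) (hl : Lab D c₀ u c d)
    (hl' : Lab D c₀ u c d') : ∃ n ∈ stabT ⊤ D c₀, d' = n * d * n⁻¹ := by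
  obtain ⟨hd, g, hu, hc⟩ := hl
  obtain ⟨hd', g', hu', hc'⟩ := hl'
  have hx : d' = (g'⁻¹ * g) * d * (g'⁻¹ * g)⁻¹ := by
    have e : d' = g'⁻¹ * (g' * d' * g'⁻¹) * g' := by group
    rw [e, ← hu', hu]; group
  have hb : bk D c₀ (Cu d') = cjRep V G (g'⁻¹ * g) (bk D c₀ (Cu d)) := by
    rw [← frpg_cj_cj, ← hc, hc', frpg_inv_cj]
  generalize g'⁻¹ * g = x at hx hb
  have h2 : Rt p m (Cu d') (cg x D) (cjRep V G x c₀) := by
    have := (h.cu_top hp hd).conj hp x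
    rwa [← Cu_conj, ← hx] at this
  have hroot : HB (Cu d' ⊓ Cz (cg x D)) (cjRep V G x c₀) := by
    rw [inf_eq_right.2 h2.le]
    exact h2.root
  have hle : Le (cg x D) (bk D c₀ (Cu d')) (cjRep V G x c₀) := by
    rw [hb]
    exact (h.spec hp (Cz_le_Cu hd)).2.cj x
  obtain ⟨g₁, hg₁, hD, hcc⟩ := (h.cu_top hp hd').root_conj hp h2.pD h2.le_H
    (card_cg x D).ge hroot hle
  refine ⟨g₁⁻¹ * x, ⟨Subgroup.mem_top _, ?_, ?_⟩, ?_⟩
  · rw [← cg_eq_iff, ← cg_cg, hD, cg_cg, inv_mul_cancel, cg_one]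
  · rw [← frpg_cj_cj, hcc, frpg_inv_cj]
  · have e : g₁⁻¹ * x * d * (g₁⁻¹ * x)⁻¹ = g₁⁻¹ * ((x * d * x⁻¹) * g₁) := by group
    rw [e, ← hx, mem_Cu.1 hg₁, inv_mul_cancel_left]

lemma Lab.same (hp : (p : ℂ) ∈ V.nonunits) (h : Rt p m ⊤ D c₀) {c' : MonoidAlgebra V G}
    (hl : Lab D c₀ u c d) (hl' : Lab D c₀ u c' d) : c = c' := by
  obtain ⟨hd, g, hu, hc⟩ := hl
  obtain ⟨-, g', hu', hc'⟩ := hl'
  have hx : g'⁻¹ * g ∈ Cu d := by
    rw [mem_Cu]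
    have e : d * (g'⁻¹ * g) = g'⁻¹ * (g' * d * g'⁻¹) * g := by group
    rw [e, ← hu', hu]; group
  have := (h.hb_cu hp hd).fix _ hx
  rw [hc, hc', ← mul_inv_cancel_left g' g, ← frpg_cj_cj, this]

/-- `Rt.below` and `Le.cj`; conversely `Rt.max_pair_top`, `Rt.bk_eq`. -/
theorem lab_iff (hp : (p : ℂ) ∈ V.nonunits) (h : Rt p m ⊤ D c₀) (hu : IsPElt p u)
    (hc : HB (Cu u) c) :
    (∃ d, Lab D c₀ u c d) ↔ Le (Subgroup.zpowers u) (bk D c₀ ⊤) c := by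
  constructor
  · rintro ⟨d, hd, g, hu', hc'⟩
    have h1 : Le (Subgroup.zpowers d) (bk D c₀ ⊤) (bk D c₀ (Cu d)) :=
      h.below hp (Subgroup.zpowers_le.2 hd) le_top inf_le_right le_top (Cz_le_Nz _)
    have h2 := h1.cj g
    rw [(h.spec hp le_top).1.fix g (Subgroup.mem_top g), ← zpowers_conj, ← hu', ← hc'] at h2
    exact h2
  · intro hl
    obtain ⟨g, hg, hle⟩ := h.max_pair_top hp (pgroup_zpowers hu) hc hl
    have hug : u ∈ cg g D := hg (Subgroup.mem_zpowers u)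
    have hd : g⁻¹ * u * g ∈ D := mem_cg.1 hug
    have e : u = g * (g⁻¹ * u * g) * g⁻¹ := by group
    refine ⟨g⁻¹ * u * g, hd, g, e, ?_⟩
    rw [← h.bk_conj hp (Cz_le_Cu hd) g, ← Cu_conj, ← e]
    exact ((h.conj hp g).bk_eq hp (Cz_le_Cu hug) hc hle).symm

lemma eta_of_lab (hp : (p : ℂ) ∈ V.nonunits) (h : Rt p m ⊤ D c₀)
    (hΛ : InvT (stabT ⊤ D c₀) D Λ) (hl : Lab D c₀ u c d) : eta D c₀ Λ u c = Λ d := by
  have hex : ∃ d, Lab D c₀ u c d := ⟨d, hl⟩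
  obtain ⟨n, hn, e⟩ := Lab.fusion hp h hl hex.choose_spec
  rw [eta, dif_pos hex, e]
  exact hΛ n hn d hl.1

omit [Fact p.Prime] in
lemma eta_of_not (h : ¬ ∃ d, Lab D c₀ u c d) : eta D c₀ Λ u c = 0 := by
  rw [eta, dif_neg h]

lemma eta_inv (hp : (p : ℂ) ∈ V.nonunits) (h : Rt p m ⊤ D c₀) (hΛ : InvT (stabT ⊤ D c₀) D Λ) :
    EtaInv (eta D c₀ Λ) := by
  intro g u c
  by_cases hex : ∃ d, Lab D c₀ u c d
  · obtain ⟨d, hl⟩ := hex
    rw [eta_of_lab hp h hΛ hl, eta_of_lab hp h hΛ (hl.conj g)]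
  · rw [eta_of_not hex, eta_of_not]
    rintro ⟨d, hl⟩
    have h1 := hl.conj g⁻¹
    have e : g⁻¹ * (g * u * g⁻¹) * g⁻¹⁻¹ = u := by group
    rw [e, frpg_inv_cj] at h1
    exact hex ⟨d, h1⟩

lemma eta_supp (hp : (p : ℂ) ∈ V.nonunits) (h : Rt p m ⊤ D c₀) (Λ : G → ℂ) :
    ∀ u c, eta D c₀ Λ u c ≠ 0 → Le (Subgroup.zpowers u) (bk D c₀ ⊤) c := by
  intro u c h0
  by_cases hex : ∃ d, Lab D c₀ u c d
  · obtain ⟨hu, hc⟩ := Lab.hb hp h hex.choose_spec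
    exact (lab_iff hp h hu hc).1 hex
  · exact absurd (eta_of_not hex) h0

open Classical in
lemma eta_one (hp : (p : ℂ) ∈ V.nonunits) (h : Rt p m ⊤ D c₀) (hu : IsPElt p u)
    (hc : HB (Cu u) c) : eta D c₀ (fun _ => 1) u c =
      if Le (Subgroup.zpowers u) (bk D c₀ ⊤) c then 1 else 0 := by
  by_cases hex : ∃ d, Lab D c₀ u c d
  · rw [if_pos ((lab_iff hp h hu hc).1 hex), eta, dif_pos hex]
  · rw [if_neg fun hl => hex ((lab_iff hp h hu hc).2 hl), eta_of_not hex]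

omit [Fact p.Prime] in
lemma eta_congr (h : ∀ d ∈ D, Λ d = Λ' d) : eta D c₀ Λ = eta D c₀ Λ' := by
  funext u c
  by_cases hex : ∃ d, Lab D c₀ u c d
  · rw [eta, eta, dif_pos hex, dif_pos hex]
    exact h _ hex.choose_spec.1
  · rw [eta_of_not hex, eta_of_not hex]

omit [Fact p.Prime] in
lemma eta_mul (Λ Λ' : G → ℂ) (u : G) (c : MonoidAlgebra V G) :
    eta D c₀ (fun d => Λ d * Λ' d) u c = eta D c₀ Λ u c * eta D c₀ Λ' u c := by
  by_cases hex : ∃ d, Lab D c₀ u c d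
  · rw [eta, eta, eta, dif_pos hex, dif_pos hex, dif_pos hex]
  · rw [eta_of_not hex, eta_of_not hex, zero_mul]

omit [Fact p.Prime] in
lemma eta_zero : eta D c₀ (fun _ => 0) = fun _ _ => 0 := by
  funext u c
  by_cases hex : ∃ d, Lab D c₀ u c d
  · rw [eta, dif_pos hex]
  · rw [eta_of_not hex]

omit [Fact p.Prime] in
lemma eta_sum {ι : Type} (s : Finset ι) (a : ι → ℂ) (F : ι → G → ℂ) (u : G)
    (c : MonoidAlgebra V G) :
    eta D c₀ (fun d => ∑ i ∈ s, a i * F i d) u c = ∑ i ∈ s, a i * eta D c₀ (F i) u c := by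
  by_cases hex : ∃ d, Lab D c₀ u c d
  · rw [eta, dif_pos hex]
    refine Finset.sum_congr rfl fun i _ => ?_
    rw [eta, dif_pos hex]
  · rw [eta_of_not hex]
    refine (Finset.sum_eq_zero fun i _ => ?_).symm
    rw [eta_of_not hex, mul_zero]

omit [Fact p.Prime] in
lemma eta_star (Λ : G → ℂ) (u : G) (c : MonoidAlgebra V G) :
    (starRingEnd ℂ) (eta D c₀ Λ u c) = eta D c₀ (fun d => (starRingEnd ℂ) (Λ d)) u c := by
  by_cases hex : ∃ d, Lab D c₀ u c d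
  · rw [eta, eta, dif_pos hex, dif_pos hex]
  · rw [eta_of_not hex, eta_of_not hex, map_zero]

omit [Fact p.Prime] [Fintype G] in
lemma blab_orb_pos {T : Subgroup G} {x : G} (h : ∃ k ∈ T, x = k * d * k⁻¹) : orb T d x = 1 :=
  ind_pos (S := fun x => ∃ n ∈ T, x = n * d * n⁻¹) h

omit [Fact p.Prime] [Fintype G] in
lemma blab_orb_neg {T : Subgroup G} {x : G} (h : ¬ ∃ k ∈ T, x = k * d * k⁻¹) : orb T d x = 0 :=
  ind_neg (S := fun x => ∃ n ∈ T, x = n * d * n⁻¹) h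

omit [Fact p.Prime] [Fintype G] in
lemma invT_orb (T D : Subgroup G) (d : G) : InvT T D (orb T d) := by
  intro n hn x _
  by_cases hx : ∃ k ∈ T, x = k * d * k⁻¹
  · rw [blab_orb_pos hx, blab_orb_pos]
    obtain ⟨k, hk, e⟩ := hx
    exact ⟨n * k, T.mul_mem hn hk, by rw [e]; group⟩
  · rw [blab_orb_neg hx, blab_orb_neg]
    rintro ⟨k, hk, e⟩
    refine hx ⟨n⁻¹ * k, T.mul_mem (T.inv_mem hn) hk, ?_⟩
    have e' : x = n⁻¹ * (n * x * n⁻¹) * n := by group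
    rw [e', e]; group

omit [Fact p.Prime] [Fintype G] in
lemma orb_conj {T : Subgroup G} {n : G} (hn : n ∈ T) (d : G) :
    orb T (n * d * n⁻¹) = orb T d := by
  unfold orb
  congr 1
  funext x
  refine propext ⟨?_, ?_⟩
  · rintro ⟨k, hk, e⟩
    exact ⟨k * n, T.mul_mem hk hn, by rw [e]; group⟩
  · rintro ⟨k, hk, e⟩
    exact ⟨k * n⁻¹, T.mul_mem hk (T.inv_mem hn), by rw [e]; group⟩

open Classical in
lemma eta_orb (hp : (p : ℂ) ∈ V.nonunits) (h : Rt p m ⊤ D c₀) (hd : d ∈ D) (u : G)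
    (c : MonoidAlgebra V G) :
    eta D c₀ (orb (stabT ⊤ D c₀) d) u c = if Lab D c₀ u c d then 1 else 0 := by
  by_cases hl : Lab D c₀ u c d
  · rw [if_pos hl, eta_of_lab hp h (invT_orb _ _ _) hl, orb, ind_pos]
    exact ⟨1, Subgroup.one_mem _, by simp⟩
  · rw [if_neg hl]
    by_cases hex : ∃ d, Lab D c₀ u c d
    · obtain ⟨d', hl'⟩ := hex
      rw [eta_of_lab hp h (invT_orb _ _ _) hl', orb, ind_neg]
      rintro ⟨n, hn, e⟩
      have h1 := Lab.T hp h hl' (Subgroup.inv_mem _ hn)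
      have e' : n⁻¹ * d' * n⁻¹⁻¹ = d := by rw [e]; group
      rw [e'] at h1
      exact hl h1
    · exact eta_of_not hex

omit [Fact p.Prime] in
open Classical in
/-- Orbit counting: for `x ∈ D` count the pairs `(d, n)` with `n ∈ T`, `x = n d n⁻¹`; for `d` in
the orbit of `x` there are `|T ⊓ Cu d|` such `n`. -/
lemma sum_orb {T : Subgroup G} (hT : T ≤ Nz D) (hΛ : InvT T D Λ) {x : G} (hx : x ∈ D) :
    ∑ d ∈ univ.filter (· ∈ D), ((Nat.card (T ⊓ Cu d : Subgroup G) : ℂ) * Λ d) * orb T d x =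
      Nat.card T * Λ x := by
  have h1 : ∀ d ∈ univ.filter (· ∈ D),
      ((Nat.card (T ⊓ Cu d : Subgroup G) : ℂ) * Λ d) * orb T d x =
        (((univ.filter (· ∈ T)).filter fun n => n⁻¹ * x * n = d).card : ℂ) * Λ x := by
    intro d hd
    have hd' : d ∈ D := (Finset.mem_filter.1 hd).2
    by_cases hex : ∃ k ∈ T, x = k * d * k⁻¹
    · rw [blab_orb_pos hex, mul_one]
      obtain ⟨k, hk, e⟩ := hex
      have e1 : Λ x = Λ d := by rw [e]; exact hΛ k hk d hd'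
      rw [e1]
      congr 2
      have e2 : Nat.card (T ⊓ Cu d : Subgroup G) =
          (univ.filter fun n => n ∈ (T ⊓ Cu d : Subgroup G)).card := by
        rw [Nat.card_eq_fintype_card, Fintype.card_subtype]
      rw [e2]
      refine Finset.card_bij (fun n _ => k * n) ?_ ?_ ?_
      · intro n hn
        have hn' : n ∈ (T ⊓ Cu d : Subgroup G) := (Finset.mem_filter.1 hn).2
        refine Finset.mem_filter.2 ⟨Finset.mem_filter.2 ⟨Finset.mem_univ _, T.mul_mem hk hn'.1⟩, ?_⟩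
        have e3 : (k * n)⁻¹ * (k * d * k⁻¹) * (k * n) = n⁻¹ * (d * n) := by group
        rw [e, e3, mem_Cu.1 hn'.2, inv_mul_cancel_left]
      · intro a _ b _ hab
        exact mul_left_cancel hab
      · intro b hb
        obtain ⟨hb1, hb2⟩ := Finset.mem_filter.1 hb
        have hbT : b ∈ T := (Finset.mem_filter.1 hb1).2
        refine ⟨k⁻¹ * b, Finset.mem_filter.2 ⟨Finset.mem_univ _,
          Subgroup.mem_inf.2 ⟨T.mul_mem (T.inv_mem hk) hbT, mem_Cu.2 ?_⟩⟩, by group⟩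
        have e3 : d * (k⁻¹ * b) = k⁻¹ * b * (b⁻¹ * (k * d * k⁻¹) * b) := by group
        rw [e3, ← e, hb2]
    · rw [blab_orb_neg hex, mul_zero, Finset.filter_eq_empty_iff.2, Finset.card_empty,
        Nat.cast_zero, zero_mul]
      intro n hn e
      exact hex ⟨n, (Finset.mem_filter.1 hn).2, by rw [← e]; group⟩
  rw [Finset.sum_congr rfl h1, ← Finset.sum_mul, ← Nat.cast_sum,
    ← Finset.card_eq_sum_card_fiberwise (f := fun n => n⁻¹ * x * n)]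
  · rw [Nat.card_eq_fintype_card, Fintype.card_subtype]
  · intro n hn
    have hn' : n ∈ T := (Finset.mem_filter.1 hn).2
    have := (hT (T.inv_mem hn') x).1 hx
    rw [inv_inv] at this
    exact Finset.mem_filter.2 ⟨Finset.mem_univ _, this⟩

end Pool.Agent.Lib.MP_b6945b_al.Bi
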