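import Pool.Agent.Lib.MP_b6945b_al.St.FrPG
import Pool.Agent.Lib.MP_b6945b_al.St.KR1b

set_option autoImplicit false

/-!
Block idempotents and induced blocks; defect groups of blocks of local subgroups.
-/

namespace Pool.Agent.Lib.MP_b6945b_al.St

section one

open IsLocalRing
open MonoidAlgebra (single)

lemma toRes_cjB {R G : Type} [CommRing R] [IsLocalRing R] [Group G] (g : G)
    (a : MonoidAlgebra R G) :
    toRes R G (cjRep R G g a) = cjRep (ResidueField R) G g (toRes R G a) := by
  ext x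
  rw [coeff_cjRep, coeff_toRes, coeff_toRes, coeff_cjRep]

section ring

variable {R G : Type} [CommRing R] [IsLocalRing R] [Group G] [Fintype G] {p : ℕ}
  {e : MonoidAlgebra R G}

omit [IsLocalRing R] [Fintype G] in
lemma bic_inc_cj {A : Type} [Group A] (φ : A →* G) (a : A) (b : MonoidAlgebra R A) :
    inc R φ (cjRep R A a b) = cjRep R G (φ a) (inc R φ b) := by
  rw [cjRep_apply, cjRep_apply, map_mul, map_mul, inc_single, inc_single, map_inv]

omit [IsLocalRing R] [Fintype G] in
lemma bic_fix_inc {L : Subgroup G} [Fintype L] {b : MonoidAlgebra R L}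
    (hb : ∀ c, b * c = c * b) {P : Subgroup G} (hPL : P ≤ L) :
    FixedBy (cjRep R G) P (inc R L.subtype b) := by
  intro u hu
  have h1 := bic_inc_cj L.subtype ⟨u, hPL hu⟩ b
  rw [fixedBy_top_iff.2 hb _ trivial] at h1
  exact h1.symm

omit [IsLocalRing R] in
lemma bic_fix_cent {b : MonoidAlgebra R G} (hb : ∀ c, b * c = c * b) (P : Subgroup G) :
    FixedBy (cjRep R G) P b := fun g _ => fixedBy_top_iff.2 hb g trivial

omit [IsLocalRing R] in
lemma bic_pull_cent {A : Type} [Group A] [Fintype A] (φ : A →* G) {b : MonoidAlgebra R G}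
    (hb : ∀ c, b * c = c * b) : ∀ c, pull R φ b * c = c * pull R φ b := by
  refine fixedBy_top_iff.1 fun a _ => ?_
  rw [← pull_cjRep, fixedBy_top_iff.2 hb _ trivial]

omit [IsLocalRing R] [Fintype G] in
lemma bic_supp_inc {L : Subgroup G} {S : Set G} {b : MonoidAlgebra R L}
    (hb : ∀ y : L, b.coeff y ≠ 0 → ∀ s ∈ S, (y : G) * s = s * y) :
    SuppCent S (inc R L.subtype b) := by
  intro x hx
  by_cases h : x ∈ L.subtype.range
  · obtain ⟨y, rfl⟩ := h
    rw [coeff_inc L.subtype_injective] at hx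
    exact hb y hx
  · exact absurd (coeff_inc_of_notMem _ _ h) hx

omit [IsLocalRing R] [Fintype G] in
lemma bic_supp_range {L : Subgroup G} {S : Set G} (hC : Subgroup.centralizer S ≤ L)
    {b : MonoidAlgebra R G} (hb : SuppCent S b) : ∀ g, b.coeff g ≠ 0 → g ∈ L.subtype.range := by
  intro g hg
  rw [Subgroup.range_subtype]
  exact hC (frpg_cent.1 (hb g hg))

omit [IsLocalRing R] in
lemma bic_brT_inc {L : Subgroup G} [Fintype L] (D : Subgroup L) (b : MonoidAlgebra R L) :
    brT R ((D.map L.subtype : Subgroup G) : Set G) (inc R L.subtype b) =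
      inc R L.subtype (brT R (D : Set L) b) := by
  ext x
  by_cases h : x ∈ L.subtype.range
  · obtain ⟨y, rfl⟩ := h
    rw [coeff_inc L.subtype_injective]
    by_cases e : ∀ s ∈ (D : Set L), y * s = s * y
    · rw [(coeff_brT _ b y).trans (if_pos e), coeff_brT, coeff_inc L.subtype_injective, if_pos]
      rintro _ ⟨t, ht, rfl⟩
      exact congrArg Subtype.val (e t ht)
    · rw [(coeff_brT _ b y).trans (if_neg e), coeff_brT, if_neg]
      exact fun e' => e fun s hs => Subtype.ext (e' s ⟨s, hs, rfl⟩)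
  · rw [coeff_brT, coeff_inc_of_notMem _ _ h, coeff_inc_of_notMem _ _ h, ite_self]

omit [Fintype G] in
lemma bic_nil_of_inc {L : Subgroup G} [Fintype L] {b : MonoidAlgebra R L}
    (h : NilR R (inc R L.subtype b)) : NilR R b := by
  obtain ⟨n, hn⟩ := h
  refine ⟨n, ?_⟩
  have h1 := idem_inMax_map (pull R L.subtype) hn
  rwa [← map_pow, pull_inc L.subtype_injective] at h1

end ring

variable {G : Type} [Group G] [Fintype G] {V : ValuationSubring ℂ} {p : ℕ} [Fact p.Prime]
  {I : IrrData G} {i : Fin I.n} {e : MonoidAlgebra V G}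

omit [Fintype G] in
lemma bic_cf_sub (a b : MonoidAlgebra V G) : cf (a - b) = cf a - cf b := by
  funext x
  simp [cf]

omit [Fintype G] in
lemma bic_cf_smul (v : V) (a : MonoidAlgebra V G) : cf (v • a) = (v : ℂ) • cf a := by
  funext x
  simp [cf]

lemma bic_om_mul (I : IrrData G) (l : Fin I.n) {a b : MonoidAlgebra V G}
    (ha : ∀ c, a * c = c * a) (hb : ∀ c, b * c = c * b) :
    I.om l (cf (a * b)) = I.om l (cf a) * I.om l (cf b) := by
  rw [cf_mul, I.om_conv l (isCF_cf_iff.2 ha) (isCF_cf_iff.2 hb)]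

omit [Fact p.Prime] in
/-- Otherwise choose for every `l` a central `z l` that is nilpotent on `j` with `om l (z l)` a
unit `c l`.  Then `w = ∏ (c l - z l)` is central and killed by all central characters, so nilpotent
(`nilR_of_om`), while `w * j` is a unit multiple of `j` up to a nilpotent element commuting with
`j`.  So `j` is nilpotent, hence zero (`NilR.eq_zero`). -/
lemma exists_om_of_idemB (I : IrrData G) {j : MonoidAlgebra V G} (hj : j * j = j) (h0 : j ≠ 0) :
    ∃ l, ∀ z : MonoidAlgebra V G, (∀ b, z * b = b * z) → NilR V (z * j) →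
      I.om l (cf z) ∈ V.nonunits := by
  classical
  by_contra hno
  have h1 : ∀ l, ∃ z : MonoidAlgebra V G, (∀ b, z * b = b * z) ∧ NilR V (z * j) ∧
      I.om l (cf z) = 1 := by
    intro l
    by_contra h2
    refine hno ⟨l, fun z hz hn => ?_⟩
    by_contra h3
    refine h2 ⟨(⟨_, inv_mem_of_not_nonunit h3⟩ : V) • z, fun b => ?_, ?_, ?_⟩
    · rw [smul_mul_assoc, mul_smul_comm, hz]
    · rw [smul_mul_assoc]
      exact hn.smul _
    · rw [bic_cf_smul, I.om_smul]
      exact inv_mul_cancel₀ fun e0 => h3 (e0 ▸ zero_mem _)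
  have h2 : ∀ s : Finset (Fin I.n), ∃ w : MonoidAlgebra V G, (∀ b, w * b = b * w) ∧
      NilR V (j - w * j) ∧ ∀ l ∈ s, I.om l (cf w) = 0 := by
    intro s
    induction s using Finset.induction_on with
    | empty => exact ⟨1, fun b => by rw [one_mul, mul_one], ⟨1, by
        rw [one_mul, sub_self, pow_one]; exact Submodule.zero_mem _⟩, fun l hl => absurd hl
        (Finset.notMem_empty l)⟩
    | insert k s _ ih =>
      obtain ⟨w, hw, hn, ho⟩ := ih
      obtain ⟨z, hz, hzn, hzo⟩ := h1 k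
      have hz' : ∀ b, (1 - z) * b = b * (1 - z) := fun b => by
        rw [sub_mul, mul_sub, one_mul, mul_one, hz]
      refine ⟨w * (1 - z), fun b => by rw [mul_assoc, hz', ← mul_assoc, hw, mul_assoc], ?_,
        fun l hl => ?_⟩
      · have cw : ∀ b, Commute w b := hw
        have cz : ∀ b, Commute z b := hz
        have e1 : j - w * (1 - z) * j = (j - w * j) + z * j * w := by
          rw [← hw (z * j), mul_sub, mul_one, sub_mul, mul_assoc]
          abel
        rw [e1]
        refine hn.add (hzn.mul_right (hw _).symm) ?_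
        have c1 : Commute j (z * j * w) :=
          ((cz j).symm.mul_right (Commute.refl j)).mul_right (cw j).symm
        exact (c1.sub_left ((cw _).mul_left c1)).eq
      · rw [bic_om_mul I l hw hz']
        rcases Finset.mem_insert.1 hl with rfl | hl
        · rw [bic_cf_sub, I.om_sub, blkE_cf_one, I.om_one, hzo, sub_self, mul_zero]
        · rw [ho l hl, zero_mul]
  obtain ⟨w, hw, hn, ho⟩ := h2 Finset.univ
  have h3 : NilR V (w * j) :=
    (nilR_of_om I hw fun l => by rw [ho l (Finset.mem_univ l)]; exact zero_mem _).mul_right (hw j)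
  have cw : ∀ b, Commute w b := hw
  have c1 : Commute j (w * j) := (cw j).symm.mul_right (Commute.refl j)
  have h4 := hn.add h3 (c1.sub_left (Commute.refl _)).eq
  rw [sub_add_cancel] at h4
  exact h0 (h4.eq_zero hj)

omit [Fact p.Prime] in
/-- `nilR_of_om`, `blkE_om_mul`, `om_mem_Lam`. -/
lemma IsBlockIdem.nil_subB (he : IsBlockIdem I i e) {z : MonoidAlgebra V G}
    (hz : ∀ b, z * b = b * z) {v : V} (hv : I.om i (cf z) - v ∈ V.nonunits) :
    NilR V (z * e - v • e) := by
  have hc := he.isBlock.cent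
  have hz' := isCF_cf_iff.2 hz
  refine nilR_of_om I (fun b => ?_) fun l => ?_
  · rw [sub_mul, mul_sub, smul_mul_assoc, mul_smul_comm, hc b, mul_assoc, hc b, ← mul_assoc,
      hz b, mul_assoc]
  · rw [bic_cf_sub, bic_cf_smul, I.om_sub, I.om_smul, blkE_om_mul he hz', he, I.om_zf,
      ← sub_mul]
    by_cases hl : I.Bl V i l
    · rw [ind_pos hl, mul_one]
      have h1 := add_mem (hl _ (I.om_mem_Lam hz' (cf_mem z))) hv
      rwa [sub_add_sub_cancel] at h1
    · rw [ind_neg hl, mul_zero]
      exact zero_mem _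

/-- `z = pull L.subtype (brT P e)` is central in the group algebra of `L`, idempotent modulo the
maximal ideal (`brT_mul`), and `om i' z` is congruent to `1` (`IndV.om`, `IrrData.om_nil`,
`blkF_om_self`).  So `z e' - e'` is nilpotent (`IsBlockIdem.nil_subB`) and `e' - z e'` is idempotent
modulo the maximal ideal, so it lies in it.  Finally `brT P (e * inc e')` is congruent to
`brT P e * brT P (inc e') = brT P (brT P e * inc e')`. -/
theorem IndV.belowB (hp : (p : ℂ) ∈ V.nonunits) (he : IsBlockIdem I i e) {P L : Subgroup G}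
    [Fintype L] (hP : IsPGroup p P) (hPL : P ≤ L) (hL : L ≤ Subgroup.normalizer (P : Set G))
    (hC : ∀ g, (∀ u ∈ P, u * g = g * u) → g ∈ L) {I' : IrrData L} {i' : Fin I'.n}
    (hi : IndV V I i I' i') {e' : MonoidAlgebra V L} (he' : IsBlockIdem I' i' e') :
    InMax V (brT V (P : Set G) (e * inc V L.subtype e' - inc V L.subtype e')) := by
  have hpp : p.Prime := Fact.out
  have hb := he.isBlock
  have hb' := he'.isBlock
  have hCL : Subgroup.centralizer (P : Set G) ≤ L := fun g hg => hC g hg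
  have hsup := bic_supp_range hCL (suppCent_brT (P : Set G) e)
  obtain ⟨z, hz⟩ : ∃ z, z = pull V L.subtype (brT V (P : Set G) e) := ⟨_, rfl⟩
  have h1 : inc V L.subtype z = brT V (P : Set G) e := by
    rw [hz]
    exact inc_pull L.subtype_injective hsup
  have h2 : ∀ b, z * b = b * z := by
    refine fixedBy_top_iff.1 fun a _ => ?_
    rw [hz, ← pull_cjRep, ← frpg_brT_cj (S' := (P : Set G)), fixedBy_top_iff.2 hb.cent _ trivial]
    · exact fun s hs => (Subgroup.mem_normalizer_iff.1 (hL a.2) s).1 hs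
    · exact fun s hs => (Subgroup.mem_normalizer_iff''.1 (hL a.2) s).1 hs
  have h3 : I'.om i' (cf z) - ((1 : V) : ℂ) ∈ V.nonunits := by
    have hcf := isCF_cf_iff.2 hb.cent
    have h4 := hi.om hcf (cf_mem e)
    rw [blkF_om_self he] at h4
    have : (P.subgroupOf L).Normal := (Subgroup.normal_subgroupOf_iff_le_normalizer hPL).2 hL
    have h5 := I'.om_nil hp i' (P.subgroupOf L) hP.comap_subtype
      (blkF_isCF_sub (hcf.res L) (isCF_cf_iff.2 h2))
      (fun x => sub_mem (cf_mem e _) (cf_mem z _)) fun x hx => by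
        rw [Pi.sub_apply, res, sub_eq_zero, hz, cf, cf, coeff_pull, coeff_brT, if_pos]
        · rfl
        · exact fun s hs => (congrArg Subtype.val (hx ⟨s, hPL hs⟩ hs)).symm
    rw [I'.om_sub] at h5
    have h6 := sub_mem h4 h5
    rwa [sub_sub_sub_cancel_left] at h6
  have h4 := blkF_nil_res (he'.nil_subB h2 h3)
  rw [one_smul, map_sub] at h4
  have h5 : toRes V L (z * z) = toRes V L z := by
    have h6 := idem_inMax_map (pull V L.subtype) (brT_mul hpp (blkF_pmem hp) hP
      (bic_fix_cent hb.cent P) (bic_fix_cent hb.cent P))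
    rw [hb.idem, map_sub, pull_mul_left L.subtype_injective hsup, ← hz, ← toRes_eq_zero_iff,
      map_sub, sub_eq_zero] at h6
    exact h6.symm
  have h6 : toRes V L (z * e') = toRes V L e' := by
    refine blkF_idem_eq ?_ (by rw [← map_mul, hb'.idem]) (by rw [← map_mul, ← map_mul, hb'.cent])
      h4
    rw [← map_mul, mul_assoc, ← mul_assoc e', hb'.cent z, mul_assoc, hb'.idem, ← mul_assoc,
      map_mul, h5, map_mul]
  rw [← sub_eq_zero, ← map_sub, toRes_eq_zero_iff] at h6
  have h7 := idem_inMax_map (brT V (P : Set G)) (idem_inMax_map (inc V L.subtype).toLinearMap h6)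
  rw [AlgHom.toLinearMap_apply, map_sub, map_mul, h1, map_sub,
    brT_mul_left (suppCent_brT (P : Set G) e)] at h7
  have h8 := add_mem (brT_mul hpp (blkF_pmem hp) hP (bic_fix_cent hb.cent P)
    (bic_fix_inc hb'.cent hPL)) h7
  rw [sub_add_sub_cancel, ← map_sub] at h8
  exact h8

/-- Let `Z` be the class sum of `x` and `v = om i Z`.  `Z e - v e` is nilpotent; apply the Brauer
homomorphism and multiply by `j`. -/
lemma indV_of_belowB (hp : (p : ℂ) ∈ V.nonunits) (he : IsBlockIdem I i e) {D C : Subgroup G}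
    [Fintype C] (hD : IsPGroup p D) (hC : C = Subgroup.centralizer (D : Set G))
    {j : MonoidAlgebra V G} (hs : SuppCent (D : Set G) j)
    (hb : InMax V (brT V (D : Set G) (e * j - j))) {I' : IrrData C} {l : Fin I'.n}
    (hl : ∀ z : MonoidAlgebra V C, (∀ b, z * b = b * z) → NilR V (z * pull V C.subtype j) →
      I'.om l (cf z) ∈ V.nonunits) : IndV V I i I' l := by
  intro x
  have hpp : p.Prime := Fact.out
  have hr : ∀ g, g ∈ C.subtype.range ↔ ∀ u ∈ D, g * u = u * g := fun g => by
    rw [Subgroup.range_subtype, hC]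
    exact frpg_cent.symm
  have hmul : ∀ b b' : MonoidAlgebra V G, (∀ c, b * c = c * b) → (∀ c, b' * c = c * b') →
      toRes V C (pull V C.subtype (b * b')) =
        toRes V C (pull V C.subtype b) * toRes V C (pull V C.subtype b') := fun b b' h h' =>
    pull_mul_brauer hpp (blkF_pmem hp) hD C.subtype_injective hr (bic_fix_cent h D)
      (bic_fix_cent h' D)
  have hone : pull V C.subtype (1 : MonoidAlgebra V G) = 1 := by
    rw [← map_one (inc V C.subtype), pull_inc C.subtype_injective]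
  have hx : IsCF (ind (IsConj x)) := isCF_ind (isConj_conj_iff x)
  obtain ⟨Z, hZ⟩ := exists_cf (V := V) (ind_mem V (IsConj x))
  have hZc : ∀ b, Z * b = b * Z := isCF_cf_iff.1 (hZ ▸ hx)
  obtain ⟨v, hv⟩ : ∃ v : V, (v : ℂ) = I.om i (ind (IsConj x)) :=
    ⟨⟨_, I.om_mem i hx (ind_mem V _)⟩, rfl⟩
  have hec := he.isBlock.cent
  have hy : ∀ b, (Z - v • 1) * b = b * (Z - v • 1) := fun b => by
    rw [sub_mul, mul_sub, smul_mul_assoc, mul_smul_comm, one_mul, mul_one, hZc]
  have hye : ∀ b, (Z - v • 1) * e * b = b * ((Z - v • 1) * e) := fun b => by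
    rw [mul_assoc, hec, ← mul_assoc, hy, mul_assoc]
  have h1 : NilR V ((Z - v • 1) * e) := by
    rw [sub_mul, smul_mul_assoc, one_mul]
    exact he.nil_subB hZc (by rw [hZ, hv, sub_self]; exact zero_mem _)
  have h2 : NilR V (pull V C.subtype ((Z - v • 1) * e)) := by
    obtain ⟨n, hn⟩ := h1
    refine ⟨n, ?_⟩
    have h3 := idem_inMax_map (pull V C.subtype) hn
    rw [← toRes_eq_zero_iff] at h3 ⊢
    rw [← h3, map_pow]
    clear h3 hn
    induction n with
    | zero => rw [pow_zero, pow_zero, hone, map_one]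
    | succ n ih =>
      rw [pow_succ, pow_succ, hmul _ _ (fun c => (Commute.pow_left (hye c) n).eq) hye, ih]
  have h3 : InMax V (pull V C.subtype e * pull V C.subtype j - pull V C.subtype j) := by
    have h4 := idem_inMax_map (pull V C.subtype) hb
    have h5 : pull V C.subtype (brT V (D : Set G) (e * j - j)) = pull V C.subtype (e * j - j) := by
      ext y
      rw [coeff_pull, coeff_pull, coeff_brT, if_pos]
      exact (hr _).1 ⟨y, rfl⟩
    rwa [h5, map_sub, pull_mul_right C.subtype_injective e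
      fun g hg => (hr g).2 (hs g hg)] at h4
  have h4 : NilR V (pull V C.subtype (Z - v • 1) * pull V C.subtype j) := by
    have h5 := (h2.mul_right (bic_pull_cent C.subtype hye (pull V C.subtype j))).add_inMax
      (y := pull V C.subtype (Z - v • 1) * pull V C.subtype j -
        pull V C.subtype ((Z - v • 1) * e) * pull V C.subtype j) (by
          rw [← toRes_eq_zero_iff, map_sub, sub_eq_zero] at h3 ⊢
          rw [map_mul, map_mul, hmul _ _ hy hec, mul_assoc, ← map_mul _ (pull V C.subtype e), h3])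
    rwa [add_sub_cancel] at h5
  have h5 := hl _ (bic_pull_cent C.subtype hy) h4
  rw [map_sub, map_smul, hone, bic_cf_sub, bic_cf_smul, I'.om_sub, I'.om_smul, blkE_cf_one,
    I'.om_one, mul_one, hv] at h5
  have h6 : cf (pull V C.subtype Z) = res C (ind (IsConj x)) := by
    funext y
    rw [← hZ, cf, coeff_pull]
    rfl
  rwa [h6] at h5

end one

section two

open IsLocalRing
open MonoidAlgebra (single)

section field

variable {k G : Type} [Field k] [IsAlgClosed k] [Group G] [Fintype G] {p : ℕ}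

omit [Fintype G] in
lemma bil_pgroup_comm {D : Subgroup G} (hc : ∀ x ∈ D, ∀ y ∈ D, x * y = y * x) (g : G) :
    ∀ x ∈ D.map (MulAut.conj g).toMonoidHom, ∀ y ∈ D.map (MulAut.conj g).toMonoidHom,
      x * y = y * x := by
  rintro _ ⟨x, hx, rfl⟩ _ ⟨y, hy, rfl⟩
  rw [← map_mul, ← map_mul, hc x hx y hy]

lemma bil_fix (hp : p.Prime) (hpk : (p : k) = 0) {e : MonoidAlgebra k G}
    (hee : e * e = e) (he : ∀ b, e * b = b * e) {P : Subgroup G} (hP : IsPGroup p P)
    {i f : MonoidAlgebra k G} (hi : LocPt ∅ P i) (hif : brT k (P : Set G) i * f = brT k P i)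
    (hef : brT k (P : Set G) e * f = f) : e * i = i := by
  have hfe : FixedBy (cjRep k G) P e := fun g _ => fixedBy_top_iff.2 he g trivial
  refine (hi.central_idem hee (fun _ _ _ h => h.elim) (fun b _ => he b)).resolve_left fun h => ?_
  apply hi.brT_ne
  rw [← hif, ← hef, ← mul_assoc, ← frpg_brT_mul hp hpk hP hi.fix hfe, ← he, h, map_zero, zero_mul]

/-- Every Brauer pair is contained in a maximal one.  Take `i` from `exists_locPt` for `P`, `f` and
`i₀` for `D`, `brT D e` (`brT_mul`, `inMax_field`); `e` fixes both (`LocPt.central_idem`,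
`LocPt.brT_ne`).  `LocPt.exists_trace` gives a central `z = rtr D ⊤ (a i₀ a')` with `z i₀` not
nilpotent; by `hloc` also `z i` is not nilpotent, so `i * b * i₀ ≠ 0` for some `b`
(`rtr_eq_sum`).  `LocPt.exists_conj` gives `g`; apply the Brauer homomorphism of `P` to
`i c (g i₀ g⁻¹) c' = i`.  The idempotent `f` fixes `i₁ = brT P (g i₀ g⁻¹)` (`LocPt.conj`,
`LocPt.brauer`, `LocPt.central_idem`), and the truncation of `i₁` is nonzero. -/
theorem exists_max_pairB (hp : p.Prime) (hpk : (p : k) = 0) {e : MonoidAlgebra k G}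
    (hee : e * e = e) (he : ∀ b, e * b = b * e)
    (hloc : ∀ z, (∀ b, z * b = b * z) → ∃ v : k, IsNilpotent (z * e - v • e))
    {D : Subgroup G} (hD : IsPGroup p D) (hc : ∀ x ∈ D, ∀ y ∈ D, x * y = y * x)
    (h0 : brT k (D : Set G) e ≠ 0)
    (hb : ∀ y, e.coeff y ≠ 0 → ∀ T : Subgroup G, IsPGroup p T → (∀ t ∈ T, t * y = y * t) →
      Nat.card T ≤ Nat.card D)
    {P : Subgroup G} (hP : IsPGroup p P) {f : MonoidAlgebra k G} (hf : f * f = f) (hf0 : f ≠ 0)
    (hs : SuppCent (P : Set G) f) (hfc : ∀ b, SuppCent (P : Set G) b → f * b = b * f)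
    (hef : brT k (P : Set G) e * f = f) :
    ∃ g : G, P ≤ D.map (MulAut.conj g).toMonoidHom ∧
      brT k ((D.map (MulAut.conj g).toMonoidHom : Subgroup G) : Set G) f ≠ 0 := by
  classical
  have hE : ∀ b : MonoidAlgebra k G, SuppCent ∅ b := fun _ _ _ _ h => h.elim
  have hfe : FixedBy (cjRep k G) D e := fun g _ => fixedBy_top_iff.2 he g trivial
  have hDD : brT k (D : Set G) e * brT k (D : Set G) e = brT k (D : Set G) e := by
    rw [← frpg_brT_mul hp hpk hD hfe hfe, hee]
  obtain ⟨i, hi, hif⟩ := exists_locPt hp hpk hP hf hs hf0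
  obtain ⟨i₀, hi₀, hif₀⟩ := exists_locPt hp hpk hD hDD (suppCent_brT _ _) h0
  have hei : e * i = i := bil_fix hp hpk hee he hP hi hif hef
  have hei₀ : e * i₀ = i₀ := bil_fix hp hpk hee he hD hi₀ hif₀ hDD
  obtain ⟨a, a', ha, ha', hfa, hfa', hn⟩ := hi₀.exists_trace hp hpk (hE e) (fun b _ => he b) hei₀ hb
  have hm : FixedBy (cjRep k G) D (a * i₀ * a') := fun g hg => by
    rw [cjRep_mul, cjRep_mul, hfa g hg, hi₀.fix g hg, hfa' g hg]
  have hz : ∀ b, rtr (cjRep k G) D (Subgroup.centralizer ∅) (a * i₀ * a') * b =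
      b * rtr (cjRep k G) D (Subgroup.centralizer ∅) (a * i₀ * a') := fun b =>
    frpg_comm (rtr_fixed hi₀.frpg_le hm) (hE b)
  have hbb : ∃ b, i * b * i₀ ≠ 0 := by
    by_contra hno
    have hno' : ∀ b, i * b * i₀ = 0 := fun b => by
      by_contra h1
      exact hno ⟨b, h1⟩
    have h1 : i * rtr (cjRep k G) D (Subgroup.centralizer ∅) (a * i₀ * a') = 0 := by
      rw [tr_apply, Finset.mul_sum]
      refine Finset.sum_eq_zero fun q _ => ?_
      split_ifs
      · have h2 := congrArg (· * (a' * single q.out⁻¹ 1)) (hno' (single q.out 1 * a))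
        simp only [zero_mul, mul_assoc] at h2
        rw [cjRep_apply]
        simpa only [mul_assoc] using h2
      · exact mul_zero _
    obtain ⟨v, hv⟩ := hloc _ hz
    generalize rtr (cjRep k G) D (Subgroup.centralizer ∅) (a * i₀ * a') = z at hn hz h1 hv
    have key : ∀ x, e * x = x → IsNilpotent (z * x - v • x) := by
      intro x hx
      have h2 : Commute (z * e - v • e) x :=
        Commute.sub_left (Commute.mul_left (hz x) (he x)) (Commute.smul_left (he x) v)
      have h3 := h2.isNilpotent_mul_right hv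
      rwa [sub_mul, mul_assoc, smul_mul_assoc, hx] at h3
    have hv0 : v ≠ 0 := by
      rintro rfl
      have h2 := key i₀ hei₀
      rw [zero_smul, sub_zero] at h2
      exact hn h2
    have h2 := key i hei
    rw [hz, h1, zero_sub] at h2
    have h3 := h2.neg.smul v⁻¹
    rw [neg_neg, smul_smul, inv_mul_cancel₀ hv0, one_smul] at h3
    exact hi.frpg_not_nil h3
  obtain ⟨b, hb0⟩ := hbb
  obtain ⟨g, -, hle, c, c', hc1, hc2, hcc⟩ := hi.exists_conj hi₀ (hE b) hb0 ha ha' hfa hfa' hn
  refine ⟨g, hle, fun h => ?_⟩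
  have hD' : IsPGroup p (D.map (MulAut.conj g).toMonoidHom) := hD.map _
  have hcm : ∀ u ∈ D.map (MulAut.conj g).toMonoidHom, ∀ t ∈ P, u * t = t * u :=
    fun u hu t ht => bil_pgroup_comm hc g u hu t (hle ht)
  have hj := hi₀.conj g
  have hj1 := hj.brauer hp hpk hD' hle hcm
  rw [Set.image_empty, Set.empty_union] at hj1
  have hjP : FixedBy (cjRep k G) P (cjRep k G g i₀) := fun u hu => hj.fix u (hle hu)
  rcases hj1.central_idem hf hs hfc with h1 | h1
  · apply hi.brT_ne
    have hic : FixedBy (cjRep k G) P (i * c) := fun u hu => by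
      rw [cjRep_mul, hi.fix u hu, hc1 u hu]
    have hicj : FixedBy (cjRep k G) P (i * c * cjRep k G g i₀) := fun u hu => by
      rw [cjRep_mul, hic u hu, hjP u hu]
    have h2 := congrArg (brT k (P : Set G)) hcc
    rw [frpg_brT_mul hp hpk hP hicj hc2, frpg_brT_mul hp hpk hP hic hjP] at h2
    rw [← hif, ← hfc _ (suppCent_brT _ _), ← h2, ← mul_assoc, ← mul_assoc,
      hfc _ (suppCent_brT _ (i * c)), mul_assoc _ f, h1, mul_zero, zero_mul]
  · apply hj1.brT_ne
    have hfD : FixedBy (cjRep k G) (D.map (MulAut.conj g).toMonoidHom) f := fun u hu =>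
      frpg_fix_of_comm hfc u (frpg_cent.1 (hcm u hu))
    rw [← h1, frpg_brT_mul hp hpk hD' hfD hj1.fix, h, zero_mul]

end field

variable {G : Type} [Group G] [Fintype G] {V : ValuationSubring ℂ} {p : ℕ} [Fact p.Prime]
  {I : IrrData G} {i : Fin I.n} {e : MonoidAlgebra V G}

/-- `IrrData.om_nil` applied to the class of `DefV.ex`; compare `le_defectGroup`. -/
lemma DefV.leB (hp : (p : ℂ) ∈ V.nonunits) {D P : Subgroup G} (hD : DefV V p I i D) [P.Normal]
    (hP : IsPGroup p P) : P ≤ D := by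
  obtain ⟨x, hx, -, hS⟩ := hD.ex
  have key : ∃ y, IsConj x y ∧ ∀ g ∈ P, g * y = y * g := by
    by_contra hno
    exact hx (I.om_nil hp i P hP (isCF_ind (isConj_conj_iff x)) (fun y => ind_mem V _ _)
      (fun y hy => ind_neg (S := IsConj x) fun e => hno ⟨y, e, hy⟩))
  obtain ⟨y, hy, hc⟩ := key
  obtain ⟨c, rfl⟩ := isConj_iff.1 hy
  obtain ⟨c', hc'⟩ := hS P hP fun s hs => by
    have h1 := hc _ (‹P.Normal›.conj_mem s hs c)
    calc s * x = c⁻¹ * (c * s * c⁻¹ * (c * x * c⁻¹)) * c := by group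
      _ = x * s := by rw [h1]; group
  intro q hq
  have h2 := hc' _ (‹P.Normal›.conj_mem q hq c')
  rwa [show c'⁻¹ * (c' * q * c'⁻¹) * c' = q by group] at h2

omit [Fact p.Prime] in
/-- A central element over the residue field lifts to a central element (`exists_lift_fixed`,
`fixedBy_top_iff`). -/
lemma IsBlock.loc_resB (he : IsBlock e) (z : MonoidAlgebra (ResidueField V) G)
    (hz : ∀ b, z * b = b * z) :
    ∃ v : ResidueField V, IsNilpotent (z * toRes V G e - v • toRes V G e) := by
  obtain ⟨w, rfl, -, hw⟩ := exists_lift_fixed z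
  obtain ⟨v, hv⟩ := he.loc w (fixedBy_top_iff.1 (hw ⊤ (fixedBy_top_iff.2 hz)))
  have h1 := (red_toRes G).nilR_iff.1 hv
  rw [map_sub, map_mul, (red_toRes G).smul] at h1
  exact ⟨_, h1⟩

omit [Fact p.Prime] in
lemma bil_pk (hp : (p : ℂ) ∈ V.nonunits) : (p : ResidueField V) = 0 := by
  rw [← map_natCast (residue V), residue_eq_zero_iff]
  exact blkF_pmem hp

omit [Fintype G] in
lemma bil_cent (he : ∀ b, e * b = b * e) (b : MonoidAlgebra (ResidueField V) G) :
    toRes V G e * b = b * toRes V G e := by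
  obtain ⟨c, rfl⟩ := (red_toRes (R := V) G).surj b
  rw [← map_mul, he, map_mul]

lemma bil_ne {S : Set G} {y : G} (hy : ∀ s ∈ S, y * s = s * y)
    (h : e.coeff y ∉ maximalIdeal V) : brT (ResidueField V) S (toRes V G e) ≠ 0 := by
  intro h0
  have h1 := congrArg (fun b : MonoidAlgebra (ResidueField V) G => b.coeff y) h0
  simp only [coeff_brT, if_pos hy, coeff_toRes] at h1
  exact h ((residue_eq_zero_iff _).1 h1)

lemma bil_ex {S : Set G} (h : brT (ResidueField V) S (toRes V G e) ≠ 0) :
    ∃ y, (∀ s ∈ S, y * s = s * y) ∧ e.coeff y ∉ maximalIdeal V := by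
  by_contra hno
  apply h
  ext y
  rw [coeff_brT]
  split_ifs with hy
  · rw [coeff_toRes]
    refine ((residue_eq_zero_iff _).2 ?_).trans rfl
    by_contra h1
    exact hno ⟨y, hy, h1⟩
  · rfl

variable {D P L : Subgroup G} [Fintype L] {I' : IrrData L} {i' : Fin I'.n}
  {e' : MonoidAlgebra V L} {D' : Subgroup L}

omit [Fintype G] in
lemma bil_fix_inc (he' : ∀ b, e' * b = b * e') :
    FixedBy (cjRep (ResidueField V) G) L (toRes V G (inc V L.subtype e')) := by
  intro g hg
  have h1 := congrArg (inc V L.subtype) (fixedBy_top_iff.2 he' (⟨g, hg⟩ : L) trivial)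
  rw [cjRep_apply, map_mul, map_mul, inc_single, inc_single] at h1
  rw [← toRes_cjB]
  exact congrArg (toRes V G) h1

lemma bil_inc_ne (hp : (p : ℂ) ∈ V.nonunits) (hD' : DefV V p I' i' D')
    (he' : IsBlockIdem I' i' e') {T : Subgroup G} (hT : T ≤ D'.map L.subtype) :
    brT (ResidueField V) (T : Set G) (toRes V G (inc V L.subtype e')) ≠ 0 := by
  obtain ⟨y, hy, hy'⟩ := hD'.exists_coeff hp he'
  refine bil_ne (y := L.subtype y) (fun s hs => ?_) ?_
  · obtain ⟨δ, hδ, rfl⟩ := hT hs
    rw [← map_mul, ← map_mul, hy δ hδ]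
  · rwa [coeff_inc L.subtype_injective]

lemma bil_below (hp : (p : ℂ) ∈ V.nonunits) (he : ∀ b, e * b = b * e)
    (he' : ∀ b, e' * b = b * e') {T : Subgroup G} (hT : IsPGroup p T) (hTL : T ≤ L) (hP : P ≤ T)
    (hb : InMax V (brT V (P : Set G) (e * inc V L.subtype e' - inc V L.subtype e'))) :
    brT (ResidueField V) (T : Set G) (toRes V G e) *
        brT (ResidueField V) (T : Set G) (toRes V G (inc V L.subtype e')) =
      brT (ResidueField V) (T : Set G) (toRes V G (inc V L.subtype e')) := by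
  have h1 := toRes_eq_zero_iff.2 (idem_inMax_map (brT V (T : Set G)) hb)
  rw [brT_brT (SetLike.coe_subset_coe.2 hP), toRes_brT, map_sub, map_sub, map_mul, sub_eq_zero,
    frpg_brT_mul Fact.out (bil_pk hp) hT (fun g _ => fixedBy_top_iff.2 (bil_cent he) g trivial)
      (fun g hg => bil_fix_inc he' g (hTL hg))] at h1
  exact h1

/-- `DefV.exists_coeff` for `e'` shows that the truncation of `inc e'` at `T = D'.map L.subtype` is
not in the maximal ideal; by `hb` (with `brT_brT`, `brT_mul`) the same holds for `e`;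
`DefV.conj_of_coeff`. -/
lemma card_local_leB (hp : (p : ℂ) ∈ V.nonunits) (hD : DefV V p I i D) (he : IsBlockIdem I i e)
    (hD' : DefV V p I' i' D') (he' : IsBlockIdem I' i' e') (hP : P ≤ D'.map L.subtype)
    (hb : InMax V (brT V (P : Set G) (e * inc V L.subtype e' - inc V L.subtype e'))) :
    Nat.card D' ≤ Nat.card D := by
  have hT : IsPGroup p (D'.map L.subtype) := hD'.pD.map _
  have h1 := bil_below hp he.isBlock.cent he'.isBlock.cent hT (Subgroup.map_subtype_le D') hP hb
  have h2 := bil_inc_ne hp hD' he' le_rfl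
  obtain ⟨y, hy, hy'⟩ := bil_ex (e := e) (S := (D'.map L.subtype : Subgroup G)) fun h0 => by
    rw [h0, zero_mul] at h1
    exact h2 h1.symm
  obtain ⟨c, hc⟩ := hD.conj_of_coeff hp he hy' hT fun s hs => (hy s hs).symm
  have h3 := blkF_card_le hc
  rwa [Subgroup.card_subtype] at h3

/-- `exists_max_pairB` over the residue field with `f = brT P (toRes (inc e'))` gives `g` and an
element `y` of `L` that centralises `T = g D g⁻¹ ≤ L` with `e'.coeff y` a unit.
`DefV.conj_of_coeff` in `L` conjugates `T` into `D'`; compare the orders. -/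
theorem local_conjB (hp : (p : ℂ) ∈ V.nonunits) (hD : DefV V p I i D)
    (hc : ∀ x ∈ D, ∀ y ∈ D, x * y = y * x) (hP : IsPGroup p P) (hPL : P ≤ L)
    (hL : L ≤ Subgroup.normalizer (P : Set G)) (hC : ∀ g, (∀ u ∈ P, u * g = g * u) → g ∈ L)
    (hi : IndV V I i I' i') (hD' : DefV V p I' i' D') :
    P ≤ D'.map L.subtype ∧ ∃ g : G, D'.map L.subtype = D.map (MulAut.conj g).toMonoidHom := by
  obtain ⟨e, he⟩ := exists_blockIdem (V := V) I i
  obtain ⟨e', he'⟩ := exists_blockIdem (V := V) I' i'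
  have hN : (P.subgroupOf L).Normal := (Subgroup.normal_subgroupOf_iff_le_normalizer hPL).2 hL
  have hPD : P ≤ D'.map L.subtype := fun u hu =>
    ⟨⟨u, hPL hu⟩, DefV.leB hp hD' (P := P.subgroupOf L) hP.comap_subtype hu, rfl⟩
  refine ⟨hPD, ?_⟩
  have hb := IndV.belowB hp he hP hPL hL hC hi he'
  have hcard := card_local_leB hp hD he hD' he' hPD hb
  have := (monicSplit_valuationSubring V).isAlgClosed
  have hfix := bil_fix_inc (V := V) he'.isBlock.cent
  have hfP : FixedBy (cjRep (ResidueField V) G) P (toRes V G (inc V L.subtype e')) :=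
    fun g hg => hfix g (hPL hg)
  obtain ⟨y₀, hy₀, hy₀'⟩ := hD.exists_coeff hp he
  obtain ⟨g, hg, hg0⟩ := exists_max_pairB (k := ResidueField V) Fact.out (bil_pk hp)
    (e := toRes V G e) (by rw [← map_mul, he.isBlock.idem]) (bil_cent he.isBlock.cent)
    he.isBlock.loc_resB hD.pD hc (bil_ne hy₀ hy₀')
    (fun y hy T hT hTy => by
      rw [coeff_toRes, Ne, residue_eq_zero_iff] at hy
      obtain ⟨c, hc'⟩ := hD.conj_of_coeff hp he hy hT hTy
      exact blkF_card_le hc')
    hP (f := brT (ResidueField V) (P : Set G) (toRes V G (inc V L.subtype e')))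
    (by rw [← frpg_brT_mul Fact.out (bil_pk hp) hP hfP hfP, ← map_mul, ← map_mul,
      he'.isBlock.idem])
    (bil_inc_ne hp hD' he' hPD) (suppCent_brT _ _)
    (fun b hb' => frpg_comm (brT_fixed (fun u hu => frpg_cent.2 hu)
      (fun u hu => hfix u (hC u fun t ht => hu t ht))) hb')
    (bil_below hp he.isBlock.cent he'.isBlock.cent hP hPL le_rfl hb)
  rw [brT_brT (SetLike.coe_subset_coe.2 hg)] at hg0
  obtain ⟨y, hy, hy'⟩ := bil_ex hg0
  have hyL : y ∈ L.subtype.range := by
    by_contra h1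
    rw [coeff_inc_of_notMem _ _ h1] at hy'
    exact hy' (zero_mem _)
  obtain ⟨y, rfl⟩ := hyL
  rw [coeff_inc L.subtype_injective] at hy'
  have hTL : D.map (MulAut.conj g).toMonoidHom ≤ L := fun t ht =>
    hC t fun u hu => bil_pgroup_comm hc g u (hg hu) t ht
  obtain ⟨c, hc'⟩ := hD'.conj_of_coeff hp he' hy'
    (S := (D.map (MulAut.conj g).toMonoidHom).subgroupOf L) (hD.pD.map _).comap_subtype
    (fun s hs => Subtype.ext (hy s hs).symm)
  refine ⟨(c : G)⁻¹ * g, (Subgroup.eq_of_le_of_card_ge ?_ ?_).symm⟩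
  · rintro _ ⟨d, hd, rfl⟩
    have h1 : g * d * g⁻¹ ∈ D.map (MulAut.conj g).toMonoidHom := ⟨d, hd, rfl⟩
    refine ⟨_, hc' ⟨_, hTL h1⟩ h1, ?_⟩
    change (c : G)⁻¹ * (g * d * g⁻¹) * c = (c : G)⁻¹ * g * d * ((c : G)⁻¹ * g)⁻¹
    group
  · rwa [Subgroup.card_subtype, Subgroup.card_map_of_injective (MulAut.conj _).injective]

end two

section three

open Finset

variable {p : ℕ} {G : Type} [Group G] [Finite G] {M : Ideal (integralClosure ℤ ℂ)}
  {V : ValuationSubring ℂ} {χ : G → ℂ} {D : Subgroup G}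

/-- The standing hypotheses on the coefficients. -/
structure CoefB (p : ℕ) (M : Ideal (integralClosure ℤ ℂ)) (V : ValuationSubring ℂ) : Prop where
  prime : p.Prime
  max : M.IsMaximal
  mem : (p : integralClosure ℤ ℂ) ∈ M
  iff : ∀ a : ℂ, IsIntegral ℤ a → (InIdeal M a ↔ a ∈ V.nonunits)

lemma CoefB.nonunit (h : CoefB p M V) : (p : ℂ) ∈ V.nonunits :=
  (h.iff _ (isIntegral_natCast p)).1 ⟨_, h.mem, by simp⟩

/-- The order of a subgroup times the number of characters. -/
noncomputable def wfB (M : Ideal (integralClosure ℤ ℂ)) (χ : G → ℂ) (L : Subgroup G) : ℕ :=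
  Nat.card L * kInd M χ L

omit [Finite G] in
lemma bik_conj_card {T D : Subgroup G} {g : G} (h : ∀ t ∈ T, g⁻¹ * t * g ∈ D) :
    T.map (MulAut.conj g⁻¹).toMonoidHom ≤ D ∧
      Nat.card (T.map (MulAut.conj g⁻¹).toMonoidHom) = Nat.card T := by
  refine ⟨?_, Subgroup.card_map_of_injective (MulAut.conj g⁻¹).injective⟩
  rintro _ ⟨t, ht, rfl⟩
  simpa using h t ht

/-- As `kr2_card_dvd` in `KR2.lean`. -/
lemma wfB_card_dvd (hM : CoefB p M V) (hχ : IsIrrChar χ) (hD : IsDefectGroup p M χ D)
    {T L : Subgroup G} (hT : IsPGroup p T) (hTL : T ≤ L)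
    (hL : L ≤ Subgroup.normalizer (T : Set G)) (h : wfB M χ L ≠ 0) : Nat.card T ∣ Nat.card D := by
  obtain ⟨g, hg⟩ := conj_le_of_kInd hM.prime hM.max hM.mem hχ hD hT hTL hL (right_ne_zero_of_mul h)
  obtain ⟨h1, h2⟩ := bik_conj_card hg
  rw [← h2]
  exact Subgroup.card_dvd_of_le h1

/-- As `kr2_le` in `KR2.lean`. -/
lemma wfB_le (hM : CoefB p M V) (hχ : IsIrrChar χ) (hD : IsDefectGroup p M χ D)
    {Q T : Subgroup G} [Q.Normal] (hQ : IsPGroup p Q) (hT : IsPGroup p T)
    (hc : Nat.card T = Nat.card D) (h : wfB M χ (Subgroup.normalizer (T : Set G)) ≠ 0) :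
    Q ≤ T := by
  obtain ⟨g, hg⟩ := conj_le_of_kInd hM.prime hM.max hM.mem hχ hD hT Subgroup.le_normalizer le_rfl
    (right_ne_zero_of_mul h)
  obtain ⟨h1, h2⟩ := bik_conj_card hg
  have h3 := Subgroup.eq_of_le_of_card_ge h1 (h2.trans hc).ge
  intro q hq
  have h4 := le_defectGroup hM.prime hM.max hM.mem hχ hD hQ
    (Subgroup.Normal.conj_mem inferInstance q hq g⁻¹)
  rw [← h3] at h4
  obtain ⟨t, ht, e⟩ := h4
  have h5 : t = q := (MulAut.conj g⁻¹).injective e
  exact h5 ▸ ht

end three

end Pool.Agent.Lib.MP_b6945b_al.St
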