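import Pool.Agent.Lib.MP_b6945b_al.Bi.BStar
import Pool.Agent.Lib.MP_b6945b_al.Bi.BAdd

set_option autoImplicit false

/-!
The matrices of the star construction.
-/

namespace Pool.Agent.Lib.MP_b6945b_al.Bi

open St IsLocalRing Finset
open MonoidAlgebra (single)

variable {G : Type} [Group G] [Fintype G] {V : ValuationSubring ℂ} {p : ℕ} [Fact p.Prime]

variable {η η' : G → MonoidAlgebra V G → ℂ} {I : IrrData G} {i₀ : Fin I.n}
  {e : MonoidAlgebra V G}

omit [Fact p.Prime] in
lemma bmat_apply (η : G → MonoidAlgebra V G → ℂ) (i j : {i // I.Bl V i₀ i}) :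
    mat p I i₀ η i j = (Fintype.card G : ℂ)⁻¹ * ∑ g, Star p η (I.χ i) g * I.χ j g⁻¹ := rfl

lemma bmat_sum {ι : Type} (t : Finset ι) (a : ι → ℂ) (f : ι → G → ℂ) (y : G → ℂ) (r : ℂ) :
    r * ∑ g, (∑ j ∈ t, a j * f j g) * y g⁻¹ = ∑ j ∈ t, a j * (r * ∑ g, f j g * y g⁻¹) := by
  simp only [Finset.sum_mul, Finset.mul_sum]
  rw [Finset.sum_comm]
  exact Finset.sum_congr rfl fun j _ => Finset.sum_congr rfl fun g _ => by ring

open Classical in
/-- `Star_mem`, `cfs_expand`. -/
lemma Star_chi (hp : (p : ℂ) ∈ V.nonunits) (he : IsBlockIdem I i₀ e) (hη : EtaInv η)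
    (hs : ∀ u c, η u c ≠ 0 → Le (Subgroup.zpowers u) e c) (i : {i // I.Bl V i₀ i}) :
    Star p η (I.χ i) = ∑ j : {j // I.Bl V i₀ j}, mat p I i₀ η i j • I.χ j := by
  have hb := hb_of_blockIdem he
  exact cfs_expand he (Star_mem hp hb.idem hb.fix hη hs (isCF_chi I i))

open Classical in
theorem mat_mul (hp : (p : ℂ) ∈ V.nonunits) (he : IsBlockIdem I i₀ e) (hη : EtaInv η)
    (hs : ∀ u c, η u c ≠ 0 → Le (Subgroup.zpowers u) e c) (η' : G → MonoidAlgebra V G → ℂ) :
    mat p I i₀ η * mat p I i₀ η' = mat p I i₀ (fun u c => η' u c * η u c) := by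
  ext i k
  rw [Matrix.mul_apply, bmat_apply (fun u c => η' u c * η u c),
    ← Star_Star hp hη (isCF_chi I i) η', Star_chi hp he hη hs i, map_sum]
  simp only [map_smul, Finset.sum_apply, Pi.smul_apply, smul_eq_mul]
  rw [bmat_sum]
  rfl

open Classical in
/-- `Star_block`, `chi_mem_CFs`, `IrrData.orth`. -/
theorem mat_one (hp : (p : ℂ) ∈ V.nonunits) (he : IsBlockIdem I i₀ e)
    (h : ∀ u c, IsPElt p u → HB (Cu u) c →
      η u c = if Le (Subgroup.zpowers u) e c then 1 else 0) : mat p I i₀ η = 1 := by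
  have hb := hb_of_blockIdem he
  ext i j
  have h1 : ∀ g, Star p η (I.χ i) g * I.χ j g⁻¹ = I.χ j g⁻¹ * I.χ i g := fun g => by
    rw [Star_block hp hb.idem hb.fix (isCF_chi I i) h g,
      (mem_CFs.1 (chi_mem_CFs he i.2)).2.2 g (Subgroup.mem_top g), mul_comm]
  have h2 : (Fintype.card G : ℂ) ≠ 0 := Nat.cast_ne_zero.2 Fintype.card_ne_zero
  rw [bmat_apply, Finset.sum_congr rfl fun g _ => h1 g, I.orth, Matrix.one_apply]
  by_cases hij : i = j
  · rw [if_pos hij, if_pos (congrArg Subtype.val hij), inv_mul_cancel₀ h2]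
  · rw [if_neg hij, if_neg fun e => hij (Subtype.ext e), mul_zero]

omit [Fact p.Prime] in
lemma mat_zero : mat p I i₀ (fun _ (_ : MonoidAlgebra V G) => 0) = 0 := by
  ext i j
  rw [bmat_apply, Star_zero]
  simp

omit [Fact p.Prime] in
lemma mat_sum {ι : Type} (t : Finset ι) (a : ι → ℂ) (F : ι → G → MonoidAlgebra V G → ℂ) :
    mat p I i₀ (fun u c => ∑ i ∈ t, a i * F i u c) = ∑ i ∈ t, a i • mat p I i₀ (F i) := by
  ext i j
  rw [bmat_apply, Matrix.sum_apply]
  simp only [Star_sum]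
  rw [bmat_sum]
  rfl

/-- `Star_pair`, `chi_conj`, `HB.star`, and exchange of `s` and `t`. -/
theorem mat_star (hp : (p : ℂ) ∈ V.nonunits) (η : G → MonoidAlgebra V G → ℂ) :
    (mat p I i₀ η).conjTranspose = mat p I i₀ (fun u c => (starRingEnd ℂ) (η u c)) := by
  classical
  ext i j
  rw [Matrix.conjTranspose_apply, bmat_apply, bmat_apply, Star_pair hp _ (isCF_chi I j),
    Star_pair hp _ (isCF_chi I i), ← starRingEnd_apply, map_mul, map_inv₀, map_natCast, map_sum]
  congr 1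
  refine Finset.sum_congr rfl fun u _ => ?_
  rw [Finset.sum_comm, map_sum]
  refine Finset.sum_congr rfl fun t _ => ?_
  rw [map_sum]
  refine Finset.sum_congr rfl fun s _ => ?_
  by_cases h : IsPElt p u ∧ (t ∈ Cu u ∧ ¬ p ∣ orderOf t) ∧ (s ∈ Cu u ∧ ¬ p ∣ orderOf s)
  · rw [if_pos h, if_pos ⟨h.1, h.2.2, h.2.1⟩, map_sum]
    refine Finset.sum_congr rfl fun c hc => ?_
    rw [map_mul, map_mul, map_mul, (mem_blk.1 hc).star, chi_conj, chi_conj, inv_inv, mul_inv_rev,
      inv_inv]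
    ring
  · rw [if_neg h, if_neg fun h' => h ⟨h'.1, h'.2.2, h'.2.1⟩, map_zero]

open Classical in
/-- The map `v ↦ ∑ j, v j • χ j` is an injective linear map onto `CFs ⊤ e` (`chi_indep`,
`cfs_expand`) which intertwines `Matrix.vecMulLinear` with `Star` (`Star_chi`);
`Matrix.rank_transpose`, or `Matrix.rank_eq_finrank_span_row`. -/
theorem rank_mat (hp : (p : ℂ) ∈ V.nonunits) (he : IsBlockIdem I i₀ e) (hη : EtaInv η)
    (hs : ∀ u c, η u c ≠ 0 → Le (Subgroup.zpowers u) e c) :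
    (mat p I i₀ η).rank = Module.finrank ℂ ((CFs ⊤ e).map (Star p η)) := by
  let L := Fintype.linearCombination ℂ fun j : {j // I.Bl V i₀ j} => I.χ j
  have hL : Function.Injective L :=
    ((chi_indep I).comp _ Subtype.val_injective).fintypeLinearCombination_injective
  have h1 : CFs ⊤ e = Submodule.span ℂ (Set.range fun j : {j // I.Bl V i₀ j} => I.χ j) := by
    refine le_antisymm (fun x hx => ?_) (Submodule.span_le.2 ?_)
    · rw [cfs_expand he hx]
      exact Submodule.sum_mem _ fun j _ => Submodule.smul_mem _ _ (Submodule.subset_span ⟨j, rfl⟩)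
    · rintro _ ⟨j, rfl⟩
      exact chi_mem_CFs he j.2
  have h2 : L ∘ (mat p I i₀ η).row = Star p η ∘ fun j : {j // I.Bl V i₀ j} => I.χ j :=
    funext fun i => (Star_chi hp he hη hs i).symm
  rw [Matrix.rank_eq_finrank_span_row, (Submodule.equivMapOfInjective L hL _).finrank_eq,
    Submodule.map_span, ← Set.range_comp, h2, Set.range_comp, ← Submodule.map_span, ← h1]

open Classical in
/-- A Hermitian idempotent with a vanishing diagonal entry has a vanishing row. -/
lemma Star_eq_zero_of_diag (hp : (p : ℂ) ∈ V.nonunits) (he : IsBlockIdem I i₀ e) (hη : EtaInv η)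
    (hs : ∀ u c, η u c ≠ 0 → Le (Subgroup.zpowers u) e c) (h01 : ∀ u c, η u c = 0 ∨ η u c = 1)
    {i : {i // I.Bl V i₀ i}} (h : mat p I i₀ η i i = 0) : Star p η (I.χ i) = 0 := by
  have h1 := mat_mul hp he hη hs η
  have h2 := mat_star (I := I) (i₀ := i₀) hp η
  have e1 : (fun u c => η u c * η u c) = η := by
    funext u c
    rcases h01 u c with e | e <;> simp [e]
  have e2 : (fun u c => (starRingEnd ℂ) (η u c)) = η := by
    funext u c
    rcases h01 u c with e | e <;> simp [e]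
  rw [e1] at h1
  rw [e2] at h2
  have h3 : (mat p I i₀ η * (mat p I i₀ η).conjTranspose) i i = 0 := by rw [h2, h1, h]
  have h4 : mat p I i₀ η i = 0 := by
    open ComplexOrder in exact dotProduct_self_star_eq_zero.1 h3
  rw [Star_chi hp he hη hs i, h4]
  simp

end Pool.Agent.Lib.MP_b6945b_al.Bi
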