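import Pool.Agent.Lib.MP_b6945b_al.Bi.BDefs

set_option autoImplicit false

/-!
Group theory: `p`-parts, maximal subgroups of `p`-groups, lifting of `p`-regular elements.
-/

namespace Pool.Agent.Lib.MP_b6945b_al.Bi

open St IsLocalRing Finset
open MonoidAlgebra (single)

variable {G : Type} [Group G] {p : ℕ}

lemma mem_Cz {D : Subgroup G} {x : G} : x ∈ Cz D ↔ ∀ d ∈ D, x * d = d * x := by
  rw [Subgroup.mem_centralizer_iff]
  exact ⟨fun h d hd => (h d hd).symm, fun h d hd => (h d hd).symm⟩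

lemma mem_Cu {u x : G} : x ∈ Cu u ↔ u * x = x * u := by
  rw [mem_Cz]
  refine ⟨fun h => (h u (Subgroup.mem_zpowers u)).symm, fun h => ?_⟩
  rintro _ ⟨k, rfl⟩
  exact (Commute.zpow_left h k).symm

lemma self_mem_Cu (u : G) : u ∈ Cu u := mem_Cu.2 rfl

lemma zpowers_le_Cu (u : G) : Subgroup.zpowers u ≤ Cu u :=
  (Subgroup.zpowers_le (H := Cu u)).2 (self_mem_Cu u)

lemma Cu_one : Cu (1 : G) = ⊤ :=
  eq_top_iff.2 fun x _ => mem_Cu.2 (by rw [one_mul, mul_one])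

lemma Cz_bot : Cz (⊥ : Subgroup G) = ⊤ :=
  eq_top_iff.2 fun x _ => mem_Cz.2 fun d hd => by rw [Subgroup.mem_bot.1 hd, one_mul, mul_one]

lemma Cz_le_Nz (D : Subgroup G) : Cz D ≤ Nz D := Subgroup.centralizer_le_normalizer _

lemma Cz_anti {P D : Subgroup G} (h : P ≤ D) : Cz D ≤ Cz P :=
  fun _ hx => mem_Cz.2 fun d hd => mem_Cz.1 hx d (h hd)

lemma Cz_le_Cu {D : Subgroup G} {d : G} (h : d ∈ D) : Cz D ≤ Cu d :=
  Cz_anti ((Subgroup.zpowers_le (H := D)).2 h)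

lemma bpp_Nz_Cz {D : Subgroup G} {g x : G} (hg : g ∈ Nz D) (hx : x ∈ Cz D) :
    g * x * g⁻¹ ∈ Cz D := by
  refine mem_Cz.2 fun d hd => ?_
  have h1 := mem_Cz.1 hx _ ((Subgroup.mem_normalizer_iff''.1 hg d).1 hd)
  calc g * x * g⁻¹ * d = g * (x * (g⁻¹ * d * g)) * g⁻¹ := by group
    _ = d * (g * x * g⁻¹) := by rw [h1]; group

/-- The normaliser normalises the centraliser. -/
lemma Nz_le_Nz_Cz (D : Subgroup G) : Nz D ≤ Nz (Cz D) := by
  intro g hg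
  refine Subgroup.mem_normalizer_iff.2 fun x => ⟨bpp_Nz_Cz hg, fun h => ?_⟩
  have := bpp_Nz_Cz (Subgroup.inv_mem _ hg) h
  simpa [mul_assoc] using this

lemma mem_cg {g x : G} {D : Subgroup G} : x ∈ cg g D ↔ g⁻¹ * x * g ∈ D := by
  constructor
  · rintro ⟨y, hy, rfl⟩
    simpa [mul_assoc] using hy
  · intro h
    exact ⟨_, h, by simp [mul_assoc]⟩

lemma cg_one (D : Subgroup G) : cg 1 D = D := by
  ext x
  rw [mem_cg, inv_one, one_mul, mul_one]

lemma cg_cg (g h : G) (D : Subgroup G) : cg g (cg h D) = cg (g * h) D := by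
  ext x
  simp only [mem_cg, mul_inv_rev, mul_assoc]

lemma cg_eq_iff {g : G} {D : Subgroup G} : cg g D = D ↔ g ∈ Nz D := by
  rw [Subgroup.mem_normalizer_iff'', Subgroup.ext_iff]
  exact forall_congr' fun x => by rw [mem_cg]; exact Iff.comm

lemma cg_top (g : G) : cg g (⊤ : Subgroup G) = ⊤ :=
  eq_top_iff.2 fun _ _ => mem_cg.2 (Subgroup.mem_top _)

lemma cg_inf (g : G) (A B : Subgroup G) : cg g (A ⊓ B) = cg g A ⊓ cg g B := by
  ext x
  simp only [mem_cg, Subgroup.mem_inf]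

lemma card_cg (g : G) (D : Subgroup G) : Nat.card (cg g D) = Nat.card D :=
  Subgroup.card_map_of_injective (MulAut.conj g).injective

lemma Cz_cg (g : G) (D : Subgroup G) : Cz (cg g D) = cg g (Cz D) := by
  ext x
  rw [mem_cg, mem_Cz, mem_Cz]
  constructor
  · intro h d hd
    have h1 := h (g * d * g⁻¹) (mem_cg.2 (by simpa [mul_assoc] using hd))
    calc g⁻¹ * x * g * d = g⁻¹ * (x * (g * d * g⁻¹)) * g := by group
      _ = d * (g⁻¹ * x * g) := by rw [h1]; group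
  · intro h d hd
    have h1 := h _ (mem_cg.1 hd)
    calc x * d = g * (g⁻¹ * x * g * (g⁻¹ * d * g)) * g⁻¹ := by group
      _ = d * x := by rw [h1]; group

lemma Nz_cg (g : G) (D : Subgroup G) : Nz (cg g D) = cg g (Nz D) := by
  ext x
  rw [mem_cg, ← cg_eq_iff, ← cg_eq_iff, cg_cg]
  constructor
  · intro h
    rw [mul_assoc, ← cg_cg, h, cg_cg, inv_mul_cancel, cg_one]
  · intro h
    rw [show x * g = g * (g⁻¹ * x * g) by group, ← cg_cg, h]

lemma zpowers_conj (g u : G) : Subgroup.zpowers (g * u * g⁻¹) = cg g (Subgroup.zpowers u) :=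
  (MonoidHom.map_zpowers (MulAut.conj g).toMonoidHom u).symm

lemma Cu_conj (g u : G) : Cu (g * u * g⁻¹) = cg g (Cu u) := by
  rw [Cu, zpowers_conj, Cz_cg]

lemma Cz_map {A : Type} [Group A] {φ : A →* G} (hφ : Function.Injective φ) (P : Subgroup A) :
    (Cz P).map φ = φ.range ⊓ Cz (P.map φ) := by
  ext x
  constructor
  · rintro ⟨y, hy, rfl⟩
    refine ⟨⟨y, rfl⟩, mem_Cz.2 ?_⟩
    rintro _ ⟨d, hd, rfl⟩
    rw [← map_mul, mem_Cz.1 hy d hd, map_mul]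
  · rintro ⟨⟨y, rfl⟩, h⟩
    refine ⟨y, mem_Cz.2 fun d hd => hφ ?_, rfl⟩
    rw [map_mul, map_mul]
    exact mem_Cz.1 h _ ⟨d, hd, rfl⟩

lemma Nz_map {A : Type} [Group A] {φ : A →* G} (hφ : Function.Injective φ) (P : Subgroup A) :
    (Nz P).map φ = φ.range ⊓ Nz (P.map φ) := by
  ext x
  constructor
  · rintro ⟨y, hy, rfl⟩
    exact ⟨⟨y, rfl⟩, Subgroup.le_normalizer_map φ ⟨y, hy, rfl⟩⟩
  · rintro ⟨⟨y, rfl⟩, h⟩
    refine ⟨y, Subgroup.mem_normalizer_iff.2 fun d => ?_, rfl⟩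
    have h1 := Subgroup.mem_normalizer_iff.1 h (φ d)
    rw [← map_inv, ← map_mul, ← map_mul] at h1
    exact (Subgroup.mem_map_iff_mem hφ).symm.trans (h1.trans (Subgroup.mem_map_iff_mem hφ))

lemma pp_mul_pq (g : G) : pp p g * pq p g = g := mul_inv_cancel_left _ _

lemma Reg_apply_reg (x : G → ℂ) {g : G} (h : ¬ p ∣ orderOf g) : Reg p x g = x g := if_neg h

lemma Reg_apply_sing (x : G → ℂ) {g : G} (h : p ∣ orderOf g) : Reg p x g = 0 := if_pos h

lemma bpp_comm {g x y : G} (hx : x ∈ Subgroup.zpowers g) (h : y * g = g * y) :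
    y * x = x * y := by
  obtain ⟨k, rfl⟩ := hx
  exact Commute.zpow_right h k

variable [Finite G] [Fact p.Prime]

/-- Write `orderOf g = p^a n'`, `u = g^(n' k)` with `n' k ≡ 1 mod p^a`. -/
lemma pp_spec (g : G) :
    IsPElt p (pp p g) ∧ pp p g ∈ Subgroup.zpowers g ∧ ¬ p ∣ orderOf (pq p g) := by
  have hp : p.Prime := Fact.out
  have h : ∃ u, IsPElt p u ∧ u ∈ Subgroup.zpowers g ∧ ¬ p ∣ orderOf (u⁻¹ * g) := by
    obtain ⟨a, n, h1, h2⟩ := Nat.exists_eq_pow_mul_and_not_dvd (orderOf_pos g).ne' p hp.ne_one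
    have h3 : IsCoprime (n : ℤ) ((p ^ a : ℕ) : ℤ) :=
      Nat.isCoprime_iff_coprime.2 (((Nat.Prime.coprime_iff_not_dvd hp).2 h1).symm.pow_right a)
    obtain ⟨k, l, h4⟩ := h3
    have h5 : g ^ (((p ^ a : ℕ) : ℤ) * n) = 1 := by
      rw [← Nat.cast_mul, ← h2, zpow_natCast, pow_orderOf_eq_one]
    refine ⟨g ^ (k * n), ⟨a, ?_⟩, ⟨_, rfl⟩, fun h6 => h1 (h6.trans ?_)⟩
    · rw [← zpow_natCast, ← zpow_mul, show k * n * ((p ^ a : ℕ) : ℤ) = (p ^ a : ℕ) * n * k by ring,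
        zpow_mul, h5, one_zpow]
    · refine orderOf_dvd_of_pow_eq_one ?_
      rw [← zpow_neg, ← zpow_add_one, ← zpow_natCast, ← zpow_mul,
        show (-(k * n) + 1) * (n : ℤ) = (p ^ a : ℕ) * n * l by rw [← h4]; ring,
        zpow_mul, h5, one_zpow]
  have e : pp p g = h.choose := dif_pos h
  rw [pq, e]
  exact h.choose_spec

lemma pq_mem (g : G) : pq p g ∈ Subgroup.zpowers g :=
  Subgroup.mul_mem _ (Subgroup.inv_mem _ (pp_spec g).2.1) (Subgroup.mem_zpowers g)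

lemma pq_mem_Cu (g : G) : pq p g ∈ Cu (pp p g) :=
  mem_Cu.2 (bpp_comm (pq_mem g) (bpp_comm (pp_spec g).2.1 rfl).symm)

omit [Finite G] in
/-- An element which is a `p`-element and `p`-regular is trivial. -/
lemma eq_one_of_pelt_reg {u : G} (hu : IsPElt p u) (h : ¬ p ∣ orderOf u) : u = 1 := by
  obtain ⟨k, hk⟩ := hu
  exact orderOf_eq_one_iff.1 (Nat.Coprime.eq_one_of_dvd
    (((Nat.Prime.coprime_iff_not_dvd Fact.out).2 h).symm.pow_right k)
    (orderOf_dvd_of_pow_eq_one hk))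

omit [Finite G] in
lemma reg_mul {s t : G} (hs : ¬ p ∣ orderOf s) (ht : ¬ p ∣ orderOf t) (h : s * t = t * s) :
    ¬ p ∣ orderOf (s * t) := fun h1 =>
  ((Nat.Prime.dvd_mul Fact.out).1
    (h1.trans (Commute.orderOf_mul_dvd_mul_orderOf h))).elim hs ht

omit [Finite G] [Fact p.Prime] in
lemma pelt_mul {u v : G} (hu : IsPElt p u) (hv : IsPElt p v) (h : u * v = v * u) :
    IsPElt p (u * v) := by
  obtain ⟨k, hk⟩ := hu
  obtain ⟨l, hl⟩ := hv
  refine ⟨k + l, ?_⟩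
  rw [Commute.mul_pow h, pow_add, pow_mul, hk, one_pow, mul_comm (p ^ k), pow_mul, hl, one_pow,
    one_mul]

/-- `u, s` commute with `g = u s`, hence with its powers `pp g`, `pq g`; `u⁻¹ pp g = s (pq g)⁻¹`
is a `p`-element and `p`-regular. -/
lemma pp_mul_eq {u s : G} (hu : IsPElt p u) (hs : ¬ p ∣ orderOf s) (h : u * s = s * u) :
    pp p (u * s) = u := by
  obtain ⟨h1, h2, h3⟩ := pp_spec (p := p) (u * s)
  have a1 : u * pp p (u * s) = pp p (u * s) * u := bpp_comm h2 (by rw [mul_assoc, ← h])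
  have a2 : s * pq p (u * s) = pq p (u * s) * s :=
    bpp_comm (pq_mem _) (by rw [← mul_assoc, ← h])
  have a3 : u⁻¹ * pp p (u * s) = s * (pq p (u * s))⁻¹ := by
    rw [pq]
    have : s * (u * s)⁻¹ = u⁻¹ := by group
    rw [mul_inv_rev, inv_inv, ← mul_assoc, this]
  have a4 := eq_one_of_pelt_reg (pelt_mul (isPElt_inv.2 hu) h1 (Commute.inv_left a1))
    (a3 ▸ reg_mul hs (by rwa [orderOf_inv]) (Commute.inv_right a2))
  exact (inv_mul_eq_one.1 a4).symm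

lemma pq_mul_eq {u s : G} (hu : IsPElt p u) (hs : ¬ p ∣ orderOf s) (h : u * s = s * u) :
    pq p (u * s) = s := by
  rw [pq, pp_mul_eq hu hs h, inv_mul_cancel_left]

lemma pp_conj (h g : G) : pp p (h * g * h⁻¹) = h * pp p g * h⁻¹ := by
  obtain ⟨h1, -, h3⟩ := pp_spec (p := p) g
  have a1 := mem_Cu.1 (pq_mem_Cu (p := p) g)
  have a2 := pp_mul_eq (h1.conj h) (s := h * pq p g * h⁻¹)
    (by rwa [← MulAut.conj_apply, MulEquiv.orderOf_eq])
    (by rw [conj_mul, conj_mul, a1])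
  rwa [conj_mul, pp_mul_pq] at a2

lemma pq_conj (h g : G) : pq p (h * g * h⁻¹) = h * pq p g * h⁻¹ := by
  rw [pq, pq, pp_conj]
  group

lemma pp_inv (g : G) : pp p g⁻¹ = (pp p g)⁻¹ := by
  obtain ⟨h1, -, h3⟩ := pp_spec (p := p) g
  have a1 := mem_Cu.1 (pq_mem_Cu (p := p) g)
  have a2 := pp_mul_eq (isPElt_inv.2 h1) (s := (pq p g)⁻¹) (by rwa [orderOf_inv])
    (Commute.inv_inv a1)
  rwa [← mul_inv_rev, ← a1, pp_mul_pq] at a2

omit [Finite G] in
lemma bpp_one : ¬ p ∣ orderOf (1 : G) := by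
  rw [orderOf_one]
  exact Nat.Prime.not_dvd_one Fact.out

lemma pp_of_pelt {u : G} (hu : IsPElt p u) : pp p u = u := by
  have := pp_mul_eq hu bpp_one (by rw [mul_one, one_mul])
  rwa [mul_one] at this

lemma pp_eq_one_iff {g : G} : pp p g = 1 ↔ ¬ p ∣ orderOf g := by
  constructor
  · intro h
    have := (pp_spec (p := p) g).2.2
    rwa [pq, h, inv_one, one_mul] at this
  · intro h
    have := pp_mul_eq (u := 1) ⟨0, one_pow _⟩ h (by rw [mul_one, one_mul])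
    rwa [one_mul] at this

/-- For `y` commuting with the `p`-element `u`: `pp (u y) = u * pp y`. -/
lemma pp_mul_of_comm {u y : G} (hu : IsPElt p u) (h : u * y = y * u) :
    pp p (u * y) = u * pp p y := by
  obtain ⟨h1, h2, h3⟩ := pp_spec (p := p) y
  have a1 : Commute (pp p y) (pq p y) := mem_Cu.1 (pq_mem_Cu (p := p) y)
  have a2 : Commute u (pq p y) := bpp_comm (pq_mem y) h
  have a3 := pp_mul_eq (pelt_mul hu h1 (bpp_comm h2 h)) h3 (Commute.mul_left a2 a1)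
  rwa [mul_assoc, pp_mul_pq] at a3

omit [Finite G] [Fact p.Prime] in
lemma reg_of_mem {S : Subgroup G} (hS : ¬ p ∣ Nat.card S) {s : G} (hs : s ∈ S) :
    ¬ p ∣ orderOf s := fun h => hS (h.trans (Subgroup.orderOf_dvd_natCard S hs))

open Classical in
/-- Decomposition of a sum along `p`-sections. -/
lemma sum_pp [Fintype G] {M : Type} [AddCommMonoid M] (f : G → M) :
    ∑ g, f g = ∑ u, ∑ s, if IsPElt p u ∧ s ∈ Cu u ∧ ¬ p ∣ orderOf s then f (u * s) else 0 := by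
  rw [← sum_fiberwise univ (pp p) f]
  refine sum_congr rfl fun u _ => ?_
  rw [sum_filter, ← Equiv.sum_comp (Equiv.mulLeft u)]
  refine sum_congr rfl fun s _ => if_congr ?_ rfl rfl
  rw [Equiv.coe_mulLeft]
  constructor
  · intro h
    have a1 : pq p (u * s) = s := by rw [pq, h, inv_mul_cancel_left]
    have a2 := pp_spec (p := p) (u * s)
    have a3 := pq_mem_Cu (p := p) (u * s)
    rw [h, a1] at a2 a3
    exact ⟨a2.1, a3, a2.2.2⟩
  · rintro ⟨h1, h2, h3⟩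
    exact pp_mul_eq h1 h3 (mem_Cu.1 h2)

omit [Finite G] [Fact p.Prime] in
/-- Every element of `P ⊔ S` is a product when `P` and `S` commute. -/
lemma PCom.exists_mul {S P : Subgroup G} (h : PCom p S P) {g : G} (hg : g ∈ P ⊔ S) :
    ∃ u ∈ P, ∃ s ∈ S, g = u * s := by
  have h1 : S ≤ Nz P := fun s hs => Cz_le_Nz P (mem_Cz.2 fun u hu => (h.2 u hu s hs).symm)
  have h2 := Subgroup.coe_mul_of_right_le_normalizer_left P S h1
  have h3 : g ∈ ((P ⊔ S : Subgroup G) : Set G) := hg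
  rw [h2] at h3
  obtain ⟨u, hu, s, hs, e⟩ := h3
  exact ⟨u, hu, s, hs, e.symm⟩

lemma PCom.mul_mem_iff {S P Q : Subgroup G} (h : PCom p S P) (hS : ¬ p ∣ Nat.card S)
    (hQ : Q ≤ P) {u s : G} (hu : u ∈ P) (hs : s ∈ S) : u * s ∈ Q ⊔ S ↔ u ∈ Q := by
  refine ⟨fun h1 => ?_, fun h1 => Subgroup.mul_mem_sup h1 hs⟩
  have h2 : PCom p S Q := ⟨h.1.to_le hQ, fun v hv => h.2 v (hQ hv)⟩
  obtain ⟨v, hv, t, ht, e⟩ := h2.exists_mul h1
  have a1 := pp_mul_eq (isPElt_of_mem h.1 hu) (reg_of_mem hS hs) (h.2 u hu s hs)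
  rw [e, pp_mul_eq (isPElt_of_mem h2.1 hv) (reg_of_mem hS ht) (h2.2 v hv t ht)] at a1
  exact a1 ▸ hv

omit [Finite G] in
/-- If `t ∉ Q`, `t ^ p ∈ Q` then only the multiples of `p` send `t` into `Q`. -/
lemma bpp_dvd {Q : Subgroup G} {t : G} (h1 : t ∉ Q) (h2 : t ^ p ∈ Q) {k : ℤ} (hk : t ^ k ∈ Q) :
    (p : ℤ) ∣ k := by
  by_contra h
  obtain ⟨a, b, e⟩ := (Irreducible.coprime_iff_not_dvd
    (Nat.prime_iff_prime_int.1 (Fact.out : p.Prime)).irreducible).2 h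
  refine h1 ?_
  rw [← zpow_one t, ← e, zpow_add, mul_comm a, mul_comm b, zpow_mul, zpow_mul, zpow_natCast]
  exact Q.mul_mem (Q.zpow_mem h2 a) (Q.zpow_mem hk b)

omit [Finite G] in
lemma bpp_trans {Q : Subgroup G} {t g : G} (h1 : t ∉ Q) (h2 : t ^ p ∈ Q) {k : ℤ}
    (hk : (t ^ k)⁻¹ * g ∈ Q) : ∃! m : Fin p, (t ^ (m : ℕ))⁻¹ * g ∈ Q := by
  have hp : p.Prime := Fact.out
  have h0 : (0 : ℤ) < p := by exact_mod_cast hp.pos
  have a1 := Int.emod_nonneg k h0.ne'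
  have a2 := Int.emod_lt_of_pos k h0
  have a3 : (t ^ (k % p).toNat)⁻¹ * g ∈ Q := by
    have e : (t ^ (k % p).toNat)⁻¹ * g = (t ^ p) ^ (k / p) * ((t ^ k)⁻¹ * g) := by
      rw [← zpow_natCast t, Int.toNat_of_nonneg a1, ← zpow_natCast t, ← zpow_mul, ← mul_assoc,
        ← zpow_neg, ← zpow_neg, ← zpow_add, Int.emod_def]
      congr 2
      ring
    rw [e]
    exact Q.mul_mem (Q.zpow_mem h2 _) hk
  refine ⟨⟨(k % p).toNat, by omega⟩, a3, fun m hm => Fin.ext ?_⟩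
  have a4 := Q.mul_mem hm (Q.inv_mem a3)
  rw [mul_inv_rev, inv_inv, mul_assoc, mul_inv_cancel_left, ← zpow_natCast, ← zpow_natCast,
    ← zpow_neg, ← zpow_add] at a4
  have a5 := Int.eq_zero_of_abs_lt_dvd (bpp_dvd h1 h2 a4) (by
    have := m.2
    rw [abs_lt]
    omega)
  show (m : ℕ) = (k % p).toNat
  omega

/-- A proper subgroup of a `p`-group lies in a normal subgroup of index `p`.  In `↥P` take a
coatom `Q'` above `P'.subgroupOf P` (`IsCoatomic`, finite lattice); it is normal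
(`IsPGroup.isNilpotent`, `normalizerCondition_of_isNilpotent`,
`Subgroup.NormalizerCondition.normal_of_coatom`); the quotient has no proper nontrivial subgroup,
so it is generated by any `t̄ ≠ 1` and has order `p`. -/
lemma exists_normal_max {P' P : Subgroup G} (hP : IsPGroup p P) (h : P' < P) :
    ∃ (Q : Subgroup G) (t : G), P' ≤ Q ∧ Q < P ∧ P ≤ Nz Q ∧ t ∈ P ∧ t ^ p ∈ Q ∧
      ∀ g ∈ P, ∃! m : Fin p, (t ^ (m : ℕ))⁻¹ * g ∈ Q := by
  classical
  obtain ⟨Q, a1, a2⟩ := (eq_top_or_exists_le_coatom (P'.subgroupOf P)).resolve_left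
    fun e => h.not_ge (Subgroup.subgroupOf_eq_top.1 e)
  have := hP.isNilpotent
  have hn : Q.Normal :=
    Subgroup.NormalizerCondition.normal_of_coatom Q Group.normalizerCondition_of_isNilpotent a1
  obtain ⟨s, hs⟩ : ∃ s, s ∉ Q := by
    by_contra e
    exact a1.1 (eq_top_iff.2 fun x _ => by_contra fun e' => e ⟨x, e'⟩)
  have b1 : ∃ k : ℕ, s ^ p ^ k ∈ Q := by
    obtain ⟨k, hk⟩ := hP s
    exact ⟨k, hk ▸ Q.one_mem⟩
  obtain ⟨t, t1, t2⟩ : ∃ t, t ∉ Q ∧ t ^ p ∈ Q := by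
    have b2 := Nat.find_spec b1
    obtain ⟨j, hj⟩ : ∃ j, Nat.find b1 = j + 1 :=
      Nat.exists_eq_succ_of_ne_zero fun e => hs (by simpa [e] using b2)
    refine ⟨s ^ p ^ j, Nat.find_min b1 (by omega), ?_⟩
    rwa [← pow_mul, ← pow_succ, ← hj]
  have b3 : Subgroup.zpowers t ⊔ Q = ⊤ :=
    a1.2 _ (lt_of_le_of_ne le_sup_right fun e =>
      t1 (e ▸ Subgroup.mem_sup_left (Subgroup.mem_zpowers t)))
  have b4 : ∀ x : P, (x : G) ∈ Q.map P.subtype ↔ x ∈ Q := fun x =>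
    Subgroup.mem_map_iff_mem P.subtype_injective
  refine ⟨Q.map P.subtype, t, ?_, lt_of_le_of_ne (Subgroup.map_subtype_le Q) fun e => ?_, ?_, t.2,
    (b4 (t ^ p)).2 t2, fun g hg => ?_⟩
  · intro x hx
    exact (b4 ⟨x, h.le hx⟩).2 (a2 hx)
  · exact t1 ((b4 t).1 (e.symm ▸ t.2))
  · intro g hg
    exact Subgroup.le_normalizer_map P.subtype
      ⟨⟨g, hg⟩, (Subgroup.normalizer_eq_top Q).symm ▸ Subgroup.mem_top _, rfl⟩
  · have b5 : (⟨g, hg⟩ : P) ∈ Subgroup.zpowers t ⊔ Q := b3 ▸ Subgroup.mem_top _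
    obtain ⟨_, ⟨k, rfl⟩, z, hz, e⟩ := Subgroup.mem_sup_of_normal_right.1 b5
    refine bpp_trans (fun e => t1 ((b4 t).1 e)) ((b4 (t ^ p)).2 t2) (k := k) ?_
    refine (b4 ((t ^ k)⁻¹ * ⟨g, hg⟩)).2 ?_
    rw [← e, inv_mul_cancel_left]
    exact hz

omit [Finite G] in
lemma le_zpowers_pow {u : G} (hu : IsPElt p u) {T : Subgroup G} (h : T < Subgroup.zpowers u) :
    T ≤ Subgroup.zpowers (u ^ p) := by
  intro x hx
  obtain ⟨k, rfl⟩ := h.le hx
  by_cases e : (p : ℤ) ∣ k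
  · obtain ⟨l, rfl⟩ := e
    exact ⟨l, by simp only [zpow_mul, zpow_natCast]⟩
  obtain ⟨j, hj⟩ := hu
  obtain ⟨a, b, e'⟩ := ((Irreducible.coprime_iff_not_dvd
    (Nat.prime_iff_prime_int.1 (Fact.out : p.Prime)).irreducible).2 e).pow_left (m := j)
  refine absurd ((Subgroup.zpowers_le (H := T)).2 ?_) h.not_ge
  rw [← zpow_one u, ← e', zpow_add, mul_comm a, mul_comm b, zpow_mul, zpow_mul, ← Nat.cast_pow,
    zpow_natCast, hj, one_zpow, one_mul]
  exact T.zpow_mem hx b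

omit [Finite G] in
lemma zpowers_transversal {u : G} (hu : IsPElt p u) (h1 : u ≠ 1) :
    ∀ g ∈ Subgroup.zpowers u, ∃! m : Fin p, (u ^ (m : ℕ))⁻¹ * g ∈ Subgroup.zpowers (u ^ p) := by
  rintro _ ⟨k, rfl⟩
  refine bpp_trans ?_ (Subgroup.mem_zpowers _) (k := k) ?_
  · rintro ⟨l, hl⟩
    obtain ⟨j, hj⟩ := hu
    have h2 : ∀ n : ℕ, ∃ m : ℤ, (u ^ p ^ n) ^ m = u := by
      intro n
      induction n with
      | zero => exact ⟨1, by simp⟩
      | succ n ih =>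
        obtain ⟨m, hm⟩ := ih
        refine ⟨l * m, ?_⟩
        have e : (u ^ p ^ (n + 1)) ^ l = ((u ^ p) ^ l) ^ p ^ n := by
          rw [pow_succ', pow_mul, ← zpow_natCast _ (p ^ n), ← zpow_natCast _ (p ^ n), ← zpow_mul,
            ← zpow_mul, mul_comm]
        rw [zpow_mul, e, show (u ^ p) ^ l = u from hl, hm]
    obtain ⟨m, hm⟩ := h2 j
    exact h1 (by rw [← hm, hj, one_zpow])
  · rw [inv_mul_cancel]
    exact Subgroup.one_mem _

/-- Coprime action on an abelian normal `p`-subgroup.  With `n = orderOf s`, `a = s' s⁻¹ ∈ P`: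
`N = ∏ j < n, s^j a s^-j` is fixed by `s` and congruent to `a^n` modulo the subgroup
`[P,s] = {t s t⁻¹ s⁻¹ | t ∈ P}`; as `n` is prime to `p`, `a = [t,s] c` with `c ∈ P` commuting with
`s`; then `t⁻¹ s' t = c s` is `p`-regular, so `c = 1` (`pp_mul_eq`, `pp_eq_one_iff`). -/
lemma conj_of_reg {P : Subgroup G} [P.Normal] (hP : IsPGroup p P)
    (hc : ∀ x ∈ P, ∀ y ∈ P, x * y = y * x) {s s' : G} (hs : ¬ p ∣ orderOf s)
    (hs' : ¬ p ∣ orderOf s') (h : (s : G ⧸ P) = s') : ∃ t ∈ P, s' = t * s * t⁻¹ := by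
  have hp : p.Prime := Fact.out
  have hn : P.Normal := inferInstance
  have h1 : ∀ n : ℕ, s' ^ n * (s ^ n)⁻¹ ∈ P := fun n => by
    rw [← QuotientGroup.eq_one_iff, QuotientGroup.mk_mul, QuotientGroup.mk_inv,
      QuotientGroup.mk_pow, QuotientGroup.mk_pow, h, mul_inv_cancel]
  have ha : s' * s⁻¹ ∈ P := by simpa using h1 1
  have h2 : ∀ n : ℕ, ∃ b ∈ P, (s' * s⁻¹) ^ n * (s * b * s⁻¹) = b * (s' ^ n * (s ^ n)⁻¹) := by
    intro n
    induction n with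
    | zero => exact ⟨1, P.one_mem, by simp⟩
    | succ n ih =>
      obtain ⟨b, hb, e⟩ := ih
      refine ⟨b * (s' ^ n * (s ^ n)⁻¹), P.mul_mem hb (h1 n), ?_⟩
      have e1 := hc _ ha _ (hn.conj_mem b hb s)
      calc (s' * s⁻¹) ^ (n + 1) * (s * (b * (s' ^ n * (s ^ n)⁻¹)) * s⁻¹)
          = (s' * s⁻¹) ^ n * (s' * s⁻¹ * (s * b * s⁻¹)) * (s * (s' ^ n * (s ^ n)⁻¹) * s⁻¹) := by
            rw [pow_succ]
            group
        _ = (s' * s⁻¹) ^ n * (s * b * s⁻¹) * (s' ^ (n + 1) * (s ^ (n + 1))⁻¹) := by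
            rw [e1, pow_succ' s', pow_succ' s]
            group
        _ = _ := by rw [e]
  obtain ⟨b, hb, e⟩ := h2 (orderOf s * orderOf s')
  rw [pow_mul s, pow_orderOf_eq_one, one_pow, inv_one, mul_one, pow_mul' s', pow_orderOf_eq_one,
    one_pow, mul_one] at e
  obtain ⟨j, hj⟩ := isPElt_of_mem hP ha
  obtain ⟨k, hk⟩ := exists_pow_eq_self_of_coprime (x := s' * s⁻¹) (n := orderOf s * orderOf s')
    (((hp.coprime_iff_not_dvd.2 fun e => (hp.dvd_mul.1 e).elim hs hs').symm.pow_right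
      j).coprime_dvd_right (orderOf_dvd_of_pow_eq_one hj))
  have h3 := congrArg (· ^ k) e
  rw [Commute.mul_pow (hc _ (P.pow_mem ha _) _ (hn.conj_mem b hb s)), hk, conj_pow] at h3
  refine ⟨b ^ k, P.pow_mem hb k, ?_⟩
  calc s' = s' * s⁻¹ * (s * b ^ k * s⁻¹) * s * (b ^ k)⁻¹ := by group
    _ = _ := by rw [h3]

omit [Finite G] [Fact p.Prime] in
lemma reg_mk {P : Subgroup G} [P.Normal] {s : G} (hs : ¬ p ∣ orderOf s) :
    ¬ p ∣ orderOf (s : G ⧸ P) := fun h =>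
  hs (h.trans (orderOf_map_dvd (QuotientGroup.mk' P) s))

/-- The `p'`-part of any preimage. -/
lemma mk_pq {P : Subgroup G} [P.Normal] (hP : IsPGroup p P) {g : G}
    (hg : ¬ p ∣ orderOf (g : G ⧸ P)) : (pq p g : G ⧸ P) = g := by
  have _ := hP
  rw [pq, pp_eq_one_iff.2 hg, inv_one, one_mul]

/-- The `p'`-part of any preimage (taken in `G`). -/
lemma mk_pq' {P : Subgroup G} [P.Normal] (hP : IsPGroup p P) {g : G}
    (hg : ¬ p ∣ orderOf (g : G ⧸ P)) : ((pq p g : G) : G ⧸ P) = g := by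
  have _ := hP
  obtain ⟨⟨k, h1⟩, ⟨l, h2⟩, -⟩ := pp_spec (p := p) g
  have h3 : ((pp p g : G) : G ⧸ P) = 1 := by
    refine eq_one_of_pelt_reg ⟨k, ?_⟩ fun e => hg (e.trans ?_)
    · rw [← QuotientGroup.mk_pow, h1, QuotientGroup.mk_one]
    · rw [← h2]
      exact orderOf_dvd_of_mem_zpowers ⟨l, (QuotientGroup.mk_zpow P g l).symm⟩
  rw [pq, QuotientGroup.mk_mul, QuotientGroup.mk_inv, h3, inv_one, one_mul]

end Pool.Agent.Lib.MP_b6945b_al.Bi
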