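import Pool.Agent.Lib.MP_b6945b_al.Bi.BAlg

set_option autoImplicit false

/-!
Transport of blocks along group homomorphisms.
-/

namespace Pool.Agent.Lib.MP_b6945b_al.Bi

open St IsLocalRing Finset
open MonoidAlgebra (single)

section ring
variable {R A G : Type} [CommRing R] [Group A] [Group G] {φ : A →* G} {K : Subgroup A}
  {a : MonoidAlgebra R A}

lemma Supp.inc (φ : A →* G) (h : Supp K a) : Supp (K.map φ) (inc R φ a) := by
  classical
  intro x hx
  obtain ⟨y, hy, rfl⟩ := mem_image.1 (Finsupp.mapDomain_support (Finsupp.mem_support_iff.2 hx))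
  exact ⟨y, h y (Finsupp.mem_support_iff.1 hy), rfl⟩

/-- `bic_inc_cj`. -/
lemma Fix.inc (φ : A →* G) (h : Fix K a) : Fix (K.map φ) (inc R φ a) := by
  rintro _ ⟨g, hg, rfl⟩
  rw [← bic_inc_cj, h g hg]

lemma toRes_inc [IsLocalRing R] (φ : A →* G) (a : MonoidAlgebra R A) :
    toRes R G (inc R φ a) = inc (ResidueField R) φ (toRes R A a) := by
  induction a using MonoidAlgebra.induction_linear with
  | zero => simp only [map_zero]
  | add a b ha hb => simp only [map_add, ha, hb]
  | single g r => simp [inc_single, toRes]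

open Classical in
lemma coeff_inc_sum [Fintype A] (φ : A →* G) (a : MonoidAlgebra R A) (g : G) :
    (inc R φ a).coeff g = ∑ y, if φ y = g then a.coeff y else 0 := by
  rw [trunc_coeff_inc, Finsupp.mapDomain, Finsupp.sum_fintype _ _ fun _ => Finsupp.single_zero _,
    Finsupp.finsetSum_apply]
  exact sum_congr rfl fun y _ => Finsupp.single_apply

lemma inc_injective (hφ : Function.Injective φ) : Function.Injective (inc R φ) := by
  intro a b h
  ext x
  rw [← coeff_inc hφ, h, coeff_inc hφ]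

lemma supp_inc_iff (hφ : Function.Injective φ) : Supp (K.map φ) (inc R φ a) ↔ Supp K a := by
  exact ⟨fun h x hx => (Subgroup.mem_map_iff_mem hφ).1 (h _ (by rwa [coeff_inc hφ])),
    fun h => h.inc φ⟩

lemma fix_inc_iff (hφ : Function.Injective φ) : Fix (K.map φ) (inc R φ a) ↔ Fix K a := by
  exact ⟨fun h g hg => inc_injective hφ (by rw [bic_inc_cj, h _ ⟨g, hg, rfl⟩]),
    fun h => h.inc φ⟩

lemma trc_inc (hφ : Function.Injective φ) (K : Subgroup A) (a : MonoidAlgebra R A) :
    trc R (K.map φ) (inc R φ a) = inc R φ (trc R K a) := by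
  ext g
  by_cases e : g ∈ φ.range
  · obtain ⟨x, rfl⟩ := e
    rw [coeff_trc, coeff_inc hφ, coeff_inc hφ, coeff_trc]
    by_cases h : x ∈ K
    · rw [if_pos h, if_pos (Subgroup.mem_map_of_mem φ h)]
    · rw [if_neg h, if_neg fun e => h ((Subgroup.mem_map_iff_mem hφ).1 e)]
  · rw [coeff_trc, coeff_inc_of_notMem φ _ e, coeff_inc_of_notMem φ _ e, ite_self]

variable [Fintype A]

lemma exists_inc (hφ : Function.Injective φ) {b : MonoidAlgebra R G} (hb : Supp (K.map φ) b) :
    ∃ a, inc R φ a = b := by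
  exact ⟨_, inc_pull hφ fun g hg => Subgroup.map_le_range φ K (hb g hg)⟩

lemma inc_pull_supp {H : Subgroup G} [Fintype H] {b : MonoidAlgebra R G} (hb : Supp H b) :
    inc R H.subtype (pull R H.subtype b) = b := by
  exact inc_pull H.subtype_injective fun g hg => ⟨⟨g, hb g hg⟩, rfl⟩

lemma nilR_inc_iff [IsLocalRing R] (hφ : Function.Injective φ) :
    NilR R (inc R φ a) ↔ NilR R a := by
  rw [nilR_iff_res, nilR_iff_res, toRes_inc]
  exact IsNilpotent.map_iff (inc_injective hφ)

end ring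

variable {A G : Type} [Group A] [Fintype A] [Group G] [Fintype G] {V : ValuationSubring ℂ}
  {φ : A →* G} {K : Subgroup A} {β c : MonoidAlgebra V A}

lemma ev_inc (φ : A →* G) (x : G → ℂ) (a : MonoidAlgebra V A) :
    ev x (inc V φ a) = ev (fun y => x (φ y)) a := by
  classical
  simp only [ev, cf]
  have h : ∀ g, (((inc V φ a).coeff g : V) : ℂ) * x g =
      ∑ y, if φ y = g then (a.coeff y : ℂ) * x (φ y) else 0 := fun g => by
    rw [coeff_inc_sum, AddSubmonoidClass.coe_finsetSum, sum_mul]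
    refine sum_congr rfl fun y _ => ?_
    split_ifs with e
    · rw [e]
    · simp
  rw [sum_congr rfl fun g _ => h g, sum_comm]
  simp

lemma hb_inc_iff (hφ : Function.Injective φ) : HB (K.map φ) (inc V φ β) ↔ HB K β := by
  have e : ∀ (z : MonoidAlgebra V A) (v : V),
      NilR V (inc V φ z * inc V φ β - v • inc V φ β) ↔ NilR V (z * β - v • β) := fun z v => by
    rw [← map_mul, ← map_smul, ← map_sub, nilR_inc_iff hφ]
  constructor
  · intro h
    refine ⟨inc_injective hφ (by rw [map_mul, h.idem]), (supp_inc_iff hφ).1 h.supp,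
      (fix_inc_iff hφ).1 h.fix, fun e => h.ne (by rw [e, map_zero]), fun z h1 h2 => ?_⟩
    obtain ⟨v, hv⟩ := h.loc _ (h1.inc φ) (h2.inc φ)
    exact ⟨v, (e z v).1 hv⟩
  · intro h
    refine ⟨by rw [← map_mul, h.idem], h.supp.inc φ, h.fix.inc φ,
      fun e => h.ne (inc_injective hφ (by rw [e, map_zero])), fun z h1 h2 => ?_⟩
    obtain ⟨z, rfl⟩ := exists_inc hφ h1
    obtain ⟨v, hv⟩ := h.loc _ ((supp_inc_iff hφ).1 h1) ((fix_inc_iff hφ).1 h2)
    exact ⟨v, (e z v).2 hv⟩

/-- `bb_eq_trc`, `toRes_inc`; on the range of `φ` the centraliser of `P.map φ` is `(Cz P).map φ`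
(`Cz_map`). -/
lemma bb_inc (hφ : Function.Injective φ) (P : Subgroup A) (a : MonoidAlgebra V A) :
    bb (P.map φ) (inc V φ a) = inc (ResidueField V) φ (bb P a) := by
  rw [bb_eq_trc, bb_eq_trc, toRes_inc, ← trc_inc hφ, Cz_map hφ, inf_comm, ← trc_trc,
    trc_of_supp (((supp_top _).inc φ).mono (Subgroup.map_le_range φ ⊤))]

lemma le_inc_iff (hφ : Function.Injective φ) {P : Subgroup A} :
    Le (P.map φ) (inc V φ β) (inc V φ c) ↔ Le P β c := by
  rw [Le, Le, bb_inc hφ, toRes_inc, ← map_mul]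
  exact (inc_injective hφ).eq_iff

omit [Fintype A] in
lemma btr1_rank {W : Submodule ℂ (G → ℂ)} (h : ∀ x ∈ W, ∀ g, g ∉ φ.range → x g = 0) :
    Module.finrank ℂ (W.map (LinearMap.funLeft ℂ ℂ φ)) = Module.finrank ℂ W := by
  rw [← LinearMap.range_domRestrict]
  refine LinearMap.finrank_range_of_inj ((injective_iff_map_eq_zero _).2 fun x hx => ?_)
  refine Subtype.ext (funext fun g => ?_)
  by_cases e : g ∈ φ.range
  · obtain ⟨y, rfl⟩ := e
    exact congrFun hx y
  · exact h x x.2 g e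

lemma btr1_ev (x : G → ℂ) (g : A) :
    ev x (single (φ g) 1 * inc V φ β) = ev (fun y => x (φ y)) (single g 1 * β) := by
  rw [← ev_inc, map_mul, inc_single]

lemma btr1_map (hφ : Function.Injective φ) :
    (CFs (K.map φ) (inc V φ β)).map (LinearMap.funLeft ℂ ℂ φ) = CFs K β := by
  refine le_antisymm ?_ fun y hy => ?_
  · rintro _ ⟨x, ⟨h1, h2, h3⟩, rfl⟩
    refine ⟨fun g hg => h1 _ fun e => hg ((Subgroup.mem_map_iff_mem hφ).1 e), fun h hh g => ?_,
      fun g hg => (btr1_ev x g).symm.trans (h3 _ ⟨g, hg, rfl⟩)⟩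
    show x (φ (h * g * h⁻¹)) = x (φ g)
    rw [map_mul, map_mul, map_inv]
    exact h2 _ ⟨h, hh, rfl⟩ _
  · obtain ⟨h1, h2, h3⟩ := hy
    have a1 : ∀ g, Function.extend φ y 0 (φ g) = y g := hφ.extend_apply y 0
    have a2 : ∀ g, g ∉ φ.range → Function.extend φ y 0 g = 0 := fun g hg =>
      Function.extend_apply' y (0 : G → ℂ) g hg
    refine ⟨Function.extend φ y 0, ⟨fun g hg => ?_, ?_, ?_⟩, funext a1⟩
    · by_cases e : g ∈ φ.range
      · obtain ⟨g, rfl⟩ := e
        rw [a1]
        exact h1 g fun e => hg ⟨g, e, rfl⟩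
      · exact a2 g e
    · rintro _ ⟨h, hh, rfl⟩ g
      by_cases e : g ∈ φ.range
      · obtain ⟨g, rfl⟩ := e
        rw [← map_inv, ← map_mul, ← map_mul, a1, a1, h2 h hh]
      · rw [a2 g e, a2]
        have a3 : φ h ∈ φ.range := ⟨h, rfl⟩
        rwa [Subgroup.mul_mem_cancel_right _ (Subgroup.inv_mem _ a3),
          Subgroup.mul_mem_cancel_left _ a3]
    · rintro _ ⟨g, hg, rfl⟩
      rw [btr1_ev, a1, funext a1]
      exact h3 g hg

/-- The linear map `x ↦ x ∘ φ` is injective on functions supported on the range of `φ`, and maps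
`CFs (K.map φ) (inc β)` onto `CFs K β` (extend by zero: `Function.extend φ x 0`). -/
lemma kL_inc (hφ : Function.Injective φ) (hβ : Supp K β) :
    kL (K.map φ) (inc V φ β) = kL K β := by
  have _ := hβ
  rw [kL, kL, ← btr1_map hφ, btr1_rank]
  exact fun x hx g hg => hx.1 g fun e => hg (Subgroup.map_le_range φ K e)

/-- As `kL_inc`; `orderOf_injective`. -/
lemma lL_inc (p : ℕ) (hφ : Function.Injective φ) (hβ : Supp K β) :
    lL p (K.map φ) (inc V φ β) = lL p K β := by
  have _ := hβ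
  have e : (Reg p).comp (LinearMap.funLeft ℂ ℂ φ) = (LinearMap.funLeft ℂ ℂ φ).comp (Reg p) := by
    refine LinearMap.ext fun x => funext fun g => ?_
    show Reg p (fun y => x (φ y)) g = Reg p x (φ g)
    by_cases h : p ∣ orderOf g
    · rw [Reg_apply_sing _ h, Reg_apply_sing _ (by rwa [orderOf_injective φ hφ])]
    · rw [Reg_apply_reg _ h, Reg_apply_reg _ (by rwa [orderOf_injective φ hφ])]
  rw [lL, lL, ← btr1_map hφ, ← Submodule.map_comp, e, Submodule.map_comp, btr1_rank]
  rintro _ ⟨x, hx, rfl⟩ g hg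
  by_cases h : p ∣ orderOf g
  · exact Reg_apply_sing _ h
  · rw [Reg_apply_reg _ h]
    exact hx.1 g fun e => hg (Subgroup.map_le_range φ K e)

lemma maxR_inc_iff {p : ℕ} (hφ : Function.Injective φ) {D : Subgroup A} :
    MaxR p (K.map φ) (D.map φ) (inc V φ β) ↔ MaxR p K D β := by
  constructor
  · intro h y hy S h1 h2 h3
    have h4 := h (φ y) (by rwa [coeff_inc hφ]) (S.map φ) (Subgroup.map_mono h1) (h2.map φ) (by
      rintro _ ⟨s, hs, rfl⟩
      rw [← map_mul, h3 s hs, map_mul])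
    rwa [Subgroup.card_map_of_injective hφ, Subgroup.card_map_of_injective hφ] at h4
  · intro h y hy S h1 h2 h3
    obtain ⟨y, rfl⟩ : y ∈ φ.range := by
      by_contra e
      exact hy (by rw [coeff_inc_of_notMem φ _ e]; exact zero_mem _)
    have h4 := h y (by rwa [coeff_inc hφ] at hy) (S.comap φ)
      (fun s hs => (Subgroup.mem_map_iff_mem hφ).1 (h1 hs)) (h2.comap_of_injective φ hφ)
      fun s hs => hφ (by rw [map_mul, map_mul]; exact h3 _ hs)
    rwa [← Subgroup.card_map_of_injective hφ,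
      Subgroup.map_comap_eq_self (h1.trans (Subgroup.map_le_range φ K)),
      ← Subgroup.card_map_of_injective (K := D) hφ] at h4

lemma stabT_inc (hφ : Function.Injective φ) (K D : Subgroup A) (c : MonoidAlgebra V A) :
    stabT (K.map φ) (D.map φ) (inc V φ c) = (stabT K D c).map φ := by
  ext n
  constructor
  · rintro ⟨⟨n, h1, rfl⟩, h2, h3⟩
    refine ⟨n, ⟨h1, (Subgroup.mem_map_iff_mem hφ).1 ?_, inc_injective hφ ?_⟩, rfl⟩
    · rw [Nz_map hφ]
      exact ⟨⟨n, rfl⟩, h2⟩
    · rw [bic_inc_cj, h3]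
  · rintro ⟨n, ⟨h1, h2, h3⟩, rfl⟩
    exact ⟨⟨n, h1, rfl⟩, Subgroup.le_normalizer_map φ ⟨n, h2, rfl⟩, by rw [← bic_inc_cj, h3]⟩

lemma lL_le_kL (p : ℕ) (H : Subgroup G) (b : MonoidAlgebra V G) : lL p H b ≤ kL H b := by
  exact Submodule.finrank_map_le _ _

end Pool.Agent.Lib.MP_b6945b_al.Bi
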