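import Pool.Agent.Lib.MP_b6945b_al.Bi.BOrth
import Pool.Agent.Lib.MP_b6945b_al.Bi.BTr1

set_option autoImplicit false

/-!
Brauer characters of a quotient by a normal abelian `p`-subgroup.
-/

namespace Pool.Agent.Lib.MP_b6945b_al.Bi

open St IsLocalRing Finset
open MonoidAlgebra (single)

section group
variable {G : Type} [Group G]

/-- The quotient map. -/
abbrev qm (P : Subgroup G) [P.Normal] : G →* G ⧸ P := QuotientGroup.mk' P

variable {P H D : Subgroup G} [P.Normal]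

lemma mem_map_qm (hPH : P ≤ H) {g : G} : qm P g ∈ H.map (qm P) ↔ g ∈ H := by
  rw [← Subgroup.mem_comap, Subgroup.comap_map_eq_self ((QuotientGroup.ker_mk' P).trans_le hPH)]

lemma map_top_qm (P : Subgroup G) [P.Normal] : (⊤ : Subgroup G).map (qm P) = ⊤ := by
  exact Subgroup.map_top_of_surjective _ (QuotientGroup.mk'_surjective P)

lemma map_self_qm (P : Subgroup G) [P.Normal] : P.map (qm P) = ⊥ := by
  exact QuotientGroup.map_mk'_self P

lemma card_map_qm (hPH : P ≤ H) : Nat.card (H.map (qm P)) * Nat.card P = Nat.card H := by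
  rw [← Subgroup.relIndex_ker, QuotientGroup.ker_mk',
    ← Nat.card_congr (Subgroup.subgroupOfEquivOfLe hPH).toEquiv]
  exact Subgroup.index_mul_card _

lemma map_comap_qm (S : Subgroup (G ⧸ P)) : (S.comap (qm P)).map (qm P) = S := by
  exact Subgroup.map_comap_eq_self_of_surjective (QuotientGroup.mk'_surjective P) S

lemma le_comap_qm (S : Subgroup (G ⧸ P)) : P ≤ S.comap (qm P) := by
  exact (QuotientGroup.ker_mk' P).ge.trans (Subgroup.ker_le_comap _ _)

lemma pgroup_comap_qm {p : ℕ} (hP : IsPGroup p P) {S : Subgroup (G ⧸ P)} (hS : IsPGroup p S) :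
    IsPGroup p (S.comap (qm P)) := by
  exact hS.comap_of_ker_isPGroup _ ((QuotientGroup.ker_mk' P).symm ▸ hP)

lemma Nz_map_qm (hPD : P ≤ D) : Nz (D.map (qm P)) = (Nz D).map (qm P) := by
  rw [← map_comap_qm (Nz (D.map (qm P))),
    Subgroup.comap_normalizer_eq_of_surjective _ (QuotientGroup.mk'_surjective P),
    Subgroup.comap_map_eq_self ((QuotientGroup.ker_mk' P).trans_le hPD)]

lemma map_Cz_le (P D : Subgroup G) [P.Normal] : (Cz D).map (qm P) ≤ Cz (D.map (qm P)) := by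
  rintro _ ⟨x, hx, rfl⟩
  refine mem_Cz.2 ?_
  rintro _ ⟨d, hd, rfl⟩
  rw [← map_mul, mem_Cz.1 hx d hd, map_mul]

lemma card_quot_lt [Finite G] (h : P ≠ ⊥) : Nat.card (G ⧸ P) < Nat.card G := by
  rw [Subgroup.card_eq_card_quotient_mul_card_subgroup P]
  exact lt_mul_of_one_lt_right Nat.card_pos (P.one_lt_card_iff_ne_bot.2 h)

end group

variable {G : Type} [Group G] [Fintype G] {V : ValuationSubring ℂ} {p : ℕ} [Fact p.Prime]
  {P H : Subgroup G} [P.Normal] [Fintype (G ⧸ P)] {ε : MonoidAlgebra V G}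

open Classical in
/-- A class function of `H` descends on `p`-regular elements: put `x' y = x s` if `y = qm P s` with
`s ∈ H` `p`-regular, and `0` otherwise (`conj_of_reg`, `mem_map_qm`). -/
lemma exists_descend (hP : IsPGroup p P) (hc : ∀ x ∈ P, ∀ y ∈ P, x * y = y * x) (hPH : P ≤ H)
    {x : G → ℂ} (hx : ∀ h ∈ H, ∀ g, x (h * g * h⁻¹) = x g) :
    ∃ x' : G ⧸ P → ℂ, (∀ h ∈ H.map (qm P), ∀ g ∈ H.map (qm P), x' (h * g * h⁻¹) = x' g) ∧
      ∀ s ∈ H, ¬ p ∣ orderOf s → x' (qm P s) = x s := by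
  have key : ∀ s ∈ H, ¬ p ∣ orderOf s →
      (if h : ∃ t ∈ H, ¬ p ∣ orderOf t ∧ qm P t = qm P s then x h.choose else 0) = x s := by
    intro s h1 h2
    have h : ∃ t ∈ H, ¬ p ∣ orderOf t ∧ qm P t = qm P s := ⟨s, h1, h2, rfl⟩
    obtain ⟨t, ht, e⟩ := conj_of_reg hP hc h.choose_spec.2.1 h2 h.choose_spec.2.2
    rw [dif_pos h, ← hx t (hPH ht), ← e]
  refine ⟨fun y => if h : ∃ t ∈ H, ¬ p ∣ orderOf t ∧ qm P t = y then x h.choose else 0, ?_, key⟩
  rintro _ ⟨a, ha, rfl⟩ g -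
  by_cases e : ∃ t ∈ H, ¬ p ∣ orderOf t ∧ qm P t = g
  · obtain ⟨s, h1, h2, rfl⟩ := e
    rw [← map_inv, ← map_mul, ← map_mul]
    exact (key _ (H.mul_mem (H.mul_mem ha h1) (H.inv_mem ha)) (by rwa [borth_ord])).trans
      ((hx a ha s).trans (key s h1 h2).symm)
  · beta_reduce
    rw [dif_neg e, dif_neg]
    rintro ⟨s, h1, h2, h3⟩
    refine e ⟨a⁻¹ * s * a⁻¹⁻¹, H.mul_mem (H.mul_mem (H.inv_mem ha) h1) (H.inv_mem (H.inv_mem ha)),
      by rwa [borth_ord], ?_⟩
    rw [map_mul, map_mul, h3, inv_inv, map_inv]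
    group

/-- The linear map `Ψ y = Reg (y ∘ qm P)` is injective on `(CFs _ _).map Reg` (`mk_pq'`,
`pp_spec`), maps it into `(CFs H ε).map Reg` (`ev_inc`, `reg_mk`, `mem_map_qm`), and onto: for
`x ∈ CFs H ε` take `x'` from `exists_descend`, project it by `proj_mem_CFs`, and use `ev_inc`,
`orth_reg` twice, `ev_congr`. -/
theorem lL_quot (hp : (p : ℂ) ∈ V.nonunits) (hP : IsPGroup p P)
    (hc : ∀ x ∈ P, ∀ y ∈ P, x * y = y * x) (hPH : P ≤ H) (hε : ε * ε = ε) (hs : Supp H ε)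
    (hf : Fix H ε) : lL p (H.map (qm P)) (inc V (qm P) ε) = lL p H ε := by
  classical
  have a1 : ∀ y : G ⧸ P → ℂ, ((Reg p).comp (LinearMap.funLeft ℂ ℂ (qm P))) (Reg p y) =
      Reg p fun g => y (qm P g) := fun y => funext fun g => by
    show Reg p (fun g => Reg p y (qm P g)) g = _
    by_cases h : p ∣ orderOf g
    · rw [Reg_apply_sing _ h, Reg_apply_sing _ h]
    · rw [Reg_apply_reg _ h, Reg_apply_reg _ h]
      exact Reg_apply_reg _ (reg_mk h)
  have a2 : ((CFs (H.map (qm P)) (inc V (qm P) ε)).map (Reg p)).map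
      ((Reg p).comp (LinearMap.funLeft ℂ ℂ (qm P))) = (CFs H ε).map (Reg p) := by
    refine le_antisymm ?_ ?_
    · rintro _ ⟨_, ⟨y, ⟨h1, h2, h3⟩, rfl⟩, rfl⟩
      refine ⟨fun g => y (qm P g), ⟨fun g hg => h1 _ fun e => hg ((mem_map_qm hPH).1 e),
        fun h hh g => ?_, fun g hg => (btr1_ev y g).symm.trans (h3 _ ⟨g, hg, rfl⟩)⟩, (a1 y).symm⟩
      show y (qm P (h * g * h⁻¹)) = y (qm P g)
      rw [map_mul, map_mul, map_inv]
      exact h2 _ ⟨h, hh, rfl⟩ _
    · rintro _ ⟨x, ⟨h1, h2, h3⟩, rfl⟩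
      obtain ⟨x', b1, b2⟩ := exists_descend hP hc hPH h2
      refine ⟨_, ⟨_, proj_mem_CFs (by rw [← map_mul, hε]) (hs.inc (qm P)) (hf.inc (qm P)) b1,
        rfl⟩, (a1 _).trans (funext fun g => ?_)⟩
      by_cases h : p ∣ orderOf g
      · rw [Reg_apply_sing _ h, Reg_apply_sing _ h]
      rw [Reg_apply_reg _ h, Reg_apply_reg _ h]
      by_cases hg : g ∈ H
      · rw [if_pos ((mem_map_qm hPH).2 hg), btr1_ev, ← h3 g hg,
          ← orth_reg hp hε hs hf (fun h hh g _ => h2 h hh g) hg h,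
          ← orth_reg hp hε hs hf (z := fun g => x' (qm P g)) (fun a ha b hb => by
            show x' (qm P (a * b * a⁻¹)) = x' (qm P b)
            rw [map_mul, map_mul, map_inv]
            exact b1 _ ⟨a, ha, rfl⟩ _ ⟨b, hb, rfl⟩) hg h]
        refine ev_congr ((supp_single hg 1).mul hs) fun t ht => ?_
        by_cases e : p ∣ orderOf t
        · rw [Reg_apply_sing _ e, Reg_apply_sing _ e]
        · rw [Reg_apply_reg _ e, Reg_apply_reg _ e, b2 t ht e]
      · rw [if_neg fun e => hg ((mem_map_qm hPH).1 e), h1 g hg]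
  rw [lL, lL, ← a2, ← LinearMap.range_domRestrict _ ((Reg p).comp _), eq_comm]
  refine LinearMap.finrank_range_of_inj ((injective_iff_map_eq_zero _).2 ?_)
  rintro ⟨_, y, hy, rfl⟩ h0
  refine Subtype.ext (funext fun q => ?_)
  by_cases h : p ∣ orderOf q
  · exact Reg_apply_sing _ h
  · obtain ⟨g, rfl⟩ := QuotientGroup.mk_surjective q
    have h1 := congrFun ((a1 y).symm.trans h0) (pq p g)
    rw [Reg_apply_reg _ (pp_spec g).2.2] at h1
    exact (Reg_apply_reg _ h).trans ((congrArg y (mk_pq' hP h)).symm.trans h1)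

end Pool.Agent.Lib.MP_b6945b_al.Bi
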