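import Pool.Agent.Lib.MP_b6945b_al.Bi.BMat
import Pool.Agent.Lib.MP_b6945b_al.Bi.BLab

set_option autoImplicit false

/-!
The rank of the projection attached to an orbit.
-/

namespace Pool.Agent.Lib.MP_b6945b_al.Bi

open St IsLocalRing Finset
open MonoidAlgebra (single)

variable {G : Type} [Group G] [Fintype G] {V : ValuationSubring ℂ} {p : ℕ} [Fact p.Prime]

variable {m : ℕ} {D : Subgroup G} {c₀ : MonoidAlgebra V G} {d : G}

/-- `Star_mul`, `eta_orb`, `lab_self`, `Lab.same`. -/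
lemma Star_orb_self (hp : (p : ℂ) ∈ V.nonunits) (h : Rt p m ⊤ D c₀) (hd : d ∈ D) (x : G → ℂ)
    {s : G} (hs : s ∈ Cu d) (hr : ¬ p ∣ orderOf s) :
    Star p (eta D c₀ (orb (stabT ⊤ D c₀) d)) x (d * s) =
      ev x (single (d * s) 1 * bk D c₀ (Cu d)) := by
  classical
  rw [Star_mul _ x (h.pelt hd) hs hr, Finset.sum_eq_single (bk D c₀ (Cu d))]
  · rw [eta_orb hp h hd, if_pos (lab_self hd), one_mul]
  · intro c _ hc
    rw [eta_orb hp h hd, if_neg fun hl => hc (hl.same hp h (lab_self hd)), zero_mul]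
  · exact fun e => absurd (mem_blk.2 (h.hb_cu hp hd)) e

lemma Star_orb_ne (hp : (p : ℂ) ∈ V.nonunits) (h : Rt p m ⊤ D c₀) (hd : d ∈ D) (x : G → ℂ)
    {g : G} (hg : ¬ IsConj d (pp p g)) : Star p (eta D c₀ (orb (stabT ⊤ D c₀) d)) x g = 0 := by
  classical
  rw [Star_apply]
  refine Finset.sum_eq_zero fun c _ => ?_
  rw [eta_orb hp h hd, if_neg, zero_mul]
  rintro ⟨-, a, ha, -⟩
  exact hg (isConj_iff.2 ⟨a, ha.symm⟩)

/-- `x g = |Cu u|⁻¹ ∑ a, if pp (a⁻¹ g a) = u then w (pq (a⁻¹ g a)) else 0`. -/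
lemma exists_section {u : G} (hu : IsPElt p u) {w : G → ℂ}
    (hw : ∀ a ∈ Cu u, ∀ g, w (a * g * a⁻¹) = w g) :
    ∃ x : G → ℂ, IsCF x ∧ ∀ s ∈ Cu u, ¬ p ∣ orderOf s → x (u * s) = w s := by
  classical
  obtain ⟨x, h1, h2⟩ : ∃ x : G → ℂ, (∀ g a, pp p g = a * u * a⁻¹ → x g = w (a⁻¹ * pq p g * a)) ∧
      ∀ g, (¬ ∃ a, pp p g = a * u * a⁻¹) → x g = 0 := by
    refine ⟨fun g => if e : ∃ a, pp p g = a * u * a⁻¹ then
      w (e.choose⁻¹ * pq p g * e.choose) else 0, fun g a ha => ?_, fun g hg => dif_neg hg⟩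
    have e : ∃ a, pp p g = a * u * a⁻¹ := ⟨a, ha⟩
    have h3 := e.choose_spec
    simp only [dif_pos e]
    generalize e.choose = a' at h3
    have h4 : a⁻¹ * a' ∈ Cu u := by
      refine mem_Cu.2 ?_
      calc u * (a⁻¹ * a') = a⁻¹ * (a * u * a⁻¹) * a' := by group
        _ = a⁻¹ * a' * u := by rw [← ha, h3]; group
    rw [← hw _ h4]
    congr 1
    group
  refine ⟨x, fun k g => ?_, fun s hs hr => ?_⟩
  · by_cases e : ∃ a, pp p g = a * u * a⁻¹
    · obtain ⟨a, ha⟩ := e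
      rw [h1 g a ha, h1 _ (k * a) (by rw [pp_conj, ha]; group), pq_conj]
      congr 1
      group
    · rw [h2 g e, h2]
      rintro ⟨a, ha⟩
      refine e ⟨k⁻¹ * a, ?_⟩
      calc pp p g = k⁻¹ * (k * pp p g * k⁻¹) * k := by group
        _ = k⁻¹ * a * u * (k⁻¹ * a)⁻¹ := by rw [← pp_conj, ha]; group
  · rw [h1 _ 1 (by rw [pp_mul_eq hu hr (mem_Cu.1 hs)]; group), pq_mul_eq hu hr (mem_Cu.1 hs),
      inv_one, one_mul, mul_one]

open Classical in
/-- Restriction to the section of `d`. -/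
noncomputable def brank_psi {G : Type} [Group G] (p : ℕ) (d : G) : (G → ℂ) →ₗ[ℂ] (G → ℂ) :=
  Reg p ∘ₗ
    { toFun := fun y s => if s ∈ Cu d then y (d * s) else 0
      map_add' := fun x y => by
        ext s
        by_cases h : s ∈ Cu d <;> simp [h]
      map_smul' := fun a x => by
        ext s
        by_cases h : s ∈ Cu d <;> simp [h] }

omit [Fintype G] [Fact p.Prime] in
lemma brank_psi_apply (y : G → ℂ) {s : G} (hs : s ∈ Cu d) (hr : ¬ p ∣ orderOf s) :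
    brank_psi p d y s = y (d * s) := (Reg_apply_reg _ hr).trans (if_pos hs)

omit [Fintype G] [Fact p.Prime] in
lemma brank_psi_sing (y : G → ℂ) {s : G} (hr : p ∣ orderOf s) : brank_psi p d y s = 0 :=
  Reg_apply_sing _ hr

omit [Fintype G] [Fact p.Prime] in
lemma brank_psi_out (y : G → ℂ) {s : G} (hs : s ∉ Cu d) : brank_psi p d y s = 0 := by
  by_cases hr : p ∣ orderOf s
  · exact Reg_apply_sing _ hr
  · exact (Reg_apply_reg _ hr).trans (if_neg hs)

/-- Let `η = eta (orb d)`, `b = bk D c₀ (Cu d)`, `W = (CFs ⊤ e).map (Star η)` and `Ψ` the linear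
map `y ↦ Reg (fun s => if s ∈ Cu d then y (d s) else 0)`.  `Ψ` is injective on `W` (`Star_cf`,
`Star_orb_ne`, `pp_conj`), maps `W` into `(CFs (Cu d) b).map Reg` (`Star_orb_self`,
`proj_mem_CFs`), and onto: for `w ∈ CFs (Cu d) b` take `x` from `exists_section`; then
`Star η x = Star η (Star η x) ∈ W` (`Star_Star`, `Star_mem`) and `ev x (d s b) = w s` by
`orth_reg` twice. -/
theorem finrank_orb (hp : (p : ℂ) ∈ V.nonunits) (h : Rt p m ⊤ D c₀) (hd : d ∈ D) :
    Module.finrank ℂ ((CFs ⊤ (bk D c₀ ⊤)).map (Star p (eta D c₀ (orb (stabT ⊤ D c₀) d)))) =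
      lL p (Cu d) (bk D c₀ (Cu d)) := by
  classical
  have hb := h.hb_cu hp hd
  have he : HB ⊤ (bk D c₀ ⊤) := by
    have := h.hb_cu hp D.one_mem
    rwa [Cu_one] at this
  have hη : EtaInv (eta D c₀ (orb (stabT ⊤ D c₀) d)) := eta_inv hp h (invT_orb _ _ _)
  have hself : ∀ x : G → ℂ, ∀ s ∈ Cu d, ¬ p ∣ orderOf s →
      Star p (eta D c₀ (orb (stabT ⊤ D c₀) d)) x (d * s) =
        ev (fun t => x (d * t)) (single s 1 * bk D c₀ (Cu d)) := fun x s hs hr => by
    rw [Star_orb_self hp h hd x hs hr, ev_single_mul, ev_single_mul]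
    simp only [mul_assoc]
  have hz : ∀ {x : G → ℂ}, IsCF x → ∀ k ∈ Cu d, ∀ g ∈ Cu d,
      (fun t => x (d * t)) (k * g * k⁻¹) = (fun t => x (d * t)) g := fun {x} hx k hk g _ => by
    change x (d * (k * g * k⁻¹)) = x (d * g)
    rw [← hx k (d * g), ← mul_assoc, ← mul_assoc, mem_Cu.1 hk, mul_assoc k d g]
  have h2 : (fun u c => eta D c₀ (orb (stabT ⊤ D c₀) d) u c * eta D c₀ (orb (stabT ⊤ D c₀) d) u c) =
      eta D c₀ (orb (stabT ⊤ D c₀) d) := by
    funext u c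
    rw [eta_orb hp h hd]
    split_ifs <;> simp
  have hne := fun x g => Star_orb_ne hp h hd x (g := g)
  have hmem := fun x => Star_mem (x := x) hp he.idem he.fix hη (eta_supp hp h _)
  generalize eta D c₀ (orb (stabT ⊤ D c₀) d) = η at hη hself h2 hne hmem ⊢
  generalize bk D c₀ (Cu d) = b at hb hself ⊢
  generalize bk D c₀ ⊤ = e at he hmem ⊢
  have hinj : Function.Injective ((brank_psi p d).domRestrict ((CFs ⊤ e).map (Star p η))) := by
    refine (injective_iff_map_eq_zero _).2 ?_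
    rintro ⟨_, x, hx, rfl⟩ h0
    refine Subtype.ext (funext fun g => ?_)
    change Star p η x g = 0
    by_cases hc : IsConj d (pp p g)
    · obtain ⟨a, ha⟩ := isConj_iff.1 hc
      have h3 : pp p (a⁻¹ * g * a⁻¹⁻¹) = d := by rw [pp_conj, ← ha]; group
      have h4 := congrFun h0 (pq p (a⁻¹ * g * a⁻¹⁻¹))
      have h5 := pp_mul_pq (p := p) (a⁻¹ * g * a⁻¹⁻¹)
      have h6 := pq_mem_Cu (p := p) (a⁻¹ * g * a⁻¹⁻¹)
      rw [h3] at h5 h6
      rw [LinearMap.domRestrict_apply, brank_psi_apply _ h6 (pp_spec _).2.2, h5] at h4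
      rw [← Star_cf hη (cf_of_mem hx) a⁻¹ g]
      exact h4
    · exact hne x g hc
  rw [← LinearMap.finrank_range_of_inj hinj, LinearMap.range_domRestrict, lL]
  refine congrArg (fun W : Submodule ℂ (G → ℂ) => Module.finrank ℂ W) (le_antisymm ?_ ?_)
  · rintro _ ⟨_, ⟨x, hx, rfl⟩, rfl⟩
    refine ⟨_, proj_mem_CFs (z := fun t => x (d * t)) hb.idem hb.supp hb.fix (hz (cf_of_mem hx)),
      funext fun s => ?_⟩
    by_cases hr : p ∣ orderOf s
    · rw [Reg_apply_sing _ hr, brank_psi_sing _ hr]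
    · rw [Reg_apply_reg _ hr]
      by_cases hs : s ∈ Cu d
      · rw [if_pos hs, brank_psi_apply _ hs hr, hself x s hs hr]
      · rw [if_neg hs, brank_psi_out _ hs]
  · rintro _ ⟨w, hw, rfl⟩
    obtain ⟨w1, w2, w3⟩ := mem_CFs.1 hw
    obtain ⟨x, hx, hxw⟩ := exists_section (h.pelt hd) w2
    refine ⟨Star p η x, ⟨Star p η x, hmem x hx, by rw [Star_Star hp hη hx, h2]⟩,
      funext fun s => ?_⟩
    by_cases hr : p ∣ orderOf s
    · rw [Reg_apply_sing _ hr, brank_psi_sing _ hr]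
    · rw [Reg_apply_reg _ hr]
      by_cases hs : s ∈ Cu d
      · rw [brank_psi_apply _ hs hr, hself x s hs hr,
          ← orth_reg (z := fun t => x (d * t)) hp hb.idem hb.supp hb.fix (hz hx) hs hr,
          ← w3 s hs,
          ← orth_reg hp hb.idem hb.supp hb.fix (fun k hk g _ => w2 k hk g) hs hr]
        refine ev_congr ((supp_single hs 1).mul hb.supp) fun g hg => ?_
        by_cases hg' : p ∣ orderOf g
        · rw [Reg_apply_sing _ hg', Reg_apply_sing _ hg']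
        · rw [Reg_apply_reg _ hg', Reg_apply_reg _ hg', hxw g hg hg']
      · rw [w1 s hs, brank_psi_out _ hs]

open Classical in
theorem rank_orb (hp : (p : ℂ) ∈ V.nonunits) (h : Rt p m ⊤ D c₀) (hd : d ∈ D) {I : IrrData G}
    {i₀ : Fin I.n} (he : IsBlockIdem I i₀ (bk D c₀ ⊤)) :
    (mat p I i₀ (eta D c₀ (orb (stabT ⊤ D c₀) d))).rank = lL p (Cu d) (bk D c₀ (Cu d)) := by
  rw [rank_mat hp he (eta_inv hp h (invT_orb _ _ _)) (eta_supp hp h _), finrank_orb hp h hd]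

end Pool.Agent.Lib.MP_b6945b_al.Bi
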