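import Pool.Agent.Lib.MP_b6945b_al.Bi.BPair
import Pool.Agent.Lib.MP_b6945b_al.Bi.BOrth

set_option autoImplicit false

/-!
The star construction on class functions.
-/

namespace Pool.Agent.Lib.MP_b6945b_al.Bi

open St IsLocalRing Finset
open MonoidAlgebra (single)

variable {G : Type} [Group G] [Fintype G] {V : ValuationSubring ℂ} {p : ℕ} [Fact p.Prime]

variable {η η' : G → MonoidAlgebra V G → ℂ} {x y : G → ℂ} {u s : G} {c e : MonoidAlgebra V G}

lemma Star_mul (η : G → MonoidAlgebra V G → ℂ) (x : G → ℂ) (hu : IsPElt p u) (hs : s ∈ Cu u)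
    (hr : ¬ p ∣ orderOf s) :
    Star p η x (u * s) = ∑ c ∈ blk V (Cu u), η u c * ev x (single (u * s) 1 * c) := by
  rw [Star_apply, pp_mul_eq hu hr (mem_Cu.1 hs)]

lemma Star_congr (h : ∀ u c, IsPElt p u → HB (Cu u) c → η u c = η' u c) :
    Star p η = Star p η' := by
  ext x g
  rw [Star_apply, Star_apply]
  exact Finset.sum_congr rfl fun c hc => by rw [h _ c (pp_spec g).1 (mem_blk.1 hc)]

omit [Fact p.Prime] in
lemma Star_zero : Star p (fun _ (_ : MonoidAlgebra V G) => 0) = 0 := by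
  ext x g
  simp [Star_apply]

omit [Fact p.Prime] in
lemma Star_sum {ι : Type} (t : Finset ι) (a : ι → ℂ) (F : ι → G → MonoidAlgebra V G → ℂ)
    (x : G → ℂ) (g : G) :
    Star p (fun u c => ∑ i ∈ t, a i * F i u c) x g = ∑ i ∈ t, a i * Star p (F i) x g := by
  simp only [Star_apply, Finset.sum_mul, Finset.mul_sum, mul_assoc]
  exact Finset.sum_comm

/-- `pp_conj`, `Cu_conj`, `sum_blk_cj`, `ev_cj_cf`. -/
lemma Star_cf (hη : EtaInv η) (hx : IsCF x) : IsCF (Star p η x) := by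
  intro h g
  rw [Star_apply, Star_apply, pp_conj, Cu_conj, sum_blk_cj]
  refine Finset.sum_congr rfl fun c _ => ?_
  rw [hη, ← frpg_cj_single, ← cjRep_mul, ev_cj_cf hx]

omit [Fintype G] [Fact p.Prime] in
lemma bstar_conj {h : G} (hh : h ∈ Cu u) (g : G) : u * (h * g * h⁻¹) = h * (u * g) * h⁻¹ := by
  rw [← mul_assoc, ← mul_assoc, mem_Cu.1 hh, mul_assoc h u g]

omit [Fact p.Prime] in
lemma bstar_shift (x : G → ℂ) (u s : G) (c : MonoidAlgebra V G) :
    ev x (single (u * s) 1 * c) = ev (fun y => x (u * y)) (single s 1 * c) := by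
  rw [← ev_single_mul, ← mul_assoc, MonoidAlgebra.single_mul_single, one_mul]

omit [Fintype G] [Fact p.Prime] in
lemma bstar_cf (hx : IsCF x) (u : G) : ∀ h ∈ Cu u, ∀ g ∈ Cu u,
    (fun y => x (u * y)) (h * g * h⁻¹) = (fun y => x (u * y)) g := by
  intro h hh g _
  show x (u * (h * g * h⁻¹)) = x (u * g)
  rw [bstar_conj hh, hx]

/-- On `C = Cu u` let `z y = x (u y)`, `z' y = Star η x (u y)`, `w c' y = ev z (single y 1 * c')`;
these are class functions of `C`, and `Reg z' = ∑ c', η u c' • Reg (w c')` on `C` (`Star_mul`).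
Use `orth_reg` twice, `ev_congr`, `ev_ev`, `ev_single_mul` and `HB.orth`. -/
theorem ev_Star (hp : (p : ℂ) ∈ V.nonunits) (hη : EtaInv η) (hx : IsCF x) (hu : IsPElt p u)
    (hs : s ∈ Cu u) (hr : ¬ p ∣ orderOf s) (hc : HB (Cu u) c) :
    ev (Star p η x) (single (u * s) 1 * c) = η u c * ev x (single (u * s) 1 * c) := by
  have hS : Supp (Cu u) (single s 1 * c) := (supp_single hs 1).mul hc.supp
  have h1 : ∀ g ∈ Cu u, Reg p (fun y => Star p η x (u * y)) g =
      (∑ c' ∈ blk V (Cu u), η u c' • Reg p fun y => ev x (single (u * y) 1 * c')) g := by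
    intro g hg
    rw [Finset.sum_apply]
    by_cases hr' : p ∣ orderOf g
    · rw [Reg_apply_sing _ hr']
      refine (Finset.sum_eq_zero fun c' _ => ?_).symm
      rw [Pi.smul_apply, Reg_apply_sing _ hr', smul_zero]
    · rw [Reg_apply_reg _ hr', Star_mul η x hu hg hr']
      refine Finset.sum_congr rfl fun c' _ => ?_
      rw [Pi.smul_apply, Reg_apply_reg _ hr', smul_eq_mul]
  have h2 : ∀ c' ∈ blk V (Cu u),
      ev (η u c' • Reg p fun y => ev x (single (u * y) 1 * c')) (single s 1 * c) =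
        η u c' * ev (fun y => x (u * y)) (single s 1 * (c * c')) := by
    intro c' hc'
    have hb := mem_blk.1 hc'
    rw [ev_smul_left, orth_reg hp hc.idem hc.supp hc.fix _ hs hr, ← mul_assoc,
      ← ev_ev _ (single s 1 * c) c']
    · simp only [bstar_shift x u]
    · intro h hh g _
      show ev x (single (u * (h * g * h⁻¹)) 1 * c') = ev x (single (u * g) 1 * c')
      rw [bstar_conj hh, ← frpg_cj_single, ← ev_cj_cf hx h (single (u * g) 1 * c'), cjRep_mul,
        hb.fix h hh]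
  rw [bstar_shift, ← orth_reg hp hc.idem hc.supp hc.fix (bstar_cf (Star_cf hη hx) u) hs hr,
    ev_congr hS h1, ev_sum_left, Finset.sum_congr rfl h2,
    Finset.sum_eq_single_of_mem c (mem_blk.2 hc), hc.idem, ← bstar_shift]
  intro c' hc' hne
  rw [hc.orth (mem_blk.1 hc') hne.symm, mul_zero, ev_zero, mul_zero]

theorem Star_Star (hp : (p : ℂ) ∈ V.nonunits) (hη : EtaInv η) (hx : IsCF x)
    (η' : G → MonoidAlgebra V G → ℂ) :
    Star p η' (Star p η x) = Star p (fun u c => η' u c * η u c) x := by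
  funext g
  rw [Star_apply, Star_apply]
  refine Finset.sum_congr rfl fun c hc => ?_
  have h := ev_Star hp hη hx (pp_spec g).1 (pq_mem_Cu g) (pp_spec g).2.2 (mem_blk.1 hc)
  rw [pp_mul_pq] at h
  rw [h, mul_assoc]

open Classical in
/-- Second main theorem.  For `g = u s` let `J` be the sum of the blocks `c` of `Cu u` with
`Le _ e c`; `bb J = toRes J = bb e` (`res_idem_eq_sum`); `ev_congr_bb` with `S = zpowers s`. -/
theorem Star_block (hp : (p : ℂ) ∈ V.nonunits) (he : e * e = e) (hf : Fix ⊤ e) (hx : IsCF x)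
    (h : ∀ u c, IsPElt p u → HB (Cu u) c →
      η u c = if Le (Subgroup.zpowers u) e c then 1 else 0) (g : G) :
    Star p η x g = ev x (single g 1 * e) := by
  obtain ⟨hu, -, hr⟩ := pp_spec (p := p) g
  have hs := pq_mem_Cu (p := p) g
  have hg := pp_mul_pq (p := p) g
  generalize pp p g = u at hu hs hg
  generalize pq p g = s at hr hs hg
  subst hg
  obtain ⟨T, hT⟩ : ∃ T : Finset (MonoidAlgebra V G),
      T = (blk V (Cu u)).filter (fun c => Le (Subgroup.zpowers u) e c) := ⟨_, rfl⟩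
  have hTb : ∀ β ∈ T, HB (Cu u) β := fun β hβ => by
    rw [hT] at hβ
    exact mem_blk.1 (Finset.mem_filter.1 hβ).1
  obtain ⟨j1, j2, j3⟩ := sum_blk_idem hTb
  have hSu : Subgroup.zpowers s ≤ Cu u := (Subgroup.zpowers_le).2 hs
  have hS : ¬ p ∣ Nat.card (Subgroup.zpowers s) := by rwa [Nat.card_zpowers]
  have hb : bb (Subgroup.zpowers u) (∑ β ∈ T, β) = bb (Subgroup.zpowers u) e := by
    have h1 := res_idem_eq_sum (V := V) (H := Cu u)
      (bb_idem hp hu.isPGroup he (hf.mono le_top)) (supp_bb _ e)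
      ((hf.mono le_top).bb (Cz_le_Nz _))
    rw [bb_of_supp j2, map_sum, h1, hT]
    refine Finset.sum_congr ?_ fun _ _ => rfl
    ext β
    rw [Finset.mem_filter, Finset.mem_filter]
    rfl
  rw [← ev_congr_bb hp hx hu hS (Subgroup.mem_zpowers s) hSu j1 he
    (mem_fxAlg.2 ⟨j3.mono (zpowers_le_Cu u), j3.mono hSu⟩)
    (mem_fxAlg.2 ⟨hf.mono le_top, hf.mono le_top⟩) hb, Star_mul η x hu hs hr, Finset.mul_sum,
    ev_sum, hT, Finset.sum_filter]
  refine Finset.sum_congr rfl fun c hc => ?_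
  rw [h u c hu (mem_blk.1 hc), ite_mul, one_mul, zero_mul]

/-- `Star_block` for the indicator function, `Star_Star`, `Star_congr`. -/
theorem Star_mem (hp : (p : ℂ) ∈ V.nonunits) (he : e * e = e) (hf : Fix ⊤ e) (hη : EtaInv η)
    (hs : ∀ u c, η u c ≠ 0 → Le (Subgroup.zpowers u) e c) (hx : IsCF x) :
    Star p η x ∈ CFs ⊤ e := by
  classical
  refine mem_CFs.2 ⟨fun g hg => absurd (Subgroup.mem_top g) hg,
    fun h _ g => Star_cf hη hx h g, fun g _ => ?_⟩
  rw [← Star_block (η := fun u c => if Le (Subgroup.zpowers u) e c then 1 else 0) hp he hf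
    (Star_cf hη hx) (fun _ _ _ _ => by congr) g, Star_Star hp hη hx, Star_congr (η' := η)]
  intro u c _ _
  by_cases h0 : η u c = 0
  · rw [h0, mul_zero]
  · rw [if_pos (hs u c h0), one_mul]

omit [Fact p.Prime] in
lemma cf_of_mem {e : MonoidAlgebra V G} (hx : x ∈ CFs ⊤ e) : IsCF x := by
  exact fun h g => (mem_CFs.1 hx).2.1 h (Subgroup.mem_top h) g

open Classical in
/-- `sum_pp`, `Star_mul`, `ev_single_mul'`, and `orth_reg` to discard the `p`-singular `s`. -/
theorem Star_pair (hp : (p : ℂ) ∈ V.nonunits) (η : G → MonoidAlgebra V G → ℂ) (hx : IsCF x)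
    (y : G → ℂ) :
    ∑ g, Star p η x g * y g⁻¹ = ∑ u, ∑ t, ∑ s,
      if IsPElt p u ∧ (t ∈ Cu u ∧ ¬ p ∣ orderOf t) ∧ (s ∈ Cu u ∧ ¬ p ∣ orderOf s) then
        ∑ c ∈ blk V (Cu u), η u c * cf c (t⁻¹ * s) * x (u * s) * y (u * t)⁻¹ else 0 := by
  rw [sum_pp (p := p)]
  refine Finset.sum_congr rfl fun u _ => Finset.sum_congr rfl fun t _ => ?_
  by_cases h : IsPElt p u ∧ t ∈ Cu u ∧ ¬ p ∣ orderOf t
  · obtain ⟨hu, ht, hr⟩ := h
    rw [if_pos ⟨hu, ht, hr⟩, Star_mul η x hu ht hr, Finset.sum_mul]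
    have h1 : ∀ c ∈ blk V (Cu u), η u c * ev x (single (u * t) 1 * c) * y (u * t)⁻¹ =
        ∑ s, if s ∈ Cu u ∧ ¬ p ∣ orderOf s then
          η u c * cf c (t⁻¹ * s) * x (u * s) * y (u * t)⁻¹ else 0 := by
      intro c hc
      have hb := mem_blk.1 hc
      rw [bstar_shift, ← orth_reg hp hb.idem hb.supp hb.fix (bstar_cf hx u) ht hr,
        ev_single_mul', Finset.mul_sum, Finset.sum_mul]
      refine Finset.sum_congr rfl fun s _ => ?_
      by_cases h2 : p ∣ orderOf s
      · rw [Reg_apply_sing _ h2, if_neg fun h3 => h3.2 h2, mul_zero, mul_zero, zero_mul]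
      · rw [Reg_apply_reg _ h2]
        by_cases h3 : s ∈ Cu u
        · rw [if_pos ⟨h3, h2⟩]
          ring
        · have h4 : t⁻¹ * s ∉ Cu u := fun h4 => h3 ((Subgroup.mul_mem_cancel_left _
            (Subgroup.inv_mem _ ht)).1 h4)
          rw [if_neg fun h5 => h3 h5.1, borth_cf_zero hb.supp h4, zero_mul, mul_zero, zero_mul]
    rw [Finset.sum_congr rfl h1, Finset.sum_comm]
    refine Finset.sum_congr rfl fun s _ => ?_
    by_cases h2 : s ∈ Cu u ∧ ¬ p ∣ orderOf s
    · rw [if_pos ⟨hu, ⟨ht, hr⟩, h2⟩]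
      exact Finset.sum_congr rfl fun c _ => if_pos h2
    · rw [if_neg fun h3 => h2 h3.2.2]
      exact Finset.sum_eq_zero fun c _ => if_neg h2
  · rw [if_neg h]
    exact (Finset.sum_eq_zero fun s _ => if_neg fun h3 => h ⟨h3.1, h3.2.1⟩).symm

end Pool.Agent.Lib.MP_b6945b_al.Bi
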