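import Pool.Agent.Lib.MP_b6945b_al.Bi.BPair

set_option autoImplicit false

/-!
Passage from a subgroup to the group it defines.
-/

namespace Pool.Agent.Lib.MP_b6945b_al.Bi

open St IsLocalRing Finset
open MonoidAlgebra (single)

variable {G : Type} [Group G] [Fintype G] {V : ValuationSubring ℂ} {p : ℕ} [Fact p.Prime]

variable {m : ℕ} {H D : Subgroup G} [Fintype H] {c : MonoidAlgebra V G}

omit [Fact p.Prime] in
lemma Rt.map_sub (h : Rt p m H D c) : (D.subgroupOf H).map H.subtype = D := by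
  exact Subgroup.map_subgroupOf_eq_of_le h.le_H

omit [Fact p.Prime] in
/-- `Cz_map`. -/
lemma Rt.map_Cz (h : Rt p m H D c) : (Cz (D.subgroupOf H)).map H.subtype = Cz D := by
  rw [Cz_map H.subtype_injective, h.map_sub, Subgroup.range_subtype]
  exact inf_eq_right.2 h.le

omit [Fact p.Prime] in
lemma Rt.map_Nz (h : Rt p m H D c) : (Nz (D.subgroupOf H)).map H.subtype = H ⊓ Nz D := by
  rw [Nz_map H.subtype_injective, h.map_sub, Subgroup.range_subtype]

omit [Fact p.Prime] [Fintype G] [Fintype H] in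
lemma map_Cu (d : H) : (Cu d).map H.subtype = H ⊓ Cu (d : G) := by
  rw [Cz_map H.subtype_injective, Subgroup.range_subtype, MonoidHom.map_zpowers]
  rfl

omit [Fact p.Prime] [Fintype G] [Fintype H] in
lemma map_top_sub (H : Subgroup G) : (⊤ : Subgroup H).map H.subtype = H := by
  rw [← MonoidHom.range_eq_map, Subgroup.range_subtype]

omit [Fact p.Prime] in
lemma Rt.inc_pull (h : Rt p m H D c) : inc V H.subtype (pull V H.subtype c) = c := by
  exact inc_pull_supp (h.root.supp.mono h.le)

omit [Fact p.Prime] in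
lemma Rt.root_pull (h : Rt p m H D c) : HB (Cz (D.subgroupOf H)) (pull V H.subtype c) := by
  refine (hb_inc_iff H.subtype_injective).1 ?_
  rw [h.map_Cz, h.inc_pull]
  exact h.root

/-- `bk_spec` in `↥H`, `hb_inc_iff`, `le_inc_iff`, `Rt.bk_eq`. -/
lemma Rt.bk_map (hp : (p : ℂ) ∈ V.nonunits) (h : Rt p m H D c) {K : Subgroup H}
    (hK : Cz (D.subgroupOf H) ≤ K) :
    bk D c (K.map H.subtype) = inc V H.subtype (bk (D.subgroupOf H) (pull V H.subtype c) K) := by
  have hpD : IsPGroup p (D.subgroupOf H) := h.pD.comap_subtype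
  have hDC : D.subgroupOf H ≤ Cz (D.subgroupOf H) := by
    intro x hx
    refine mem_Cz.2 fun d hd => Subtype.ext ?_
    exact h.comm _ (Subgroup.mem_subgroupOf.1 hx) _ (Subgroup.mem_subgroupOf.1 hd)
  obtain ⟨h1, h2⟩ := bk_spec hp hpD (hDC.trans hK) h.root_pull inf_le_right hK (Cz_le_Nz _)
  have hK' : Cz D ≤ K.map H.subtype := by
    rw [← h.map_Cz]
    exact Subgroup.map_mono hK
  refine h.bk_eq hp hK' ((hb_inc_iff H.subtype_injective).2 h1) ?_
  have h3 := (le_inc_iff H.subtype_injective).2 h2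
  rwa [h.map_sub, h.inc_pull] at h3

omit [Fact p.Prime] in
lemma Rt.stab_map (h : Rt p m H D c) :
    (stabT ⊤ (D.subgroupOf H) (pull V H.subtype c)).map H.subtype = stabT H D c := by
  rw [← stabT_inc H.subtype_injective, map_top_sub, h.map_sub, h.inc_pull]

theorem Rt.pull (hp : (p : ℂ) ∈ V.nonunits) (h : Rt p m H D c) :
    Rt p m ⊤ (D.subgroupOf H) (pull V H.subtype c) := by
  refine ⟨h.pD.comap_subtype, fun x hx y hy => Subtype.ext ?_, le_top, h.root_pull, ?_, ?_⟩
  · exact h.comm _ (Subgroup.mem_subgroupOf.1 hx) _ (Subgroup.mem_subgroupOf.1 hy)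
  · refine (maxR_inc_iff H.subtype_injective).1 ?_
    rw [← h.bk_map hp le_top, map_top_sub, h.map_sub]
    exact h.max
  · have h1 := h.inert
    rw [← h.stab_map, ← h.map_Cz, Subgroup.card_map_of_injective H.subtype_injective,
      Subgroup.card_map_of_injective H.subtype_injective] at h1
    exact h1

lemma Rt.kL_map (hp : (p : ℂ) ∈ V.nonunits) (h : Rt p m H D c) {K : Subgroup H}
    (hK : Cz (D.subgroupOf H) ≤ K) :
    kL (K.map H.subtype) (bk D c (K.map H.subtype)) =
      kL K (bk (D.subgroupOf H) (St.pull V H.subtype c) K) := by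
  rw [h.bk_map hp hK]
  exact kL_inc H.subtype_injective ((h.pull hp).spec hp hK).1.supp

lemma Rt.lL_map (hp : (p : ℂ) ∈ V.nonunits) (h : Rt p m H D c) {K : Subgroup H}
    (hK : Cz (D.subgroupOf H) ≤ K) :
    lL p (K.map H.subtype) (bk D c (K.map H.subtype)) =
      lL p K (bk (D.subgroupOf H) (St.pull V H.subtype c) K) := by
  rw [h.bk_map hp hK]
  exact lL_inc p H.subtype_injective ((h.pull hp).spec hp hK).1.supp

end Pool.Agent.Lib.MP_b6945b_al.Bi
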